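import Mathlib

/-!
# Spaces with a conical bicombing and a gauge: definitions

Part A3 of the proof that linear groups are in the hull (the abstract cone construction).
-/

set_option autoImplicit false

open Set Filter Topology

namespace Pool.Agent.GLN

/-- A conical, consistent geodesic bicombing (only the values for `t ∈ [0, 1]` are used). -/
structure Bicomb (B : Type) [MetricSpace B] (geo : B → B → ℝ → B) : Prop where
  zero : ∀ x y, geo x y 0 = x
  one : ∀ x y, geo x y 1 = y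
  speed : ∀ x y s t, 0 ≤ s → s ≤ 1 → 0 ≤ t → t ≤ 1 →
    dist (geo x y s) (geo x y t) ≤ |s - t| * dist x y
  conical : ∀ x y x' y' t, 0 ≤ t → t ≤ 1 →
    dist (geo x y t) (geo x' y' t) ≤ (1 - t) * dist x x' + t * dist y y'
  consistent : ∀ x y a b t, 0 ≤ a → a ≤ 1 → 0 ≤ b → b ≤ 1 → 0 ≤ t → t ≤ 1 →
    geo (geo x y a) (geo x y b) t = geo x y ((1 - t) * a + t * b)

/-- `B` has open covers by small sets with multiplicity at most `n + 1`. -/
def SmallCovers (B : Type) [MetricSpace B] (n : ℕ) : Prop :=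
  ∀ ε : ℝ, 0 < ε → ∃ (κ : Type) (U : κ → Set B), (∀ j, IsOpen (U j)) ∧ (⋃ j, U j) = univ ∧
    (∀ j, ∀ x ∈ U j, ∀ y ∈ U j, dist x y < ε) ∧ ∀ x, {j | x ∈ U j}.encard ≤ n + 1

/-- The data for the cone construction for a finite subset `S` of `G`: the gauges `F m` are
`L`-Lipschitz, decreasing in `m`, and convex up to a shift of `m`; `R` bounds the growth of the
radius, `η` bounds the displacement of the base point by the elements of `S`. -/
structure ConeData (G : Type) [Group G] (S : Finset G) (B : Type) [MetricSpace B] [MulAction G B]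
    (geo : B → B → ℝ → B) (o : B) (F : ℕ → B → ℝ) (L R η : ℝ) : Prop where
  bicomb : Bicomb B geo
  isom : ∀ (g : G) (x y : B), dist (g • x) (g • y) = dist x y
  geo_smul : ∀ (g : G) (x y : B) t, 0 ≤ t → t ≤ 1 → g • geo x y t = geo (g • x) (g • y) t
  nonneg : ∀ m x, 0 ≤ F m x
  anti : ∀ m x, F (m + 1) x ≤ F m x
  lip : ∀ m x y, |F m x - F m y| ≤ L * dist x y
  base : ∀ m, F m o = 0
  convex : ∀ m x y t, 0 ≤ t → t ≤ 1 → F (m + 1) (geo x y t) ≤ (1 - t) * F m x + t * F m y
  loc : ∀ x, ∃ r : ℝ, 0 < r ∧ ∀ y, dist x y < r → ∀ m t, 0 ≤ t → t ≤ 1 →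
    F m (geo x y t) ≤ (1 - t) * F m x + t * F m y
  smul : ∀ s ∈ S, ∀ m x, F (m + 1) (s • x) ≤ F m x
  radius : ∀ m x, dist o x ≤ R * (m + 1) + 2 * F m x
  compact : ∀ c : ℕ → ℝ, Tendsto c atTop (𝓝 0) → IsCompact {x | ∀ m, F m x ≤ c m}
  eta : ∀ s ∈ S, dist o (s • o) ≤ η

end Pool.Agent.GLN
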