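import Pool.Agent.Lib.MP_98022b_gln.LineMain

/-!
# Tracks and persistent states: definitions
-/

set_option autoImplicit false

open Set Filter Topology

namespace Pool.Agent.TR

section

variable {V : Type}

/-- `u` is a monotone path of states with the clock `κ` on `[0, b]`. -/
structure IsTrack (dl : V → V → ℤ) (M : ℕ) (b : ℝ) (u : ℝ → V) (κ : ℝ → ℤ) : Prop where
  mono : ∀ s ∈ Icc 0 b, ∀ t ∈ Icc 0 b, s ≤ t → κ s ≤ κ t
  dl_eq : ∀ s ∈ Icc 0 b, ∀ t ∈ Icc 0 b, dl (u s) (u t) = |κ s - κ t|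
  eq : ∀ s ∈ Icc 0 b, ∀ t ∈ Icc 0 b, κ s = κ t → u s = u t
  lower : ∀ s ∈ Icc 0 b, ∀ t ∈ Icc 0 b, s ≤ t → t - s - 1 ≤ κ t - κ s
  upper : ∀ s ∈ Icc 0 b, ∀ t ∈ Icc 0 b, s ≤ t → κ t - κ s ≤ M * ⌈t - s⌉

/-- `E` is a set of bad times for the path `u` of states: the state is constant on intervals
without bad times, and two bad times in `[0, 5 * H]` are at most `δ` or at least `4 * δ` apart. -/
structure IsEvents (H δ : ℝ) (u : ℝ → V) (E : Set ℝ) : Prop where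
  const : ∀ s ∈ Icc 0 (5 * H), ∀ t ∈ Icc 0 (5 * H), s ≤ t → (∀ e ∈ E, e ∉ Icc s t) → u s = u t
  gap : ∀ e ∈ E, ∀ e' ∈ E, e ∈ Icc 0 (5 * H) → e' ∈ Icc 0 (5 * H) → |e - e'| ≤ δ ∨
    4 * δ ≤ |e - e'|

/-- The clock relative to the time `2 * H`. -/
noncomputable def clk (dl : V → V → ℤ) (u : ℝ → V) (H s : ℝ) : ℤ :=
  if 2 * H ≤ s then dl (u (2 * H)) (u s) else -dl (u (2 * H)) (u s)

/-- The state `p` with the clock `c` persists for a time `> 2 * δ` within `[H, 3 * H]`. -/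
def Pers (dl : V → V → ℤ) (u : ℝ → V) (H δ : ℝ) (c : ℤ) (p : V) : Prop :=
  ∃ s₁ s₂, H ≤ s₁ ∧ s₁ + 2 * δ < s₂ ∧ s₂ ≤ 3 * H ∧ ∀ s ∈ Icc s₁ s₂, u s = p ∧ clk dl u H s = c

open Classical in
/-- The sequence of the persistent states, indexed by the clock. -/
noncomputable def seqP (dl : V → V → ℤ) (u : ℝ → V) (H δ : ℝ) (c : ℤ) : Option V :=
  if h : ∃! p, Pers dl u H δ c p then some h.choose else none

end

variable {ι : Type} [Fintype ι]

/-- The clock of a family of affine functions. -/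
noncomputable def kap (a b : ι → ℝ) (r s : ℝ) : ℤ :=
  ∑ i, if 0 ≤ b i then -⌈r - (a i + b i * s)⌉ else ⌈r - (a i + b i * s)⌉

/-- The bad times of a family of affine functions. -/
def evs (a b : ι → ℝ) (r ε : ℝ) : Set ℝ := {s | Pool.Agent.GLN.BadPt a b r ε s}

end Pool.Agent.TR
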