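import Pool.Agent.Lib.MP_98022b_gln.GeoIface
import Pool.Agent.Lib.MP_98022b_gln.ConeDefs
import Pool.Agent.Lib.MP_98022b_gln.Track

/-!
# The states along a geodesic form a track
-/

set_option autoImplicit false

open Set Filter Topology

namespace Pool.Agent.GLN

open Pool.Agent.TR (IsTrack IsEvents GoodPair kap evs)

/-! ### The clock of a family of affine functions -/

section Kap

variable {ι : Type} [Fintype ι] {a b : ι → ℝ} {r : ℝ}

/-- One summand of the clock. -/
private noncomputable def kk (a b : ι → ℝ) (r : ℝ) (i : ι) (s : ℝ) : ℤ :=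
  if 0 ≤ b i then -⌈r - (a i + b i * s)⌉ else ⌈r - (a i + b i * s)⌉

omit [Fintype ι] in
private theorem kk_mono (i : ι) {s t : ℝ} (h : s ≤ t) : kk a b r i s ≤ kk a b r i t := by
  unfold kk
  split_ifs with hb
  · rw [neg_le_neg_iff]
    refine Int.ceil_le_ceil ?_
    have := mul_le_mul_of_nonneg_left h hb
    linarith
  · refine Int.ceil_le_ceil ?_
    push Not at hb
    have := mul_le_mul_of_nonpos_left h hb.le
    linarith

omit [Fintype ι] in
private theorem kk_abs (i : ι) (s t : ℝ) : |⌈r - (a i + b i * s)⌉ - ⌈r - (a i + b i * t)⌉| =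
    |kk a b r i s - kk a b r i t| := by
  unfold kk
  split_ifs with hb
  · rw [abs_sub_comm]
    congr 1
    ring
  · rfl

omit [Fintype ι] in
private theorem kk_upper (hb : ∀ i, |b i| ≤ 1) (i : ι) {s t : ℝ} (h : s ≤ t) :
    kk a b r i t - kk a b r i s ≤ ⌈t - s⌉ := by
  have h0 : 0 ≤ t - s := sub_nonneg.2 h
  have key : ∀ x y : ℝ, x - y ≤ t - s → ⌈x⌉ - ⌈y⌉ ≤ ⌈t - s⌉ := by
    intro x y hxy
    have h1 : ⌈x⌉ ≤ ⌈y⌉ + ⌈t - s⌉ := by
      refine Int.ceil_le.2 ?_
      push_cast
      have h2 := Int.le_ceil y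
      have h3 := Int.le_ceil (t - s)
      linarith
    omega
  have hb' := abs_le.1 (hb i)
  have h1 : b i * (t - s) ≤ t - s := by nlinarith
  have h2 : -(t - s) ≤ b i * (t - s) := by nlinarith
  unfold kk
  split_ifs with hbi
  · have := key (r - (a i + b i * s)) (r - (a i + b i * t)) (by nlinarith)
    omega
  · exact key _ _ (by nlinarith)

omit [Fintype ι] in
private theorem kk_lower {i : ι} (hi : |b i| = 1) {s t : ℝ} :
    t - s - 1 ≤ ((kk a b r i t - kk a b r i s : ℤ) : ℝ) := by
  have hb : b i = 1 ∨ b i = -1 := by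
    rcases abs_eq (zero_le_one' ℝ) |>.1 hi with h | h
    · exact Or.inl h
    · exact Or.inr h
  unfold kk
  rcases hb with hb | hb
  · rw [if_pos (by rw [hb]; norm_num), if_pos (by rw [hb]; norm_num), hb]
    have h1 := Int.le_ceil (r - (a i + 1 * s))
    have h2 := Int.ceil_lt_add_one (r - (a i + 1 * t))
    push_cast
    linarith
  · rw [if_neg (by rw [hb]; norm_num), if_neg (by rw [hb]; norm_num), hb]
    have h1 := Int.le_ceil (r - (a i + -1 * t))
    have h2 := Int.ceil_lt_add_one (r - (a i + -1 * s))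
    push_cast
    linarith

private theorem kap_eq (s : ℝ) : kap a b r s = ∑ i, kk a b r i s := rfl

theorem kap_mono {s t : ℝ} (h : s ≤ t) : kap a b r s ≤ kap a b r t := by
  rw [kap_eq, kap_eq]
  exact Finset.sum_le_sum fun i _ => kk_mono i h

theorem sum_abs_eq (s t : ℝ) :
    ∑ i, |⌈r - (a i + b i * s)⌉ - ⌈r - (a i + b i * t)⌉| = |kap a b r s - kap a b r t| := by
  have key : ∀ s t : ℝ, s ≤ t → ∑ i, |kk a b r i s - kk a b r i t| =
      |kap a b r s - kap a b r t| := by
    intro s t h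
    rw [abs_sub_comm, abs_of_nonneg (sub_nonneg.2 (kap_mono h)), kap_eq, kap_eq,
      ← Finset.sum_sub_distrib]
    refine Finset.sum_congr rfl fun i _ => ?_
    rw [abs_sub_comm, abs_of_nonneg (sub_nonneg.2 (kk_mono i h))]
  simp only [kk_abs]
  rcases le_total s t with h | h
  · exact key s t h
  · rw [abs_sub_comm, ← key t s h]
    exact Finset.sum_congr rfl fun i _ => abs_sub_comm _ _

theorem kap_upper (hb : ∀ i, |b i| ≤ 1) {s t : ℝ} (h : s ≤ t) :
    kap a b r t - kap a b r s ≤ (Fintype.card ι : ℤ) * ⌈t - s⌉ := by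
  rw [kap_eq, kap_eq, ← Finset.sum_sub_distrib]
  calc ∑ i, (kk a b r i t - kk a b r i s) ≤ ∑ _i : ι, ⌈t - s⌉ :=
        Finset.sum_le_sum fun i _ => kk_upper hb i h
    _ = (Fintype.card ι : ℤ) * ⌈t - s⌉ := by
        rw [Finset.sum_const, Finset.card_univ, nsmul_eq_mul]

theorem kap_lower (hb : ∃ i, |b i| = 1) {s t : ℝ} (h : s ≤ t) :
    t - s - 1 ≤ ((kap a b r t - kap a b r s : ℤ) : ℝ) := by
  obtain ⟨i, hi⟩ := hb
  refine (kk_lower (a := a) (r := r) hi).trans ?_
  rw [kap_eq, kap_eq, ← Finset.sum_sub_distrib]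
  have := Finset.single_le_sum (f := fun i => kk a b r i t - kk a b r i s)
    (fun j _ => sub_nonneg.2 (kk_mono j h)) (Finset.mem_univ i)
  exact_mod_cast this

omit [Fintype ι] in
/-- If the ceilings differ then one of the functions has a value in `r + ℤ` between. -/
theorem exists_cross {i : ι} {s t : ℝ} (h : s ≤ t)
    (hne : ⌈r - (a i + b i * s)⌉ ≠ ⌈r - (a i + b i * t)⌉) :
    ∃ e, s ≤ e ∧ e ≤ t ∧ ∃ m : ℤ, a i + b i * e - r - m = 0 := by
  -- the function `x ↦ r - (a i + b i * x)` takes an integral value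
  have hcont : Continuous fun x : ℝ => r - (a i + b i * x) := by fun_prop
  rcases lt_or_gt_of_ne hne with h1 | h1
  · -- `r - f s ≤ ⌈r - f s⌉ < r - f t`
    have h2 : r - (a i + b i * s) ≤ (⌈r - (a i + b i * s)⌉ : ℝ) := Int.le_ceil _
    have h3 : (⌈r - (a i + b i * s)⌉ : ℝ) < r - (a i + b i * t) := Int.lt_ceil.1 h1
    obtain ⟨e, he, he'⟩ := intermediate_value_Icc h hcont.continuousOn ⟨h2, h3.le⟩
    refine ⟨e, he.1, he.2, -⌈r - (a i + b i * s)⌉, ?_⟩
    simp only at he'
    push_cast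
    linarith
  · have h2 : r - (a i + b i * t) ≤ (⌈r - (a i + b i * t)⌉ : ℝ) := Int.le_ceil _
    have h3 : (⌈r - (a i + b i * t)⌉ : ℝ) < r - (a i + b i * s) := Int.lt_ceil.1 h1
    obtain ⟨e, he, he'⟩ := intermediate_value_Icc' h hcont.continuousOn ⟨h2, h3.le⟩
    refine ⟨e, he.1, he.2, -⌈r - (a i + b i * t)⌉, ?_⟩
    simp only at he'
    push_cast
    linarith

end Kap

/-! ### Tracks -/

variable {G B V : Type} [Group G] [MetricSpace B] [MulAction G B] [MulAction G V]
  {dV : V → V → ℕ} {M : ℕ} {geo : B → B → ℝ → B} (Δ : Disc G B V dV M geo)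

/-- The properties of `Disc.path`. -/
structure Crv (x y : B) (a b : Fin M → ℝ) : Prop where
  slope : ∀ i, |b i| ≤ 1
  top : ∃ i, |b i| = 1
  dl : ∀ r s s', 0 ≤ s → s ≤ dist x y → 0 ≤ s' → s' ≤ dist x y →
    (dV (Δ.st r (endPt geo x y s)) (Δ.st r (endPt geo x y s')) : ℤ) =
      ∑ i, |⌈r - (a i + b i * s)⌉ - ⌈r - (a i + b i * s')⌉|
  far : ∀ r e s, 0 ≤ s → s ≤ dist x y →
    (Δ.far r e (endPt geo x y s) ↔ ∀ i (k : ℤ), e ≤ |a i + b i * s + k - r|)

theorem exists_crv {x y : B} (h : x ≠ y) : ∃ a b, Crv Δ x y a b := by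
  obtain ⟨a, b, h1, h2, h3, h4⟩ := Δ.path x y h
  exact ⟨a, b, h1, h2, h3, h4⟩

variable {Δ}

/-- The states along a geodesic form a track. -/
theorem Crv.isTrack {x y : B} {a b : Fin M → ℝ} (h : Crv Δ x y a b)
    (hsep : ∀ v w, dV v w = 0 → v = w) {T : ℝ} (hT : T ≤ dist x y) (r : ℝ) :
    IsTrack (fun p q => (dV p q : ℤ)) M T (fun s => Δ.st r (endPt geo x y s)) (kap a b r) where
  mono s _ t _ hst := kap_mono hst
  dl_eq s hs t ht := by
    rw [h.dl r s t hs.1 (hs.2.trans hT) ht.1 (ht.2.trans hT), sum_abs_eq]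
  eq s hs t ht he := by
    refine hsep _ _ ?_
    have h1 := h.dl r s t hs.1 (hs.2.trans hT) ht.1 (ht.2.trans hT)
    rw [sum_abs_eq, he, sub_self, abs_zero] at h1
    exact_mod_cast h1
  lower s _ t _ hst := by
    have := kap_lower (a := a) (r := r) h.top hst
    push_cast at this
    exact this
  upper s _ t _ hst := by
    have := kap_upper (a := a) (r := r) h.slope hst
    rw [Fintype.card_fin] at this
    exact this

/-- The bad times. -/
theorem Crv.isEvents {x y : B} {a b : Fin M → ℝ} (h : Crv Δ x y a b)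
    (hsep : ∀ v w, dV v w = 0 → v = w) {H ε r δ : ℝ} (hT : 5 * H ≤ dist x y) (hε : 0 ≤ ε)
    (hG : GoodPair a b H ε r δ) :
    IsEvents H δ (fun s => Δ.st r (endPt geo x y s)) (evs a b r ε) where
  const s hs t ht hst he := by
    refine hsep _ _ ?_
    have h1 := h.dl r s t hs.1 (hs.2.trans hT) ht.1 (ht.2.trans hT)
    have h2 : ∑ i, |⌈r - (a i + b i * s)⌉ - ⌈r - (a i + b i * t)⌉| = 0 := by
      refine Finset.sum_eq_zero fun i _ => ?_
      rw [abs_eq_zero, sub_eq_zero]
      by_contra hne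
      obtain ⟨e, h3, h4, m, hm⟩ := exists_cross hst hne
      refine he e ⟨i, m, ?_⟩ ⟨h3, h4⟩
      rw [hm, abs_zero]
      exact hε
    rw [h2] at h1
    exact_mod_cast h1
  gap e he e' he' h1 h2 := hG e h1 e' h2 he he'

/-- At a time which is not bad the point is far from the threshold. -/
theorem Crv.far_of_not_mem {x y : B} {a b : Fin M → ℝ} (h : Crv Δ x y a b) {ε r s : ℝ}
    (hs : 0 ≤ s) (hs' : s ≤ dist x y) (he : s ∉ evs a b r ε) :
    Δ.far r ε (endPt geo x y s) := by
  rw [h.far r ε s hs hs']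
  intro i k
  by_contra hcon
  push Not at hcon
  refine he ⟨i, -k, ?_⟩
  push_cast
  rw [show a i + b i * s - r - -(k : ℝ) = a i + b i * s + k - r by ring]
  exact hcon.le

/-! ### Geodesics -/

/-- Moving the end. -/
theorem Bicomb.dist_endPt_le (hB : Bicomb B geo) {x y y' : B} {s : ℝ} (hs : 0 ≤ s)
    (h : s ≤ dist x y) (h' : s ≤ dist x y') :
    dist (endPt geo x y s) (endPt geo x y' s) ≤ 2 * dist y y' := by
  unfold endPt
  rcases hs.eq_or_lt with rfl | hs0
  · simp only [zero_div, sub_zero, hB.one]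
    linarith [dist_nonneg (x := y) (y := y')]
  have hT : 0 < dist x y := hs0.trans_le h
  have hT' : 0 < dist x y' := hs0.trans_le h'
  have h1 : s / dist x y ≤ 1 := (div_le_one hT).2 h
  have h2 : s / dist x y' ≤ 1 := (div_le_one hT').2 h'
  have h3 : 0 ≤ s / dist x y := by positivity
  have h4 : 0 ≤ s / dist x y' := by positivity
  refine (dist_triangle _ (geo x y' (1 - s / dist x y)) _).trans ?_
  have h5 := hB.conical x y x y' (1 - s / dist x y) (by linarith) (by linarith)
  rw [dist_self, mul_zero, zero_add] at h5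
  have h6 := hB.speed x y' (1 - s / dist x y) (1 - s / dist x y') (by linarith) (by linarith)
    (by linarith) (by linarith)
  have h7 : |1 - s / dist x y - (1 - s / dist x y')| * dist x y' ≤ dist y y' := by
    have e1 : 1 - s / dist x y - (1 - s / dist x y') =
        s / dist x y * ((dist x y - dist x y') / dist x y') := by
      field_simp
      ring
    rw [e1, abs_mul, abs_of_nonneg h3, abs_div, abs_of_pos hT']
    have h8 : |dist x y - dist x y'| ≤ dist y y' := by
      rw [dist_comm x y, dist_comm x y']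
      exact abs_dist_sub_le y y' x
    calc s / dist x y * (|dist x y - dist x y'| / dist x y') * dist x y'
        = s / dist x y * |dist x y - dist x y'| := by
          field_simp
      _ ≤ 1 * |dist x y - dist x y'| := mul_le_mul_of_nonneg_right h1 (abs_nonneg _)
      _ ≤ dist y y' := by rw [one_mul]; exact h8
  have h9 : (1 - s / dist x y) * dist y y' ≤ dist y y' := by
    have := mul_le_mul_of_nonneg_right (show 1 - s / dist x y ≤ 1 by linarith)
      (dist_nonneg (x := y) (y := y'))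
    linarith
  linarith

end Pool.Agent.GLN
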