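import Pool.Agent.Lib.MP_98022b_fa.Defs

/-!
# Transfer reducible groups

Bartels, Lück, The Borel conjecture for hyperbolic and CAT(0)-groups, Definitions 1.4 - 1.8.
-/

set_option autoImplicit false

open Set
open scoped Pointwise

namespace Pool.Agent.GLN

open Pool.Agent.FA

/-- A homotopy `S`-action on `X`. -/
structure HomotopyAction (G : Type) [Group G] (S : Finset G) (X : Type) [TopologicalSpace X] where
  φ : G → X → X
  H : G → G → X → unitInterval → X
  continuous_φ : ∀ g ∈ S, Continuous (φ g)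
  continuous_H : ∀ g ∈ S, ∀ h ∈ S, g * h ∈ S → Continuous fun p : X × unitInterval => H g h p.1 p.2
  H_zero : ∀ g ∈ S, ∀ h ∈ S, g * h ∈ S → ∀ x, H g h x 0 = φ g (φ h x)
  H_one : ∀ g ∈ S, ∀ h ∈ S, g * h ∈ S → ∀ x, H g h x 1 = φ (g * h) x
  φ_one : ∀ x, φ 1 x = x
  H_one_one : ∀ x t, H 1 1 x t = x

namespace HomotopyAction

variable {G : Type} [Group G] {S : Finset G} {X : Type} [TopologicalSpace X]

/-- The maps `H_{r,s}(·, t)` with `r s = a`. -/
def F (θ : HomotopyAction G S X) (a : G) : Set (X → X) :=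
  {f | ∃ r ∈ S, ∃ s ∈ S, r * s = a ∧ ∃ t, f = fun x => θ.H r s x t}

/-- The point `q` is in `S^1(p)`. -/
def Step (θ : HomotopyAction G S X) (p q : G × X) : Prop :=
  ∃ a ∈ S, ∃ b ∈ S, ∃ f ∈ θ.F a, ∃ f' ∈ θ.F b, f p.2 = f' q.2 ∧ q.1 = p.1 * a⁻¹ * b

/-- The set `S^n(p)`. -/
def nbhd (θ : HomotopyAction G S X) : ℕ → G × X → Set (G × X)
  | 0 => fun p => {p}
  | n + 1 => fun p => {q | ∃ r ∈ θ.nbhd n p, θ.Step r q}

end HomotopyAction

/-- The translate of a subset of `G × X` (`h (g, x) = (h g, x)`). -/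
def tr {G X : Type} [Group G] (h : G) (U : Set (G × X)) : Set (G × X) :=
  {p | (h⁻¹ * p.1, p.2) ∈ U}

/-- The subgroup of all `h` with `h U = U`. -/
def stab {G X : Type} [Group G] (U : Set (G × X)) : Subgroup G where
  carrier := {h | tr h U = U}
  one_mem' := by
    ext p
    simp [tr]
  mul_mem' := by
    intro a b ha hb
    have ha' : tr a U = U := ha
    have hb' : tr b U = U := hb
    have h : tr (a * b) U = tr a (tr b U) := by
      ext p
      simp [tr, mul_assoc]
    show tr (a * b) U = U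
    rw [h, hb', ha']
  inv_mem' := by
    intro a ha
    have ha' : tr a U = U := ha
    have h : tr a⁻¹ (tr a U) = U := by
      ext p
      simp [tr]
    show tr a⁻¹ U = U
    rw [ha'] at h
    exact h

/-- `𝒰` is a `G`-invariant open cover of `G × X` (`h (g, x) = (h g, x)`), each member is equal to or
disjoint from each of its translates, the stabilizers of the members are in `𝓕`, each point is in at
most `N + 1` members, and each set `S^n(g, x)`, `n = card S`, is contained in a member. -/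
structure IsLongCover {G X : Type} [Group G] [TopologicalSpace X] {S : Finset G}
    (θ : HomotopyAction G S X) (N : ℕ) (𝓕 : Subgroup G → Prop) (𝒰 : Set (Set (G × X))) : Prop where
  isOpen : ∀ U ∈ 𝒰, ∀ g : G, IsOpen {x | (g, x) ∈ U}
  tr_mem : ∀ U ∈ 𝒰, ∀ h : G, tr h U ∈ 𝒰
  eq_or_disjoint : ∀ U ∈ 𝒰, ∀ h : G, tr h U = U ∨ Disjoint (tr h U) U
  stabilizer : ∀ U ∈ 𝒰, 𝓕 (stab U)
  order : ∀ p, {U ∈ 𝒰 | p ∈ U}.encard ≤ N + 1
  long : ∀ p : G × X, ∃ U ∈ 𝒰, θ.nbhd S.card p ⊆ U

/-- `G` is finitely generated and transfer reducible over `𝓕`: there is `N` such that for each finite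
subset `S` of `G` containing `1` there are a compact, metrizable, contractible, (strongly) locally
contractible space `X` of covering dimension at most `N`, a homotopy `S`-action on `X` and a cover of
`G × X` as in `IsLongCover`. -/
def TransferReducible (G : Type) [Group G] (𝓕 : Subgroup G → Prop) : Prop :=
  Group.FG G ∧ ∃ N : ℕ, ∀ S : Finset G, (1 : G) ∈ S →
    ∃ (X : Type) (_ : TopologicalSpace X), CompactSpace X ∧ TopologicalSpace.MetrizableSpace X ∧
      ContractibleSpace X ∧ StronglyLocallyContractibleSpace X ∧ CovDimLE X N ∧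
      ∃ (θ : HomotopyAction G S X) (𝒰 : Set (Set (G × X))), IsLongCover θ N 𝓕 𝒰

end Pool.Agent.GLN
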