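import Pool.Agent.Lib.MP_98022b_gln.SeqDefs
import Pool.Agent.Lib.MP_98022b_gln.TRDefs

/-!
# Interfaces between the parts of the geometric side

`Disc` (from A1: norms), `GaugeFin` (from A2), `ConeOut` (from A3). `B` is the space of the families
of norms (one for each place) of volume `0` with the maximum metric, `geo x y t` the geodesic,
`o` the base point, `F m : B → ℝ` the gauge functions, `V` the `G`-set of vertices.
-/

set_option autoImplicit false

open Set

namespace Pool.Agent.GLN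

open Pool.Agent.FA

/-- The point at distance `s` from the end `y` of the geodesic from `x` to `y`. -/
noncomputable def endPt {B : Type} [MetricSpace B] (geo : B → B → ℝ → B) (x y : B) (s : ℝ) : B :=
  geo x y (1 - s / dist x y)

/-- Discretization. `st r w` is the tuple of the lattices `{w ≥ r}`, `far r e w` means that no value
of `w` is within `e` of `r`. `M = n * card I`. -/
structure Disc (G B V : Type) [Group G] [MetricSpace B] [MulAction G B] [MulAction G V]
    (dV : V → V → ℕ) (M : ℕ) (geo : B → B → ℝ → B) where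
  st : ℝ → B → V
  far : ℝ → ℝ → B → Prop
  st_smul : ∀ (g : G) r w, st r (g • w) = g • st r w
  far_smul : ∀ (g : G) r e w, far r e (g • w) ↔ far r e w
  far_dist : ∀ r e w w', far r e w → far r (e - dist w w') w'
  st_eq : ∀ r e w w', far r e w → dist w w' < e → st r w' = st r w
  vals : ∀ w, ∃ a : Fin M → ℝ, ∀ r e, far r e w ↔ ∀ i (k : ℤ), e ≤ |a i + k - r|
  mesh : ∀ K : ℕ, 0 < K → ∀ r w w', (∀ i < K, st (r + i / K) w = st (r + i / K) w') →
    dist w w' ≤ 1 / K
  path : ∀ x y : B, x ≠ y → ∃ a b : Fin M → ℝ, (∀ i, |b i| ≤ 1) ∧ (∃ i, |b i| = 1) ∧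
    (∀ r s s', 0 ≤ s → s ≤ dist x y → 0 ≤ s' → s' ≤ dist x y →
      (dV (st r (endPt geo x y s)) (st r (endPt geo x y s')) : ℤ) =
        ∑ i, |⌈r - (a i + b i * s)⌉ - ⌈r - (a i + b i * s')⌉|) ∧
    ∀ r e s, 0 ≤ s → s ≤ dist x y →
      (far r e (endPt geo x y s) ↔ ∀ i (k : ℤ), e ≤ |a i + b i * s + k - r|)

/-- Finiteness of the states of small gauge. -/
def GaugeFin {G B V : Type} [Group G] [MetricSpace B] [MulAction G B] [MulAction G V]
    {dV : V → V → ℕ} {M : ℕ} {geo : B → B → ℝ → B} (Δ : Disc G B V dV M geo) (F : ℕ → B → ℝ) :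
    Prop :=
  ∃ C : ℕ, ∀ m : ℕ, ∃ A : Set V, A.Finite ∧ A.ncard ≤ 2 ^ 2 ^ (C * (m + 1) ^ 2) ∧
    ∀ r e w, Δ.far r e w → F m w < e → Δ.st r w ∈ A

/-- The output of the cone construction for the finite set `S` (`N₀` does not depend on `S`). -/
def ConeOut {G B : Type} [Group G] [MetricSpace B] [MulAction G B] (geo : B → B → ℝ → B) (o : B)
    (F : ℕ → B → ℝ) (S : Finset G) (N₀ : ℕ) : Prop :=
  ∃ C : ℝ, 0 < C ∧ ∀ D : ℕ, C ≤ D → ∃ (X : Type) (_ : TopologicalSpace X), CompactSpace X ∧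
    TopologicalSpace.MetrizableSpace X ∧ ContractibleSpace X ∧
    StronglyLocallyContractibleSpace X ∧ CovDimLE X N₀ ∧
    ∃ (θ : HomotopyAction G S X) (p : X → B), Continuous p ∧
      (∀ z (k : ℕ), 1 ≤ k → F (D * k) (p z) ≤ C * D / 2 ^ k) ∧
      ∀ g z, ∀ q ∈ θ.nbhd S.card (g, z),
        dist (g • p z) (q.1 • p q.2) ≤ C * (dist (g • o) (g • p z) + 1) / D ∧
        |dist (g • o) (g • p z) - dist (q.1 • o) (q.1 • p q.2)| ≤ C ∧
        ∃ σ : ℝ, |σ| ≤ C ∧ ∀ s, C ≤ s → s + C ≤ dist (g • o) (g • p z) →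
          dist (endPt geo (g • o) (g • p z) s) (endPt geo (q.1 • o) (q.1 • p q.2) (s + σ)) ≤
            C * (1 / D + s / dist (g • o) (g • p z))

end Pool.Agent.GLN
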