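import Pool.Agent.Lib.MP_98022b_gln.ConePar
import Pool.Agent.Lib.MP_98022b_gln.GeoIface

/-!
# The cone space: chains of steps, and the result
-/

set_option autoImplicit false
set_option linter.unusedSectionVars false

open Set Filter Topology

namespace Pool.Agent.GLN

open Pool.Agent.FA Cn

variable {G : Type} [Group G] {S : Finset G} {B : Type} [MetricSpace B] [MulAction G B]
  {geo : B → B → ℝ → B} {o : B} {F : ℕ → B → ℝ} {L R η : ℝ}

section

variable {q Θ δ T : ℝ} (hd : ConeData G S B geo o F L R η) (hp : ConePar o F L η q Θ δ T)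

include hd hp

theorem dist_smul_inv {a : G} (ha : a ∈ S) (g : G) : dist (g • o) ((g * a⁻¹) • o) ≤ η := by
  rw [mul_smul, hd.isom]
  have h := hd.isom a o (a⁻¹ • o)
  rw [smul_inv_smul] at h
  rw [← h, dist_comm]
  exact hd.eta a ha

theorem dist_smul_right {a : G} (ha : a ∈ S) (g : G) : dist (g • o) ((g * a) • o) ≤ η := by
  rw [mul_smul, hd.isom]
  exact hd.eta a ha

/-- One step. -/
theorem step_dist (hsm : Small o F q Θ) (hL : 0 ≤ L) (h1S : (1 : G) ∈ S) {p p' : G × Cn o F q Θ}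
    (h : (coneAct hd hp hsm hL h1S).Step p p') :
    dist (p.1 • o) (p'.1 • o) ≤ 2 * η ∧ ∀ O : B, ∃ μ μ', 1 - 2 * δ ≤ μ ∧ μ ≤ 1 ∧
      1 - 2 * δ ≤ μ' ∧ μ' ≤ 1 ∧ dist (geo O (p.1 • pr geo p.2) μ) (geo O (p'.1 • pr geo p'.2) μ') ≤
        δ * (6 * η + 4 * dist O (p.1 • o)) := by
  obtain ⟨a, ha, b, hb, f, hf, f', hf', hff, hp'⟩ := h
  have hδ := hp.δ_pos
  have hδ2 := hp.δ_le
  have hk : p'.1 = (p.1 * a⁻¹) * b := hp'
  have h1 := dist_smul_inv hd hp ha p.1
  have h2 : dist ((p.1 * a⁻¹) • o) (p'.1 • o) ≤ η := by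
    rw [hk]
    exact dist_smul_right hd hp hb _
  refine ⟨(dist_triangle _ _ _).trans (by linarith), fun O => ?_⟩
  obtain ⟨μ, hμ0, hμ1, hμ⟩ := pr_track hd hp hsm hL h1S ha hf p.2
  obtain ⟨μ', hμ0', hμ1', hμ'⟩ := pr_track hd hp hsm hL h1S hb hf' p'.2
  refine ⟨μ, μ', hμ0, hμ1, hμ0', hμ1', ?_⟩
  have h0 : 0 ≤ μ := by linarith
  have h0' : 0 ≤ μ' := by linarith
  -- translate by `k`
  rw [← hd.isom (p.1 * a⁻¹), hd.geo_smul _ _ _ _ h0 hμ1, smul_smul, inv_mul_cancel_right] at hμ
  rw [← hd.isom (p.1 * a⁻¹), hd.geo_smul _ _ _ _ h0' hμ1', smul_smul, ← hk] at hμ'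
  rw [hff] at hμ
  have h3 : dist (geo ((p.1 * a⁻¹) • o) (p.1 • pr geo p.2) μ)
      (geo ((p.1 * a⁻¹) • o) (p'.1 • pr geo p'.2) μ') ≤ 2 * (δ * η) := by
    refine (dist_triangle_left _ _ ((p.1 * a⁻¹) • pr geo (f' p'.2))).trans ?_
    linarith
  have hO : dist O ((p.1 * a⁻¹) • o) ≤ dist O (p.1 • o) + η :=
    (dist_triangle _ _ _).trans (by linarith)
  have h4 : ∀ (y : B) (ν : ℝ), 1 - 2 * δ ≤ ν → ν ≤ 1 →
      dist (geo O y ν) (geo ((p.1 * a⁻¹) • o) y ν) ≤ 2 * δ * (dist O (p.1 • o) + η) := by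
    intro y ν hν0 hν1
    have h5 := hd.bicomb.conical O y ((p.1 * a⁻¹) • o) y ν (by linarith) hν1
    rw [dist_self, mul_zero, add_zero] at h5
    refine h5.trans ?_
    exact mul_le_mul (by linarith) hO dist_nonneg (by linarith)
  have h5 := h4 (p.1 • pr geo p.2) μ hμ0 hμ1
  have h6 := h4 (p'.1 • pr geo p'.2) μ' hμ0' hμ1'
  rw [dist_comm] at h6
  refine (dist_triangle4 _ _ _ _).trans ((add_le_add (add_le_add h5 h3) h6).trans (le_of_eq ?_))
  ring

/-- Chains of steps. -/
theorem chain_dist (hsm : Small o F q Θ) (hL : 0 ≤ L) (h1S : (1 : G) ∈ S) (g : G)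
    (z : Cn o F q Θ) (n : ℕ) (hn : 2 * n * δ ≤ 1) :
    ∀ p ∈ (coneAct hd hp hsm hL h1S).nbhd n (g, z), dist (g • o) (p.1 • o) ≤ 2 * n * η ∧
      ∃ α β, 1 - 2 * n * δ ≤ α ∧ α ≤ 1 ∧ 1 - 2 * n * δ ≤ β ∧ β ≤ 1 ∧
        dist (geo (g • o) (g • pr geo z) α) (geo (g • o) (p.1 • pr geo p.2) β) ≤
          n * (δ * (η * (8 * n + 6))) := by
  have hδ := hp.δ_pos
  have hδ2 := hp.δ_le
  have hη := η_nonneg hd hp h1S
  induction n with
  | zero =>
    intro p hp0
    have hp1 : p = (g, z) := hp0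
    subst hp1
    refine ⟨by simp, 1, 1, by simp, le_rfl, by simp, le_rfl, ?_⟩
    rw [dist_self]
    simp
  | succ n ih =>
    rintro p ⟨p', hp', hstep⟩
    push_cast at hn ⊢
    have hnn : (0 : ℝ) ≤ n := Nat.cast_nonneg n
    have hnδ : 0 ≤ n * δ := by positivity
    obtain ⟨h1, α, β, hα0, hα1, hβ0, hβ1, h2⟩ := ih (by linarith) p' hp'
    obtain ⟨h3, h4⟩ := step_dist hd hp hsm hL h1S hstep
    obtain ⟨μ, μ', hμ0, hμ1, hμ0', hμ1', h5⟩ := h4 (g • o)
    have hα : 0 ≤ α := by linarith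
    have hβ : 0 ≤ β := by linarith
    have hμ : 0 ≤ μ := by linarith
    have hμ' : 0 ≤ μ' := by linarith
    have hlow : ∀ a b : ℝ, 1 - 2 * n * δ ≤ a → a ≤ 1 → 1 - 2 * δ ≤ b → b ≤ 1 →
        1 - 2 * (n + 1) * δ ≤ a * b := by
      intro a b ha0 ha1 hb0 hb1
      have h6 : 0 ≤ (1 - a) * (1 - b) := mul_nonneg (by linarith) (by linarith)
      linarith
    refine ⟨(dist_triangle _ _ _).trans (by linarith), α * μ, β * μ', hlow _ _ hα0 hα1 hμ0 hμ1,
      mul_le_one₀ hα1 hμ hμ1, hlow _ _ hβ0 hβ1 hμ0' hμ1', mul_le_one₀ hβ1 hμ' hμ1', ?_⟩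
    rw [← hd.bicomb.trunc _ _ hα hα1 hμ hμ1]
    have h6 : dist (geo (g • o) (geo (g • o) (g • pr geo z) α) μ)
        (geo (g • o) (geo (g • o) (p'.1 • pr geo p'.2) β) μ) ≤ n * (δ * (η * (8 * n + 6))) := by
      refine (hd.bicomb.conical _ _ _ _ _ hμ hμ1).trans ?_
      rw [dist_self, mul_zero, zero_add]
      exact (mul_le_of_le_one_left dist_nonneg hμ1).trans h2
    have h7 : dist (geo (g • o) (geo (g • o) (p'.1 • pr geo p'.2) β) μ)
        (geo (g • o) (p.1 • pr geo p.2) (β * μ')) ≤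
          δ * (6 * η + 4 * dist (g • o) (p'.1 • o)) := by
      have h8 : geo (g • o) (geo (g • o) (p'.1 • pr geo p'.2) β) μ =
          geo (g • o) (geo (g • o) (p'.1 • pr geo p'.2) μ) β := by
        rw [hd.bicomb.trunc _ _ hβ hβ1 hμ hμ1, hd.bicomb.trunc _ _ hμ hμ1 hβ hβ1, mul_comm]
      rw [h8, mul_comm β μ', ← hd.bicomb.trunc _ _ hμ' hμ1' hβ hβ1]
      refine (hd.bicomb.conical _ _ _ _ _ hβ hβ1).trans ?_
      rw [dist_self, mul_zero, zero_add]
      exact (mul_le_of_le_one_left dist_nonneg hβ1).trans h5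
    refine (dist_triangle _ _ _).trans ((add_le_add h6 h7).trans ?_)
    have h9 : δ * (6 * η + 4 * dist (g • o) (p'.1 • o)) ≤ δ * (6 * η + 4 * (2 * n * η)) :=
      mul_le_mul_of_nonneg_left (by linarith) hδ.le
    have h10 : 0 ≤ n * (δ * η) := by positivity
    have h11 : 0 ≤ δ * η := by positivity
    have h12 : (n + 1 : ℝ) * (δ * (η * (8 * (n + 1) + 6))) =
        n * (δ * (η * (8 * n + 6))) + δ * (6 * η + 4 * (2 * n * η)) + 8 * (n * (δ * η)) +
          8 * (δ * η) := by ring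
    rw [h12]
    linarith

end

/-! ### The comparison of the frames -/

/-- The geometric comparison of two geodesics with the same base point `O`, whose initial parts are
close. -/
theorem compare (hb : Bicomb B geo) {O O' y y' : B} {α β x e K T : ℝ} (hx0 : 0 ≤ x)
    (hx1 : x ≤ 1 / 2) (he : 0 ≤ e) (hα0 : 1 - x ≤ α) (hα1 : α ≤ 1) (hβ0 : 1 - x ≤ β) (hβ1 : β ≤ 1)
    (h : dist (geo O y α) (geo O y' β) ≤ e) (hO : dist O O' ≤ K) (hT : dist O y ≤ T)
    (hT' : dist O' y' ≤ T) :
    dist y y' ≤ 4 * x * dist O y + 3 * e ∧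
    |dist O y - dist O' y'| ≤ x * (T + K) + e + K ∧
    ∃ σ : ℝ, |σ| ≤ x * (T + K) ∧ ∀ s, 2 * (x * (T + K)) + e + K ≤ s →
      s + (2 * (x * (T + K)) + e + K) ≤ dist O y → 0 < dist O y →
      dist (endPt geo O y s) (endPt geo O' y' (s + σ)) ≤
        2 * e + 4 * K * (x + s / dist O y) := by
  have hK : 0 ≤ K := dist_nonneg.trans hO
  have hT0 : 0 ≤ T := dist_nonneg.trans hT
  have hα : 0 < α := by linarith
  have hβ : 0 < β := by linarith
  set t := dist O y with ht
  set t2 := dist O y' with ht2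
  set t' := dist O' y' with ht'
  have ht0 : 0 ≤ t := dist_nonneg
  have ht20 : 0 ≤ t2 := dist_nonneg
  have ht'0 : 0 ≤ t' := dist_nonneg
  have h1 : dist O (geo O y α) = α * t := hb.dist_left_eq _ _ hα.le hα1
  have h2 : dist O (geo O y' β) = β * t2 := hb.dist_left_eq _ _ hβ.le hβ1
  have h3 : |α * t - β * t2| ≤ e := by
    rw [← h1, ← h2]
    refine le_trans ?_ h
    rw [dist_comm O, dist_comm O]
    exact abs_dist_sub_le _ _ _
  have h3a := abs_le.1 h3
  have h4 : |t2 - t'| ≤ K := (abs_dist_sub_le O O' y').trans hO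
  have h4a := abs_le.1 h4
  have ht2T : t2 ≤ T + K := by linarith
  -- bounds
  have hαt : (1 - x) * t ≤ α * t := mul_le_mul_of_nonneg_right hα0 ht0
  have hαt1 : α * t ≤ t := mul_le_of_le_one_left ht0 hα1
  have hβt : (1 - x) * t2 ≤ β * t2 := mul_le_mul_of_nonneg_right hβ0 ht20
  have hβt1 : β * t2 ≤ t2 := mul_le_of_le_one_left ht20 hβ1
  have hxt : x * t ≤ x * (T + K) := mul_le_mul_of_nonneg_left (by linarith) hx0
  have hxt2 : x * t2 ≤ x * (T + K) := mul_le_mul_of_nonneg_left ht2T hx0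
  have hxt0 : 0 ≤ x * t := mul_nonneg hx0 ht0
  have hxt20 : 0 ≤ x * t2 := mul_nonneg hx0 ht20
  have hx2 : x * t2 ≤ 1 / 2 * t2 := mul_le_mul_of_nonneg_right hx1 ht20
  have ht2le : t2 ≤ 2 * t + 2 * e := by linarith
  refine ⟨?_, ?_, (1 - β) * t2 - (1 - α) * t, ?_, ?_⟩
  · have h5 : dist (geo O y α) y = (1 - α) * t := hb.dist_right_eq _ _ hα.le hα1
    have h6 : dist (geo O y' β) y' = (1 - β) * t2 := hb.dist_right_eq _ _ hβ.le hβ1
    have h7 := dist_triangle4 y (geo O y α) (geo O y' β) y'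
    rw [dist_comm y (geo O y α), h5, h6] at h7
    have h8 : x * t2 ≤ x * (2 * t + 2 * e) := mul_le_mul_of_nonneg_left ht2le hx0
    have h9 : x * (2 * e) ≤ 1 / 2 * (2 * e) := mul_le_mul_of_nonneg_right hx1 (by linarith)
    linarith
  · rw [abs_le]
    constructor <;> linarith
  · rw [abs_le]
    constructor <;> linarith
  · intro s hs1 hs2 hpos
    have hs0 : 0 ≤ s := le_trans (by positivity) hs1
    have hst : s / t ≤ 1 := by
      rw [div_le_one₀ hpos]
      have : 0 ≤ 2 * (x * (T + K)) + e + K := by positivity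
      linarith
    have hst0 : 0 ≤ s / t := div_nonneg hs0 hpos.le
    -- the parameter on the initial part
    set τ := (1 - s / t) / α with hτ
    have hsα : 1 - s / t ≤ α := by
      have h5 : (1 - α) * t ≤ s := by
        have : 0 ≤ x * (T + K) := by positivity
        linarith
      have h6 : 1 - α ≤ s / t := by
        rw [le_div_iff₀ hpos]
        exact h5
      linarith
    have hτ0 : 0 ≤ τ := div_nonneg (by linarith) hα.le
    have hτ1 : τ ≤ 1 := (div_le_one₀ hα).2 hsα
    have hατ : α * τ = 1 - s / t := by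
      rw [hτ]
      field_simp
    have h5 : endPt geo O y s = geo O (geo O y α) τ := by
      unfold endPt
      rw [hb.trunc _ _ hα.le hα1 hτ0 hτ1, hατ]
    have h6 : dist (geo O (geo O y α) τ) (geo O (geo O y' β) τ) ≤ e := by
      refine (hb.conical _ _ _ _ _ hτ0 hτ1).trans ?_
      rw [dist_self, mul_zero, zero_add]
      exact (mul_le_of_le_one_left dist_nonneg hτ1).trans h
    have h7 : geo O (geo O y' β) τ = geo O y' (β * τ) := hb.trunc _ _ hβ.le hβ1 hτ0 hτ1
    have hβτ0 : 0 ≤ β * τ := mul_nonneg hβ.le hτ0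
    have hβτ1 : β * τ ≤ 1 := mul_le_one₀ hβ1 hτ0 hτ1
    have hω : 1 - β * τ ≤ 2 * (x + s / t) := by
      have h8 : (1 - β * τ) * α = α - β * (1 - s / t) := by
        rw [← hατ]
        ring
      have h9 : α - β * (1 - s / t) ≤ x + s / t := by
        have : β * (s / t) ≤ s / t := mul_le_of_le_one_left hst0 hβ1
        linarith
      have h10 : (1 - β * τ) * (1 / 2) ≤ (1 - β * τ) * α :=
        mul_le_mul_of_nonneg_left (by linarith) (by linarith)
      linarith
    have h8 : dist (geo O y' (β * τ)) (geo O' y' (β * τ)) ≤ 2 * (x + s / t) * K := by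
      have h9 := hb.conical O y' O' y' (β * τ) hβτ0 hβτ1
      rw [dist_self, mul_zero, add_zero] at h9
      exact h9.trans (mul_le_mul hω hO dist_nonneg (by positivity))
    -- the new parameter
    have hσ1 : 0 ≤ s + ((1 - β) * t2 - (1 - α) * t) := by
      have : 0 ≤ x * (T + K) := by positivity
      linarith
    have hσ2 : s + ((1 - β) * t2 - (1 - α) * t) ≤ t' := by
      have : 0 ≤ x * (T + K) := by positivity
      linarith
    have h9 : dist (geo O' y' (β * τ)) (endPt geo O' y' (s + ((1 - β) * t2 - (1 - α) * t))) ≤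
        e + 2 * (x + s / t) * K := by
      unfold endPt
      rcases ht'0.eq_or_lt with h0 | h0
      · have h10 : O' = y' := dist_eq_zero.1 h0.symm
        rw [← ht', ← h0, div_zero, sub_zero, hb.one, h10, hb.self _ hβτ0 hβτ1, dist_self]
        positivity
      · have h10 : 0 ≤ 1 - (s + ((1 - β) * t2 - (1 - α) * t)) / t' := by
          rw [sub_nonneg, div_le_one₀ h0]
          exact hσ2
        have h11 : 1 - (s + ((1 - β) * t2 - (1 - α) * t)) / t' ≤ 1 :=
          sub_le_self _ (div_nonneg hσ1 h0.le)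
        refine (hb.speed _ _ _ _ hβτ0 hβτ1 h10 h11).trans ?_
        rw [← ht', ← abs_of_pos h0, ← abs_mul, abs_of_pos h0]
        have h12 : (β * τ - (1 - (s + ((1 - β) * t2 - (1 - α) * t)) / t')) * t' =
            (α * t - β * t2) * (1 - τ) + (t2 - t') * (1 - β * τ) := by
          have h13 : α * τ * t = t - s := by
            rw [hατ]
            field_simp
          have h14 : (s + ((1 - β) * t2 - (1 - α) * t)) / t' * t' =
              s + ((1 - β) * t2 - (1 - α) * t) := div_mul_cancel₀ _ h0.ne'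
          linear_combination h14 + h13
        rw [h12]
        refine (abs_add_le _ _).trans (add_le_add ?_ ?_)
        · rw [abs_mul, abs_of_nonneg (sub_nonneg.2 hτ1)]
          exact (mul_le_of_le_one_right (abs_nonneg _) (by linarith)).trans h3
        · rw [abs_mul, abs_of_nonneg (sub_nonneg.2 hβτ1), mul_comm]
          exact mul_le_mul hω h4 (abs_nonneg _) (by positivity)
    rw [h5]
    refine (dist_triangle _ (geo O (geo O y' β) τ) _).trans ?_
    rw [h7] at h6 ⊢
    refine (add_le_add h6 ((dist_triangle _ (geo O' y' (β * τ)) _).trans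
      (add_le_add h8 h9))).trans (le_of_eq ?_)
    ring

/-! ### The result -/

theorem ConeData.of_le (hd : ConeData G S B geo o F L R η) {L' : ℝ} (h : L ≤ L') :
    ConeData G S B geo o F L' R η :=
  { hd with lip := fun m x y => (hd.lip m x y).trans (mul_le_mul_of_nonneg_right h dist_nonneg) }

/-- The values of the gauge on the image of the control map. -/
theorem F_pr_le (hd : ConeData G S B geo o F L R η) {D : ℕ} (hD : 0 < D) {C' : ℝ} (hC : 0 ≤ C')
    {k : ℕ} (hk : 1 ≤ k) (z : Cn o F (1 + 1 / (D : ℝ)) (C' * D ^ 2)) :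
    F (D * k) (pr geo z) ≤ 2 * C' * D / 2 ^ k := by
  have hD' : (0 : ℝ) < D := Nat.cast_pos.2 hD
  have hq : (0 : ℝ) ≤ 1 + 1 / D := by positivity
  obtain ⟨m, hm⟩ : ∃ m, D * k = m + 1 := ⟨D * k - 1, by
    have : 0 < D * k := Nat.mul_pos hD hk
    omega⟩
  have h1 : F (D * k) (pr geo z) ≤ z.c * F m z.x := by
    rw [hm]
    exact hd.F_geo_base m z.x z.c_nonneg z.c_le
  refine h1.trans ?_
  have h2k : (2 : ℝ) ≤ 2 ^ k := by
    calc (2 : ℝ) = 2 ^ 1 := (pow_one 2).symm
      _ ≤ 2 ^ k := pow_le_pow_right₀ (by norm_num) hk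
  rw [le_div_iff₀ (by positivity)]
  rcases z.c_nonneg.eq_or_lt with h | h
  · rw [← h, zero_mul, zero_mul]
    positivity
  · have h4 := z.sum_le h (m + 1)
    have h5 := hd.mul_sum_le' hq m z.x
    have h6 := mul_le_mul_of_nonneg_left (le_geom hD k) (hd.nonneg m z.x)
    rw [hm] at h6
    have h7 := mul_le_mul_of_nonneg_left (h6.trans h5) z.c_nonneg
    have h8 := h7.trans h4
    have h9 : 0 ≤ z.c * F m z.x := mul_nonneg z.c_nonneg (hd.nonneg m _)
    have h10 : z.c * F m z.x * 2 ^ k * D ≤ 2 * C' * D * D := by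
      have h11 : z.c * F m z.x * 2 ^ k ≤ 2 * (z.c * F m z.x * (2 ^ k - 1)) := by
        have := mul_le_mul_of_nonneg_left h2k h9
        linarith
      have h12 := mul_le_mul_of_nonneg_right h11 hD'.le
      have h13 : z.c * (F m z.x * (D * (2 ^ k - 1))) = z.c * F m z.x * (2 ^ k - 1) * D := by ring
      rw [h13] at h8
      have h14 : 2 * C' * D * D = 2 * (C' * D ^ 2) := by ring
      rw [h14]
      linarith
    exact le_of_mul_le_mul_right h10 hD'

theorem cone_aux {N D C K : ℝ} (hD : 0 < D) :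
    40 * N / D * (C * D + K) = 40 * N * C + 40 * N * (K / D) := by
  field_simp

/-- The cone construction. -/
theorem coneOut (hd : ConeData G S B geo o F L R η) (h1S : (1 : G) ∈ S) {n : ℕ}
    (hcov : SmallCovers B n) : ConeOut geo o F S (2 * n + 2) := by
  have hd' : ConeData G S B geo o F |L| R η := hd.of_le (le_abs_self L)
  have hL : 0 ≤ |L| := abs_nonneg L
  have hη : 0 ≤ η := by
    have h := hd.eta 1 h1S
    rwa [one_smul, dist_self] at h
  obtain ⟨C', C4, hC', hC4, hpar⟩ := exists_par hd' hL hη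
  set N : ℝ := (S.card : ℝ) with hN
  have hN0 : 0 ≤ N := Nat.cast_nonneg _
  set K : ℝ := 2 * N * η with hK
  have hK0 : 0 ≤ K := by positivity
  set E : ℝ := 20 * (N * (η * (8 * N + 6))) with hE
  have hE0 : 0 ≤ E := by positivity
  set X1 : ℝ := 40 * N * (C4 + K) with hX1
  have hX10 : 0 ≤ X1 := by positivity
  set C : ℝ := 40 + 160 * N + 3 * E + 2 * X1 + 5 * K + 160 * (N * K) + 2 * C' with hC
  have hNK : 0 ≤ N * K := by positivity
  have hC40 : 40 ≤ C := by
    rw [hC]
    linarith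
  have hCpos : 0 < C := by linarith
  refine ⟨C, hCpos, fun D hD => ?_⟩
  have hD40 : (40 : ℝ) ≤ D := hC40.trans hD
  have hD40' : 40 ≤ D := by exact_mod_cast hD40
  have hD0 : 0 < D := by omega
  have hD' : (0 : ℝ) < D := Nat.cast_pos.2 hD0
  have hp := hpar D hD40'
  have hq : (1 : ℝ) ≤ 1 + 1 / D := hp.one_le_q
  have hsm : Small o F (1 + 1 / (D : ℝ)) (C' * D ^ 2) := hd'.small hq hp.Θ_nonneg
  have hcpt : CompactSpace (Cn o F (1 + 1 / (D : ℝ)) (C' * D ^ 2)) :=
    compactSpace hsm (hd'.continuous_F hL) fun ε hε => hd'.exists_compact hq hε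
  refine ⟨Cn o F (1 + 1 / (D : ℝ)) (C' * D ^ 2), inferInstance, hcpt, inferInstance,
    contractibleSpace hsm, stronglyLocallyContractible hsm hd'.bicomb (zero_le_one.trans hq) hd'.loc,
    covDimLE hsm hcov, coneAct hd' hp hsm hL h1S, pr geo, continuous_pr hd' hp hsm, ?_, ?_⟩
  · intro z k hk
    refine (F_pr_le hd' hD0 hC'.le hk z).trans ?_
    refine div_le_div_of_nonneg_right ?_ (by positivity)
    refine mul_le_mul_of_nonneg_right ?_ hD'.le
    rw [hC]
    linarith
  · intro g z p hp'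
    have hx : 2 * (S.card : ℝ) * (20 / (D : ℝ)) = 40 * N / D := by
      rw [← hN]
      ring
    have hx2 : 40 * N / D ≤ 1 / 2 := by
      rw [div_le_iff₀ hD']
      have : C ≤ D := hD
      rw [hC] at this
      linarith
    obtain ⟨h1, α, β, hα0, hα1, hβ0, hβ1, h2⟩ :=
      chain_dist hd' hp hsm hL h1S g z S.card (by rw [hx]; linarith) p hp'
    rw [hx] at hα0 hβ0
    have he : (S.card : ℝ) * (20 / (D : ℝ) * (η * (8 * S.card + 6))) = E / D := by
      rw [← hN, hE]
      ring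
    rw [he] at h2
    have hT : dist (g • o) (g • pr geo z) ≤ C4 * D := by
      rw [hd'.isom]
      exact dist_pr_le hd' hp z
    have hT' : dist (p.1 • o) (p.1 • pr geo p.2) ≤ C4 * D := by
      rw [hd'.isom]
      exact dist_pr_le hd' hp p.2
    have hx0 : 0 ≤ 40 * N / D := by positivity
    have he0 : 0 ≤ E / D := by positivity
    have heE : E / D ≤ E := div_le_self hE0 (by linarith)
    obtain ⟨c1, c2, σ, c3, c4⟩ := compare hd'.bicomb hx0 hx2 he0 hα0 hα1 hβ0 hβ1 h2 h1 hT hT'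
    rw [← hN, ← hK] at c2 c3 c4
    have hX : 40 * N / D * (C4 * D + K) ≤ X1 := by
      have h3 : 40 * N / D * (C4 * D + K) = 40 * N * C4 + 40 * N * (K / D) := cone_aux hD'
      have h4 : K / D ≤ K := div_le_self hK0 (by linarith)
      have h5 := mul_le_mul_of_nonneg_left h4 (show 0 ≤ 40 * N by positivity)
      rw [h3, hX1]
      linarith
    have hX0 : 0 ≤ 40 * N / D * (C4 * D + K) := by positivity
    refine ⟨?_, ?_, σ, ?_, ?_⟩
    · refine c1.trans ?_
      have ht : 0 ≤ dist (g • o) (g • pr geo z) := dist_nonneg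
      have h3 : 4 * (40 * N / D) * dist (g • o) (g • pr geo z) + 3 * (E / D) =
          (160 * N * dist (g • o) (g • pr geo z) + 3 * E) / D := by ring
      rw [h3]
      refine div_le_div_of_nonneg_right ?_ hD'.le
      have h4 : 160 * N ≤ C := by rw [hC]; linarith
      have h5 : 3 * E ≤ C := by rw [hC]; linarith
      have h6 := mul_le_mul_of_nonneg_right h4 ht
      linarith
    · refine c2.trans ?_
      rw [hC]
      linarith
    · refine c3.trans ?_
      rw [hC]
      linarith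
    · intro s hs1 hs2
      have hpos : 0 < dist (g • o) (g • pr geo z) := by linarith
      refine (c4 s ?_ ?_ hpos).trans ?_
      · refine le_trans ?_ hs1
        rw [hC]
        linarith
      · refine le_trans ?_ hs2
        rw [hC]
        linarith
      · have hst : 0 ≤ s / dist (g • o) (g • pr geo z) := div_nonneg (by linarith) hpos.le
        have h3 : 2 * (E / D) + 4 * K * (40 * N / D + s / dist (g • o) (g • pr geo z)) =
            (2 * E + 160 * (N * K)) * (1 / D) + 4 * K * (s / dist (g • o) (g • pr geo z)) := by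
          ring
        rw [h3, mul_add]
        have h4 : 2 * E + 160 * (N * K) ≤ C := by rw [hC]; linarith
        have h5 : 4 * K ≤ C := by rw [hC]; linarith
        exact add_le_add (mul_le_mul_of_nonneg_right h4 (by positivity))
          (mul_le_mul_of_nonneg_right h5 hst)

end Pool.Agent.GLN
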