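import Pool.Agent.Lib.MP_98022b_gln.TRDefs
import Pool.Agent.Lib.MP_98022b_h71.Defs

/-!
# Classes of groups closed under transfer reducibility

`Pool.Agent.GLN.TransferReducible` is the notion of Bartels, Lück, The Borel conjecture for
hyperbolic and CAT(0)-groups (Annals of Math. 175, 2012), Definitions 1.4 and 1.8.
-/

set_option autoImplicit false

namespace Pool.Agent.FJ

open Pool.Agent.GLN

/-- A class of groups with the inheritance properties, which contains the finitely generated groups
which are transfer reducible over subgroups in the class. -/
structure IsFJClassT (P : ∀ (G : Type) [Group G], Prop) : Prop extends IsFJClass P where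
  /-- transfer reducible groups -/
  transfer : ∀ {G : Type} [Group G] (𝓕 : Subgroup G → Prop),
    TransferReducible G 𝓕 → (∀ H : Subgroup G, 𝓕 H → P H) → P G

/-- The smallest class of groups which contains the infinite cyclic group and all groups of the
class `S` and is closed under subgroups (and isomorphisms), overgroups of finite index, direct
products of two groups, free products of two groups, directed colimits, extensions `f : G → Q` such
that `Q` and the preimages of all cyclic subgroups of `Q` are in the class, and contains each
finitely generated group which is transfer reducible over a family `𝓕` such that the members of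
`𝓕` are in the class. -/
inductive FJHullT (S : ∀ (G : Type) [Group G], Prop) : (G : Type) → [Group G] → Prop
  /-- the groups of the class `S` -/
  | base {G : Type} [Group G] (h : S G) : FJHullT S G
  /-- the infinite cyclic group -/
  | int : FJHullT S (Multiplicative ℤ)
  /-- subgroups (and isomorphic groups) -/
  | sub {G H : Type} [Group G] [Group H] (f : G →* H) (hf : Function.Injective f)
      (h : FJHullT S H) : FJHullT S G
  /-- overgroups of finite index -/
  | finiteIndex {G : Type} [Group G] (H : Subgroup G) (hH : H.FiniteIndex)
      (h : FJHullT S H) : FJHullT S G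
  /-- direct products -/
  | prod {G H : Type} [Group G] [Group H] (hG : FJHullT S G) (hH : FJHullT S H) :
      FJHullT S (G × H)
  /-- free products -/
  | coprod {G H : Type} [Group G] [Group H] (hG : FJHullT S G) (hH : FJHullT S H) :
      FJHullT S (Monoid.Coprod G H)
  /-- directed colimits: `L` is the colimit of the directed system `(G i, f i j)` with canonical
  maps `g i` -/
  | colimit {ι : Type} [Preorder ι] [IsDirectedOrder ι] [Nonempty ι]
      (G : ι → Type) [∀ i, Group (G i)] (f : ∀ i j, i ≤ j → G i →* G j)
      {L : Type} [Group L] (g : ∀ i, G i →* L)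
      (h1 : ∀ i x, f i i le_rfl x = x)
      (h2 : ∀ i j k (hij : i ≤ j) (hjk : j ≤ k) x,
        f j k hjk (f i j hij x) = f i k (hij.trans hjk) x)
      (h3 : ∀ i j (hij : i ≤ j) x, g j (f i j hij x) = g i x)
      (h4 : ∀ y, ∃ i x, g i x = y)
      (h5 : ∀ i x, g i x = 1 → ∃ j, ∃ hij : i ≤ j, f i j hij x = 1)
      (h : ∀ i, FJHullT S (G i)) : FJHullT S L
  /-- extensions: `f : G → Q` with `Q` and all preimages of cyclic subgroups of `Q` in the
  class -/
  | extension {G Q : Type} [Group G] [Group Q] (f : G →* Q) (hQ : FJHullT S Q)
      (h : ∀ q : Q, FJHullT S ((Subgroup.zpowers q).comap f)) : FJHullT S G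
  /-- finitely generated transfer reducible groups -/
  | transfer {G : Type} [Group G] (𝓕 : Subgroup G → Prop)
      (hG : TransferReducible G 𝓕) (h : ∀ H : Subgroup G, 𝓕 H → FJHullT S H) : FJHullT S G

theorem isFJClassT_fjHullT (S : ∀ (G : Type) [Group G], Prop) : IsFJClassT (FJHullT S) where
  int := FJHullT.int
  of_injective f hf h := FJHullT.sub f hf h
  of_finiteIndex H hH h := FJHullT.finiteIndex H hH h
  prod := FJHullT.prod
  coprod := FJHullT.coprod
  colimit G _ f _ _ g h1 h2 h3 h4 h5 h := FJHullT.colimit G f g h1 h2 h3 h4 h5 h
  extension f hQ h := FJHullT.extension f hQ h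
  transfer 𝓕 hG h := FJHullT.transfer 𝓕 hG h

end Pool.Agent.FJ
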