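import Pool.Agent.Lib.MP_98022b_fa.Defs
import Pool.Agent.Lib.MP_98022b_gl.Reduce
import Pool.Agent.Lib.MP_98022b_gl.Marks

/-!
# Colours from families of sequences: definitions

`G` acts on the set `Vx` of vertices. For each frame `(g, x)` of the domain there is a sequence
`P g x : ℤ → Option Vx` of vertices (not all integers need be used); the sequences of related frames
agree up to a shift.
-/

set_option autoImplicit false

open Set

namespace Pool.Agent.GLN

/-- `c` is a colour with labels in `L`. -/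
structure IsCol {G X L : Type} [Group G] [MulAction G L]
    (good : L → Prop) (c : G → X → L → Prop) : Prop where
  unique : ∀ g x l l', c g x l → c g x l' → l = l'
  smul : ∀ h g x l, c g x l → c (h * g) x (h • l)
  good : ∀ g x l, c g x l → good l

/-- `F` is a rule of radius `Z` on sequences. -/
def IsRule {α β : Type} (F : (ℤ → α) → ℤ → β) (Z : ℕ) : Prop :=
  ∀ c c' n n', (∀ δ : ℤ, |δ| ≤ Z → c (n + δ) = c' (n' + δ)) → F c n = F c' n'

/-- The window of radius `r` of `P` around `n`. -/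
def win {V : Type} (P : ℤ → V) (r : ℕ) (n : ℤ) : Fin (2 * r + 1) → V := fun t => P (n - r + (t : ℕ))

/-- The smallest code of a translate of the window around `n`. -/
noncomputable def code {V : Type} (G : Type) [Group G] [MulAction G V] {r : ℕ}
    (e : (Fin (2 * r + 1) → V) → ℕ) (P : ℤ → V) (n : ℤ) : ℕ :=
  sInf {k | ∃ g : G, k = e (fun t => g • win P r n t)}

/-- `v` is the first state with clock at least `c`. -/
def IsFirst {V : Type} (P : ℤ → Option V) (c : ℤ) (v : V) : Prop :=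
  ∃ m : ℕ, P (c + m) = some v ∧ ∀ k < m, P (c + k) = none

/-- `γ` acts nontrivially. -/
def NT {G : Type} (V : Type) [Group G] [MulAction G V] (γ : G) : Prop := ∃ v : V, γ • v ≠ v

/-- The elements which move `v` and `w` by at most `R`. -/
def Sq {V : Type} (G : Type) [Group G] [MulAction G V] (dV : V → V → ℕ) (R : ℕ) (v w : V) : Set G :=
  {γ | dV (γ • v) v ≤ R ∧ dV (γ • w) w ≤ R}

/-- An invariant distance. -/
structure IsDist (G : Type) {V : Type} [Group G] [MulAction G V] (dV : V → V → ℕ) : Prop where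
  symm : ∀ u v, dV u v = dV v u
  triangle : ∀ u v w, dV u w ≤ dV u v + dV v w
  smul : ∀ (g : G) u v, dV (g • u) (g • v) = dV u v

/-- The families of sequences (`W` is the radius of the window, `B` bounds the gaps, `q` the number
of the states seen from `g`). -/
structure SeqData (G X V : Type) [Group G] [MulAction G V]
    (dV : V → V → ℕ) (B W q : ℕ) where
  Dom : G → X → Prop
  P : G → X → ℤ → Option V
  dom_smul : ∀ h g x, Dom g x → Dom (h * g) x
  smul : ∀ h g x c, P (h * g) x c = h • P g x c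
  dist : ∀ g x, Dom g x → ∀ c c' : ℤ, |c| ≤ W → |c'| ≤ W → ∀ v v', P g x c = some v →
    P g x c' = some v' → (dV v v' : ℤ) = |c - c'|
  dense : ∀ g x, Dom g x → ∀ c : ℤ, |c| ≤ W → |c + B| ≤ W →
    ∃ m : ℕ, m ≤ B ∧ ∃ v, P g x (c + m) = some v
  fin : ∃ A : Set V, A.Finite ∧ A.ncard ≤ q ∧ ∀ g x, Dom g x → ∀ c : ℤ, |c| ≤ W → ∀ v,
    P g x c = some v → g⁻¹ • v ∈ A

/-- The frame `(h, y)` sees the sequence of `(g, x)`, up to a shift by at most `η`. -/
def SeqData.Sees {G X V : Type} [Group G] [MulAction G V]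
    {dV : V → V → ℕ} {B W q : ℕ} (D : SeqData G X V dV B W q) (η : ℕ) (g : G) (x : X) (h : G)
    (y : X) : Prop :=
  D.Dom h y ∧ ∃ σ : ℤ, |σ| ≤ η ∧ ∀ c : ℤ, |c| ≤ W → D.P h y (c + σ) = D.P g x c

/-- The algebras generated by sets of elements of `G` (`Ω` is the set of all subalgebras). -/
structure AlgData (G V Ω : Type) [Group G] [MulAction G V] [MulAction G Ω] [PartialOrder Ω]
    (dV : V → V → ℕ) (ρ : ℕ) where
  alg : Set G → Ω
  mono : ∀ s t, s ⊆ t → alg s ≤ alg t
  smul : ∀ (h : G) (s : Set G), h • alg s = alg {γ | h⁻¹ * γ * h ∈ s}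
  rank : Ω → ℕ
  rank_lt : ∀ a b, a < b → rank a < rank b
  rank_le : ∀ a, rank a ≤ ρ
  good : Ω → Prop
  far : ∀ R : ℕ, ∃ L : ℕ, ∀ v w : V, L ≤ dV v w → (∃ γ ∈ Sq G dV R v w, NT V γ) →
    good (alg (Sq G dV R v w))

variable {G X V Ω : Type} [Group G] [MulAction G V] [MulAction G Ω]
  [PartialOrder Ω] {dV : V → V → ℕ} {B W q ρ : ℕ}

/-- The colour by algebras. -/
def colF (D : SeqData G X V dV B W q) (A : AlgData G V Ω dV ρ) (L R : ℕ) (g : G) (x : X) (l : Ω) :
    Prop :=
  D.Dom g x ∧ ∃ v w, IsFirst (D.P g x) 0 v ∧ IsFirst (D.P g x) L w ∧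
    (∃ γ ∈ Sq G dV R v w, NT V γ) ∧ l = A.alg (Sq G dV R v w)

/-- The marker colours: `F` is a rule, `C'` is the beginning of an interval of length `R'`. -/
def colK (D : SeqData G X V dV B W q) (L R : ℕ) {r : ℕ} (e : (Fin (2 * r + 1) → Option V) → ℕ)
    (F : (ℤ → ℕ) → ℤ → Prop) (C' : ℤ) (R' : ℕ) (g : G) (x : X) (l : V) : Prop :=
  D.Dom g x ∧ (∃ v w, IsFirst (D.P g x) 0 v ∧ IsFirst (D.P g x) L w ∧
    ¬ ∃ γ ∈ Sq G dV R v w, NT V γ) ∧
    ∃ n : ℤ, (C' ≤ n ∧ n < C' + R') ∧ F (code G e (D.P g x)) n ∧ IsFirst (D.P g x) n l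

end Pool.Agent.GLN
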