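import Mathlib

/-!
# The parameters
-/

set_option autoImplicit false

namespace Pool.Agent.GLN

private theorem two_cube_lt {D : ℕ} (hD : 12 ≤ D) : 2 * D ^ 3 < 2 ^ D := by
  induction D, hD using Nat.le_induction with
  | base => norm_num
  | succ D hD ih =>
    have h1 : (D + 1) ^ 3 ≤ 2 * D ^ 3 := by
      have h2 : 12 * D ^ 2 ≤ D ^ 3 := by
        have := Nat.mul_le_mul_right (D ^ 2) hD
        calc 12 * D ^ 2 ≤ D * D ^ 2 := this
          _ = D ^ 3 := by ring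
      have h3 : 12 * D ≤ D ^ 2 := by nlinarith
      have h4 : (D + 1) ^ 3 = D ^ 3 + 3 * D ^ 2 + 3 * D + 1 := by ring
      rw [h4]
      omega
    calc 2 * (D + 1) ^ 3 ≤ 2 * (2 * D ^ 3) := Nat.mul_le_mul_left 2 h1
      _ < 2 * 2 ^ D := by omega
      _ = 2 ^ (D + 1) := by ring

theorem geo_param (C : ℝ) (hC : 0 < C) (M e η C' : ℕ) : ∃ A₀ H₀ : ℕ, ∀ H ≥ H₀, ∃ D : ℕ,
    C ≤ D ∧ 8 * C * (M + 1) ≤ D ∧ 20 * (2 * (H : ℝ) + 2 * η) * (8 * C * (M + 1)) ≤ D ∧
    C * (1 / D + 5 * (2 * (H : ℝ) + 2 * η) * (8 * C * (M + 1)) / D) <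
      1 / (2 * (H : ℝ) + 2 * η) ^ e / 4 ∧
    C * D / 2 ^ D < 1 / (2 * (H : ℝ) + 2 * η) ^ e / 2 ∧ C' * (D ^ 2 + 2) ^ 2 ≤ H ^ A₀ := by
  obtain ⟨c, hc⟩ : ∃ c : ℕ, c = ⌈C⌉₊ + 1 := ⟨_, rfl⟩
  have hc1 : 1 ≤ c := by omega
  have hCc : C ≤ c := by
    rw [hc]
    push_cast
    have := Nat.le_ceil C
    linarith
  obtain ⟨K, hK⟩ : ∃ K : ℕ, K = 1000 * c ^ 2 * (M + 1) := ⟨_, rfl⟩
  refine ⟨12 * e + 19, 2 + η + K + C', fun H hH => ?_⟩
  obtain ⟨h, hh⟩ : ∃ h : ℕ, h = 2 * H + 2 * η := ⟨_, rfl⟩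
  have hhR : (2 * (H : ℝ) + 2 * η) = h := by
    rw [hh]
    push_cast
    ring
  have hh1 : 1 ≤ h := by omega
  obtain ⟨D, hD⟩ : ∃ D : ℕ, D = K * h ^ (e + 1) := ⟨_, rfl⟩
  -- real versions
  have hc1' : (1 : ℝ) ≤ c := by exact_mod_cast hc1
  have hh1' : (1 : ℝ) ≤ h := by exact_mod_cast hh1
  have hM : (0 : ℝ) ≤ M := Nat.cast_nonneg M
  have hKR : (K : ℝ) = 1000 * c ^ 2 * (M + 1) := by
    rw [hK]
    push_cast
    ring
  have hDR : (D : ℝ) = K * h ^ (e + 1) := by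
    rw [hD]
    push_cast
    ring
  have hhe : (1 : ℝ) ≤ h ^ e := one_le_pow₀ hh1'
  have hcc : (c : ℝ) ≤ c ^ 2 := by nlinarith
  have hKpos : (0 : ℝ) < K := by
    rw [hKR]
    positivity
  have hDh : (K : ℝ) * h ≤ D := by
    rw [hDR, pow_succ]
    have : (h : ℝ) ≤ h ^ e * h := le_mul_of_one_le_left (by linarith) hhe
    exact mul_le_mul_of_nonneg_left this hKpos.le
  have hDK : (K : ℝ) ≤ D := by
    have : (K : ℝ) ≤ K * h := le_mul_of_one_le_right hKpos.le hh1'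
    linarith
  have hDpos : (0 : ℝ) < D := lt_of_lt_of_le hKpos hDK
  have hCM : C * (M + 1) ≤ c ^ 2 * (M + 1) :=
    mul_le_mul_of_nonneg_right (hCc.trans hcc) (by linarith)
  have hcM : 0 < (c : ℝ) ^ 2 * (M + 1) := by positivity
  refine ⟨D, ?_, ?_, ?_, ?_, ?_, ?_⟩
  · have : (c : ℝ) ≤ K := by
      rw [hKR]
      have h1 : (c : ℝ) ^ 2 * 1 ≤ c ^ 2 * (M + 1) :=
        mul_le_mul_of_nonneg_left (by linarith) (by positivity)
      nlinarith
    linarith
  · have : 8 * C * (M + 1) ≤ K := by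
      rw [hKR]
      nlinarith
    linarith
  · rw [hhR]
    have h1 : 20 * (h : ℝ) * (8 * C * (M + 1)) = 160 * h * (C * (M + 1)) := by ring
    have h2 : 160 * (h : ℝ) * (C * (M + 1)) ≤ 160 * h * (c ^ 2 * (M + 1)) :=
      mul_le_mul_of_nonneg_left hCM (by positivity)
    have h3 : 160 * (h : ℝ) * (c ^ 2 * (M + 1)) ≤ K * h := by
      rw [hKR]
      have : 0 ≤ (h : ℝ) * (c ^ 2 * (M + 1)) := by positivity
      nlinarith
    linarith
  · rw [hhR, div_div, ← add_div, mul_div_assoc', div_lt_div_iff₀ hDpos (by positivity), one_mul]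
    have h1 : C * (1 + 5 * (h : ℝ) * (8 * C * (M + 1))) ≤ 41 * h * (c ^ 2 * (M + 1)) := by
      have h2 : C * 1 ≤ h * (c ^ 2 * (M + 1)) := by
        have h3 : C ≤ c ^ 2 * (M + 1) := by nlinarith
        have h4 : (c : ℝ) ^ 2 * (M + 1) ≤ h * (c ^ 2 * (M + 1)) :=
          le_mul_of_one_le_left hcM.le hh1'
        linarith
      have h5 : C * (5 * (h : ℝ) * (8 * C * (M + 1))) ≤ 40 * h * (c ^ 2 * (M + 1)) := by
        have h6 : C * C ≤ (c : ℝ) ^ 2 := by nlinarith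
        have h7 : C * C * (h * (M + 1)) ≤ (c : ℝ) ^ 2 * (h * (M + 1)) :=
          mul_le_mul_of_nonneg_right h6 (by positivity)
        nlinarith
      linarith
    have h2 : C * (1 + 5 * (h : ℝ) * (8 * C * (M + 1))) * ((h : ℝ) ^ e * 4) ≤
        41 * h * (c ^ 2 * (M + 1)) * ((h : ℝ) ^ e * 4) :=
      mul_le_mul_of_nonneg_right h1 (by positivity)
    refine lt_of_le_of_lt h2 ?_
    have hpe : (h : ℝ) ^ (e + 1) = h ^ e * h := pow_succ _ _
    rw [hDR, hKR, hpe]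
    have h3 : 0 < (h : ℝ) ^ e * h * (c ^ 2 * (M + 1)) := by positivity
    nlinarith
  · rw [hhR, div_div, div_lt_div_iff₀ (by positivity) (by positivity), one_mul]
    have h1 : (h : ℝ) ^ e ≤ D := by
      have h2 : (h : ℝ) ^ e ≤ h ^ (e + 1) := by
        rw [pow_succ]
        exact le_mul_of_one_le_right (by positivity) hh1'
      have hK1 : (1 : ℝ) ≤ K := by
        rw [hKR]
        nlinarith
      have h3 : (h : ℝ) ^ (e + 1) ≤ K * h ^ (e + 1) :=
        le_mul_of_one_le_left (by positivity) hK1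
      rw [hDR]
      linarith
    have h2 : C ≤ D := by
      have : (c : ℝ) ≤ K := by
        rw [hKR]
        have h1 : (c : ℝ) ^ 2 * 1 ≤ c ^ 2 * (M + 1) :=
          mul_le_mul_of_nonneg_left (by linarith) (by positivity)
        nlinarith
      linarith
    have h3 : 12 ≤ D := by
      have h4 : (12 : ℝ) ≤ D := by
        have h5 : (1000 : ℝ) ≤ K := by
          rw [hKR]
          nlinarith
        linarith
      exact_mod_cast h4
    have h4 : ((2 * D ^ 3 : ℕ) : ℝ) < ((2 ^ D : ℕ) : ℝ) := by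
      exact_mod_cast two_cube_lt h3
    push_cast at h4
    calc C * D * ((h : ℝ) ^ e * 2) ≤ D * D * (D * 2) := by
          refine mul_le_mul (mul_le_mul_of_nonneg_right h2 hDpos.le) ?_ (by positivity)
            (by positivity)
          linarith
      _ = 2 * (D : ℝ) ^ 3 := by ring
      _ < 2 ^ D := h4
  · clear hc1' hh1' hM hKR hDR hhe hcc hKpos hDh hDK hDpos hCM hcM hhR
    have hH2 : 2 ≤ H := by omega
    have hKH : K ≤ H := by omega
    have hCH : C' ≤ H := by omega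
    have h1 : h ≤ H ^ 3 := by
      have h2 : h ≤ 4 * H := by omega
      have h3 : 4 * H ≤ H ^ 3 := by
        have h4 : 4 ≤ H ^ 2 := by nlinarith
        calc 4 * H ≤ H ^ 2 * H := Nat.mul_le_mul_right H h4
          _ = H ^ 3 := by ring
      exact h2.trans h3
    have h2 : D ≤ H ^ (3 * e + 4) := by
      have h3 : (H ^ 3) ^ (e + 1) = H ^ (3 * e + 3) := by
        rw [← pow_mul]
        congr 1
      have h4 : h ^ (e + 1) ≤ H ^ (3 * e + 3) := h3 ▸ Nat.pow_le_pow_left h1 (e + 1)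
      have h5 : H ^ (3 * e + 4) = H * H ^ (3 * e + 3) := pow_succ' H (3 * e + 3)
      rw [hD, h5]
      exact Nat.mul_le_mul hKH h4
    have h3 : D ^ 2 + 2 ≤ H ^ (6 * e + 9) := by
      have h4 : D ^ 2 ≤ H ^ (6 * e + 8) := by
        have h6 : (H ^ (3 * e + 4)) ^ 2 = H ^ (6 * e + 8) := by
          rw [← pow_mul]
          congr 1
          ring
        exact h6 ▸ Nat.pow_le_pow_left h2 2
      have h5 : 2 ≤ H ^ (6 * e + 8) := by
        have h6 : H ^ 1 ≤ H ^ (6 * e + 8) := Nat.pow_le_pow_right (by omega) (by omega)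
        rw [pow_one] at h6
        exact hH2.trans h6
      have h6 : H ^ (6 * e + 9) = H ^ (6 * e + 8) * H := pow_succ H (6 * e + 8)
      have h7 : H ^ (6 * e + 8) * 2 ≤ H ^ (6 * e + 8) * H := Nat.mul_le_mul_left _ hH2
      omega
    have h4 : (H ^ (6 * e + 9)) ^ 2 = H ^ (12 * e + 18) := by
      rw [← pow_mul]
      congr 1
      ring
    have h5 : (D ^ 2 + 2) ^ 2 ≤ H ^ (12 * e + 18) := h4 ▸ Nat.pow_le_pow_left h3 2
    have h6 : H ^ (12 * e + 19) = H * H ^ (12 * e + 18) := pow_succ' H (12 * e + 18)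
    rw [h6]
    exact Nat.mul_le_mul hCH h5

end Pool.Agent.GLN
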