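import Mathlib

/-!
# A threshold which is far from all values
-/

set_option autoImplicit false

namespace Pool.Agent.GLN

/-- Among the `M + 1` thresholds `j / (M + 1)` one is far from the `M` numbers `a i` modulo `1`. -/
theorem exists_threshold (M : ℕ) (a : Fin M → ℝ) :
    ∃ j : Fin (M + 1), ∀ i (k : ℤ),
      1 / (2 * (M + 1) : ℝ) ≤ |a i + k - (j : ℕ) / (M + 1)| := by
  by_contra hcon
  push Not at hcon
  choose i k hk using hcon
  obtain ⟨j, j', hne, hij⟩ := Fintype.exists_ne_map_eq_of_card_lt i (by simp)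
  apply hne
  have hM : (0 : ℝ) < (M : ℝ) + 1 := by positivity
  have h1 := hk j
  have h2 := hk j'
  rw [← hij] at h2
  have h3 : |((k j : ℝ) - k j') * (M + 1) - (((j : ℕ) : ℝ) - (j' : ℕ))| < 1 := by
    have e : ((k j : ℝ) - k j') * (M + 1) - (((j : ℕ) : ℝ) - (j' : ℕ)) =
        ((a (i j) + k j - (j : ℕ) / (M + 1)) - (a (i j) + k j' - (j' : ℕ) / (M + 1))) *
          (M + 1) := by
      field_simp
      ring
    rw [e, abs_mul, abs_of_pos hM]
    have h4 := abs_sub (a (i j) + k j - (j : ℕ) / (M + 1)) (a (i j) + k j' - (j' : ℕ) / (M + 1))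
    have h5 : 1 / (2 * ((M : ℝ) + 1)) * (M + 1) = 1 / 2 := by field_simp
    have h6 := mul_lt_mul_of_pos_right h1 hM
    have h7 := mul_lt_mul_of_pos_right h2 hM
    rw [h5] at h6 h7
    have h8 := mul_le_mul_of_nonneg_right h4 hM.le
    rw [add_mul] at h8
    linarith
  have h4 : |(k j - k j') * ((M : ℤ) + 1) - (((j : ℕ) : ℤ) - (j' : ℕ))| < 1 := by
    exact_mod_cast h3
  have h5 : (k j - k j') * ((M : ℤ) + 1) - (((j : ℕ) : ℤ) - (j' : ℕ)) = 0 :=
    Int.abs_lt_one_iff.1 h4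
  have h6 : ((M : ℤ) + 1) ∣ ((j : ℕ) : ℤ) - ((j' : ℕ) : ℤ) := ⟨k j - k j', by linarith⟩
  have h7 : ((j : ℕ) : ℤ) - ((j' : ℕ) : ℤ) = 0 := by
    apply Int.eq_zero_of_abs_lt_dvd h6
    have hj := j.2
    have hj' := j'.2
    rw [abs_lt]
    constructor <;> omega
  apply Fin.ext
  omega

end Pool.Agent.GLN
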