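import Pool.Agent.Lib.MP_98022b_gln.Line

/-!
# Row Z1: the line lemma, reformulated

From `Pool.Agent.GLN.line_lemma` with `P = 5 * H`, `x = 1 / (c * H)`, `c = 1000 * (M + 1)`,
`M = card ι`: the pairs are `(x ^ (k + 1), 2 * (x ^ (2 * K + 6)) ^ (l + 1))`, `k, l < K`, `ε` is the
`x ^ (...)` of the line lemma (or `1 / H ^ e` for a larger exponent `e`: `BadPt` is monotone in `ε`).
-/

set_option autoImplicit false

open Set

namespace Pool.Agent.TR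

open Pool.Agent.GLN (BadPt)

/-- The times in `[0, 5 * H]` at which one of the functions `a i + b i * s` is within `ε` of
`r + ℤ` are at most `δ` or at least `4 * δ` apart. -/
def GoodPair {ι : Type} (a b : ι → ℝ) (H ε r δ : ℝ) : Prop :=
  ∀ s ∈ Icc 0 (5 * H), ∀ s' ∈ Icc 0 (5 * H), BadPt a b r ε s → BadPt a b r ε s' →
    |s - s'| ≤ δ ∨ 4 * δ ≤ |s - s'|

private theorem badPt_mono {ι : Type} {a b : ι → ℝ} {r e e' s : ℝ} (h : BadPt a b r e s)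
    (he : e ≤ e') : BadPt a b r e' s := by
  obtain ⟨i, m, hm⟩ := h
  exact ⟨i, m, hm.trans he⟩

theorem exists_pairs (ι : Type) [Fintype ι] : ∃ e K : ℕ, 1 ≤ e ∧ ∀ H : ℕ, 2 ≤ H →
    ∃ r δ : Fin K → ℝ, (∀ k, 1 / (H : ℝ) ^ e ≤ δ k ∧ δ k ≤ 1 / 100) ∧
      ∀ a b : ι → ℝ, (∀ i, |b i| ≤ 1) →
        ∃ k, GoodPair a b H (1 / (H : ℝ) ^ e) (r k) (δ k) := by
  obtain ⟨K, hK⟩ : ∃ K, K = 2 * Fintype.card ι ^ 2 + 1 := ⟨_, rfl⟩
  obtain ⟨X, hX⟩ : ∃ X, X = (K + 3) + (2 * K + 6) * K + 1 := ⟨_, rfl⟩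
  obtain ⟨c, hc⟩ : ∃ c : ℕ, c = 1000 * (Fintype.card ι + 1) := ⟨_, rfl⟩
  refine ⟨(c + 1) * X, K * K, ?_, fun H hH => ?_⟩
  · have h1 : 1 ≤ X := by omega
    exact Nat.mul_le_mul (Nat.le_add_left 1 c) h1
  have hH0 : (2 : ℝ) ≤ H := by exact_mod_cast hH
  have hHpos : (0 : ℝ) < H := by linarith
  have hc0 : (1000 : ℝ) ≤ c := by
    rw [hc]
    push_cast
    have : (0 : ℝ) ≤ (Fintype.card ι : ℝ) := Nat.cast_nonneg _
    linarith
  set x : ℝ := 1 / (c * H) with hx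
  have hcH : (0 : ℝ) < c * H := by positivity
  have hx0 : 0 < x := by positivity
  have hx1 : x ≤ 1 / 1000 := by
    rw [hx]
    apply one_div_le_one_div_of_le (by norm_num)
    nlinarith
  have hx1' : x ≤ 1 := hx1.trans (by norm_num)
  -- the lower bound of `x`
  have hxl : 1 / (H : ℝ) ^ (c + 1) ≤ x := by
    rw [hx]
    apply one_div_le_one_div_of_le hcH
    rw [pow_succ]
    refine mul_le_mul_of_nonneg_right ?_ hHpos.le
    have h0 : c ≤ 2 ^ c := (Nat.lt_two_pow_self (n := c)).le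
    have h1 : (c : ℝ) ≤ 2 ^ c := by
      have h2 : (c : ℝ) ≤ ((2 ^ c : ℕ) : ℝ) := Nat.cast_le.2 h0
      rwa [Nat.cast_pow, Nat.cast_ofNat] at h2
    exact h1.trans (pow_le_pow_left₀ (by norm_num) hH0 c)
  have hxX : 1 / (H : ℝ) ^ ((c + 1) * X) ≤ x ^ X := by
    rw [pow_mul, one_div, ← inv_pow]
    refine pow_le_pow_left₀ (by positivity) ?_ X
    rwa [← one_div]
  set γ : ℝ := x ^ (2 * K + 6) with hγ
  have hγ0 : 0 < γ := pow_pos hx0 _
  have hγ1 : γ ≤ 1 / 1000 := by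
    calc x ^ (2 * K + 6) ≤ x ^ 1 := pow_le_pow_of_le_one hx0.le hx1' (by omega)
      _ = x := pow_one x
      _ ≤ 1 / 1000 := hx1
  have hγ1' : γ ≤ 1 := hγ1.trans (by norm_num)
  let E : Fin (K * K) ≃ Fin K × Fin K := finProdFinEquiv.symm
  refine ⟨fun p => x ^ ((E p).1.1 + 1), fun p => 2 * γ ^ ((E p).2.1 + 1), fun p => ⟨?_, ?_⟩, ?_⟩
  · have h1 : x ^ X ≤ γ ^ ((E p).2.1 + 1) := by
      rw [hγ, ← pow_mul]
      refine pow_le_pow_of_le_one hx0.le hx1' ?_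
      have h2 : (E p).2.1 + 1 ≤ K := (E p).2.2
      have h3 := Nat.mul_le_mul_left (2 * K + 6) h2
      omega
    have h2 : 0 < γ ^ ((E p).2.1 + 1) := pow_pos hγ0 _
    show 1 / (H : ℝ) ^ ((c + 1) * X) ≤ 2 * γ ^ ((E p).2.1 + 1)
    linarith
  · have h1 : γ ^ ((E p).2.1 + 1) ≤ 1 / 1000 := by
      calc γ ^ ((E p).2.1 + 1) ≤ γ ^ 1 := pow_le_pow_of_le_one hγ0.le hγ1' (by omega)
        _ = γ := pow_one γ
        _ ≤ 1 / 1000 := hγ1
    show 2 * γ ^ ((E p).2.1 + 1) ≤ 1 / 100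
    linarith
  · intro a b hb
    obtain ⟨k, hk, l, hl, h⟩ := Pool.Agent.GLN.line_lemma (ι := ι) (x := x) (P := 5 * H) hx0
      (by positivity) (by
        have h1 : 100 * ((Fintype.card ι : ℝ) + 1) * (5 * H + 4) ≤ c * H := by
          rw [hc]
          push_cast
          have : (0 : ℝ) ≤ (Fintype.card ι : ℝ) := Nat.cast_nonneg _
          nlinarith
        rw [hx, mul_one_div, div_le_one hcH]
        exact h1) hK a b hb
    rw [← hX] at h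
    refine ⟨E.symm (⟨k, hk⟩, ⟨l, hl⟩), ?_⟩
    intro s hs s' hs' hb1 hb2
    simp only [Equiv.apply_symm_apply] at hb1 hb2 ⊢
    have h1 := h s s' hs.1 hs.2 hs'.1 hs'.2 (badPt_mono hb1 hxX) (badPt_mono hb2 hxX)
    rcases h1 with h2 | h2
    · exact Or.inl h2
    · right
      refine le_trans ?_ h2
      have h3 : 0 < γ ^ (l + 1) := pow_pos hγ0 _
      have : (0 : ℝ) ≤ (Fintype.card ι : ℝ) := Nat.cast_nonneg _
      rw [← hγ]
      nlinarith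

end Pool.Agent.TR
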