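import Pool.Agent.Lib.MP_98022b_gln.SeqDefs
import Pool.Agent.Lib.MP_98022b_gln.TRDefs

/-!
# The cover defined by colours
-/

set_option autoImplicit false

open Set

namespace Pool.Agent.GLN

/-- The cover defined by a finite family of colours. -/
theorem isLongCover_of_cols {G X : Type} [Group G] [TopologicalSpace X] {S : Finset G}
    (θ : HomotopyAction G S X) {ι : Type} [Finite ι] (L : ι → Type) [∀ i, MulAction G (L i)]
    (good : ∀ i, L i → Prop) (c : ∀ i, G → X → L i → Prop) (hc : ∀ i, IsCol (good i) (c i)) {N : ℕ}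
    (hN : Nat.card ι ≤ N + 1) {𝓕 : Subgroup G → Prop}
    (h𝓕 : ∀ i l, good i l → ∀ H : Subgroup G, (∀ h ∈ H, h • l = l) → 𝓕 H)
    (hne : ∀ p : G × X, (θ.nbhd S.card p).Nonempty)
    (hwide : ∀ (g : G) (x : X), ∃ i l, ∀ q ∈ θ.nbhd S.card (g, x),
      ∀ᶠ y in nhds q.2, c i q.1 y l) :
    IsLongCover θ N 𝓕 {U : Set (G × X) | U.Nonempty ∧
      ∃ i l, U = {p | ∀ᶠ y in nhds p.2, c i p.1 y l}} := by
  classical
  have hun : ∀ i (p : G × X) (l l' : L i), (∀ᶠ y in nhds p.2, c i p.1 y l) →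
      (∀ᶠ y in nhds p.2, c i p.1 y l') → l = l' := fun i p l l' h h' =>
    (hc i).unique _ _ _ _ h.self_of_nhds h'.self_of_nhds
  -- the translates of a member
  have hsmul : ∀ (h : G) i (l : L i),
      tr h ({p | ∀ᶠ y in nhds p.2, c i p.1 y l} : Set (G × X)) =
        {p | ∀ᶠ y in nhds p.2, c i p.1 y (h • l)} := by
    intro h i l
    ext p
    constructor
    · intro hp
      have hp' : ∀ᶠ y in nhds p.2, c i (h⁻¹ * p.1) y l := hp
      filter_upwards [hp'] with y hy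
      have h1 := (hc i).smul h _ _ _ hy
      rw [mul_inv_cancel_left] at h1
      exact h1
    · intro hp
      have hp' : ∀ᶠ y in nhds p.2, c i p.1 y (h • l) := hp
      show ∀ᶠ y in nhds p.2, c i (h⁻¹ * p.1) y l
      filter_upwards [hp'] with y hy
      have h1 := (hc i).smul h⁻¹ _ _ _ hy
      rw [inv_smul_smul] at h1
      exact h1
  have htr : ∀ (h : G) (U : Set (G × X)), U.Nonempty → (tr h U).Nonempty := by
    rintro h U ⟨p, hp⟩
    exact ⟨(h * p.1, p.2), by simpa [tr] using hp⟩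
  refine ⟨?_, ?_, ?_, ?_, ?_, ?_⟩
  · rintro U ⟨-, i, l, rfl⟩ g
    have h0 : IsOpen {x : X | ∀ᶠ y in nhds x, c i g y l} := by
      rw [isOpen_iff_mem_nhds]
      intro x hx
      exact eventually_eventually_nhds.2 hx
    exact h0
  · rintro U ⟨hU, i, l, rfl⟩ h
    exact ⟨htr h _ hU, i, h • l, hsmul h i l⟩
  · rintro U ⟨hU, i, l, rfl⟩ h
    by_cases hl : h • l = l
    · left
      rw [hsmul, hl]
    · right
      rw [hsmul, Set.disjoint_left]
      intro p hp hp'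
      exact hl (hun i p _ _ hp hp')
  · rintro U ⟨⟨p, hp⟩, i, l, rfl⟩
    have hp0 : ∀ᶠ y in nhds p.2, c i p.1 y l := hp
    refine h𝓕 i l ((hc i).good _ _ _ hp0.self_of_nhds) _ fun h hh => ?_
    have hh' : tr h ({p | ∀ᶠ y in nhds p.2, c i p.1 y l} : Set (G × X)) =
      {p | ∀ᶠ y in nhds p.2, c i p.1 y l} := hh
    rw [hsmul] at hh'
    have hp' : p ∈ ({p | ∀ᶠ y in nhds p.2, c i p.1 y (h • l)} : Set (G × X)) := by
      rw [hh']
      exact hp
    exact hun i p _ _ hp' hp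
  · intro p
    let f : ι → Set (G × X) := fun i =>
      if h : ∃ l, ∀ᶠ y in nhds p.2, c i p.1 y l then {q | ∀ᶠ y in nhds q.2, c i q.1 y h.choose}
      else ∅
    have h1 : {U : Set (G × X) | U ∈ {U : Set (G × X) | U.Nonempty ∧
        ∃ i l, U = {p | ∀ᶠ y in nhds p.2, c i p.1 y l}} ∧ p ∈ U} ⊆ Set.range f := by
      rintro U ⟨⟨-, i, l, rfl⟩, hp⟩
      refine ⟨i, ?_⟩
      have h : ∃ l, ∀ᶠ y in nhds p.2, c i p.1 y l := ⟨l, hp⟩
      have h2 : h.choose = l := hun i p _ _ h.choose_spec hp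
      change (if h : ∃ l, ∀ᶠ y in nhds p.2, c i p.1 y l then
        {q : G × X | ∀ᶠ y in nhds q.2, c i q.1 y h.choose} else ∅) = _
      rw [dif_pos h, h2]
    refine (Set.encard_le_encard h1).trans ?_
    rw [← Set.image_univ]
    refine (Set.encard_image_le _ _).trans ?_
    rw [Set.encard_univ, ENat.card_eq_coe_natCard]
    exact_mod_cast hN
  · rintro ⟨g, x⟩
    obtain ⟨i, l, h⟩ := hwide g x
    obtain ⟨q, hq⟩ := hne (g, x)
    exact ⟨{p | ∀ᶠ y in nhds p.2, c i p.1 y l}, ⟨⟨q, h q hq⟩, i, l, rfl⟩, fun t ht => h t ht⟩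

/-- The point itself is in its neighbourhood. -/
theorem mem_nbhd {G X : Type} [Group G] [TopologicalSpace X] {S : Finset G}
    (θ : HomotopyAction G S X) (h1 : (1 : G) ∈ S) (n : ℕ) (p : G × X) : p ∈ θ.nbhd n p := by
  induction n with
  | zero => rfl
  | succ n ih =>
    refine ⟨p, ih, 1, h1, 1, h1, fun x => θ.H 1 1 x 0, ⟨1, h1, 1, h1, mul_one 1, 0, rfl⟩,
      fun x => θ.H 1 1 x 0, ⟨1, h1, 1, h1, mul_one 1, 0, rfl⟩, rfl, by simp⟩

end Pool.Agent.GLN
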