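import Pool.Agent.Lib.MP_98022b_gln.SeqCommon
import Pool.Agent.Lib.MP_98022b_gln.SeqCover

/-!
# Transfer reducible groups from families of sequences
-/

set_option autoImplicit false

open Set

namespace Pool.Agent.GLN

open Pool.Agent.FA

/-- The interface between the geometry and the coding. `N₀, n₁, n₂` do not depend on `S`, and
`η, B, A₀, H₀` do not depend on `H`. -/
theorem transferReducible_of_seqs {G V Ω : Type} [Group G] [MulAction G V] [MulAction G Ω]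
    [PartialOrder Ω] (hfg : Group.FG G) {dV : V → V → ℕ} (hd : IsDist G dV) {ρ : ℕ}
    (A : AlgData G V Ω dV ρ) (𝓕 : Subgroup G → Prop)
    (h𝓕Ω : ∀ ω, A.good ω → ∀ H : Subgroup G, (∀ h ∈ H, h • ω = ω) → 𝓕 H)
    (h𝓕V : ∀ v : V, ∀ H : Subgroup G, (∀ h ∈ H, h • v = v) → 𝓕 H) (N₀ n₁ n₂ : ℕ)
    (hgeo : ∀ S : Finset G, (1 : G) ∈ S → ∃ η B A₀ H₀ : ℕ, ∀ H ≥ H₀, ∃ q : ℕ,
      q ≤ 2 ^ 2 ^ (H ^ A₀) ∧ ∃ (X : Type) (_ : TopologicalSpace X), CompactSpace X ∧
      TopologicalSpace.MetrizableSpace X ∧ ContractibleSpace X ∧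
      StronglyLocallyContractibleSpace X ∧ CovDimLE X N₀ ∧
      ∃ (θ : HomotopyAction G S X) (cS : Fin n₁ → G → X → V → Prop)
        (D : Fin n₂ → SeqData G X V dV B H q), (∀ j, IsCol (fun _ => True) (cS j)) ∧
        ∀ g x, (∃ j l, ∀ q ∈ θ.nbhd S.card (g, x), ∀ᶠ y in nhds q.2, cS j q.1 y l) ∨
          ∃ j, (D j).Dom g x ∧
            ∀ q ∈ θ.nbhd S.card (g, x), ∀ᶠ y in nhds q.2, (D j).Sees η g x q.1 y) :
    TransferReducible G 𝓕 := by
  classical
  refine ⟨hfg, max N₀ (n₁ + n₂ * (ρ + 1 + 4)), fun S hS => ?_⟩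
  obtain ⟨η, B, A₀, H₀, hgeo⟩ := hgeo S hS
  obtain ⟨a, b, hcol⟩ := exists_long_colours hd A η B
  obtain ⟨H, hH, hparam⟩ := exists_param A₀ (4 * η + 4) a H₀ b
  obtain ⟨q, hq, X, _, h1, h2, h3, h4, h5, θ, cS, D, hcS, hwide⟩ := hgeo H hH
  have hkap : kap3 (4 * η + 4) ((q + 1) ^ a) + b ≤ H := by
    refine le_trans ?_ hparam
    have hm : (q + 1) ^ a ≤ (2 ^ 2 ^ (H ^ A₀) + 1) ^ a := Nat.pow_le_pow_left (by omega) _
    unfold kap3
    have := redB_mono (M := 2 * (4 * η + 4) + 1) (redB_mono (M := 2 * (4 * η + 4) + 1)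
      (redB_mono (M := 2 * (4 * η + 4) + 1) hm))
    have := Nat.mul_le_mul_left (4 * η + 4) this
    omega
  choose cF cK hcF hcK hlong using fun j => hcol X H q (D j) hkap
  refine ⟨X, inferInstance, h1, h2, h3, h4, ?_, θ, ?_⟩
  · -- the dimension bound is monotone
    intro ι O hO hcov
    obtain ⟨κ, W, hW1, hW2, hW3, hW4⟩ := h5 ι O hO hcov
    refine ⟨κ, W, hW1, hW2, hW3, fun x => (hW4 x).trans ?_⟩
    gcongr
    exact le_max_left _ _
  · -- the colours
    let I := Fin n₁ ⊕ (Fin n₂ × (Fin (ρ + 1) ⊕ Fin 4))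
    let L : I → Type := fun i => match i with
      | Sum.inl _ => V
      | Sum.inr (_, Sum.inl _) => Ω
      | Sum.inr (_, Sum.inr _) => V
    let mL : ∀ i, MulAction G (L i) := fun i => match i with
      | Sum.inl _ => inferInstanceAs (MulAction G V)
      | Sum.inr (_, Sum.inl _) => inferInstanceAs (MulAction G Ω)
      | Sum.inr (_, Sum.inr _) => inferInstanceAs (MulAction G V)
    let good : ∀ i, L i → Prop := fun i => match i with
      | Sum.inl _ => fun _ => True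
      | Sum.inr (_, Sum.inl _) => A.good
      | Sum.inr (_, Sum.inr _) => fun _ => True
    let c : ∀ i, G → X → L i → Prop := fun i => match i with
      | Sum.inl j => cS j
      | Sum.inr (j, Sum.inl k) => cF j k
      | Sum.inr (j, Sum.inr k) => cK j k
    refine ⟨_, isLongCover_of_cols θ (ι := I) L good c ?_ (N := max N₀ (n₁ + n₂ * (ρ + 1 + 4))) ?_
      (𝓕 := 𝓕) ?_ (fun p => ⟨p, mem_nbhd θ hS _ p⟩) ?_⟩
    · rintro (j | ⟨j, k | k⟩)
      · exact hcS j
      · exact hcF j k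
      · exact hcK j k
    · have : Nat.card I = n₁ + n₂ * (ρ + 1 + 4) := by
        simp [I]
      rw [this]
      have := le_max_right N₀ (n₁ + n₂ * (ρ + 1 + 4))
      omega
    · rintro (j | ⟨j, k | k⟩) l hl H hH
      · exact h𝓕V l H hH
      · exact h𝓕Ω l hl H hH
      · exact h𝓕V l H hH
    · intro g x
      rcases hwide g x with ⟨j, l, h⟩ | ⟨j, hx, h⟩
      · exact ⟨Sum.inl j, l, h⟩
      · rcases hlong j g x hx with ⟨k, l, h'⟩ | ⟨k, l, h'⟩
        · exact ⟨Sum.inr (j, Sum.inl k), l, fun q hq => (h q hq).mono fun y hy => h' _ _ hy⟩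
        · exact ⟨Sum.inr (j, Sum.inr k), l, fun q hq => (h q hq).mono fun y hy => h' _ _ hy⟩

end Pool.Agent.GLN
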