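import Pool.Agent.Lib.MP_98022b_gln.GeoSeq
import Pool.Agent.Lib.MP_98022b_gln.GeoParam
import Pool.Agent.Lib.MP_98022b_gln.GeoThr
import Pool.Agent.Lib.MP_98022b_gln.SeqMain
import Pool.Agent.Lib.MP_98022b_gln.LineMain

/-!
# Transfer reducible groups from spaces with a discretization
-/

set_option autoImplicit false

open Set Filter Topology

namespace Pool.Agent.GLN

open Pool.Agent.FA
open Pool.Agent.TR (IsTrack IsEvents GoodPair kap evs Pers seqP clk exists_pairs seqP_eq_some
  seqP_smul dens clk_eq)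

variable {G X B V : Type} [Group G] [MetricSpace B] [MulAction G B] [MulAction G V]
  {dV : V → V → ℕ} {M : ℕ} {geo : B → B → ℝ → B}

/-- The distance of two persistent states. -/
theorem pers_dist {dl : V → V → ℤ} {M : ℕ} {H δ : ℝ} {u : ℝ → V} {κ : ℝ → ℤ} (hH : 0 ≤ H)
    (hδ : 0 ≤ δ) (hu : IsTrack dl M (5 * H) u κ) {c c' : ℤ} {p p' : V} (h : Pers dl u H δ c p)
    (h' : Pers dl u H δ c' p') : dl p p' = |c - c'| := by
  obtain ⟨s₁, s₂, h1, h2, h3, h4⟩ := h
  obtain ⟨t₁, t₂, k1, k2, k3, k4⟩ := h'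
  have hs : s₁ ∈ Icc 0 (5 * H) := ⟨by linarith, by linarith⟩
  have ht : t₁ ∈ Icc 0 (5 * H) := ⟨by linarith, by linarith⟩
  obtain ⟨e1, e2⟩ := h4 s₁ ⟨le_rfl, by linarith⟩
  obtain ⟨e3, e4⟩ := k4 t₁ ⟨le_rfl, by linarith⟩
  rw [clk_eq hH hu hs] at e2
  rw [clk_eq hH hu ht] at e4
  rw [← e1, ← e3, hu.dl_eq _ hs _ ht, ← e2, ← e4]
  congr 1
  ring

/-- The sequences of a frame, seen from the frame `1`. -/
theorem seqP_frame (Δ : Disc G B V dV M geo) (hd : IsDist G dV)
    (isom : ∀ (g : G) (x y : B), dist (g • x) (g • y) = dist x y)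
    (geo_smul : ∀ (g : G) (x y : B) t, 0 ≤ t → t ≤ 1 → g • geo x y t = geo (g • x) (g • y) t)
    {H : ℝ} (hH : 0 ≤ H) {o y : B} (hT : 5 * H ≤ dist o y) (h : G) (r δ : ℝ) (c : ℤ) :
    h • seqP (fun p q => (dV p q : ℤ)) (fun s => Δ.st r (endPt geo o y s)) H δ c =
      seqP (fun p q => (dV p q : ℤ)) (fun s => Δ.st r (endPt geo (h • o) (h • y) s)) H δ c := by
  rw [← seqP_smul (fun g p q => by simp only [hd.smul]) h]
  refine seqP_congr hH (fun s hs hs' => ?_) c
  rcases hs.eq_or_lt with rfl | hs0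
  · unfold endPt
    rw [zero_div, zero_div, sub_zero, ← geo_smul h _ _ 1 zero_le_one le_rfl, Δ.st_smul]
  · unfold endPt
    have hT' : 0 < dist o y := by linarith
    have h1 : s / dist o y ≤ 1 := (div_le_one hT').2 (by linarith)
    have h2 : 0 ≤ s / dist o y := by positivity
    rw [isom, ← geo_smul h _ _ _ (by linarith) (by linarith), Δ.st_smul]

/-- THE GEOMETRIC THEOREM. -/
theorem transferReducible_of_disc {Ω : Type} [MulAction G Ω] [PartialOrder Ω]
    (hfg : Group.FG G) (hd : IsDist G dV) (hsep : ∀ v w, dV v w = 0 → v = w) {ρ : ℕ}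
    (A : AlgData G V Ω dV ρ) (𝓕 : Subgroup G → Prop)
    (h𝓕Ω : ∀ ω, A.good ω → ∀ H : Subgroup G, (∀ h ∈ H, h • ω = ω) → 𝓕 H)
    (h𝓕V : ∀ v : V, ∀ H : Subgroup G, (∀ h ∈ H, h • v = v) → 𝓕 H)
    (Δ : Disc G B V dV M geo) (o : B) (N₀ : ℕ)
    (hS : ∀ S : Finset G, (1 : G) ∈ S → ∃ (F : ℕ → B → ℝ) (L R η₀ : ℝ),
      ConeData G S B geo o F L R η₀ ∧ GaugeFin Δ F ∧ ConeOut geo o F S N₀) :
    TransferReducible G 𝓕 := by
  classical
  obtain ⟨e, K, he, hpairs⟩ := exists_pairs (Fin M)
  refine transferReducible_of_seqs hfg hd A 𝓕 h𝓕Ω h𝓕V N₀ (M + 1) K fun S hS1 => ?_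
  obtain ⟨F, L, R, η₀, cd, ⟨C', hC'⟩, C, hC, hout⟩ := hS S hS1
  obtain ⟨η, hη⟩ : ∃ η : ℕ, (M : ℝ) * (C + 4) ≤ η := exists_nat_ge _
  obtain ⟨A₀, H₀, hpar⟩ := geo_param C hC M e η C'
  obtain ⟨H₁, hH₁⟩ : ∃ H₁ : ℕ, 8 * ((M : ℝ) + 1) * (C + 4) ≤ H₁ := exists_nat_ge _
  refine ⟨η, M, A₀, max H₀ H₁, fun H hH => ?_⟩
  obtain ⟨D, hCD, hD8, hD20, hDε, hDF, hDA⟩ := hpar H ((le_max_left _ _).trans hH)
  have hH1 : 8 * ((M : ℝ) + 1) * (C + 4) ≤ H := by
    have h1 : H₁ ≤ H := (le_max_right _ _).trans hH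
    have h2 : (H₁ : ℝ) ≤ H := by exact_mod_cast h1
    linarith
  obtain ⟨X, _, t1, t2, t3, t4, t5, θ, p, hp, hF, hnear⟩ := hout D hCD
  -- the finite set of the states
  obtain ⟨As, hAs, hAsc, hAsm⟩ := hC' (D * D + 1)
  have hq : As.ncard ≤ 2 ^ 2 ^ (C' * (D ^ 2 + 2) ^ 2) := by
    refine hAsc.trans (Nat.pow_le_pow_right (by norm_num) (Nat.pow_le_pow_right (by norm_num) ?_))
    refine Nat.mul_le_mul_left _ (Nat.pow_le_pow_left ?_ _)
    nlinarith
  refine ⟨2 ^ 2 ^ (C' * (D ^ 2 + 2) ^ 2), Nat.pow_le_pow_right (by norm_num)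
    (Nat.pow_le_pow_right (by norm_num) hDA), X, inferInstance, t1, t2, t3, t4, t5, θ, ?_⟩
  -- the constants
  have hM0 : (0 : ℝ) ≤ M := Nat.cast_nonneg M
  have hη0 : (0 : ℝ) ≤ η := Nat.cast_nonneg η
  have hH64 : 32 * ((M : ℝ) + 1) ≤ H := by
    have h1 : 8 * ((M : ℝ) + 1) * 4 ≤ 8 * ((M : ℝ) + 1) * (C + 4) :=
      mul_le_mul_of_nonneg_left (by linarith) (by positivity)
    linarith
  have hH32 : (32 : ℝ) ≤ H := by linarith
  obtain ⟨Hg, hHg⟩ : ∃ Hg : ℝ, Hg = 2 * H + 2 * η := ⟨_, rfl⟩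
  have hHgN : (((2 * H + 2 * η : ℕ) : ℕ) : ℝ) = Hg := by
    rw [hHg]
    push_cast
    ring
  have hHg0 : 0 < Hg := by linarith
  obtain ⟨ε, hε⟩ : ∃ ε : ℝ, ε = 1 / Hg ^ e := ⟨_, rfl⟩
  have hε0 : 0 < ε := by
    rw [hε]
    positivity
  rw [← hHg] at hD20 hDε hDF
  rw [← hε] at hDε hDF
  have hD0 : (0 : ℝ) < D := hC.trans_le hCD
  have h2H : 2 ≤ 2 * H + 2 * η := by
    have : 32 ≤ H := by exact_mod_cast hH32
    omega
  obtain ⟨r, δ, hδ, hgood⟩ := hpairs (2 * H + 2 * η) h2H
  rw [hHgN] at hδ hgood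
  rw [← hε] at hδ hgood
  have hsmulP : ∀ (j : Fin K) (h g : G) (x : X) (c : ℤ),
      (h * g) • seqP (fun p q => (dV p q : ℤ)) (fun s => Δ.st (r j) (endPt geo o (p x) s)) Hg (δ j)
        c = h • (g • seqP (fun p q => (dV p q : ℤ)) (fun s => Δ.st (r j) (endPt geo o (p x) s)) Hg
          (δ j) c) := fun j h g x c => mul_smul _ _ _
  refine ⟨fun j g x l => l = g • Δ.st ((j : ℕ) / (M + 1)) (p x),
    fun j => SeqData.ofP hd M H _ (fun g x c => g • seqP (fun p q => (dV p q : ℤ))
      (fun s => Δ.st (r j) (endPt geo o (p x) s)) Hg (δ j) c) (hsmulP j) As hAs hq,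
    fun j => ⟨?_, ?_, fun _ _ _ _ => trivial⟩, fun g z => ?_⟩
  · rintro g x l l' rfl rfl
    rfl
  · rintro h g x l rfl
    rw [mul_smul]
  -- a common colour
  have hTT : ∀ (h : G) (x : X), dist (h • o) (h • p x) = dist o (p x) := fun h x => cd.isom h _ _
  by_cases hshort : dist (g • o) (g • p z) ≤ D / (8 * C * (M + 1))
  · -- short frames
    left
    obtain ⟨a, ha⟩ := Δ.vals (g • p z)
    obtain ⟨j, hj⟩ := exists_threshold M a
    refine ⟨j, Δ.st ((j : ℕ) / (M + 1)) (g • p z), fun q hq' => ?_⟩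
    obtain ⟨h1, -, -⟩ := hnear g z q hq'
    have h2 : ∀ᶠ y in 𝓝 q.2, dist (p y) (p q.2) < 1 / (8 * (M + 1)) :=
      hp.continuousAt.eventually (Metric.ball_mem_nhds _ (by positivity))
    filter_upwards [h2] with y hy
    rw [← Δ.st_smul]
    refine (Δ.st_eq _ (1 / (2 * (M + 1))) _ _ ((ha _ _).2 hj) ?_).symm
    have h3 : C * (dist (g • o) (g • p z) + 1) / D ≤ 1 / (8 * (M + 1)) + 1 / (8 * (M + 1)) := by
      rw [div_le_iff₀ hD0]
      have h4 : C * dist (g • o) (g • p z) ≤ 1 / (8 * (M + 1)) * D := by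
        calc C * dist (g • o) (g • p z) ≤ C * (D / (8 * C * (M + 1))) :=
              mul_le_mul_of_nonneg_left hshort hC.le
          _ = 1 / (8 * (M + 1)) * D := by
              field_simp
      have h5 : C ≤ 1 / (8 * (M + 1)) * D := by
        rw [one_div, inv_mul_eq_div, le_div_iff₀ (by positivity)]
        linarith
      linarith
    have h6 : dist (q.1 • p q.2) (q.1 • p y) < 1 / (8 * (M + 1)) := by
      rw [cd.isom, dist_comm]
      exact hy
    have h7 : dist (q.1 • p y) (g • p z) < 1 / (8 * (M + 1)) + 1 / (8 * (M + 1)) +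
        1 / (8 * (M + 1)) := by
      rw [dist_comm]
      exact (dist_triangle _ (q.1 • p q.2) _).trans_lt (by linarith)
    rw [dist_comm]
    refine h7.trans_le ?_
    have h8 : (1 : ℝ) / (2 * (M + 1)) = 1 / (8 * (M + 1)) + 1 / (8 * (M + 1)) + 1 / (8 * (M + 1)) +
        1 / (8 * (M + 1)) := by
      field_simp
      ring
    have h9 : (0 : ℝ) ≤ 1 / (8 * (M + 1)) := by positivity
    linarith
  · -- long frames
    right
    push Not at hshort
    have hT20 : 20 * Hg < dist (g • o) (g • p z) := by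
      refine lt_of_le_of_lt ?_ hshort
      rw [le_div_iff₀ (by positivity)]
      exact hD20
    have hne : g • o ≠ g • p z := by
      intro h
      rw [h, dist_self] at hT20
      linarith
    obtain ⟨a, b, hcrv⟩ := exists_crv Δ hne
    obtain ⟨j, hj⟩ := hgood a b hcrv.slope
    have hM1 : 1 ≤ M := by
      obtain ⟨i, -⟩ := hcrv.top
      exact Nat.succ_le_of_lt i.pos
    obtain ⟨hδ1, hδ2⟩ := hδ j
    have hδ0 : 0 < δ j := hε0.trans_le hδ1
    have hHM : 4 * ((M : ℝ) + 1) * (C + 4) ≤ Hg := by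
      have : 0 ≤ 4 * ((M : ℝ) + 1) * (C + 4) := by positivity
      linarith
    have hCH : C + 4 ≤ Hg / 8 := by
      have : 0 ≤ (M : ℝ) * (C + 4) := by positivity
      linarith
    have hHM' : 8 * ((M : ℝ) + 4) ≤ Hg := by linarith
    have hu := hcrv.isTrack hsep (T := 5 * Hg) (by linarith) (r j)
    have hE := hcrv.isEvents hsep (by linarith) hε0.le hj
    -- the frames which are close
    have key : ∀ q ∈ θ.nbhd S.card (g, z), ∀ᶠ y in 𝓝 q.2,
        (SeqData.ofP hd M H _ (fun g x c => g • seqP (fun p q => (dV p q : ℤ))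
          (fun s => Δ.st (r j) (endPt geo o (p x) s)) Hg (δ j) c) (hsmulP j) As hAs hq).Sees η g z
          q.1 y := by
      intro q hq'
      obtain ⟨-, h1, σ, hσ, h2⟩ := hnear g z q hq'
      have h3 : ∀ᶠ y in 𝓝 q.2, dist (p y) (p q.2) < min 1 (ε / 8) :=
        hp.continuousAt.eventually (Metric.ball_mem_nhds _ (by positivity))
      filter_upwards [h3] with y hy
      have hy1 : dist (p y) (p q.2) < 1 := hy.trans_le (min_le_left _ _)
      have hy2 : dist (p y) (p q.2) < ε / 8 := hy.trans_le (min_le_right _ _)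
      have hσ' := abs_le.1 hσ
      have h1' := abs_le.1 h1
      have h4 : |dist (q.1 • o) (q.1 • p q.2) - dist (q.1 • o) (q.1 • p y)| ≤
          dist (p y) (p q.2) := by
        rw [cd.isom, cd.isom, dist_comm o (p q.2), dist_comm o (p y), dist_comm (p y) (p q.2)]
        exact abs_dist_sub_le (p q.2) (p y) o
      have h4' := abs_le.1 h4
      have hTq : 5 * Hg ≤ dist (q.1 • o) (q.1 • p q.2) := by linarith
      have hTy : 5 * Hg ≤ dist (q.1 • o) (q.1 • p y) := by linarith
      have hTy' : 5 * Hg ≤ dist o (p y) := by rwa [hTT] at hTy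
      have hTz' : 5 * Hg ≤ dist o (p z) := by
        rw [← hTT g]
        linarith
      have hclose : ∀ s ∈ Icc (Hg / 2) (9 * Hg / 2),
          dist (endPt geo (g • o) (g • p z) s) (endPt geo (q.1 • o) (q.1 • p y) (s + σ)) <
            ε / 2 := by
        intro s hs
        have hs1 := hs.1
        have hs2 := hs.2
        have k1 := h2 s (by linarith) (by linarith)
        have k2 : C * (1 / D + s / dist (g • o) (g • p z)) < ε / 4 := by
          refine lt_of_le_of_lt (mul_le_mul_of_nonneg_left ?_ hC.le) hDε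
          have k3 : s / dist (g • o) (g • p z) ≤ 5 * Hg * (8 * C * (M + 1)) / D := by
            rw [div_le_div_iff₀ (by linarith) hD0]
            have k4 : (D : ℝ) ≤ 8 * C * (M + 1) * dist (g • o) (g • p z) := by
              rw [div_lt_iff₀ (by positivity)] at hshort
              linarith
            calc s * D ≤ 5 * Hg * (8 * C * (M + 1) * dist (g • o) (g • p z)) := by
                  refine mul_le_mul (by linarith) k4 hD0.le (by linarith)
              _ = 5 * Hg * (8 * C * (M + 1)) * dist (g • o) (g • p z) := by ring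
          linarith
        have k5 := cd.bicomb.dist_endPt_le (x := q.1 • o) (y := q.1 • p q.2) (y' := q.1 • p y)
          (s := s + σ) (by linarith) (by linarith) (by linarith)
        rw [cd.isom, dist_comm (p q.2)] at k5
        exact (dist_triangle _ (endPt geo (q.1 • o) (q.1 • p q.2) (s + σ)) _).trans_lt
          (by linarith)
      obtain ⟨sh, hsh, hag⟩ := frames_agree Δ hsep hC.le hM1 hHM hδ0 hδ2 hε0 hcrv hj
        (by linarith) hTy hσ hclose
      have hsh' : |sh| ≤ (η : ℤ) := by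
        have : |(sh : ℝ)| ≤ η := hsh.trans hη
        exact_mod_cast this
      have hshb := abs_le.1 hsh'
      -- the track of the other frame
      have hne' : q.1 • o ≠ q.1 • p y := by
        intro h
        rw [h, dist_self] at hTy
        linarith
      obtain ⟨a', b', hcrv'⟩ := exists_crv Δ hne'
      have hu' := hcrv'.isTrack hsep (T := 5 * Hg) hTy (r j)
      have hPy : ∀ c v, q.1 • seqP (fun p q => (dV p q : ℤ))
          (fun s => Δ.st (r j) (endPt geo o (p y) s)) Hg (δ j) c = some v ↔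
          Pers (fun p q => (dV p q : ℤ))
            (fun s => Δ.st (r j) (endPt geo (q.1 • o) (q.1 • p y) s)) Hg (δ j) c v := by
        intro c v
        rw [seqP_frame Δ hd cd.isom cd.geo_smul hHg0.le hTy']
        exact seqP_eq_some hHg0.le hδ0.le hu'
      have hPz : ∀ c v, g • seqP (fun p q => (dV p q : ℤ))
          (fun s => Δ.st (r j) (endPt geo o (p z) s)) Hg (δ j) c = some v ↔
          Pers (fun p q => (dV p q : ℤ))
            (fun s => Δ.st (r j) (endPt geo (g • o) (g • p z) s)) Hg (δ j) c v := by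
        intro c v
        rw [seqP_frame Δ hd cd.isom cd.geo_smul hHg0.le hTz']
        exact seqP_eq_some hHg0.le hδ0.le hu
      have hcast : ∀ c : ℤ, |c| ≤ (H : ℤ) + η → |(c : ℝ)| ≤ Hg / 2 := by
        intro c hc
        have : |(c : ℝ)| ≤ (H : ℝ) + η := by exact_mod_cast hc
        linarith
      refine ⟨⟨?_, ?_, ?_⟩, sh, hsh', ?_⟩
      · intro c c' _ _ v v' hv hv'
        exact pers_dist hHg0.le hδ0.le hu' ((hPy c v).1 hv) ((hPy c' v').1 hv')
      · intro c hc hc'
        have hc1 := abs_le.1 hc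
        have hc1' := abs_le.1 hc'
        obtain ⟨i, hi, v, hv⟩ := dens hM1 hHM' hδ0 hδ2 hu hE (c := c - sh)
          (hcast _ (by rw [abs_le]; constructor <;> omega))
        refine ⟨i, hi.le, v, (hPy _ _).2 ?_⟩
        have h5 := (hag (c - sh + i) (hcast _ (by rw [abs_le]; constructor <;> omega)) v).1.2 hv
        rwa [show c - sh + i + sh = c + i by ring] at h5
      · intro c hc v hv
        have hc1 := abs_le.1 hc
        have h5 := (hPy c v).1 hv
        have h6 := (hag (c - sh) (hcast _ (by rw [abs_le]; constructor <;> omega)) v).2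
        rw [sub_add_cancel] at h6
        obtain ⟨s, hs0, hs1, hs2, hs3⟩ := h6 h5
        have h7 : endPt geo (q.1 • o) (q.1 • p y) s = q.1 • endPt geo o (p y) s := by
          unfold endPt
          have hTpos : 0 < dist o (p y) := by linarith
          rw [hTT] at hs1
          have h8 : s / dist o (p y) ≤ 1 := (div_le_one hTpos).2 hs1
          have h9 : 0 ≤ s / dist o (p y) := by positivity
          rw [hTT, cd.geo_smul _ _ _ _ (by linarith) (by linarith)]
        rw [h7] at hs2 hs3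
        rw [Δ.st_smul] at hs2
        rw [Δ.far_smul] at hs3
        rw [← hs2, inv_smul_smul]
        refine hAsm _ (ε / 2) _ hs3 ?_
        -- the gauge is small
        unfold endPt
        have hTpos : 0 < dist o (p y) := by linarith
        rw [hTT] at hs1
        have h8 : s / dist o (p y) ≤ 1 := (div_le_one hTpos).2 hs1
        have h9 : 0 ≤ s / dist o (p y) := by positivity
        have h10 := cd.convex (D * D) o (p y) (1 - s / dist o (p y)) (by linarith) (by linarith)
        rw [cd.base, mul_zero, zero_add] at h10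
        have h11 := hF y D (by
          have : (0 : ℝ) < (D : ℝ) := hD0
          exact_mod_cast this)
        have h12 : (1 - s / dist o (p y)) * F (D * D) (p y) ≤ F (D * D) (p y) := by
          have := mul_le_mul_of_nonneg_right (show 1 - s / dist o (p y) ≤ 1 by linarith)
            (cd.nonneg (D * D) (p y))
          linarith
        linarith
      · intro c hc
        have hc1 := abs_le.1 hc
        refine Option.ext fun v => ?_
        have h5 := (hag c (hcast _ (by rw [abs_le]; constructor <;> omega)) v).1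
        exact ((hPy _ _).trans h5).trans (hPz _ _).symm
    exact ⟨j, (key (g, z) (mem_nbhd θ hS1 _ _)).self_of_nhds.1, key⟩

end Pool.Agent.GLN
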