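import Pool.Agent.Lib.MP_98022b_gln.LatVtx

/-!
# The algebras generated by elements which move two vertices by a bounded distance
-/

set_option autoImplicit false

open scoped WithZero

namespace Pool.Agent.GLN

variable {E : Type} [Field E] {n : ℕ} {I : Type} [Fintype I] {v : I → Valuation E ℤᵐ⁰}

theorem Nm.Orth.sum_eq {v : Valuation E ℤᵐ⁰} {w : Nm v n}
    {b : Module.Basis (Fin n) E (Fin n → E)} (h : w.Orth b) :
    ∑ i, w (b i) = w.vol + od v (bdet b) := by
  rw [h.vol_eq]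
  ring

/-- The bound for the matrix entries of an element which moves a norm by at most `R`. -/
theorem ob_of_dist {v : Valuation E ℤᵐ⁰} {w : Nm v n}
    {b : Module.Basis (Fin n) E (Fin n → E)} (h : w.Orth b) {R : ℝ}
    (g : Matrix.SpecialLinearGroup (Fin n) E) (hg : dist (g • w) w ≤ R) (k l : Fin n) :
    OB v (w (b l) - w (b k) - R) (((bGL b)⁻¹.1 * g.1 * (bGL b).1) k l) := by
  rw [bGL_conj]
  intro hc
  have h1 := h (g.1.mulVec (b l)) k hc
  have h2 := (abs_le.1 (((g • w).abs_sub_le_dist w (g.1.mulVec (b l))).trans hg)).2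
  rw [Nm.sl_smul_mulVec] at h2
  show _ ≤ od v _
  linarith

theorem exists_far_vtx (A : Subring E)
    (hA : ∀ R : ℕ, ∃ C : ℕ, ∀ x ∈ A, x ≠ 0 → (∀ i, v i x ≤ WithZero.exp (R : ℤ)) →
      ∀ i, WithZero.exp (-(C : ℤ)) ≤ v i x)
    (G : Subgroup (Matrix.SpecialLinearGroup (Fin n) E)) (hG : ∀ g ∈ G, ∀ a b, g.1 a b ∈ A)
    (R : ℕ) : ∃ L : ℕ, ∀ u w : Vx v n, L ≤ dV u w → 0 < n ∧ algG G (Sq G dV R u w) ≠ ⊤ := by
  obtain ⟨L, hL⟩ := exists_far (F := E) v A hA n (R : ℝ)
  set M : ℕ := ⌈L⌉₊ + 4 with hM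
  refine ⟨Fintype.card I * (n * M) + 1, fun u w hd => ?_⟩
  choose b hb hb' using fun i => (u.1 i).exists_orth_pair (w.1 i)
  -- there is a large gap
  have hbig : ∃ i k, (M : ℝ) ≤ |w.1 i (b i k) - u.1 i (b i k)| := by
    by_contra hcon
    push Not at hcon
    have h1 := dV_eq u w b hb hb'
    have h2 : ∑ i, ∑ k, |u.1 i (b i k) - w.1 i (b i k)| ≤ ∑ _i : I, ∑ _k : Fin n, (M : ℝ) :=
      Finset.sum_le_sum fun i _ => Finset.sum_le_sum fun k _ => by
        rw [abs_sub_comm]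
        exact (hcon i k).le
    rw [← h1] at h2
    simp only [Finset.sum_const, Finset.card_univ, Fintype.card_fin, nsmul_eq_mul] at h2
    have h3 : dV u w ≤ Fintype.card I * (n * M) := by exact_mod_cast h2
    omega
  obtain ⟨i₀, k₀, hbig⟩ := hbig
  have hn : 0 < n := k₀.pos
  have hn' : (0 : ℝ) < n := by exact_mod_cast hn
  refine ⟨hn, ?_⟩
  -- the shift of the second norm
  set s : I → ℝ := fun i => ((u.1 i).vol - (w.1 i).vol) / n with hs
  have hs4 : ∀ i, |s i| ≤ 4 := by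
    intro i
    have h1 := (u.2 i).2
    have h2 := (w.2 i).2
    rw [hs]
    simp only
    rw [abs_div, abs_of_pos hn', div_le_iff₀ hn']
    calc |(u.1 i).vol - (w.1 i).vol| ≤ |(u.1 i).vol| + |(w.1 i).vol| := abs_sub _ _
      _ ≤ 4 * n := by linarith
  have hmain := hL ((fun g : G => (g : Matrix.SpecialLinearGroup (Fin n) E).1) '' (Sq G dV R u w))
    (by
      rintro _ ⟨g, -, rfl⟩ k l
      exact hG g g.2 k l)
    (fun i => bGL (b i)) (fun i k => u.1 i (b i k)) (fun i k => w.1 i (b i k) + s i)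
    (by
      intro i
      rw [Finset.sum_add_distrib, (hb i).sum_eq, (hb' i).sum_eq, Finset.sum_const,
        Finset.card_univ, Fintype.card_fin, nsmul_eq_mul, hs]
      simp only
      rw [mul_div_cancel₀ _ hn'.ne']
      ring)
    (by
      rintro i _ ⟨g, ⟨hg1, hg2⟩, rfl⟩ k l
      have e1 : dist ((g : Matrix.SpecialLinearGroup (Fin n) E) • u.1 i) (u.1 i) ≤ R :=
        (dist_le_dV (g • u) u i).trans (by exact_mod_cast hg1)
      have e2 : dist ((g : Matrix.SpecialLinearGroup (Fin n) E) • w.1 i) (w.1 i) ≤ R :=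
        (dist_le_dV (g • w) w i).trans (by exact_mod_cast hg2)
      refine ⟨ob_of_dist (hb i) _ e1 k l, ?_⟩
      have := ob_of_dist (hb' i) _ e2 k l
      rwa [show w.1 i (b i l) + s i - (w.1 i (b i k) + s i) - R =
        w.1 i (b i l) - w.1 i (b i k) - R by ring])
    ⟨i₀, k₀, by
      have h1 := hs4 i₀
      have h2 := Nat.le_ceil L
      have h3 : (M : ℝ) = ⌈L⌉₊ + 4 := by rw [hM]; push_cast; ring
      have h4 : |w.1 i₀ (b i₀ k₀) - u.1 i₀ (b i₀ k₀)| ≤
          |w.1 i₀ (b i₀ k₀) + s i₀ - u.1 i₀ (b i₀ k₀)| + |s i₀| := by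
        have := abs_sub (w.1 i₀ (b i₀ k₀) + s i₀ - u.1 i₀ (b i₀ k₀)) (s i₀)
        rwa [show w.1 i₀ (b i₀ k₀) + s i₀ - u.1 i₀ (b i₀ k₀) - s i₀ =
          w.1 i₀ (b i₀ k₀) - u.1 i₀ (b i₀ k₀) by ring] at this
      show L ≤ |w.1 i₀ (b i₀ k₀) + s i₀ - u.1 i₀ (b i₀ k₀)|
      linarith⟩
  have hid : ((algebraMap E E).mapMatrix : Matrix (Fin n) (Fin n) E →+* _) = RingHom.id _ := by
    ext x i j
    rfl
  rw [hid] at hmain
  simp only [RingHom.id_apply, Set.image_id'] at hmain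
  exact hmain

omit [Fintype I] in
/-- An element which acts nontrivially is not a scalar. -/
theorem ne_bot_of_NT (hn : 0 < n) (G : Subgroup (Matrix.SpecialLinearGroup (Fin n) E)) (s : Set G)
    (h : ∃ g ∈ s, NT (Vx v n) g) : algG G s ≠ ⊥ := by
  obtain ⟨g, hgs, w, hw⟩ := h
  intro hbot
  apply hw
  have h1 : (g : Matrix.SpecialLinearGroup (Fin n) E).1 ∈ algG G s :=
    Algebra.subset_adjoin ⟨g, hgs, rfl⟩
  rw [hbot, Algebra.mem_bot] at h1
  obtain ⟨c, hc⟩ := h1
  have hc1 : c ^ n = 1 := by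
    have h2 := (g : Matrix.SpecialLinearGroup (Fin n) E).2
    rw [← hc, Algebra.algebraMap_eq_smul_one, Matrix.det_smul, Matrix.det_one, mul_one,
      Fintype.card_fin] at h2
    exact h2
  have hc0 : c ≠ 0 := by
    rintro rfl
    rw [zero_pow hn.ne'] at hc1
    exact zero_ne_one hc1
  refine Subtype.ext (funext fun i => Nm.ext' fun x hx => ?_)
  show ((g : Matrix.SpecialLinearGroup (Fin n) E) • w.1 i) x = w.1 i x
  have h3 : x = (g : Matrix.SpecialLinearGroup (Fin n) E).1.mulVec (c⁻¹ • x) := by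
    rw [← hc, Algebra.algebraMap_eq_smul_one, Matrix.smul_mulVec, Matrix.one_mulVec, smul_smul,
      mul_inv_cancel₀ hc0, one_smul]
  have h4 : od (v i) c = 0 := by
    have h5 : ∀ m : ℕ, od (v i) (c ^ m) = m * od (v i) c := by
      intro m
      induction m with
      | zero => simp
      | succ m ih =>
        rw [pow_succ, od_mul (pow_ne_zero _ hc0) hc0, ih]
        push_cast
        ring
    have h6 := h5 n
    rw [hc1, od_one] at h6
    have hn' : (n : ℝ) ≠ 0 := by exact_mod_cast hn.ne'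
    rcases mul_eq_zero.1 h6.symm with h7 | h7
    · exact absurd h7 hn'
    · exact h7
  conv_lhs => rw [h3]
  rw [Nm.sl_smul_mulVec, (w.1 i).smul (inv_ne_zero hc0) hx, od_inv hc0, h4, neg_zero, zero_add]

/-- The algebras. -/
noncomputable def algData (A : Subring E)
    (hA : ∀ R : ℕ, ∃ C : ℕ, ∀ x ∈ A, x ≠ 0 → (∀ i, v i x ≤ WithZero.exp (R : ℤ)) →
      ∀ i, WithZero.exp (-(C : ℤ)) ≤ v i x)
    (G : Subgroup (Matrix.SpecialLinearGroup (Fin n) E)) (hG : ∀ g ∈ G, ∀ a b, g.1 a b ∈ A) :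
    AlgData G (Vx v n) (Om E n) dV (n * n) where
  alg := algG G
  mono s t hst := Algebra.adjoin_mono (Set.image_mono hst)
  smul := algG_smul G
  rank B := Module.finrank E B
  rank_lt a b hab := by
    have h1 : Subalgebra.toSubmodule a < Subalgebra.toSubmodule b :=
      (Subalgebra.toSubmodule (R := E) (A := Matrix (Fin n) (Fin n) E)).lt_iff_lt.2 hab
    exact Submodule.finrank_lt_finrank_of_lt h1
  rank_le B := by
    have h1 := Submodule.finrank_le (Subalgebra.toSubmodule B)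
    rw [Module.finrank_matrix, Module.finrank_self, mul_one, Fintype.card_fin] at h1
    exact h1
  good B := B ≠ ⊥ ∧ B ≠ ⊤
  far R := by
    obtain ⟨L, hL⟩ := exists_far_vtx (v := v) A hA G hG R
    exact ⟨L, fun u w hd hex => ⟨ne_bot_of_NT (hL u w hd).1 G _ hex, (hL u w hd).2⟩⟩

end Pool.Agent.GLN
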