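import Mathlib

/-!
# A simple submodule with an annihilator fixed by a subgroup of finite index

Row GB5. `F ^ n` is a module over `B` (a subalgebra of matrices, acting by `mulVec`; e.g. through
`Matrix.toLin'`). Simple submodules exist (finite dimension). The annihilator in `B` of a simple
submodule depends only on its isotypic component (it is the annihilator of the component), and
there are finitely many isotypic components (`Finite (isotypicComponents R M)` in Mathlib). The
group `H` permutes the simple submodules (`W` to `g W`), hence it permutes the finite set of the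
annihilators (`ann (g W) = g (ann W) g⁻¹`); a stabilizer has finite index.
-/

set_option autoImplicit false

namespace Pool.Agent.GLN

section GB5

variable {F : Type} [Field F] {n : ℕ}

/-- The module of column vectors over a subalgebra of matrices. -/
@[reducible] private def GB5mod (B : Subalgebra F (Matrix (Fin n) (Fin n) F)) :
    Module B (Fin n → F) where
  smul b x := b.1.mulVec x
  one_smul x := by
    change (1 : Matrix (Fin n) (Fin n) F).mulVec x = x
    exact Matrix.one_mulVec x
  mul_smul a b x := by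
    change (a.1 * b.1).mulVec x = a.1.mulVec (b.1.mulVec x)
    exact (Matrix.mulVec_mulVec x a.1 b.1).symm
  smul_zero b := by
    change b.1.mulVec 0 = 0
    exact Matrix.mulVec_zero _
  smul_add b x y := by
    change b.1.mulVec (x + y) = b.1.mulVec x + b.1.mulVec y
    exact Matrix.mulVec_add _ _ _
  add_smul a b x := by
    change (a.1 + b.1).mulVec x = a.1.mulVec x + b.1.mulVec x
    exact Matrix.add_mulVec _ _ _
  zero_smul x := by
    change (0 : Matrix (Fin n) (Fin n) F).mulVec x = 0
    exact Matrix.zero_mulVec _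

attribute [local instance] GB5mod

private theorem GB5smul (B : Subalgebra F (Matrix (Fin n) (Fin n) F)) (b : B) (x : Fin n → F) :
    b • x = b.1.mulVec x := rfl

private theorem GB5tower (B : Subalgebra F (Matrix (Fin n) (Fin n) F)) :
    IsScalarTower F B (Fin n → F) :=
  ⟨fun c b x => by
    rw [GB5smul, GB5smul]
    change (c • b.1).mulVec x = _
    exact Matrix.smul_mulVec c b.1 x⟩

private theorem GB5noeth (B : Subalgebra F (Matrix (Fin n) (Fin n) F)) :
    IsNoetherian B (Fin n → F) := by
  have := GB5tower B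
  exact isNoetherian_of_tower F inferInstance

private theorem GB5artin (B : Subalgebra F (Matrix (Fin n) (Fin n) F)) :
    IsArtinian B (Fin n → F) := by
  have := GB5tower B
  exact isArtinian_of_tower F inferInstance

/-- The annihilator of a submodule, as a set of matrices. -/
private def GB5ann (B : Subalgebra F (Matrix (Fin n) (Fin n) F)) (S : Submodule B (Fin n → F)) :
    Set (Matrix (Fin n) (Fin n) F) :=
  {b | b ∈ B ∧ ∀ x ∈ S, b.mulVec x = 0}

private theorem GB5ann_eq (B : Subalgebra F (Matrix (Fin n) (Fin n) F))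
    (S S' : Submodule B (Fin n → F)) [IsSimpleModule B S] [IsSimpleModule B S']
    (h : isotypicComponent B (Fin n → F) S = isotypicComponent B (Fin n → F) S') :
    GB5ann B S = GB5ann B S' := by
  have hle : S ≤ isotypicComponent B (Fin n → F) S' := h ▸ S.le_isotypicComponent
  obtain ⟨e⟩ := isIsotypicOfType_submodule_iff.mp
    (IsIsotypicOfType.isotypicComponent B (Fin n → F) S') S hle
  ext b
  constructor
  · rintro ⟨hb, hx⟩
    refine ⟨hb, fun x hxS => ?_⟩
    have h1 := hx (e.symm ⟨x, hxS⟩).1 (e.symm ⟨x, hxS⟩).2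
    have h2 : (⟨b, hb⟩ : B) • (e.symm ⟨x, hxS⟩) = 0 := Subtype.ext h1
    have h3 : (⟨b, hb⟩ : B) • (⟨x, hxS⟩ : S') = 0 := by
      have := congrArg e h2
      rwa [map_smul, LinearEquiv.apply_symm_apply, map_zero] at this
    exact congrArg Subtype.val h3
  · rintro ⟨hb, hx⟩
    refine ⟨hb, fun x hxS => ?_⟩
    have h1 := hx (e ⟨x, hxS⟩).1 (e ⟨x, hxS⟩).2
    have h2 : (⟨b, hb⟩ : B) • (e ⟨x, hxS⟩) = 0 := Subtype.ext h1
    have h3 : (⟨b, hb⟩ : B) • (⟨x, hxS⟩ : S) = 0 := by
      have := congrArg e.symm h2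
      rwa [map_smul, LinearEquiv.symm_apply_apply, map_zero] at this
    exact congrArg Subtype.val h3

private theorem GB5finite (B : Subalgebra F (Matrix (Fin n) (Fin n) F)) :
    {A : Set (Matrix (Fin n) (Fin n) F) |
      ∃ S : Submodule B (Fin n → F), IsAtom S ∧ A = GB5ann B S}.Finite := by
  classical
  have := GB5noeth B
  have hfin : (isotypicComponents B (Fin n → F)).Finite := Set.toFinite _
  let f : Submodule B (Fin n → F) → Set (Matrix (Fin n) (Fin n) F) := fun c =>
    if h : ∃ S : Submodule B (Fin n → F), IsSimpleModule B S ∧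
      c = isotypicComponent B (Fin n → F) S then GB5ann B h.choose else ∅
  apply (hfin.image f).subset
  rintro A ⟨S, hS, rfl⟩
  have : IsSimpleModule B S := isSimpleModule_iff_isAtom.2 hS
  refine ⟨isotypicComponent B (Fin n → F) S, ⟨S, inferInstance, rfl⟩, ?_⟩
  have h : ∃ S' : Submodule B (Fin n → F), IsSimpleModule B S' ∧
      isotypicComponent B (Fin n → F) S = isotypicComponent B (Fin n → F) S' :=
    ⟨S, inferInstance, rfl⟩
  simp only [f]
  rw [dif_pos h]
  have := h.choose_spec.1
  exact (GB5ann_eq B S h.choose h.choose_spec.2).symm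

variable (B : Subalgebra F (Matrix (Fin n) (Fin n) F)) (H : Subgroup (GL (Fin n) F))
  (hH : ∀ g ∈ H, ∀ x ∈ B, g.1 * x * (g⁻¹).1 ∈ B)

private theorem GB5inv (g : GL (Fin n) F) (x : Fin n → F) :
    (g⁻¹).1.mulVec (g.1.mulVec x) = x := by
  rw [Matrix.mulVec_mulVec]
  have : (g⁻¹).1 * g.1 = 1 := by
    rw [← Units.val_mul, inv_mul_cancel, Units.val_one]
  rw [this, Matrix.one_mulVec]

private theorem GB5inv' (g : GL (Fin n) F) (x : Fin n → F) :
    g.1.mulVec ((g⁻¹).1.mulVec x) = x := by
  rw [Matrix.mulVec_mulVec]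
  have : g.1 * (g⁻¹).1 = 1 := by
    rw [← Units.val_mul, mul_inv_cancel, Units.val_one]
  rw [this, Matrix.one_mulVec]

include hH in
private theorem GB5conj (g : GL (Fin n) F) (hg : g ∈ H) (b : Matrix (Fin n) (Fin n) F)
    (hb : b ∈ B) : (g⁻¹).1 * b * g.1 ∈ B := by
  have := hH g⁻¹ (H.inv_mem hg) b hb
  rwa [inv_inv] at this

/-- The image of a submodule under an element of the group. -/
private def GB5tr (g : H) (S : Submodule B (Fin n → F)) : Submodule B (Fin n → F) where
  carrier := {x | ((g : GL (Fin n) F)⁻¹).1.mulVec x ∈ S}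
  add_mem' := by
    intro a b ha hb
    change ((g : GL (Fin n) F)⁻¹).1.mulVec (a + b) ∈ S
    rw [Matrix.mulVec_add]
    exact S.add_mem ha hb
  zero_mem' := by
    change ((g : GL (Fin n) F)⁻¹).1.mulVec 0 ∈ S
    rw [Matrix.mulVec_zero]
    exact S.zero_mem
  smul_mem' := by
    intro b x hx
    change ((g : GL (Fin n) F)⁻¹).1.mulVec (b.1.mulVec x) ∈ S
    have h1 := GB5conj B H hH g g.2 b.1 b.2
    have h2 := S.smul_mem ⟨_, h1⟩ hx
    rw [GB5smul] at h2
    have h3 : ((g : GL (Fin n) F)⁻¹).1.mulVec (b.1.mulVec x)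
        = (((g : GL (Fin n) F)⁻¹).1 * b.1 * (g : GL (Fin n) F).1).mulVec
            (((g : GL (Fin n) F)⁻¹).1.mulVec x) := by
      rw [← Matrix.mulVec_mulVec, GB5inv', ← Matrix.mulVec_mulVec]
    rw [h3]
    exact h2

private theorem GB5mem_tr (g : H) (S : Submodule B (Fin n → F)) (x : Fin n → F) :
    x ∈ GB5tr B H hH g S ↔ ((g : GL (Fin n) F)⁻¹).1.mulVec x ∈ S := Iff.rfl

private theorem GB5tr_inv (g : H) (S : Submodule B (Fin n → F)) :
    GB5tr B H hH g⁻¹ (GB5tr B H hH g S) = S := by
  ext x
  rw [GB5mem_tr, GB5mem_tr]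
  have : ((((g⁻¹ : H) : GL (Fin n) F))⁻¹).1 = (g : GL (Fin n) F).1 := by
    rw [Subgroup.coe_inv, inv_inv]
  rw [this, GB5inv]

private theorem GB5tr_inv' (g : H) (S : Submodule B (Fin n → F)) :
    GB5tr B H hH g (GB5tr B H hH g⁻¹ S) = S := by
  have := GB5tr_inv B H hH g⁻¹ S
  rwa [inv_inv] at this

private theorem GB5tr_mono (g : H) {S T : Submodule B (Fin n → F)} (h : S ≤ T) :
    GB5tr B H hH g S ≤ GB5tr B H hH g T := fun _ hx => h hx

private theorem GB5tr_atom (g : H) {S : Submodule B (Fin n → F)} (h : IsAtom S) :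
    IsAtom (GB5tr B H hH g S) := by
  let e : Submodule B (Fin n → F) ≃o Submodule B (Fin n → F) :=
    { toFun := GB5tr B H hH g
      invFun := GB5tr B H hH g⁻¹
      left_inv := GB5tr_inv B H hH g
      right_inv := GB5tr_inv' B H hH g
      map_rel_iff' := by
        intro S T
        constructor
        · intro h
          have := GB5tr_mono B H hH g⁻¹ h
          simpa [GB5tr_inv] using this
        · exact GB5tr_mono B H hH g }
  exact (e.isAtom_iff S).2 h

private theorem GB5ann_tr (g : H) (S : Submodule B (Fin n → F)) :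
    GB5ann B (GB5tr B H hH g S)
      = (fun b => (g : GL (Fin n) F).1 * b * ((g : GL (Fin n) F)⁻¹).1) '' GB5ann B S := by
  ext b
  constructor
  · rintro ⟨hb, hx⟩
    refine ⟨((g : GL (Fin n) F)⁻¹).1 * b * (g : GL (Fin n) F).1,
      ⟨GB5conj B H hH g g.2 b hb, ?_⟩, ?_⟩
    · intro x hxS
      have h1 : (g : GL (Fin n) F).1.mulVec x ∈ GB5tr B H hH g S := by
        rw [GB5mem_tr, GB5inv]
        exact hxS
      have h2 := hx _ h1
      rw [← Matrix.mulVec_mulVec, ← Matrix.mulVec_mulVec, h2, Matrix.mulVec_zero]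
    · have e1 : (g : GL (Fin n) F).1 * ((g : GL (Fin n) F)⁻¹).1 = 1 := by
        rw [← Units.val_mul, mul_inv_cancel, Units.val_one]
      change (g : GL (Fin n) F).1 * (((g : GL (Fin n) F)⁻¹).1 * b * (g : GL (Fin n) F).1)
        * ((g : GL (Fin n) F)⁻¹).1 = b
      calc (g : GL (Fin n) F).1 * (((g : GL (Fin n) F)⁻¹).1 * b * (g : GL (Fin n) F).1)
            * ((g : GL (Fin n) F)⁻¹).1
          = ((g : GL (Fin n) F).1 * ((g : GL (Fin n) F)⁻¹).1) * b
              * ((g : GL (Fin n) F).1 * ((g : GL (Fin n) F)⁻¹).1) := by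
            simp only [mul_assoc]
        _ = b := by rw [e1, one_mul, mul_one]
  · rintro ⟨a, ⟨ha, hx⟩, rfl⟩
    refine ⟨hH g g.2 a ha, fun x hxS => ?_⟩
    rw [GB5mem_tr] at hxS
    change ((g : GL (Fin n) F).1 * a * ((g : GL (Fin n) F)⁻¹).1).mulVec x = 0
    rw [← Matrix.mulVec_mulVec, ← Matrix.mulVec_mulVec, hx _ hxS, Matrix.mulVec_zero]

end GB5

/-- A group normalising the algebra `B` has a subgroup of finite index which normalises the
annihilator in `B` of a simple submodule. -/
theorem exists_simple_ann {F : Type} [Field F] {n : ℕ} (hn : 0 < n)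
    (B : Subalgebra F (Matrix (Fin n) (Fin n) F)) (H : Subgroup (GL (Fin n) F))
    (hH : ∀ g ∈ H, ∀ x ∈ B, g.1 * x * (g⁻¹).1 ∈ B) :
    ∃ W : Submodule F (Fin n → F), W ≠ ⊥ ∧ (∀ b ∈ B, ∀ x ∈ W, b.mulVec x ∈ W) ∧
      (∀ W' ≤ W, (∀ b ∈ B, ∀ x ∈ W', b.mulVec x ∈ W') → W' = ⊥ ∨ W' = W) ∧
      ∃ H₀ : Subgroup H, H₀.FiniteIndex ∧ ∀ g ∈ H₀, ∀ b ∈ B, (∀ x ∈ W, b.mulVec x = 0) →
        ∀ x ∈ W, ((g : GL (Fin n) F).1 * b * ((g : GL (Fin n) F)⁻¹).1).mulVec x = 0 := by
  classical
  let _ := GB5mod B
  have := GB5tower B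
  have := GB5artin B
  have : Nonempty (Fin n) := ⟨⟨0, hn⟩⟩
  have : Nontrivial (Fin n → F) := inferInstance
  obtain ⟨S, hS⟩ := IsAtomic.exists_atom (Submodule B (Fin n → F))
  have hmemB : ∀ (T : Submodule B (Fin n → F)) (b : Matrix (Fin n) (Fin n) F), b ∈ B →
      ∀ x ∈ T, b.mulVec x ∈ T := fun T b hb x hx => T.smul_mem ⟨b, hb⟩ hx
  let W : Submodule F (Fin n → F) := S.restrictScalars F
  have hWmem : ∀ x, x ∈ W ↔ x ∈ S := fun x => Iff.rfl
  refine ⟨W, ?_, fun b hb x hx => hmemB S b hb x hx, ?_, ?_⟩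
  · intro h
    apply hS.1
    rw [Submodule.eq_bot_iff]
    intro x hx
    have : x ∈ W := hx
    rw [h] at this
    simpa using this
  · intro W' hW' hinv
    let T : Submodule B (Fin n → F) :=
      { carrier := W'
        add_mem' := fun ha hb => W'.add_mem ha hb
        zero_mem' := W'.zero_mem
        smul_mem' := fun b x hx => hinv b.1 b.2 x hx }
    have hT : T ≤ S := fun x hx => hW' hx
    rcases hS.le_iff.1 hT with h | h
    · left
      rw [Submodule.eq_bot_iff]
      intro x hx
      have : x ∈ T := hx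
      rw [h] at this
      simpa using this
    · right
      apply le_antisymm hW'
      intro x hx
      have : x ∈ S := hx
      rw [← h] at this
      exact this
  · -- the action on the sets of matrices
    let act : MulAction H (Set (Matrix (Fin n) (Fin n) F)) :=
      { smul := fun g A => (fun b => (g : GL (Fin n) F).1 * b * ((g : GL (Fin n) F)⁻¹).1) '' A
        one_smul := by
          intro A
          change (fun b => ((1 : H) : GL (Fin n) F).1 * b * (((1 : H) : GL (Fin n) F)⁻¹).1) '' A = A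
          have : (fun b : Matrix (Fin n) (Fin n) F =>
              ((1 : H) : GL (Fin n) F).1 * b * (((1 : H) : GL (Fin n) F)⁻¹).1) = id := by
            funext b
            simp
          rw [this, Set.image_id]
        mul_smul := by
          intro g h A
          change (fun b => ((g * h : H) : GL (Fin n) F).1 * b *
              (((g * h : H) : GL (Fin n) F)⁻¹).1) '' A
            = (fun b => (g : GL (Fin n) F).1 * b * ((g : GL (Fin n) F)⁻¹).1) ''
              ((fun b => (h : GL (Fin n) F).1 * b * ((h : GL (Fin n) F)⁻¹).1) '' A)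
          rw [Set.image_image]
          congr 1
          funext b
          rw [Subgroup.coe_mul, mul_inv_rev, Units.val_mul, Units.val_mul]
          simp only [mul_assoc] }
    have hact : ∀ (g : H) (A : Set (Matrix (Fin n) (Fin n) F)), g • A =
        (fun b => (g : GL (Fin n) F).1 * b * ((g : GL (Fin n) F)⁻¹).1) '' A := fun g A => rfl
    refine ⟨MulAction.stabilizer H (GB5ann B S), ?_, ?_⟩
    · have hsub : MulAction.orbit H (GB5ann B S) ⊆ {A : Set (Matrix (Fin n) (Fin n) F) |
          ∃ S : Submodule B (Fin n → F), IsAtom S ∧ A = GB5ann B S} := by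
        rintro _ ⟨g, rfl⟩
        exact ⟨GB5tr B H hH g S, GB5tr_atom B H hH g hS, (GB5ann_tr B H hH g S).symm⟩
      have : Finite (MulAction.orbit H (GB5ann B S)) := ((GB5finite B).subset hsub).to_subtype
      have : Finite (H ⧸ MulAction.stabilizer H (GB5ann B S)) :=
        Finite.of_equiv _ (MulAction.orbitEquivQuotientStabilizer H (GB5ann B S))
      exact Subgroup.finiteIndex_of_finite_quotient
    · intro g hg b hb hx x hxW
      rw [MulAction.mem_stabilizer_iff, hact] at hg
      have h1 : b ∈ GB5ann B S := ⟨hb, fun x hx' => hx x hx'⟩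
      have h2 : (g : GL (Fin n) F).1 * b * ((g : GL (Fin n) F)⁻¹).1 ∈ GB5ann B S := by
        rw [← hg]
        exact ⟨b, h1, rfl⟩
      exact h2.2 x hxW

end Pool.Agent.GLN
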