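import Pool.Agent.Lib.MP_98022b_gln.SubStab

/-!
# Automorphisms of a module with an invariant submodule

Row GB18. The kernel of the homomorphism from the automorphism group of `M` to the product of those of
`N` and `M ⧸ N` is commutative: `(g - 1) (h - 1) = 0`. Extension property, `solvable_comap`.
-/

set_option autoImplicit false

namespace Pool.Agent.GLN

open Pool.Agent.FJ

variable {P : ∀ (G : Type) [Group G], Prop}

section GB18

variable {R M : Type} [CommRing R] [AddCommGroup M] [Module R M] (N : Submodule R M)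
  (hN : ∀ g : M ≃ₗ[R] M, ∀ x ∈ N, g x ∈ N)

include hN in
private theorem GB18_map (g : M ≃ₗ[R] M) : N.map (g : M →ₗ[R] M) = N := by
  apply le_antisymm
  · rintro _ ⟨x, hx, rfl⟩
    exact hN g x hx
  · intro x hx
    exact ⟨g.symm x, hN g.symm x hx, by simp⟩

/-- The homomorphism to the automorphism groups of `N` and of `M ⧸ N`. -/
private def GB18_hom : (M ≃ₗ[R] M) →* (N ≃ₗ[R] N) × ((M ⧸ N) ≃ₗ[R] (M ⧸ N)) :=
  MonoidHom.mk' (fun g => (g.ofSubmodules N N (GB18_map N hN g),
    Submodule.Quotient.equiv N N g (GB18_map N hN g))) (by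
    intro g h
    refine Prod.ext ?_ ?_
    · ext x
      rfl
    · ext x
      obtain ⟨x, rfl⟩ := N.mkQ_surjective x
      rfl)

private theorem GB18_ker (g : M ≃ₗ[R] M) (hg : g ∈ (GB18_hom N hN).ker) :
    (∀ x ∈ N, g x = x) ∧ ∀ y, g y - y ∈ N := by
  rw [MonoidHom.mem_ker] at hg
  have h1 := congrArg Prod.fst hg
  have h2 := congrArg Prod.snd hg
  refine ⟨fun x hx => ?_, fun y => ?_⟩
  · have h3 := congrArg (fun e : N ≃ₗ[R] N => ((e ⟨x, hx⟩ : N) : M)) h1
    exact h3
  · have h3 := congrArg (fun e : (M ⧸ N) ≃ₗ[R] (M ⧸ N) => e (Submodule.Quotient.mk y)) h2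
    exact (Submodule.Quotient.eq N).1 h3

end GB18

theorem mem_aut_ext (hP : IsFJClass P) (hsol : ∀ (G : Type) [Group G], Group.IsSolvable G → P G)
    {R M : Type} [CommRing R] [AddCommGroup M] [Module R M] (N : Submodule R M)
    (hN : ∀ g : M ≃ₗ[R] M, ∀ x ∈ N, g x ∈ N) (h1 : P (N ≃ₗ[R] N))
    (h2 : P ((M ⧸ N) ≃ₗ[R] (M ⧸ N))) : P (M ≃ₗ[R] M) := by
  have hker : Group.IsSolvable (GB18_hom N hN).ker := by
    refine Group.isSolvable_of_comm ?_
    rintro ⟨g, hg⟩ ⟨h, hh⟩
    obtain ⟨hg1, hg2⟩ := GB18_ker N hN g hg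
    obtain ⟨hh1, hh2⟩ := GB18_ker N hN h hh
    apply Subtype.ext
    change g * h = h * g
    ext y
    change g (h y) = h (g y)
    have e1 : g (h y) = g y + (h y - y) := by
      conv_lhs => rw [show h y = y + (h y - y) by abel]
      rw [map_add, hg1 _ (hh2 y)]
    have e2 : h (g y) = h y + (g y - y) := by
      conv_lhs => rw [show g y = y + (g y - y) by abel]
      rw [map_add, hh1 _ (hg2 y)]
    rw [e1, e2]
    abel
  exact hP.extension (GB18_hom N hN) (hP.prod h1 h2)
    fun q => hsol _ (solvable_comap (GB18_hom N hN) hker q)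

end Pool.Agent.GLN
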