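import Pool.Agent.Lib.MP_98022b_gln.AutNoeth

/-!
# Automorphisms of finitely generated modules over commutative rings

Row GB21. `IsFJClass.locally`: let `x i` be finitely many generators of `M` and `S` a finite set of
automorphisms. For `g ∈ S` write `g (x i)` and `g⁻¹ (x i)` as linear combinations of the `x j`; let
`A` be the subring of `R` generated by the coefficients (finitely many, so `A` is Noetherian:
`Algebra.FiniteType.isNoetherianRing ℤ`) and `M₀` the `A`-submodule of `M` generated by the `x i`.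
The subgroup `K` of the automorphisms `g` with `g M₀ ≤ M₀` and `g⁻¹ M₀ ≤ M₀` contains `S` and acts
faithfully on `M₀`; use `mem_aut_noeth` for `A`, `M₀`.
-/

set_option autoImplicit false

namespace Pool.Agent.GLN

open Pool.Agent.FJ

variable {P : ∀ (G : Type) [Group G], Prop}

/-- The automorphisms of `M` which preserve a submodule over a subring. -/
private def GB21_stab {R M : Type} [CommRing R] [AddCommGroup M] [Module R M]
    (M₀ : Set M) : Subgroup (M ≃ₗ[R] M) where
  carrier := {g | (∀ m ∈ M₀, g m ∈ M₀) ∧ ∀ m ∈ M₀, g.symm m ∈ M₀}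
  mul_mem' := by
    rintro a b ⟨ha, ha'⟩ ⟨hb, hb'⟩
    exact ⟨fun m hm => ha _ (hb m hm), fun m hm => hb' _ (ha' m hm)⟩
  one_mem' := ⟨fun _ hm => hm, fun _ hm => hm⟩
  inv_mem' := by
    rintro a ⟨ha, ha'⟩
    exact ⟨ha', ha⟩

/-- The restriction. -/
private def GB21_res {R M : Type} [CommRing R] [AddCommGroup M] [Module R M]
    (A : Subalgebra ℤ R) (M₀ : Submodule A M) :
    GB21_stab (R := R) (M₀ : Set M) →* (M₀ ≃ₗ[A] M₀) where
  toFun g :=
    { toFun := fun m => ⟨g.1 m.1, g.2.1 m.1 m.2⟩
      invFun := fun m => ⟨g.1.symm m.1, g.2.2 m.1 m.2⟩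
      map_add' := fun a b => Subtype.ext (map_add g.1 a.1 b.1)
      map_smul' := fun r a => Subtype.ext (map_smul g.1 (r : R) a.1)
      left_inv := fun m => Subtype.ext (g.1.symm_apply_apply m.1)
      right_inv := fun m => Subtype.ext (g.1.apply_symm_apply m.1) }
  map_one' := rfl
  map_mul' := fun _ _ => rfl

theorem mem_aut (hP : IsFJClass P) (hsol : ∀ (G : Type) [Group G], Group.IsSolvable G → P G)
    (hGL : ∀ (K : Type) [Field K] (m : ℕ), P (GL (Fin m) K)) (R M : Type) [CommRing R]
    [AddCommGroup M] [Module R M] [Module.Finite R M] : P (M ≃ₗ[R] M) := by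
  classical
  obtain ⟨k, x, hx⟩ := Module.Finite.exists_fin (R := R) (M := M)
  refine hP.locally fun S => ?_
  have hcoef : ∀ m : M, ∃ c : Fin k → R, ∑ i, c i • x i = m := by
    intro m
    have h1 : m ∈ Submodule.span R (Set.range x) := by
      rw [hx]
      trivial
    exact (Submodule.mem_span_range_iff_exists_fun R).1 h1
  choose c hc using hcoef
  let T : Finset R := S.biUnion fun g =>
    (Finset.univ.biUnion fun i : Fin k => Finset.univ.image (c (g (x i)))) ∪
      (Finset.univ.biUnion fun i : Fin k => Finset.univ.image (c (g.symm (x i))))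
  let A : Subalgebra ℤ R := Algebra.adjoin ℤ (T : Set R)
  have hTA : ∀ t ∈ T, t ∈ A := fun t ht => Algebra.subset_adjoin ht
  have hft : Algebra.FiniteType ℤ A := (Subalgebra.fg_iff_finiteType A).1 (Subalgebra.fg_adjoin_finset T)
  have hN : IsNoetherianRing A := Algebra.FiniteType.isNoetherianRing ℤ A
  let M₀ : Submodule A M := Submodule.span A (Set.range x)
  have hfin : Module.Finite A M₀ := Module.Finite.span_of_finite A (Set.finite_range x)
  have hxM : ∀ i, x i ∈ M₀ := fun i => Submodule.subset_span ⟨i, rfl⟩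
  have hcomb : ∀ d : Fin k → R, (∀ i, d i ∈ A) → ∑ i, d i • x i ∈ M₀ := by
    intro d hd
    refine Submodule.sum_mem _ fun i _ => ?_
    exact M₀.smul_mem (⟨d i, hd i⟩ : A) (hxM i)
  have hstab : ∀ g : M ≃ₗ[R] M, (∀ i, g (x i) ∈ M₀) → ∀ m ∈ M₀, g m ∈ M₀ := by
    intro g hg m hm
    induction hm using Submodule.span_induction with
    | mem y hy =>
      obtain ⟨i, rfl⟩ := hy
      exact hg i
    | zero => rw [map_zero]; exact M₀.zero_mem
    | add y z _ _ hy hz => rw [map_add]; exact M₀.add_mem hy hz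
    | smul a y _ hy =>
      have h1 : g (a • y) = a • g y := map_smul g (a : R) y
      rw [h1]
      exact M₀.smul_mem a hy
  refine ⟨GB21_stab (M₀ : Set M), ?_, ?_⟩
  · intro g hg
    refine ⟨hstab g fun i => ?_, hstab g.symm fun i => ?_⟩
    · rw [← hc (g (x i))]
      refine hcomb _ fun j => hTA _ ?_
      refine Finset.mem_biUnion.2 ⟨g, hg, Finset.mem_union_left _ ?_⟩
      exact Finset.mem_biUnion.2 ⟨i, Finset.mem_univ _, Finset.mem_image.2 ⟨j, Finset.mem_univ _, rfl⟩⟩
    · rw [← hc (g.symm (x i))]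
      refine hcomb _ fun j => hTA _ ?_
      refine Finset.mem_biUnion.2 ⟨g, hg, Finset.mem_union_right _ ?_⟩
      exact Finset.mem_biUnion.2 ⟨i, Finset.mem_univ _, Finset.mem_image.2 ⟨j, Finset.mem_univ _, rfl⟩⟩
  · refine hP.of_injective (GB21_res A M₀) ?_ (mem_aut_noeth hP hsol hGL A M₀)
    intro g h hgh
    apply Subtype.ext
    apply LinearEquiv.ext
    intro m
    rw [← hc m, map_sum, map_sum]
    refine Finset.sum_congr rfl fun i _ => ?_
    rw [map_smul, map_smul]
    congr 1
    have h1 := congrArg (fun e : M₀ ≃ₗ[A] M₀ => ((e ⟨x i, hxM i⟩ : M₀) : M)) hgh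
    exact h1

end Pool.Agent.GLN
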