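import Pool.Agent.Lib.MP_98022b_h71.Defs

/-!
# Automorphisms of torsion free modules over domains

Row GB19. Let `K` be the fraction field of `R`. The map from `M` to `LocalizedModule (R⁰) M` (or
`K ⊗[R] M`) is injective, and the target is a vector space over `K` of finite dimension `m`; an
automorphism of `M` extends uniquely, so the automorphism group embeds in `GL_m (K)`.
-/

set_option autoImplicit false

namespace Pool.Agent.GLN

open Pool.Agent.FJ

variable {P : ∀ (G : Type) [Group G], Prop}

open TensorProduct in
theorem mem_aut_torsionFree (hP : IsFJClass P) {R M : Type} [CommRing R] [IsDomain R]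
    (hK : ∀ m : ℕ, P (GL (Fin m) (FractionRing R))) [AddCommGroup M] [Module R M]
    [Module.Finite R M] (hM : ∀ (r : R) (x : M), r • x = 0 → r = 0 ∨ x = 0) :
    P (M ≃ₗ[R] M) := by
  have hloc : IsLocalizedModule (nonZeroDivisors R)
      (TensorProduct.mk R (FractionRing R) M 1) :=
    (isLocalizedModule_iff_isBaseChange (nonZeroDivisors R) (FractionRing R) _).2
      (TensorProduct.isBaseChange R M (FractionRing R))
  have hinj : Function.Injective (TensorProduct.mk R (FractionRing R) M 1) := by
    intro x y hxy
    obtain ⟨c, hc⟩ := (IsLocalizedModule.eq_iff_exists (nonZeroDivisors R)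
      (TensorProduct.mk R (FractionRing R) M 1)).1 hxy
    have h1 : (c : R) • (x - y) = 0 := by
      rw [smul_sub, sub_eq_zero]
      exact hc
    rcases hM _ _ h1 with h | h
    · exact absurd h (nonZeroDivisors.coe_ne_zero c)
    · exact sub_eq_zero.1 h
  let b := Module.finBasis (FractionRing R) (FractionRing R ⊗[R] M)
  let φ : Module.End R M →* Module.End (FractionRing R) (FractionRing R ⊗[R] M) :=
    (Module.End.baseChangeHom R (FractionRing R) M).toMonoidHom
  have hφ : Function.Injective φ := by
    intro f g hfg
    ext x
    apply hinj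
    have h2 := congrArg (fun h : Module.End (FractionRing R) (FractionRing R ⊗[R] M) =>
      h (1 ⊗ₜ[R] x)) hfg
    have h3 : ∀ e : Module.End R M, φ e (1 ⊗ₜ[R] x) = (1 : FractionRing R) ⊗ₜ[R] e x :=
      fun e => LinearMap.baseChange_tmul _ _ _
    have h4 : φ f (1 ⊗ₜ[R] x) = φ g (1 ⊗ₜ[R] x) := h2
    rw [h3, h3] at h4
    exact h4
  let ψ : Module.End (FractionRing R) (FractionRing R ⊗[R] M) →*
      Matrix (Fin (Module.finrank (FractionRing R) (FractionRing R ⊗[R] M)))
        (Fin (Module.finrank (FractionRing R) (FractionRing R ⊗[R] M))) (FractionRing R) :=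
    (LinearMap.toMatrixAlgEquiv b : _ →* _)
  have hψ : Function.Injective ψ := (LinearMap.toMatrixAlgEquiv b).injective
  refine hP.of_injective (((Units.map ψ).comp (Units.map φ)).comp
    (LinearMap.GeneralLinearGroup.generalLinearEquiv R M).symm.toMonoidHom) ?_ (hK _)
  exact ((Units.map_injective hψ).comp (Units.map_injective hφ)).comp
    (LinearMap.GeneralLinearGroup.generalLinearEquiv R M).symm.injective

end Pool.Agent.GLN
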