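import Pool.Agent.Lib.MP_98022b_gln.AutExt
import Pool.Agent.Lib.MP_98022b_gln.AutTF

/-!
# Automorphisms of finitely generated modules over Noetherian rings

Row GB20. Noetherian induction: assume the statement for all finitely generated modules whose
annihilator is strictly larger than the annihilator `I` of `M`, `M ≠ 0`. If `I` is not prime let
`a * b ∈ I`, `a, b ∉ I`; use `mem_aut_ext` for `N = a M`, whose annihilator contains `b`; that of
`M ⧸ N` contains `a`. If `I` is prime, `M` is a module over the domain `R ⧸ I`; let `N` be the
torsion submodule `{x | ∃ r ∉ I, r • x = 0}`. It is finitely generated, so its annihilator contains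
some `r ∉ I`, and `M ⧸ N` is torsion free over `R ⧸ I` (`mem_aut_torsionFree`; the automorphisms over
`R` and over `R ⧸ I` are the same).
-/

set_option autoImplicit false

namespace Pool.Agent.GLN

open Pool.Agent.FJ

variable {P : ∀ (G : Type) [Group G], Prop}

/-- The torsion submodule. -/
private def GB20_tors (R M : Type) [CommRing R] [AddCommGroup M] [Module R M] (I : Ideal R)
    (hI : I.IsPrime) : Submodule R M where
  carrier := {x | ∃ r : R, r ∉ I ∧ r • x = 0}
  add_mem' := by
    rintro x y ⟨r, hr, hx⟩ ⟨s, hs, hy⟩
    refine ⟨r * s, fun h => ?_, ?_⟩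
    · rcases hI.mem_or_mem h with h1 | h1
      · exact hr h1
      · exact hs h1
    · rw [smul_add, mul_comm r s, mul_smul, hx, smul_zero, mul_comm s r, mul_smul, hy, smul_zero,
        add_zero]
  zero_mem' := ⟨1, fun h => hI.ne_top ((Ideal.eq_top_iff_one I).2 h), smul_zero _⟩
  smul_mem' := by
    rintro c x ⟨r, hr, hx⟩
    exact ⟨r, hr, by rw [smul_comm, hx, smul_zero]⟩

/-- A finitely generated torsion module is killed by one element outside `I`. -/
private theorem GB20_kill {R M : Type} [CommRing R] [AddCommGroup M] [Module R M]
    (I : Ideal R) (hI : I.IsPrime) (N : Submodule R M) (hN : N.FG)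
    (h : ∀ x ∈ N, ∃ r : R, r ∉ I ∧ r • x = 0) : ∃ r : R, r ∉ I ∧ ∀ x ∈ N, r • x = 0 := by
  classical
  obtain ⟨s, rfl⟩ := hN
  have h1 : ∀ x : s, ∃ r : R, r ∉ I ∧ r • (x : M) = 0 := fun x => h x (Submodule.subset_span x.2)
  choose r hr hrx using h1
  refine ⟨∏ x : s, r x, ?_, ?_⟩
  · intro hp
    obtain ⟨x, _, hx⟩ := (Ideal.IsPrime.prod_mem_iff (hp := hI)).1 hp
    exact hr x hx
  · intro x hx
    induction hx using Submodule.span_induction with
    | mem y hy =>
      have hdvd : r ⟨y, hy⟩ ∣ ∏ x : s, r x := Finset.dvd_prod_of_mem r (Finset.mem_univ _)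
      obtain ⟨c, hc⟩ := hdvd
      rw [hc, mul_comm, mul_smul, hrx ⟨y, hy⟩, smul_zero]
    | zero => exact smul_zero _
    | add y z _ _ hy hz => rw [smul_add, hy, hz, add_zero]
    | smul a y _ hy => rw [smul_comm, hy, smul_zero]

/-- The case of torsion free modules over `R ⧸ I`. -/
private theorem GB20_quot (hP : IsFJClass P)
    (hGL : ∀ (K : Type) [Field K] (m : ℕ), P (GL (Fin m) K)) {R M : Type} [CommRing R]
    [AddCommGroup M] [Module R M] [Module.Finite R M] (I : Ideal R) (hI : I.IsPrime)
    (h0 : ∀ r ∈ I, ∀ x : M, r • x = 0)
    (hM : ∀ (r : R) (x : M), r • x = 0 → r ∈ I ∨ x = 0) : P (M ≃ₗ[R] M) := by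
  have ht : Module.IsTorsionBySet R M I := by
    intro x r
    exact h0 r.1 r.2 x
  let _ : Module (R ⧸ I) M := ht.module
  have hst : IsScalarTower R (R ⧸ I) M := ht.isScalarTower
  have hfin : Module.Finite (R ⧸ I) M := Module.Finite.of_restrictScalars_finite R (R ⧸ I) M
  have hdom : IsDomain (R ⧸ I) := Ideal.Quotient.isDomain I
  have hmk : ∀ (r : R) (x : M), (Ideal.Quotient.mk I r) • x = r • x := by
    intro r x
    exact ht.mk_smul r x
  let φ : (M ≃ₗ[R] M) →* (M ≃ₗ[R ⧸ I] M) :=
    { toFun := fun g =>
        { toFun := g
          invFun := g.symm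
          map_add' := map_add g
          map_smul' := fun r x => by
            obtain ⟨r, rfl⟩ := Ideal.Quotient.mk_surjective r
            rw [RingHom.id_apply, hmk, hmk]
            exact map_smul g r x
          left_inv := g.symm_apply_apply
          right_inv := g.apply_symm_apply }
      map_one' := rfl
      map_mul' := fun _ _ => rfl }
  have hK : ∀ m : ℕ, P (GL (Fin m) (FractionRing (R ⧸ I))) :=
    fun m => hGL (FractionRing (R ⧸ I)) m
  refine hP.of_injective φ ?_ (mem_aut_torsionFree hP hK ?_)
  · intro g h hgh
    apply LinearEquiv.ext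
    intro x
    exact congrArg (fun e : M ≃ₗ[R ⧸ I] M => e x) hgh
  · intro r x hrx
    obtain ⟨r, rfl⟩ := Ideal.Quotient.mk_surjective r
    rw [hmk] at hrx
    rcases hM r x hrx with h1 | h1
    · exact Or.inl (Ideal.Quotient.eq_zero_iff_mem.2 h1)
    · exact Or.inr h1

private theorem GB20_main (hP : IsFJClass P)
    (hsol : ∀ (G : Type) [Group G], Group.IsSolvable G → P G)
    (hGL : ∀ (K : Type) [Field K] (m : ℕ), P (GL (Fin m) K)) (R : Type) [CommRing R]
    [IsNoetherianRing R] (I : Ideal R) : ∀ (M : Type) [AddCommGroup M] [Module R M]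
    [Module.Finite R M], Module.annihilator R M = I → P (M ≃ₗ[R] M) := by
  induction I using WellFoundedGT.induction with
  | ind I ih =>
    intro M _ _ _ hM
    have hnoeth : IsNoetherian R M := inferInstance
    by_cases hI : I.IsPrime
    · let N := GB20_tors R M I hI
      have hN : ∀ g : M ≃ₗ[R] M, ∀ x ∈ N, g x ∈ N := by
        rintro g x ⟨r, hr, hx⟩
        exact ⟨r, hr, by rw [← map_smul, hx, map_zero]⟩
      obtain ⟨r, hr, hrN⟩ := GB20_kill I hI N (IsNoetherian.noetherian N) fun x hx => hx
      have hfN : Module.Finite R N := Module.IsNoetherian.finite R N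
      refine mem_aut_ext hP hsol N hN ?_ ?_
      · refine ih (Module.annihilator R N) ?_ N rfl
        refine lt_of_le_of_ne ?_ ?_
        · intro s hs
          rw [← hM, Module.mem_annihilator] at hs
          rw [Module.mem_annihilator]
          intro x
          exact Subtype.ext (hs x.1)
        · intro h
          apply hr
          rw [h, Module.mem_annihilator]
          intro x
          exact Subtype.ext (hrN x.1 x.2)
      · refine GB20_quot hP hGL I hI ?_ ?_
        · intro s hs x
          obtain ⟨x, rfl⟩ := Submodule.Quotient.mk_surjective N x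
          rw [← hM, Module.mem_annihilator] at hs
          rw [← Submodule.Quotient.mk_smul, hs x, Submodule.Quotient.mk_zero]
        · intro s x hsx
          obtain ⟨x, rfl⟩ := Submodule.Quotient.mk_surjective N x
          rw [← Submodule.Quotient.mk_smul, Submodule.Quotient.mk_eq_zero] at hsx
          obtain ⟨t, ht, htx⟩ := hsx
          by_cases hs : s ∈ I
          · exact Or.inl hs
          · right
            rw [Submodule.Quotient.mk_eq_zero]
            refine ⟨t * s, fun h => ?_, ?_⟩
            · rcases hI.mem_or_mem h with h1 | h1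
              · exact ht h1
              · exact hs h1
            · rw [mul_smul]
              exact htx
    · by_cases htop : I = ⊤
      · have hsub : Subsingleton M := by
          rw [← Module.annihilator_eq_top_iff (R := R), hM, htop]
        have : Subsingleton (M ≃ₗ[R] M) := ⟨fun g h => LinearEquiv.ext fun x => Subsingleton.elim _ _⟩
        exact hP.of_subsingleton
      · rw [Ideal.isPrime_iff] at hI
        push Not at hI
        obtain ⟨a, b, hab, ha, hb⟩ := hI htop
        let N : Submodule R M := LinearMap.range (LinearMap.lsmul R M a)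
        have hN : ∀ g : M ≃ₗ[R] M, ∀ x ∈ N, g x ∈ N := by
          rintro g x ⟨y, rfl⟩
          exact ⟨g y, by rw [LinearMap.lsmul_apply, LinearMap.lsmul_apply, map_smul]⟩
        have hfN : Module.Finite R N := Module.IsNoetherian.finite R N
        refine mem_aut_ext hP hsol N hN ?_ ?_
        · refine ih (Module.annihilator R N) ?_ N rfl
          refine lt_of_le_of_ne ?_ ?_
          · intro s hs
            rw [← hM, Module.mem_annihilator] at hs
            rw [Module.mem_annihilator]
            intro x
            exact Subtype.ext (hs x.1)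
          · intro h
            apply hb
            rw [h, Module.mem_annihilator]
            rintro ⟨x, y, rfl⟩
            apply Subtype.ext
            change b • (a • y) = 0
            rw [← hM, Module.mem_annihilator] at hab
            rw [smul_smul, mul_comm b a]
            exact hab y
        · refine ih (Module.annihilator R (M ⧸ N)) ?_ (M ⧸ N) rfl
          refine lt_of_le_of_ne ?_ ?_
          · intro s hs
            rw [← hM, Module.mem_annihilator] at hs
            rw [Module.mem_annihilator]
            intro x
            obtain ⟨x, rfl⟩ := Submodule.Quotient.mk_surjective N x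
            rw [← Submodule.Quotient.mk_smul, hs x, Submodule.Quotient.mk_zero]
          · intro h
            apply ha
            rw [h, Module.mem_annihilator]
            intro x
            obtain ⟨x, rfl⟩ := Submodule.Quotient.mk_surjective N x
            rw [← Submodule.Quotient.mk_smul, Submodule.Quotient.mk_eq_zero]
            exact ⟨x, rfl⟩

theorem mem_aut_noeth (hP : IsFJClass P)
    (hsol : ∀ (G : Type) [Group G], Group.IsSolvable G → P G)
    (hGL : ∀ (K : Type) [Field K] (m : ℕ), P (GL (Fin m) K)) (R M : Type) [CommRing R]
    [IsNoetherianRing R] [AddCommGroup M] [Module R M] [Module.Finite R M] :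
    P (M ≃ₗ[R] M) :=
  GB20_main hP hsol hGL R (Module.annihilator R M) M rfl

end Pool.Agent.GLN
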