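import Pool.Agent.Lib.MP_98022b_gl.FinField

/-!
# Subgroups of finite index which avoid the scalar matrices

Row GB11. `map_injective`, `mem_range_map`: as in `MP_98022b_gl/StepF.lean` for `Fin 2`.
`exists_avoid_scalar`: as `exists_avoid` of `MP_98022b_gl/AvoidNeg.lean`, with the subring `A`
generated by the entries of the members of `s` and their inverses and the roots of unity of order
`n`, and `exists_finite_field` for the product of all `c - 1`, `c ^ n = 1`, `c ≠ 1`.
-/

set_option autoImplicit false

namespace Pool.Agent.GLN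

theorem map_injective {n : ℕ} {B F : Type} [CommRing B] [CommRing F] (f : B →+* F)
    (hf : Function.Injective f) :
    Function.Injective (Matrix.GeneralLinearGroup.map (n := Fin n) f) := by
  intro M N h
  apply Units.ext
  ext i j
  have h1 : (Matrix.GeneralLinearGroup.map (n := Fin n) f M).1 i j =
      (Matrix.GeneralLinearGroup.map (n := Fin n) f N).1 i j := by rw [h]
  exact hf h1

/-- A matrix over `F` which has, like its inverse, entries in the image of `f` comes from an
invertible matrix over `B`. -/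
theorem mem_range_map {n : ℕ} {B F : Type} [CommRing B] [CommRing F] (f : B →+* F)
    (hf : Function.Injective f) (M : GL (Fin n) F) (h : ∀ i j, ∃ b, f b = M.1 i j)
    (h' : ∀ i j, ∃ b, f b = (M⁻¹).1 i j) :
    M ∈ (Matrix.GeneralLinearGroup.map (n := Fin n) f).range := by
  choose U hU using h
  choose W hW using h'
  let U' : Matrix (Fin n) (Fin n) B := Matrix.of U
  let W' : Matrix (Fin n) (Fin n) B := Matrix.of W
  have hU' : U'.map f = M.1 := by
    ext i j
    exact hU i j
  have hW' : W'.map f = (M⁻¹).1 := by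
    ext i j
    exact hW i j
  have hinj : Function.Injective (fun A : Matrix (Fin n) (Fin n) B => A.map f) := by
    intro A A' hA
    ext i j
    exact hf (congrFun (congrFun hA i) j)
  have h1 : U' * W' = 1 := by
    apply hinj
    show (U' * W').map f = (1 : Matrix (Fin n) (Fin n) B).map f
    rw [Matrix.map_mul, hU', hW', Matrix.map_one f (map_zero f) (map_one f)]
    exact M.mul_inv
  have h2 : W' * U' = 1 := by
    apply hinj
    show (W' * U').map f = (1 : Matrix (Fin n) (Fin n) B).map f
    rw [Matrix.map_mul, hU', hW', Matrix.map_one f (map_zero f) (map_one f)]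
    exact M.inv_mul
  refine ⟨⟨U', W', h1, h2⟩, ?_⟩
  apply Units.ext
  exact hU'

theorem exists_avoid_scalar {F : Type} [Field F] {n : ℕ} (hn : 0 < n)
    (s : Finset (GL (Fin n) F)) :
    ∃ N : Subgroup (Subgroup.closure (s : Set (GL (Fin n) F))), N.FiniteIndex ∧
      ∀ x ∈ N, ∀ c : F, c ^ n = 1 → (x : GL (Fin n) F).1 = c • 1 → c = 1 := by
  classical
  let R : Finset F := (Polynomial.nthRoots n (1 : F)).toFinset
  have hR : ∀ c : F, c ∈ R ↔ c ^ n = 1 := by
    intro c
    show c ∈ (Polynomial.nthRoots n (1 : F)).toFinset ↔ _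
    rw [Multiset.mem_toFinset, Polynomial.mem_nthRoots hn]
  let S0 : Finset F := ((s ×ˢ (Finset.univ : Finset (Fin n × Fin n))).image
      (fun q => q.1.1 q.2.1 q.2.2) ∪
    (s ×ˢ (Finset.univ : Finset (Fin n × Fin n))).image (fun q => (q.1⁻¹).1 q.2.1 q.2.2)) ∪ R
  let A : Subring F := Subring.closure (S0 : Set F)
  have hA : ∀ x ∈ S0, x ∈ A := fun x hx => Subring.subset_closure hx
  -- finite generation of `A`
  let s' : Finset A := S0.preimage (fun x : A => (x : F)) (Subtype.val_injective.injOn)
  have hs' : Subring.closure (s' : Set A) = ⊤ := by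
    have h : (A.subtype '' (s' : Set A) : Set F) = S0 := by
      rw [Finset.coe_preimage]
      ext x
      constructor
      · rintro ⟨y, hy, rfl⟩
        exact hy
      · intro hx
        exact ⟨⟨x, hA x hx⟩, hx, rfl⟩
    have h3 : (Subring.closure (s' : Set A)).map A.subtype = A := by
      rw [RingHom.map_closure, h]
    rw [eq_top_iff]
    intro x _
    have h4 : (x : F) ∈ (Subring.closure (s' : Set A)).map A.subtype := by
      rw [h3]
      exact x.2
    obtain ⟨y, hy, hyx⟩ := h4
    have h5 : y = x := Subtype.val_injective hyx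
    rw [← h5]
    exact hy
  -- the product of all `c - 1`
  have hRA : ∀ c ∈ R, c ∈ A := fun c hc => hA c (Finset.mem_union_right _ hc)
  let g : F → A := fun c => if h : c ∈ A then ⟨c, h⟩ - 1 else 1
  let a : A := ∏ c ∈ R.erase 1, g c
  have ha : a ≠ 0 := by
    refine Finset.prod_ne_zero_iff.2 fun c hc h0 => ?_
    have h1 : c ∈ A := hRA c (Finset.mem_of_mem_erase hc)
    have h2 : g c = (⟨c, h1⟩ : A) - 1 := dif_pos h1
    rw [h2, sub_eq_zero] at h0
    exact Finset.ne_of_mem_erase hc (congrArg Subtype.val h0)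
  obtain ⟨k, _, _, f, hf⟩ := Pool.Agent.GT.exists_finite_field s' hs' ha
  have hfin : Finite (GL (Fin n) k) := inferInstance
  let ι : GL (Fin n) A →* GL (Fin n) F := Matrix.GeneralLinearGroup.map (n := Fin n) A.subtype
  have hι : Function.Injective ι := map_injective _ Subtype.val_injective
  have hle : Subgroup.closure (s : Set (GL (Fin n) F)) ≤ ι.range := by
    rw [Subgroup.closure_le]
    intro M hM
    refine mem_range_map A.subtype Subtype.val_injective M (fun i j => ?_) (fun i j => ?_)
    · refine ⟨⟨M.1 i j, hA _ ?_⟩, rfl⟩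
      exact Finset.mem_union_left _ (Finset.mem_union_left _ (Finset.mem_image.2 ⟨(M, i, j),
        Finset.mem_product.2 ⟨hM, Finset.mem_univ _⟩, rfl⟩))
    · refine ⟨⟨(M⁻¹).1 i j, hA _ ?_⟩, rfl⟩
      exact Finset.mem_union_left _ (Finset.mem_union_right _ (Finset.mem_image.2 ⟨(M, i, j),
        Finset.mem_product.2 ⟨hM, Finset.mem_univ _⟩, rfl⟩))
  let φ : Subgroup.closure (s : Set (GL (Fin n) F)) →* GL (Fin n) A :=
    ((MonoidHom.ofInjective hι).symm : ι.range →* GL (Fin n) A).comp (Subgroup.inclusion hle)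
  have hφ : ∀ x, ι (φ x) = x := by
    intro x
    have h := MonoidHom.apply_ofInjective_symm hι (Subgroup.inclusion hle x)
    exact h
  let ψ : Subgroup.closure (s : Set (GL (Fin n) F)) →* GL (Fin n) k :=
    (Matrix.GeneralLinearGroup.map (n := Fin n) f).comp φ
  refine ⟨ψ.ker, Subgroup.finiteIndex_ker ψ, fun x hx c hc hcon => ?_⟩
  by_contra hc1
  apply hf
  let i0 : Fin n := ⟨0, hn⟩
  have hcR : c ∈ R := (hR c).2 hc
  have hcA : c ∈ A := hRA c hcR
  have h1 : (φ x).1 i0 i0 = ⟨c, hcA⟩ := by
    apply Subtype.val_injective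
    have h3 : (ι (φ x)).1 i0 i0 = c := by
      rw [hφ x, hcon]
      simp
    exact h3
  have h5 : (Matrix.GeneralLinearGroup.map (n := Fin n) f (φ x)).1 i0 i0 = 1 := by
    have h6 : Matrix.GeneralLinearGroup.map (n := Fin n) f (φ x) = 1 := hx
    rw [h6]
    simp
  have h7 : (Matrix.GeneralLinearGroup.map (n := Fin n) f (φ x)).1 i0 i0 = f ((φ x).1 i0 i0) := rfl
  rw [h7, h1] at h5
  have h8 : g c = (⟨c, hcA⟩ : A) - 1 := dif_pos hcA
  show f (∏ c ∈ R.erase 1, g c) = 0
  rw [map_prod]
  refine Finset.prod_eq_zero (Finset.mem_erase.2 ⟨hc1, hcR⟩) ?_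
  rw [h8, map_sub, h5, map_one, sub_self]

end Pool.Agent.GLN
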