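import Pool.Agent.Lib.MP_98022b_gln.TrackBasic

/-!
# Row E3: times outside of the clusters of bad times

`exists_not_hull`: if `j ∈ [e₁, e₁']` and `j + 3 / 2 * δ ∈ [e₂, e₂']` for clusters (pairs of bad times
with `e' - e ≤ δ`) then `e₂' - e₁ ≤ 7 / 2 * δ < 4 * δ`, so it is at most `δ`, but it is at least
`3 / 2 * δ`.
`free`: let `α` be the supremum of the bad times in `[s - 3 * δ, s]` (or `s - 3 * δ`) and `ω` the infimum
of those in `[s, s + 3 * δ]` (or `s + 3 * δ`). As `s` is not in the hull of a cluster, a bad time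
`≤ s` and one `≥ s` are at least `4 * δ` apart, so `ω - α ≥ 3 * δ`. Take
`s₁ = min s (α + δ / 4)`, `s₂ = max s (ω - δ / 4)`.
-/

set_option autoImplicit false

open Set Filter Topology

namespace Pool.Agent.TR

variable {V : Type}

/-- `s` is in the hull of a cluster of bad times. -/
def InHull (δ : ℝ) (E : Set ℝ) (s : ℝ) : Prop := ∃ e ∈ E, ∃ e' ∈ E, e' - e ≤ δ ∧ s ∈ Icc e e'

theorem not_mem_of_not_hull {δ : ℝ} {E : Set ℝ} {s : ℝ} (hδ : 0 ≤ δ) (h : ¬ InHull δ E s) :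
    s ∉ E :=
  fun hs => h ⟨s, hs, s, hs, by rwa [sub_self], le_rfl, le_rfl⟩

theorem exists_not_hull {H δ : ℝ} {u : ℝ → V} {E : Set ℝ} (hδ : 0 < δ) (hδ1 : δ ≤ 1 / 100)
    (hE : IsEvents H δ u E) {j : ℝ} (hj : j ∈ Icc 1 (5 * H - 1)) :
    ¬ InHull δ E j ∨ ¬ InHull δ E (j + 3 / 2 * δ) := by
  by_contra hcon
  push Not at hcon
  obtain ⟨⟨e₁, h1, e₁', h1', h2, h3, h4⟩, ⟨e₂, k1, e₂', k1', k2, k3, k4⟩⟩ := hcon
  have hj1 := hj.1
  have hj2 := hj.2
  rcases hE.gap e₁ h1 e₂' k1' ⟨by linarith, by linarith⟩ ⟨by linarith, by linarith⟩ with h | h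
  · rw [abs_sub_comm] at h
    have := (abs_le.1 h).2
    linarith
  · rw [abs_sub_comm, abs_of_nonneg (by linarith)] at h
    linarith

theorem free {H δ : ℝ} {u : ℝ → V} {E : Set ℝ} (hδ : 0 < δ) (hδ1 : δ ≤ 1 / 100)
    (hE : IsEvents H δ u E) {s : ℝ} (hs : s ∈ Icc 1 (5 * H - 1)) (hb : ¬ InHull δ E s) :
    ∃ s₁ s₂, s - 3 * δ ≤ s₁ ∧ s₁ ≤ s ∧ s ≤ s₂ ∧ s₂ ≤ s + 3 * δ ∧ s₁ + 5 / 2 * δ ≤ s₂ ∧
      ∀ e ∈ E, e ∉ Icc s₁ s₂ := by
  have hs1 := hs.1
  have hs2 := hs.2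
  have hsE := not_mem_of_not_hull hδ.le hb
  set A : Set ℝ := insert (s - 3 * δ) (E ∩ Icc (s - 3 * δ) s) with hA
  set B : Set ℝ := insert (s + 3 * δ) (E ∩ Icc s (s + 3 * δ)) with hB
  have hAne : A.Nonempty := ⟨_, mem_insert _ _⟩
  have hBne : B.Nonempty := ⟨_, mem_insert _ _⟩
  have hAs : ∀ a ∈ A, s - 3 * δ ≤ a ∧ a ≤ s := by
    rintro a (rfl | ⟨-, h⟩)
    · exact ⟨le_rfl, by linarith⟩
    · exact h
  have hBs : ∀ b ∈ B, s ≤ b ∧ b ≤ s + 3 * δ := by
    rintro b (rfl | ⟨-, h⟩)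
    · exact ⟨by linarith, le_rfl⟩
    · exact h
  have hAb : BddAbove A := ⟨s, fun a ha => (hAs a ha).2⟩
  have hBb : BddBelow B := ⟨s, fun b hb => (hBs b hb).1⟩
  have hAB : ∀ a ∈ A, ∀ b ∈ B, a + 3 * δ ≤ b := by
    intro a ha b hb'
    rcases ha with rfl | ⟨ha, ha'⟩
    · have := (hBs b hb').1
      linarith
    · rcases hb' with rfl | ⟨hb', hb''⟩
      · have := ha'.2
        linarith
      · have h1 : ¬ (b - a ≤ δ) := fun h => hb ⟨a, ha, b, hb', h, ha'.2, hb''.1⟩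
        have h2 := ha'.1
        have h3 := ha'.2
        have h4 := hb''.1
        have h5 := hb''.2
        rcases hE.gap a ha b hb' ⟨by linarith, by linarith⟩ ⟨by linarith, by linarith⟩ with h | h
        · rw [abs_sub_comm] at h
          exact absurd (abs_le.1 h).2 h1
        · rw [abs_sub_comm, abs_of_nonneg (by linarith)] at h
          linarith
  set α := sSup A
  set ω := sInf B
  have hαω : α + 3 * δ ≤ ω := by
    refine le_csInf hBne fun b hb' => ?_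
    have : α ≤ b - 3 * δ := csSup_le hAne fun a ha => by linarith [hAB a ha b hb']
    linarith
  have hα1 : s - 3 * δ ≤ α := le_csSup hAb (mem_insert _ _)
  have hα2 : α ≤ s := csSup_le hAne fun a ha => (hAs a ha).2
  have hω1 : s ≤ ω := le_csInf hBne fun b hb' => (hBs b hb').1
  have hω2 : ω ≤ s + 3 * δ := csInf_le hBb (mem_insert _ _)
  refine ⟨min s (α + δ / 4), max s (ω - δ / 4), ?_, min_le_left _ _, le_max_left _ _, ?_, ?_, ?_⟩
  · refine le_min (by linarith) (by linarith)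
  · refine max_le (by linarith) (by linarith)
  · have h1 := min_le_right s (α + δ / 4)
    have h2 := le_max_right s (ω - δ / 4)
    linarith
  · rintro e he ⟨h1, h2⟩
    have hne : e ≠ s := fun h => hsE (h ▸ he)
    rcases lt_or_gt_of_ne hne with h | h
    · rcases min_le_iff.1 h1 with h3 | h3
      · linarith
      · have h4 : e ≤ α := le_csSup hAb (mem_insert_of_mem _ ⟨he, by linarith, h.le⟩)
        linarith
    · rcases le_max_iff.1 h2 with h3 | h3
      · linarith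
      · have h4 : ω ≤ e := csInf_le hBb (mem_insert_of_mem _ ⟨he, h.le, by linarith⟩)
        linarith

/-- The state at a time outside of the clusters persists. -/
theorem pers_of_not_hull {dl : V → V → ℤ} {M : ℕ} {H δ : ℝ} {u : ℝ → V} {κ : ℝ → ℤ} {E : Set ℝ}
    (hδ : 0 < δ) (hδ1 : δ ≤ 1 / 100) (hu : IsTrack dl M (5 * H) u κ)
    (hE : IsEvents H δ u E) {s : ℝ} (hs : s ∈ Icc (H + 1) (3 * H - 1)) (hb : ¬ InHull δ E s) :
    Pers dl u H δ (κ s - κ (2 * H)) (u s) := by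
  have hs1 := hs.1
  have hs2 := hs.2
  obtain ⟨s₁, s₂, h1, h2, h3, h4, h5, h6⟩ := free hδ hδ1 hE ⟨by linarith, by linarith⟩ hb
  have hs0 : s ∈ Icc 0 (5 * H) := ⟨by linarith, by linarith⟩
  refine ⟨s₁, s₂, by linarith, by linarith, by linarith, fun t ht => ?_⟩
  have ht0 : t ∈ Icc 0 (5 * H) := ⟨by linarith [ht.1], by linarith [ht.2]⟩
  have h7 : u t = u s := by
    rcases le_total t s with h | h
    · exact hE.const t ht0 s hs0 h fun e he hh => h6 e he ⟨ht.1.trans hh.1, hh.2.trans h3⟩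
    · exact (hE.const s hs0 t ht0 h fun e he hh => h6 e he ⟨h2.trans hh.1, hh.2.trans ht.2⟩).symm
  refine ⟨h7, ?_⟩
  rw [clk_eq (by linarith) hu ht0, kap_eq_of_eq hu ht0 hs0 h7]

end Pool.Agent.TR
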