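import Pool.Agent.Lib.MP_98022b_fa.Hull

/-!
# Algebraic extensions of the prime field

As in `MP_98022b_gl/Base.lean`, for `GL_n`.
-/

set_option autoImplicit false

namespace Pool.Agent.GLN

open Pool.Agent.FJ

variable {P : ∀ (G : Type) [Group G], Prop}

private theorem mem_alg_aux (hP : IsFJClass P) {n : ℕ} {k F : Type} [Field k] [Field F] [Algebra k F]
    (halg : ∀ a : F, IsAlgebraic k a)
    (h : ∀ K : IntermediateField k F, FiniteDimensional k K → P (GL (Fin n) K)) :
    P (GL (Fin n) F) := by
  classical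
  refine hP.locally fun S => ?_
  set s : Set F := {a | ∃ M ∈ S, ∃ i j, a = M.1 i j ∨ a = (M⁻¹).1 i j} with hs
  have hfin : s.Finite := by
    have h1 : s ⊆ ⋃ M ∈ (S : Set (GL (Fin n) F)), (Set.range (fun q : Fin n × Fin n => M.1 q.1 q.2) ∪
        Set.range (fun q : Fin n × Fin n => (M⁻¹).1 q.1 q.2)) := by
      rintro a ⟨M, hM, i, j, h | h⟩
      · refine Set.mem_biUnion (x := M) (by exact_mod_cast hM) (Or.inl ⟨(i, j), h.symm⟩)
      · refine Set.mem_biUnion (x := M) (by exact_mod_cast hM) (Or.inr ⟨(i, j), h.symm⟩)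
    refine Set.Finite.subset (Set.Finite.biUnion S.finite_toSet fun M _ => ?_) h1
    exact (Set.finite_range _).union (Set.finite_range _)
  have hfd : FiniteDimensional k (IntermediateField.adjoin k s) := by
    have := hfin.to_subtype
    exact IntermediateField.finiteDimensional_adjoin fun x _ => (halg x).isIntegral
  set K := IntermediateField.adjoin k s with hK
  refine ⟨(Matrix.GeneralLinearGroup.map (n := Fin n) (algebraMap K F)).range, ?_, ?_⟩
  · intro M hM
    have hm : ∀ i j, M.1 i j ∈ K := fun i j =>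
      IntermediateField.subset_adjoin k s ⟨M, hM, i, j, Or.inl rfl⟩
    have hm' : ∀ i j, (M⁻¹).1 i j ∈ K := fun i j =>
      IntermediateField.subset_adjoin k s ⟨M, hM, i, j, Or.inr rfl⟩
    have hinj : Function.Injective (fun A : Matrix (Fin n) (Fin n) K => A.map (algebraMap K F)) :=
      Matrix.map_injective (algebraMap K F).injective
    have e1 : (Matrix.of fun i j => (⟨M.1 i j, hm i j⟩ : K)).map (algebraMap K F) = M.1 := by
      ext i j; rfl
    have e2 : (Matrix.of fun i j => (⟨(M⁻¹).1 i j, hm' i j⟩ : K)).map (algebraMap K F)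
        = (M⁻¹).1 := by
      ext i j; rfl
    refine ⟨⟨Matrix.of fun i j => (⟨M.1 i j, hm i j⟩ : K),
      Matrix.of fun i j => (⟨(M⁻¹).1 i j, hm' i j⟩ : K), ?_, ?_⟩, ?_⟩
    · apply hinj
      show Matrix.map _ _ = Matrix.map _ _
      rw [Matrix.map_mul, e1, e2, Matrix.map_one _ (map_zero _) (map_one _), ← Units.val_mul]
      simp
    · apply hinj
      show Matrix.map _ _ = Matrix.map _ _
      rw [Matrix.map_mul, e1, e2, Matrix.map_one _ (map_zero _) (map_one _), ← Units.val_mul]
      simp
    · apply Units.ext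
      exact e1
  · refine hP.of_equiv (MonoidHom.ofInjective (f := Matrix.GeneralLinearGroup.map (n := Fin n)
      (algebraMap K F)) ?_).symm (h K hfd)
    intro A B hAB
    apply Units.ext
    exact Matrix.map_injective (algebraMap K F).injective (congrArg Units.val hAB)

theorem mem_char0 (hP : IsFJClass P) (hQ : ∀ n : ℕ, P (GL (Fin n) ℚ)) {n : ℕ} {F : Type} [Field F]
    [CharZero F] (hF : ∀ a : F, IsAlgebraic ℚ a) : P (GL (Fin n) F) := by
  refine mem_alg_aux hP hF fun K hK => ?_
  let φ : Module.End K (Fin n → K) →* Module.End ℚ (Fin n → K) :=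
    { toFun := fun f => f.restrictScalars ℚ
      map_one' := rfl
      map_mul' := fun _ _ => rfl }
  have hφ : Function.Injective φ := fun f g hfg => LinearMap.restrictScalars_injective ℚ hfg
  let b := Module.finBasis ℚ (Fin n → K)
  let e := (Matrix.GeneralLinearGroup.toLin (n := Fin n) (R := K))
  let ψ := (LinearMap.toMatrixAlgEquiv b)
  let f : GL (Fin n) K →* GL (Fin (Module.finrank ℚ (Fin n → K))) ℚ :=
    (Units.map (ψ.toAlgHom.toRingHom.toMonoidHom)).comp ((Units.map φ).comp e.toMonoidHom)
  refine hP.of_injective f ?_ (hQ _)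
  have h1 : Function.Injective (Units.map (ψ.toAlgHom.toRingHom.toMonoidHom)) :=
    Units.map_injective ψ.injective
  have h2 : Function.Injective (Units.map φ) := Units.map_injective hφ
  exact h1.comp (h2.comp e.injective)

theorem mem_charP (hP : IsFJClass P) {n : ℕ} {F : Type} [Field F] (p : ℕ) [Fact p.Prime] [CharP F p]
    [Algebra (ZMod p) F] (hF : ∀ a : F, IsAlgebraic (ZMod p) a) : P (GL (Fin n) F) := by
  refine mem_alg_aux hP hF fun K hK => ?_
  have : Finite K := Module.finite_of_finite (ZMod p)
  exact hP.of_finite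

end Pool.Agent.GLN
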