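import Mathlib

/-!
# Algebras with a faithful simple module

Row GB6. `B` acts on `W`; `W` is a simple `B`-module, so by Schur's lemma its endomorphism ring is a
division algebra of finite dimension over `F`, hence `F` (`IsAlgClosed`), and by the Jacobson density
theorem (`Module.Finite.toModuleEnd_moduleEnd_surjective`) the map from `B` to the endomorphisms of
the vector space `W` is surjective; it is injective by hypothesis.
-/

set_option autoImplicit false

namespace Pool.Agent.GLN

/-- The action of `B` on `W` as an algebra homomorphism. -/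
private def actHom {F : Type} [Field F] {n : ℕ}
    (B : Subalgebra F (Matrix (Fin n) (Fin n) F)) (W : Submodule F (Fin n → F))
    (hW : ∀ b ∈ B, ∀ x ∈ W, b.mulVec x ∈ W) : B →ₐ[F] Module.End F W :=
  AlgHom.ofLinearMap
    { toFun := fun b =>
        { toFun := fun x => ⟨b.1.mulVec x.1, hW b.1 b.2 x.1 x.2⟩
          map_add' := fun x y => Subtype.ext (by simp [Matrix.mulVec_add])
          map_smul' := fun c x => Subtype.ext (by simp [Matrix.mulVec_smul]) }
      map_add' := fun b c => by
        ext x i
        simp [Matrix.add_mulVec]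
      map_smul' := fun c b => by
        ext x i
        simp [Matrix.smul_mulVec] }
    (by
      ext x i
      simp)
    (fun b c => by
      ext x i
      simp [Matrix.mulVec_mulVec])

private lemma actHom_apply {F : Type} [Field F] {n : ℕ}
    (B : Subalgebra F (Matrix (Fin n) (Fin n) F)) (W : Submodule F (Fin n → F))
    (hW : ∀ b ∈ B, ∀ x ∈ W, b.mulVec x ∈ W) (b : B) (x : W) :
    ((actHom B W hW b x : W) : Fin n → F) = b.1.mulVec x.1 := rfl

theorem exists_equiv_matrix {F : Type} [Field F] [IsAlgClosed F] {n : ℕ}
    (B : Subalgebra F (Matrix (Fin n) (Fin n) F)) (W : Submodule F (Fin n → F)) (h0 : W ≠ ⊥)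
    (hW : ∀ b ∈ B, ∀ x ∈ W, b.mulVec x ∈ W)
    (hs : ∀ W' ≤ W, (∀ b ∈ B, ∀ x ∈ W', b.mulVec x ∈ W') → W' = ⊥ ∨ W' = W)
    (hf : ∀ b ∈ B, (∀ x ∈ W, b.mulVec x = 0) → b = 0) :
    ∃ a : ℕ, 0 < a ∧ Nonempty (Matrix (Fin a) (Fin a) F ≃ₐ[F] B) := by
  classical
  set ρ := actHom B W hW with hρ
  let _ : Module B W := Module.compHom W (ρ : B →+* Module.End F W)
  have smul_def : ∀ (b : B) (x : W), b • x = ρ b x := fun b x => rfl
  have : Nontrivial W := Submodule.nontrivial_iff_ne_bot.2 h0
  -- subspaces of `W` stable under `B`
  have key : ∀ W₁ : Submodule F W, (∀ (b : B) (x : W), x ∈ W₁ → ρ b x ∈ W₁) → W₁ = ⊥ ∨ W₁ = ⊤ := by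
    intro W₁ h
    have h2 := hs (W₁.map W.subtype) (Submodule.map_subtype_le W W₁) (by
      rintro b hb x hx
      obtain ⟨y, hy, rfl⟩ := Submodule.mem_map.1 hx
      exact Submodule.mem_map.2 ⟨ρ ⟨b, hb⟩ y, h ⟨b, hb⟩ y hy, rfl⟩)
    rcases h2 with h2 | h2
    · left
      rw [eq_bot_iff]
      intro x hx
      have h3 : (x : Fin n → F) ∈ W₁.map W.subtype := Submodule.mem_map.2 ⟨x, hx, rfl⟩
      rw [h2, Submodule.mem_bot] at h3
      exact Submodule.mem_bot F |>.2 (Subtype.ext h3)
    · right
      rw [eq_top_iff]
      intro x _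
      have hx : (x : Fin n → F) ∈ W₁.map W.subtype := by rw [h2]; exact x.2
      obtain ⟨y, hy, hxy⟩ := Submodule.mem_map.1 hx
      have : y = x := Subtype.ext hxy
      exact this ▸ hy
  have alg_smul : ∀ (c : F) (x : W), (algebraMap F B c) • x = c • x := by
    intro c x
    rw [smul_def, AlgHom.commutes]
    simp [Module.algebraMap_end_apply]
  have simp1 : IsSimpleModule B W := by
    have : Nontrivial (Submodule B W) := Submodule.nontrivial_iff B |>.2 inferInstance
    refine isSimpleModule_iff B W |>.2 ⟨fun S => ?_⟩
    let W₁ : Submodule F W :=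
      { carrier := S
        add_mem' := fun {a b} ha hb => S.add_mem ha hb
        zero_mem' := S.zero_mem
        smul_mem' := fun c x hx => by
          have := S.smul_mem (algebraMap F B c) hx
          rwa [alg_smul] at this }
    rcases key W₁ (fun b x hx => S.smul_mem b hx) with h | h
    · left
      rw [eq_bot_iff]
      intro x hx
      have : x ∈ W₁ := hx
      rw [h] at this
      simpa using this
    · right
      rw [eq_top_iff]
      intro x _
      have : x ∈ W₁ := by rw [h]; trivial
      exact this
  -- Schur
  have schur : ∀ φ : Module.End B W, ∃ c : F, ∀ x, φ x = c • x := by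
    intro φ
    let φ' : Module.End F W :=
      { toFun := φ
        map_add' := φ.map_add
        map_smul' := fun c x => by
          have := φ.map_smul (algebraMap F B c) x
          rw [alg_smul, alg_smul] at this
          exact this }
    obtain ⟨c, hc⟩ := Module.End.exists_eigenvalue φ'
    refine ⟨c, ?_⟩
    have hk : ∀ (b : B) (x : W), x ∈ Module.End.eigenspace φ' c →
        ρ b x ∈ Module.End.eigenspace φ' c := by
      intro b x hx
      rw [Module.End.mem_eigenspace_iff] at hx ⊢
      have e1 : φ' (ρ b x) = ρ b (φ' x) := φ.map_smul b x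
      rw [e1, hx, map_smul]
    have h1 : Module.End.eigenspace φ' c = ⊤ := by
      rcases key (Module.End.eigenspace φ' c) hk with h | h
      · exact absurd h hc
      · exact h
    intro x
    have : x ∈ Module.End.eigenspace φ' c := by rw [h1]; trivial
    exact Module.End.mem_eigenspace_iff.1 this
  have hsurj : Function.Surjective ρ := by
    intro f
    let f' : Module.End (Module.End B W) W :=
      { toFun := f
        map_add' := f.map_add
        map_smul' := fun φ x => by
          obtain ⟨c, hc⟩ := schur φ
          have e1 : φ • x = c • x := hc x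
          have e2 : φ • f x = c • f x := hc (f x)
          rw [e1, map_smul]
          exact e2.symm }
    let bs := Module.finBasis F W
    obtain ⟨r, hr⟩ := jacobson_density (R := B) f' (Finset.univ.image bs)
    refine ⟨r, ?_⟩
    refine bs.ext (fun i => ?_)
    have := hr (bs i) (Finset.mem_image.2 ⟨i, Finset.mem_univ _, rfl⟩)
    exact this.symm
  have hinj : Function.Injective ρ := by
    rw [injective_iff_map_eq_zero]
    intro b hb
    apply Subtype.ext
    refine hf b.1 b.2 (fun x hx => ?_)
    have := congrArg (fun g : Module.End F W => ((g ⟨x, hx⟩ : W) : Fin n → F)) hb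
    exact this
  refine ⟨Module.finrank F W, Module.finrank_pos, ⟨?_⟩⟩
  exact ((AlgEquiv.ofBijective ρ ⟨hinj, hsurj⟩).trans
    (algEquivMatrix (Module.finBasis F W))).symm

end Pool.Agent.GLN
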