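import Pool.Agent.Lib.MP_98022b_gln.ConeTop
import Pool.Agent.Lib.MP_98022b_gln.TRDefs

/-!
# The cone space: the homotopy action
-/

set_option autoImplicit false
set_option linter.unusedSectionVars false

open Set Filter Topology

namespace Pool.Agent.GLN

open Pool.Agent.FA Cn

variable {G : Type} [Group G] {S : Finset G} {B : Type} [MetricSpace B] [MulAction G B]
  {geo : B → B → ℝ → B} {o : B} {F : ℕ → B → ℝ} {L R η : ℝ}

/-- The parameters of the cone construction. -/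
structure ConePar (o : B) (F : ℕ → B → ℝ) (L η q Θ δ T : ℝ) : Prop where
  one_le_q : 1 ≤ q
  δ_pos : 0 < δ
  δ_le : δ ≤ 1 / 2
  Θ_nonneg : 0 ≤ Θ
  T_le : ∀ z : Cn o F q Θ, z.c * dist o z.x ≤ T
  main : 6 * q ^ 6 * (L * (T + 2 * η)) + q ^ 6 * ((1 - δ / 2) * Θ) ≤ Θ

/-! ### Estimates -/

theorem sum_shift {q : ℝ} (hq : 1 ≤ q) {f : ℕ → ℝ} (hf : ∀ j, 0 ≤ f j)
    (hanti : ∀ j, f (j + 1) ≤ f j) (k : ℕ) (g : ℕ → ℝ) (hg : ∀ j, f (j + k) ≤ g j) {b : ℝ}
    (hb : ∀ m, ∑ j ∈ Finset.range m, q ^ j * g j ≤ b) (m : ℕ) :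
    ∑ j ∈ Finset.range m, q ^ j * f j ≤ k * q ^ k * f 0 + q ^ k * b := by
  have hq0 : 0 ≤ q := zero_le_one.trans hq
  have h0 : ∀ j, f j ≤ f 0 := by
    intro j
    induction j with
    | zero => exact le_rfl
    | succ j ih => exact (hanti j).trans ih
  have h1 : ∑ j ∈ Finset.range m, q ^ j * f j ≤ ∑ j ∈ Finset.range (k + m), q ^ j * f j :=
    Finset.sum_le_sum_of_subset_of_nonneg (Finset.range_mono (by omega))
      (fun j _ _ => mul_nonneg (pow_nonneg hq0 j) (hf j))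
  refine h1.trans ?_
  rw [Finset.sum_range_add]
  refine add_le_add ?_ ?_
  · calc ∑ j ∈ Finset.range k, q ^ j * f j ≤ ∑ _j ∈ Finset.range k, q ^ k * f 0 := by
          refine Finset.sum_le_sum fun j hj => ?_
          exact mul_le_mul (pow_le_pow_right₀ hq (Finset.mem_range.1 hj).le) (h0 j) (hf j)
            (pow_nonneg hq0 k)
      _ = k * q ^ k * f 0 := by
          rw [Finset.sum_const, Finset.card_range, nsmul_eq_mul]
          ring
  · calc ∑ j ∈ Finset.range m, q ^ (k + j) * f (k + j)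
        ≤ ∑ j ∈ Finset.range m, q ^ k * (q ^ j * g j) := by
          refine Finset.sum_le_sum fun j _ => ?_
          rw [pow_add, mul_assoc, add_comm k j]
          exact mul_le_mul_of_nonneg_left (mul_le_mul_of_nonneg_left (hg j) (pow_nonneg hq0 j))
            (pow_nonneg hq0 k)
      _ = q ^ k * ∑ j ∈ Finset.range m, q ^ j * g j := by rw [Finset.mul_sum]
      _ ≤ q ^ k * b := mul_le_mul_of_nonneg_left (hb m) (pow_nonneg hq0 k)

namespace ConeData

variable (hd : ConeData G S B geo o F L R η)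

include hd

theorem F_le (m : ℕ) (y : B) : F m y ≤ L * dist o y := by
  have h := hd.lip m y o
  rw [hd.base, sub_zero, abs_of_nonneg (hd.nonneg m y), dist_comm] at h
  exact h

theorem L_dist_nonneg (y : B) : 0 ≤ L * dist o y := (hd.nonneg 0 y).trans (hd.F_le 0 y)

theorem anti' {m m' : ℕ} (h : m ≤ m') (y : B) : F m' y ≤ F m y := by
  induction m', h using Nat.le_induction with
  | base => exact le_rfl
  | succ m' _ ih => exact (hd.anti m' y).trans ih

theorem F_geo_base (m : ℕ) (y : B) {t : ℝ} (h0 : 0 ≤ t) (h1 : t ≤ 1) :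
    F (m + 1) (geo o y t) ≤ t * F m y := by
  have h := hd.convex m o y t h0 h1
  rwa [hd.base, mul_zero, zero_add] at h

theorem dist_smul_le {s : G} (hs : s ∈ S) (y : B) : dist o (s • y) ≤ η + dist o y := by
  refine (dist_triangle _ (s • o) _).trans (add_le_add (hd.eta s hs) ?_)
  rw [hd.isom]

theorem dist_geo_le (y : B) {t : ℝ} (h0 : 0 ≤ t) (h1 : t ≤ 1) :
    dist o (geo o y t) ≤ dist o y :=
  (hd.bicomb.dist_left _ _ h0 h1).trans (mul_le_of_le_one_left dist_nonneg h1)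

theorem dist_geo_le' (x y : B) {t a : ℝ} (h0 : 0 ≤ t) (h1 : t ≤ 1) (hx : dist o x ≤ a)
    (hy : dist o y ≤ a) : dist o (geo x y t) ≤ a := by
  have h := hd.bicomb.conical o o x y t h0 h1
  rw [hd.bicomb.self o h0 h1] at h
  have h2 : (1 - t) * dist o x ≤ (1 - t) * a := mul_le_mul_of_nonneg_left hx (sub_nonneg.2 h1)
  have h3 : t * dist o y ≤ t * a := mul_le_mul_of_nonneg_left hy h0
  linarith

end ConeData

/-- The control map. -/
def pr (geo : B → B → ℝ → B) {q Θ : ℝ} (z : Cn o F q Θ) : B := geo o z.x z.c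

/-- The maps `φ s` (points of the base of the cone). -/
def b1 (geo : B → B → ℝ → B) (δ : ℝ) {q Θ : ℝ} (s : G) (z : Cn o F q Θ) : B :=
  geo o (s • pr geo z) (1 - δ)

/-- The composition of two of them. -/
def b2 (geo : B → B → ℝ → B) (δ : ℝ) {q Θ : ℝ} (r s : G) (z : Cn o F q Θ) : B :=
  geo o (r • b1 geo δ s z) (1 - δ)

section

variable {q Θ δ T : ℝ} (hd : ConeData G S B geo o F L R η) (hp : ConePar o F L η q Θ δ T)

include hd hp

theorem sum_G_le (z : Cn o F q Θ) (m : ℕ) :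
    ∑ j ∈ Finset.range m, q ^ j * (z.c * F j z.x) ≤ Θ := by
  rcases z.c_nonneg.eq_or_lt with h | h
  · rw [← h]
    simp only [zero_mul, mul_zero, Finset.sum_const_zero]
    exact hp.Θ_nonneg
  · refine le_trans (le_of_eq ?_) (z.sum_le h m)
    rw [Finset.mul_sum]
    exact Finset.sum_congr rfl fun j _ => by ring

theorem T_nonneg : 0 ≤ T := by
  have h := hp.T_le vertex
  rwa [c_vertex, zero_mul] at h

theorem dist_pr_le (z : Cn o F q Θ) : dist o (pr geo z) ≤ T :=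
  (hd.bicomb.dist_left _ _ z.c_nonneg z.c_le).trans (hp.T_le z)

theorem F_pr (z : Cn o F q Θ) (j : ℕ) : F (j + 1) (pr geo z) ≤ z.c * F j z.x :=
  hd.F_geo_base j z.x z.c_nonneg z.c_le

theorem one_sub_nonneg : 0 ≤ 1 - δ := by
  have := hp.δ_le
  linarith

theorem one_sub_le : 1 - δ ≤ 1 := by
  have := hp.δ_pos
  linarith

theorem F_b1 {s : G} (hs : s ∈ S) (z : Cn o F q Θ) (j : ℕ) :
    F (j + 3) (b1 geo δ s z) ≤ (1 - δ) * (z.c * F j z.x) := by
  refine (hd.F_geo_base (j + 2) _ (one_sub_nonneg hd hp) (one_sub_le hd hp)).trans ?_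
  refine mul_le_mul_of_nonneg_left ?_ (one_sub_nonneg hd hp)
  exact (hd.smul s hs (j + 1) _).trans (F_pr hd hp z j)

theorem F_b2 {r s : G} (hr : r ∈ S) (hs : s ∈ S) (z : Cn o F q Θ) (j : ℕ) :
    F (j + 5) (b2 geo δ r s z) ≤ (1 - δ) * (z.c * F j z.x) := by
  refine (hd.F_geo_base (j + 4) _ (one_sub_nonneg hd hp) (one_sub_le hd hp)).trans ?_
  have h1 : F (j + 4) (r • b1 geo δ s z) ≤ (1 - δ) * (z.c * F j z.x) :=
    (hd.smul r hr (j + 3) _).trans (F_b1 hd hp hs z j)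
  have h2 : 0 ≤ F (j + 4) (r • b1 geo δ s z) := hd.nonneg _ _
  exact (mul_le_of_le_one_left h2 (one_sub_le hd hp)).trans h1

theorem dist_b1_le {s : G} (hs : s ∈ S) (z : Cn o F q Θ) : dist o (b1 geo δ s z) ≤ T + η := by
  refine (hd.dist_geo_le _ (one_sub_nonneg hd hp) (one_sub_le hd hp)).trans ?_
  have h1 := hd.dist_smul_le hs (pr geo z)
  have h2 := dist_pr_le hd hp z
  linarith

theorem dist_b2_le {r s : G} (hr : r ∈ S) (hs : s ∈ S) (z : Cn o F q Θ) :
    dist o (b2 geo δ r s z) ≤ T + 2 * η := by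
  refine (hd.dist_geo_le _ (one_sub_nonneg hd hp) (one_sub_le hd hp)).trans ?_
  have h1 := hd.dist_smul_le hr (b1 geo δ s z)
  have h2 := dist_b1_le hd hp hs z
  linarith

/-- The criterion for points of the base of the cone. -/
theorem valid_one (hL : 0 ≤ L) (z : Cn o F q Θ) {y : B}
    (hy : ∀ j, F (j + 6) y ≤ (1 - δ / 2) * (z.c * F j z.x)) (hT : dist o y ≤ T + 2 * η) :
    Valid o F q Θ 1 y := by
  refine Or.inr ⟨one_pos, le_rfl, fun m => ?_⟩
  rw [one_mul]
  have hδ : 0 ≤ 1 - δ / 2 := by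
    have := hp.δ_le
    linarith
  have h1 := sum_shift hp.one_le_q (f := fun j => F j y) (fun j => hd.nonneg j y)
    (fun j => hd.anti j y) 6 (fun j => (1 - δ / 2) * (z.c * F j z.x)) hy
    (b := (1 - δ / 2) * Θ) (fun m => ?_) m
  · refine h1.trans (le_trans ?_ hp.main)
    have h2 : F 0 y ≤ L * (T + 2 * η) :=
      (hd.F_le 0 y).trans (mul_le_mul_of_nonneg_left hT hL)
    have h3 : (0 : ℝ) ≤ 6 * q ^ 6 :=
      mul_nonneg (by norm_num) (pow_nonneg (zero_le_one.trans hp.one_le_q) 6)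
    have h4 := mul_le_mul_of_nonneg_left h2 h3
    push_cast
    linarith
  · calc ∑ j ∈ Finset.range m, q ^ j * ((1 - δ / 2) * (z.c * F j z.x))
        = (1 - δ / 2) * ∑ j ∈ Finset.range m, q ^ j * (z.c * F j z.x) := by
          rw [Finset.mul_sum]
          exact Finset.sum_congr rfl fun j _ => by ring
      _ ≤ (1 - δ / 2) * Θ := mul_le_mul_of_nonneg_left (sum_G_le hd hp z m) hδ

theorem G_nonneg (z : Cn o F q Θ) (j : ℕ) : 0 ≤ z.c * F j z.x :=
  mul_nonneg z.c_nonneg (hd.nonneg j _)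

theorem delta_le (z : Cn o F q Θ) (j : ℕ) :
    (1 - δ) * (z.c * F j z.x) ≤ (1 - δ / 2) * (z.c * F j z.x) := by
  refine mul_le_mul_of_nonneg_right ?_ (G_nonneg hd hp z j)
  have := hp.δ_pos
  linarith

theorem η_nonneg (h1 : (1 : G) ∈ S) : 0 ≤ η := by
  have h := hd.eta 1 h1
  rwa [one_smul, dist_self] at h

theorem valid_b1 (hL : 0 ≤ L) (h1 : (1 : G) ∈ S) {s : G} (hs : s ∈ S) (z : Cn o F q Θ) :
    Valid o F q Θ 1 (b1 geo δ s z) := by
  refine valid_one hd hp hL z (fun j => ?_) ?_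
  · exact (hd.anti' (by omega) _).trans ((F_b1 hd hp hs z j).trans (delta_le hd hp z j))
  · have h2 := dist_b1_le hd hp hs z
    have h3 := η_nonneg hd hp h1
    linarith

theorem valid_line (hL : 0 ≤ L) (h1 : (1 : G) ∈ S) {r s a : G} (hr : r ∈ S) (hs : s ∈ S)
    (ha : a ∈ S) (z : Cn o F q Θ) {t : ℝ} (ht0 : 0 ≤ t) (ht1 : t ≤ 1) :
    Valid o F q Θ 1 (geo (b2 geo δ r s z) (b1 geo δ a z) t) := by
  refine valid_one hd hp hL z (fun j => ?_) ?_
  · refine (hd.convex (j + 5) _ _ t ht0 ht1).trans (le_trans ?_ (delta_le hd hp z j))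
    have h2 := F_b2 hd hp hr hs z j
    have h3 := (hd.anti' (show j + 3 ≤ j + 5 by omega) _).trans (F_b1 hd hp ha z j)
    have h4 := mul_le_mul_of_nonneg_left h2 (sub_nonneg.2 ht1)
    have h5 := mul_le_mul_of_nonneg_left h3 ht0
    linarith
  · refine hd.dist_geo_le' _ _ ht0 ht1 (dist_b2_le hd hp hr hs z) ?_
    have h2 := dist_b1_le hd hp ha z
    have h3 := η_nonneg hd hp h1
    linarith

theorem inv_le_sub : (1 + δ)⁻¹ ≤ 1 - δ / 2 := by
  have h1 := hp.δ_pos
  have h2 := hp.δ_le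
  rw [inv_le_iff_one_le_mul₀ (by linarith)]
  nlinarith

/-- The last part of the loop. -/
theorem valid_line' (hL : 0 ≤ L) (h1 : (1 : G) ∈ S) {r s : G} (hr : r ∈ S) (hs : s ∈ S)
    (z : Cn o F q Θ) {t : ℝ} (ht0 : 0 ≤ t) (ht1 : t ≤ 1) :
    Valid o F q Θ 1 (geo (geo o z.x (z.c * (1 + δ)⁻¹)) (b2 geo δ r s z) t) := by
  have hδ0 : 0 ≤ (1 + δ)⁻¹ := inv_nonneg.2 (by have := hp.δ_pos; linarith)
  have hδ1 : (1 + δ)⁻¹ ≤ 1 := inv_le_one_of_one_le₀ (by have := hp.δ_pos; linarith)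
  have hc0 : 0 ≤ z.c * (1 + δ)⁻¹ := mul_nonneg z.c_nonneg hδ0
  have hc1 : z.c * (1 + δ)⁻¹ ≤ 1 := mul_le_one₀ z.c_le hδ0 hδ1
  refine valid_one hd hp hL z (fun j => ?_) ?_
  · refine (hd.convex (j + 5) _ _ t ht0 ht1).trans ?_
    have h2 := (F_b2 hd hp hr hs z j).trans (delta_le hd hp z j)
    have h3 : F (j + 5) (geo o z.x (z.c * (1 + δ)⁻¹)) ≤ (1 - δ / 2) * (z.c * F j z.x) := by
      refine (hd.anti' (show j + 1 ≤ j + 5 by omega) _).trans ?_
      refine (hd.F_geo_base j z.x hc0 hc1).trans ?_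
      have h4 := mul_le_mul_of_nonneg_right (inv_le_sub hd hp) (G_nonneg hd hp z j)
      linarith
    have h4 := mul_le_mul_of_nonneg_left h3 (sub_nonneg.2 ht1)
    have h5 := mul_le_mul_of_nonneg_left h2 ht0
    linarith
  · refine hd.dist_geo_le' _ _ ht0 ht1 ?_ (dist_b2_le hd hp hr hs z)
    refine (hd.bicomb.dist_left _ _ hc0 hc1).trans ?_
    have h2 := hp.T_le z
    have h3 := η_nonneg hd hp h1
    have h4 : z.c * (1 + δ)⁻¹ * dist o z.x ≤ z.c * dist o z.x := by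
      refine mul_le_mul_of_nonneg_right ?_ dist_nonneg
      exact mul_le_of_le_one_right z.c_nonneg hδ1
    linarith

/-- The middle part of the loop. -/
theorem valid_mid (hL : 0 ≤ L) (h1 : (1 : G) ∈ S) (z : Cn o F q Θ) {a : ℝ} (ha0 : 0 < a)
    (ha1 : a ≤ 1) (haz : z.c * (1 + δ)⁻¹ ≤ a) :
    Valid o F q Θ a (geo o z.x (z.c * ((1 + δ)⁻¹ / a))) := by
  have hδ0 : 0 ≤ (1 + δ)⁻¹ := inv_nonneg.2 (by have := hp.δ_pos; linarith)
  have hδ1 : (1 + δ)⁻¹ ≤ 1 := inv_le_one_of_one_le₀ (by have := hp.δ_pos; linarith)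
  have hq0 : 0 ≤ q := zero_le_one.trans hp.one_le_q
  have hc0 : 0 ≤ z.c * ((1 + δ)⁻¹ / a) := mul_nonneg z.c_nonneg (div_nonneg hδ0 ha0.le)
  have hc1 : z.c * ((1 + δ)⁻¹ / a) ≤ 1 := by
    rw [← mul_div_assoc, div_le_one₀ ha0]
    exact haz
  refine Or.inr ⟨ha0, ha1, fun m => ?_⟩
  have h2 := sum_shift hp.one_le_q (f := fun j => F j (geo o z.x (z.c * ((1 + δ)⁻¹ / a))))
    (fun j => hd.nonneg j _) (fun j => hd.anti j _) 1
    (fun j => (1 + δ)⁻¹ / a * (z.c * F j z.x)) (fun j => ?_) (b := (1 + δ)⁻¹ / a * Θ)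
    (fun m => ?_) m
  · have h3 := mul_le_mul_of_nonneg_left h2 ha0.le
    refine h3.trans (le_trans ?_ hp.main)
    have h4 : F 0 (geo o z.x (z.c * ((1 + δ)⁻¹ / a))) ≤
        L * (z.c * ((1 + δ)⁻¹ / a) * dist o z.x) :=
      (hd.F_le 0 _).trans (mul_le_mul_of_nonneg_left (hd.bicomb.dist_left _ _ hc0 hc1) hL)
    have h5 : a * F 0 (geo o z.x (z.c * ((1 + δ)⁻¹ / a))) ≤ L * (T + 2 * η) := by
      refine (mul_le_mul_of_nonneg_left h4 ha0.le).trans ?_
      have h6 : a * (L * (z.c * ((1 + δ)⁻¹ / a) * dist o z.x)) =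
          L * ((1 + δ)⁻¹ * (z.c * dist o z.x)) := by
        field_simp
      rw [h6]
      refine mul_le_mul_of_nonneg_left ?_ hL
      have h7 := hp.T_le z
      have h8 := η_nonneg hd hp h1
      have h9 : (1 + δ)⁻¹ * (z.c * dist o z.x) ≤ z.c * dist o z.x :=
        mul_le_of_le_one_left (mul_nonneg z.c_nonneg dist_nonneg) hδ1
      linarith
    have h6 : (0 : ℝ) ≤ L * (T + 2 * η) :=
      mul_nonneg hL (by
        have := T_nonneg hd hp
        have := η_nonneg hd hp h1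
        linarith)
    have h7 : q ≤ q ^ 6 := le_self_pow₀ hp.one_le_q (by norm_num)
    have h8 : a * ((1 : ℕ) * q ^ 1 * F 0 (geo o z.x (z.c * ((1 + δ)⁻¹ / a))) +
        q ^ 1 * ((1 + δ)⁻¹ / a * Θ)) =
        q * (a * F 0 (geo o z.x (z.c * ((1 + δ)⁻¹ / a)))) + q * ((1 + δ)⁻¹ * Θ) := by
      push_cast
      field_simp
    rw [h8]
    have h9 : q * (a * F 0 (geo o z.x (z.c * ((1 + δ)⁻¹ / a)))) ≤
        6 * q ^ 6 * (L * (T + 2 * η)) := by
      refine (mul_le_mul_of_nonneg_left h5 hq0).trans ?_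
      refine mul_le_mul_of_nonneg_right ?_ h6
      have := pow_nonneg hq0 6
      linarith
    have h10 : q * ((1 + δ)⁻¹ * Θ) ≤ q ^ 6 * ((1 - δ / 2) * Θ) := by
      refine mul_le_mul h7 (mul_le_mul_of_nonneg_right (inv_le_sub hd hp) hp.Θ_nonneg) ?_
        (pow_nonneg hq0 6)
      exact mul_nonneg hδ0 hp.Θ_nonneg
    linarith
  · refine (hd.F_geo_base j z.x hc0 hc1).trans (le_of_eq ?_)
    ring
  · calc ∑ j ∈ Finset.range m, q ^ j * ((1 + δ)⁻¹ / a * (z.c * F j z.x))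
        = (1 + δ)⁻¹ / a * ∑ j ∈ Finset.range m, q ^ j * (z.c * F j z.x) := by
          rw [Finset.mul_sum]
          exact Finset.sum_congr rfl fun j _ => by ring
      _ ≤ (1 + δ)⁻¹ / a * Θ :=
        mul_le_mul_of_nonneg_left (sum_G_le hd hp z m) (div_nonneg hδ0 ha0.le)

/-! ### The loop -/

omit hd hp in
/-- The parameters of the three parts of the loop. -/
theorem loop_params {δ : ℝ} (hδ : 0 < δ) (u : ℝ) (h0 : 0 ≤ u) (h1 : u ≤ 1) :
    (0 < (1 + δ * min (3 * u) 1)⁻¹ ∧ (1 + δ * min (3 * u) 1)⁻¹ ≤ 1) ∧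
      (0 ≤ max 0 (min (3 * u - 1) 1) ∧ max 0 (min (3 * u - 1) 1) ≤ 1) ∧
      (0 ≤ max 0 (3 * u - 2) ∧ max 0 (3 * u - 2) ≤ 1) := by
  have h2 : 0 ≤ min (3 * u) 1 := le_min (by linarith) zero_le_one
  have h3 : 0 ≤ δ * min (3 * u) 1 := mul_nonneg hδ.le h2
  refine ⟨⟨inv_pos.2 (by linarith), inv_le_one_of_one_le₀ (by linarith)⟩,
    ⟨le_max_left _ _, max_le zero_le_one (min_le_right _ _)⟩, ⟨le_max_left _ _,
      max_le zero_le_one (by linarith)⟩⟩

end

/-- The radial coordinate of the loop. -/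
noncomputable def lc (δ : ℝ) {q Θ : ℝ} (z : Cn o F q Θ) (u : ℝ) : ℝ :=
  max (z.c * (1 + δ * min (3 * u) 1)⁻¹) (max 0 (min (3 * u - 1) 1))

/-- The point of the loop. -/
noncomputable def lx (geo : B → B → ℝ → B) (δ : ℝ) {q Θ : ℝ} (z : Cn o F q Θ) (u : ℝ) : B :=
  geo o z.x (z.c * ((1 + δ * min (3 * u) 1)⁻¹ / lc δ z u))

/-- The loop. -/
noncomputable def loop (geo : B → B → ℝ → B) (δ : ℝ) {q Θ : ℝ} (r s : G) (z : Cn o F q Θ)
    (u : ℝ) : Cn o F q Θ :=
  pt (lc δ z u) (geo (lx geo δ z u) (b2 geo δ r s z) (max 0 (3 * u - 2)))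

section

variable {q Θ δ T : ℝ} (hd : ConeData G S B geo o F L R η) (hp : ConePar o F L η q Θ δ T)

include hd hp

theorem lc_nonneg (z : Cn o F q Θ) (u : ℝ) : 0 ≤ lc δ z u :=
  (le_max_left 0 _).trans (le_max_right _ _)

theorem lc_le (z : Cn o F q Θ) {u : ℝ} (h0 : 0 ≤ u) (h1 : u ≤ 1) : lc δ z u ≤ 1 := by
  obtain ⟨⟨h2, h3⟩, ⟨h4, h5⟩, _⟩ := loop_params hp.δ_pos u h0 h1
  exact max_le (mul_le_one₀ z.c_le h2.le h3) h5

theorem lc_mul_le (z : Cn o F q Θ) {u : ℝ} (h0 : 0 ≤ u) (h1 : u ≤ 1) :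
    0 ≤ z.c * ((1 + δ * min (3 * u) 1)⁻¹ / lc δ z u) ∧
      z.c * ((1 + δ * min (3 * u) 1)⁻¹ / lc δ z u) ≤ 1 := by
  obtain ⟨⟨h2, h3⟩, ⟨h4, h5⟩, _⟩ := loop_params hp.δ_pos u h0 h1
  refine ⟨mul_nonneg z.c_nonneg (div_nonneg h2.le (lc_nonneg hd hp z u)), ?_⟩
  rw [← mul_div_assoc]
  exact div_le_one_of_le₀ (le_max_left _ _) (lc_nonneg hd hp z u)

/-- The case of the radial coordinate `0`. -/
theorem lc_eq_zero (z : Cn o F q Θ) {u : ℝ} (h0 : 0 ≤ u) (h1 : u ≤ 1) (h : lc δ z u = 0) :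
    z.c = 0 ∧ u ≤ 1 / 3 := by
  obtain ⟨⟨h2, h3⟩, ⟨h4, h5⟩, _⟩ := loop_params hp.δ_pos u h0 h1
  constructor
  · have h6 : z.c * (1 + δ * min (3 * u) 1)⁻¹ ≤ 0 := h ▸ le_max_left _ _
    by_contra hc
    have h7 : 0 < z.c := z.c_nonneg.lt_of_ne (Ne.symm hc)
    exact absurd h6 (not_le.2 (mul_pos h7 h2))
  · by_contra hu
    push Not at hu
    have h6 : max 0 (min (3 * u - 1) 1) ≤ lc δ z u := le_max_right _ _
    rw [h] at h6
    have h7 : min (3 * u - 1) 1 ≤ 0 := (le_max_right _ _).trans h6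
    rcases min_le_iff.1 h7 with h8 | h8
    · linarith
    · linarith

theorem valid_loop (hL : 0 ≤ L) (h1S : (1 : G) ∈ S) {r s : G} (hr : r ∈ S) (hs : s ∈ S)
    (z : Cn o F q Θ) {u : ℝ} (h0 : 0 ≤ u) (h1 : u ≤ 1) :
    Valid o F q Θ (lc δ z u) (geo (lx geo δ z u) (b2 geo δ r s z) (max 0 (3 * u - 2))) := by
  obtain ⟨⟨h2, h3⟩, ⟨h4, h5⟩, ⟨h6, h7⟩⟩ := loop_params hp.δ_pos u h0 h1
  rcases (lc_nonneg hd hp z u).eq_or_lt with hc | hc
  · obtain ⟨h8, h9⟩ := lc_eq_zero hd hp z h0 h1 hc.symm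
    have h10 : max 0 (3 * u - 2) = 0 := max_eq_left (by linarith)
    rw [h10, hd.bicomb.zero, ← hc]
    unfold lx
    rw [h8, zero_mul, hd.bicomb.zero]
    exact valid_zero
  · rcases le_or_gt u (1 / 3) with hu | hu
    · have h10 : max 0 (3 * u - 2) = 0 := max_eq_left (by linarith)
      have h11 : max 0 (min (3 * u - 1) 1) = 0 :=
        max_eq_left ((min_le_left _ _).trans (by linarith))
      have h12 : lc δ z u = z.c * (1 + δ * min (3 * u) 1)⁻¹ := by
        unfold lc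
        rw [h11]
        exact max_eq_left (mul_nonneg z.c_nonneg h2.le)
      have h13 : lx geo δ z u = z.x := by
        unfold lx
        rw [← mul_div_assoc, ← h12, div_self hc.ne', hd.bicomb.one]
      rw [h10, hd.bicomb.zero, h13, h12]
      rw [h12] at hc
      exact valid_shr z hc h3
    · have h9 : min (3 * u) 1 = 1 := min_eq_right (by linarith)
      rcases le_or_gt u (2 / 3) with hu' | hu'
      · have h10 : max 0 (3 * u - 2) = 0 := max_eq_left (by linarith)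
        rw [h10, hd.bicomb.zero]
        unfold lx
        rw [h9, mul_one]
        refine valid_mid hd hp hL h1S z hc (lc_le hd hp z h0 h1) ?_
        unfold lc
        rw [h9, mul_one]
        exact le_max_left _ _
      · have h10 : max 0 (min (3 * u - 1) 1) = 1 := by
          rw [min_eq_right (by linarith)]
          exact max_eq_right zero_le_one
        have h11 : lc δ z u = 1 := by
          unfold lc
          rw [h10]
          exact max_eq_right (mul_le_one₀ z.c_le h2.le h3)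
        have h12 : lx geo δ z u = geo o z.x (z.c * (1 + δ)⁻¹) := by
          unfold lx
          rw [h11, h9, mul_one, div_one]
        rw [h11, h12]
        exact valid_line' hd hp hL h1S hr hs z h6 h7

/-! ### Continuity -/

omit hd hp in
theorem tendsto_pt_pos {α : Type} {l : Filter α} {f : α → ℝ} {g : α → B} {c₀ : ℝ} {x₀ : B}
    (hv : ∀ a, Valid o F q Θ (f a) (g a)) (hv₀ : Valid o F q Θ c₀ x₀) (h : 0 < c₀)
    (hf : Tendsto f l (𝓝 c₀)) (hg : Tendsto g l (𝓝 x₀)) :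
    Tendsto (fun a => (pt (f a) (g a) : Cn o F q Θ)) l (𝓝 (pt c₀ x₀)) := by
  rw [tendsto_iff (by rw [c_pt hv₀]; exact h), c_pt hv₀, x_pt hv₀]
  exact ⟨hf.congr fun a => (c_pt (hv a)).symm, hg.congr fun a => (x_pt (hv a)).symm⟩

theorem continuous_pr (hsm : Small o F q Θ) :
    Continuous (pr geo : Cn o F q Θ → B) := by
  rw [continuous_iff_continuousAt]
  intro z
  have h := tendsto_geo hd.bicomb hsm (f := id) (z := z) (t := fun _ => 1) (t₀ := 1)
    (l := 𝓝 z) tendsto_id tendsto_const_nhds (Eventually.of_forall fun _ => zero_le_one)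
    (Eventually.of_forall fun z' => by rw [mul_one]; exact z'.c_le) zero_le_one
    (by rw [mul_one]; exact z.c_le)
  rw [mul_one] at h
  refine Tendsto.congr (fun z' => ?_) h
  unfold pr
  rw [mul_one]
  rfl

theorem continuous_smul' (g : G) : Continuous fun y : B => g • y :=
  (Isometry.of_dist_eq (f := fun y : B => g • y) fun x y => hd.isom g x y).continuous

theorem continuous_b1 (hsm : Small o F q Θ) (s : G) :
    Continuous (b1 geo δ s : Cn o F q Θ → B) := by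
  rw [continuous_iff_continuousAt]
  intro z
  exact hd.bicomb.tendsto tendsto_const_nhds
    (((continuous_smul' hd hp s).comp (continuous_pr hd hp hsm)).tendsto z) tendsto_const_nhds
    (Eventually.of_forall fun _ => one_sub_nonneg hd hp)
    (Eventually.of_forall fun _ => one_sub_le hd hp) (one_sub_nonneg hd hp) (one_sub_le hd hp)

theorem continuous_b2 (hsm : Small o F q Θ) (r s : G) :
    Continuous (b2 geo δ r s : Cn o F q Θ → B) := by
  rw [continuous_iff_continuousAt]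
  intro z
  exact hd.bicomb.tendsto tendsto_const_nhds
    (((continuous_smul' hd hp r).comp (continuous_b1 hd hp hsm s)).tendsto z) tendsto_const_nhds
    (Eventually.of_forall fun _ => one_sub_nonneg hd hp)
    (Eventually.of_forall fun _ => one_sub_le hd hp) (one_sub_nonneg hd hp) (one_sub_le hd hp)

theorem continuous_loop (hsm : Small o F q Θ) (hL : 0 ≤ L) (h1S : (1 : G) ∈ S) {r s : G}
    (hr : r ∈ S) (hs : s ∈ S) :
    Continuous fun p : Cn o F q Θ × unitInterval => loop geo δ r s p.1 (1 - p.2.1) := by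
  rw [continuous_iff_continuousAt]
  rintro ⟨z, t⟩
  have hu0 : 0 ≤ 1 - t.1 := sub_nonneg.2 t.2.2
  have hu1 : 1 - t.1 ≤ 1 := sub_le_self _ t.2.1
  have hu : Tendsto (fun p : Cn o F q Θ × unitInterval => 1 - p.2.1) (𝓝 (z, t)) (𝓝 (1 - t.1)) :=
    (continuous_const.sub (continuous_subtype_val.comp continuous_snd)).tendsto _
  have hz : Tendsto (fun p : Cn o F q Θ × unitInterval => p.1) (𝓝 (z, t)) (𝓝 z) :=
    continuous_fst.tendsto _
  have hzc : Tendsto (fun p : Cn o F q Θ × unitInterval => p.1.c) (𝓝 (z, t)) (𝓝 z.c) :=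
    (continuous_c.comp continuous_fst).tendsto _
  have hk : Tendsto (fun p : Cn o F q Θ × unitInterval => (1 + δ * min (3 * (1 - p.2.1)) 1)⁻¹)
      (𝓝 (z, t)) (𝓝 (1 + δ * min (3 * (1 - t.1)) 1)⁻¹) := by
    refine Tendsto.inv₀ ?_ ?_
    · exact tendsto_const_nhds.add (tendsto_const_nhds.mul
        ((tendsto_const_nhds.mul hu).min tendsto_const_nhds))
    · exact (inv_pos.1 (loop_params hp.δ_pos _ hu0 hu1).1.1).ne'
  have hm : Tendsto (fun p : Cn o F q Θ × unitInterval => max 0 (min (3 * (1 - p.2.1) - 1) 1))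
      (𝓝 (z, t)) (𝓝 (max 0 (min (3 * (1 - t.1) - 1) 1))) :=
    tendsto_const_nhds.max (((tendsto_const_nhds.mul hu).sub tendsto_const_nhds).min
      tendsto_const_nhds)
  have hm' : Tendsto (fun p : Cn o F q Θ × unitInterval => max 0 (3 * (1 - p.2.1) - 2))
      (𝓝 (z, t)) (𝓝 (max 0 (3 * (1 - t.1) - 2))) :=
    tendsto_const_nhds.max ((tendsto_const_nhds.mul hu).sub tendsto_const_nhds)
  have hc : Tendsto (fun p : Cn o F q Θ × unitInterval => lc δ p.1 (1 - p.2.1)) (𝓝 (z, t))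
      (𝓝 (lc δ z (1 - t.1))) := (hzc.mul hk).max hm
  have hv : ∀ p : Cn o F q Θ × unitInterval, Valid o F q Θ (lc δ p.1 (1 - p.2.1))
      (geo (lx geo δ p.1 (1 - p.2.1)) (b2 geo δ r s p.1) (max 0 (3 * (1 - p.2.1) - 2))) :=
    fun p => valid_loop hd hp hL h1S hr hs p.1 (sub_nonneg.2 p.2.2.2) (sub_le_self _ p.2.2.1)
  have hv₀ := valid_loop hd hp hL h1S hr hs z hu0 hu1
  rcases (lc_nonneg hd hp z (1 - t.1)).eq_or_lt with h | h
  · refine (tendsto_iff_zero hsm ?_).2 ?_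
    · show (pt (lc δ z (1 - t.1)) _ : Cn o F q Θ).c = 0
      rw [c_pt hv₀]
      exact h.symm
    · rw [← h] at hc
      exact hc.congr fun p => (c_pt (hv p)).symm
  · refine tendsto_pt_pos hv hv₀ h hc ?_
    refine hd.bicomb.tendsto ?_ ((continuous_b2 hd hp hsm r s).continuousAt.tendsto.comp hz) hm'
      (Eventually.of_forall fun p => le_max_left _ _)
      (Eventually.of_forall fun p =>
        (loop_params hp.δ_pos _ (sub_nonneg.2 p.2.2.2) (sub_le_self _ p.2.2.1)).2.2.2)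
      (le_max_left _ _) (loop_params hp.δ_pos _ hu0 hu1).2.2.2
    exact tendsto_geo hd.bicomb hsm hz (hk.div hc h.ne')
      (Eventually.of_forall fun p => div_nonneg
        (loop_params hp.δ_pos _ (sub_nonneg.2 p.2.2.2) (sub_le_self _ p.2.2.1)).1.1.le
        (lc_nonneg hd hp _ _))
      (Eventually.of_forall fun p =>
        (lc_mul_le hd hp p.1 (sub_nonneg.2 p.2.2.2) (sub_le_self _ p.2.2.1)).2)
      (div_nonneg (loop_params hp.δ_pos _ hu0 hu1).1.1.le (lc_nonneg hd hp _ _))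
      (lc_mul_le hd hp z hu0 hu1).2

/-! ### The homotopy action -/

theorem smul_dist (g : G) (x y : B) : dist (g • x) (g • y) = dist x y := hd.isom g x y

theorem b2_eq (r s : G) (z : Cn o F q Θ) (hv : Valid o F q Θ 1 (b1 geo δ s z)) :
    b1 geo δ r (pt 1 (b1 geo δ s z) : Cn o F q Θ) = b2 geo δ r s z := by
  unfold b2
  show geo o (r • pr geo (pt 1 (b1 geo δ s z) : Cn o F q Θ)) (1 - δ) = _
  unfold pr
  rw [c_pt hv, x_pt hv, hd.bicomb.one]

theorem loop_one {r s : G} (z : Cn o F q Θ) :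
    loop geo δ r s z 1 = pt 1 (b2 geo δ r s z) := by
  have h1 : lc δ z 1 = 1 := by
    unfold lc
    have h2 : max (0 : ℝ) (min (3 * 1 - 1) 1) = 1 := by
      rw [min_eq_right (by norm_num)]
      exact max_eq_right zero_le_one
    rw [h2]
    obtain ⟨⟨h2, h3⟩, _⟩ := loop_params hp.δ_pos 1 zero_le_one le_rfl
    exact max_eq_right (mul_le_one₀ z.c_le h2.le h3)
  have h2 : max (0 : ℝ) (3 * 1 - 2) = 1 := by norm_num
  unfold loop
  rw [h1, h2, hd.bicomb.one]

theorem loop_zero {r s : G} (z : Cn o F q Θ) : loop geo δ r s z 0 = z := by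
  have h1 : lc δ z 0 = z.c := by
    unfold lc
    have h2 : max (0 : ℝ) (min (3 * 0 - 1) 1) = 0 := by
      rw [min_eq_left (by norm_num)]
      exact max_eq_left (by norm_num)
    rw [h2, mul_zero, min_eq_left zero_le_one, mul_zero, add_zero, inv_one, mul_one]
    exact max_eq_left z.c_nonneg
  have h2 : max (0 : ℝ) (3 * 0 - 2) = 0 := by norm_num
  have h3 : lx geo δ z 0 = z.x := by
    unfold lx
    rw [h1, mul_zero, min_eq_left zero_le_one, mul_zero, add_zero, inv_one]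
    rcases z.c_nonneg.eq_or_lt with h | h
    · rw [← h, zero_mul, hd.bicomb.zero, z.x_eq h.symm]
    · rw [mul_one_div, div_self h.ne', hd.bicomb.one]
  unfold loop
  rw [h1, h2, h3, hd.bicomb.zero, pt_self]

end

open Classical in
/-- The maps of the homotopy action. -/
noncomputable def phi (geo : B → B → ℝ → B) (δ : ℝ) {q Θ : ℝ} (g : G) (z : Cn o F q Θ) :
    Cn o F q Θ := if g = 1 then z else pt 1 (b1 geo δ g z)

open Classical in
/-- The homotopies of the homotopy action. -/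
noncomputable def hmt (geo : B → B → ℝ → B) (δ : ℝ) {q Θ : ℝ} (r s : G) (z : Cn o F q Θ)
    (t : unitInterval) : Cn o F q Θ :=
  if r = 1 ∨ s = 1 then phi geo δ (r * s) z
  else if r * s = 1 then loop geo δ r s z (1 - t.1)
  else pt 1 (geo (b2 geo δ r s z) (b1 geo δ (r * s) z) t.1)

section

variable {q Θ δ T : ℝ} (hd : ConeData G S B geo o F L R η) (hp : ConePar o F L η q Θ δ T)

include hd hp

theorem continuous_phi (hsm : Small o F q Θ) (hL : 0 ≤ L) (h1S : (1 : G) ∈ S) {g : G}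
    (hg : g ∈ S) : Continuous (phi geo δ g : Cn o F q Θ → Cn o F q Θ) := by
  unfold phi
  split_ifs
  · exact continuous_id
  · rw [continuous_iff_continuousAt]
    intro z
    exact tendsto_pt_pos (fun z => valid_b1 hd hp hL h1S hg z) (valid_b1 hd hp hL h1S hg z) one_pos
      tendsto_const_nhds ((continuous_b1 hd hp hsm g).tendsto z)

theorem continuous_hmt (hsm : Small o F q Θ) (hL : 0 ≤ L) (h1S : (1 : G) ∈ S) {r s : G}
    (hr : r ∈ S) (hs : s ∈ S) (hrs : r * s ∈ S) :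
    Continuous fun p : Cn o F q Θ × unitInterval => hmt geo δ r s p.1 p.2 := by
  unfold hmt
  split_ifs with h1 h2
  · exact (continuous_phi hd hp hsm hL h1S hrs).comp continuous_fst
  · exact continuous_loop hd hp hsm hL h1S hr hs
  · rw [continuous_iff_continuousAt]
    rintro ⟨z, t⟩
    refine tendsto_pt_pos
      (fun p => valid_line hd hp hL h1S hr hs hrs p.1 p.2.2.1 p.2.2.2)
      (valid_line hd hp hL h1S hr hs hrs z t.2.1 t.2.2) one_pos tendsto_const_nhds ?_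
    refine hd.bicomb.tendsto
      (((continuous_b2 hd hp hsm r s).comp continuous_fst).tendsto (z, t))
      (((continuous_b1 hd hp hsm (r * s)).comp continuous_fst).tendsto (z, t))
      ((continuous_subtype_val.comp continuous_snd).tendsto _)
      (Eventually.of_forall fun p => p.2.2.1) (Eventually.of_forall fun p => p.2.2.2) t.2.1 t.2.2

/-- The homotopy action on the cone. -/
noncomputable def coneAct (hsm : Small o F q Θ) (hL : 0 ≤ L) (h1S : (1 : G) ∈ S) :
    HomotopyAction G S (Cn o F q Θ) where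
  φ := phi geo δ
  H := hmt geo δ
  continuous_φ := fun _ hg => continuous_phi hd hp hsm hL h1S hg
  continuous_H := fun _ hg _ hh hgh => continuous_hmt hd hp hsm hL h1S hg hh hgh
  H_zero := by
    intro r hr s hs hrs z
    unfold hmt
    split_ifs with h1 h2
    · rcases h1 with rfl | rfl
      · unfold phi
        rw [one_mul, if_pos rfl]
      · unfold phi
        rw [mul_one, if_pos rfl]
    · push Not at h1
      show loop geo δ r s z (1 - 0) = _
      rw [sub_zero, loop_one hd hp]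
      unfold phi
      rw [if_neg h1.1, if_neg h1.2, b2_eq hd hp r s z (valid_b1 hd hp hL h1S hs z)]
    · push Not at h1
      show pt 1 (geo (b2 geo δ r s z) (b1 geo δ (r * s) z) 0) = _
      rw [hd.bicomb.zero]
      unfold phi
      rw [if_neg h1.1, if_neg h1.2, b2_eq hd hp r s z (valid_b1 hd hp hL h1S hs z)]
  H_one := by
    intro r hr s hs hrs z
    unfold hmt
    split_ifs with h1 h2
    · rfl
    · show loop geo δ r s z (1 - 1) = _
      rw [sub_self, loop_zero hd hp]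
      unfold phi
      rw [if_pos h2]
    · show pt 1 (geo (b2 geo δ r s z) (b1 geo δ (r * s) z) 1) = _
      rw [hd.bicomb.one]
      unfold phi
      rw [if_neg h2]
  φ_one := by
    intro z
    unfold phi
    rw [if_pos rfl]
  H_one_one := by
    intro z t
    unfold hmt phi
    rw [if_pos (Or.inl rfl), if_pos (one_mul 1)]

/-! ### Control -/

/-- `r (b1 s z)` is near the geodesic. -/
theorem dist_b2 {r s : G} (hr : r ∈ S) (z : Cn o F q Θ) :
    dist (b2 geo δ r s z) (geo o ((r * s) • pr geo z) ((1 - δ) * (1 - δ))) ≤ δ * η := by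
  have h0 := one_sub_nonneg hd hp
  have h1 := one_sub_le hd hp
  have hδ := hp.δ_pos
  unfold b2 b1
  rw [hd.geo_smul _ _ _ _ h0 h1, smul_smul, ← hd.bicomb.trunc _ _ h0 h1 h0 h1]
  refine (hd.bicomb.conical _ _ _ _ _ h0 h1).trans ?_
  rw [dist_self, mul_zero, zero_add]
  have h2 := hd.bicomb.conical (r • o) ((r * s) • pr geo z) o ((r * s) • pr geo z) (1 - δ) h0 h1
  rw [dist_self, mul_zero, add_zero, sub_sub_cancel] at h2
  have h3 : dist (r • o) o ≤ η := by
    rw [dist_comm]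
    exact hd.eta r hr
  have h4 : δ * dist (r • o) o ≤ δ * η := mul_le_mul_of_nonneg_left h3 hδ.le
  exact (mul_le_of_le_one_left dist_nonneg h1).trans (h2.trans h4)

/-- Lines between two points near a geodesic. -/
theorem dist_line {x y w : B} {a b e t : ℝ} (ha0 : 0 ≤ a) (ha1 : a ≤ 1) (hb0 : 0 ≤ b)
    (hb1 : b ≤ 1) (ht0 : 0 ≤ t) (ht1 : t ≤ 1) (hx : dist x (geo o w a) ≤ e)
    (hy : dist y (geo o w b) ≤ e) :
    dist (geo x y t) (geo o w ((1 - t) * a + t * b)) ≤ e := by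
  rw [← hd.bicomb.consistent _ _ _ _ _ ha0 ha1 hb0 hb1 ht0 ht1]
  refine (hd.bicomb.conical _ _ _ _ _ ht0 ht1).trans ?_
  have h2 := mul_le_mul_of_nonneg_left hx (sub_nonneg.2 ht1)
  have h3 := mul_le_mul_of_nonneg_left hy ht0
  linarith

theorem pr_pt_one {y : B} (hv : Valid o F q Θ 1 y) : pr geo (pt 1 y : Cn o F q Θ) = y := by
  unfold pr
  rw [c_pt hv, x_pt hv, hd.bicomb.one]

/-- The control of the loop. -/
theorem pr_loop (hL : 0 ≤ L) (h1S : (1 : G) ∈ S) {r s : G} (hr : r ∈ S) (hs : s ∈ S)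
    (hrs : r * s = 1) (z : Cn o F q Θ) {u : ℝ} (h0 : 0 ≤ u) (h1 : u ≤ 1) :
    ∃ μ, 1 - 2 * δ ≤ μ ∧ μ ≤ 1 ∧
      dist (pr geo (loop geo δ r s z u)) (geo o (pr geo z) μ) ≤ δ * η := by
  obtain ⟨⟨h2, h3⟩, ⟨h4, h5⟩, ⟨h6, h7⟩⟩ := loop_params hp.δ_pos u h0 h1
  have hδ := hp.δ_pos
  have hδ2 := hp.δ_le
  have hη := η_nonneg hd hp h1S
  have hv := valid_loop hd hp hL h1S hr hs z h0 h1
  have hδη : 0 ≤ δ * η := mul_nonneg hδ.le hη
  -- the lower bound for the factor
  have hk : 1 - δ ≤ (1 + δ * min (3 * u) 1)⁻¹ := by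
    have h8 : 0 ≤ min (3 * u) 1 := le_min (by linarith) zero_le_one
    have h9 : δ * min (3 * u) 1 ≤ δ := mul_le_of_le_one_right hδ.le (min_le_right _ _)
    have h10 : 0 ≤ δ * min (3 * u) 1 := mul_nonneg hδ.le h8
    rw [le_inv_comm₀ (by linarith) (by linarith)]
    rw [le_inv_comm₀ (by linarith) (by linarith)]
    rw [le_inv_comm₀ (by linarith) (by linarith)]
    rw [inv_eq_one_div, le_div_iff₀ (by linarith)]
    nlinarith
  rcases le_or_gt u (2 / 3) with hu | hu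
  · refine ⟨(1 + δ * min (3 * u) 1)⁻¹, by linarith, h3, ?_⟩
    have h10 : max 0 (3 * u - 2) = 0 := max_eq_left (by linarith)
    have h11 : pr geo (loop geo δ r s z u) = geo o (pr geo z) (1 + δ * min (3 * u) 1)⁻¹ := by
      unfold loop pr
      rw [c_pt hv, x_pt hv, h10, hd.bicomb.zero]
      have hm := lc_mul_le hd hp z h0 h1
      unfold lx
      rw [hd.bicomb.trunc _ _ hm.1 hm.2 (lc_nonneg hd hp z u) (lc_le hd hp z h0 h1),
        hd.bicomb.trunc _ _ z.c_nonneg z.c_le h2.le h3]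
      rcases (lc_nonneg hd hp z u).eq_or_lt with hc | hc
      · rw [← hc, (lc_eq_zero hd hp z h0 h1 hc.symm).1, mul_zero, zero_mul]
      · congr 1
        field_simp
    rw [h11, dist_self]
    exact hδη
  · have h9 : min (3 * u) 1 = 1 := min_eq_right (by linarith)
    have h10 : max 0 (min (3 * u - 1) 1) = 1 := by
      rw [min_eq_right (by linarith)]
      exact max_eq_right zero_le_one
    have h11 : lc δ z u = 1 := by
      unfold lc
      rw [h10]
      exact max_eq_right (mul_le_one₀ z.c_le h2.le h3)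
    rw [h9, mul_one] at h2 h3 hk
    have h12 : lx geo δ z u = geo o (pr geo z) (1 + δ)⁻¹ := by
      unfold lx pr
      rw [h11, h9, mul_one, div_one, hd.bicomb.trunc _ _ z.c_nonneg z.c_le h2.le h3]
    have h13 : pr geo (loop geo δ r s z u) =
        geo (geo o (pr geo z) (1 + δ)⁻¹) (b2 geo δ r s z) (max 0 (3 * u - 2)) := by
      unfold loop
      rw [h11, h12] at hv ⊢
      exact pr_pt_one hd hp hv
    rw [h13]
    have h14 := dist_b2 hd hp (s := s) hr z
    rw [hrs, one_smul] at h14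
    have h15 : 0 ≤ (1 - δ) * (1 - δ) := mul_self_nonneg _
    have h16 : (1 - δ) * (1 - δ) ≤ 1 := by nlinarith
    have h17 : 1 - 2 * δ ≤ (1 - δ) * (1 - δ) := by nlinarith
    refine ⟨_, ?_, ?_, dist_line hd hp h2.le h3 h15 h16 h6 h7
      (by rw [dist_self]; exact hδη) h14⟩
    · nlinarith
    · nlinarith

/-- (3.2): the control of the tracks. -/
theorem pr_track (hsm : Small o F q Θ) (hL : 0 ≤ L) (h1S : (1 : G) ∈ S) {a : G} (ha : a ∈ S)
    {f : Cn o F q Θ → Cn o F q Θ} (hf : f ∈ (coneAct hd hp hsm hL h1S).F a) (z : Cn o F q Θ) :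
    ∃ μ, 1 - 2 * δ ≤ μ ∧ μ ≤ 1 ∧
      dist (pr geo (f z)) (geo o (a • pr geo z) μ) ≤ δ * η := by
  obtain ⟨r, hr, s, hs, hrs, t, rfl⟩ := hf
  have hδ := hp.δ_pos
  have hδ2 := hp.δ_le
  have hη := η_nonneg hd hp h1S
  have hδη : 0 ≤ δ * η := mul_nonneg hδ.le hη
  have h0 := one_sub_nonneg hd hp
  have h1 := one_sub_le hd hp
  show ∃ μ, 1 - 2 * δ ≤ μ ∧ μ ≤ 1 ∧
    dist (pr geo (hmt geo δ r s z t)) (geo o (a • pr geo z) μ) ≤ δ * η
  unfold hmt
  split_ifs with h2 h3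
  · rw [hrs]
    unfold phi
    split_ifs with h4
    · refine ⟨1, by linarith, le_rfl, ?_⟩
      rw [h4, one_smul, hd.bicomb.one, dist_self]
      exact hδη
    · refine ⟨1 - δ, by linarith, h1, ?_⟩
      rw [pr_pt_one hd hp (valid_b1 hd hp hL h1S ha z)]
      unfold b1
      rw [dist_self]
      exact hδη
  · obtain ⟨μ, h4, h5, h6⟩ := pr_loop hd hp hL h1S hr hs h3 z (sub_nonneg.2 t.2.2)
      (sub_le_self _ t.2.1)
    refine ⟨μ, h4, h5, ?_⟩
    rw [← hrs, h3, one_smul]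
    exact h6
  · rw [hrs, pr_pt_one hd hp (valid_line hd hp hL h1S hr hs ha z t.2.1 t.2.2)]
    have h14 := dist_b2 hd hp (s := s) hr z
    rw [hrs] at h14
    have h15 : 0 ≤ (1 - δ) * (1 - δ) := mul_self_nonneg _
    have h16 : (1 - δ) * (1 - δ) ≤ 1 := by nlinarith
    have h17 : 1 - 2 * δ ≤ (1 - δ) * (1 - δ) := by nlinarith
    have ht0 := t.2.1
    have ht1 := t.2.2
    refine ⟨_, ?_, ?_, dist_line hd hp h15 h16 h0 h1 t.2.1 t.2.2 h14 (b := 1 - δ) ?_⟩
    · nlinarith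
    · nlinarith
    · unfold b1
      rw [dist_self]
      exact hδη

end

end Pool.Agent.GLN
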