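import Pool.Agent.Lib.MP_98022b_gln.ConeAct

/-!
# The cone space: the parameters
-/

set_option autoImplicit false
set_option linter.unusedSectionVars false

open Set Filter Topology

namespace Pool.Agent.GLN

open Pool.Agent.FA Cn

variable {G : Type} [Group G] {S : Finset G} {B : Type} [MetricSpace B] [MulAction G B]
  {geo : B → B → ℝ → B} {o : B} {F : ℕ → B → ℝ} {L R η : ℝ}

namespace ConeData

variable (hd : ConeData G S B geo o F L R η)

include hd

/-- The weights. -/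
theorem mul_sum_le {q : ℝ} (hq : 0 ≤ q) (m : ℕ) (y : B) :
    F m y * ∑ j ∈ Finset.range m, q ^ j ≤ ∑ j ∈ Finset.range m, q ^ j * F j y := by
  rw [Finset.mul_sum]
  refine Finset.sum_le_sum fun j hj => ?_
  rw [mul_comm]
  exact mul_le_mul_of_nonneg_left (hd.anti' (Finset.mem_range.1 hj).le y) (pow_nonneg hq j)

theorem mul_sum_le' {q : ℝ} (hq : 0 ≤ q) (m : ℕ) (y : B) :
    F m y * ∑ j ∈ Finset.range (m + 1), q ^ j ≤ ∑ j ∈ Finset.range (m + 1), q ^ j * F j y := by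
  rw [Finset.mul_sum]
  refine Finset.sum_le_sum fun j hj => ?_
  rw [mul_comm]
  exact mul_le_mul_of_nonneg_left (hd.anti' (Finset.mem_range_succ_iff.1 hj) y) (pow_nonneg hq j)

theorem mul_succ_le {q : ℝ} (hq : 1 ≤ q) (m : ℕ) (y : B) :
    F m y * (m + 1) ≤ ∑ j ∈ Finset.range (m + 1), q ^ j * F j y := by
  refine le_trans (mul_le_mul_of_nonneg_left ?_ (hd.nonneg m y))
    (hd.mul_sum_le' (zero_le_one.trans hq) m y)
  calc (m : ℝ) + 1 = ∑ _j ∈ Finset.range (m + 1), (1 : ℝ) := by simp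
    _ ≤ ∑ j ∈ Finset.range (m + 1), q ^ j :=
      Finset.sum_le_sum fun j _ => one_le_pow₀ hq

theorem continuous_F (hL : 0 ≤ L) (m : ℕ) : Continuous (F m) := by
  have h : LipschitzWith (Real.toNNReal L) (F m) := by
    refine LipschitzWith.of_dist_le_mul fun x y => ?_
    rw [Real.coe_toNNReal _ hL, Real.dist_eq]
    exact hd.lip m x y
  exact h.continuous

theorem small {q Θ : ℝ} (hq : 1 ≤ q) (hΘ : 0 ≤ Θ) : Small o F q Θ := by
  intro ε hε
  obtain ⟨m, hm⟩ := exists_nat_gt (4 * Θ / ε)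
  have hm' : 4 * Θ < ε * (m + 1) := by
    rw [div_lt_iff₀ hε] at hm
    nlinarith
  have hm1 : (0 : ℝ) < m + 1 := by positivity
  have hR : 0 < 2 * (|R| * (m + 1) + 1) := by positivity
  refine ⟨ε / (2 * (|R| * (m + 1) + 1)), div_pos hε hR, fun z hz => ?_⟩
  have h1 := hd.radius m z.x
  have h2 : R * (m + 1) ≤ |R| * (m + 1) + 1 :=
    (mul_le_mul_of_nonneg_right (le_abs_self R) hm1.le).trans (le_add_of_nonneg_right zero_le_one)
  have h3 : z.c * (|R| * (m + 1) + 1) < ε / 2 := by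
    rw [lt_div_iff₀ hR] at hz
    linarith
  have h4 : z.c * F m z.x * (m + 1) ≤ Θ := by
    rcases z.c_nonneg.eq_or_lt with h | h
    · rw [← h, zero_mul, zero_mul]
      exact hΘ
    · refine le_trans ?_ (z.sum_le h (m + 1))
      rw [mul_assoc]
      exact mul_le_mul_of_nonneg_left (hd.mul_succ_le hq m z.x) h.le
  have h5 : z.c * F m z.x < ε / 4 := by
    by_contra hcon
    push Not at hcon
    have := mul_le_mul_of_nonneg_right hcon hm1.le
    linarith
  have h6 := mul_le_mul_of_nonneg_left h1 z.c_nonneg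
  have h7 := mul_le_mul_of_nonneg_left h2 z.c_nonneg
  linarith

theorem exists_compact {q Θ : ℝ} (hq : 1 ≤ q) {ε : ℝ} (hε : 0 < ε) :
    ∃ K : Set B, IsCompact K ∧ ∀ z : Cn o F q Θ, ε ≤ z.c → z.x ∈ K := by
  refine ⟨{x | ∀ m : ℕ, F m x ≤ Θ / ε / (m + 1)}, hd.compact _ ?_, fun z hz m => ?_⟩
  · exact tendsto_const_div_atTop_nhds_zero_nat (Θ / ε) |>.comp (tendsto_add_atTop_nat 1) |>.congr
      fun m => by simp
  · have hm1 : (0 : ℝ) < m + 1 := by positivity
    rw [le_div_iff₀ hm1, le_div_iff₀ hε]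
    have h := z.sum_le (hε.trans_le hz) (m + 1)
    have h2 := hd.mul_succ_le hq m z.x
    have h3 : 0 ≤ F m z.x * (m + 1) := mul_nonneg (hd.nonneg m _) hm1.le
    calc F m z.x * (m + 1) * ε ≤ F m z.x * (m + 1) * z.c := mul_le_mul_of_nonneg_left hz h3
      _ = z.c * (F m z.x * (m + 1)) := mul_comm _ _
      _ ≤ z.c * ∑ j ∈ Finset.range (m + 1), q ^ j * F j z.x :=
        mul_le_mul_of_nonneg_left h2 z.c_nonneg
      _ ≤ Θ := h

end ConeData

/-! ### The choice of the parameters -/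

theorem two_pow_le {D : ℕ} (hD : 0 < D) (k : ℕ) : (2 : ℝ) ^ k ≤ (1 + 1 / D) ^ (D * k) := by
  have hD' : (0 : ℝ) < D := Nat.cast_pos.2 hD
  have h1 : (2 : ℝ) ≤ (1 + 1 / D) ^ D := by
    have h := one_add_mul_le_pow (a := 1 / (D : ℝ)) (by
      have : (0 : ℝ) ≤ 1 / D := by positivity
      linarith) D
    rw [mul_one_div, div_self hD'.ne'] at h
    linarith
  rw [pow_mul]
  exact pow_le_pow_left₀ (by norm_num) h1 k

theorem geom_eq {D : ℕ} (hD : 0 < D) (m : ℕ) :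
    ∑ j ∈ Finset.range m, (1 + 1 / (D : ℝ)) ^ j = D * ((1 + 1 / (D : ℝ)) ^ m - 1) := by
  have hD' : (0 : ℝ) < D := Nat.cast_pos.2 hD
  have h0 : (1 : ℝ) / D ≠ 0 := by positivity
  rw [geom_sum_eq (by intro h; exact h0 (by linarith))]
  rw [add_sub_cancel_left, div_div_eq_mul_div, div_one, mul_comm]

theorem le_geom {D : ℕ} (hD : 0 < D) (k : ℕ) :
    D * ((2 : ℝ) ^ k - 1) ≤ ∑ j ∈ Finset.range (D * k), (1 + 1 / (D : ℝ)) ^ j := by
  rw [geom_eq hD]
  have h := two_pow_le hD k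
  exact mul_le_mul_of_nonneg_left (by linarith) (Nat.cast_nonneg D)

/-- The radius of the image of the control map. -/
theorem radius_le (hd : ConeData G S B geo o F L R η) {D : ℕ} (hD : 0 < D) {C' : ℝ} (hC : 0 ≤ C')
    {k : ℕ} (hk : 0 < k) (z : Cn o F (1 + 1 / (D : ℝ)) (C' * D ^ 2)) :
    z.c * dist o z.x ≤ (|R| * (k + 1) + 2 * (C' / (2 ^ k - 1))) * D := by
  have hD' : (0 : ℝ) < D := Nat.cast_pos.2 hD
  have hD1 : (1 : ℝ) ≤ D := Nat.one_le_cast.2 hD
  have hk1 : (0 : ℝ) < 2 ^ k - 1 := by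
    have : (1 : ℝ) < 2 ^ k := one_lt_pow₀ (by norm_num) hk.ne'
    linarith
  have hq : (0 : ℝ) ≤ 1 + 1 / D := by positivity
  have h1 := mul_le_mul_of_nonneg_left (hd.radius (D * k) z.x) z.c_nonneg
  have h2 : z.c * (R * ((D * k : ℕ) + 1)) ≤ |R| * (k + 1) * D := by
    have h3 : R * (((D * k : ℕ) : ℝ) + 1) ≤ |R| * (((D * k : ℕ) : ℝ) + 1) :=
      mul_le_mul_of_nonneg_right (le_abs_self R) (by positivity)
    have h4 : 0 ≤ |R| * (((D * k : ℕ) : ℝ) + 1) := by positivity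
    have h5 : |R| * (((D * k : ℕ) : ℝ) + 1) ≤ |R| * (k + 1) * D := by
      push_cast
      have h6 : |R| * ((D : ℝ) * k + 1) ≤ |R| * ((D : ℝ) * k + D) :=
        mul_le_mul_of_nonneg_left (by linarith) (abs_nonneg R)
      linarith
    calc z.c * (R * (((D * k : ℕ) : ℝ) + 1)) ≤ z.c * (|R| * (((D * k : ℕ) : ℝ) + 1)) :=
          mul_le_mul_of_nonneg_left h3 z.c_nonneg
      _ ≤ |R| * (((D * k : ℕ) : ℝ) + 1) := mul_le_of_le_one_left h4 z.c_le
      _ ≤ _ := h5
  have h3 : z.c * F (D * k) z.x ≤ C' / (2 ^ k - 1) * D := by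
    rw [div_mul_eq_mul_div, le_div_iff₀ hk1]
    rcases z.c_nonneg.eq_or_lt with h | h
    · rw [← h, zero_mul, zero_mul]
      positivity
    · have h4 := z.sum_le h (D * k)
      have h5 := hd.mul_sum_le hq (D * k) z.x
      have h6 := mul_le_mul_of_nonneg_left (le_geom hD k) (hd.nonneg (D * k) z.x)
      have h7 := mul_le_mul_of_nonneg_left (h6.trans h5) z.c_nonneg
      have h8 := h7.trans h4
      have h9 : z.c * F (D * k) z.x * (2 ^ k - 1) * D ≤ C' * D * D := by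
        calc z.c * F (D * k) z.x * (2 ^ k - 1) * D
            = z.c * (F (D * k) z.x * (D * (2 ^ k - 1))) := by ring
          _ ≤ C' * D ^ 2 := h8
          _ = C' * D * D := by ring
      exact le_of_mul_le_mul_right h9 hD'
  have h4 : (|R| * (k + 1) + 2 * (C' / (2 ^ k - 1))) * D =
      |R| * (k + 1) * D + 2 * (C' / (2 ^ k - 1) * D) := by ring
  rw [h4]
  linarith

theorem pow_six_le {x : ℝ} (h0 : 0 ≤ x) (h1 : x ≤ 1 / 40) : (1 + x) ^ 6 ≤ 1 + 7 * x := by
  have h2 : x ^ 2 ≤ x / 40 := by nlinarith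
  have h3 : x ^ 3 ≤ x / 40 := by nlinarith [pow_nonneg h0 2]
  have h4 : x ^ 4 ≤ x / 40 := by nlinarith [pow_nonneg h0 3]
  have h5 : x ^ 5 ≤ x / 40 := by nlinarith [pow_nonneg h0 4]
  have h6 : x ^ 6 ≤ x / 40 := by nlinarith [pow_nonneg h0 5]
  have h7 : (1 + x) ^ 6 = 1 + 6 * x + 15 * x ^ 2 + 20 * x ^ 3 + 15 * x ^ 4 + 6 * x ^ 5 + x ^ 6 := by
    ring
  have h3' : x ^ 3 ≤ x / 1600 := by nlinarith [pow_nonneg h0 2]
  rw [h7]
  have h4' : x ^ 4 ≤ x / 1600 := by nlinarith [pow_nonneg h0 3]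
  have h5' : x ^ 5 ≤ x / 1600 := by nlinarith [pow_nonneg h0 4]
  have h6' : x ^ 6 ≤ x / 1600 := by nlinarith [pow_nonneg h0 5]
  linarith

theorem exists_par (hd : ConeData G S B geo o F L R η) (hL : 0 ≤ L) (hη : 0 ≤ η) :
    ∃ C' C4 : ℝ, 0 < C' ∧ 0 ≤ C4 ∧ ∀ D : ℕ, 40 ≤ D →
      ConePar o F L η (1 + 1 / (D : ℝ)) (C' * D ^ 2) (20 / D) (C4 * D) := by
  obtain ⟨k, hk⟩ := pow_unbounded_of_one_lt (16 * L + 1) (one_lt_two (α := ℝ))
  have hk0 : 0 < k := by
    rcases Nat.eq_zero_or_pos k with h | h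
    · rw [h, pow_zero] at hk
      linarith
    · exact h
  have hk1 : (0 : ℝ) < 2 ^ k - 1 := by linarith
  have hk2 : 16 * L ≤ 2 ^ k - 1 := by linarith
  set A := |R| * (k + 1) + 2 * η with hA
  have hA0 : 0 ≤ A := by positivity
  set C' := 8 * L * A + 1 with hC'
  have hC'0 : 0 < C' := by positivity
  refine ⟨C', |R| * (k + 1) + 2 * (C' / (2 ^ k - 1)), hC'0, by positivity, fun D hD => ?_⟩
  have hD0 : 0 < D := by omega
  have hD' : (0 : ℝ) < D := Nat.cast_pos.2 hD0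
  have hD1 : (40 : ℝ) ≤ D := by exact_mod_cast hD
  have hx0 : (0 : ℝ) ≤ 1 / D := by positivity
  have hx1 : (1 : ℝ) / D ≤ 1 / 40 := one_div_le_one_div_of_le (by norm_num) hD1
  refine ⟨by linarith, by positivity, ?_, by positivity, radius_le hd hD0 hC'0.le hk0, ?_⟩
  · rw [div_le_iff₀ hD']
    linarith
  · have h6 := pow_six_le hx0 hx1
    have h6' : (1 + 1 / (D : ℝ)) ^ 6 ≤ 2 := by linarith
    have hLT : 0 ≤ L * ((|R| * (k + 1) + 2 * (C' / (2 ^ k - 1))) * D + 2 * η) := by positivity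
    -- the first term
    have h7 : L * ((|R| * (k + 1) + 2 * (C' / (2 ^ k - 1))) * D + 2 * η) ≤ C' / 4 * D := by
      have h8 : (|R| * (k + 1) + 2 * (C' / (2 ^ k - 1))) * D + 2 * η ≤
          (A + 2 * (C' / (2 ^ k - 1))) * D := by
        have h9 : 2 * η ≤ 2 * η * D := le_mul_of_one_le_right (by positivity) (by linarith)
        rw [hA]
        linarith
      have h9 := mul_le_mul_of_nonneg_left h8 hL
      refine h9.trans ?_
      have h10 : L * (C' / (2 ^ k - 1)) ≤ C' / 16 := by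
        rw [← mul_div_assoc, div_le_div_iff₀ hk1 (by norm_num)]
        have := mul_le_mul_of_nonneg_right hk2 hC'0.le
        linarith
      have h11 : L * A ≤ C' / 8 := by
        rw [hC']
        linarith
      have h12 : L * (A + 2 * (C' / (2 ^ k - 1))) ≤ C' / 4 := by linarith
      have h13 := mul_le_mul_of_nonneg_right h12 hD'.le
      linarith
    have h8 : 6 * (1 + 1 / (D : ℝ)) ^ 6 *
        (L * ((|R| * (k + 1) + 2 * (C' / (2 ^ k - 1))) * D + 2 * η)) ≤ 3 * C' * D := by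
      have h9 : 6 * (1 + 1 / (D : ℝ)) ^ 6 ≤ 12 := by linarith
      have h10 := mul_le_mul_of_nonneg_right h9 hLT
      linarith
    have h9 : (1 + 1 / (D : ℝ)) ^ 6 * ((1 - 20 / D / 2) * (C' * D ^ 2)) ≤
        C' * D ^ 2 - 3 * C' * D := by
      have h10 : (0 : ℝ) ≤ (1 - 20 / D / 2) := by
        have : (20 : ℝ) / D / 2 = 10 * (1 / D) := by ring
        rw [this]
        linarith
      have h11 : 0 ≤ (1 - 20 / (D : ℝ) / 2) * (C' * D ^ 2) := by positivity
      have h12 := mul_le_mul_of_nonneg_right h6 h11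
      refine h12.trans ?_
      have h13 : (1 + 7 * (1 / (D : ℝ))) * ((1 - 20 / D / 2) * (C' * D ^ 2)) =
          C' * D ^ 2 - 3 * C' * D - 70 * C' := by
        field_simp
        ring
      rw [h13]
      linarith
    linarith

end Pool.Agent.GLN
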