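import Pool.Agent.Lib.MP_98022b_gln.ConeDefs
import Pool.Agent.Lib.MP_98022b_fa.Defs

/-!
# The cone space: topology

Points are the cone point `(0, o)` and the pairs `(c, x)`, `0 < c ≤ 1`, with
`c * ∑ q ^ j * F j x ≤ Θ`.
-/

set_option autoImplicit false

open Set Filter Topology BoundedContinuousFunction

namespace Pool.Agent.GLN

open Pool.Agent.FA

/-! ### The embedding -/

section

variable {B : Type} [MetricSpace B]

/-- The Kuratowski embedding with base point `o`. -/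
noncomputable def kap (o x : B) : B →ᵇ ℝ :=
  BoundedContinuousFunction.ofNormedAddCommGroup (fun y => dist x y - dist o y) (by fun_prop)
    (dist x o) (fun y => by
      rw [Real.norm_eq_abs]
      exact abs_dist_sub_le _ _ _)

@[simp] theorem kap_apply (o x y : B) : kap o x y = dist x y - dist o y := rfl

@[simp] theorem kap_self (o : B) : kap o o = 0 := by
  ext y
  simp

theorem isometry_kap (o : B) : Isometry (kap o) := by
  refine Isometry.of_dist_eq fun x x' => le_antisymm ?_ ?_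
  · rw [BoundedContinuousFunction.dist_le dist_nonneg]
    intro y
    rw [kap_apply, kap_apply, Real.dist_eq]
    have h : dist x y - dist o y - (dist x' y - dist o y) = dist x y - dist x' y := by ring
    rw [h]
    exact abs_dist_sub_le _ _ _
  · have h := BoundedContinuousFunction.dist_coe_le_dist (f := kap o x) (g := kap o x') x'
    rw [kap_apply, kap_apply, Real.dist_eq] at h
    have h2 : dist x x' - dist o x' - (dist x' x' - dist o x') = dist x x' := by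
      rw [dist_self]; ring
    rw [h2, abs_of_nonneg dist_nonneg] at h
    exact h

theorem norm_kap (o x : B) : ‖kap o x‖ = dist o x := by
  have h := (isometry_kap o).dist_eq x o
  rw [kap_self, dist_zero_right] at h
  rw [h, dist_comm]

end

/-! ### Geodesics -/

namespace Bicomb

variable {B : Type} [MetricSpace B] {geo : B → B → ℝ → B} (hb : Bicomb B geo)

include hb

theorem self (x : B) {t : ℝ} (h0 : 0 ≤ t) (h1 : t ≤ 1) : geo x x t = x := by
  have h := hb.speed x x t 0 h0 h1 le_rfl zero_le_one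
  rw [dist_self, mul_zero, hb.zero] at h
  exact dist_le_zero.1 h

theorem dist_left (x y : B) {t : ℝ} (h0 : 0 ≤ t) (h1 : t ≤ 1) :
    dist x (geo x y t) ≤ t * dist x y := by
  have h := hb.speed x y 0 t le_rfl zero_le_one h0 h1
  rwa [hb.zero, zero_sub, abs_neg, abs_of_nonneg h0] at h

theorem dist_right (x y : B) {t : ℝ} (h0 : 0 ≤ t) (h1 : t ≤ 1) :
    dist (geo x y t) y ≤ (1 - t) * dist x y := by
  have h := hb.speed x y t 1 h0 h1 zero_le_one le_rfl
  rwa [hb.one, abs_sub_comm, abs_of_nonneg (sub_nonneg.2 h1)] at h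

theorem dist_left_eq (x y : B) {t : ℝ} (h0 : 0 ≤ t) (h1 : t ≤ 1) :
    dist x (geo x y t) = t * dist x y := by
  refine le_antisymm (hb.dist_left x y h0 h1) ?_
  have h2 := hb.dist_right x y h0 h1
  have h3 := dist_triangle x (geo x y t) y
  linarith

theorem dist_right_eq (x y : B) {t : ℝ} (h0 : 0 ≤ t) (h1 : t ≤ 1) :
    dist (geo x y t) y = (1 - t) * dist x y := by
  refine le_antisymm (hb.dist_right x y h0 h1) ?_
  have h2 := hb.dist_left x y h0 h1
  have h3 := dist_triangle x (geo x y t) y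
  linarith

/-- Geodesics from `x` to a point on the geodesic from `x` to `y`. -/
theorem trunc (x y : B) {a t : ℝ} (ha0 : 0 ≤ a) (ha1 : a ≤ 1) (h0 : 0 ≤ t) (h1 : t ≤ 1) :
    geo x (geo x y a) t = geo x y (a * t) := by
  have h := hb.consistent x y 0 a t le_rfl zero_le_one ha0 ha1 h0 h1
  rw [hb.zero] at h
  rw [h]
  congr 1
  ring

theorem tendsto {α : Type} {l : Filter α} {x y : α → B} {t : α → ℝ} {x₀ y₀ : B} {t₀ : ℝ}
    (hx : Tendsto x l (𝓝 x₀)) (hy : Tendsto y l (𝓝 y₀)) (ht : Tendsto t l (𝓝 t₀))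
    (ht0 : ∀ᶠ a in l, 0 ≤ t a) (ht1 : ∀ᶠ a in l, t a ≤ 1) (h0 : 0 ≤ t₀) (h1 : t₀ ≤ 1) :
    Tendsto (fun a => geo (x a) (y a) (t a)) l (𝓝 (geo x₀ y₀ t₀)) := by
  rw [tendsto_iff_dist_tendsto_zero]
  have h : Tendsto (fun a => (1 - t a) * dist (x a) x₀ + t a * dist (y a) y₀ +
      |t a - t₀| * dist x₀ y₀) l (𝓝 0) := by
    have h1 := tendsto_iff_dist_tendsto_zero.1 hx
    have h2 := tendsto_iff_dist_tendsto_zero.1 hy
    have h3 : Tendsto (fun a => |t a - t₀|) l (𝓝 0) := by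
      have := (ht.sub_const t₀).abs
      simpa using this
    have h4 := ((tendsto_const_nhds (x := (1 : ℝ))).sub ht).mul h1
    have h5 := ht.mul h2
    have h6 := h3.mul_const (dist x₀ y₀)
    have h7 := (h4.add h5).add h6
    simpa using h7
  refine squeeze_zero' (Eventually.of_forall fun _ => dist_nonneg) ?_ h
  filter_upwards [ht0, ht1] with a ha0 ha1
  calc dist (geo (x a) (y a) (t a)) (geo x₀ y₀ t₀)
      ≤ dist (geo (x a) (y a) (t a)) (geo x₀ y₀ (t a)) + dist (geo x₀ y₀ (t a)) (geo x₀ y₀ t₀) :=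
        dist_triangle _ _ _
    _ ≤ _ := add_le_add (hb.conical _ _ _ _ _ ha0 ha1) (hb.speed _ _ _ _ ha0 ha1 h0 h1)

end Bicomb

/-! ### The cone space -/

/-- The condition on the points. -/
def Valid {B : Type} (o : B) (F : ℕ → B → ℝ) (q Θ : ℝ) (c : ℝ) (x : B) : Prop :=
  (c = 0 ∧ x = o) ∨ (0 < c ∧ c ≤ 1 ∧ ∀ m, c * ∑ j ∈ Finset.range m, q ^ j * F j x ≤ Θ)

/-- The cone space: `c` is the radial coordinate. -/
@[ext] structure Cn {B : Type} (o : B) (F : ℕ → B → ℝ) (q Θ : ℝ) : Type where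
  /-- The radial coordinate. -/
  c : ℝ
  /-- The point of `B`. -/
  x : B
  valid : Valid o F q Θ c x

namespace Cn

variable {B : Type} {o : B} {F : ℕ → B → ℝ} {q Θ : ℝ}

open Classical in
/-- The point `(c, x)`, or the cone point. -/
noncomputable def pt (c : ℝ) (x : B) : Cn o F q Θ :=
  if h : Valid o F q Θ c x then ⟨c, x, h⟩ else ⟨0, o, Or.inl ⟨rfl, rfl⟩⟩

theorem c_pt {a : ℝ} {y : B} (h : Valid o F q Θ a y) : (pt a y : Cn o F q Θ).c = a := by
  unfold pt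
  rw [dif_pos h]

theorem x_pt {a : ℝ} {y : B} (h : Valid o F q Θ a y) : (pt a y : Cn o F q Θ).x = y := by
  unfold pt
  rw [dif_pos h]

@[simp] theorem pt_self (z : Cn o F q Θ) : pt z.c z.x = z := Cn.ext (c_pt z.valid) (x_pt z.valid)

theorem c_nonneg (z : Cn o F q Θ) : 0 ≤ z.c := by
  rcases z.valid with h | h
  · exact h.1.ge
  · exact h.1.le

theorem c_le (z : Cn o F q Θ) : z.c ≤ 1 := by
  rcases z.valid with h | h
  · exact h.1.le.trans zero_le_one
  · exact h.2.1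

theorem x_eq (z : Cn o F q Θ) (h0 : z.c = 0) : z.x = o := by
  rcases z.valid with h | h
  · exact h.2
  · exact absurd h0 h.1.ne'

theorem sum_le (z : Cn o F q Θ) (h0 : 0 < z.c) (m : ℕ) :
    z.c * ∑ j ∈ Finset.range m, q ^ j * F j z.x ≤ Θ := by
  rcases z.valid with h | h
  · exact absurd h.1 h0.ne'
  · exact h.2.2 m

theorem valid_zero : Valid o F q Θ 0 o := Or.inl ⟨rfl, rfl⟩

/-- The cone point. -/
noncomputable def vertex : Cn o F q Θ := pt 0 o

theorem c_vertex : (vertex : Cn o F q Θ).c = 0 := c_pt valid_zero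

theorem eq_vertex {z : Cn o F q Θ} (h : z.c = 0) : z = vertex :=
  Cn.ext (h.trans c_vertex.symm) ((z.x_eq h).trans (vertex.x_eq c_vertex).symm)

/-- The point `(a c, x)`. -/
noncomputable def shr (z : Cn o F q Θ) (a : ℝ) : Cn o F q Θ := pt (z.c * a) z.x

theorem valid_shr (z : Cn o F q Θ) {a : ℝ} (h0 : 0 < z.c * a) (h1 : a ≤ 1) :
    Valid o F q Θ (z.c * a) z.x := by
  have hc : 0 < z.c := by
    refine z.c_nonneg.lt_of_ne fun h => ?_
    rw [← h, zero_mul] at h0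
    exact lt_irrefl _ h0
  have ha : 0 < a := pos_of_mul_pos_right h0 hc.le
  refine Or.inr ⟨h0, mul_le_one₀ z.c_le ha.le h1, fun m => ?_⟩
  have h2 := z.sum_le hc m
  have h3 : (0 : ℝ) ≤ Θ := by
    have := z.sum_le hc 0
    simpa using this
  have h4 : z.c * a * ∑ j ∈ Finset.range m, q ^ j * F j z.x =
      a * (z.c * ∑ j ∈ Finset.range m, q ^ j * F j z.x) := by ring
  rw [h4]
  calc a * (z.c * ∑ j ∈ Finset.range m, q ^ j * F j z.x) ≤ a * Θ :=
        mul_le_mul_of_nonneg_left h2 ha.le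
    _ ≤ 1 * Θ := mul_le_mul_of_nonneg_right h1 h3
    _ = Θ := one_mul _

theorem c_shr (z : Cn o F q Θ) {a : ℝ} (h0 : 0 ≤ a) (h1 : a ≤ 1) : (shr z a).c = z.c * a := by
  rcases (mul_nonneg z.c_nonneg h0).eq_or_lt with h | h
  · unfold shr
    rw [← h]
    unfold pt
    split_ifs <;> rfl
  · exact c_pt (valid_shr z h h1)

theorem x_shr (z : Cn o F q Θ) {a : ℝ} (h0 : 0 < z.c * a) (h1 : a ≤ 1) : (shr z a).x = z.x :=
  x_pt (valid_shr z h0 h1)

theorem shr_one (z : Cn o F q Θ) : shr z 1 = z := by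
  unfold shr
  rw [mul_one, pt_self]

theorem shr_zero (z : Cn o F q Θ) : shr z 0 = vertex :=
  eq_vertex (by rw [c_shr z le_rfl zero_le_one, mul_zero])

variable [MetricSpace B]

/-- The embedding in a Banach space. -/
noncomputable def emb (z : Cn o F q Θ) : ℝ × (B →ᵇ ℝ) := (z.c, z.c • kap o z.x)

noncomputable instance : TopologicalSpace (Cn o F q Θ) := TopologicalSpace.induced emb inferInstance

theorem emb_injective : Function.Injective (emb : Cn o F q Θ → ℝ × (B →ᵇ ℝ)) := by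
  intro z z' h
  have h1 : z.c = z'.c := congrArg Prod.fst h
  have h2 : z.c • kap o z.x = z'.c • kap o z'.x := congrArg Prod.snd h
  rcases z.c_nonneg.eq_or_lt with h0 | h0
  · exact (eq_vertex h0.symm).trans (eq_vertex (h1.symm.trans h0.symm)).symm
  · rw [← h1] at h2
    exact Cn.ext h1 ((isometry_kap o).injective (smul_right_injective _ h0.ne' h2))

theorem isEmbedding_emb : IsEmbedding (emb : Cn o F q Θ → ℝ × (B →ᵇ ℝ)) :=
  ⟨⟨rfl⟩, emb_injective⟩

instance : TopologicalSpace.MetrizableSpace (Cn o F q Θ) := isEmbedding_emb.metrizableSpace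

theorem continuous_c : Continuous (c : Cn o F q Θ → ℝ) :=
  continuous_fst.comp isEmbedding_emb.continuous

theorem tendsto_x {z : Cn o F q Θ} (h : 0 < z.c) : Tendsto (x : Cn o F q Θ → B) (𝓝 z) (𝓝 z.x) := by
  have h1 : Tendsto (c : Cn o F q Θ → ℝ) (𝓝 z) (𝓝 z.c) := continuous_c.tendsto z
  have h2 : Tendsto (fun z' : Cn o F q Θ => z'.c • kap o z'.x) (𝓝 z) (𝓝 (z.c • kap o z.x)) :=
    (continuous_snd.comp isEmbedding_emb.continuous).tendsto z
  have h3 := (h1.inv₀ h.ne').smul h2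
  rw [inv_smul_smul₀ h.ne'] at h3
  have h4 : Tendsto (fun z' : Cn o F q Θ => kap o z'.x) (𝓝 z) (𝓝 (kap o z.x)) := by
    refine h3.congr' ?_
    filter_upwards [h1.eventually_ne h.ne'] with z' hz'
    rw [inv_smul_smul₀ hz']
  exact ((isometry_kap o).isUniformInducing.isInducing.tendsto_nhds_iff).2 h4

/-- The points with positive radial coordinate. -/
theorem tendsto_iff {α : Type} {l : Filter α} {f : α → Cn o F q Θ} {z : Cn o F q Θ}
    (h : 0 < z.c) :
    Tendsto f l (𝓝 z) ↔ Tendsto (fun a => (f a).c) l (𝓝 z.c) ∧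
      Tendsto (fun a => (f a).x) l (𝓝 z.x) := by
  constructor
  · exact fun hf => ⟨(continuous_c.tendsto z).comp hf, (tendsto_x h).comp hf⟩
  · rintro ⟨h1, h2⟩
    rw [isEmbedding_emb.tendsto_nhds_iff]
    exact h1.prodMk_nhds (h1.smul (((isometry_kap o).continuous.tendsto _).comp h2))

/-- The cone point. -/
theorem tendsto_iff_zero (hsm : ∀ ε : ℝ, 0 < ε → ∃ δ : ℝ, 0 < δ ∧ ∀ z : Cn o F q Θ, z.c < δ →
      z.c * dist o z.x < ε) {α : Type} {l : Filter α} {f : α → Cn o F q Θ} {z : Cn o F q Θ}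
    (h : z.c = 0) :
    Tendsto f l (𝓝 z) ↔ Tendsto (fun a => (f a).c) l (𝓝 0) := by
  constructor
  · intro hf
    have := (continuous_c.tendsto z).comp hf
    rwa [h] at this
  · intro h1
    rw [isEmbedding_emb.tendsto_nhds_iff]
    have h2 : Tendsto (fun a => (f a).c • kap o (f a).x) l (𝓝 0) := by
      rw [Metric.tendsto_nhds]
      intro ε hε
      obtain ⟨δ, hδ, hδ'⟩ := hsm ε hε
      filter_upwards [h1.eventually_lt_const hδ] with a ha
      rw [dist_zero_right, norm_smul, norm_kap, Real.norm_eq_abs, abs_of_nonneg (c_nonneg _)]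
      exact hδ' _ ha
    have h3 : emb z = (0, 0) := by
      unfold emb
      rw [h, zero_smul]
    rw [h3]
    exact h1.prodMk_nhds h2

/-- The values `p (c, x) = [o, x] (c)` and similar points. -/
theorem tendsto_geo {geo : B → B → ℝ → B} (hb : Bicomb B geo)
    (hsm : ∀ ε : ℝ, 0 < ε → ∃ δ : ℝ, 0 < δ ∧ ∀ z : Cn o F q Θ, z.c < δ → z.c * dist o z.x < ε)
    {α : Type} {l : Filter α} {f : α → Cn o F q Θ} {z : Cn o F q Θ} {t : α → ℝ} {t₀ : ℝ}
    (hf : Tendsto f l (𝓝 z)) (ht : Tendsto t l (𝓝 t₀)) (ht0 : ∀ᶠ a in l, 0 ≤ t a)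
    (ht1 : ∀ᶠ a in l, (f a).c * t a ≤ 1) (h0 : 0 ≤ t₀) (h1 : z.c * t₀ ≤ 1) :
    Tendsto (fun a => geo o (f a).x ((f a).c * t a)) l (𝓝 (geo o z.x (z.c * t₀))) := by
  rcases z.c_nonneg.eq_or_lt with hc | hc
  · have h2 := (tendsto_iff_zero hsm hc.symm).1 hf
    rw [← hc, zero_mul, hb.zero, tendsto_iff_dist_tendsto_zero]
    have h3 : Tendsto (fun a => (f a).c * dist o (f a).x) l (𝓝 0) := by
      rw [Metric.tendsto_nhds]
      intro ε hε
      obtain ⟨δ, hδ, hδ'⟩ := hsm ε hε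
      filter_upwards [h2.eventually_lt_const hδ] with a ha
      rw [dist_zero_right, Real.norm_eq_abs,
        abs_of_nonneg (mul_nonneg (c_nonneg _) dist_nonneg)]
      exact hδ' _ ha
    have h4 := h3.mul ht
    rw [zero_mul] at h4
    refine squeeze_zero' (Eventually.of_forall fun _ => dist_nonneg) ?_ h4
    filter_upwards [ht0, ht1] with a ha0 ha1
    rw [dist_comm]
    refine (hb.dist_left _ _ (mul_nonneg (c_nonneg _) ha0) ha1).trans (le_of_eq (by ring))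
  · obtain ⟨h2, h3⟩ := (tendsto_iff hc).1 hf
    refine hb.tendsto tendsto_const_nhds h3 (h2.mul ht) ?_ ht1 (mul_nonneg hc.le h0) h1
    filter_upwards [ht0] with a ha0
    exact mul_nonneg (c_nonneg _) ha0

/-! ### Compactness -/

/-- The points near the cone point are near the base point. -/
def Small (o : B) (F : ℕ → B → ℝ) (q Θ : ℝ) : Prop :=
  ∀ ε : ℝ, 0 < ε → ∃ δ : ℝ, 0 < δ ∧ ∀ z : Cn o F q Θ, z.c < δ → z.c * dist o z.x < ε

theorem compactSpace (hsm : Small o F q Θ) (hF : ∀ j, Continuous (F j))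
    (hK : ∀ ε : ℝ, 0 < ε → ∃ K : Set B, IsCompact K ∧ ∀ z : Cn o F q Θ, ε ≤ z.c → z.x ∈ K) :
    CompactSpace (Cn o F q Θ) := by
  refine ⟨isCompact_iff_ultrafilter_le_nhds.2 fun 𝒰 _ => ?_⟩
  obtain ⟨c0, hc0, hc⟩ := isCompact_Icc.ultrafilter_le_nhds (𝒰.map (c : Cn o F q Θ → ℝ))
    (show (𝒰.map (c : Cn o F q Θ → ℝ) : Filter ℝ) ≤ 𝓟 (Icc 0 1) by
      rw [Ultrafilter.coe_map, Filter.le_principal_iff, Filter.mem_map]
      exact Filter.univ_mem' fun z => ⟨z.c_nonneg, z.c_le⟩)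
  have hc' : Tendsto (c : Cn o F q Θ → ℝ) 𝒰 (𝓝 c0) := hc
  rcases hc0.1.eq_or_lt with h0 | h0
  · refine ⟨vertex, mem_univ _, ?_⟩
    have := (tendsto_iff_zero hsm c_vertex (f := id) (l := (𝒰 : Filter (Cn o F q Θ)))).2
      (by rw [h0]; exact hc')
    exact this
  · obtain ⟨K, hKc, hK'⟩ := hK (c0 / 2) (half_pos h0)
    have hev : ∀ᶠ z : Cn o F q Θ in 𝒰, c0 / 2 ≤ z.c := by
      filter_upwards [hc'.eventually_const_lt (half_lt_self h0)] with z hz
      exact hz.le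
    obtain ⟨x0, hx0, hx⟩ := hKc.ultrafilter_le_nhds (𝒰.map (x : Cn o F q Θ → B))
      (show (𝒰.map (x : Cn o F q Θ → B) : Filter B) ≤ 𝓟 K by
        rw [Ultrafilter.coe_map, Filter.le_principal_iff, Filter.mem_map]
        filter_upwards [hev] with z hz
        exact hK' z hz)
    have hx' : Tendsto (x : Cn o F q Θ → B) 𝒰 (𝓝 x0) := hx
    have hval : Valid o F q Θ c0 x0 := by
      refine Or.inr ⟨h0, hc0.2, fun m => ?_⟩
      have h1 : Tendsto (fun z : Cn o F q Θ => z.c * ∑ j ∈ Finset.range m, q ^ j * F j z.x) 𝒰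
          (𝓝 (c0 * ∑ j ∈ Finset.range m, q ^ j * F j x0)) := by
        refine hc'.mul (tendsto_finsetSum _ fun j _ => ?_)
        exact tendsto_const_nhds.mul (((hF j).tendsto x0).comp hx')
      refine le_of_tendsto h1 ?_
      filter_upwards [hev] with z hz
      exact z.sum_le ((half_pos h0).trans_le hz) m
    refine ⟨⟨c0, x0, hval⟩, mem_univ _, ?_⟩
    have := (tendsto_iff (z := ⟨c0, x0, hval⟩) h0 (f := id)
      (l := (𝒰 : Filter (Cn o F q Θ)))).2 ⟨hc', hx'⟩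
    exact this

/-! ### Neighbourhoods -/

theorem nhds_zero (hsm : Small o F q Θ) {z : Cn o F q Θ} (h : z.c = 0) :
    𝓝 z = comap (c : Cn o F q Θ → ℝ) (𝓝 0) := by
  refine le_antisymm ?_ ?_
  · have := (continuous_c.tendsto z).le_comap
    rwa [h] at this
  · exact (tendsto_iff_zero hsm h (f := id)).2 tendsto_comap

theorem nhds_pos {z : Cn o F q Θ} (h : 0 < z.c) :
    𝓝 z = comap (c : Cn o F q Θ → ℝ) (𝓝 z.c) ⊓ comap (x : Cn o F q Θ → B) (𝓝 z.x) := by
  refine le_antisymm ?_ ?_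
  · exact le_inf (continuous_c.tendsto z).le_comap (tendsto_x h).le_comap
  · exact (tendsto_iff h (f := id)).2 ⟨tendsto_comap.mono_left inf_le_left,
      tendsto_comap.mono_left inf_le_right⟩

theorem mem_nhds_zero (hsm : Small o F q Θ) {z : Cn o F q Θ} (h : z.c = 0)
    {t : Set (Cn o F q Θ)} (ht : t ∈ 𝓝 z) : ∃ ε : ℝ, 0 < ε ∧ ∀ z' : Cn o F q Θ, z'.c < ε → z' ∈ t := by
  rw [nhds_zero hsm h, Filter.mem_comap] at ht
  obtain ⟨u, hu, hut⟩ := ht
  obtain ⟨ε, hε, hu⟩ := Metric.mem_nhds_iff.1 hu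
  refine ⟨ε, hε, fun z' hz' => hut (hu ?_)⟩
  rw [Metric.mem_ball, dist_zero_right, Real.norm_eq_abs, abs_of_nonneg z'.c_nonneg]
  exact hz'

theorem mem_nhds_pos {z : Cn o F q Θ} (h : 0 < z.c) {t : Set (Cn o F q Θ)} (ht : t ∈ 𝓝 z) :
    ∃ ε : ℝ, 0 < ε ∧ ∀ z' : Cn o F q Θ, |z'.c - z.c| < ε → dist z'.x z.x < ε → z' ∈ t := by
  rw [nhds_pos h, Filter.mem_inf_iff_superset] at ht
  obtain ⟨t1, ht1, t2, ht2, ht⟩ := ht
  obtain ⟨u, hu, hut⟩ := Filter.mem_comap.1 ht1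
  obtain ⟨v, hv, hvt⟩ := Filter.mem_comap.1 ht2
  obtain ⟨ε, hε, hu⟩ := Metric.mem_nhds_iff.1 hu
  obtain ⟨ε', hε', hv⟩ := Metric.mem_nhds_iff.1 hv
  refine ⟨min ε ε', lt_min hε hε', fun z' h1 h2 => ht ⟨hut (hu ?_), hvt (hv ?_)⟩⟩
  · rw [Metric.mem_ball, Real.dist_eq]
    exact h1.trans_le (min_le_left _ _)
  · exact h2.trans_le (min_le_right _ _)

/-! ### Contractibility -/

/-- A set which is contracted to a point by a homotopy in a larger space. -/
theorem contractibleSpace_of {X : Type} [TopologicalSpace X] (s : Set X) (x0 : X) (h0 : x0 ∈ s)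
    (H : s × unitInterval → X) (hH : Continuous H) (hs : ∀ p, H p ∈ s)
    (H0 : ∀ x, H (x, 0) = x) (H1 : ∀ x, H (x, 1) = x0) : ContractibleSpace s := by
  rw [contractible_iff_id_nullhomotopic]
  refine ⟨⟨x0, h0⟩, ⟨⟨⟨fun p => ⟨H (p.2, p.1), hs _⟩, ?_⟩, ?_, ?_⟩⟩⟩
  · exact (hH.comp continuous_swap).subtype_mk _
  · exact fun x => Subtype.ext (H0 x)
  · exact fun x => Subtype.ext (H1 x)

theorem tendsto_shr (hsm : Small o F q Θ) {α : Type} {l : Filter α} {f : α → Cn o F q Θ}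
    {z : Cn o F q Θ} {a : α → ℝ} {a₀ : ℝ} (hf : Tendsto f l (𝓝 z)) (ha : Tendsto a l (𝓝 a₀))
    (ha0 : ∀ᶠ i in l, 0 ≤ a i) (ha1 : ∀ᶠ i in l, a i ≤ 1) (h0 : 0 ≤ a₀) (h1 : a₀ ≤ 1) :
    Tendsto (fun i => shr (f i) (a i)) l (𝓝 (shr z a₀)) := by
  have hc : Tendsto (fun i => (f i).c * a i) l (𝓝 (z.c * a₀)) :=
    ((continuous_c.tendsto z).comp hf).mul ha
  have hc' : Tendsto (fun i => (shr (f i) (a i)).c) l (𝓝 (z.c * a₀)) := by
    refine hc.congr' ?_
    filter_upwards [ha0, ha1] with i h2 h3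
    rw [c_shr _ h2 h3]
  rcases (mul_nonneg z.c_nonneg h0).eq_or_lt with h | h
  · rw [tendsto_iff_zero hsm (by rw [c_shr z h0 h1, ← h])]
    rwa [← h] at hc'
  · have hz : 0 < z.c := by
      refine z.c_nonneg.lt_of_ne fun h' => ?_
      rw [← h', zero_mul] at h
      exact lt_irrefl _ h
    rw [tendsto_iff (by rw [c_shr z h0 h1]; exact h), c_shr z h0 h1, x_shr z h h1]
    refine ⟨hc', ?_⟩
    refine ((tendsto_x hz).comp hf).congr' ?_
    filter_upwards [hc.eventually_const_lt h, ha1] with i h2 h3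
    rw [x_shr _ h2 h3]
    rfl

theorem contractibleSpace (hsm : Small o F q Θ) : ContractibleSpace (Cn o F q Θ) := by
  have h : ContractibleSpace (univ : Set (Cn o F q Θ)) := by
    refine contractibleSpace_of univ vertex (mem_univ _) (fun p => shr p.1.1 (1 - p.2.1)) ?_
      (fun _ => mem_univ _) (fun x => ?_) (fun x => ?_)
    · rw [continuous_iff_continuousAt]
      rintro ⟨z, t⟩
      refine tendsto_shr hsm ?_ ?_ (Eventually.of_forall fun p => ?_)
        (Eventually.of_forall fun p => ?_) ?_ ?_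
      · exact (continuous_subtype_val.comp continuous_fst).tendsto _
      · exact (continuous_const.sub (continuous_subtype_val.comp continuous_snd)).tendsto _
      · exact sub_nonneg.2 p.2.2.2
      · exact sub_le_self _ p.2.2.1
      · exact sub_nonneg.2 t.2.2
      · exact sub_le_self _ t.2.1
    · show shr x.1 (1 - 0) = x.1
      rw [sub_zero, shr_one]
    · show shr x.1 (1 - 1) = vertex
      rw [sub_self, shr_zero]
  exact (Homeomorph.Set.univ (Cn o F q Θ)).contractibleSpace_iff.1 h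

/-- The contraction of a set of points near the cone point. -/
theorem contractible_lt (hsm : Small o F q Θ) {ε : ℝ} (hε : 0 < ε) :
    ContractibleSpace {z : Cn o F q Θ | z.c < ε} := by
  refine contractibleSpace_of _ vertex ?_ (fun p => shr p.1.1 (1 - p.2.1)) ?_
    (fun p => ?_) (fun x => ?_) (fun x => ?_)
  · show (vertex : Cn o F q Θ).c < ε
    rw [c_vertex]
    exact hε
  · rw [continuous_iff_continuousAt]
    rintro ⟨z, t⟩
    refine tendsto_shr hsm ?_ ?_ (Eventually.of_forall fun p => ?_)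
      (Eventually.of_forall fun p => ?_) ?_ ?_
    · exact (continuous_subtype_val.comp continuous_fst).tendsto _
    · exact (continuous_const.sub (continuous_subtype_val.comp continuous_snd)).tendsto _
    · exact sub_nonneg.2 p.2.2.2
    · exact sub_le_self _ p.2.2.1
    · exact sub_nonneg.2 t.2.2
    · exact sub_le_self _ t.2.1
  · show (shr p.1.1 (1 - p.2.1)).c < ε
    rw [c_shr _ (sub_nonneg.2 p.2.2.2) (sub_le_self _ p.2.2.1)]
    refine lt_of_le_of_lt ?_ p.1.2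
    exact mul_le_of_le_one_right (c_nonneg _) (sub_le_self _ p.2.2.1)
  · show shr x.1 (1 - 0) = x.1
    rw [sub_zero, shr_one]
  · show shr x.1 (1 - 1) = vertex
    rw [sub_self, shr_zero]

/-- The inverse radial coordinate of the contraction to `z₀`. -/
theorem inv_bounds {a b t : ℝ} (ha : 0 < a) (ha1 : a ≤ 1) (hb : 0 < b) (hb1 : b ≤ 1) (h0 : 0 ≤ t)
    (h1 : t ≤ 1) : 0 < (t * a⁻¹ + (1 - t) * b⁻¹)⁻¹ ∧ (t * a⁻¹ + (1 - t) * b⁻¹)⁻¹ ≤ 1 := by
  have h2 : 1 ≤ a⁻¹ := (one_le_inv₀ ha).2 ha1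
  have h3 : 1 ≤ b⁻¹ := (one_le_inv₀ hb).2 hb1
  have h4 : 1 ≤ t * a⁻¹ + (1 - t) * b⁻¹ := by nlinarith
  exact ⟨inv_pos.2 (zero_lt_one.trans_le h4), inv_le_one_of_one_le₀ h4⟩

/-- The points near a point with positive radial coordinate. -/
theorem contractible_near {geo : B → B → ℝ → B} (hb : Bicomb B geo) (hq : 0 ≤ q)
    (z₀ : Cn o F q Θ) (h₀ : 0 < z₀.c)
    {r : ℝ} (hloc : ∀ y, dist z₀.x y < r → ∀ m t, 0 ≤ t → t ≤ 1 →
      F m (geo z₀.x y t) ≤ (1 - t) * F m z₀.x + t * F m y) {ε ρ : ℝ} (hε : 0 < ε) (hρ : 0 < ρ)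
    (hρr : ρ ≤ r) :
    ContractibleSpace {z : Cn o F q Θ | 0 < z.c ∧ |z.c⁻¹ - z₀.c⁻¹| < ε ∧ dist z₀.x z.x < ρ} := by
  have hval : ∀ z : Cn o F q Θ, 0 < z.c → dist z₀.x z.x < ρ → ∀ t : ℝ, 0 ≤ t → t ≤ 1 →
      Valid o F q Θ (t * z.c⁻¹ + (1 - t) * z₀.c⁻¹)⁻¹ (geo z₀.x z.x t) := by
    intro z hz hd t ht0 ht1
    obtain ⟨h1, h2⟩ := inv_bounds hz z.c_le h₀ z₀.c_le ht0 ht1
    refine Or.inr ⟨h1, h2, fun m => ?_⟩
    rw [inv_mul_le_iff₀ (inv_pos.1 h1)]
    have h3 : ∑ j ∈ Finset.range m, q ^ j * F j (geo z₀.x z.x t) ≤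
        (1 - t) * ∑ j ∈ Finset.range m, q ^ j * F j z₀.x +
          t * ∑ j ∈ Finset.range m, q ^ j * F j z.x := by
      rw [Finset.mul_sum, Finset.mul_sum, ← Finset.sum_add_distrib]
      refine Finset.sum_le_sum fun j _ => ?_
      have := mul_le_mul_of_nonneg_left (hloc z.x (hd.trans_le hρr) j t ht0 ht1)
        (pow_nonneg hq j)
      linarith
    have h4 : ∑ j ∈ Finset.range m, q ^ j * F j z₀.x ≤ z₀.c⁻¹ * Θ := by
      rw [← div_eq_inv_mul, le_div_iff₀' h₀]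
      exact z₀.sum_le h₀ m
    have h5 : ∑ j ∈ Finset.range m, q ^ j * F j z.x ≤ z.c⁻¹ * Θ := by
      rw [← div_eq_inv_mul, le_div_iff₀' hz]
      exact z.sum_le hz m
    have h6 := mul_le_mul_of_nonneg_left h4 (sub_nonneg.2 ht1)
    have h7 := mul_le_mul_of_nonneg_left h5 ht0
    have h8 : (t * z.c⁻¹ + (1 - t) * z₀.c⁻¹) * Θ = (1 - t) * (z₀.c⁻¹ * Θ) + t * (z.c⁻¹ * Θ) := by
      ring
    rw [h8]
    linarith
  refine contractibleSpace_of _ z₀ ?_
    (fun p => pt ((1 - p.2.1) * p.1.1.c⁻¹ + (1 - (1 - p.2.1)) * z₀.c⁻¹)⁻¹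
      (geo z₀.x p.1.1.x (1 - p.2.1))) ?_ (fun p => ?_) (fun p => ?_) (fun p => ?_)
  · refine ⟨h₀, ?_, ?_⟩
    · rw [sub_self, abs_zero]; exact hε
    · rw [dist_self]; exact hρ
  · rw [continuous_iff_continuousAt]
    rintro ⟨⟨z, hz, hz1, hz2⟩, t⟩
    have h0 : 0 ≤ 1 - t.1 := sub_nonneg.2 t.2.2
    have h1 : 1 - t.1 ≤ 1 := sub_le_self _ t.2.1
    have hv := hval z hz hz2 (1 - t.1) h0 h1
    refine (tendsto_iff ?_).2 ⟨?_, ?_⟩
    · rw [c_pt hv]
      exact (inv_bounds hz z.c_le h₀ z₀.c_le h0 h1).1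
    · rw [c_pt hv]
      have h2 : ContinuousAt (fun p : {z : Cn o F q Θ | 0 < z.c ∧ |z.c⁻¹ - z₀.c⁻¹| < ε ∧
          dist z₀.x z.x < ρ} × unitInterval =>
          ((1 - p.2.1) * p.1.1.c⁻¹ + (1 - (1 - p.2.1)) * z₀.c⁻¹)⁻¹) (⟨z, hz, hz1, hz2⟩, t) := by
        have h3 : ContinuousAt (fun p : {z : Cn o F q Θ | 0 < z.c ∧ |z.c⁻¹ - z₀.c⁻¹| < ε ∧
          dist z₀.x z.x < ρ} × unitInterval => p.2.1) (⟨z, hz, hz1, hz2⟩, t) :=
          (continuous_subtype_val.comp continuous_snd).continuousAt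
        have h4 : ContinuousAt (fun p : {z : Cn o F q Θ | 0 < z.c ∧ |z.c⁻¹ - z₀.c⁻¹| < ε ∧
          dist z₀.x z.x < ρ} × unitInterval => p.1.1.c) (⟨z, hz, hz1, hz2⟩, t) :=
          (continuous_c.comp (continuous_subtype_val.comp continuous_fst)).continuousAt
        refine (((continuousAt_const.sub h3).mul (h4.inv₀ hz.ne')).add
          ((continuousAt_const.sub (continuousAt_const.sub h3)).mul continuousAt_const)).inv₀ ?_
        exact (inv_pos.1 (inv_bounds hz z.c_le h₀ z₀.c_le h0 h1).1).ne'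
      refine h2.tendsto.congr fun p => ?_
      rw [c_pt (hval p.1.1 p.1.2.1 p.1.2.2.2 (1 - p.2.1) (sub_nonneg.2 p.2.2.2)
        (sub_le_self _ p.2.2.1))]
    · rw [x_pt hv]
      have h2 : Tendsto (fun p : {z : Cn o F q Θ | 0 < z.c ∧ |z.c⁻¹ - z₀.c⁻¹| < ε ∧
          dist z₀.x z.x < ρ} × unitInterval => geo z₀.x p.1.1.x (1 - p.2.1))
          (𝓝 (⟨z, hz, hz1, hz2⟩, t)) (𝓝 (geo z₀.x z.x (1 - t.1))) := by
        refine hb.tendsto tendsto_const_nhds ?_ ?_ (Eventually.of_forall fun p => ?_)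
          (Eventually.of_forall fun p => ?_) h0 h1
        · exact (tendsto_x hz).comp
            ((continuous_subtype_val.comp continuous_fst).tendsto (⟨z, hz, hz1, hz2⟩, t))
        · exact (continuous_const.sub (continuous_subtype_val.comp continuous_snd)).tendsto _
        · exact sub_nonneg.2 p.2.2.2
        · exact sub_le_self _ p.2.2.1
      refine h2.congr fun p => ?_
      rw [x_pt (hval p.1.1 p.1.2.1 p.1.2.2.2 (1 - p.2.1) (sub_nonneg.2 p.2.2.2)
        (sub_le_self _ p.2.2.1))]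
  · obtain ⟨⟨z, hz, hz1, hz2⟩, t⟩ := p
    have h0 : 0 ≤ 1 - t.1 := sub_nonneg.2 t.2.2
    have h1 : 1 - t.1 ≤ 1 := sub_le_self _ t.2.1
    have hv := hval z hz hz2 (1 - t.1) h0 h1
    show 0 < (pt _ _ : Cn o F q Θ).c ∧ |(pt _ _ : Cn o F q Θ).c⁻¹ - z₀.c⁻¹| < ε ∧
      dist z₀.x (pt _ _ : Cn o F q Θ).x < ρ
    rw [c_pt hv, x_pt hv, inv_inv]
    refine ⟨(inv_bounds hz z.c_le h₀ z₀.c_le h0 h1).1, ?_, ?_⟩
    · have h2 : (1 - t.1) * z.c⁻¹ + (1 - (1 - t.1)) * z₀.c⁻¹ - z₀.c⁻¹ =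
          (1 - t.1) * (z.c⁻¹ - z₀.c⁻¹) := by ring
      rw [h2, abs_mul, abs_of_nonneg h0]
      exact (mul_le_of_le_one_left (abs_nonneg _) h1).trans_lt hz1
    · exact ((hb.dist_left _ _ h0 h1).trans (mul_le_of_le_one_left dist_nonneg h1)).trans_lt hz2
  · obtain ⟨z, hz, hz1, hz2⟩ := p
    show pt ((1 - (0 : ℝ)) * z.c⁻¹ + (1 - (1 - (0 : ℝ))) * z₀.c⁻¹)⁻¹
      (geo z₀.x z.x (1 - (0 : ℝ))) = z
    rw [sub_zero, sub_self, zero_mul, add_zero, one_mul, inv_inv, hb.one, pt_self]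
  · obtain ⟨z, hz, hz1, hz2⟩ := p
    show pt ((1 - (1 : ℝ)) * z.c⁻¹ + (1 - (1 - (1 : ℝ))) * z₀.c⁻¹)⁻¹
      (geo z₀.x z.x (1 - (1 : ℝ))) = z₀
    rw [sub_self, sub_zero, zero_mul, zero_add, one_mul, inv_inv, hb.zero, pt_self]

theorem stronglyLocallyContractible (hsm : Small o F q Θ) {geo : B → B → ℝ → B}
    (hb : Bicomb B geo) (hq : 0 ≤ q)
    (hloc : ∀ x, ∃ r : ℝ, 0 < r ∧ ∀ y, dist x y < r → ∀ m t, 0 ≤ t → t ≤ 1 →
      F m (geo x y t) ≤ (1 - t) * F m x + t * F m y) :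
    StronglyLocallyContractibleSpace (Cn o F q Θ) := by
  refine ⟨fun z => hasBasis_self.2 fun t ht => ?_⟩
  rcases z.c_nonneg.eq_or_lt with h | h
  · obtain ⟨ε, hε, hεt⟩ := mem_nhds_zero hsm h.symm ht
    refine ⟨{z' | z'.c < ε}, ?_, contractible_lt hsm hε, hεt⟩
    exact (isOpen_lt continuous_c continuous_const).mem_nhds (show z.c < ε from h ▸ hε)
  · obtain ⟨ε, hε, hεt⟩ := mem_nhds_pos h ht
    obtain ⟨r, hr, hr'⟩ := hloc z.x
    -- a bound for the inverse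
    have hinv : ∃ ε' : ℝ, 0 < ε' ∧ ∀ c' : ℝ, 0 < c' → |c'⁻¹ - z.c⁻¹| < ε' → |c' - z.c| < ε := by
      have h1 : Tendsto (fun a : ℝ => a⁻¹) (𝓝 z.c⁻¹) (𝓝 z.c) := by
        have := tendsto_inv₀ (inv_ne_zero h.ne')
        rwa [inv_inv] at this
      obtain ⟨ε', hε', h2⟩ := Metric.tendsto_nhds_nhds.1 h1 ε hε
      refine ⟨ε', hε', fun c' hc' h3 => ?_⟩
      have h4 := h2 (x := c'⁻¹) (by rw [Real.dist_eq]; exact h3)
      rwa [inv_inv, Real.dist_eq] at h4
    obtain ⟨ε', hε', hinv⟩ := hinv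
    refine ⟨_, ?_, contractible_near hb hq z h hr' hε' (lt_min hε hr) (min_le_right ε r), ?_⟩
    · have h1 := continuous_c.tendsto z
      have h2 := tendsto_x h
      have h3 := (h1.inv₀ h.ne')
      filter_upwards [h1.eventually_const_lt h, h3.eventually (Metric.ball_mem_nhds _ hε'),
        h2.eventually (Metric.ball_mem_nhds _ (lt_min hε hr))] with z' h4 h5 h6
      refine ⟨h4, ?_, ?_⟩
      · rw [← Real.dist_eq]
        exact h5
      · rw [dist_comm]
        exact h6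
    · rintro z' ⟨h1, h2, h3⟩
      refine hεt z' (hinv _ h1 h2) ?_
      rw [dist_comm]
      exact h3.trans_le (min_le_left _ _)

/-! ### Dimension -/

theorem encard_floor (r : ℝ) : {k : ℤ | |r - k| < 1}.encard ≤ 2 := by
  have h : {k : ℤ | |r - k| < 1} ⊆ {⌊r⌋, ⌊r⌋ + 1} := by
    intro k hk
    have hk' : |r - k| < 1 := hk
    rw [abs_lt] at hk'
    have h1 : ⌊r⌋ ≤ k := by
      rw [← Int.lt_add_one_iff, Int.floor_lt]
      push_cast
      linarith
    have h2 : k ≤ ⌊r⌋ + 1 := by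
      rw [← sub_le_iff_le_add, Int.le_floor]
      push_cast
      linarith
    rcases h1.eq_or_lt with h3 | h3
    · exact Or.inl h3.symm
    · exact Or.inr (le_antisymm h2 h3)
  refine (Set.encard_le_encard h).trans ((Set.encard_insert_le _ _).trans ?_)
  rw [Set.encard_singleton]
  norm_num

/-- A Lebesgue number in the coordinates `(c, x)`. -/
theorem exists_lebesgue [CompactSpace (Cn o F q Θ)] {ι : Type} (O : ι → Set (Cn o F q Θ))
    (hO : ∀ i, IsOpen (O i)) (hU : (⋃ i, O i) = univ) {ε : ℝ} (hε : 0 < ε) :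
    ∃ ρ : ℝ, 0 < ρ ∧ ∀ z : Cn o F q Θ, ε ≤ z.c → ∃ i, ∀ z' : Cn o F q Θ, |z'.c - z.c| < ρ →
      dist z'.x z.x < ρ → z' ∈ O i := by
  have hK : IsCompact {z : Cn o F q Θ | ε ≤ z.c} :=
    (isClosed_le continuous_const continuous_c).isCompact
  refine hK.induction_on (p := fun s => ∃ ρ : ℝ, 0 < ρ ∧ ∀ z ∈ s, ∃ i, ∀ z' : Cn o F q Θ,
    |z'.c - z.c| < ρ → dist z'.x z.x < ρ → z' ∈ O i) ?_ ?_ ?_ ?_
  · exact ⟨1, one_pos, fun z hz => absurd hz (Set.notMem_empty z)⟩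
  · rintro s t hst ⟨ρ, hρ, h⟩
    exact ⟨ρ, hρ, fun z hz => h z (hst hz)⟩
  · rintro s t ⟨ρ, hρ, h⟩ ⟨ρ', hρ', h'⟩
    refine ⟨min ρ ρ', lt_min hρ hρ', ?_⟩
    rintro z (hz | hz)
    · obtain ⟨i, hi⟩ := h z hz
      exact ⟨i, fun z' h1 h2 => hi z' (h1.trans_le (min_le_left _ _))
        (h2.trans_le (min_le_left _ _))⟩
    · obtain ⟨i, hi⟩ := h' z hz
      exact ⟨i, fun z' h1 h2 => hi z' (h1.trans_le (min_le_right _ _))
        (h2.trans_le (min_le_right _ _))⟩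
  · intro z hz
    have hz0 : 0 < z.c := hε.trans_le hz
    obtain ⟨i, hi⟩ := mem_iUnion.1 ((hU ▸ mem_univ z : z ∈ ⋃ i, O i))
    obtain ⟨ρ, hρ, h⟩ := mem_nhds_pos hz0 ((hO i).mem_nhds hi)
    refine ⟨{z' | |z'.c - z.c| < ρ / 2 ∧ dist z'.x z.x < ρ / 2}, ?_, ρ / 2, half_pos hρ, ?_⟩
    · refine mem_nhdsWithin_of_mem_nhds ?_
      have h1 := continuous_c.tendsto z
      have h2 := tendsto_x hz0
      filter_upwards [h1.eventually (Metric.ball_mem_nhds _ (half_pos hρ)),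
        h2.eventually (Metric.ball_mem_nhds _ (half_pos hρ))] with z' h4 h5
      refine ⟨?_, h5⟩
      rw [← Real.dist_eq]
      exact h4
    · rintro z' ⟨h1, h2⟩
      refine ⟨i, fun z'' h3 h4 => h z'' ?_ ?_⟩
      · have h5 : z''.c - z.c = (z''.c - z'.c) + (z'.c - z.c) := by ring
        rw [h5]
        refine (abs_add_le _ _).trans_lt ?_
        linarith
      · refine (dist_triangle _ z'.x _).trans_lt ?_
        linarith

theorem covDimLE [CompactSpace (Cn o F q Θ)] (hsm : Small o F q Θ) {n : ℕ}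
    (hcov : SmallCovers B n) : CovDimLE (Cn o F q Θ) (2 * n + 2) := by
  intro ι O hO hU
  obtain ⟨i₀, hi₀⟩ := mem_iUnion.1 ((hU ▸ mem_univ _ : (vertex : Cn o F q Θ) ∈ ⋃ i, O i))
  obtain ⟨ε, hε, hεO⟩ := mem_nhds_zero hsm c_vertex ((hO i₀).mem_nhds hi₀)
  obtain ⟨ρ, hρ, hleb⟩ := exists_lebesgue O hO hU (half_pos hε)
  obtain ⟨κ, U, hUo, hUu, hUd, hUm⟩ := hcov ρ hρ
  let W : Option (ℤ × κ) → Set (Cn o F q Θ)
    | none => {z | z.c < ε}
    | some j => {z | ε / 2 < z.c ∧ |z.c / (ρ / 2) - j.1| < 1 ∧ z.x ∈ U j.2}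
  refine ⟨Option (ℤ × κ), W, ?_, ?_, ?_, ?_⟩
  · rintro (_ | ⟨k, j⟩)
    · exact isOpen_lt continuous_c continuous_const
    · rw [isOpen_iff_mem_nhds]
      rintro z ⟨h1, h2, h3⟩
      have h4 := continuous_c.tendsto z
      have h5 := tendsto_x ((half_pos hε).trans h1)
      have h6 : Tendsto (fun z' : Cn o F q Θ => |z'.c / (ρ / 2) - k|) (𝓝 z)
          (𝓝 |z.c / (ρ / 2) - k|) := ((h4.div_const _).sub_const _).abs
      filter_upwards [h4.eventually_const_lt h1, h6.eventually_lt_const h2,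
        h5.eventually ((hUo j).mem_nhds h3)] with z' h7 h8 h9
      exact ⟨h7, h8, h9⟩
  · refine eq_univ_of_forall fun z => ?_
    rcases lt_or_ge z.c ε with h | h
    · exact mem_iUnion.2 ⟨none, h⟩
    · obtain ⟨j, hj⟩ := mem_iUnion.1 ((hUu ▸ mem_univ z.x : z.x ∈ ⋃ j, U j))
      refine mem_iUnion.2 ⟨some (⌊z.c / (ρ / 2)⌋, j), (half_lt_self hε).trans_le h, ?_, hj⟩
      rw [abs_of_nonneg (sub_nonneg.2 (Int.floor_le _))]
      have := Int.lt_floor_add_one (z.c / (ρ / 2))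
      linarith
  · rintro (_ | ⟨k, j⟩)
    · exact ⟨i₀, hεO⟩
    · rcases (W (some (k, j))).eq_empty_or_nonempty with h | ⟨z, h1, h2, h3⟩
      · exact ⟨i₀, h ▸ empty_subset _⟩
      · obtain ⟨i, hi⟩ := hleb z h1.le
        refine ⟨i, ?_⟩
        rintro z' ⟨h4, h5, h6⟩
        refine hi z' ?_ (hUd j _ h6 _ h3)
        have h7 : (z'.c - z.c) / (ρ / 2) = (z'.c / (ρ / 2) - k) - (z.c / (ρ / 2) - k) := by ring
        have h8 : |(z'.c - z.c) / (ρ / 2)| < 2 := by
          rw [h7]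
          refine (abs_sub _ _).trans_lt ?_
          have h2' : |z.c / (ρ / 2) - k| < 1 := h2
          have h5' : |z'.c / (ρ / 2) - k| < 1 := h5
          linarith
        rw [abs_div, abs_of_pos (half_pos hρ), div_lt_iff₀ (half_pos hρ)] at h8
        linarith
  · intro z
    have hsub : {j | z ∈ W j} ⊆ {none} ∪
        some '' ({k : ℤ | |z.c / (ρ / 2) - k| < 1} ×ˢ {j | z.x ∈ U j}) := by
      rintro (_ | ⟨k, j⟩) h
      · exact Or.inl rfl
      · exact Or.inr ⟨(k, j), ⟨h.2.1, h.2.2⟩, rfl⟩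
    refine (Set.encard_le_encard hsub).trans ((Set.encard_union_le _ _).trans ?_)
    rw [Set.encard_singleton, (Option.some_injective _).encard_image, Set.encard_prod]
    have h1 : {k : ℤ | |z.c / (ρ / 2) - k| < 1}.encard * {j | z.x ∈ U j}.encard ≤
        2 * ((n : ℕ∞) + 1) := mul_le_mul' (encard_floor _) (hUm _)
    refine (add_le_add le_rfl h1).trans (le_of_eq ?_)
    push_cast
    ring

end Cn

end Pool.Agent.GLN
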