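import Pool.Agent.Lib.MP_98022b_gln.TrackBasic
import Pool.Agent.Lib.MP_98022b_gln.Bad

/-!
# Row E6: persistent clocks are dense

Otherwise every `s` outside of the clusters has clock `< c` or `≥ c + M`. Let `x` be the supremum of
the times in `[H + 1, 3 * H - 1]` outside of the clusters with clock `< c`; there are times
`s' ≤ x < s''` outside of the clusters with clocks `< c` and `≥ c + M`, and
`s'' - s' ≤ 2 * δ ≤ 1`, but `κ s'' - κ s' ≤ M` (`IsTrack.upper`). (Near `2 * H - |c| - 2` the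
clock is `< c`, near `2 * H + |c| + M + 2` it is `≥ c + M`, by `IsTrack.lower`.)
-/

set_option autoImplicit false

open Set Filter Topology

namespace Pool.Agent.TR

variable {V : Type}

theorem dens {dl : V → V → ℤ} {M : ℕ} {H δ : ℝ} {u : ℝ → V} {κ : ℝ → ℤ} {E : Set ℝ}
    (hM : 1 ≤ M) (hH : 8 * (M + 4) ≤ H) (hδ : 0 < δ) (hδ1 : δ ≤ 1 / 100)
    (hu : IsTrack dl M (5 * H) u κ) (hE : IsEvents H δ u E) {c : ℤ} (hc : |(c : ℝ)| ≤ H / 2) :
    ∃ j : ℕ, j < M ∧ ∃ p, Pers dl u H δ (c + j) p := by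
  by_contra hcon
  push Not at hcon
  have hM' : (1 : ℝ) ≤ M := by exact_mod_cast hM
  have hc0 : 0 ≤ |(c : ℝ)| := abs_nonneg _
  have hc1 : (c : ℝ) ≤ |(c : ℝ)| := le_abs_self _
  have hc2 : -|(c : ℝ)| ≤ (c : ℝ) := neg_abs_le _
  have h2H : (2 * H) ∈ Icc 0 (5 * H) := ⟨by linarith, by linarith⟩
  have hcases : ∀ s ∈ Icc (H + 1) (3 * H - 1), ¬ InHull δ E s →
      κ s - κ (2 * H) < c ∨ c + M ≤ κ s - κ (2 * H) := by
    intro s hs hb
    have hp := pers_of_not_hull hδ hδ1 hu hE hs hb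
    by_contra h
    push Not at h
    obtain ⟨j, hj⟩ := Int.eq_ofNat_of_zero_le (show 0 ≤ κ s - κ (2 * H) - c by omega)
    have hj2 : κ s - κ (2 * H) = c + j := by omega
    rw [hj2] at hp
    exact hcon j (by omega) (u s) hp
  -- a time with small clock
  have hlow : ∃ s ∈ Icc (H + 1) (3 * H - 1), ¬ InHull δ E s ∧ κ s - κ (2 * H) < c := by
    have key : ∀ s, 2 * H - |(c : ℝ)| - 2 ≤ s → s ≤ 2 * H - |(c : ℝ)| - 2 + 3 / 2 * δ →
        s ∈ Icc (H + 1) (3 * H - 1) ∧ κ s - κ (2 * H) < c := by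
      intro s h1 h2
      refine ⟨⟨by linarith, by linarith⟩, ?_⟩
      have h3 := hu.lower s ⟨by linarith, by linarith⟩ (2 * H) h2H (by linarith)
      have h4 : ((κ s - κ (2 * H) : ℤ) : ℝ) < c := by push_cast; linarith
      exact_mod_cast h4
    rcases exists_not_hull hδ hδ1 hE (j := 2 * H - |(c : ℝ)| - 2) ⟨by linarith, by linarith⟩
      with h | h
    · obtain ⟨h1, h2⟩ := key _ le_rfl (by linarith)
      exact ⟨_, h1, h, h2⟩
    · obtain ⟨h1, h2⟩ := key _ (by linarith) le_rfl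
      exact ⟨_, h1, h, h2⟩
  set S : Set ℝ := {s | s ∈ Icc (H + 1) (3 * H - 1) ∧ ¬ InHull δ E s ∧ κ s - κ (2 * H) < c}
    with hSdef
  obtain ⟨s0, hs0, hs0', hs0''⟩ := hlow
  have hSne : S.Nonempty := ⟨s0, hs0, hs0', hs0''⟩
  -- times in `S` are smaller than `t1`
  have hSup : ∀ s ∈ S, s ≤ 2 * H + |(c : ℝ)| + 1 := by
    rintro s ⟨hs1, _, hs3⟩
    by_contra hlt
    push Not at hlt
    have h3 := hu.lower (2 * H) h2H s ⟨by linarith [hs1.1], by linarith [hs1.2]⟩ (by linarith)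
    have h4 : ((κ s - κ (2 * H) : ℤ) : ℝ) < c := by exact_mod_cast hs3
    push_cast at h4
    linarith
  have hbdd : BddAbove S := ⟨_, fun s hs => hSup s hs⟩
  have hx1 : sSup S ≤ 2 * H + |(c : ℝ)| + 1 := csSup_le hSne hSup
  have hx0 : s0 ≤ sSup S := le_csSup hbdd ⟨hs0, hs0', hs0''⟩
  obtain ⟨s', hs'S, hs'⟩ := exists_lt_of_lt_csSup hSne (show sSup S - δ / 10 < sSup S by linarith)
  have hs'x : s' ≤ sSup S := le_csSup hbdd hs'S
  obtain ⟨hs'1, hs'2, hs'3⟩ := hs'S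
  have key2 : ∀ s, sSup S + δ / 10 ≤ s → s ≤ sSup S + δ / 10 + 3 / 2 * δ → ¬ InHull δ E s →
      False := by
    intro s h1 h2 hb
    have hs1 : s ∈ Icc (H + 1) (3 * H - 1) := ⟨by linarith [hs0.1], by linarith⟩
    have hnS : ¬ κ s - κ (2 * H) < c := by
      intro h
      have := le_csSup hbdd (show s ∈ S from ⟨hs1, hb, h⟩)
      linarith
    have h3 : c + M ≤ κ s - κ (2 * H) := (hcases s hs1 hb).resolve_left hnS
    have h4 := hu.upper s' ⟨by linarith [hs'1.1], by linarith [hs'1.2]⟩ s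
      ⟨by linarith [hs1.1], by linarith [hs1.2]⟩ (by linarith)
    have h5 : ⌈s - s'⌉ ≤ 1 := by
      rw [Int.ceil_le]
      push_cast
      linarith
    have h6 : (M : ℤ) * ⌈s - s'⌉ ≤ M * 1 :=
      mul_le_mul_of_nonneg_left h5 (Int.natCast_nonneg M)
    have h7 : κ s - κ s' ≤ M * ⌈s - s'⌉ := by exact_mod_cast h4
    omega
  rcases exists_not_hull hδ hδ1 hE (j := sSup S + δ / 10)
    ⟨by linarith [hs0.1], by linarith⟩ with h | h
  · exact key2 _ le_rfl (by linarith) h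
  · exact key2 _ (by linarith) le_rfl h

end Pool.Agent.TR
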