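import Pool.Agent.Lib.MP_98022b_gln.Gram

/-!
# Matrices which move two far norms by a bounded distance generate a proper subalgebra

At each place `i` let `b i` be a common basis of two norms with the values `α i`, `α' i` on it and the
same volume. If the matrices of `Z` move both norms by at most `R` at each place, and the norms are
far away from each other at one place, then `Z` does not generate the algebra of all matrices.
-/

set_option autoImplicit false

open scoped WithZero

namespace Pool.Agent.GLN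

theorem exists_far {E F : Type} [Field E] [Field F] [Algebra E F] {I : Type}
    (v : I → Valuation E ℤᵐ⁰) (A : Subring E)
    (hA : ∀ R : ℕ, ∃ C : ℕ, ∀ x ∈ A, x ≠ 0 → (∀ i, v i x ≤ WithZero.exp (R : ℤ)) →
      ∀ i, WithZero.exp (-(C : ℤ)) ≤ v i x) (n : ℕ) (R : ℝ) :
    ∃ L : ℝ, ∀ Z : Set (Matrix (Fin n) (Fin n) E), (∀ M ∈ Z, ∀ k l, M k l ∈ A) →
      ∀ (b : I → GL (Fin n) E) (α α' : I → Fin n → ℝ), (∀ i, ∑ k, α i k = ∑ k, α' i k) →
      (∀ i, ∀ M ∈ Z, ∀ k l, OB (v i) (α i l - α i k - R) (((b i)⁻¹.1 * M * (b i).1) k l) ∧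
        OB (v i) (α' i l - α' i k - R) (((b i)⁻¹.1 * M * (b i).1) k l)) →
      (∃ i k, L ≤ |α' i k - α i k|) →
      Algebra.adjoin F ((algebraMap E F).mapMatrix '' Z) ≠ ⊤ := by
  classical
  set T : ℝ := (n : ℝ) ^ 2 * |R| with hT
  have hT0 : 0 ≤ T := by positivity
  obtain ⟨C, hC⟩ := hA ⌈2 * (n : ℝ) ^ 2 * T⌉₊
  refine ⟨C + 2 * (n : ℝ) ^ 2 * T + 1, ?_⟩
  rintro Z hZA b α α' hvol hZ ⟨i₀, k₀, hfar⟩ htop
  obtain ⟨l, hl1, hl2, hl3⟩ := exists_words _ htop
  -- lift the words
  have hlift : ∀ p, ∃ l' : List (Matrix (Fin n) (Fin n) E), (∀ M ∈ l', M ∈ Z) ∧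
      l p = l'.map (algebraMap E F).mapMatrix := by
    intro p
    have hp : ∀ M ∈ l p, ∃ N ∈ Z, (algebraMap E F).mapMatrix N = M := fun M hM => hl2 p M hM
    clear hl1 hl3
    generalize l p = q at hp
    induction q with
    | nil => exact ⟨[], by simp, rfl⟩
    | cons M q ih =>
      obtain ⟨l', h1, h2⟩ := ih fun N hN => hp N (List.mem_cons_of_mem _ hN)
      obtain ⟨N, hN, hNM⟩ := hp M List.mem_cons_self
      refine ⟨N :: l', ?_, ?_⟩
      · intro N' hN'
        rcases List.mem_cons.1 hN' with rfl | h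
        · exact hN
        · exact h1 N' h
      · rw [List.map_cons, hNM, h2]
  choose w hw1 hw2 using hlift
  set a : Fin n × Fin n → Matrix (Fin n) (Fin n) E := fun p => (w p).prod with ha
  have hlen : ∀ p, (w p).length ≤ n ^ 2 := by
    intro p
    have := hl1 p
    rwa [hw2 p, List.length_map] at this
  have hmap : ∀ p, (a p).map (algebraMap E F) = (l p).prod := by
    intro p
    rw [hw2 p, ← map_list_prod]
    rfl
  have hD : gram a ≠ 0 := by
    intro h0
    refine gram_ne_zero _ hl3 ?_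
    have h1 := gram_map (algebraMap E F) a
    rw [h0, map_zero] at h1
    rw [← h1]
    congr 1
    funext p
    exact (hmap p).symm
  -- the entries of the words
  have haA : ∀ p k l, a p k l ∈ A := by
    have key : ∀ q : List (Matrix (Fin n) (Fin n) E), (∀ M ∈ q, M ∈ Z) →
        ∀ k l, q.prod k l ∈ A := by
      intro q
      induction q with
      | nil =>
        intro _ k l
        rw [List.prod_nil, Matrix.one_apply]
        split
        · exact A.one_mem
        · exact A.zero_mem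
      | cons M q ih =>
        intro h k l
        rw [List.prod_cons, Matrix.mul_apply]
        refine A.sum_mem fun j _ => A.mul_mem ?_ ?_
        · exact hZA M (h M List.mem_cons_self) k j
        · exact ih (fun N hN => h N (List.mem_cons_of_mem _ hN)) j l
    exact fun p => key (w p) (hw1 p)
  have hDA : gram a ∈ A := by
    unfold gram
    rw [Matrix.det_apply]
    refine A.sum_mem fun σ _ => ?_
    have h1 : ∏ p, (Matrix.of fun p q => (a p * a q).trace) (σ p) p ∈ A := by
      refine A.prod_mem fun p _ => ?_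
      show (a (σ p) * a p).trace ∈ A
      rw [Matrix.trace]
      refine A.sum_mem fun j _ => ?_
      rw [Matrix.diag_apply, Matrix.mul_apply]
      exact A.sum_mem fun k _ => A.mul_mem (haA _ _ _) (haA _ _ _)
    rcases Int.units_eq_one_or (Equiv.Perm.sign σ) with h3 | h3
    · rw [h3, one_smul]
      exact h1
    · rw [h3, Units.neg_smul, one_smul]
      exact A.neg_mem h1
  -- the bounds
  have hOB : ∀ i, OB (v i) (∑ k, ∑ l, |(α' i k - α i k) - (α' i l - α i l)| -
      2 * (n : ℝ) ^ 2 * T) (gram a) := by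
    intro i
    rw [← gram_conj (b i) a]
    refine MB.gram (c := fun k => (α i k + α' i k) / 2) (δ := fun k => α' i k - α i k) _ ?_
    intro p
    have h1 : ∀ q : List (Matrix (Fin n) (Fin n) E), (b i)⁻¹.1 * q.prod * (b i).1 =
        (q.map fun M => (b i)⁻¹.1 * M * (b i).1).prod := by
      intro q
      induction q with
      | nil =>
        rw [List.prod_nil, List.map_nil, List.prod_nil, mul_one]
        exact (b i).inv_mul
      | cons M q ih =>
        rw [List.prod_cons, List.map_cons, List.prod_cons, ← ih]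
        have h2 : (b i).1 * (b i)⁻¹.1 = 1 := (b i).mul_inv
        calc (b i)⁻¹.1 * (M * q.prod) * (b i).1
            = (b i)⁻¹.1 * M * 1 * q.prod * (b i).1 := by simp only [mul_assoc, mul_one]
          _ = _ := by rw [← h2]; simp only [mul_assoc]
    rw [ha]
    show MB (v i) _ _ T ((b i)⁻¹.1 * (w p).prod * (b i).1)
    rw [h1]
    refine (MB.list (T := |R|) _ ?_).mono ?_
    · intro M hM
      obtain ⟨N, hN, rfl⟩ := List.mem_map.1 hM
      have h2 := hZ i N (hw1 p N hN)
      exact (MB.of_two (fun k l => (h2 k l).1) (fun k l => (h2 k l).2)).mono (le_abs_self R)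
    · rw [List.length_map, hT]
      refine mul_le_mul_of_nonneg_right ?_ (abs_nonneg R)
      have := hlen p
      exact_mod_cast this
  have hle : ∀ i, v i (gram a) ≤ WithZero.exp ((⌈2 * (n : ℝ) ^ 2 * T⌉₊ : ℕ) : ℤ) := by
    intro i
    have h1 := hOB i hD
    have h2 : 0 ≤ ∑ k, ∑ l, |(α' i k - α i k) - (α' i l - α i l)| :=
      Finset.sum_nonneg fun k _ => Finset.sum_nonneg fun l _ => abs_nonneg _
    have h3 : ((WithZero.log (v i (gram a)) : ℤ) : ℝ) ≤ 2 * (n : ℝ) ^ 2 * T := by linarith
    have h4 : ((WithZero.log (v i (gram a)) : ℤ) : ℝ) ≤ ((⌈2 * (n : ℝ) ^ 2 * T⌉₊ : ℕ) : ℝ) :=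
      h3.trans (Nat.le_ceil _)
    have h5 : WithZero.log (v i (gram a)) ≤ ((⌈2 * (n : ℝ) ^ 2 * T⌉₊ : ℕ) : ℤ) := by
      exact_mod_cast h4
    rw [← WithZero.exp_log ((Valuation.ne_zero_iff (v i)).2 hD), WithZero.exp_le_exp]
    exact h5
  have hge := hC (gram a) hDA hD hle i₀
  rw [← WithZero.exp_log ((Valuation.ne_zero_iff (v i₀)).2 hD), WithZero.exp_le_exp] at hge
  have hge' : -(C : ℝ) ≤ ((WithZero.log (v i₀ (gram a)) : ℤ) : ℝ) := by exact_mod_cast hge
  have h1 := hOB i₀ hD
  have h2 := sum_abs_ge (fun k => α' i₀ k - α i₀ k) (by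
    rw [Finset.sum_sub_distrib, hvol i₀, sub_self]) k₀
  have h3 : |α' i₀ k₀ - α i₀ k₀| ≤ ∑ k, ∑ l, |(α' i₀ k - α i₀ k) - (α' i₀ l - α i₀ l)| := h2
  linarith

end Pool.Agent.GLN
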