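import Pool.Agent.Lib.MP_98022b_gln.NormInt
import Pool.Agent.Lib.MP_98022b_gln.SeqDefs
import Pool.Agent.Lib.MP_98022b_gln.FarAlg

/-!
# The vertices: families of lattices (one for each place) of bounded volume
-/

set_option autoImplicit false

open scoped WithZero

namespace Pool.Agent.GLN

variable {E : Type} [Field E] {n : ℕ}

/-- Families of lattices (integer valued norms) of bounded volume. -/
def Vx {I : Type} (v : I → Valuation E ℤᵐ⁰) (n : ℕ) : Type :=
  {w : ∀ i, Nm (v i) n // ∀ i, (w i).IsInt ∧ |(w i).vol| ≤ 2 * n}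

variable {I : Type} {v : I → Valuation E ℤᵐ⁰}

noncomputable instance : MulAction (Matrix.SpecialLinearGroup (Fin n) E) (Vx v n) where
  smul g w := ⟨fun i => g • w.1 i, fun i => ⟨(w.2 i).1.smul _, by
    rw [Nm.vol_sl_smul]
    exact (w.2 i).2⟩⟩
  one_smul w := Subtype.ext (funext fun i => one_smul _ (w.1 i))
  mul_smul g h w := Subtype.ext (funext fun i => mul_smul g h (w.1 i))

@[simp] theorem Vx.smul_val (g : Matrix.SpecialLinearGroup (Fin n) E) (w : Vx v n) (i : I) :
    (g • w).1 i = g • w.1 i := rfl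

/-- The L1 distance. -/
noncomputable def dV [Fintype I] (w w' : Vx v n) : ℕ := ⌊∑ i, (w.1 i).d1 (w'.1 i)⌋₊

section

variable [Fintype I]

theorem dV_cast (w w' : Vx v n) : (dV w w' : ℝ) = ∑ i, (w.1 i).d1 (w'.1 i) := by
  choose k hk using fun i => (w.2 i).1.d1 (w'.2 i).1
  have h0 : 0 ≤ ∑ i, (w.1 i).d1 (w'.1 i) := Finset.sum_nonneg fun i _ => Nm.d1_nonneg _ _
  have h1 : ∑ i, (w.1 i).d1 (w'.1 i) = ((∑ i, k i : ℤ) : ℝ) := by
    push_cast
    exact Finset.sum_congr rfl fun i _ => hk i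
  unfold dV
  rw [h1] at h0 ⊢
  have h2 : 0 ≤ ∑ i, k i := by exact_mod_cast h0
  obtain ⟨m, hm⟩ := Int.eq_ofNat_of_zero_le h2
  rw [hm]
  simp

/-- In common orthogonal bases. -/
theorem dV_eq (w w' : Vx v n) (b : I → Module.Basis (Fin n) E (Fin n → E))
    (hb : ∀ i, (w.1 i).Orth (b i)) (hb' : ∀ i, (w'.1 i).Orth (b i)) :
    (dV w w' : ℝ) = ∑ i, ∑ k, |w.1 i (b i k) - w'.1 i (b i k)| := by
  rw [dV_cast]
  exact Finset.sum_congr rfl fun i _ => Nm.d1_eq (hb i) (hb' i)

theorem dV_symm (w w' : Vx v n) : dV w w' = dV w' w := by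
  have : (dV w w' : ℝ) = dV w' w := by
    rw [dV_cast, dV_cast]
    exact Finset.sum_congr rfl fun i _ => Nm.d1_comm _ _
  exact_mod_cast this

theorem dV_triangle (u w w' : Vx v n) : dV u w' ≤ dV u w + dV w w' := by
  have : (dV u w' : ℝ) ≤ dV u w + dV w w' := by
    rw [dV_cast, dV_cast, dV_cast, ← Finset.sum_add_distrib]
    exact Finset.sum_le_sum fun i _ => Nm.d1_triangle _ _ _
  exact_mod_cast this

theorem dV_smul (g : Matrix.SpecialLinearGroup (Fin n) E) (w w' : Vx v n) :
    dV (g • w) (g • w') = dV w w' := by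
  have : (dV (g • w) (g • w') : ℝ) = dV w w' := by
    rw [dV_cast, dV_cast]
    exact Finset.sum_congr rfl fun i _ => Nm.d1_smul _ _ _
  exact_mod_cast this

theorem isDist (G : Subgroup (Matrix.SpecialLinearGroup (Fin n) E)) :
    IsDist G (dV : Vx v n → Vx v n → ℕ) where
  symm := dV_symm
  triangle := dV_triangle
  smul g u w := dV_smul (g : Matrix.SpecialLinearGroup (Fin n) E) u w

theorem dist_le_dV (w w' : Vx v n) (i : I) : dist (w.1 i) (w'.1 i) ≤ dV w w' := by
  refine (Nm.dist_le_d1 _ _).trans ?_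
  rw [dV_cast]
  exact Finset.single_le_sum (f := fun i => (w.1 i).d1 (w'.1 i)) (fun j _ => Nm.d1_nonneg _ _)
    (Finset.mem_univ i)

theorem eq_of_dV {w w' : Vx v n} (h : dV w w' = 0) : w = w' := by
  refine Subtype.ext (funext fun i => ?_)
  have h1 := dist_le_dV w w' i
  rw [h, Nat.cast_zero] at h1
  exact dist_le_zero.1 h1

end

/-! ### The algebras -/

/-- The algebras of matrices. -/
abbrev Om (E : Type) [Field E] (n : ℕ) : Type := Subalgebra E (Matrix (Fin n) (Fin n) E)

/-- Conjugation. -/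
def cjA (g : Matrix.SpecialLinearGroup (Fin n) E) :
    Matrix (Fin n) (Fin n) E →ₐ[E] Matrix (Fin n) (Fin n) E where
  toFun x := g.1 * x * (g⁻¹).1
  map_one' := by
    rw [mul_one, ← Matrix.SpecialLinearGroup.coe_mul, mul_inv_cancel,
      Matrix.SpecialLinearGroup.coe_one]
  map_mul' x y := by
    have h : (g⁻¹).1 * g.1 = 1 := by
      rw [← Matrix.SpecialLinearGroup.coe_mul, inv_mul_cancel, Matrix.SpecialLinearGroup.coe_one]
    calc g.1 * (x * y) * (g⁻¹).1 = g.1 * x * 1 * y * (g⁻¹).1 := by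
          simp only [mul_assoc, mul_one]
      _ = _ := by
          rw [← h]
          simp only [mul_assoc]
  map_zero' := by rw [mul_zero, zero_mul]
  map_add' x y := by rw [mul_add, add_mul]
  commutes' c := by
    rw [← Algebra.commutes, mul_assoc, ← Matrix.SpecialLinearGroup.coe_mul, mul_inv_cancel,
      Matrix.SpecialLinearGroup.coe_one, mul_one]

theorem cjA_apply (g : Matrix.SpecialLinearGroup (Fin n) E) (x : Matrix (Fin n) (Fin n) E) :
    cjA g x = g.1 * x * (g⁻¹).1 := rfl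

noncomputable instance : MulAction (Matrix.SpecialLinearGroup (Fin n) E) (Om E n) where
  smul g B := B.map (cjA g)
  one_smul B := by
    show B.map (cjA 1) = B
    have : cjA (1 : Matrix.SpecialLinearGroup (Fin n) E) = AlgHom.id _ _ := by
      ext1 x
      rw [cjA_apply]
      simp
    rw [this, Subalgebra.map_id]
  mul_smul g h B := by
    show B.map (cjA (g * h)) = (B.map (cjA h)).map (cjA g)
    rw [Subalgebra.map_map]
    congr 1
    ext1 x
    rw [AlgHom.comp_apply, cjA_apply, cjA_apply, cjA_apply, mul_inv_rev,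
      Matrix.SpecialLinearGroup.coe_mul, Matrix.SpecialLinearGroup.coe_mul]
    simp only [mul_assoc]

theorem Om.smul_def (g : Matrix.SpecialLinearGroup (Fin n) E) (B : Om E n) :
    g • B = B.map (cjA g) := rfl

/-- The algebra generated by a set of elements of a group of matrices. -/
noncomputable def algG (G : Subgroup (Matrix.SpecialLinearGroup (Fin n) E)) (s : Set G) : Om E n :=
  Algebra.adjoin E ((fun g : G => (g : Matrix.SpecialLinearGroup (Fin n) E).1) '' s)

theorem algG_smul (G : Subgroup (Matrix.SpecialLinearGroup (Fin n) E)) (h : G) (s : Set G) :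
    h • algG G s = algG G {γ | h⁻¹ * γ * h ∈ s} := by
  show (algG G s).map (cjA (h : Matrix.SpecialLinearGroup (Fin n) E)) = _
  unfold algG
  rw [AlgHom.map_adjoin]
  congr 1
  ext x
  simp only [Set.mem_image, Set.mem_ofPred_eq]
  constructor
  · rintro ⟨_, ⟨γ, hγ, rfl⟩, rfl⟩
    refine ⟨h * γ * h⁻¹, ?_, ?_⟩
    · rwa [show h⁻¹ * (h * γ * h⁻¹) * h = γ by group]
    · rw [cjA_apply]
      rfl
  · rintro ⟨γ, hγ, rfl⟩
    refine ⟨_, ⟨_, hγ, rfl⟩, ?_⟩
    rw [cjA_apply]
    have h1 : γ = h * (h⁻¹ * γ * h) * h⁻¹ := by group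
    conv_rhs => rw [h1]
    rfl

/-! ### Bases as matrices -/

/-- The matrix of a basis. -/
noncomputable def bGL (b : Module.Basis (Fin n) E (Fin n → E)) : GL (Fin n) E where
  val := (Pi.basisFun E (Fin n)).toMatrix b
  inv := b.toMatrix (Pi.basisFun E (Fin n))
  val_inv := Module.Basis.toMatrix_mul_toMatrix_flip _ _
  inv_val := Module.Basis.toMatrix_mul_toMatrix_flip _ _

theorem bGL_conj (b : Module.Basis (Fin n) E (Fin n → E)) (M : Matrix (Fin n) (Fin n) E)
    (k l : Fin n) : ((bGL b)⁻¹.1 * M * (bGL b).1) k l = b.repr (M.mulVec (b l)) k := by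
  have h1 : (bGL b).1.mulVec (Pi.single l 1) = b l := by
    rw [Matrix.mulVec_single_one]
    ext i
    show (Pi.basisFun E (Fin n)).toMatrix b i l = _
    rw [Module.Basis.toMatrix_apply, Pi.basisFun_repr]
  have h2 : ∀ y : Fin n → E, (bGL b)⁻¹.1.mulVec y = b.repr y := by
    intro y
    have h3 := Module.Basis.toMatrix_mulVec_repr (Pi.basisFun E (Fin n)) b y
    have h4 : ((Pi.basisFun E (Fin n)).repr y : Fin n → E) = y := by
      ext i
      exact Pi.basisFun_repr E (Fin n) y i
    rw [h4] at h3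
    exact h3
  have h5 : ((bGL b)⁻¹.1 * M * (bGL b).1) k l =
      ((bGL b)⁻¹.1 * M * (bGL b).1).mulVec (Pi.single l 1) k := by
    rw [Matrix.mulVec_single_one]
    rfl
  rw [h5, ← Matrix.mulVec_mulVec, h1, ← Matrix.mulVec_mulVec, h2]

end Pool.Agent.GLN
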