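import Pool.Agent.Lib.MP_98022b_gln.Prod
import Pool.Agent.Lib.MP_98022b_gln.GeoIface
import Pool.Agent.Lib.MP_98022b_gln.LatVtx

/-!
# The discretization of the space of families of norms
-/

set_option autoImplicit false

open scoped WithZero

namespace Pool.Agent.GLN

variable {E : Type} [Field E] {n : ℕ} {I : Type} [Fintype I] {v : I → Valuation E ℤᵐ⁰}

/-- The family of the lattices `{w ≥ r}`. -/
noncomputable def stB (r : ℝ) (w : Bld v n) : Vx v n :=
  ⟨fun i => (w.1 i).fl (Int.fract r), fun i => ⟨Nm.fl_isInt _ _,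
    Nm.abs_vol_fl _ _ (Int.fract_nonneg r) (Int.fract_lt_one r).le (w.2 i)⟩⟩

/-- No value is within `e` of `r`. -/
def farB (r e : ℝ) (w : Bld v n) : Prop :=
  ∀ i, ∀ x, x ≠ 0 → ∀ k : ℤ, e ≤ |w.1 i x + k - r|

omit [Fintype I] in
theorem farB_iff {r e : ℝ} {w : Bld v n} {b : I → Module.Basis (Fin n) E (Fin n → E)}
    (hb : ∀ i, (w.1 i).Orth (b i)) :
    farB r e w ↔ ∀ i j, ∀ k : ℤ, e ≤ |w.1 i (b i j) + k - r| := by
  constructor
  · intro h i j k
    exact h i _ ((b i).ne_zero j) k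
  · intro h i x hx k
    obtain ⟨j, hj, hj'⟩ := (hb i).exists_eq hx
    obtain ⟨l, hl⟩ := od_int (v := v i) ((b i).repr x j)
    have := h i j (l + k)
    rw [hj', hl]
    push_cast at this
    rwa [show (l : ℝ) + w.1 i (b i j) + k - r = w.1 i (b i j) + (l + k) - r by ring]

theorem floor_sub_fract (x r : ℝ) : ⌊x - Int.fract r⌋ = ⌊x - r⌋ + ⌊r⌋ := by
  rw [← Int.floor_add_intCast]
  congr 1
  have := Int.fract_add_floor r
  linarith

theorem ceil_sub (x r : ℝ) : ⌈r - x⌉ = ⌊r⌋ - ⌊x - Int.fract r⌋ := by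
  rw [floor_sub_fract, ← neg_sub x r, Int.ceil_neg]
  ring

/-- The distance of two lattices on a common orthogonal basis. -/
theorem dV_stB (r : ℝ) (w w' : Bld v n) (b : I → Module.Basis (Fin n) E (Fin n → E))
    (hb : ∀ i, (w.1 i).Orth (b i)) (hb' : ∀ i, (w'.1 i).Orth (b i)) :
    (dV (stB r w) (stB r w') : ℤ) =
      ∑ i, ∑ j, |⌈r - w.1 i (b i j)⌉ - ⌈r - w'.1 i (b i j)⌉| := by
  have h1 := dV_eq (stB r w) (stB r w') b (fun i => (hb i).fl _) (fun i => (hb' i).fl _)
  have h2 : ((dV (stB r w) (stB r w') : ℤ) : ℝ) =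
      ((∑ i, ∑ j, |⌈r - w.1 i (b i j)⌉ - ⌈r - w'.1 i (b i j)⌉| : ℤ) : ℝ) := by
    push_cast
    rw [h1]
    refine Finset.sum_congr rfl fun i _ => Finset.sum_congr rfl fun j _ => ?_
    show |(w.1 i).fl (Int.fract r) (b i j) - (w'.1 i).fl (Int.fract r) (b i j)| = _
    rw [Nm.fl_apply _ _ ((b i).ne_zero j), Nm.fl_apply _ _ ((b i).ne_zero j), ceil_sub, ceil_sub,
      abs_sub_comm]
    congr 1
    push_cast
    ring
  exact_mod_cast h2

theorem mesh_aux {K : ℕ} (hK : 0 < K) {y y' : ℝ}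
    (h : ∀ i : ℕ, i < K → ⌊y - i / K⌋ = ⌊y' - i / K⌋) : y' - y < 1 / K := by
  by_contra hcon
  push Not at hcon
  have hK' : (0 : ℝ) < K := by exact_mod_cast hK
  have h0 := h 0 hK
  rw [Nat.cast_zero, zero_div, sub_zero, sub_zero] at h0
  set m := ⌊y⌋ with hm
  have h1 : (m : ℝ) ≤ y := Int.floor_le y
  have h2 : y < m + 1 := Int.lt_floor_add_one y
  have h3 : (m : ℝ) ≤ y' := by rw [h0]; exact Int.floor_le y'
  have h4 : y' < m + 1 := by rw [h0]; exact Int.lt_floor_add_one y'
  -- the index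
  have h5 : 0 ≤ K * (y - m) := mul_nonneg hK'.le (by linarith)
  obtain ⟨i, hi⟩ : ∃ i : ℕ, i = ⌊K * (y - m)⌋₊ + 1 := ⟨_, rfl⟩
  have h6 : K * (y - m) < i := by
    rw [hi]
    push_cast
    exact Nat.lt_floor_add_one _
  have h7 : (i : ℝ) ≤ K * (y - m) + 1 := by
    rw [hi]
    push_cast
    have := Nat.floor_le h5
    linarith
  have h8 : (i : ℝ) / K ≤ y' - m := by
    rw [div_le_iff₀ hK']
    have h9 : K * (1 / (K : ℝ)) = 1 := by field_simp
    have h10 := mul_le_mul_of_nonneg_left hcon hK'.le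
    rw [h9] at h10
    linarith
  have h9 : y - m < i / K := by
    rw [lt_div_iff₀ hK']
    linarith
  have hiK : i < K := by
    have : (i : ℝ) < K := by
      have h10 : (i : ℝ) / K < 1 := by linarith
      rwa [div_lt_one hK'] at h10
    exact_mod_cast this
  have h10 := h i hiK
  have h11 : ⌊y - i / K⌋ < m := by
    rw [Int.floor_lt]
    linarith
  have h12 : m ≤ ⌊y' - i / K⌋ := by
    rw [Int.le_floor]
    linarith
  rw [h10] at h11
  exact absurd h12 (not_le.2 h11)

/-- The equivalence of the index types. -/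
noncomputable def ixE (I : Type) [Fintype I] (n : ℕ) : I × Fin n ≃ Fin (Fintype.card (I × Fin n)) :=
  Fintype.equivFin _

theorem sum_ixE {β : Type} [AddCommMonoid β] (f : I × Fin n → β) :
    ∑ p, f ((ixE I n).symm p) = ∑ i, ∑ j, f (i, j) := by
  rw [Equiv.sum_comp (ixE I n).symm f, Fintype.sum_prod_type]

theorem stB_eq {r e : ℝ} {w w' : Bld v n} (h : farB r e w) (hd : dist w w' < e) :
    stB r w' = stB r w := by
  refine Subtype.ext (funext fun i => ?_)
  obtain ⟨b, hb⟩ := (w.1 i).exists_orth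
  refine Nm.fl_eq_of_far hb (e := e) (fun j k => ?_) ((Bld.dist_coord_le w w' i).trans_lt hd)
  have h1 := h i (b j) (b.ne_zero j) (⌊r⌋ - k)
  push_cast at h1
  rwa [show w.1 i (b j) + ((⌊r⌋ : ℝ) - k) - r = w.1 i (b j) - Int.fract r - k by
    have := Int.fract_add_floor r
    linarith] at h1

omit [Fintype I] in
theorem stB_smul (g : Matrix.SpecialLinearGroup (Fin n) E) (r : ℝ) (w : Bld v n) :
    stB r (g • w) = g • stB r w :=
  Subtype.ext (funext fun i => (Nm.smul_fl _ (w.1 i) _).symm)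

omit [Fintype I] in
theorem farB_smul (g : Matrix.SpecialLinearGroup (Fin n) E) (r e : ℝ) (w : Bld v n) :
    farB r e (g • w) ↔ farB r e w := by
  have key : ∀ (g : Matrix.SpecialLinearGroup (Fin n) E) (w : Bld v n),
      farB r e w → farB r e (g • w) := by
    intro g w h i x hx k
    rw [Bld.smul_apply]
    refine h i _ ?_ k
    exact inv_mulVec_ne_zero (Matrix.SpecialLinearGroup.toGL g) hx
  refine ⟨fun h => ?_, key g w⟩
  have := key g⁻¹ _ h
  rwa [inv_smul_smul] at this

theorem mesh_stB {K : ℕ} (hK : 0 < K) {r : ℝ} {w w' : Bld v n}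
    (h : ∀ i < K, stB (r + (i : ℝ) / K) w = stB (r + (i : ℝ) / K) w') : dist w w' ≤ 1 / K := by
  have key : ∀ (w w' : Bld v n), (∀ i < K, stB (r + (i : ℝ) / K) w = stB (r + (i : ℝ) / K) w') →
      ∀ i x, x ≠ 0 → w'.1 i x - w.1 i x < 1 / K := by
    intro w w' h i x hx
    have h1 := mesh_aux hK (y := w.1 i x - r) (y' := w'.1 i x - r) fun j hj => ?_
    · linarith
    · have h2 : (w.1 i).fl (Int.fract (r + (j : ℝ) / K)) x =
          (w'.1 i).fl (Int.fract (r + (j : ℝ) / K)) x := by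
        have h3 := congrArg (fun u : Vx v n => u.1 i x) (h j hj)
        exact h3
      rw [Nm.fl_apply _ _ hx, Nm.fl_apply _ _ hx, Int.cast_inj, floor_sub_fract,
        floor_sub_fract] at h2
      have h3 := add_right_cancel h2
      rwa [← sub_sub, ← sub_sub] at h3
  rw [Bld.dist_le_iff (by positivity)]
  intro i x hx
  rw [abs_le]
  constructor
  · have := key w w' h i x hx
    linarith
  · have := key w' w (fun i hi => (h i hi).symm) i x hx
    linarith

/-- The discretization. -/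
noncomputable def discN [Nonempty I] (G : Subgroup (Matrix.SpecialLinearGroup (Fin n) E)) :
    Disc G (Bld v n) (Vx v n) dV (Fintype.card (I × Fin n)) Bld.geo where
  st := stB
  far := farB
  st_smul g r w := stB_smul (g : Matrix.SpecialLinearGroup (Fin n) E) r w
  far_smul g r e w := farB_smul (g : Matrix.SpecialLinearGroup (Fin n) E) r e w
  far_dist := by
    intro r e w w' h i x hx k
    have h1 := h i x hx k
    have h2 := Bld.abs_sub_le_dist w w' i x
    have h3 : |w.1 i x + k - r| ≤ |w'.1 i x + k - r| + |w.1 i x - w'.1 i x| := by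
      have := abs_add_le (w'.1 i x + k - r) (w.1 i x - w'.1 i x)
      rwa [show w'.1 i x + k - r + (w.1 i x - w'.1 i x) = w.1 i x + k - r by ring] at this
    linarith
  st_eq := fun _ _ _ _ h hd => stB_eq h hd
  vals := by
    intro w
    choose b hb using fun i => (w.1 i).exists_orth
    obtain ⟨F, hF⟩ : ∃ F : I × Fin n → ℝ, ∀ i j, F (i, j) = w.1 i (b i j) :=
      ⟨fun q => w.1 q.1 (b q.1 q.2), fun _ _ => rfl⟩
    refine ⟨fun p => F ((ixE I n).symm p), fun r e => ?_⟩
    show farB r e w ↔ _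
    rw [farB_iff hb]
    constructor
    · intro h p k
      have := h ((ixE I n).symm p).1 ((ixE I n).symm p).2 k
      rwa [← hF] at this
    · intro h i j k
      have := h (ixE I n (i, j)) k
      beta_reduce at this
      rwa [Equiv.symm_apply_apply, hF] at this
  mesh := fun _ hK _ _ _ h => mesh_stB hK h
  path := by
    intro x y hxy
    have hT : 0 < dist x y := dist_pos.2 hxy
    choose b hb hb' using fun i => (x.1 i).exists_orth_pair (y.1 i)
    -- the coordinates
    have hval : ∀ s, 0 ≤ s → s ≤ dist x y → ∀ i, ((endPt Bld.geo x y s).1 i).Orth (b i) ∧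
        ∀ j, (endPt Bld.geo x y s).1 i (b i j) =
          y.1 i (b i j) + (x.1 i (b i j) - y.1 i (b i j)) / dist x y * s := by
      intro s h0 h1 i
      have h2 : 0 ≤ 1 - s / dist x y := by
        rw [sub_nonneg, div_le_one hT]
        exact h1
      have h3 : 1 - s / dist x y ≤ 1 := by
        have := div_nonneg h0 hT.le
        linarith
      unfold endPt
      rw [Bld.geo_coord_of_mem _ _ h2 h3]
      refine ⟨(hb i).geo (hb' i) h2 h3, fun j => ?_⟩
      rw [Nm.geo_basis (hb i) (hb' i) h2 h3]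
      field_simp
      ring
    obtain ⟨F, hF⟩ : ∃ F : I × Fin n → ℝ, ∀ i j, F (i, j) = y.1 i (b i j) :=
      ⟨fun q => y.1 q.1 (b q.1 q.2), fun _ _ => rfl⟩
    obtain ⟨F', hF'⟩ : ∃ F' : I × Fin n → ℝ, ∀ i j, F' (i, j) =
        (x.1 i (b i j) - y.1 i (b i j)) / dist x y :=
      ⟨fun q => (x.1 q.1 (b q.1 q.2) - y.1 q.1 (b q.1 q.2)) / dist x y, fun _ _ => rfl⟩
    have hFF : ∀ s, 0 ≤ s → s ≤ dist x y → ∀ i j, (endPt Bld.geo x y s).1 i (b i j) =
        F (i, j) + F' (i, j) * s := by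
      intro s h0 h1 i j
      rw [(hval s h0 h1 i).2, hF, hF']
    refine ⟨fun p => F ((ixE I n).symm p), fun p => F' ((ixE I n).symm p), ?_, ?_, ?_, ?_⟩
    · intro p
      beta_reduce
      obtain ⟨i, j⟩ := (ixE I n).symm p
      rw [hF', abs_div, abs_of_pos hT, div_le_one hT]
      exact Bld.abs_sub_le_dist x y _ _
    · obtain ⟨i, hi⟩ := Bld.exists_dist x y
      obtain ⟨j, hj⟩ := (hb i).exists_dist (hb' i) (hi ▸ hT)
      refine ⟨ixE I n (i, j), ?_⟩
      beta_reduce
      rw [Equiv.symm_apply_apply, hF', abs_div, abs_of_pos hT, hj, hi, div_self hT.ne']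
    · intro r s s' hs hs1 hs' hs1'
      rw [dV_stB r _ _ b (fun i => (hval s hs hs1 i).1) fun i => (hval s' hs' hs1' i).1,
        sum_ixE fun p : I × Fin n => |⌈r - (F p + F' p * s)⌉ - ⌈r - (F p + F' p * s')⌉|]
      refine Finset.sum_congr rfl fun i _ => Finset.sum_congr rfl fun j _ => ?_
      rw [hFF s hs hs1, hFF s' hs' hs1']
    · intro r e s hs hs1
      show farB r e _ ↔ _
      rw [farB_iff fun i => (hval s hs hs1 i).1]
      constructor
      · intro h p k
        have := h ((ixE I n).symm p).1 ((ixE I n).symm p).2 k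
        rwa [hFF s hs hs1] at this
      · intro h i j k
        have := h (ixE I n (i, j)) k
        beta_reduce at this
        rwa [Equiv.symm_apply_apply, ← hFF s hs hs1] at this

end Pool.Agent.GLN
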