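import Pool.Agent.Lib.MP_98022b_gln.TrDegN

/-!
# Finitely generated domains

As in `MP_98022b_gl/Domain.lean`, for `GL_n`. The fraction field of `R` is generated by `s` as a field; its algebraic closure `F` is
countable and algebraic over `Subfield.closure` of the image of `s`.
-/

set_option autoImplicit false

namespace Pool.Agent.GLN

open Pool.Agent.FJ

variable {P : ∀ (G : Type) [Group G], Prop}

/-- a ring which is generated by a finite set is countable -/
private theorem Domain_countable {R : Type} [CommRing R] (s : Finset R)
    (hs : Subring.closure (s : Set R) = ⊤) : Countable R := by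
  have h : Function.Surjective (MvPolynomial.aeval (R := ℤ) (fun i : s => (i : R))) := by
    rw [← AlgHom.range_eq_top, eq_top_iff]
    intro x _
    have hx : x ∈ Subring.closure (s : Set R) := by rw [hs]; trivial
    induction hx using Subring.closure_induction with
    | mem x hx =>
      exact ⟨MvPolynomial.X ⟨x, hx⟩, by simp⟩
    | zero => exact zero_mem _
    | one => exact one_mem _
    | add x y _ _ hx hy => exact add_mem (hx trivial) (hy trivial)
    | neg x _ hx => exact neg_mem (hx trivial)
    | mul x y _ _ hx hy => exact mul_mem (hx trivial) (hy trivial)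
  have hc : Countable (MvPolynomial s ℤ) := by
    rw [← Cardinal.mk_le_aleph0_iff]
    refine MvPolynomial.cardinalMk_le_max.trans ?_
    rw [max_le_iff, max_le_iff]
    exact ⟨⟨Cardinal.mk_le_aleph0_iff.2 inferInstance, Cardinal.mk_le_aleph0_iff.2 inferInstance⟩,
      le_rfl⟩
  exact h.countable

theorem mem_domain (hP : IsFJClass P) (hgeo : GeoMem P)
    (hsol : ∀ (G : Type) [Group G], Group.IsSolvable G → P G)
    (hQ : ∀ n : ℕ, P (GL (Fin n) ℚ)) {R : Type} [CommRing R] [IsDomain R] (s : Finset R)
    (hs : Subring.closure (s : Set R) = ⊤) (n : ℕ) : P (GL (Fin n) R) := by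
  classical
  have : Countable R := Domain_countable s hs
  let K := FractionRing R
  have : Countable K := by
    have : Function.Surjective (fun p : R × nonZeroDivisors R => IsLocalization.mk' K p.1 p.2) :=
      fun x => by
        obtain ⟨a, b, h⟩ := IsLocalization.exists_mk'_eq (nonZeroDivisors R) x
        exact ⟨(a, b), h⟩
    exact this.countable
  let F := AlgebraicClosure K
  have : Countable F := by
    have h := Algebra.IsAlgebraic.cardinalMk_le_max K F
    rw [← Cardinal.mk_le_aleph0_iff]
    refine h.trans ?_
    rw [max_le_iff]
    exact ⟨Cardinal.mk_le_aleph0_iff.2 inferInstance, le_rfl⟩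
  let φ : R →+* F := (algebraMap K F).comp (algebraMap R K)
  have hφ : Function.Injective φ :=
    (algebraMap K F).injective.comp (IsFractionRing.injective R K)
  have hF : P (GL (Fin n) F) := by
    refine mem_trdeg hP hgeo hsol hQ (s.image φ) ?_ n
    intro a
    let L : Subfield F := Subfield.closure ((s.image φ : Finset F) : Set F)
    change IsAlgebraic L a
    have h1 : ∀ r : R, φ r ∈ L := by
      intro r
      have hr : r ∈ Subring.closure (s : Set R) := by rw [hs]; trivial
      induction hr using Subring.closure_induction with
      | mem x hx =>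
        apply Subfield.subset_closure
        rw [Finset.coe_image]
        exact ⟨x, hx, rfl⟩
      | zero => rw [map_zero]; exact zero_mem _
      | one => rw [map_one]; exact one_mem _
      | add x y _ _ hx hy => rw [map_add]; exact add_mem hx hy
      | neg x _ hx => rw [map_neg]; exact neg_mem hx
      | mul x y _ _ hx hy => rw [map_mul]; exact mul_mem hx hy
    have h2 : ∀ k : K, algebraMap K F k ∈ L := by
      intro k
      obtain ⟨x, y, -, rfl⟩ := IsFractionRing.div_surjective (A := R) k
      rw [map_div₀]
      exact div_mem (h1 x) (h1 y)
    let ψ : K →+* L := (algebraMap K F).codRestrict L h2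
    obtain ⟨p, hp, hpa⟩ := Algebra.IsAlgebraic.isAlgebraic (R := K) a
    refine ⟨p.map ψ, (Polynomial.map_ne_zero_iff ψ.injective).2 hp, ?_⟩
    rw [Polynomial.aeval_def, Polynomial.eval₂_map]
    rw [Polynomial.aeval_def] at hpa
    have h3 : (algebraMap L F).comp ψ = algebraMap K F := RingHom.ext fun _ => rfl
    rw [h3]
    exact hpa
  refine hP.of_injective (Matrix.GeneralLinearGroup.map φ) ?_ hF
  intro A B h
  ext i j
  have := congrArg (fun M : GL (Fin n) F => M.1 i j) h
  exact hφ this

end Pool.Agent.GLN
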