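import Pool.Agent.Lib.MP_98022b_gln.TrackBasic
import Pool.Agent.Lib.MP_98022b_gln.Bad

/-!
# Row E4: two close tracks have the same persistent states

Let `s₀ ∈ {2 * H, 2 * H + 3 / 2 * δ}` be outside of the clusters, `p₀ = u s₀ = u' (s₀ + τ)`, and
`sh = (κ' (s₀ + τ) - κ' (2 * H)) - (κ s₀ - κ (2 * H))`. If `u s = u' (s + τ) = p` then
`κ' (s + τ) - κ' (s₀ + τ) = κ s - κ s₀`: both have absolute value `dl p₀ p` and the sign of
`s - s₀`. (←) if `u` has the state `p` on `[s₁, s₂]`, `s₂ - s₁ > 2 * δ`, then `s₁` or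
`s₁ + 3 / 2 * δ` is outside of the clusters; on the interval of `free` around it (length
`≥ 5 / 2 * δ`) `u' (s + τ) = u s = p`. (→) if `u'` has the state `p` on `[s₁, s₂]`,
`s₂ - s₁ > 2 * δ`, then `s₁ - τ` or `s₁ - τ + 3 / 2 * δ` is outside of the clusters, call it `s`; then
`u s = u' (s + τ) = p`, and `pers_of_not_hull` applies to `u`. Times with clock `c` are within
`|c| + 1` of `2 * H` (`IsTrack.lower`).
-/

set_option autoImplicit false

open Set Filter Topology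

namespace Pool.Agent.TR

variable {V : Type}

private theorem E4_notMem {δ : ℝ} {E : Set ℝ} (hδ : 0 < δ) {s : ℝ} (hb : ¬ InHull δ E s) :
    s ∉ E := fun h => hb ⟨s, h, s, h, by linarith, ⟨le_refl s, le_refl s⟩⟩

/-- the clocks of times in both tracks with the same states -/
private theorem E4_key {dl : V → V → ℤ} {M : ℕ} {b τ : ℝ} {u u' : ℝ → V} {κ κ' : ℝ → ℤ}
    (hu : IsTrack dl M b u κ) (hu' : IsTrack dl M b u' κ') {s₀ s : ℝ}
    (h0 : s₀ ∈ Icc 0 b) (h0' : s₀ + τ ∈ Icc 0 b) (hs : s ∈ Icc 0 b) (hs' : s + τ ∈ Icc 0 b)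
    (e0 : u' (s₀ + τ) = u s₀) (e : u' (s + τ) = u s) :
    κ' (s + τ) - κ' (s₀ + τ) = κ s - κ s₀ := by
  have h1 : |κ' (s + τ) - κ' (s₀ + τ)| = |κ s - κ s₀| := by
    rw [← hu'.dl_eq _ hs' _ h0', ← hu.dl_eq _ hs _ h0, e, e0]
  rcases le_total s₀ s with h | h
  · have h2 := hu.mono _ h0 _ hs h
    have h3 := hu'.mono _ h0' _ hs' (by linarith)
    rwa [abs_of_nonneg (by omega), abs_of_nonneg (by omega)] at h1
  · have h2 := hu.mono _ hs _ h0 h
    have h3 := hu'.mono _ hs' _ h0' (by linarith)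
    rw [abs_of_nonpos (by omega), abs_of_nonpos (by omega)] at h1
    omega

/-- the time is determined by the clock -/
private theorem E4_time {dl : V → V → ℤ} {M : ℕ} {H : ℝ} {u : ℝ → V} {κ : ℝ → ℤ}
    (hH : 0 ≤ H) (hu : IsTrack dl M (5 * H) u κ) {s : ℝ} (hs : s ∈ Icc 0 (5 * H)) :
    |s - 2 * H| ≤ |((κ s - κ (2 * H) : ℤ) : ℝ)| + 1 := by
  have h2 : (2 * H) ∈ Icc 0 (5 * H) := ⟨by linarith, by linarith⟩
  push_cast
  rcases le_total (2 * H) s with h | h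
  · have h3 := hu.lower _ h2 _ hs h
    rw [abs_of_nonneg (by linarith)]
    have := le_abs_self ((κ s : ℝ) - κ (2 * H))
    linarith
  · have h3 := hu.lower _ hs _ h2 h
    rw [abs_of_nonpos (by linarith)]
    have := neg_abs_le ((κ s : ℝ) - κ (2 * H))
    linarith

/-- the variation of the clock -/
private theorem E4_upper {dl : V → V → ℤ} {M : ℕ} {b : ℝ} {u : ℝ → V} {κ : ℝ → ℤ}
    (hu : IsTrack dl M b u κ) {s t : ℝ} (hs : s ∈ Icc 0 b) (ht : t ∈ Icc 0 b) {D : ℝ}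
    (hD : |s - t| ≤ D) : |((κ s - κ t : ℤ) : ℝ)| ≤ M * (D + 1) := by
  have key : ∀ s ∈ Icc 0 b, ∀ t ∈ Icc 0 b, s ≤ t → t - s ≤ D →
      |((κ t - κ s : ℤ) : ℝ)| ≤ M * (D + 1) := by
    intro s hs t ht hst hD
    have h1 := hu.mono _ hs _ ht hst
    have h2 := hu.upper _ hs _ ht hst
    have h3 : ((⌈t - s⌉ : ℤ) : ℝ) ≤ D + 1 := by
      have := Int.ceil_lt_add_one (t - s)
      linarith
    have h4 : ((κ t - κ s : ℤ) : ℝ) ≤ M * ((⌈t - s⌉ : ℤ) : ℝ) := by exact_mod_cast h2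
    have h5 : (0 : ℝ) ≤ ((κ t - κ s : ℤ) : ℝ) := by exact_mod_cast (by omega : 0 ≤ κ t - κ s)
    rw [abs_of_nonneg h5]
    exact h4.trans (mul_le_mul_of_nonneg_left h3 (Nat.cast_nonneg M))
  rcases le_total s t with h | h
  · have h1 := key s hs t ht h (by rw [abs_of_nonpos (by linarith)] at hD; linarith)
    have e : ((κ s - κ t : ℤ) : ℝ) = -((κ t - κ s : ℤ) : ℝ) := by push_cast; ring
    rw [e, abs_neg]
    exact h1
  · exact key t ht s hs h (by rw [abs_of_nonneg (by linarith)] at hD; linarith)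

theorem ex_track {dl : V → V → ℤ} {M : ℕ} {H δ τ C : ℝ} {u u' : ℝ → V} {κ κ' : ℝ → ℤ}
    {E : Set ℝ} (hC : 0 ≤ C) (hM : 1 ≤ M) (hH : 4 * (M + 1) * (C + 4) ≤ H) (hδ : 0 < δ)
    (hδ1 : δ ≤ 1 / 100) (hτ : |τ| ≤ C) (hu : IsTrack dl M (5 * H) u κ)
    (hu' : IsTrack dl M (5 * H) u' κ') (hE : IsEvents H δ u E)
    (hnear : ∀ s ∈ Icc (H / 2) (9 * H / 2), s ∉ E → u' (s + τ) = u s) :
    ∃ sh : ℤ, |(sh : ℝ)| ≤ M * (C + 4) ∧ ∀ c : ℤ, |(c : ℝ)| ≤ H / 2 → ∀ p,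
      Pers dl u' H δ (c + sh) p ↔ Pers dl u H δ c p := by
  have hM' : (1 : ℝ) ≤ M := by exact_mod_cast hM
  -- the size of `H`
  have hMC : 0 ≤ (M : ℝ) * (C + 4) := by positivity
  have hH1 : 8 * (C + 4) ≤ H := by nlinarith
  have hH2 : 4 * ((M : ℝ) * (C + 4)) + 4 * (C + 4) ≤ H := by nlinarith
  have hH0 : 0 ≤ H := by linarith
  obtain ⟨hτ1, hτ2⟩ := abs_le.1 hτ
  have h2H : (2 * H) ∈ Icc 0 (5 * H) := ⟨by linarith, by linarith⟩
  -- the reference time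
  obtain ⟨s₀, hs1, hs2, hs3⟩ : ∃ s₀, 2 * H ≤ s₀ ∧ s₀ ≤ 2 * H + 3 / 2 * δ ∧ ¬ InHull δ E s₀ := by
    rcases exists_not_hull hδ hδ1 hE (j := 2 * H) ⟨by linarith, by linarith⟩ with h | h
    · exact ⟨2 * H, le_refl _, by linarith, h⟩
    · exact ⟨2 * H + 3 / 2 * δ, by linarith, le_refl _, h⟩
  have m0 : s₀ ∈ Icc 0 (5 * H) := ⟨by linarith, by linarith⟩
  have m0' : s₀ + τ ∈ Icc 0 (5 * H) := ⟨by linarith, by linarith⟩
  have e0 : u' (s₀ + τ) = u s₀ :=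
    hnear s₀ ⟨by linarith, by linarith⟩ (E4_notMem hδ hs3)
  obtain ⟨sh, hsh⟩ : ∃ sh : ℤ, sh = (κ' (s₀ + τ) - κ' (2 * H)) - (κ s₀ - κ (2 * H)) := ⟨_, rfl⟩
  have hshb : |(sh : ℝ)| ≤ M * (C + 4) := by
    have h1 := E4_upper hu' m0' h2H (D := C + 1) (by rw [abs_le]; constructor <;> linarith)
    have h2 := E4_upper hu m0 h2H (D := 1 / 2) (by rw [abs_le]; constructor <;> linarith)
    have h3 : (sh : ℝ) = ((κ' (s₀ + τ) - κ' (2 * H) : ℤ) : ℝ) - ((κ s₀ - κ (2 * H) : ℤ) : ℝ) := by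
      rw [hsh]; push_cast; ring
    rw [h3]
    refine (abs_sub _ _).trans ?_
    nlinarith
  refine ⟨sh, hshb, fun c hc p => ⟨?_, ?_⟩⟩
  · -- from `u'` to `u`
    rintro ⟨s₁, s₂, h1, h2, h3, h4⟩
    -- the place of the time
    have hloc : ∀ s ∈ Icc s₁ s₂, |s - 2 * H| ≤ 3 * H / 4 - C - 3 := by
      intro s hs
      have ms : s ∈ Icc 0 (5 * H) := ⟨by linarith [hs.1], by linarith [hs.2]⟩
      have h5 := E4_time hH0 hu' ms
      rw [← clk_eq hH0 hu' ms, (h4 s hs).2] at h5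
      push_cast at h5
      have h6 := abs_add_le (c : ℝ) sh
      linarith
    obtain ⟨s, hsa, hsb, hsn⟩ : ∃ s, s₁ - τ ≤ s ∧ s ≤ s₁ - τ + 3 / 2 * δ ∧ ¬ InHull δ E s := by
      have h5 := abs_le.1 (hloc s₁ ⟨le_refl _, by linarith⟩)
      rcases exists_not_hull hδ hδ1 hE (j := s₁ - τ) ⟨by linarith [h5.1], by linarith [h5.2]⟩
        with h | h
      · exact ⟨s₁ - τ, le_refl _, by linarith, h⟩
      · exact ⟨s₁ - τ + 3 / 2 * δ, by linarith, le_refl _, h⟩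
    have ms' : s + τ ∈ Icc s₁ s₂ := ⟨by linarith, by linarith⟩
    have h5 := abs_le.1 (hloc _ ms')
    have ms : s ∈ Icc 0 (5 * H) := ⟨by linarith [h5.1], by linarith [h5.2]⟩
    have ms5 : s + τ ∈ Icc 0 (5 * H) := ⟨by linarith [h5.1], by linarith [h5.2]⟩
    have e1 : u' (s + τ) = u s :=
      hnear s ⟨by linarith [h5.1], by linarith [h5.2]⟩ (E4_notMem hδ hsn)
    have h6 := pers_of_not_hull hδ hδ1 hu hE (s := s) ⟨by linarith [h5.1], by linarith [h5.2]⟩ hsn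
    have h7 := E4_key hu hu' m0 m0' ms ms5 e0 e1
    have h8 := (h4 _ ms').2
    rw [clk_eq hH0 hu' ms5] at h8
    have h9 : κ s - κ (2 * H) = c := by omega
    rw [h9, ← e1, (h4 _ ms').1] at h6
    exact h6
  · -- from `u` to `u'`
    rintro ⟨s₁, s₂, h1, h2, h3, h4⟩
    have hloc : ∀ s ∈ Icc s₁ s₂, |s - 2 * H| ≤ H / 2 + 1 := by
      intro s hs
      have ms : s ∈ Icc 0 (5 * H) := ⟨by linarith [hs.1], by linarith [hs.2]⟩
      have h5 := E4_time hH0 hu ms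
      rw [← clk_eq hH0 hu ms, (h4 s hs).2] at h5
      linarith
    obtain ⟨s, hsa, hsb, hsn⟩ : ∃ s, s₁ ≤ s ∧ s ≤ s₁ + 3 / 2 * δ ∧ ¬ InHull δ E s := by
      rcases exists_not_hull hδ hδ1 hE (j := s₁) ⟨by linarith, by linarith⟩ with h | h
      · exact ⟨s₁, le_refl _, by linarith, h⟩
      · exact ⟨s₁ + 3 / 2 * δ, by linarith, le_refl _, h⟩
    have mss : s ∈ Icc s₁ s₂ := ⟨hsa, by linarith⟩
    have h5 := abs_le.1 (hloc s mss)
    obtain ⟨a₁, a₂, f1, f2, f3, f4, f5, f6⟩ := free hδ hδ1 hE (s := s)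
      ⟨by linarith, by linarith⟩ hsn
    have ms : s ∈ Icc 0 (5 * H) := ⟨by linarith, by linarith⟩
    have hus : u s = p := (h4 s mss).1
    have hcs : κ s - κ (2 * H) = c := by rw [← clk_eq hH0 hu ms]; exact (h4 s mss).2
    refine ⟨a₁ + τ, a₂ + τ, by linarith [h5.1], by linarith, by linarith [h5.2], fun t' ht' => ?_⟩
    obtain ⟨t, rfl⟩ : ∃ t, t' = t + τ := ⟨t' - τ, by ring⟩
    have ht : t ∈ Icc a₁ a₂ := ⟨by linarith [ht'.1], by linarith [ht'.2]⟩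
    have mt : t ∈ Icc 0 (5 * H) := ⟨by linarith [ht.1, h5.1], by linarith [ht.2, h5.2]⟩
    have mt' : t + τ ∈ Icc 0 (5 * H) := ⟨by linarith [ht.1, h5.1], by linarith [ht.2, h5.2]⟩
    have htE : t ∉ E := fun h => f6 t h ht
    have hut : u t = u s := by
      rcases le_total t s with h | h
      · exact hE.const t mt s ms h fun e he he' =>
          f6 e he ⟨ht.1.trans he'.1, he'.2.trans f3⟩
      · exact (hE.const s ms t mt h fun e he he' =>
          f6 e he ⟨f2.trans he'.1, he'.2.trans ht.2⟩).symm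
    have e1 : u' (t + τ) = u t := hnear t ⟨by linarith [ht.1, h5.1], by linarith [ht.2, h5.2]⟩ htE
    have hκ : κ t = κ s := by
      have k1 := hu.dl_eq t mt s ms
      have k2 := hu.dl_eq s ms s ms
      rw [hut, k2, sub_self, abs_zero] at k1
      have k3 := abs_eq_zero.1 k1.symm
      omega
    have h7 := E4_key hu hu' m0 m0' mt mt' e0 e1
    refine ⟨by rw [e1, hut, hus], ?_⟩
    rw [clk_eq hH0 hu' mt']
    omega

end Pool.Agent.TR
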