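import Pool.Agent.Lib.MP_98022b_gl.PlaceBound

/-!
# The functions with bounded poles form a space of finite dimension

Row GB13. Let `ω` be a basis of `E` over `RatFunc K` whose members are integral over `K[X]`, and
`S` such that all `(pI X) ^ S * ω j` are integral over `pI`. If `x` is integral over `K[X]` and
`(pI X) ^ R * x` is integral over `pI` then `Algebra.trace (RatFunc K) E (x * ω j)` is the image of
a polynomial (integrally closed, `coeff_int` or `Algebra.isIntegral_trace`) and its product with
`X⁻¹ ^ (R + S)` is the image of a polynomial in `X⁻¹`, so the polynomial has degree at most `R + S`.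
The map from `x` to the family of the coefficients of these polynomials is linear over `K` and
injective (`traceForm_nondegenerate`); so more than `(R + S + 1) * finrank` elements `x` are
linearly dependent over `K`.
-/

set_option autoImplicit false

open Polynomial
open scoped WithZero

namespace Pool.Agent.GLN

open Pool.Agent.GT

private theorem gb13_trace_int {A L F : Type} [CommRing A] [Field L] [Field F] [Algebra L F]
    [FiniteDimensional L F] (f : A →+* L) (x : F)
    (hx : ((algebraMap L F).comp f).IsIntegralElem x) :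
    f.IsIntegralElem (Algebra.trace L F x) := by
  let := f.toAlgebra
  let := ((algebraMap L F).comp f).toAlgebra
  have : IsScalarTower A L F := IsScalarTower.of_algebraMap_eq' rfl
  have h : IsIntegral A x := hx
  exact Algebra.isIntegral_trace h

/-- the homomorphism `X ↦ X⁻¹` to the rational functions -/
private noncomputable abbrev gb13_f (K : Type) [Field K] : K[X] →+* RatFunc K :=
  Polynomial.eval₂RingHom (RatFunc.C (K := K)) (RatFunc.X (K := K))⁻¹

private theorem gb13_v {K : Type} [Field K] [DecidableEq (RatFunc K)] (p : K[X]) :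
    RatFunc.inftyValuation K (gb13_f K p) ≤ 1 := by
  classical
  induction p using Polynomial.induction_on' with
  | add p q hp hq =>
    rw [map_add]
    exact (Valuation.map_add _ _ _).trans (max_le hp hq)
  | monomial n a =>
    simp only [Polynomial.coe_eval₂RingHom, Polynomial.eval₂_monomial, map_mul, map_pow, map_inv₀,
      RatFunc.inftyValuation.X]
    have h1 : RatFunc.inftyValuation K (RatFunc.C a) ≤ 1 := by
      by_cases ha : a = 0
      · simp [ha]
      · exact (RatFunc.inftyValuation.C K ha).le
    refine mul_le_one' h1 (pow_le_one' ?_ n)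
    rw [← WithZero.exp_neg, ← WithZero.exp_zero]
    exact WithZero.exp_le_exp.2 (by norm_num)

private theorem gb13_int {K : Type} [Field K] [DecidableEq (RatFunc K)] (t : RatFunc K) (ht : (gb13_f K).IsIntegralElem t) :
    RatFunc.inftyValuation K t ≤ 1 := by
  classical
  have hr : ∀ p : K[X], gb13_f K p ∈ (RatFunc.inftyValuation K).integer := fun p => gb13_v p
  obtain ⟨P, hP, h0⟩ := ht
  have hv := Valuation.integer.integers (RatFunc.inftyValuation K)
  refine hv.isIntegral_iff_v_le_one.1 ⟨P.map ((gb13_f K).codRestrict _ hr), hP.map _, ?_⟩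
  rw [Polynomial.eval₂_map]
  exact h0

/-- multiplication by a power of `X⁻¹` makes an element integral over `K[X⁻¹]` -/
private theorem gb13_scale {K E : Type} [Field K] [Field E] [Algebra (RatFunc K) E]
    (z : E) (hz : (pE K E).IsIntegralElem z) :
    ∃ S : ℕ, (pI K E).IsIntegralElem (pI K E X ^ S * z) := by
  classical
  obtain ⟨P, hP, h0⟩ := hz
  have hXE : (pE K E X) ≠ 0 := by
    simp only [pE, RingHom.comp_apply, RatFunc.algebraMap_X]
    simp [RatFunc.X_ne_zero]
  have hY : pI K E X = (pE K E X)⁻¹ := by
    simp [pI, pE, RatFunc.algebraMap_X]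
  have hrefl : ∀ (N : ℕ) (a : K[X]), a.natDegree ≤ N →
      pI K E (reflect N a) = pI K E X ^ N * pE K E a := by
    intro N a ha
    have hpE : ∀ b : K[X], pE K E b = eval₂ (cE K E) (pE K E X) b := by
      intro b
      rw [cE, ← Polynomial.hom_eval₂, Polynomial.eval₂_C_X]
    have hpI : ∀ b : K[X], pI K E b = eval₂ (cE K E) (pI K E X) b := by
      intro b
      have h : ∀ b : K[X], (algebraMap (RatFunc K) E) (gb13_f K b) = pI K E b := fun _ => rfl
      rw [← h, gb13_f, Polynomial.coe_eval₂RingHom, Polynomial.hom_eval₂]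
      have hC : (algebraMap (RatFunc K) E).comp (RatFunc.C (K := K)) = cE K E := by
        ext k
        simp [cE, pE]
      have hX : (algebraMap (RatFunc K) E) (RatFunc.X (K := K))⁻¹ = pI K E X := by
        simp [pI]
      rw [hC, hX]
    let hinv : Invertible (pE K E X) := invertibleOfNonzero hXE
    have h := Polynomial.eval₂_reflect_mul_pow (cE K E) (pE K E X) N a ha
    rw [invOf_eq_inv, ← hY, ← hpI, ← hpE] at h
    rw [← h, hY, inv_pow, mul_comm _ (pE K E X ^ N), inv_mul_cancel_left₀ (pow_ne_zero _ hXE)]
  set m := P.natDegree with hm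
  set d := (Finset.range m).sup (fun i => (P.coeff i).natDegree) with hd
  have hdi : ∀ i ∈ Finset.range m, (P.coeff i).natDegree ≤ d := fun i hi =>
    Finset.le_sup (f := fun i => (P.coeff i).natDegree) hi
  refine ⟨d, X ^ m + ∑ i ∈ Finset.range m, C (reflect (d * (m - i)) (P.coeff i)) * X ^ i,
    ?_, ?_⟩
  · refine Polynomial.monic_X_pow_add ?_
    refine (Polynomial.degree_sum_le _ _).trans_lt ?_
    rw [Finset.sup_lt_iff (WithBot.bot_lt_coe _)]
    intro i hi
    refine (Polynomial.degree_C_mul_X_pow_le _ _).trans_lt ?_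
    exact_mod_cast Finset.mem_range.1 hi
  · have h1 : eval₂ (pE K E) z P = z ^ m + ∑ i ∈ Finset.range m, pE K E (P.coeff i) * z ^ i := by
      rw [Polynomial.eval₂_eq_sum_range, Finset.sum_range_succ, hP.coeff_natDegree, map_one,
        one_mul, add_comm]
    rw [Polynomial.eval₂_add, Polynomial.eval₂_finsetSum, Polynomial.eval₂_X_pow]
    have h2 : ∀ i ∈ Finset.range m,
        eval₂ (pI K E) (pI K E X ^ d * z) (C (reflect (d * (m - i)) (P.coeff i)) * X ^ i) =
        pI K E X ^ (d * m) * (pE K E (P.coeff i) * z ^ i) := by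
      intro i hi
      have hi' := Finset.mem_range.1 hi
      rw [Polynomial.eval₂_mul, Polynomial.eval₂_C, Polynomial.eval₂_X_pow,
        hrefl _ _ ((hdi i hi).trans (Nat.le_mul_of_pos_right _ (by omega)))]
      have : d * m = d * (m - i) + d * i := by rw [← mul_add]; congr 1; omega
      rw [this, pow_add, mul_pow, ← pow_mul]
      ring
    rw [Finset.sum_congr rfl h2, ← Finset.mul_sum, mul_pow, ← pow_mul, ← mul_add, ← h1, h0,
      mul_zero]

theorem few_functions {K E : Type} [Field K] [Field E] [Algebra (RatFunc K) E]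
    [FiniteDimensional (RatFunc K) E] [Algebra.IsSeparable (RatFunc K) E] (R : ℕ) :
    ∃ N : ℕ, ∀ x : Fin N → E, (∀ j, (pE K E).IsIntegralElem (x j)) →
      (∀ j, (pI K E).IsIntegralElem (pI K E X ^ R * x j)) →
      ∃ c : Fin N → K, c ≠ 0 ∧ ∑ j, cE K E (c j) * x j = 0 := by
  classical
  let algE : Algebra K[X] E := (pE K E).toAlgebra
  have tower : IsScalarTower K[X] (RatFunc K) E := IsScalarTower.of_algebraMap_eq' rfl
  obtain ⟨s, b, hb⟩ := FiniteDimensional.exists_is_basis_integral K[X] (RatFunc K) E
  have hbE : ∀ j : s, (pE K E).IsIntegralElem (b j) := fun j => hb j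
  choose S hS using fun j : s => gb13_scale (b j) (hbE j)
  set D : ℕ := ∑ j : s, S j with hD
  have hSD : ∀ j, (pI K E).IsIntegralElem (pI K E X ^ D * b j) := by
    intro j
    have h1 : S j ≤ D := Finset.single_le_sum (fun _ _ => Nat.zero_le _) (Finset.mem_univ j)
    have h2 : pI K E X ^ D * b j = pI K E X ^ (D - S j) * (pI K E X ^ (S j) * b j) := by
      rw [← mul_assoc, ← pow_add]
      congr 2
      omega
    rw [h2]
    have h3 : (pI K E).IsIntegralElem (pI K E X ^ (D - S j)) := by
      rw [← map_pow]
      exact RingHom.isIntegralElem_map _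
    exact RingHom.IsIntegralElem.mul _ h3 (hS j)
  -- traces are polynomials of bounded degree
  have htr : ∀ (x : E), (pE K E).IsIntegralElem x → (pI K E).IsIntegralElem (pI K E X ^ R * x) →
      ∀ j : s, ∃ p : K[X], p.natDegree ≤ R + D ∧
        Algebra.trace (RatFunc K) E (x * b j) = algebraMap K[X] (RatFunc K) p := by
    intro x hx1 hx2 j
    have h1 : (pE K E).IsIntegralElem (x * b j) := RingHom.IsIntegralElem.mul _ hx1 (hbE j)
    have h2 : (algebraMap K[X] (RatFunc K)).IsIntegralElem
        (Algebra.trace (RatFunc K) E (x * b j)) := gb13_trace_int _ _ h1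
    obtain ⟨p, hp⟩ := IsIntegrallyClosed.isIntegral_iff.1 (show IsIntegral K[X] _ from h2)
    refine ⟨p, ?_, hp.symm⟩
    by_cases hp0 : p = 0
    · simp [hp0]
    have h3 : (pI K E).IsIntegralElem (pI K E X ^ (R + D) * (x * b j)) := by
      have h4 : pI K E X ^ (R + D) * (x * b j) =
          (pI K E X ^ R * x) * (pI K E X ^ D * b j) := by
        rw [pow_add]; ring
      rw [h4]
      exact RingHom.IsIntegralElem.mul _ hx2 (hSD j)
    have h5 : (gb13_f K).IsIntegralElem
        (Algebra.trace (RatFunc K) E (pI K E X ^ (R + D) * (x * b j))) :=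
      gb13_trace_int _ _ h3
    have h6 : Algebra.trace (RatFunc K) E (pI K E X ^ (R + D) * (x * b j)) =
        (RatFunc.X (K := K))⁻¹ ^ (R + D) * algebraMap K[X] (RatFunc K) p := by
      rw [hp]
      have h7 : pI K E X ^ (R + D) * (x * b j) =
          ((RatFunc.X (K := K))⁻¹ ^ (R + D)) • (x * b j) := by
        rw [Algebra.smul_def, map_pow]
        congr 2
        simp [pI]
      rw [h7, map_smul, smul_eq_mul]
    rw [h6] at h5
    have h8 := gb13_int _ h5
    rw [map_mul, map_pow, map_inv₀, RatFunc.inftyValuation.X, RatFunc.inftyValuation_apply,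
      RatFunc.inftyValuation.polynomial K hp0, ← WithZero.exp_neg, ← WithZero.exp_nsmul,
      ← WithZero.exp_add, ← WithZero.exp_zero, WithZero.exp_le_exp] at h8
    simp only [nsmul_eq_mul, Nat.cast_add] at h8
    have : (p.natDegree : ℤ) ≤ R + D := by linarith
    exact_mod_cast this
  refine ⟨Fintype.card s * (R + D + 1) + 1, fun x hx1 hx2 => ?_⟩
  choose p hp1 hp2 using fun k : Fin (Fintype.card s * (R + D + 1) + 1) =>
    htr (x k) (hx1 k) (hx2 k)
  let u : Fin (Fintype.card s * (R + D + 1) + 1) → (s × Fin (R + D + 1) → K) :=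
    fun k ji => (p k ji.1).coeff ji.2
  have hu : ¬ LinearIndependent K u := by
    intro h
    have := h.fintype_card_le_finrank
    rw [Module.finrank_fintype_fun_eq_card, Fintype.card_prod, Fintype.card_fin,
      Fintype.card_fin] at this
    omega
  rw [Fintype.not_linearIndependent_iff] at hu
  obtain ⟨c, hc, k0, hk0⟩ := hu
  refine ⟨c, fun h => hk0 (by rw [h]; rfl), ?_⟩
  have hpoly : ∀ j : s, ∑ k, C (c k) * p k j = 0 := by
    intro j
    ext i
    rw [Polynomial.finsetSum_coeff, Polynomial.coeff_zero]
    simp only [Polynomial.coeff_C_mul]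
    by_cases hi : i ≤ R + D
    · have := congrFun hc (j, ⟨i, by omega⟩)
      simpa [u, Finset.sum_apply] using this
    · refine Finset.sum_eq_zero fun k _ => ?_
      rw [Polynomial.coeff_eq_zero_of_natDegree_lt (lt_of_le_of_lt (hp1 k j) (by omega)), mul_zero]
  set w : E := ∑ j, cE K E (c j) * x j with hw
  have htw : ∀ j : s, Algebra.trace (RatFunc K) E (w * b j) = 0 := by
    intro j
    have h1 : w * b j = ∑ k, (RatFunc.C (c k)) • (x k * b j) := by
      rw [hw, Finset.sum_mul]
      refine Finset.sum_congr rfl fun k _ => ?_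
      rw [Algebra.smul_def, mul_assoc]
      congr 1
    rw [h1, map_sum]
    have h2 : ∀ k, Algebra.trace (RatFunc K) E ((RatFunc.C (c k)) • (x k * b j)) =
        algebraMap K[X] (RatFunc K) (C (c k) * p k j) := by
      intro k
      rw [map_smul, hp2, smul_eq_mul, map_mul, RatFunc.algebraMap_C]
    simp only [h2]
    rw [← map_sum, hpoly, map_zero]
  have hnd := traceForm_nondegenerate (RatFunc K) E
  have hall : ∀ y : E, Algebra.traceForm (RatFunc K) E w y = 0 := by
    intro y
    have : Algebra.traceForm (RatFunc K) E w = 0 := by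
      refine b.ext fun j => ?_
      rw [Algebra.traceForm_apply, htw]
      rfl
    rw [this]; rfl
  exact hnd.1 w hall

end Pool.Agent.GLN
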