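import Pool.Agent.Lib.MP_98022b_gln.RingN
import Pool.Agent.Lib.MP_98022b_gln.AutMod
import Pool.Agent.Lib.MP_98022b_gln.FarAlg

/-!
# Summary of the algebraic part
-/

set_option autoImplicit false

namespace Pool.Agent.GLN

open Pool.Agent.FJ

variable {P : ∀ (G : Type) [Group G], Prop}

/-- Let `P` be a class with the inheritance properties which contains the solvable groups and the
groups `GL_n(ℚ)`, and in which the geometric criterion `GeoMem` holds. Then every group which has a
homomorphism with solvable kernel to the automorphism group of a finitely generated module over a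
commutative ring is in `P`. -/
theorem mem_of_hom (hP : IsFJClass P) (hgeo : GeoMem P)
    (hsol : ∀ (G : Type) [Group G], Group.IsSolvable G → P G)
    (hQ : ∀ n : ℕ, P (GL (Fin n) ℚ)) {R M G : Type} [CommRing R] [AddCommGroup M] [Module R M]
    [Module.Finite R M] [Group G] (f : G →* (M ≃ₗ[R] M)) (hf : Group.IsSolvable f.ker) : P G :=
  hP.extension f (mem_aut hP hsol (fun K _ m => mem_GLn hP hgeo hsol hQ K m) R M)
    fun q => hsol _ (solvable_comap f hf q)

end Pool.Agent.GLN
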