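import Pool.Agent.Lib.MP_98022b_gln.GaugeFilt

/-!
# Basic properties of the gap

Row GA2. Everything follows from `lat_plus` (`x ∈ u.lat r ↔ (x ≠ 0 → r ≤ u x)`; take `r = u x`).
`plus_le`: `hull_le`. `gap_nonneg`: `Nm.vol_mono`. `dist_plus_le`: `Nm.sub_le_vol`.
`plus_mono`: `hull A w r ≤ hull A' w r`. `plus_lip`: if `w x - c ≤ w' x` for all `x` then
`hull A w (r + c) ≤ hull A w' r`, so `plus A w x - c ≤ plus A w' x`; hence
`dist (plus A w) (plus A w') ≤ dist w w'` and `Nm.abs_vol_sub_le`.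
-/

set_option autoImplicit false

open scoped WithZero

namespace Pool.Agent.GLN

variable {E : Type} [Field E] {v : Valuation E ℤᵐ⁰} {n : ℕ}

private theorem GA2_iff {A : Set (Lt v n)} (hA : IsFam A) (w : Nm v n) {x : Fin n → E}
    (hx : x ≠ 0) (r : ℝ) : r ≤ plus A w x ↔ x ∈ hull A w r := by
  rw [← lat_plus hA w r, Nm.mem_lat]
  exact ⟨fun h _ => h, fun h => h hx⟩

theorem plus_le {A : Set (Lt v n)} (hA : IsFam A) (w : Nm v n) {x : Fin n → E} (hx : x ≠ 0) :
    plus A w x ≤ w x := by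
  have h1 := hull_le A w (plus A w x) ((GA2_iff hA w hx _).1 le_rfl)
  exact Nm.mem_lat.1 h1 hx

theorem gap_nonneg {A : Set (Lt v n)} (hA : IsFam A) (w : Nm v n) : 0 ≤ gap A w := by
  have h1 := Nm.vol_mono (w := plus A w) (w' := w) fun x hx => plus_le hA w hx
  unfold gap
  linarith

theorem dist_plus_le {A : Set (Lt v n)} (hA : IsFam A) (w : Nm v n) :
    dist w (plus A w) ≤ gap A w := by
  rw [Nm.dist_le (gap_nonneg hA w)]
  intro x hx
  rw [abs_of_nonneg (sub_nonneg.2 (plus_le hA w hx))]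
  exact Nm.sub_le_vol (fun y hy => plus_le hA w hy) hx

theorem plus_mono {A A' : Set (Lt v n)} (hA : IsFam A) (hA' : IsFam A') (h : A ⊆ A')
    (w : Nm v n) {x : Fin n → E} (hx : x ≠ 0) : plus A w x ≤ plus A' w x := by
  rw [GA2_iff hA' w hx]
  have h1 := (GA2_iff hA w hx _).1 (le_refl (plus A w x))
  have h2 : hull A w (plus A w x) ≤ hull A' w (plus A w x) :=
    sSup_le_sSup fun L hL => ⟨h hL.1, hL.2⟩
  exact h2 h1

theorem gap_mono {A A' : Set (Lt v n)} (hA : IsFam A) (hA' : IsFam A') (h : A ⊆ A')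
    (w : Nm v n) : gap A' w ≤ gap A w := by
  have h1 := Nm.vol_mono (w := plus A w) (w' := plus A' w) fun x hx => plus_mono hA hA' h w hx
  unfold gap
  linarith

theorem plus_lip {A : Set (Lt v n)} (hA : IsFam A) {w w' : Nm v n} {c : ℝ}
    (h : ∀ x, x ≠ 0 → w x - c ≤ w' x) {x : Fin n → E} (hx : x ≠ 0) :
    plus A w x - c ≤ plus A w' x := by
  rw [GA2_iff hA w' hx]
  have h1 := (GA2_iff hA w hx _).1 (le_refl (plus A w x))
  have h2 : hull A w (plus A w x) ≤ hull A w' (plus A w x - c) := by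
    apply sSup_le_sSup
    rintro L ⟨hL1, hL2⟩
    refine ⟨hL1, fun y hy => ?_⟩
    have h3 := hL2 hy
    rw [Nm.mem_lat] at h3 ⊢
    intro hy0
    have h4 := h3 hy0
    have h5 := h y hy0
    linarith
  exact h2 h1

theorem gap_lip {A : Set (Lt v n)} (hA : IsFam A) (w w' : Nm v n) :
    |gap A w - gap A w'| ≤ 2 * n * dist w w' := by
  have h1 : dist (plus A w) (plus A w') ≤ dist w w' := by
    rw [Nm.dist_le dist_nonneg]
    intro x hx
    have h2 := plus_lip hA (w := w) (w' := w') (c := dist w w')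
      (fun y _ => by have := w.le_add_dist w' y; linarith) hx
    have h3 := plus_lip hA (w := w') (w' := w) (c := dist w w')
      (fun y _ => by have := w'.le_add_dist w y; rw [dist_comm w' w] at this; linarith) hx
    rw [abs_le]
    constructor <;> linarith
  have h2 := Nm.abs_vol_sub_le w w'
  have h3 := Nm.abs_vol_sub_le (plus A w) (plus A w')
  have h4 : (n : ℝ) * dist (plus A w) (plus A w') ≤ n * dist w w' :=
    mul_le_mul_of_nonneg_left h1 (Nat.cast_nonneg n)
  unfold gap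
  rw [abs_le] at h2 h3 ⊢
  constructor <;> linarith [h2.1, h2.2, h3.1, h3.2]

/-- The criterion for lower bounds of `plus`. -/
theorem le_plus {A : Set (Lt v n)} (hA : IsFam A) {w u : Nm v n}
    (h : ∀ x, x ≠ 0 → x ∈ hull A w (u x)) {x : Fin n → E} (hx : x ≠ 0) : u x ≤ plus A w x := by
  exact (GA2_iff hA w hx _).2 (h x hx)

theorem gap_le {A : Set (Lt v n)} (hA : IsFam A) {w u : Nm v n}
    (h : ∀ x, x ≠ 0 → x ∈ hull A w (u x)) : gap A w ≤ w.vol - u.vol := by
  have h1 := Nm.vol_mono (w := u) (w' := plus A w) fun x hx => le_plus hA h hx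
  unfold gap
  linarith

end Pool.Agent.GLN
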