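import Pool.Agent.Lib.MP_98022b_gln.GaugeRad

/-!
# Compactness

Row GA8 (helper10). Closed: `w ↦ w.vol` and `w ↦ gap A w` are continuous (`Nm.abs_vol_sub_le`,
`gap_lip`), and `Nm v n` is complete. Totally bounded: given `ε` choose `m` with `c m < ε / 4`; `w` is
at distance `< ε / 4` of `u = plus (gauge v S m) w`, whose lattices are in `SumS (gauge v S m)`; `u` is
at bounded distance of `nm0 v n`. Let `N > 4 / ε`, the lattices `u.lat (j / N)`, `0 ≤ j < N`, are
between `stl b` and `stl (-b)`, so they are in a finite set (`hfin`), and two norms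
`u, u'` with the same lattices `u.lat (j / N)` for all `j < N` have distance `≤ 1 / N`.
-/

set_option autoImplicit false

open scoped WithZero

namespace Pool.Agent.GLN

variable {E : Type} [Field E] {v : Valuation E ℤᵐ⁰} {n : ℕ}

private theorem continuous_of_lip (f : Nm v n → ℝ) (K : ℝ)
    (h : ∀ w w', |f w - f w'| ≤ K * dist w w') : Continuous f := by
  refine (LipschitzWith.of_dist_le_mul (K := K.toNNReal) fun w w' => ?_).continuous
  rw [Real.dist_eq]
  refine (h w w').trans ?_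
  exact mul_le_mul_of_nonneg_right (Real.le_coe_toNNReal K) dist_nonneg

/-- Two norms with the same lattices for the thresholds `j / N` are close. -/
private theorem dist_le_of_lat_eq {π : E} (hπ : v π = WithZero.exp (-1)) {N : ℕ} (hN : 0 < N)
    {u u' : Nm v n} (h : ∀ j < N, u.lat ((j : ℝ) / N) = u'.lat ((j : ℝ) / N)) :
    dist u u' ≤ 1 / N := by
  have hπ0 : π ≠ 0 := by
    rintro rfl
    rw [map_zero] at hπ
    exact WithZero.exp_ne_zero hπ.symm
  have hN' : (0 : ℝ) < N := by exact_mod_cast hN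
  -- all multiples of `1 / N`
  have h1 : ∀ u u' : Nm v n, (∀ j < N, u.lat ((j : ℝ) / N) = u'.lat ((j : ℝ) / N)) →
      ∀ (k : ℤ) x, x ≠ 0 → (k : ℝ) / N ≤ u x → (k : ℝ) / N ≤ u' x := by
    intro u u' h k x hx hk
    have hNz : (N : ℤ) ≠ 0 := by exact_mod_cast hN.ne'
    have h2 : k = (k / N) * N + k % N := by
      have := Int.mul_ediv_add_emod k N
      rw [mul_comm] at this
      omega
    have h3 : 0 ≤ k % N := Int.emod_nonneg _ hNz
    have h4 : k % N < N := Int.emod_lt_of_pos _ (by exact_mod_cast hN)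
    obtain ⟨j, hj⟩ : ∃ j : ℕ, (j : ℤ) = k % N := ⟨(k % N).toNat, Int.toNat_of_nonneg h3⟩
    set q := k / N with hq
    have hjN : j < N := by omega
    have hkr : (k : ℝ) / N = q + (j : ℝ) / N := by
      have : (k : ℝ) = q * N + j := by
        rw [h2, ← hj]
        push_cast
        ring
      rw [this]
      field_simp
    have hp : π ^ (-q) ≠ 0 := zpow_ne_zero _ hπ0
    have h5 : π ^ (-q) • x ∈ u.lat ((j : ℝ) / N) := by
      intro _
      rw [u.smul hp hx, od_zpow hπ]
      push_cast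
      linarith
    rw [h j hjN] at h5
    have h6 := h5 (smul_ne_zero hp hx)
    rw [u'.smul hp hx, od_zpow hπ] at h6
    push_cast at h6
    linarith
  have h2 : ∀ u u' : Nm v n, (∀ j < N, u.lat ((j : ℝ) / N) = u'.lat ((j : ℝ) / N)) →
      ∀ x, x ≠ 0 → u x - u' x ≤ 1 / N := by
    intro u u' h x hx
    have h3 := h1 u u' h ⌊N * u x⌋ x hx (by
      rw [div_le_iff₀ hN', mul_comm]
      exact Int.floor_le _)
    have h4 := Int.lt_floor_add_one (N * u x)
    rw [div_le_iff₀ hN'] at h3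
    have h5 : N * (u x - u' x) ≤ 1 := by linarith
    rw [le_div_iff₀ hN']
    linarith
  rw [Nm.dist_le (by positivity)]
  intro x hx
  rw [abs_le]
  have h3 := h2 u u' h x hx
  have h4 := h2 u' u (fun j hj => (h j hj).symm) x hx
  constructor <;> linarith

theorem isCompact_gap {S : Set (GL (Fin n) E)} (h1 : (1 : GL (Fin n) E) ∈ S)
    (hv : ∃ π, v π = WithZero.exp (-1)) {η : ℕ}
    (hη : ∀ s ∈ S, dist (s • nm0 v n) (nm0 v n) ≤ η)
    (hfin : ∀ m b : ℕ, {L | L ∈ SumS (gauge v S m) ∧ stl v n b ≤ L ∧ L ≤ stl v n (-b)}.Finite)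
    (c : ℕ → ℝ) (hc : Filter.Tendsto c Filter.atTop (nhds 0)) :
    IsCompact {w : Nm v n | w.vol = 0 ∧ ∀ m, gap (gauge v S m) w ≤ c m} := by
  have hF : ∀ m, IsFam (gauge v S m) := isFam_gauge h1 hv
  have hcl : IsClosed {w : Nm v n | w.vol = 0 ∧ ∀ m, gap (gauge v S m) w ≤ c m} := by
    have h2 : {w : Nm v n | w.vol = 0 ∧ ∀ m, gap (gauge v S m) w ≤ c m} =
        {w | w.vol = 0} ∩ ⋂ m, {w | gap (gauge v S m) w ≤ c m} := by
      ext w
      simp
    rw [h2]
    refine IsClosed.inter (isClosed_eq ?_ continuous_const) (isClosed_iInter fun m =>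
      isClosed_le ?_ continuous_const)
    · exact continuous_of_lip _ n fun w w' => w.abs_vol_sub_le w'
    · exact continuous_of_lip _ (2 * n) fun w w' => gap_lip (hF m) w w'
  refine TotallyBounded.isCompact_of_isClosed ?_ hcl
  refine Metric.totallyBounded_of_finite_discretization fun ε hε => ?_
  obtain ⟨m, hm⟩ := ((Metric.tendsto_nhds.1 hc) (ε / 4) (by linarith)).exists
  rw [Real.dist_eq, sub_zero] at hm
  have hm' : c m < ε / 4 := (abs_lt.1 hm).2
  obtain ⟨N, hN⟩ := exists_nat_gt (4 / ε)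
  have hN0 : 0 < N := by
    have : (0 : ℝ) < N := lt_trans (by positivity) hN
    exact_mod_cast this
  have hN' : (0 : ℝ) < N := by exact_mod_cast hN0
  have hNε : (1 : ℝ) / N < ε / 4 := by
    rw [div_lt_iff₀ hε] at hN
    rw [div_lt_iff₀ hN']
    linarith
  obtain ⟨π, hπ⟩ := hv
  have hR : IsRad (gauge v S m) (2 * η * m) := isRad_gauge ⟨π, hπ⟩ hη m
  set A := gauge v S m with hAdef
  obtain ⟨b, hb⟩ : ∃ b : ℕ, ((2 * η * m : ℕ) : ℝ) + 1 + 2 * (ε / 4) + ε / 4 + 1 ≤ b :=
    ⟨_, Nat.le_ceil _⟩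
  -- the lattices of `plus A w`
  have hX : ∀ w : Nm v n, w.vol = 0 → gap A w ≤ c m → ∀ j : Fin N,
      (plus A w).lat ((j : ℝ) / N) ∈
        {L | L ∈ SumS A ∧ stl v n b ≤ L ∧ L ≤ stl v n (-b)} := by
    intro w hw hg j
    have h2 : dist (nm0 v n) w ≤ (2 * η * m : ℕ) + 1 + 2 * gap A w :=
      dist_nm0_le (hF m) hR ⟨π, hπ⟩ hw
    have h3 : dist w (plus A w) ≤ gap A w := dist_plus_le (hF m) w
    have h4 : dist (nm0 v n) (plus A w) ≤ b - 1 :=
      (dist_triangle _ w _).trans (by linarith)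
    have hj0 : (0 : ℝ) ≤ (j : ℝ) / N := by positivity
    have hj1 : (j : ℝ) / N ≤ 1 := by
      rw [div_le_one hN']
      exact_mod_cast j.2.le
    refine ⟨?_, ?_, ?_⟩
    · rw [lat_plus (hF m)]
      exact hull_mem_SumS (hF m) w _
    · intro x hx hx0
      have h5 : ((b : ℤ) : ℝ) ≤ nm0 v n x := hx hx0
      have h6 := (nm0 v n).le_add_dist (plus A w) x
      push_cast at h5
      linarith
    · intro x hx hx0
      have h5 : (j : ℝ) / N ≤ plus A w x := hx hx0
      have h6 := (plus A w).le_add_dist (nm0 v n) x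
      rw [dist_comm] at h6
      show (((-(b : ℤ)) : ℤ) : ℝ) ≤ nm0 v n x
      push_cast
      linarith
  have : Finite {L | L ∈ SumS A ∧ stl v n b ≤ L ∧ L ≤ stl v n (-b)} := (hfin m b).to_subtype
  have : Fintype {L | L ∈ SumS A ∧ stl v n b ≤ L ∧ L ≤ stl v n (-b)} := Fintype.ofFinite _
  refine ⟨Fin N → {L | L ∈ SumS A ∧ stl v n b ≤ L ∧ L ≤ stl v n (-b)}, inferInstance,
    fun w j => ⟨(plus A w.1).lat ((j : ℝ) / N), hX w.1 w.2.1 (w.2.2 m) j⟩, ?_⟩
  intro w w' hww
  have h2 : dist (plus A w.1) (plus A w'.1) ≤ 1 / N := by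
    refine dist_le_of_lat_eq hπ hN0 fun j hj => ?_
    have := congrArg Subtype.val (congrFun hww ⟨j, hj⟩)
    exact this
  have h3 : dist w.1 (plus A w.1) ≤ gap A w.1 := dist_plus_le (hF m) w.1
  have h4 : dist w'.1 (plus A w'.1) ≤ gap A w'.1 := dist_plus_le (hF m) w'.1
  have h5 : gap A w.1 ≤ c m := w.2.2 m
  have h6 : gap A w'.1 ≤ c m := w'.2.2 m
  calc dist w.1 w'.1 ≤ dist w.1 (plus A w.1) + dist (plus A w.1) (plus A w'.1) +
        dist (plus A w'.1) w'.1 := dist_triangle4 _ _ _ _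
    _ < ε := by
      rw [dist_comm (plus A w'.1) w'.1]
      linarith

end Pool.Agent.GLN
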