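import Pool.Agent.Lib.MP_98022b_gln.GaugeBasic

/-!
# Convexity of the gap

Row GA3. `lat_inf_le`: `Nm.le_geo`. `gap_geo`: let `ζ = (plus A w).geo (plus A w') t` and `e` a common
orthogonal basis of `plus A w` and `plus A w'` (`Nm.exists_orth_pair`). For `x ≠ 0` write
`x = ∑ c i • e i`; for `c i ≠ 0` let `α = plus A w (c i • e i)`, `β = plus A w' (c i • e i)`: by
`Nm.geo_basis`, `ζ x ≤ (1 - t) * α + t * β`. Now `U = hull A w α` and `U' = hull A w' β` contain
`c i • e i`, are in `SumS A` (`hull_mem_SumS`: nonempty by `IsFam.std`, bounded by `Nm.bdd`), and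
`U ⊓ U' ∈ A'` is contained in `(w.geo w' t).lat ((1 - t) * α + t * β) ≤ (w.geo w' t).lat (ζ x)`. So
`c i • e i ∈ hull A' (w.geo w' t) (ζ x)`, and `x` is in it. Use `gap_le` and `Nm.vol_geo`.
-/

set_option autoImplicit false

open scoped WithZero

namespace Pool.Agent.GLN

variable {E : Type} [Field E] {v : Valuation E ℤᵐ⁰} {n : ℕ}

theorem lat_inf_le (w w' : Nm v n) {t : ℝ} (h0 : 0 ≤ t) (h1 : t ≤ 1) (α β : ℝ) :
    w.lat α ⊓ w'.lat β ≤ (w.geo w' t).lat ((1 - t) * α + t * β) := by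
  rintro x ⟨hx, hx'⟩ hx0
  have h2 := hx hx0
  have h3 := hx' hx0
  refine le_trans ?_ (Nm.le_geo w w' h0 h1 hx0)
  have h4 : 0 ≤ 1 - t := by linarith
  exact add_le_add (mul_le_mul_of_nonneg_left h2 h4) (mul_le_mul_of_nonneg_left h3 h0)

theorem hull_mem_SumS {A : Set (Lt v n)} (hA : IsFam A) (w : Nm v n) (r : ℝ) :
    hull A w r ∈ SumS A := by
  obtain ⟨C, hC⟩ := w.bdd (nm0 v n)
  refine ⟨{L | L ∈ A ∧ L ≤ w.lat r}, fun L hL => hL.1, ?_, ?_, rfl⟩
  · refine ⟨stl v n ⌈r + C⌉, hA.std _, fun x hx hx0 => ?_⟩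
    have h1 : ((⌈r + C⌉ : ℤ) : ℝ) ≤ nm0 v n x := hx hx0
    have h2 := (abs_le.1 (hC x)).1
    have h3 := Int.le_ceil (r + C)
    linarith
  · refine ⟨⌊r - C⌋, fun L hL x hx hx0 => ?_⟩
    have h1 := hL.2 hx hx0
    have h2 := (abs_le.1 (hC x)).2
    have h3 := Int.floor_le (r - C)
    linarith

/-- The key step: a criterion for membership in the hull at the geodesic. -/
theorem mem_hull_geo {A A' : Set (Lt v n)} (hA : IsFam A) {w w' : Nm v n} {t : ℝ} (h0 : 0 ≤ t)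
    (h1 : t ≤ 1)
    (h : ∀ α β : ℝ, ∀ y, y ∈ hull A w α → y ∈ hull A w' β →
      y ∈ hull A' (w.geo w' t) ((1 - t) * α + t * β)) (x : Fin n → E) :
    x ∈ hull A' (w.geo w' t) ((plus A w).geo (plus A w') t x) := by
  obtain ⟨e, he, he'⟩ := (plus A w).exists_orth_pair (plus A w')
  set ζ := (plus A w).geo (plus A w') t with hζ
  have hζo : ζ.Orth e := he.geo he' h0 h1
  rw [← e.sum_repr x]
  refine Submodule.sum_mem _ fun i _ => ?_
  rw [e.sum_repr x]
  by_cases hi : e.repr x i = 0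
  · rw [hi, zero_smul]
    exact Submodule.zero_mem _
  · set y : Fin n → E := e.repr x i • e i with hy
    have hy0 : y ≠ 0 := smul_ne_zero hi (e.ne_zero i)
    have hα : y ∈ hull A w (plus A w y) := by
      rw [← lat_plus hA]
      exact fun _ => le_rfl
    have hβ : y ∈ hull A w' (plus A w' y) := by
      rw [← lat_plus hA]
      exact fun _ => le_rfl
    have h2 := h _ _ y hα hβ
    have h3 : ζ x ≤ (1 - t) * plus A w y + t * plus A w' y := by
      have h4 := hζo x i hi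
      rw [hζ, Nm.geo_basis he he' h0 h1] at h4
      rw [← hζ] at h4
      rw [hy, Nm.smul _ hi (e.ne_zero i), Nm.smul _ hi (e.ne_zero i)]
      refine h4.trans (le_of_eq ?_)
      ring
    have h5 : hull A' (w.geo w' t) ((1 - t) * plus A w y + t * plus A w' y) ≤
        hull A' (w.geo w' t) (ζ x) := by
      refine sSup_le_sSup fun L hL => ⟨hL.1, hL.2.trans ?_⟩
      exact Nm.lat_anti _ h3
    exact h5 h2

/-- Convexity up to one level. -/
theorem gap_geo {A A' : Set (Lt v n)} (hA : IsFam A) (hA' : IsFam A')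
    (h : ∀ U ∈ SumS A, ∀ U' ∈ SumS A, U ⊓ U' ∈ A') (w w' : Nm v n) {t : ℝ} (h0 : 0 ≤ t)
    (h1 : t ≤ 1) : gap A' (w.geo w' t) ≤ (1 - t) * gap A w + t * gap A w' := by
  have h2 : gap A' (w.geo w' t) ≤ (w.geo w' t).vol - ((plus A w).geo (plus A w') t).vol := by
    refine gap_le hA' fun x _ => mem_hull_geo hA h0 h1 (fun α β y hy hy' => ?_) x
    have h3 : hull A w α ⊓ hull A w' β ∈ A' :=
      h _ (hull_mem_SumS hA w α) _ (hull_mem_SumS hA w' β)
    have h4 : hull A w α ⊓ hull A w' β ≤ (w.geo w' t).lat ((1 - t) * α + t * β) :=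
      (inf_le_inf (hull_le A w α) (hull_le A w' β)).trans (lat_inf_le w w' h0 h1 α β)
    exact (le_sSup (a := hull A w α ⊓ hull A w' β) ⟨h3, h4⟩ : _ ≤ hull A' (w.geo w' t) _)
      ⟨hy, hy'⟩
  rw [Nm.vol_geo _ _ h0 h1, Nm.vol_geo _ _ h0 h1] at h2
  unfold gap at h2 ⊢
  linarith

end Pool.Agent.GLN
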