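import Pool.Agent.Lib.MP_98022b_gln.NormMetric

/-!
# The gauge: definitions

`Lt v n` are the modules over the valuation ring in `E ^ n`. `gauge S m` is the family of lattices
obtained from the standard lattices by `m` steps: translates by members of `S`, sums, intersections
of two. `plus A w` is the largest norm below `w` whose lattices are sums of members of `A`, and
`gap A w = vol w - vol (plus A w)`.
-/

set_option autoImplicit false

open scoped WithZero

namespace Pool.Agent.GLN

variable {E : Type} [Field E] {v : Valuation E ℤᵐ⁰} {n : ℕ}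

/-- The modules over the valuation ring. -/
abbrev Lt {E : Type} [Field E] (v : Valuation E ℤᵐ⁰) (n : ℕ) : Type :=
  Submodule v.integer (Fin n → E)

/-- The multiple `π ^ k L₀` of the standard lattice. -/
noncomputable def stl {E : Type} [Field E] (v : Valuation E ℤᵐ⁰) (n : ℕ) (k : ℤ) : Lt v n :=
  (nm0 v n).lat k

/-- The image of a lattice under an invertible matrix. -/
def Lt.tr (g : GL (Fin n) E) (L : Lt v n) : Lt v n where
  carrier := {x | (g⁻¹).1.mulVec x ∈ L}
  zero_mem' := by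
    show (g⁻¹).1.mulVec 0 ∈ L
    rw [Matrix.mulVec_zero]
    exact L.zero_mem
  add_mem' := by
    intro x y hx hy
    show (g⁻¹).1.mulVec (x + y) ∈ L
    rw [Matrix.mulVec_add]
    exact L.add_mem hx hy
  smul_mem' := by
    rintro ⟨c, hc⟩ x hx
    show (g⁻¹).1.mulVec (c • x) ∈ L
    rw [Matrix.mulVec_smul]
    exact L.smul_mem ⟨c, hc⟩ hx

/-- The multiple of a lattice. -/
def Lt.sc (a : Eˣ) (L : Lt v n) : Lt v n where
  carrier := {x | (a⁻¹ : Eˣ).1 • x ∈ L}
  zero_mem' := by
    show (a⁻¹ : Eˣ).1 • (0 : Fin n → E) ∈ L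
    rw [smul_zero]
    exact L.zero_mem
  add_mem' := by
    intro x y hx hy
    show (a⁻¹ : Eˣ).1 • (x + y) ∈ L
    rw [smul_add]
    exact L.add_mem hx hy
  smul_mem' := by
    rintro ⟨c, hc⟩ x hx
    show (a⁻¹ : Eˣ).1 • (c • x) ∈ L
    rw [smul_comm]
    exact L.smul_mem ⟨c, hc⟩ hx

theorem Lt.mem_tr {g : GL (Fin n) E} {L : Lt v n} {x : Fin n → E} :
    x ∈ L.tr g ↔ (g⁻¹).1.mulVec x ∈ L := Iff.rfl

theorem Lt.mem_sc {a : Eˣ} {L : Lt v n} {x : Fin n → E} :
    x ∈ L.sc a ↔ (a⁻¹ : Eˣ).1 • x ∈ L := Iff.rfl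

/-- The sums of the bounded nonempty subfamilies. -/
def SumS (A : Set (Lt v n)) : Set (Lt v n) :=
  {U | ∃ T ⊆ A, T.Nonempty ∧ (∃ k : ℤ, ∀ L ∈ T, L ≤ stl v n k) ∧ U = sSup T}

/-- The translates of the members of `A` by the members of `S`. -/
def trS (S : Set (GL (Fin n) E)) (A : Set (Lt v n)) : Set (Lt v n) :=
  {L | ∃ s ∈ S, ∃ L' ∈ A, L = L'.tr s}

/-- The families of lattices of the gauge. -/
def gauge {E : Type} [Field E] (v : Valuation E ℤᵐ⁰) {n : ℕ} (S : Set (GL (Fin n) E)) :
    ℕ → Set (Lt v n)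
  | 0 => {L | ∃ k : ℤ, L = stl v n k}
  | m + 1 => {U | ∃ U₁ ∈ SumS (trS S (gauge v S m)), ∃ U₂ ∈ SumS (trS S (gauge v S m)),
      U = U₁ ⊓ U₂}

/-- A family of lattices which is stable under multiples and contains the standard lattices. -/
structure IsFam (A : Set (Lt v n)) : Prop where
  sc : ∀ (a : Eˣ), ∀ L ∈ A, L.sc a ∈ A
  std : ∀ k : ℤ, stl v n k ∈ A

/-- All members of the family are between two multiples of the standard lattice at distance `R`. -/
def IsRad (A : Set (Lt v n)) (R : ℕ) : Prop :=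
  ∀ L ∈ A, ∃ k : ℤ, stl v n (k + R) ≤ L ∧ L ≤ stl v n k

/-- The sum of all members of `A` in the lattice `{w ≥ r}`. -/
noncomputable def hull (A : Set (Lt v n)) (w : Nm v n) (r : ℝ) : Lt v n :=
  sSup {L | L ∈ A ∧ L ≤ w.lat r}

/-- The largest norm below `w` whose lattices are sums of members of `A`. -/
noncomputable def plus (A : Set (Lt v n)) (w : Nm v n) : Nm v n :=
  open Classical in
  if h : ∃ u : Nm v n, ∀ r, u.lat r = hull A w r then h.choose else w

/-- The gap. -/
noncomputable def gap (A : Set (Lt v n)) (w : Nm v n) : ℝ := w.vol - (plus A w).vol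

end Pool.Agent.GLN
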