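import Pool.Agent.Lib.MP_98022b_gln.GaugeConv

/-!
# The families of the gauge

Row GA5. `isFam_gauge`: induction (`(nm0 v n).lat k` scaled by `a` is `lat (k + od v a)`; scaling
commutes with `tr`, `sSup`, `⊓`; for `std` in the step: `1 ∈ S`, `U₁ = U₂ = stl k`).
`gauge_succ`: for `1 ∈ S`, `L = L ⊓ L`. `inf_mem_gauge`: `SumS A ⊆ SumS (trS S A)` for `1 ∈ S`.
`gap_smul`: for `s ∈ S` the translate by `s` of a member of `gauge v S m` is in `gauge v S (m + 1)`,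
and `(s • w).lat r = Lt.tr s (w.lat r)`, so `Lt.tr s (hull A w r) ≤ hull A' (s • w) r`; use `gap_le` for
`u = s • plus A w` and `Nm.vol_smul`. `gap_nm0`: `(nm0 v n).lat r = stl v n ⌈r⌉` is a member of
`gauge v S m`, so `plus A (nm0 v n) = nm0 v n`.
-/

set_option autoImplicit false

open scoped WithZero

namespace Pool.Agent.GLN

variable {E : Type} [Field E] {v : Valuation E ℤᵐ⁰} {n : ℕ}

/-! ### `tr` and `sc` as order isomorphisms -/

private theorem sc_sc (a b : Eˣ) (hab : a * b = 1) (L : Lt v n) : (L.sc b).sc a = L := by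
  ext x
  rw [Lt.mem_sc, Lt.mem_sc, smul_smul]
  have : ((b⁻¹ : Eˣ) : E) * ((a⁻¹ : Eˣ) : E) = 1 := by
    rw [← Units.val_mul, ← mul_inv_rev, hab, inv_one, Units.val_one]
  rw [this, one_smul]

private theorem sc_mono (a : Eˣ) {L L' : Lt v n} (h : L ≤ L') : L.sc a ≤ L'.sc a :=
  fun _ hx => h hx

/-- scaling as an order isomorphism -/
private def scO (a : Eˣ) : Lt v n ≃o Lt v n where
  toFun := Lt.sc a
  invFun := Lt.sc a⁻¹
  left_inv L := sc_sc _ _ (inv_mul_cancel a) L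
  right_inv L := sc_sc _ _ (mul_inv_cancel a) L
  map_rel_iff' := by
    intro L L'
    refine ⟨fun h => ?_, fun h => sc_mono a h⟩
    have h1 := sc_mono a⁻¹ h
    simp only [Equiv.coe_fn_mk] at h1
    rwa [sc_sc _ _ (inv_mul_cancel a), sc_sc _ _ (inv_mul_cancel a)] at h1

private theorem tr_tr (g g' : GL (Fin n) E) (h : g * g' = 1) (L : Lt v n) :
    (L.tr g').tr g = L := by
  ext x
  rw [Lt.mem_tr, Lt.mem_tr, Matrix.mulVec_mulVec]
  have : (g'⁻¹).1 * (g⁻¹).1 = 1 := by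
    rw [← Units.val_mul, ← mul_inv_rev, h, inv_one, Units.val_one]
  rw [this, Matrix.one_mulVec]

private theorem tr_mono (g : GL (Fin n) E) {L L' : Lt v n} (h : L ≤ L') : L.tr g ≤ L'.tr g :=
  fun _ hx => h hx

private def trO (g : GL (Fin n) E) : Lt v n ≃o Lt v n where
  toFun := Lt.tr g
  invFun := Lt.tr g⁻¹
  left_inv L := tr_tr _ _ (inv_mul_cancel g) L
  right_inv L := tr_tr _ _ (mul_inv_cancel g) L
  map_rel_iff' := by
    intro L L'
    refine ⟨fun h => ?_, fun h => tr_mono g h⟩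
    have h1 := tr_mono g⁻¹ h
    simp only [Equiv.coe_fn_mk] at h1
    rwa [tr_tr _ _ (inv_mul_cancel g), tr_tr _ _ (inv_mul_cancel g)] at h1

private theorem tr_one (L : Lt v n) : L.tr 1 = L := by
  ext x
  rw [Lt.mem_tr, inv_one, Units.val_one, Matrix.one_mulVec]

private theorem sc_sSup (a : Eˣ) (T : Set (Lt v n)) : (sSup T).sc a = sSup (Lt.sc a '' T) := by
  have h := (scO (v := v) (n := n) a).map_sSup T
  rw [sSup_image]
  exact h

private theorem tr_sSup (g : GL (Fin n) E) (T : Set (Lt v n)) :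
    (sSup T).tr g = sSup (Lt.tr g '' T) := by
  have h := (trO (v := v) (n := n) g).map_sSup T
  rw [sSup_image]
  exact h

private theorem sc_inf (a : Eˣ) (L L' : Lt v n) : (L ⊓ L').sc a = L.sc a ⊓ L'.sc a :=
  (scO (v := v) (n := n) a).map_inf L L'

private theorem sc_tr (a : Eˣ) (g : GL (Fin n) E) (L : Lt v n) : (L.tr g).sc a = (L.sc a).tr g := by
  ext x
  rw [Lt.mem_sc, Lt.mem_tr, Lt.mem_tr, Lt.mem_sc, Matrix.mulVec_smul]

private theorem sc_stl (a : Eˣ) (k : ℤ) : ∃ j : ℤ, (stl v n k).sc a = stl v n j := by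
  obtain ⟨j, hj⟩ := od_int (v := v) (a : E)
  refine ⟨k + j, ?_⟩
  ext x
  unfold stl
  rw [Lt.mem_sc, Nm.mem_lat, Nm.mem_lat]
  have ha : ((a⁻¹ : Eˣ) : E) ≠ 0 := (a⁻¹).ne_zero
  have hinv : od v ((a⁻¹ : Eˣ) : E) = -(j : ℝ) := by
    rw [Units.val_inv_eq_inv_val, od_inv a.ne_zero, hj]
  constructor
  · intro h hx
    have h1 := h (smul_ne_zero ha hx)
    rw [Nm.smul _ ha hx, hinv] at h1
    push_cast
    linarith
  · intro h hx
    have hx' : x ≠ 0 := fun hc => hx (by rw [hc, smul_zero])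
    have h1 := h hx'
    rw [Nm.smul _ ha hx', hinv]
    push_cast at h1
    linarith

private theorem stl_mem_sumS {S : Set (GL (Fin n) E)} (h1 : (1 : GL (Fin n) E) ∈ S)
    {A : Set (Lt v n)} (L : Lt v n) (hL : L ∈ A) (hb : ∃ k : ℤ, L ≤ stl v n k) :
    L ∈ SumS (trS S A) := by
  refine ⟨{L}, ?_, ⟨L, rfl⟩, ?_, ?_⟩
  · intro L' hL'
    rw [Set.mem_singleton_iff] at hL'
    rw [hL']
    exact ⟨1, h1, L, hL, (tr_one L).symm⟩
  · obtain ⟨k, hk⟩ := hb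
    refine ⟨k, fun L' hL' => ?_⟩
    rw [Set.mem_singleton_iff] at hL'
    rw [hL']
    exact hk
  · rw [sSup_singleton]

private theorem sumS_bdd {A : Set (Lt v n)} {U : Lt v n} (hU : U ∈ SumS A) :
    ∃ k : ℤ, U ≤ stl v n k := by
  obtain ⟨T, _, _, ⟨k, hk⟩, rfl⟩ := hU
  exact ⟨k, sSup_le hk⟩

private theorem gauge_bdd {S : Set (GL (Fin n) E)} (m : ℕ) (L : Lt v n) (hL : L ∈ gauge v S m) :
    ∃ k : ℤ, L ≤ stl v n k := by
  cases m with
  | zero =>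
    obtain ⟨k, rfl⟩ := hL
    exact ⟨k, le_rfl⟩
  | succ m =>
    obtain ⟨U₁, hU₁, U₂, _, rfl⟩ := hL
    obtain ⟨k, hk⟩ := sumS_bdd hU₁
    exact ⟨k, inf_le_left.trans hk⟩

private theorem sc_sumS {S : Set (GL (Fin n) E)} {A : Set (Lt v n)}
    (hA : ∀ a : Eˣ, ∀ L ∈ A, L.sc a ∈ A) (a : Eˣ) {U : Lt v n} (hU : U ∈ SumS (trS S A)) :
    U.sc a ∈ SumS (trS S A) := by
  obtain ⟨T, hT, hne, ⟨k, hk⟩, rfl⟩ := hU
  refine ⟨Lt.sc a '' T, ?_, hne.image _, ?_, sc_sSup a T⟩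
  · rintro _ ⟨L, hL, rfl⟩
    obtain ⟨s, hs, L', hL', rfl⟩ := hT hL
    exact ⟨s, hs, L'.sc a, hA a L' hL', sc_tr a s L'⟩
  · obtain ⟨j, hj⟩ := sc_stl (v := v) (n := n) a k
    refine ⟨j, ?_⟩
    rintro _ ⟨L, hL, rfl⟩
    rw [← hj]
    exact sc_mono a (hk L hL)

theorem isFam_gauge {S : Set (GL (Fin n) E)} (h1 : (1 : GL (Fin n) E) ∈ S)
    (hv : ∃ π, v π = WithZero.exp (-1)) (m : ℕ) : IsFam (gauge v S m) := by
  induction m with
  | zero =>
    refine ⟨?_, fun k => ⟨k, rfl⟩⟩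
    rintro a _ ⟨k, rfl⟩
    obtain ⟨j, hj⟩ := sc_stl (v := v) (n := n) a k
    exact ⟨j, hj⟩
  | succ m ih =>
    refine ⟨?_, fun k => ?_⟩
    · rintro a _ ⟨U₁, hU₁, U₂, hU₂, rfl⟩
      exact ⟨U₁.sc a, sc_sumS ih.sc a hU₁, U₂.sc a, sc_sumS ih.sc a hU₂, sc_inf a U₁ U₂⟩
    · have h2 := stl_mem_sumS h1 (stl v n k) (ih.std k) ⟨k, le_rfl⟩
      exact ⟨_, h2, _, h2, (inf_idem _).symm⟩

theorem gauge_succ {S : Set (GL (Fin n) E)} (h1 : (1 : GL (Fin n) E) ∈ S) (m : ℕ) :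
    gauge v S m ⊆ gauge v S (m + 1) := by
  intro L hL
  have h2 := stl_mem_sumS h1 L hL (gauge_bdd m L hL)
  exact ⟨_, h2, _, h2, (inf_idem _).symm⟩

private theorem sumS_trS {S : Set (GL (Fin n) E)} (h1 : (1 : GL (Fin n) E) ∈ S)
    {A : Set (Lt v n)} {U : Lt v n} (hU : U ∈ SumS A) : U ∈ SumS (trS S A) := by
  obtain ⟨T, hT, hne, hk, rfl⟩ := hU
  exact ⟨T, fun L hL => ⟨1, h1, L, hT hL, (tr_one L).symm⟩, hne, hk, rfl⟩

theorem inf_mem_gauge {S : Set (GL (Fin n) E)} (h1 : (1 : GL (Fin n) E) ∈ S) (m : ℕ)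
    (U : Lt v n) (hU : U ∈ SumS (gauge v S m)) (U' : Lt v n) (hU' : U' ∈ SumS (gauge v S m)) :
    U ⊓ U' ∈ gauge v S (m + 1) :=
  ⟨U, sumS_trS h1 hU, U', sumS_trS h1 hU', rfl⟩

theorem lat_smul (g : GL (Fin n) E) (w : Nm v n) (r : ℝ) : (g • w).lat r = Lt.tr g (w.lat r) := by
  ext x
  rw [Lt.mem_tr, Nm.mem_lat, Nm.mem_lat, Nm.smul_apply]
  constructor
  · intro h hx
    refine h fun hc => hx ?_
    rw [hc, Matrix.mulVec_zero]
  · intro h hx
    exact h (inv_mulVec_ne_zero g hx)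

private theorem tr_bdd (g : GL (Fin n) E) (L : Lt v n) (hL : ∃ k : ℤ, L ≤ stl v n k) :
    ∃ k : ℤ, L.tr g ≤ stl v n k := by
  obtain ⟨k, hk⟩ := hL
  obtain ⟨C, hC⟩ := (g • nm0 v n).bdd (nm0 v n)
  refine ⟨⌊(k : ℝ) - C⌋, ?_⟩
  have h1 : L.tr g ≤ (g • nm0 v n).lat k := by
    rw [lat_smul]
    exact tr_mono g hk
  refine h1.trans ?_
  intro x hx
  unfold stl
  rw [Nm.mem_lat] at hx ⊢
  intro hx0
  have h2 := hx hx0
  have h3 := (abs_le.1 (hC x)).2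
  have h4 := Int.floor_le ((k : ℝ) - C)
  linarith

theorem gap_smul {S : Set (GL (Fin n) E)} (h1 : (1 : GL (Fin n) E) ∈ S)
    (hv : ∃ π, v π = WithZero.exp (-1)) (m : ℕ) {s : GL (Fin n) E} (hs : s ∈ S) (w : Nm v n) :
    gap (gauge v S (m + 1)) (s • w) ≤ gap (gauge v S m) w := by
  have hA := isFam_gauge h1 hv m
  have hA' := isFam_gauge h1 hv (m + 1)
  have h2 : ∀ x, x ≠ 0 → x ∈ hull (gauge v S (m + 1)) (s • w)
      ((s • plus (gauge v S m) w) x) := by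
    intro x hx
    set r := (s • plus (gauge v S m) w) x with hr
    have e1 : (s⁻¹).1.mulVec x ∈ (plus (gauge v S m) w).lat r := by
      rw [Nm.mem_lat]
      intro _
      rw [hr, Nm.smul_apply]
    rw [lat_plus hA] at e1
    have e2 : x ∈ (hull (gauge v S m) w r).tr s := e1
    have e3 : (hull (gauge v S m) w r).tr s ≤ hull (gauge v S (m + 1)) (s • w) r := by
      unfold hull
      rw [tr_sSup]
      refine sSup_le ?_
      rintro _ ⟨L, ⟨hL, hLw⟩, rfl⟩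
      refine le_sSup ⟨?_, ?_⟩
      · have e4 : L.tr s ∈ SumS (trS S (gauge v S m)) := by
          refine ⟨{L.tr s}, ?_, ⟨_, rfl⟩, ?_, ?_⟩
          · rintro _ rfl
            exact ⟨s, hs, L, hL, rfl⟩
          · obtain ⟨k, hk⟩ := tr_bdd s L (gauge_bdd m L hL)
            exact ⟨k, by rintro _ rfl; exact hk⟩
          · rw [sSup_singleton]
        exact ⟨_, e4, _, e4, (inf_idem _).symm⟩
      · rw [lat_smul]
        exact tr_mono s hLw
    exact e3 e2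
  refine (gap_le hA' h2).trans ?_
  rw [Nm.vol_smul, Nm.vol_smul]
  unfold gap
  linarith

private theorem nm0_lat (r : ℝ) : (nm0 v n).lat r = stl v n ⌈r⌉ := by
  ext x
  unfold stl
  rw [Nm.mem_lat, Nm.mem_lat]
  constructor
  · intro h hx
    have h1 := h hx
    obtain ⟨i, _, hi⟩ := exists_w0 (v := v) hx
    obtain ⟨j, hj⟩ := od_int (v := v) (x i)
    rw [nm0_apply, hi, hj] at h1 ⊢
    exact_mod_cast Int.ceil_le.2 h1
  · intro h hx
    exact (Int.le_ceil r).trans (h hx)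

theorem gap_nm0 {S : Set (GL (Fin n) E)} (h1 : (1 : GL (Fin n) E) ∈ S)
    (hv : ∃ π, v π = WithZero.exp (-1)) (m : ℕ) : gap (gauge v S m) (nm0 v n) = 0 := by
  have hA := isFam_gauge h1 hv m
  refine le_antisymm ?_ (gap_nonneg hA _)
  have h2 : ∀ x, x ≠ 0 → x ∈ hull (gauge v S m) (nm0 v n) ((nm0 v n) x) := by
    intro x _
    have e1 : x ∈ (nm0 v n).lat ((nm0 v n) x) := fun _ => le_rfl
    have e2 : (nm0 v n).lat ((nm0 v n) x) ≤ hull (gauge v S m) (nm0 v n) ((nm0 v n) x) := by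
      refine le_sSup ⟨?_, le_rfl⟩
      rw [nm0_lat]
      exact hA.std _
    exact e2 e1
  have h3 := gap_le hA h2
  rwa [sub_self] at h3

end Pool.Agent.GLN
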