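import Pool.Agent.Lib.MP_98022b_gln.GaugeDefs

/-!
# Filtrations and norms; existence of `plus`

Row GA1. `exists_nm`: let `u x = sSup {r | x ∈ P r}` for `x ≠ 0` (nonempty and bounded above by
`hl`, `hu`), `u 0 = 0`; by `hc` the supremum is attained, so `x ∈ P r ↔ r ≤ u x`.
`lat_left`: `w` has at most `n` values modulo `1` (`Nm.exists_values`), so there is no value in
`[s, r)` for `s < r` near `r`, and `w.lat s = w.lat r`.
`exists_plus`: apply `exists_nm` to `hull A w` (`IsFam.sc` for multiples, `IsFam.std` for the lower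
bound, `hull A w r ≤ w.lat r` for the upper bound, `lat_left` for `hc`).
-/

set_option autoImplicit false

open scoped WithZero

namespace Pool.Agent.GLN

variable {E : Type} [Field E] {v : Valuation E ℤᵐ⁰} {n : ℕ}

theorem exists_nm (P : ℝ → Lt v n) (ha : ∀ r s, r ≤ s → P s ≤ P r)
    (hc : ∀ r, ∀ x, (∀ s < r, x ∈ P s) → x ∈ P r)
    (hs : ∀ (a : Eˣ) r x, x ∈ P r → (a : E) • x ∈ P (od v (a : E) + r))
    (hl : ∃ C : ℝ, ∀ x, x ≠ 0 → x ∈ P (w0 v x - C))
    (hu : ∃ C : ℝ, ∀ x r, x ≠ 0 → x ∈ P r → r ≤ w0 v x + C) :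
    ∃ u : Nm v n, ∀ r, u.lat r = P r := by
  classical
  obtain ⟨C₁, hC₁⟩ := hl
  obtain ⟨C₂, hC₂⟩ := hu
  set f : (Fin n → E) → ℝ := fun x => if x = 0 then 0 else sSup {r | x ∈ P r} with hf
  have key : ∀ x, x ≠ 0 → ∀ r, x ∈ P r ↔ r ≤ f x := by
    intro x hx r
    have hfx : f x = sSup {r | x ∈ P r} := by
      rw [hf]
      exact if_neg hx
    rw [hfx]
    constructor
    · intro h
      exact le_csSup ⟨w0 v x + C₂, fun s hs' => hC₂ x s hx hs'⟩ h
    · intro h
      refine hc r x fun s hsr => ?_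
      have hne : ({r | x ∈ P r} : Set ℝ).Nonempty := ⟨_, hC₁ x hx⟩
      obtain ⟨t, ht, hst⟩ := exists_lt_of_lt_csSup hne (hsr.trans_le h)
      exact ha s t hst.le ht
  have hle : ∀ (a : E) x, a ≠ 0 → x ≠ 0 → od v a + f x ≤ f (a • x) := by
    intro a x ha0 hx
    rw [← key (a • x) (smul_ne_zero ha0 hx)]
    exact hs (Units.mk0 a ha0) (f x) x ((key x hx _).2 le_rfl)
  refine ⟨
    { toFun := f
      zero' := by
        rw [hf]
        exact if_pos rfl
      add' := by
        intro x y hx hy hxy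
        rw [← key (x + y) hxy]
        exact (P _).add_mem ((key x hx _).2 (min_le_left _ _)) ((key y hy _).2 (min_le_right _ _))
      smul' := by
        intro a x ha0 hx
        refine le_antisymm ?_ (hle a x ha0 hx)
        have h1 := hle a⁻¹ (a • x) (inv_ne_zero ha0) (smul_ne_zero ha0 hx)
        rw [inv_smul_smul₀ ha0, od_inv ha0] at h1
        linarith
      bdd' := by
        refine ⟨|C₁| + |C₂|, fun x => ?_⟩
        have h1 := le_abs_self C₁
        have h2 := le_abs_self C₂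
        have h3 := abs_nonneg C₁
        have h4 := abs_nonneg C₂
        by_cases hx : x = 0
        · subst hx
          rw [w0_zero, sub_zero]
          have h5 : f 0 = 0 := by
            rw [hf]
            exact if_pos rfl
          rw [h5, abs_zero]
          linarith
        · have h5 := (key x hx _).1 (hC₁ x hx)
          have h6 := hC₂ x (f x) hx ((key x hx _).2 le_rfl)
          rw [abs_le]
          constructor <;> linarith }, fun r => ?_⟩
  ext x
  rw [Nm.mem_lat]
  by_cases hx : x = 0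
  · subst hx
    exact ⟨fun _ => (P r).zero_mem, fun _ h => absurd rfl h⟩
  · rw [key x hx]
    exact ⟨fun h => h hx, fun h _ => h⟩

private theorem ga1_gap (r : ℝ) (A : Finset ℝ) :
    ∃ s < r, ∀ a ∈ A, ∀ k : ℤ, a + k < r → a + k < s := by
  classical
  induction A using Finset.induction_on with
  | empty => exact ⟨r - 1, by linarith, fun a ha => absurd ha (Finset.notMem_empty a)⟩
  | insert a A _ ih =>
    obtain ⟨s, hs, hA⟩ := ih
    have h1 : ((⌈r - a⌉ - 1 : ℤ) : ℝ) < r - a := by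
      rw [← Int.lt_ceil]
      omega
    refine ⟨max s ((a + (⌈r - a⌉ - 1 : ℤ) + r) / 2), max_lt hs (by linarith), ?_⟩
    intro b hb k hk
    rw [Finset.mem_insert] at hb
    rcases hb with rfl | hb
    · refine lt_max_of_lt_right ?_
      have h2 : k < ⌈r - b⌉ := by
        rw [Int.lt_ceil]
        linarith
      have h3 : (k : ℝ) ≤ ((⌈r - b⌉ - 1 : ℤ) : ℝ) := by
        exact_mod_cast Int.le_sub_one_of_lt h2
      linarith
    · exact lt_max_of_lt_left (hA b hb k hk)

theorem lat_left (w : Nm v n) (r : ℝ) : ∃ s < r, ∀ t, s ≤ t → t ≤ r → w.lat t = w.lat r := by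
  obtain ⟨A, -, hA⟩ := w.exists_values
  obtain ⟨s, hs, hs'⟩ := ga1_gap r A
  refine ⟨s, hs, fun t hst htr => le_antisymm ?_ (w.lat_anti htr)⟩
  intro x hx hx0
  by_contra hcon
  rw [not_le] at hcon
  obtain ⟨a, ha, k, hk⟩ := hA x hx0
  have h1 := hx hx0
  have h2 := hs' a ha k (by rw [← hk]; exact hcon)
  rw [← hk] at h2
  linarith

theorem hull_le (A : Set (Lt v n)) (w : Nm v n) (r : ℝ) : hull A w r ≤ w.lat r :=
  sSup_le fun _ h => h.2

private theorem ga1_hull_anti (A : Set (Lt v n)) (w : Nm v n) {r s : ℝ} (h : r ≤ s) :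
    hull A w s ≤ hull A w r :=
  sSup_le_sSup fun _ hL => ⟨hL.1, hL.2.trans (w.lat_anti h)⟩

theorem exists_plus {A : Set (Lt v n)} (hA : IsFam A) (w : Nm v n) :
    ∃ u : Nm v n, ∀ r, u.lat r = hull A w r := by
  obtain ⟨C, hC⟩ := w.bdd'
  have hC' : ∀ x, |w x - w0 v x| ≤ C := hC
  refine exists_nm (hull A w) (fun r s h => ga1_hull_anti A w h) ?_ ?_ ?_ ?_
  · intro r x hx
    obtain ⟨s, hs, hs'⟩ := lat_left w r
    have h1 := hx s hs
    unfold hull at h1 ⊢
    rwa [hs' s le_rfl hs.le] at h1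
  · intro a r x hx
    have h0 : (a : E) ≠ 0 := a.ne_zero
    have h1 : hull A w r ≤ (hull A w (od v (a : E) + r)).sc a⁻¹ := by
      refine sSup_le fun L hL => ?_
      have h2 : L.sc a ≤ hull A w (od v (a : E) + r) := by
        refine le_sSup ⟨hA.sc a L hL.1, ?_⟩
        intro y hy hy0
        have h3 := hL.2 (Lt.mem_sc.1 hy)
        have h4 : (a⁻¹ : Eˣ).1 • y ≠ 0 := smul_ne_zero (Units.ne_zero _) hy0
        have h5 := h3 h4
        have h6 : w ((a⁻¹ : Eˣ).1 • y) = od v (a⁻¹ : Eˣ).1 + w y := w.smul (Units.ne_zero _) hy0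
        rw [h6, Units.val_inv_eq_inv_val, od_inv h0] at h5
        linarith
      intro y hy
      rw [Lt.mem_sc, inv_inv]
      refine h2 ?_
      rw [Lt.mem_sc, Units.val_inv_eq_inv_val, inv_smul_smul₀ h0]
      exact hy
    have h2 := Lt.mem_sc.1 (h1 hx)
    rwa [inv_inv] at h2
  · refine ⟨C + 1, fun x hx => ?_⟩
    have h1 : stl v n ⌊w0 v x⌋ ≤ hull A w ((⌊w0 v x⌋ : ℝ) - C) := by
      refine le_sSup ⟨hA.std _, ?_⟩
      intro y hy hy0
      have h2 : (⌊w0 v x⌋ : ℝ) ≤ w0 v y := hy hy0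
      have h3 := (abs_le.1 (hC' y)).1
      linarith
    have h2 : x ∈ stl v n ⌊w0 v x⌋ := fun _ => Int.floor_le _
    have h3 := Int.lt_floor_add_one (w0 v x)
    exact ga1_hull_anti A w (by linarith) (h1 h2)
  · refine ⟨C, fun x r hx hr => ?_⟩
    have h1 := hull_le A w r hr hx
    have h2 := (abs_le.1 (hC' x)).2
    linarith

theorem lat_plus {A : Set (Lt v n)} (hA : IsFam A) (w : Nm v n) (r : ℝ) :
    (plus A w).lat r = hull A w r := by
  unfold plus
  rw [dif_pos (exists_plus hA w)]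
  exact (exists_plus hA w).choose_spec r

end Pool.Agent.GLN
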