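import Pool.Agent.Lib.MP_98022b_gln.ScaleLat

/-!
# Finiteness of the families of the gauge

Row GA7 (helper10): the count is done for an abstract lattice in `ScaleCount.lean`.
-/

set_option autoImplicit false

open scoped WithZero

namespace Pool.Agent.GLN

variable {E : Type} [Field E] {v : Valuation E ℤᵐ⁰} {n : ℕ}

theorem finite_gauge {S : Set (GL (Fin n) E)} (hS : S.Finite)
    (h1 : (1 : GL (Fin n) E) ∈ S) (hv : ∃ π, v π = WithZero.exp (-1)) :
    ∃ C : ℕ, ∀ m b : ℕ,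
      {L | L ∈ SumS (gauge v S m) ∧ stl v n b ≤ L ∧ L ≤ stl v n (-b)}.Finite ∧
      {L | L ∈ SumS (gauge v S m) ∧ stl v n b ≤ L ∧ L ≤ stl v n (-b)}.ncard ≤
        (2 * b + 1) * 2 ^ 2 ^ (C * (m + 1) ^ 2) := by
  obtain ⟨π, hπ⟩ := hv
  rcases Nat.eq_zero_or_pos n with hn | hn
  · -- the trivial case
    subst hn
    have hsub : Subsingleton (Lt v 0) := by
      constructor
      intro L L'
      ext x
      have hx : x = 0 := Subsingleton.elim _ _
      rw [hx]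
      exact ⟨fun _ => L'.zero_mem, fun _ => L.zero_mem⟩
    refine ⟨0, fun m b => ⟨Set.toFinite _, ?_⟩⟩
    have h2 : ∀ X : Set (Lt v 0), X.ncard ≤ 1 := fun X =>
      Set.ncard_le_one_iff_subsingleton.2 (Set.subsingleton_of_subsingleton)
    refine (h2 _).trans ?_
    exact Nat.one_le_iff_ne_zero.2 (by positivity)
  · -- the size of the members of `S`
    obtain ⟨η, hη⟩ : ∃ η : ℕ, ∀ s ∈ S, dist (s • nm0 v n) (nm0 v n) ≤ η := by
      obtain ⟨M, hM⟩ := (hS.image fun s => dist (s • nm0 v n) (nm0 v n)).bddAbove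
      exact ⟨⌈M⌉₊, fun s hs => (hM ⟨s, hs, rfl⟩).trans (Nat.le_ceil M)⟩
    have : Fintype S := hS.fintype
    have : Nonempty S := ⟨⟨1, h1⟩⟩
    let Q := scaleLt (v := v) (n := n) hπ
    let σ : S → Lt v n ≃o Lt v n := fun s => Lt.trIso (v := v) s.1
    have hσ : ∀ s k L, σ s (Q.sh k L) = Q.sh k (σ s L) := fun s k L => Lt.tr_sc _ _ _
    have hη' : ∀ s k, Q.B (k + η) ≤ σ s (Q.B k) ∧ σ s (Q.B k) ≤ Q.B (k - η) :=
      fun s k => stl_tr (hη s.1 s.2) k
    refine ⟨4 * (3 * (Fintype.card S + (2 * η + 1) + (n * (2 * η) + 2)) + 4), fun m b => ?_⟩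
    have h2 := Scale.cov_between hn (Scale.seq_stab hσ m).sumS
      ((Scale.seq_wid hn hη' m).sumS hn) (Scale.sumS_seq_cov hn hσ hη' rfl m) b
    have h3 : {L | L ∈ Q.SumS (Q.seq σ m) ∧ Q.B b ≤ L ∧ L ≤ Q.B (-b)} =
        {L | L ∈ SumS (gauge v S m) ∧ stl v n b ≤ L ∧ L ≤ stl v n (-b)} := by
      rw [scaleLt_sumS, scaleLt_seq]
      rfl
    rw [h3] at h2
    exact ⟨h2.finite, h2.ncard_le⟩

end Pool.Agent.GLN
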