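import Pool.Agent.Lib.MP_98022b_gln.GaugeConv

/-!
# Local convexity of the gap

Row GA4. `exists_comparable`: let `δ > 0` be a lower bound for the differences of distinct values of `w`
(`Nm.exists_values`: finitely many values modulo `1`); take `r = δ / 2`. If `w x ≥ α`, `w' x < β`,
`w' y ≥ β`, `w y < α` then `w x - w y ≥ δ` and `w' y > w' x`, which contradicts
`|w x - w' x| < δ / 2`, `|w y - w' y| < δ / 2`. `gap_geo_loc`: as `gap_geo`; if
`w.lat α ≤ w'.lat β` then all members of `A` in `w.lat α` are in `w.lat α ⊓ w'.lat β`, so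
`hull A w α ≤ hull A (w.geo w' t) ((1 - t) * α + t * β)`.
-/

set_option autoImplicit false

open scoped WithZero

namespace Pool.Agent.GLN

variable {E : Type} [Field E] {v : Valuation E ℤᵐ⁰} {n : ℕ}

/-- The differences of distinct values are bounded below. -/
theorem exists_gap_values (w : Nm v n) : ∃ δ : ℝ, 0 < δ ∧ ∀ x y, x ≠ 0 → y ≠ 0 → w y < w x →
    δ ≤ w x - w y := by
  classical
  obtain ⟨A, -, hA⟩ := w.exists_values
  -- the fractional parts of the differences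
  let D : Finset ℝ := ((A ×ˢ A).image fun p => Int.fract (p.1 - p.2)).filter fun d => 0 < d
  obtain ⟨δ, hδ, hδD⟩ : ∃ δ : ℝ, 0 < δ ∧ ∀ d ∈ D, δ ≤ d := by
    by_cases hD : D.Nonempty
    · exact ⟨D.min' hD, (Finset.mem_filter.1 (D.min'_mem hD)).2, fun d hd => D.min'_le d hd⟩
    · rw [Finset.not_nonempty_iff_eq_empty] at hD
      exact ⟨1, one_pos, fun d hd => by simp [hD] at hd⟩
  refine ⟨min δ 1, lt_min hδ one_pos, fun x y hx hy hxy => ?_⟩
  obtain ⟨a, ha, k, hk⟩ := hA x hx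
  obtain ⟨b, hb, l, hl⟩ := hA y hy
  have h1 : Int.fract (a - b) = Int.fract (w x - w y) := by
    rw [hk, hl, Int.fract_eq_fract]
    exact ⟨l - k, by push_cast; ring⟩
  have h0 : 0 < w x - w y := by linarith
  rcases (Int.fract_nonneg (w x - w y)).lt_or_eq with h2 | h2
  · have h3 : Int.fract (w x - w y) ∈ D := by
      rw [Finset.mem_filter]
      refine ⟨Finset.mem_image.2 ⟨(a, b), Finset.mem_product.2 ⟨ha, hb⟩, h1⟩, h2⟩
    have h4 := hδD _ h3
    have h5 : Int.fract (w x - w y) ≤ w x - w y := by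
      have h6 : (0 : ℤ) ≤ ⌊w x - w y⌋ := Int.floor_nonneg.2 h0.le
      have h7 := Int.floor_add_fract (w x - w y)
      have h8 : (0 : ℝ) ≤ ⌊w x - w y⌋ := by exact_mod_cast h6
      linarith
    exact (min_le_left _ _).trans (h4.trans h5)
  · have h7 := Int.floor_add_fract (w x - w y)
    rw [← h2, add_zero] at h7
    have h8 : (0 : ℤ) < ⌊w x - w y⌋ := by
      have : (0 : ℝ) < ⌊w x - w y⌋ := by rw [h7]; exact h0
      exact_mod_cast this
    have h9 : (1 : ℝ) ≤ ⌊w x - w y⌋ := by exact_mod_cast h8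
    rw [h7] at h9
    exact (min_le_right _ _).trans h9

theorem exists_comparable (w : Nm v n) : ∃ r : ℝ, 0 < r ∧ ∀ w' : Nm v n, dist w w' < r →
    ∀ α β : ℝ, w.lat α ≤ w'.lat β ∨ w'.lat β ≤ w.lat α := by
  obtain ⟨δ, hδ, h⟩ := exists_gap_values w
  refine ⟨δ / 2, by linarith, fun w' hw' α β => ?_⟩
  by_contra hcon
  push Not at hcon
  obtain ⟨h1, h2⟩ := hcon
  obtain ⟨x, hx, hx'⟩ := Set.not_subset.1 h1
  obtain ⟨y, hy, hy'⟩ := Set.not_subset.1 h2
  have hx0 : x ≠ 0 := by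
    rintro rfl
    exact hx' (w'.lat β).zero_mem
  have hy0 : y ≠ 0 := by
    rintro rfl
    exact hy' (w.lat α).zero_mem
  have e1 : α ≤ w x := hx hx0
  have e2 : w' x < β := by
    by_contra h3
    exact hx' fun _ => not_lt.1 h3
  have e3 : β ≤ w' y := hy hy0
  have e4 : w y < α := by
    by_contra h3
    exact hy' fun _ => not_lt.1 h3
  have e5 := h x y hx0 hy0 (by linarith)
  have e6 := abs_le.1 (w.abs_sub_le_dist w' x)
  have e7 := abs_le.1 (w.abs_sub_le_dist w' y)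
  linarith [e6.2, e7.1]

theorem gap_geo_loc {A : Set (Lt v n)} (hA : IsFam A) {w w' : Nm v n}
    (h : ∀ α β : ℝ, w.lat α ≤ w'.lat β ∨ w'.lat β ≤ w.lat α) {t : ℝ} (h0 : 0 ≤ t)
    (h1 : t ≤ 1) : gap A (w.geo w' t) ≤ (1 - t) * gap A w + t * gap A w' := by
  have h2 : gap A (w.geo w' t) ≤ (w.geo w' t).vol - ((plus A w).geo (plus A w') t).vol := by
    refine gap_le hA fun x _ => mem_hull_geo hA h0 h1 (fun α β y hy hy' => ?_) x
    have h4 := lat_inf_le w w' h0 h1 α β
    rcases h α β with h3 | h3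
    · have h5 : hull A w α ≤ hull A (w.geo w' t) ((1 - t) * α + t * β) :=
        sSup_le_sSup fun L hL => ⟨hL.1, (le_inf hL.2 (hL.2.trans h3)).trans h4⟩
      exact h5 hy
    · have h5 : hull A w' β ≤ hull A (w.geo w' t) ((1 - t) * α + t * β) :=
        sSup_le_sSup fun L hL => ⟨hL.1, (le_inf (hL.2.trans h3) hL.2).trans h4⟩
      exact h5 hy'
  rw [Nm.vol_geo _ _ h0 h1, Nm.vol_geo _ _ h0 h1] at h2
  unfold gap at h2 ⊢
  linarith

end Pool.Agent.GLN
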