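import Pool.Agent.Lib.MP_98022b_gln.NormMetric

/-!
# The product over the places

`Bld v n` is the space of the families of norms of volume `0`, one for each place, with the maximum
metric: a complete metric space with a conical, consistent and equivariant choice of geodesics.
-/

set_option autoImplicit false

open scoped WithZero

namespace Pool.Agent.GLN

section

variable {E : Type} [Field E] {I : Type} (v : I → Valuation E ℤᵐ⁰) (n : ℕ)

/-- The families of norms of volume `0`. -/
def Bld : Type := {w : ∀ i, Nm (v i) n // ∀ i, (w i).vol = 0}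

end

namespace Bld

variable {E : Type} [Field E] {I : Type} {v : I → Valuation E ℤᵐ⁰} {n : ℕ}

theorem ext {w w' : Bld v n} (h : ∀ i, w.1 i = w'.1 i) : w = w' := Subtype.ext (funext h)

/-- The base point. -/
noncomputable def o : Bld v n := ⟨fun i => nm0 (v i) n, fun _ => vol_nm0⟩

theorem o_coord (i : I) : (o : Bld v n).1 i = nm0 (v i) n := rfl

noncomputable instance : Inhabited (Bld v n) := ⟨o⟩

theorem vol (w : Bld v n) (i : I) : (w.1 i).vol = 0 := w.2 i

/-! ### The action -/

noncomputable instance : MulAction (Matrix.SpecialLinearGroup (Fin n) E) (Bld v n) where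
  smul g w := ⟨fun i => g • w.1 i, fun i => (Nm.vol_sl_smul g (w.1 i)).trans (w.2 i)⟩
  one_smul w := ext fun i => one_smul _ (w.1 i)
  mul_smul g h w := ext fun i => mul_smul g h (w.1 i)

@[simp] theorem smul_coord (g : Matrix.SpecialLinearGroup (Fin n) E) (w : Bld v n) (i : I) :
    (g • w).1 i = g • w.1 i := rfl

theorem smul_apply (g : Matrix.SpecialLinearGroup (Fin n) E) (w : Bld v n) (i : I)
    (x : Fin n → E) : (g • w).1 i x = w.1 i ((g⁻¹).1.mulVec x) := by
  rw [smul_coord, Nm.sl_smul_apply]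

/-! ### The geodesics -/

/-- `t` moved to the unit interval. -/
noncomputable def clamp (t : ℝ) : ℝ := max 0 (min 1 t)

theorem clamp_nonneg (t : ℝ) : 0 ≤ clamp t := le_max_left _ _

theorem clamp_le_one (t : ℝ) : clamp t ≤ 1 := max_le zero_le_one (min_le_left _ _)

theorem clamp_of_mem {t : ℝ} (h0 : 0 ≤ t) (h1 : t ≤ 1) : clamp t = t := by
  unfold clamp
  rw [min_eq_right h1, max_eq_right h0]

theorem clamp_of_nonpos {t : ℝ} (h : t ≤ 0) : clamp t = 0 := by
  unfold clamp
  rw [min_eq_right (h.trans zero_le_one), max_eq_left h]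

theorem clamp_of_one_le {t : ℝ} (h : 1 ≤ t) : clamp t = 1 := by
  unfold clamp
  rw [min_eq_left h, max_eq_right zero_le_one]

theorem continuous_clamp : Continuous clamp :=
  continuous_const.max (continuous_const.min continuous_id)

theorem clamp_clamp (t : ℝ) : clamp (clamp t) = clamp t :=
  clamp_of_mem (clamp_nonneg t) (clamp_le_one t)

theorem abs_clamp_sub_le (s t : ℝ) : |clamp s - clamp t| ≤ |s - t| := by
  unfold clamp
  have h1 := abs_max_sub_max_le_abs (min 1 s) (min 1 t) (0 : ℝ)
  have h2 := abs_min_sub_min_le_max (1 : ℝ) s 1 t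
  rw [max_comm (min 1 s), max_comm (min 1 t)] at h1
  rw [sub_self, abs_zero, max_eq_right (abs_nonneg _)] at h2
  exact h1.trans h2

/-- The geodesic from `w` to `w'`. -/
noncomputable def geo (w w' : Bld v n) (t : ℝ) : Bld v n :=
  ⟨fun i => (w.1 i).geo (w'.1 i) (clamp t), fun i => by
    rw [Nm.vol_geo _ _ (clamp_nonneg t) (clamp_le_one t), w.2, w'.2]
    ring⟩

theorem geo_coord (w w' : Bld v n) (t : ℝ) (i : I) :
    (geo w w' t).1 i = (w.1 i).geo (w'.1 i) (clamp t) := rfl

theorem geo_coord_of_mem (w w' : Bld v n) {t : ℝ} (h0 : 0 ≤ t) (h1 : t ≤ 1) (i : I) :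
    (geo w w' t).1 i = (w.1 i).geo (w'.1 i) t := by
  rw [geo_coord, clamp_of_mem h0 h1]

theorem geo_clamp (w w' : Bld v n) (t : ℝ) : geo w w' (clamp t) = geo w w' t :=
  ext fun i => by rw [geo_coord, geo_coord, clamp_clamp]

theorem geo_zero (w w' : Bld v n) : geo w w' 0 = w :=
  ext fun i => by rw [geo_coord_of_mem _ _ le_rfl zero_le_one, Nm.geo_zero]

theorem geo_one (w w' : Bld v n) : geo w w' 1 = w' :=
  ext fun i => by rw [geo_coord_of_mem _ _ zero_le_one le_rfl, Nm.geo_one]

theorem geo_of_nonpos (w w' : Bld v n) {t : ℝ} (h : t ≤ 0) : geo w w' t = w := by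
  rw [← geo_clamp, clamp_of_nonpos h, geo_zero]

theorem geo_of_one_le (w w' : Bld v n) {t : ℝ} (h : 1 ≤ t) : geo w w' t = w' := by
  rw [← geo_clamp, clamp_of_one_le h, geo_one]

theorem geo_self (w : Bld v n) (t : ℝ) : geo w w t = w :=
  ext fun i => by rw [geo_coord, Nm.geo_self _ (clamp_nonneg t) (clamp_le_one t)]

theorem clamp_one_sub (t : ℝ) : clamp (1 - t) = 1 - clamp t := by
  rcases le_total t 0 with h | h
  · rw [clamp_of_nonpos h, clamp_of_one_le (by linarith), sub_zero]
  · rcases le_total t 1 with h1 | h1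
    · rw [clamp_of_mem h h1, clamp_of_mem (by linarith) (by linarith)]
    · rw [clamp_of_one_le h1, clamp_of_nonpos (by linarith), sub_self]

theorem geo_symm (w w' : Bld v n) (t : ℝ) : geo w w' t = geo w' w (1 - t) :=
  ext fun i => by
    rw [geo_coord, geo_coord, clamp_one_sub, Nm.geo_symm _ _ (clamp_nonneg t) (clamp_le_one t)]

theorem geo_geo (w w' : Bld v n) {a c t : ℝ} (ha : 0 ≤ a) (ha' : a ≤ 1) (hc : 0 ≤ c)
    (hc' : c ≤ 1) (ht : 0 ≤ t) (ht' : t ≤ 1) :
    geo (geo w w' a) (geo w w' c) t = geo w w' ((1 - t) * a + t * c) :=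
  ext fun i => by
    have h0 : 0 ≤ (1 - t) * a + t * c := by
      have := mul_nonneg (sub_nonneg.2 ht') ha
      have := mul_nonneg ht hc
      linarith
    have h1 : (1 - t) * a + t * c ≤ 1 := by nlinarith
    rw [geo_coord_of_mem _ _ ht ht', geo_coord_of_mem _ _ ha ha', geo_coord_of_mem _ _ hc hc',
      geo_coord_of_mem _ _ h0 h1, Nm.geo_geo _ _ ha ha' hc hc' ht ht']

theorem smul_geo (g : Matrix.SpecialLinearGroup (Fin n) E) (w w' : Bld v n) (t : ℝ) :
    g • geo w w' t = geo (g • w) (g • w') t :=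
  ext fun i => by
    rw [smul_coord, geo_coord, geo_coord, smul_coord, smul_coord,
      Nm.sl_smul_geo _ _ _ (clamp_nonneg t) (clamp_le_one t)]

/-! ### The metric -/

variable [Fintype I]

noncomputable instance : MetricSpace (Bld v n) :=
  inferInstanceAs (MetricSpace {w : ∀ i, Nm (v i) n // ∀ i, (w i).vol = 0})

theorem dist_def (w w' : Bld v n) : dist w w' = dist w.1 w'.1 := rfl

theorem dist_coord_le (w w' : Bld v n) (i : I) : dist (w.1 i) (w'.1 i) ≤ dist w w' :=
  dist_le_pi_dist w.1 w'.1 i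

theorem dist_le {w w' : Bld v n} {c : ℝ} (hc : 0 ≤ c) :
    dist w w' ≤ c ↔ ∀ i, dist (w.1 i) (w'.1 i) ≤ c :=
  dist_pi_le_iff hc

theorem dist_lt {w w' : Bld v n} {c : ℝ} (hc : 0 < c) :
    dist w w' < c ↔ ∀ i, dist (w.1 i) (w'.1 i) < c :=
  dist_pi_lt_iff hc

/-- The distance is attained at one of the places. -/
theorem exists_dist [Nonempty I] (w w' : Bld v n) : ∃ i, dist (w.1 i) (w'.1 i) = dist w w' := by
  obtain ⟨i, -, hi⟩ := Finset.exists_max_image Finset.univ (fun i => dist (w.1 i) (w'.1 i))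
    Finset.univ_nonempty
  exact ⟨i, le_antisymm (dist_coord_le w w' i)
    ((dist_le dist_nonneg).2 fun j => hi j (Finset.mem_univ j))⟩

theorem abs_sub_le_dist (w w' : Bld v n) (i : I) (x : Fin n → E) :
    |w.1 i x - w'.1 i x| ≤ dist w w' :=
  ((w.1 i).abs_sub_le_dist (w'.1 i) x).trans (dist_coord_le w w' i)

theorem dist_le_iff {w w' : Bld v n} {c : ℝ} (hc : 0 ≤ c) :
    dist w w' ≤ c ↔ ∀ i x, x ≠ 0 → |w.1 i x - w'.1 i x| ≤ c := by
  rw [dist_le hc]
  exact forall_congr' fun i => Nm.dist_le hc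

instance : IsIsometricSMul (Matrix.SpecialLinearGroup (Fin n) E) (Bld v n) :=
  ⟨fun g => Isometry.of_dist_eq fun w w' => by
    refine le_antisymm ?_ ?_
    · rw [dist_le dist_nonneg]
      intro i
      rw [smul_coord, smul_coord, dist_smul]
      exact dist_coord_le w w' i
    · rw [dist_le dist_nonneg]
      intro i
      rw [← dist_smul g (w.1 i) (w'.1 i), ← smul_coord, ← smul_coord]
      exact dist_coord_le _ _ i⟩

theorem continuous_vol (v : Valuation E ℤᵐ⁰) : Continuous (Nm.vol : Nm v n → ℝ) := by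
  refine (LipschitzWith.of_dist_le_mul (K := n) fun w w' => ?_).continuous
  rw [Real.dist_eq]
  exact_mod_cast Nm.abs_vol_sub_le w w'

instance : CompleteSpace (Bld v n) := by
  have h : IsClosed {w : ∀ i, Nm (v i) n | ∀ i, (w i).vol = 0} := by
    rw [Set.ofPred_forall]
    exact isClosed_iInter fun i =>
      isClosed_eq ((continuous_vol (v i)).comp (continuous_apply i)) continuous_const
  exact h.completeSpace_coe

/-- Geodesics are conical. -/
theorem dist_geo_geo (w w' u u' : Bld v n) {t : ℝ} (h0 : 0 ≤ t) (h1 : t ≤ 1) :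
    dist (geo w w' t) (geo u u' t) ≤ (1 - t) * dist w u + t * dist w' u' := by
  have hc : 0 ≤ (1 - t) * dist w u + t * dist w' u' :=
    add_nonneg (mul_nonneg (by linarith) dist_nonneg) (mul_nonneg h0 dist_nonneg)
  rw [dist_le hc]
  intro i
  rw [geo_coord_of_mem _ _ h0 h1, geo_coord_of_mem _ _ h0 h1]
  refine (Nm.dist_geo_geo _ _ _ _ h0 h1).trans (add_le_add ?_ ?_)
  · exact mul_le_mul_of_nonneg_left (dist_coord_le w u i) (by linarith)
  · exact mul_le_mul_of_nonneg_left (dist_coord_le w' u' i) h0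

theorem dist_geo_left (w w' : Bld v n) {s t : ℝ} (hs : 0 ≤ s) (hs' : s ≤ 1) (ht : 0 ≤ t)
    (ht' : t ≤ 1) : dist (geo w w' s) (geo w w' t) = |s - t| * dist w w' := by
  refine le_antisymm ?_ ?_
  · rw [dist_le (mul_nonneg (abs_nonneg _) dist_nonneg)]
    intro i
    rw [geo_coord_of_mem _ _ hs hs', geo_coord_of_mem _ _ ht ht', Nm.dist_geo_left _ _ hs hs' ht ht']
    exact mul_le_mul_of_nonneg_left (dist_coord_le w w' i) (abs_nonneg _)
  · rcases isEmpty_or_nonempty I with hI | hI
    · have : dist w w' = 0 := by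
        have : w = w' := ext fun i => (hI.false i).elim
        rw [this, dist_self]
      rw [this, mul_zero]
      exact dist_nonneg
    · obtain ⟨i, hi⟩ := exists_dist w w'
      rw [← hi, ← Nm.dist_geo_left _ _ hs hs' ht ht', ← geo_coord_of_mem _ _ hs hs',
        ← geo_coord_of_mem _ _ ht ht']
      exact dist_coord_le _ _ i

theorem dist_geo_geo_left (w w' : Bld v n) (s t : ℝ) :
    dist (geo w w' s) (geo w w' t) = |clamp s - clamp t| * dist w w' := by
  rw [← geo_clamp w w' s, ← geo_clamp w w' t]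
  exact dist_geo_left w w' (clamp_nonneg s) (clamp_le_one s) (clamp_nonneg t) (clamp_le_one t)

theorem dist_left_geo (w w' : Bld v n) {t : ℝ} (ht : 0 ≤ t) (ht' : t ≤ 1) :
    dist w (geo w w' t) = t * dist w w' := by
  have := dist_geo_left w w' le_rfl zero_le_one ht ht'
  rwa [geo_zero, zero_sub, abs_neg, abs_of_nonneg ht] at this

theorem dist_geo_right (w w' : Bld v n) {t : ℝ} (ht : 0 ≤ t) (ht' : t ≤ 1) :
    dist (geo w w' t) w' = (1 - t) * dist w w' := by
  have := dist_geo_left w w' ht ht' zero_le_one le_rfl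
  rwa [geo_one, abs_sub_comm, abs_of_nonneg (sub_nonneg.2 ht')] at this

theorem dist_geo_le (w w' u u' : Bld v n) (s t : ℝ) :
    dist (geo w w' s) (geo u u' t) ≤ dist w u + dist w' u' + |s - t| * dist u u' := by
  refine (dist_triangle _ (geo u u' s) _).trans (add_le_add ?_ ?_)
  · rw [← geo_clamp w w' s, ← geo_clamp u u' s]
    refine (dist_geo_geo w w' u u' (clamp_nonneg s) (clamp_le_one s)).trans (add_le_add ?_ ?_)
    · have := mul_nonneg (clamp_nonneg s) (dist_nonneg (x := w) (y := u))
      linarith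
    · exact mul_le_of_le_one_left dist_nonneg (clamp_le_one s)
  · rw [dist_geo_geo_left]
    exact mul_le_mul_of_nonneg_right (abs_clamp_sub_le s t) dist_nonneg

/-- Joint continuity. -/
theorem continuous_geo : Continuous fun p : Bld v n × Bld v n × ℝ => geo p.1 p.2.1 p.2.2 := by
  rw [continuous_iff_continuousAt]
  rintro ⟨w, w', t⟩
  rw [ContinuousAt, tendsto_iff_dist_tendsto_zero]
  have h1 : Filter.Tendsto (fun p : Bld v n × Bld v n × ℝ =>
      dist p.1 w + dist p.2.1 w' + |p.2.2 - t| * dist w w') (nhds (w, w', t)) (nhds 0) := by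
    have h2 : Continuous (fun p : Bld v n × Bld v n × ℝ =>
        dist p.1 w + dist p.2.1 w' + |p.2.2 - t| * dist w w') := by fun_prop
    have h3 := h2.tendsto (w, w', t)
    simpa using h3
  exact squeeze_zero (fun _ => dist_nonneg) (fun p => dist_geo_le p.1 p.2.1 w w' p.2.2 t) h1

/-! ### The embedding in a Banach space -/

/-- The embedding in a Banach space. -/
noncomputable def emb (w : Bld v n) : I → lp (fun _ : Fin n → E => ℝ) ⊤ := fun i => (w.1 i).emb

theorem isometry_emb : Isometry (emb : Bld v n → I → lp (fun _ : Fin n → E => ℝ) ⊤) :=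
  Isometry.of_dist_eq fun w w' => by
    refine le_antisymm ?_ ?_
    · rw [dist_pi_le_iff dist_nonneg]
      exact fun i => dist_coord_le w w' i
    · rw [dist_le dist_nonneg]
      exact fun i => dist_le_pi_dist (emb w) (emb w') i

end Bld

end Pool.Agent.GLN
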