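import Pool.Agent.Lib.MP_98022b_gln.ConeDefs
import Pool.Agent.Lib.MP_98022b_gln.Prod
import Pool.Agent.Lib.MP_98022b_gln.GaugeLoc
import Pool.Agent.Lib.MP_98022b_gln.GaugeFin
import Pool.Agent.Lib.MP_98022b_gln.GaugeComp

/-!
# The gauge on the product over the places

`gF v S m w` is the sum over the places of the gaps of the family `gauge (v i) S m`. The space
`Bld v n` with these functions satisfies `ConeData`.
-/

set_option autoImplicit false

open scoped WithZero
open Set Filter Topology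

namespace Pool.Agent.GLN

variable {E : Type} [Field E] {n : ℕ} {I : Type} [Fintype I] {v : I → Valuation E ℤᵐ⁰}

/-- The gauge functions. -/
noncomputable def gF {E : Type} [Field E] {n : ℕ} {I : Type} [Fintype I]
    (v : I → Valuation E ℤᵐ⁰) (S : Set (GL (Fin n) E)) (m : ℕ) (w : Bld v n) : ℝ :=
  ∑ i, gap (gauge (v i) S m) (w.1 i)

/-- The matrices of the elements of `S`. -/
def sgl {G : Subgroup (Matrix.SpecialLinearGroup (Fin n) E)} (S : Finset G) :
    Set (GL (Fin n) E) :=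
  {g | ∃ s ∈ S, g = Matrix.SpecialLinearGroup.toGL (s : Matrix.SpecialLinearGroup (Fin n) E)}

theorem one_mem_sgl {G : Subgroup (Matrix.SpecialLinearGroup (Fin n) E)} {S : Finset G}
    (h1 : (1 : G) ∈ S) : (1 : GL (Fin n) E) ∈ sgl S :=
  ⟨1, h1, by rw [Subgroup.coe_one, map_one]⟩

theorem finite_sgl {G : Subgroup (Matrix.SpecialLinearGroup (Fin n) E)} (S : Finset G) :
    (sgl S).Finite := by
  have h : sgl S = (fun s : G =>
      (Matrix.SpecialLinearGroup.toGL (s : Matrix.SpecialLinearGroup (Fin n) E) :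
        GL (Fin n) E)) '' (S : Set G) := by
    ext g
    constructor
    · rintro ⟨s, hs, rfl⟩
      exact ⟨s, hs, rfl⟩
    · rintro ⟨s, hs, rfl⟩
      exact ⟨s, hs, rfl⟩
  rw [h]
  exact S.finite_toSet.image _

section

variable {S : Set (GL (Fin n) E)} (h1 : (1 : GL (Fin n) E) ∈ S)
  (hv : ∀ i, ∃ π, v i π = WithZero.exp (-1))

include h1 hv

theorem gF_nonneg (m : ℕ) (w : Bld v n) : 0 ≤ gF v S m w :=
  Finset.sum_nonneg fun i _ => gap_nonneg (isFam_gauge h1 (hv i) m) (w.1 i)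

theorem gap_le_gF (m : ℕ) (w : Bld v n) (i : I) : gap (gauge (v i) S m) (w.1 i) ≤ gF v S m w :=
  Finset.single_le_sum (f := fun i => gap (gauge (v i) S m) (w.1 i))
    (fun j _ => gap_nonneg (isFam_gauge h1 (hv j) m) (w.1 j)) (Finset.mem_univ i)

theorem gF_anti (m : ℕ) (w : Bld v n) : gF v S (m + 1) w ≤ gF v S m w :=
  Finset.sum_le_sum fun i _ => gap_mono (isFam_gauge h1 (hv i) m) (isFam_gauge h1 (hv i) (m + 1))
    (gauge_succ h1 m) (w.1 i)

theorem gF_lip (m : ℕ) (w w' : Bld v n) :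
    |gF v S m w - gF v S m w'| ≤ (Fintype.card I * (2 * n)) * dist w w' := by
  unfold gF
  rw [← Finset.sum_sub_distrib]
  refine (Finset.abs_sum_le_sum_abs _ _).trans ?_
  calc ∑ i, |gap (gauge (v i) S m) (w.1 i) - gap (gauge (v i) S m) (w'.1 i)|
      ≤ ∑ _i : I, 2 * n * dist w w' := by
        refine Finset.sum_le_sum fun i _ => ?_
        refine (gap_lip (isFam_gauge h1 (hv i) m) (w.1 i) (w'.1 i)).trans ?_
        exact mul_le_mul_of_nonneg_left (Bld.dist_coord_le w w' i) (by positivity)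
    _ = (Fintype.card I * (2 * n)) * dist w w' := by
        rw [Finset.sum_const, Finset.card_univ, nsmul_eq_mul]
        ring

theorem gF_o (m : ℕ) : gF v S m (Bld.o : Bld v n) = 0 :=
  Finset.sum_eq_zero fun i _ => gap_nm0 h1 (hv i) m

theorem gF_geo (m : ℕ) (w w' : Bld v n) {t : ℝ} (h0 : 0 ≤ t) (ht : t ≤ 1) :
    gF v S (m + 1) (Bld.geo w w' t) ≤ (1 - t) * gF v S m w + t * gF v S m w' := by
  unfold gF
  rw [Finset.mul_sum, Finset.mul_sum, ← Finset.sum_add_distrib]
  refine Finset.sum_le_sum fun i _ => ?_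
  rw [Bld.geo_coord_of_mem _ _ h0 ht]
  exact gap_geo (isFam_gauge h1 (hv i) m) (isFam_gauge h1 (hv i) (m + 1))
    (fun U hU U' hU' => inf_mem_gauge h1 m U hU U' hU') _ _ h0 ht

theorem gF_loc (w : Bld v n) : ∃ r : ℝ, 0 < r ∧ ∀ w' : Bld v n, dist w w' < r → ∀ (m : ℕ) (t : ℝ),
    0 ≤ t → t ≤ 1 → gF v S m (Bld.geo w w' t) ≤ (1 - t) * gF v S m w + t * gF v S m w' := by
  choose r hr hr' using fun i => exists_comparable (w.1 i)
  obtain ⟨ρ, hρ, hρr⟩ : ∃ ρ : ℝ, 0 < ρ ∧ ∀ i, ρ ≤ r i := by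
    rcases isEmpty_or_nonempty I with hI | hI
    · exact ⟨1, one_pos, fun i => (hI.false i).elim⟩
    · obtain ⟨i, -, hi⟩ := Finset.exists_min_image Finset.univ r Finset.univ_nonempty
      exact ⟨r i, hr i, fun j => hi j (Finset.mem_univ j)⟩
  refine ⟨ρ, hρ, fun w' hw' m t h0 ht => ?_⟩
  unfold gF
  rw [Finset.mul_sum, Finset.mul_sum, ← Finset.sum_add_distrib]
  refine Finset.sum_le_sum fun i _ => ?_
  rw [Bld.geo_coord_of_mem _ _ h0 ht]
  refine gap_geo_loc (isFam_gauge h1 (hv i) m) (hr' i (w'.1 i) ?_) h0 ht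
  exact ((Bld.dist_coord_le w w' i).trans_lt hw').trans_le (hρr i)

theorem gF_smul (m : ℕ) {s : Matrix.SpecialLinearGroup (Fin n) E}
    (hs : Matrix.SpecialLinearGroup.toGL s ∈ S) (w : Bld v n) :
    gF v S (m + 1) (s • w) ≤ gF v S m w :=
  Finset.sum_le_sum fun i _ => gap_smul h1 (hv i) m hs (w.1 i)

theorem dist_o_le {η : ℕ} (hη : ∀ s ∈ S, ∀ i, dist (s • nm0 (v i) n) (nm0 (v i) n) ≤ η) (m : ℕ)
    (w : Bld v n) : dist Bld.o w ≤ (2 * η + 1) * (m + 1) + 2 * gF v S m w := by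
  have h0 := gF_nonneg h1 hv m w
  rw [Bld.dist_le (by positivity)]
  intro i
  have h2 := dist_nm0_le (isFam_gauge h1 (hv i) m)
    (isRad_gauge (hv i) (fun s hs => hη s hs i) m) (hv i) (w.2 i)
  have h3 := gap_le_gF h1 hv m w i
  rw [Bld.o_coord]
  refine h2.trans ?_
  push_cast
  nlinarith [h2, h3, (Nat.cast_nonneg η : (0 : ℝ) ≤ η), (Nat.cast_nonneg m : (0 : ℝ) ≤ m)]

theorem isCompact_gF (hS : S.Finite) {η : ℕ}
    (hη : ∀ s ∈ S, ∀ i, dist (s • nm0 (v i) n) (nm0 (v i) n) ≤ η) (c : ℕ → ℝ)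
    (hc : Tendsto c atTop (𝓝 0)) : IsCompact {w : Bld v n | ∀ m, gF v S m w ≤ c m} := by
  have hK : ∀ i, IsCompact {w : Nm (v i) n | w.vol = 0 ∧ ∀ m, gap (gauge (v i) S m) w ≤ c m} := by
    intro i
    obtain ⟨C, hC⟩ := finite_gauge (v := v i) hS h1 (hv i)
    exact isCompact_gap h1 (hv i) (fun s hs => hη s hs i) (fun m b => (hC m b).1) c hc
  have hpi := isCompact_univ_pi hK
  have hcl : IsClosed {w : ∀ i, Nm (v i) n | ∀ i, (w i).vol = 0} := by
    rw [Set.ofPred_forall]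
    exact isClosed_iInter fun i =>
      isClosed_eq ((Bld.continuous_vol (v i)).comp (continuous_apply i)) continuous_const
  have hemb : IsClosedEmbedding (Subtype.val : Bld v n → ∀ i, Nm (v i) n) :=
    hcl.isClosedEmbedding_subtypeVal
  have hcomp := hemb.isCompact_preimage hpi
  refine hcomp.of_isClosed_subset ?_ ?_
  · rw [Set.ofPred_forall]
    refine isClosed_iInter fun m => isClosed_le ?_ continuous_const
    refine (LipschitzWith.of_dist_le_mul (K := ((Fintype.card I * (2 * n) : ℕ) : NNReal))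
      fun w w' => ?_).continuous
    rw [Real.dist_eq]
    have := gF_lip h1 hv m w w'
    push_cast
    exact this
  · intro w hw
    refine Set.mem_univ_pi.2 fun i => ⟨w.2 i, fun m => ?_⟩
    exact (gap_le_gF h1 hv m w i).trans (hw m)

end

theorem coneData (hv : ∀ i, ∃ π, v i π = WithZero.exp (-1))
    (G : Subgroup (Matrix.SpecialLinearGroup (Fin n) E)) (S : Finset G) (h1 : (1 : G) ∈ S) :
    ∃ L R η : ℝ, ConeData G S (Bld v n) Bld.geo Bld.o (gF v (sgl S)) L R η := by
  have h1' := one_mem_sgl h1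
  obtain ⟨η, hη⟩ : ∃ η : ℕ, ∀ s ∈ S, dist ((s : Matrix.SpecialLinearGroup (Fin n) E) •
      (Bld.o : Bld v n)) Bld.o ≤ η := by
    refine ⟨S.sup fun s => ⌈dist ((s : Matrix.SpecialLinearGroup (Fin n) E) •
      (Bld.o : Bld v n)) Bld.o⌉₊, fun s hs => (Nat.le_ceil _).trans ?_⟩
    exact_mod_cast Finset.le_sup (f := fun s : G =>
      ⌈dist ((s : Matrix.SpecialLinearGroup (Fin n) E) • (Bld.o : Bld v n)) Bld.o⌉₊) hs
  have hη' : ∀ s ∈ sgl S, ∀ i, dist (s • nm0 (v i) n) (nm0 (v i) n) ≤ η := by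
    rintro _ ⟨s, hs, rfl⟩ i
    refine le_trans ?_ (hη s hs)
    exact Bld.dist_coord_le ((s : Matrix.SpecialLinearGroup (Fin n) E) • (Bld.o : Bld v n))
      Bld.o i
  refine ⟨Fintype.card I * (2 * n), 2 * η + 1, η, ?_⟩
  refine
    { bicomb :=
        { zero := Bld.geo_zero
          one := Bld.geo_one
          speed := fun x y s t hs hs' ht ht' => (Bld.dist_geo_left x y hs hs' ht ht').le
          conical := fun x y x' y' t h0 ht => Bld.dist_geo_geo x y x' y' h0 ht
          consistent := fun x y a b t ha ha' hb hb' h0 ht =>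
            Bld.geo_geo x y ha ha' hb hb' h0 ht }
      isom := fun g x y => dist_smul (g : Matrix.SpecialLinearGroup (Fin n) E) x y
      geo_smul := fun g x y t _ _ =>
        Bld.smul_geo (g : Matrix.SpecialLinearGroup (Fin n) E) x y t
      nonneg := gF_nonneg h1' hv
      anti := gF_anti h1' hv
      lip := gF_lip h1' hv
      base := gF_o h1' hv
      convex := fun m x y t h0 ht => gF_geo h1' hv m x y h0 ht
      loc := gF_loc h1' hv
      smul := fun s hs m x => gF_smul h1' hv m ⟨s, hs, rfl⟩ x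
      radius := dist_o_le h1' hv hη'
      compact := fun c hc => isCompact_gF h1' hv (finite_sgl S) hη' c hc
      eta := fun s hs => by
        rw [dist_comm]
        exact hη s hs }

end Pool.Agent.GLN
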