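import Pool.Agent.Lib.MP_98022b_gln.GaugeFam

/-!
# The radius

Row GA6. `isRad_gauge`: induction. If `stl (k + R) ≤ L ≤ stl k` then
`stl (k + R + η) ≤ L.tr s ≤ stl (k - η)` (`hη`); the sum of a bounded family is between
`stl (k + R)` and `stl k` for the smallest `k` of the members (bounded below, because
`stl a ≤ stl b` implies `b ≤ a` for `n > 0`); the intersection: the larger `k`.
`dist_le_of_lat`: `(plus A w).lat 0 = U ∈ SumS A` has `stl (k + R) ≤ U ≤ stl k`, so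
`w0 x - k - R ≤ plus A w x ≤ w0 x - k + 1` (multiply `x` by a power of `π`); with
`vol (plus A w) = - gap A w` (`vol w = 0`) and `Nm.vol_le_add`: `k ≤ 1 + gap A w`, `- k ≤ R`, so
`|plus A w x - w0 x| ≤ R + 1 + gap A w`. (`n = 0` is trivial.)
-/

set_option autoImplicit false

open scoped WithZero

namespace Pool.Agent.GLN

variable {E : Type} [Field E] {v : Valuation E ℤᵐ⁰} {n : ℕ}

private theorem stl_anti {a b : ℤ} (h : a ≤ b) : stl v n b ≤ stl v n a :=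
  (nm0 v n).lat_anti (by exact_mod_cast h)

private theorem nm0_int {x : Fin n → E} (hx : x ≠ 0) : ∃ t : ℤ, nm0 v n x = t := by
  obtain ⟨i, -, hi⟩ := exists_w0 (v := v) hx
  obtain ⟨k, hk⟩ := od_int (v := v) (x i)
  exact ⟨k, hi.trans hk⟩

private theorem pi_ne_zero {π : E} (hπ : v π = WithZero.exp (-1)) : π ≠ 0 := by
  intro h
  rw [h, map_zero] at hπ
  exact WithZero.exp_ne_zero hπ.symm

private theorem nm_zpow (w : Nm v n) {π : E} (hπ : v π = WithZero.exp (-1)) (k : ℤ)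
    {x : Fin n → E} (hx : x ≠ 0) : w ((π ^ k) • x) = k + w x := by
  rw [w.smul (zpow_ne_zero k (pi_ne_zero hπ)) hx, od_zpow hπ]

private theorem le_of_stl_le {π : E} (hπ : v π = WithZero.exp (-1)) (hn : 0 < n) {a b : ℤ}
    (h : stl v n a ≤ stl v n b) : b ≤ a := by
  have hx : (Pi.basisFun E (Fin n) ⟨0, hn⟩) ≠ 0 := (Pi.basisFun E (Fin n)).ne_zero _
  have h1 : (π ^ a) • (Pi.basisFun E (Fin n) ⟨0, hn⟩) ∈ stl v n a := by
    intro _
    rw [nm_zpow _ hπ _ hx, nm0_basis, add_zero]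
  have h2 := h h1 (smul_ne_zero (zpow_ne_zero a (pi_ne_zero hπ)) hx)
  rw [nm_zpow _ hπ _ hx, nm0_basis, add_zero] at h2
  exact_mod_cast h2

private theorem lt_subsingleton (hn : n = 0) (U U' : Lt v n) : U ≤ U' := by
  subst hn
  intro x _
  have : x = 0 := Subsingleton.elim _ _
  rw [this]
  exact U'.zero_mem

theorem isRad_SumS (hv : ∃ π, v π = WithZero.exp (-1)) {A : Set (Lt v n)} {R : ℕ}
    (hA : IsRad A R) : IsRad (SumS A) R := by
  classical
  obtain ⟨π, hπ⟩ := hv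
  rintro U ⟨T, hT, ⟨L₀, hL₀⟩, ⟨k₀, hk₀⟩, rfl⟩
  rcases Nat.eq_zero_or_pos n with hn | hn
  · exact ⟨0, lt_subsingleton hn _ _, lt_subsingleton hn _ _⟩
  · have hne : ∃ k : ℤ, ∃ L ∈ T, stl v n (k + R) ≤ L ∧ L ≤ stl v n k := by
      obtain ⟨k, h1, h2⟩ := hA L₀ (hT hL₀)
      exact ⟨k, L₀, hL₀, h1, h2⟩
    have hb : ∀ k : ℤ, (∃ L ∈ T, stl v n (k + R) ≤ L ∧ L ≤ stl v n k) → k₀ - R ≤ k := by
      rintro k ⟨L, hL, h1, -⟩
      have := le_of_stl_le hπ hn (h1.trans (hk₀ L hL))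
      linarith
    obtain ⟨k, ⟨L, hL, h1, h2⟩, hmin⟩ := Int.exists_least_of_bdd
      (P := fun k : ℤ => ∃ L ∈ T, stl v n (k + R) ≤ L ∧ L ≤ stl v n k) ⟨k₀ - R, hb⟩ hne
    refine ⟨k, h1.trans (le_sSup hL), sSup_le fun L' hL' => ?_⟩
    obtain ⟨k', h3, h4⟩ := hA L' (hT hL')
    exact h4.trans (stl_anti (hmin k' ⟨L', hL', h3, h4⟩))

private theorem isRad_trS {S : Set (GL (Fin n) E)} {η : ℕ}
    (hη : ∀ s ∈ S, dist (s • nm0 v n) (nm0 v n) ≤ η) {A : Set (Lt v n)} {R : ℕ}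
    (hA : IsRad A R) : IsRad (trS S A) (R + 2 * η) := by
  rintro L ⟨s, hs, L', hL', rfl⟩
  obtain ⟨k, h1, h2⟩ := hA L' hL'
  have hd := hη s hs
  refine ⟨k - η, ?_, ?_⟩
  · intro x hx
    rw [Lt.mem_tr]
    apply h1
    intro hx0
    have hx1 : x ≠ 0 := by
      rintro rfl
      exact hx0 (Matrix.mulVec_zero _)
    have h3 : ((k - η + ((R + 2 * η : ℕ) : ℤ) : ℤ) : ℝ) ≤ nm0 v n x := hx hx1
    have h4 := Nm.abs_sub_le_dist (s • nm0 v n) (nm0 v n) x
    have h5 := (abs_le.1 h4).1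
    rw [Nm.smul_apply] at h5
    push_cast at h3
    have e : ((k + (R : ℤ) : ℤ) : ℝ) = k + R := by push_cast; ring
    show ((k + (R : ℤ) : ℤ) : ℝ) ≤ _
    rw [e]
    linarith
  · intro x hx hx0
    rw [Lt.mem_tr] at hx
    have h3 : (k : ℝ) ≤ nm0 v n ((s⁻¹).1.mulVec x) := h2 hx (inv_mulVec_ne_zero s hx0)
    have h4 := Nm.abs_sub_le_dist (s • nm0 v n) (nm0 v n) x
    have h5 := (abs_le.1 h4).2
    rw [Nm.smul_apply] at h5
    have e : ((k - (η : ℤ) : ℤ) : ℝ) = k - η := by push_cast; ring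
    show ((k - (η : ℤ) : ℤ) : ℝ) ≤ _
    rw [e]
    linarith

private theorem isRad_inf {A : Set (Lt v n)} {R : ℕ} (hA : IsRad A R) {U₁ U₂ : Lt v n}
    (h1 : U₁ ∈ A) (h2 : U₂ ∈ A) : ∃ k : ℤ, stl v n (k + R) ≤ U₁ ⊓ U₂ ∧ U₁ ⊓ U₂ ≤ stl v n k := by
  obtain ⟨k₁, h3, h4⟩ := hA U₁ h1
  obtain ⟨k₂, h5, h6⟩ := hA U₂ h2
  refine ⟨max k₁ k₂, le_inf ((stl_anti ?_).trans h3) ((stl_anti ?_).trans h5), ?_⟩
  · have := le_max_left k₁ k₂
    linarith
  · have := le_max_right k₁ k₂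
    linarith
  · rcases le_total k₁ k₂ with h | h
    · rw [max_eq_right h]
      exact inf_le_right.trans h6
    · rw [max_eq_left h]
      exact inf_le_left.trans h4

theorem isRad_gauge (hv : ∃ π, v π = WithZero.exp (-1)) {S : Set (GL (Fin n) E)} {η : ℕ}
    (hη : ∀ s ∈ S, dist (s • nm0 v n) (nm0 v n) ≤ η) (m : ℕ) :
    IsRad (gauge v S m) (2 * η * m) := by
  induction m with
  | zero =>
    rintro L ⟨k, rfl⟩
    exact ⟨k, by simp, le_rfl⟩
  | succ m ih =>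
    have h1 := isRad_SumS hv (isRad_trS hη ih)
    rintro U ⟨U₁, hU₁, U₂, hU₂, rfl⟩
    have h2 := isRad_inf h1 hU₁ hU₂
    have e : 2 * η * m + 2 * η = 2 * η * (m + 1) := by ring
    rw [e] at h2
    exact h2

theorem dist_nm0_le {A : Set (Lt v n)} (hA : IsFam A) {R : ℕ} (hR : IsRad A R)
    (hv : ∃ π, v π = WithZero.exp (-1)) {w : Nm v n} (hw : w.vol = 0) :
    dist (nm0 v n) w ≤ R + 1 + 2 * gap A w := by
  have hg : 0 ≤ gap A w := gap_nonneg hA w
  have hpos : (0 : ℝ) ≤ R + 1 + 2 * gap A w := by positivity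
  rw [Nm.dist_le hpos]
  intro x₀ hx₀
  have hn : 0 < n := by
    rcases Nat.eq_zero_or_pos n with hn | hn
    · subst hn
      exact absurd (Subsingleton.elim x₀ 0) hx₀
    · exact hn
  obtain ⟨k, hk1, hk2⟩ : ∃ k : ℤ, stl v n (k + R) ≤ (plus A w).lat 0 ∧
      (plus A w).lat 0 ≤ stl v n k := by
    apply isRad_SumS hv hR
    rw [lat_plus hA]
    obtain ⟨C, hC⟩ := w.bdd (nm0 v n)
    refine ⟨{L | L ∈ A ∧ L ≤ w.lat 0}, fun L hL => hL.1, ?_, ⟨⌊-C⌋, ?_⟩, rfl⟩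
    · refine ⟨stl v n ⌈C⌉, hA.std _, ?_⟩
      intro x hx hx0
      have h1 : ((⌈C⌉ : ℤ) : ℝ) ≤ nm0 v n x := hx hx0
      have h2 := (abs_le.1 (hC x)).1
      have h3 := Int.le_ceil C
      linarith
    · rintro L ⟨-, hL⟩
      refine hL.trans ?_
      intro x hx hx0
      have h1 : (0 : ℝ) ≤ w x := hx hx0
      have h2 := (abs_le.1 (hC x)).2
      have h3 := Int.floor_le (-C)
      linarith
  obtain ⟨π, hπ⟩ := hv
  have hlow : ∀ x, x ≠ 0 → nm0 v n x - k - R ≤ plus A w x := by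
    intro x hx
    obtain ⟨t, ht⟩ := nm0_int (v := v) hx
    have hy : (π ^ (k + R - t)) • x ≠ 0 := smul_ne_zero (zpow_ne_zero _ (pi_ne_zero hπ)) hx
    have h1 : (π ^ (k + R - t)) • x ∈ stl v n (k + R) := by
      intro _
      rw [nm_zpow _ hπ _ hx, ht]
      push_cast
      linarith
    have h2 : (0 : ℝ) ≤ plus A w ((π ^ (k + R - t)) • x) := hk1 h1 hy
    rw [nm_zpow _ hπ _ hx] at h2
    push_cast at h2
    rw [ht]
    linarith
  have hup : ∀ x, x ≠ 0 → plus A w x ≤ nm0 v n x - k + 1 := by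
    intro x hx
    have hy : (π ^ (-⌊plus A w x⌋)) • x ≠ 0 := smul_ne_zero (zpow_ne_zero _ (pi_ne_zero hπ)) hx
    have h1 : (π ^ (-⌊plus A w x⌋)) • x ∈ (plus A w).lat 0 := by
      intro _
      rw [nm_zpow _ hπ _ hx]
      push_cast
      have := Int.floor_le (plus A w x)
      linarith
    have h2 : (k : ℝ) ≤ nm0 v n ((π ^ (-⌊plus A w x⌋)) • x) := hk2 h1 hy
    rw [nm_zpow _ hπ _ hx] at h2
    push_cast at h2
    have h3 := Int.lt_floor_add_one (plus A w x)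
    linarith
  have hvol : (plus A w).vol = -gap A w := by
    unfold gap
    rw [hw]
    ring
  have hnR : (1 : ℝ) ≤ n := by exact_mod_cast hn
  have hka : (k : ℝ) ≤ 1 + gap A w := by
    have h1 := Nm.vol_le_add (w := nm0 v n) (w' := plus A w) (c := 1 - k)
      (fun x hx => by have := hup x hx; linarith)
    rw [hvol, vol_nm0] at h1
    rcases le_or_gt (k : ℝ) 1 with h | h
    · linarith
    · nlinarith
  have hkb : -(k : ℝ) ≤ R := by
    have h1 := Nm.vol_le_add (w := plus A w) (w' := nm0 v n) (c := k + R)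
      (fun x hx => by have := hlow x hx; linarith)
    rw [hvol, vol_nm0] at h1
    by_contra hcon
    push Not at hcon
    nlinarith
  have h1 := hlow x₀ hx₀
  have h2 := hup x₀ hx₀
  have h3 := Nm.abs_sub_le_dist w (plus A w) x₀
  have h4 := dist_plus_le hA w
  have h5 := abs_le.1 (h3.trans h4)
  rw [abs_le]
  constructor <;> linarith [h5.1, h5.2]

end Pool.Agent.GLN
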