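import Pool.Agent.Lib.MP_98022b_gln.GaugeProd
import Pool.Agent.Lib.MP_98022b_gln.DiscN

/-!
# Finiteness of the states of small gauge
-/

set_option autoImplicit false

open scoped WithZero
open Set Filter Topology

namespace Pool.Agent.GLN

section

variable {E : Type} [Field E] {v : Valuation E ℤᵐ⁰} {n : ℕ}

theorem lat_fl (w : Nm v n) (r : ℝ) : (w.fl r).lat 0 = w.lat r := by
  ext x
  rw [Nm.mem_lat, Nm.mem_lat]
  refine forall_congr' fun hx => ?_
  rw [Nm.fl_apply _ _ hx, ← Int.cast_zero, Int.cast_le, Int.floor_nonneg, sub_nonneg]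

theorem Nm.IsInt.fl_zero {w : Nm v n} (h : w.IsInt) : w.fl 0 = w := by
  refine Nm.ext' fun x hx => ?_
  rw [Nm.fl_apply _ _ hx]
  obtain ⟨k, hk⟩ := h x
  rw [hk, sub_zero, Int.floor_intCast]

theorem Nm.IsInt.eq_of_lat {π : E} (hπ : v π = WithZero.exp (-1)) {w w' : Nm v n} (h : w.IsInt)
    (h' : w'.IsInt) (hl : w.lat 0 = w'.lat 0) : w = w' := by
  rw [← h.fl_zero, ← h'.fl_zero]
  exact (Nm.fl_eq_iff hπ).2 hl

private theorem vx_stl_anti {a b : ℤ} (h : a ≤ b) : stl v n b ≤ stl v n a :=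
  Nm.lat_anti _ (by exact_mod_cast h)

private theorem vx_w0_int {x : Fin n → E} (hx : x ≠ 0) : ∃ k : ℤ, w0 v x = k := by
  obtain ⟨i, -, hi⟩ := exists_w0 (v := v) hx
  obtain ⟨k, hk⟩ := od_int (v := v) (x i)
  exact ⟨k, hi.trans hk⟩

/-- The lattice of an integer valued norm of small volume. -/
theorem window_of_int {π : E} (hπ : v π = WithZero.exp (-1)) {u : Nm v n} (hu : u.IsInt)
    (hvol : |u.vol| ≤ 2 * n) {R : ℕ} {k : ℤ} (h1 : stl v n (k + R) ≤ u.lat 0)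
    (h2 : u.lat 0 ≤ stl v n k) :
    stl v n ((R + 2 : ℕ) : ℤ) ≤ u.lat 0 ∧ u.lat 0 ≤ stl v n (-((R + 2 : ℕ) : ℤ)) := by
  rcases Nat.eq_zero_or_pos n with hn | hn
  · subst hn
    exact ⟨fun x _ hx => absurd (Subsingleton.elim x 0) hx,
      fun x _ hx => absurd (Subsingleton.elim x 0) hx⟩
  have hπ0 : π ≠ 0 := by
    rintro rfl
    rw [map_zero] at hπ
    exact WithZero.exp_ne_zero hπ.symm
  have hA : ∀ x, x ≠ 0 → nm0 v n x ≤ u x + (k + R) := by
    intro x hx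
    obtain ⟨j, hj⟩ := vx_w0_int (v := v) hx
    have hz : π ^ (k + R - j) ≠ 0 := zpow_ne_zero _ hπ0
    have hy : (π ^ (k + R - j)) • x ∈ u.lat 0 := by
      apply h1
      intro _
      show ((k + R : ℤ) : ℝ) ≤ nm0 v n _
      rw [Nm.smul _ hz hx, od_zpow hπ, nm0_apply, hj]
      push_cast
      linarith
    have h3 := hy (smul_ne_zero hz hx)
    rw [Nm.smul _ hz hx, od_zpow hπ] at h3
    rw [nm0_apply, hj]
    push_cast at h3
    linarith
  have hB : ∀ x, x ≠ 0 → u x ≤ nm0 v n x + (-(k : ℝ)) := by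
    intro x hx
    obtain ⟨l, hl⟩ := hu x
    have hz : π ^ (-l) ≠ 0 := zpow_ne_zero _ hπ0
    have hy : (π ^ (-l)) • x ∈ u.lat 0 := by
      intro _
      rw [Nm.smul _ hz hx, od_zpow hπ, hl]
      push_cast
      linarith
    have h3 : ((k : ℤ) : ℝ) ≤ nm0 v n ((π ^ (-l)) • x) := h2 hy (smul_ne_zero hz hx)
    rw [Nm.smul _ hz hx, od_zpow hπ] at h3
    push_cast at h3
    linarith
  have hn' : (0 : ℝ) < n := by exact_mod_cast hn
  have h3 := Nm.vol_le_add hA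
  have h4 := Nm.vol_le_add hB
  rw [vol_nm0] at h3 h4
  have h5 := abs_le.1 hvol
  have h6 : (k : ℝ) ≤ 2 := by
    by_contra hcon
    push Not at hcon
    nlinarith
  have h7 : -((R : ℝ) + 2) ≤ k := by
    by_contra hcon
    push Not at hcon
    nlinarith
  have h6' : k ≤ 2 := by exact_mod_cast h6
  have h7' : -((R : ℤ) + 2) ≤ k := by exact_mod_cast h7
  refine ⟨(vx_stl_anti ?_).trans h1, h2.trans (vx_stl_anti ?_)⟩
  · push_cast
    linarith
  · push_cast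
    linarith

end

variable {E : Type} [Field E] {n : ℕ} {I : Type} [Fintype I] {v : I → Valuation E ℤᵐ⁰}

/-- The tuples of lattices which are sums of members of the families of the gauge. -/
def stA {E : Type} [Field E] {n : ℕ} {I : Type} (v : I → Valuation E ℤᵐ⁰)
    (S : Set (GL (Fin n) E)) (m : ℕ) : Set (Vx v n) :=
  {u | ∀ i, (u.1 i).lat 0 ∈ SumS (gauge (v i) S m)}

theorem mem_stA {S : Set (GL (Fin n) E)} (h1 : (1 : GL (Fin n) E) ∈ S)
    (hv : ∀ i, ∃ π, v i π = WithZero.exp (-1)) {m : ℕ} {r e : ℝ} {w : Bld v n}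
    (hw : farB r e w) (he : gF v S m w < e) : stB r w ∈ stA v S m := by
  intro i
  have hA := isFam_gauge h1 (hv i) m
  show ((w.1 i).fl (Int.fract r)).lat 0 ∈ _
  rw [lat_fl, ← Nm.lat_eq (w := w.1 i) (w' := plus (gauge (v i) S m) (w.1 i)) (e := e)
    (fun x hx => ?_) (fun x _ => ?_), lat_plus hA]
  · exact hull_mem_SumS hA _ _
  · have h2 := hw i x hx ⌊r⌋
    have h3 := Int.fract_add_floor r
    have h4 : w.1 i x + (⌊r⌋ : ℝ) - r = w.1 i x - Int.fract r := by linarith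
    rwa [h4] at h2
  · exact ((Nm.abs_sub_le_dist _ _ x).trans ((dist_plus_le hA _).trans
      (gap_le_gF h1 hv m w i))).trans_lt he

/-- An estimate. -/
theorem tower_le (η C d m : ℕ) :
    ((2 * (2 * η * m + 2) + 1) * 2 ^ 2 ^ (C * (m + 1) ^ 2)) ^ d ≤
      2 ^ 2 ^ ((4 * η + 5 + C + 1 + d) * (m + 1) ^ 2) := by
  set N := (m + 1) ^ 2 with hN
  have hN1 : m + 1 ≤ N := by
    rw [hN]
    nlinarith [Nat.zero_le m]
  have hN0 : 1 ≤ N := by omega
  have h1 : 2 * (2 * η * m + 2) + 1 ≤ 2 ^ 2 ^ ((4 * η + 5 + C) * N) := by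
    have h2 : 2 * (2 * η * m + 2) + 1 ≤ (4 * η + 5 + C) * N := by
      have h3 : 2 * (2 * η * m + 2) + 1 ≤ (4 * η + 5) * (m + 1) := by nlinarith
      have h4 : (4 * η + 5) * (m + 1) ≤ (4 * η + 5 + C) * N := Nat.mul_le_mul (by omega) hN1
      omega
    refine h2.trans ((Nat.lt_two_pow_self).le.trans ?_)
    exact Nat.pow_le_pow_right (by norm_num) (Nat.lt_two_pow_self).le
  have h2 : 2 ^ 2 ^ (C * N) ≤ 2 ^ 2 ^ ((4 * η + 5 + C) * N) :=
    Nat.pow_le_pow_right (by norm_num) (Nat.pow_le_pow_right (by norm_num)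
      (Nat.mul_le_mul_right _ (by omega)))
  have h3 : (2 * (2 * η * m + 2) + 1) * 2 ^ 2 ^ (C * N) ≤ 2 ^ 2 ^ ((4 * η + 5 + C + 1) * N) := by
    refine (Nat.mul_le_mul h1 h2).trans ?_
    rw [← pow_add]
    refine Nat.pow_le_pow_right (by norm_num) ?_
    rw [← two_mul, ← pow_succ']
    refine Nat.pow_le_pow_right (by norm_num) ?_
    nlinarith
  refine (Nat.pow_le_pow_left h3 d).trans ?_
  rw [← pow_mul]
  refine Nat.pow_le_pow_right (by norm_num) ?_
  have h4 : d ≤ 2 ^ (d * N) := by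
    refine (Nat.lt_two_pow_self).le.trans (Nat.pow_le_pow_right (by norm_num) ?_)
    nlinarith
  calc 2 ^ ((4 * η + 5 + C + 1) * N) * d ≤ 2 ^ ((4 * η + 5 + C + 1) * N) * 2 ^ (d * N) :=
        Nat.mul_le_mul_left _ h4
    _ = 2 ^ ((4 * η + 5 + C + 1 + d) * N) := by rw [← pow_add]; congr 1; ring

theorem card_stA {S : Set (GL (Fin n) E)} (hS : S.Finite) (h1 : (1 : GL (Fin n) E) ∈ S)
    (hv : ∀ i, ∃ π, v i π = WithZero.exp (-1)) {η : ℕ}
    (hη : ∀ s ∈ S, ∀ i, dist (s • nm0 (v i) n) (nm0 (v i) n) ≤ η) :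
    ∃ C : ℕ, ∀ m : ℕ, (stA v S m).Finite ∧ (stA v S m).ncard ≤ 2 ^ 2 ^ (C * (m + 1) ^ 2) := by
  classical
  choose C hC using fun i => finite_gauge (v := v i) hS h1 (hv i)
  choose π hπ using hv
  obtain ⟨C', hC'⟩ : ∃ C' : ℕ, ∀ i, C i ≤ C' :=
    ⟨Finset.univ.sup C, fun i => Finset.le_sup (Finset.mem_univ i)⟩
  refine ⟨4 * η + 5 + C' + 1 + Fintype.card I, fun m => ?_⟩
  set b : ℕ := 2 * η * m + 2 with hb
  let T : ∀ i, Set (Lt (v i) n) := fun i =>
    {L | L ∈ SumS (gauge (v i) S m) ∧ stl (v i) n b ≤ L ∧ L ≤ stl (v i) n (-b)}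
  have hT : ∀ i, (T i).Finite := fun i => (hC i m b).1
  have hTc : ∀ i, (hT i).toFinset.card ≤ (2 * b + 1) * 2 ^ 2 ^ (C' * (m + 1) ^ 2) := by
    intro i
    rw [← Set.ncard_eq_toFinset_card _ (hT i)]
    refine (hC i m b).2.trans (Nat.mul_le_mul_left _ ?_)
    exact Nat.pow_le_pow_right (by norm_num) (Nat.pow_le_pow_right (by norm_num)
      (Nat.mul_le_mul_right _ (hC' i)))
  let f : Vx v n → ∀ i, Lt (v i) n := fun u i => (u.1 i).lat 0
  have hf : Function.Injective f := by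
    intro u u' h
    refine Subtype.ext (funext fun i => ?_)
    exact (u.2 i).1.eq_of_lat (hπ i) (u'.2 i).1 (congrFun h i)
  let T' : Finset (∀ i, Lt (v i) n) := Fintype.piFinset fun i => (hT i).toFinset
  have hmaps : Set.MapsTo f (stA v S m) (T' : Set (∀ i, Lt (v i) n)) := by
    intro u hu
    rw [Finset.mem_coe, Fintype.mem_piFinset]
    intro i
    rw [Set.Finite.mem_toFinset]
    obtain ⟨k, hk1, hk2⟩ := isRad_SumS ⟨_, hπ i⟩
      (isRad_gauge (v := v i) ⟨_, hπ i⟩ (fun s hs => hη s hs i) m) _ (hu i)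
    obtain ⟨h2, h3⟩ := window_of_int (hπ i) (u.2 i).1 (u.2 i).2 hk1 hk2
    exact ⟨hu i, h2, h3⟩
  have hfin : (stA v S m).Finite := Set.Finite.of_injOn hmaps hf.injOn T'.finite_toSet
  refine ⟨hfin, ?_⟩
  calc (stA v S m).ncard ≤ (T' : Set (∀ i, Lt (v i) n)).ncard :=
        Set.ncard_le_ncard_of_injOn f hmaps hf.injOn T'.finite_toSet
    _ = ∏ i, (hT i).toFinset.card := by
        rw [Set.ncard_coe_finset, Fintype.card_piFinset]
    _ ≤ ∏ _i : I, ((2 * b + 1) * 2 ^ 2 ^ (C' * (m + 1) ^ 2)) :=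
        Finset.prod_le_prod' fun i _ => hTc i
    _ = ((2 * b + 1) * 2 ^ 2 ^ (C' * (m + 1) ^ 2)) ^ Fintype.card I := by
        rw [Finset.prod_const, Finset.card_univ]
    _ ≤ _ := tower_le η C' (Fintype.card I) m

theorem exists_eta (G : Subgroup (Matrix.SpecialLinearGroup (Fin n) E)) (S : Finset G) :
    ∃ η : ℕ, ∀ s ∈ sgl S, ∀ i, dist (s • nm0 (v i) n) (nm0 (v i) n) ≤ η := by
  refine ⟨S.sup fun s => ⌈dist ((s : Matrix.SpecialLinearGroup (Fin n) E) •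
    (Bld.o : Bld v n)) Bld.o⌉₊, ?_⟩
  rintro _ ⟨s, hs, rfl⟩ i
  have h1 : dist (Matrix.SpecialLinearGroup.toGL (s : Matrix.SpecialLinearGroup (Fin n) E) •
      nm0 (v i) n) (nm0 (v i) n) ≤ dist ((s : Matrix.SpecialLinearGroup (Fin n) E) •
      (Bld.o : Bld v n)) Bld.o :=
    Bld.dist_coord_le ((s : Matrix.SpecialLinearGroup (Fin n) E) • (Bld.o : Bld v n)) Bld.o i
  refine h1.trans ((Nat.le_ceil _).trans ?_)
  exact_mod_cast Finset.le_sup (f := fun s : G =>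
    ⌈dist ((s : Matrix.SpecialLinearGroup (Fin n) E) • (Bld.o : Bld v n)) Bld.o⌉₊) hs

/-- Finiteness of the states of small gauge. -/
theorem gaugeFin [Nonempty I] (hv : ∀ i, ∃ π, v i π = WithZero.exp (-1))
    (G : Subgroup (Matrix.SpecialLinearGroup (Fin n) E)) (S : Finset G) (h1 : (1 : G) ∈ S) :
    GaugeFin (discN (v := v) G) (gF v (sgl S)) := by
  obtain ⟨η, hη⟩ := exists_eta (v := v) G S
  obtain ⟨C, hC⟩ := card_stA (v := v) (finite_sgl S) (one_mem_sgl h1) hv hη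
  exact ⟨C, fun m => ⟨stA v (sgl S) m, (hC m).1, (hC m).2, fun r e w hw he =>
    mem_stA (one_mem_sgl h1) hv hw he⟩⟩

end Pool.Agent.GLN
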