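import Mathlib
import Pool.Agent.Lib.MP_98022b_h71.Defs

/-!
# The interface between geometry and algebra

`IsLat v L`: `L` is a lattice of `E ^ n` for the discrete valuation `v`. `GeoMem P`: a finitely
generated group of matrices of determinant `1` over a field with finitely many discrete valuations
(with a product formula inequality for the entries) is in the class `P` if the stabilizers of
families of lattices (one for each place) and the normalizers of the proper nonscalar algebras of
matrices are in the class.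
-/

set_option autoImplicit false

open scoped WithZero

namespace Pool.Agent.GLN

/-- `L` is a lattice in `E ^ n` for the valuation `v`: a module over the valuation ring between
two multiples of the standard lattice. -/
structure IsLat {E : Type} [Field E] {n : ℕ} (v : Valuation E ℤᵐ⁰) (L : Set (Fin n → E)) :
    Prop where
  /-- closed under sums -/
  add_mem : ∀ x ∈ L, ∀ y ∈ L, x + y ∈ L
  /-- closed under multiples -/
  smul_mem : ∀ a : E, v a ≤ 1 → ∀ x ∈ L, a • x ∈ L
  /-- contains a multiple of the standard lattice -/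
  large : ∃ C : ℕ, ∀ x : Fin n → E, (∀ i, v (x i) ≤ WithZero.exp (-(C : ℤ))) → x ∈ L
  /-- contained in a multiple of the standard lattice -/
  small : ∃ C : ℕ, ∀ x ∈ L, ∀ i, v (x i) ≤ WithZero.exp (C : ℤ)

/-- If the elements of `A` have few poles at the places of the family they have few zeros there. -/
def FewZeros {E : Type} [Field E] {I : Type} (v : I → Valuation E ℤᵐ⁰) (A : Subring E) : Prop :=
  ∀ R : ℕ, ∃ C : ℕ, ∀ x ∈ A, x ≠ 0 → (∀ i, v i x ≤ WithZero.exp (R : ℤ)) →
    ∀ i, WithZero.exp (-(C : ℤ)) ≤ v i x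

/-- The result of the geometric part of the proof. -/
def GeoMem (P : ∀ (G : Type) [Group G], Prop) : Prop :=
  ∀ (E : Type) [Field E] [Countable E] (n : ℕ) (I : Type) [Finite I] [Nonempty I]
    (v : I → Valuation E ℤᵐ⁰) (A : Subring E) (G : Subgroup (GL (Fin n) E)),
    (∀ i, ∃ π, v i π = WithZero.exp (-1)) → FewZeros v A →
    G.FG → (∀ g ∈ G, g.1.det = 1) → (∀ g ∈ G, ∀ a b, g.1 a b ∈ A) →
    (∀ H ≤ G, ∀ L : I → Set (Fin n → E), (∀ i, IsLat (v i) (L i)) →
      (∀ g ∈ H, ∀ i, ∀ x ∈ L i, g.1.mulVec x ∈ L i) → P H) →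
    (∀ H ≤ G, ∀ B : Subalgebra E (Matrix (Fin n) (Fin n) E), B ≠ ⊥ → B ≠ ⊤ →
      (∀ g ∈ H, ∀ x ∈ B, g.1 * x * (g⁻¹).1 ∈ B) → P H) → P G

end Pool.Agent.GLN
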