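import Pool.Agent.Lib.MP_98022b_gln.GeoDefs
import Pool.Agent.Lib.MP_98022b_gl.PlaceDefs

/-!
# Stabilizers of families of lattices

Row GB15. Let `τ = pI X` (`1 / X`), and `C` such that `τ ^ C • e j ∈ L i` for all `i` and all standard
basis vectors `e j` (`IsLat.large`, `hX`). Let `W` be the set of the vectors `x` with integral entries
such that `τ ^ C • x ∈ L i` for all `i`: a vector space over `K` (through `cE K E`), stable under
`H`, which contains the `e j`, and of finite dimension: the valuations of the entries of its members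
are bounded (`IsLat.small`; `v i (τ⁻¹)` is bounded), so by `hfin` every sufficiently long
family of entries is linearly dependent. Hence `H` acts faithfully on `W` and embeds in
`GL_N (K)`.
-/

set_option autoImplicit false

open Polynomial
open scoped WithZero

namespace Pool.Agent.GLN

open Pool.Agent.FJ Pool.Agent.GT

variable {P : ∀ (G : Type) [Group G], Prop}

private theorem GB15_fin {K E : Type} [Field K] [Field E] [Algebra K E] (N : ℕ)
    (S : Submodule K E)
    (h : ∀ x : Fin N → E, (∀ j, x j ∈ S) → ∃ c : Fin N → K, c ≠ 0 ∧ ∑ j, c j • x j = 0) :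
    Module.Finite K S := by
  rw [← Module.rank_lt_aleph0_iff]
  refine lt_of_le_of_lt (rank_le (n := N) ?_) (Cardinal.natCast_lt_aleph0)
  intro s hs
  by_contra hlt
  push Not at hlt
  obtain ⟨t, hts, htN⟩ := Finset.exists_subset_card_eq hlt.le
  let e : Fin N ≃ t := (Finset.equivFinOfCardEq htN).symm
  obtain ⟨c, hc, hsum⟩ := h (fun j => ((e j : S) : E)) (fun j => (e j : S).2)
  have hs' : LinearIndependent K (fun j : Fin N => (e j : S)) :=
    hs.comp (fun j : Fin N => (⟨e j, hts (e j).2⟩ : s)) (by
      intro i j hij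
      apply e.injective
      apply Subtype.ext
      exact congrArg (fun z : s => (z : S)) hij)
  apply hc
  funext j
  refine Fintype.linearIndependent_iff.1 hs' c ?_ j
  apply Subtype.ext
  push_cast
  exact hsum

private theorem GB15_mem (hP : IsFJClass P) {K E : Type} [Field K] [Field E] [Algebra K E]
    (hK : ∀ m : ℕ, P (GL (Fin m) K)) {n : ℕ} (H : Subgroup (GL (Fin n) E))
    (W : Submodule K (Fin n → E)) [Module.Finite K W]
    (hW : ∀ g ∈ H, ∀ x ∈ W, g.1.mulVec x ∈ W)
    (hbas : ∀ j, (Pi.single j (1 : E) : Fin n → E) ∈ W) : P H := by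
  let ρ : H →* Module.End K W :=
    { toFun := fun g =>
        { toFun := fun w => ⟨g.1.1.mulVec w, hW g.1 g.2 w w.2⟩
          map_add' := fun x y => by
            apply Subtype.ext
            exact Matrix.mulVec_add (g.1.1) (x : Fin n → E) (y : Fin n → E)
          map_smul' := fun c x => by
            apply Subtype.ext
            exact Matrix.mulVec_smul (g.1.1) c (x : Fin n → E) }
      map_one' := by
        ext x
        simp
      map_mul' := by
        intro g g'
        ext x
        simp }
  let b := Module.finBasis K W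
  let φ : H →* GL (Fin (Module.finrank K W)) K :=
    (Units.map (LinearMap.toMatrixAlgEquiv b : Module.End K W →* _)).comp ρ.toHomUnits
  refine hP.of_injective φ ?_ (hK _)
  rw [injective_iff_map_eq_one]
  intro g hg
  have h1 : LinearMap.toMatrixAlgEquiv b (ρ g) = 1 := congrArg Units.val hg
  have h2 : ρ g = 1 := by
    apply (LinearMap.toMatrixAlgEquiv b).injective
    rw [h1, map_one]
  apply Subtype.ext
  apply Units.ext
  apply Matrix.ext_of_mulVec_single
  intro j
  have h3 := congrArg (fun f : Module.End K W => ((f ⟨Pi.single j 1, hbas j⟩ : W) : Fin n → E)) h2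
  have h4 : g.1.1.mulVec (Pi.single j 1) = Pi.single j 1 := h3
  rw [h4]
  show _ = (1 : Matrix (Fin n) (Fin n) E).mulVec (Pi.single j 1)
  rw [Matrix.one_mulVec]

theorem mem_latStab (hP : IsFJClass P) {K E : Type} [Field K] [Field E] [Algebra (RatFunc K) E]
    (hK : ∀ m : ℕ, P (GL (Fin m) K)) {I : Type} [Finite I] [Nonempty I]
    (v : I → Valuation E ℤᵐ⁰)
    (hc : ∀ i c, v i (cE K E c) ≤ 1) (hX : ∀ i, v i (pI K E X) ≤ WithZero.exp (-1))
    (hfin : ∀ R : ℕ, ∃ N : ℕ, ∀ x : Fin N → E, (∀ j, (pE K E).IsIntegralElem (x j)) →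
      (∀ j i, v i (x j) ≤ WithZero.exp (R : ℤ)) →
      ∃ c : Fin N → K, c ≠ 0 ∧ ∑ j, cE K E (c j) * x j = 0)
    {n : ℕ} (H : Subgroup (GL (Fin n) E))
    (hH : ∀ g ∈ H, ∀ i j, (pE K E).IsIntegralElem (g.1 i j))
    (L : I → Set (Fin n → E)) (hL : ∀ i, IsLat (v i) (L i))
    (hHL : ∀ g ∈ H, ∀ i, ∀ x ∈ L i, g.1.mulVec x ∈ L i) : P H := by
  classical
  let _ : Algebra K E := (cE K E).toAlgebra
  have hsm : ∀ (c : K) (x : E), c • x = cE K E c * x := fun c x => rfl
  set τ : E := pI K E X with hτ
  have hτ0 : τ ≠ 0 := by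
    simp [hτ, pI, RatFunc.X_ne_zero]
  have hvτ : ∀ i, v i τ ≠ 0 := fun i => (Valuation.ne_zero_iff _).2 hτ0
  -- the constants
  choose C1 hC1 using fun i => (hL i).large
  choose C2 hC2 using fun i => (hL i).small
  have hk : ∀ i, ∃ m : ℕ, WithZero.exp (-(m : ℤ)) ≤ v i τ := by
    intro i
    refine ⟨(-(WithZero.log (v i τ))).toNat, ?_⟩
    rw [← WithZero.exp_log (hvτ i), WithZero.exp_le_exp, WithZero.log_exp]
    have := Int.self_le_toNat (-(WithZero.log (v i τ)))
    linarith
  choose k hk using hk
  obtain ⟨C, hC⟩ : ∃ C : ℕ, ∀ i, C1 i ≤ C := Finite.exists_le C1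
  obtain ⟨R, hR⟩ : ∃ R : ℕ, ∀ i, C2 i + C * k i ≤ R := Finite.exists_le _
  obtain ⟨N, hN⟩ := hfin R
  have hcint : ∀ c : K, (pE K E).IsIntegralElem (cE K E c) := fun c =>
    (pE K E).isIntegralElem_map
  let S : Submodule K E :=
    { carrier := {x | (pE K E).IsIntegralElem x ∧ ∀ i, v i x ≤ WithZero.exp (R : ℤ)}
      add_mem' := by
        rintro x y ⟨hx, hx'⟩ ⟨hy, hy'⟩
        exact ⟨RingHom.IsIntegralElem.add _ hx hy, fun i => Valuation.map_add_le _ (hx' i) (hy' i)⟩
      zero_mem' := ⟨(pE K E).isIntegralElem_zero, fun i => by simp⟩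
      smul_mem' := by
        rintro c x ⟨hx, hx'⟩
        refine ⟨?_, fun i => ?_⟩
        · rw [hsm]
          exact RingHom.IsIntegralElem.mul _ (hcint c) hx
        · rw [hsm, map_mul]
          exact (mul_le_mul' (hc i c) (hx' i)).trans_eq (one_mul _) }
  have hSfin : Module.Finite K S := GB15_fin N S fun x hx =>
    hN x (fun j => (hx j).1) (fun j i => (hx j).2 i)
  let W : Submodule K (Fin n → E) :=
    { carrier := {x | (∀ j, (pE K E).IsIntegralElem (x j)) ∧ ∀ i, τ ^ C • x ∈ L i}
      add_mem' := by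
        rintro x y ⟨hx, hx'⟩ ⟨hy, hy'⟩
        refine ⟨fun j => RingHom.IsIntegralElem.add _ (hx j) (hy j), fun i => ?_⟩
        rw [smul_add]
        exact (hL i).add_mem _ (hx' i) _ (hy' i)
      zero_mem' := by
        refine ⟨fun j => (pE K E).isIntegralElem_zero, fun i => ?_⟩
        rw [smul_zero]
        exact hC1 i _ fun j => by simp
      smul_mem' := by
        rintro c x ⟨hx, hx'⟩
        refine ⟨fun j => ?_, fun i => ?_⟩
        · exact RingHom.IsIntegralElem.mul _ (hcint c) (hx j)
        · have : τ ^ C • (c • x) = cE K E c • (τ ^ C • x) := by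
            funext j
            simp only [Pi.smul_apply, smul_eq_mul, hsm]
            ring
          rw [this]
          exact (hL i).smul_mem _ (hc i c) _ (hx' i) }
  have hWS : ∀ x ∈ W, ∀ j, x j ∈ S := by
    rintro x ⟨hx, hx'⟩ j
    refine ⟨hx j, fun i => ?_⟩
    have h1 := hC2 i _ (hx' i) j
    simp only [Pi.smul_apply, smul_eq_mul, map_mul, map_pow] at h1
    have h2 : WithZero.exp (-((C * k i : ℕ) : ℤ)) ≤ v i τ ^ C := by
      refine le_trans (le_of_eq ?_) (pow_le_pow_left' (hk i) C)
      rw [← WithZero.exp_nsmul]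
      congr 1
      push_cast
      simp
    calc v i (x j) = WithZero.exp ((C * k i : ℕ) : ℤ) *
          (WithZero.exp (-((C * k i : ℕ) : ℤ)) * v i (x j)) := by
          rw [← mul_assoc, ← WithZero.exp_add, add_neg_cancel, WithZero.exp_zero, one_mul]
      _ ≤ WithZero.exp ((C * k i : ℕ) : ℤ) * WithZero.exp (C2 i : ℤ) :=
          mul_le_mul_right ((mul_le_mul_left h2 _).trans h1) _
      _ ≤ WithZero.exp (R : ℤ) := by
          rw [← WithZero.exp_add, WithZero.exp_le_exp]
          exact_mod_cast (by rw [add_comm]; exact hR i)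
  have hWfin : Module.Finite K W := by
    let f : W →ₗ[K] (Fin n → S) :=
      { toFun := fun w j => ⟨w.1 j, hWS _ w.2 j⟩
        map_add' := fun x y => rfl
        map_smul' := fun c x => rfl }
    refine Module.Finite.of_injective f ?_
    intro x y hxy
    apply Subtype.ext
    funext j
    exact congrArg (fun z : Fin n → S => ((z j : S) : E)) hxy
  refine GB15_mem hP hK H W ?_ ?_
  · rintro g hg x ⟨hx, hx'⟩
    refine ⟨fun j => ?_, fun i => ?_⟩
    · show (pE K E).IsIntegralElem (∑ l, g.1 j l * x l)
      exact Finset.sum_induction _ (fun y => (pE K E).IsIntegralElem y)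
        (fun a b ha hb => RingHom.IsIntegralElem.add _ ha hb) (pE K E).isIntegralElem_zero
        fun l _ => RingHom.IsIntegralElem.mul _ (hH g hg j l) (hx l)
    · rw [← Matrix.mulVec_smul]
      exact hHL g hg i _ (hx' i)
  · intro j
    refine ⟨fun j' => ?_, fun i => hC1 i _ fun j' => ?_⟩
    · by_cases h : j' = j
      · subst h
        rw [Pi.single_eq_same]
        exact (pE K E).isIntegralElem_one
      · rw [Pi.single_eq_of_ne h]
        exact (pE K E).isIntegralElem_zero
    · simp only [Pi.smul_apply, smul_eq_mul, map_mul, map_pow]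
      by_cases h : j' = j
      · subst h
        rw [Pi.single_eq_same, map_one, mul_one]
        refine (pow_le_pow_left' (hX i) C).trans ?_
        rw [← WithZero.exp_nsmul, WithZero.exp_le_exp]
        have := hC i
        simp only [smul_neg, nsmul_eq_mul, mul_one, neg_le_neg_iff]
        exact_mod_cast this
      · rw [Pi.single_eq_of_ne h, map_zero, mul_zero]
        exact zero_le

end Pool.Agent.GLN
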