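import Pool.Agent.Lib.MP_98022b_gln.SubStab

/-!
# Groups of Kronecker products

Row GB9. Let `κ : GL_a × GL_c →* GL_{a c}`, `(x, y) ↦ x ⊗ y` and `ψ` the homomorphism to
`PGL_a × PGL_c`. `x ⊗ y = 1` implies that `x` and `y` are scalar (`0 < a`, `0 < c`), so `ψ` induces
a homomorphism from the range of `κ` to `PGL_a × PGL_c`, whose kernel consists of scalar matrices
(`x` and `y` scalar), and is commutative. Extension property (`solvable_comap`).
-/

set_option autoImplicit false

open scoped Kronecker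

namespace Pool.Agent.GLN

open Pool.Agent.FJ

variable {P : ∀ (G : Type) [Group G], Prop}

/-- uniqueness of the factors of a Kronecker product up to scalars -/
private theorem GB9_unique {F : Type} [Field F] {a c : ℕ} (ha : 0 < a) (hc : 0 < c)
    (x x' : GL (Fin a) F) (y y' : GL (Fin c) F) (h : x.1 ⊗ₖ y.1 = x'.1 ⊗ₖ y'.1) :
    Matrix.ProjGenLinGroup.mk x = Matrix.ProjGenLinGroup.mk x' ∧
      Matrix.ProjGenLinGroup.mk y = Matrix.ProjGenLinGroup.mk y' := by
  have hne : ∀ {m : ℕ} (_ : 0 < m) (z : GL (Fin m) F), ∃ k l, z.1 k l ≠ 0 := by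
    intro m hm z
    by_contra hcon
    push Not at hcon
    have h0 : z.1 = 0 := by
      ext k l
      exact hcon k l
    have : Nonempty (Fin m) := ⟨⟨0, hm⟩⟩
    have h1 : (1 : Matrix (Fin m) (Fin m) F) = 0 := by
      rw [← z.mul_inv, h0, zero_mul]
    exact one_ne_zero h1
  have hent : ∀ i j k l, x.1 i j * y.1 k l = x'.1 i j * y'.1 k l := by
    intro i j k l
    have h1 := congrFun (congrFun h (i, k)) (j, l)
    rwa [Matrix.kroneckerMap_apply, Matrix.kroneckerMap_apply] at h1
  obtain ⟨k, l, hkl⟩ := hne hc y'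
  obtain ⟨i, j, hij⟩ := hne ha x'
  have h2 : y.1 k l ≠ 0 := by
    intro h0
    have h1 := hent i j k l
    rw [h0, mul_zero] at h1
    exact mul_ne_zero hij hkl h1.symm
  have h3 : x.1 i j ≠ 0 := by
    intro h0
    have h1 := hent i j k l
    rw [h0, zero_mul] at h1
    exact mul_ne_zero hij hkl h1.symm
  constructor
  · rw [Matrix.ProjGenLinGroup.mk_eq_mk_iff]
    refine ⟨Units.mk0 (y.1 k l / y'.1 k l) (div_ne_zero h2 hkl), ?_⟩
    apply Units.ext
    ext p q
    have h1 := hent p q k l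
    simp only [Units.val_mul, Matrix.GeneralLinearGroup.scalar, Units.coe_map,
      Units.val_mk0]
    rw [Matrix.mul_apply]
    simp [Matrix.scalar_apply, Matrix.diagonal_apply]
    field_simp
    linear_combination h1
  · rw [Matrix.ProjGenLinGroup.mk_eq_mk_iff]
    refine ⟨Units.mk0 (x.1 i j / x'.1 i j) (div_ne_zero h3 hij), ?_⟩
    apply Units.ext
    ext p q
    have h1 := hent i j p q
    simp only [Units.val_mul, Matrix.GeneralLinearGroup.scalar, Units.coe_map,
      Units.val_mk0]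
    rw [Matrix.mul_apply]
    simp [Matrix.scalar_apply, Matrix.diagonal_apply]
    field_simp
    linear_combination h1

theorem mem_of_kronecker (hP : IsFJClass P) (hsol : ∀ (G : Type) [Group G], Group.IsSolvable G → P G)
    {F : Type} [Field F] {a c : ℕ} (ha : 0 < a) (hc : 0 < c)
    (h1 : P (Matrix.ProjGenLinGroup (Fin a) F)) (h2 : P (Matrix.ProjGenLinGroup (Fin c) F))
    {G : Type} [Group G] (f : G →* Matrix (Fin a × Fin c) (Fin a × Fin c) F)
    (hf : Function.Injective f)
    (hG : ∀ g, ∃ (x : GL (Fin a) F) (y : GL (Fin c) F), f g = x.1 ⊗ₖ y.1) : P G := by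
  choose x y hxy using hG
  let φ : G →* Matrix.ProjGenLinGroup (Fin a) F × Matrix.ProjGenLinGroup (Fin c) F :=
    MonoidHom.mk' (fun g => (Matrix.ProjGenLinGroup.mk (x g), Matrix.ProjGenLinGroup.mk (y g))) (by
      intro g h
      have h3 : (x (g * h)).1 ⊗ₖ (y (g * h)).1 = (x g * x h).1 ⊗ₖ (y g * y h).1 := by
        rw [← hxy, map_mul, hxy g, hxy h, ← Matrix.mul_kronecker_mul]
        rfl
      obtain ⟨h4, h5⟩ := GB9_unique ha hc _ _ _ _ h3
      rw [h4, h5, map_mul, map_mul]
      rfl)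
  have hφ : ∀ g, φ g = (Matrix.ProjGenLinGroup.mk (x g), Matrix.ProjGenLinGroup.mk (y g)) :=
    fun _ => rfl
  have hcenter : ∀ g ∈ φ.ker, ∃ u : F, f g = u • (1 : Matrix (Fin a × Fin c) (Fin a × Fin c) F) := by
    intro g hg
    rw [MonoidHom.mem_ker, hφ, Prod.mk_eq_one] at hg
    obtain ⟨h3, h4⟩ := hg
    rw [← Matrix.ProjGenLinGroup.mk_one, eq_comm, Matrix.ProjGenLinGroup.mk_eq_mk_iff] at h3 h4
    obtain ⟨u, hu⟩ := h3
    obtain ⟨v, hv⟩ := h4
    rw [one_mul] at hu hv
    refine ⟨(u : F) * v, ?_⟩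
    rw [hxy, ← hu, ← hv]
    ext ⟨i, k⟩ ⟨j, l⟩
    rw [Matrix.kroneckerMap_apply]
    simp only [Matrix.GeneralLinearGroup.scalar, Units.coe_map,
      Matrix.smul_apply, Matrix.one_apply,
      Prod.mk.injEq, smul_eq_mul]
    by_cases hij : i = j <;> by_cases hkl : k = l <;> simp [hij, hkl]
  have hsolv : Group.IsSolvable φ.ker := by
    refine Group.isSolvable_of_comm fun g h => ?_
    apply Subtype.ext
    apply hf
    obtain ⟨u, hu⟩ := hcenter g g.2
    obtain ⟨v, hv⟩ := hcenter h h.2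
    rw [Subgroup.coe_mul, Subgroup.coe_mul, map_mul, map_mul, hu, hv]
    simp [mul_comm, smul_smul]
  exact hP.extension φ (hP.prod h1 h2) fun q => hsol _ (solvable_comap φ hsolv q)

end Pool.Agent.GLN
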