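import Mathlib

/-!
# The normalizer of the algebra of the matrices `X ⊗ 1`

Row GB8. Conjugation by `g` is an automorphism of the algebra of the matrices `X ⊗ 1`, so there is
`x ∈ GL_a (F)` with `g * (X ⊗ 1) * g⁻¹ = (x * X * x⁻¹) ⊗ 1`
(`Module.End.mulSemiringActionToAlgEquiv_conjAct_surjective` or
`AlgEquiv.eq_linearEquivConjAlgEquiv`). Then `(x⁻¹ ⊗ 1) * g` commutes with all `X ⊗ 1`, so it is
`1 ⊗ y` (look at the matrix units), and `y` is invertible.
-/

set_option autoImplicit false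

open scoped Kronecker

namespace Pool.Agent.GLN

private theorem GB8_inj {F : Type} [Field F] {a c : ℕ} (hc : 0 < c)
    {X Y : Matrix (Fin a) (Fin a) F}
    (h : X ⊗ₖ (1 : Matrix (Fin c) (Fin c) F) = Y ⊗ₖ (1 : Matrix (Fin c) (Fin c) F)) : X = Y := by
  ext i j
  have h1 := congrFun (congrFun h (i, ⟨0, hc⟩)) (j, ⟨0, hc⟩)
  rwa [Matrix.kroneckerMap_apply, Matrix.kroneckerMap_apply, Matrix.one_apply_eq, mul_one,
    mul_one] at h1

private theorem GB8_conj {F : Type} [Field F] {a : ℕ}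
    (ψ : Matrix (Fin a) (Fin a) F →ₐ[F] Matrix (Fin a) (Fin a) F) (hψ : Function.Injective ψ) :
    ∃ x : GL (Fin a) F, ∀ X, ψ X = x.1 * X * (x⁻¹).1 := by
  classical
  have hsurj : Function.Surjective ψ :=
    (LinearMap.injective_iff_surjective (f := ψ.toLinearMap)).1 hψ
  let ψ' : Matrix (Fin a) (Fin a) F ≃ₐ[F] Matrix (Fin a) (Fin a) F :=
    AlgEquiv.ofBijective ψ ⟨hψ, hsurj⟩
  let f : Module.End F (Fin a → F) ≃ₐ[F] Module.End F (Fin a → F) :=
    (Matrix.toLinAlgEquiv' (R := F) (n := Fin a)).symm.trans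
      (ψ'.trans (Matrix.toLinAlgEquiv' (R := F) (n := Fin a)))
  obtain ⟨T, hT⟩ := f.eq_linearEquivConjAlgEquiv
  have hp1 : LinearMap.toMatrix' (T : (Fin a → F) →ₗ[F] (Fin a → F)) *
      LinearMap.toMatrix' (T.symm : (Fin a → F) →ₗ[F] (Fin a → F)) = 1 := by
    rw [← LinearMap.toMatrix'_comp, LinearEquiv.comp_coe, LinearEquiv.symm_trans_self,
      LinearEquiv.refl_toLinearMap, LinearMap.toMatrix'_id]
  have hp2 : LinearMap.toMatrix' (T.symm : (Fin a → F) →ₗ[F] (Fin a → F)) *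
      LinearMap.toMatrix' (T : (Fin a → F) →ₗ[F] (Fin a → F)) = 1 := by
    rw [← LinearMap.toMatrix'_comp, LinearEquiv.comp_coe, LinearEquiv.self_trans_symm,
      LinearEquiv.refl_toLinearMap, LinearMap.toMatrix'_id]
  refine ⟨⟨_, _, hp1, hp2⟩, fun X => ?_⟩
  have h1 : Matrix.toLin' (ψ X) = f (Matrix.toLin' X) := by
    change Matrix.toLin' (ψ X) = Matrix.toLinAlgEquiv' (ψ
      ((Matrix.toLinAlgEquiv' (R := F) (n := Fin a)).symm (Matrix.toLinAlgEquiv' X)))
    rw [AlgEquiv.symm_apply_apply]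
    rfl
  have h2 : f (Matrix.toLin' X) = (T : (Fin a → F) →ₗ[F] (Fin a → F)) ∘ₗ Matrix.toLin' X ∘ₗ
      (T.symm : (Fin a → F) →ₗ[F] (Fin a → F)) := by
    rw [hT]
    rfl
  have h3 := congrArg LinearMap.toMatrix' (h1.trans h2)
  rw [LinearMap.toMatrix'_toLin', LinearMap.toMatrix'_comp, LinearMap.toMatrix'_comp,
    LinearMap.toMatrix'_toLin', ← Matrix.mul_assoc] at h3
  exact h3

private theorem GB8_comm {F : Type} [Field F] {a c : ℕ} (ha : 0 < a)
    (G : Matrix (Fin a × Fin c) (Fin a × Fin c) F)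
    (hG : ∀ X : Matrix (Fin a) (Fin a) F, G * (X ⊗ₖ (1 : Matrix (Fin c) (Fin c) F)) =
      (X ⊗ₖ (1 : Matrix (Fin c) (Fin c) F)) * G) :
    ∃ Y : Matrix (Fin c) (Fin c) F, G = (1 : Matrix (Fin a) (Fin a) F) ⊗ₖ Y := by
  classical
  -- entries of the two products with a matrix unit
  have h1 : ∀ (p q i j : Fin a) (k l : Fin c),
      (G * (Matrix.single p q (1 : F) ⊗ₖ (1 : Matrix (Fin c) (Fin c) F)) :
        Matrix (Fin a × Fin c) (Fin a × Fin c) F) (i, k) (j, l) =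
        if q = j then G (i, k) (p, l) else 0 := by
    intro p q i j k l
    rw [Matrix.mul_apply, Finset.sum_eq_single (p, l)]
    · rw [Matrix.kroneckerMap_apply, Matrix.one_apply_eq, mul_one, Matrix.single_apply]
      by_cases h : q = j
      · simp [h]
      · simp [h]
    · rintro ⟨r, s⟩ _ hrs
      rw [Matrix.kroneckerMap_apply, Matrix.single_apply, Matrix.one_apply]
      by_cases hr : p = r
      · have hs : s ≠ l := fun h => hrs (by rw [hr, h])
        rw [if_neg hs, mul_zero, mul_zero]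
      · rw [if_neg (fun h => hr h.1), zero_mul, mul_zero]
    · intro h
      exact absurd (Finset.mem_univ _) h
  have h2 : ∀ (p q i j : Fin a) (k l : Fin c),
      ((Matrix.single p q (1 : F) ⊗ₖ (1 : Matrix (Fin c) (Fin c) F)) * G :
        Matrix (Fin a × Fin c) (Fin a × Fin c) F) (i, k) (j, l) =
        if p = i then G (q, k) (j, l) else 0 := by
    intro p q i j k l
    rw [Matrix.mul_apply, Finset.sum_eq_single (q, k)]
    · rw [Matrix.kroneckerMap_apply, Matrix.one_apply_eq, mul_one, Matrix.single_apply]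
      by_cases h : p = i
      · simp [h]
      · simp [h]
    · rintro ⟨r, s⟩ _ hrs
      rw [Matrix.kroneckerMap_apply, Matrix.single_apply, Matrix.one_apply]
      by_cases hr : q = r
      · have hs : k ≠ s := fun h => hrs (by rw [hr, h])
        rw [if_neg hs, mul_zero, zero_mul]
      · rw [if_neg (fun h => hr h.2), zero_mul, zero_mul]
    · intro h
      exact absurd (Finset.mem_univ _) h
  have h3 : ∀ (p q i j : Fin a) (k l : Fin c),
      (if q = j then G (i, k) (p, l) else 0) = if p = i then G (q, k) (j, l) else 0 := by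
    intro p q i j k l
    rw [← h1, ← h2, hG]
  refine ⟨Matrix.of fun k l => G (⟨0, ha⟩, k) (⟨0, ha⟩, l), ?_⟩
  ext ⟨i, k⟩ ⟨j, l⟩
  rw [Matrix.kroneckerMap_apply, Matrix.of_apply]
  by_cases hij : i = j
  · subst hij
    rw [Matrix.one_apply_eq, one_mul]
    have h4 := h3 i ⟨0, ha⟩ i ⟨0, ha⟩ k l
    rwa [if_pos rfl, if_pos rfl] at h4
  · rw [Matrix.one_apply_ne hij, zero_mul]
    have h4 := h3 i i i j k l
    rw [if_neg hij, if_pos rfl] at h4
    exact h4.symm

theorem exists_eq_kronecker {F : Type} [Field F] {a c : ℕ} (ha : 0 < a) (hc : 0 < c)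
    (g h : Matrix (Fin a × Fin c) (Fin a × Fin c) F) (hgh : g * h = 1)
    (hg : ∀ X : Matrix (Fin a) (Fin a) F, ∃ Y : Matrix (Fin a) (Fin a) F,
      g * (X ⊗ₖ (1 : Matrix (Fin c) (Fin c) F)) * h = Y ⊗ₖ (1 : Matrix (Fin c) (Fin c) F)) :
    ∃ (x : GL (Fin a) F) (y : GL (Fin c) F), g = x.1 ⊗ₖ y.1 := by
  classical
  have hhg : h * g = 1 := mul_eq_one_comm.1 hgh
  choose Ψ hΨ using hg
  have hmul : ∀ X Y : Matrix (Fin a) (Fin a) F, (X * Y) ⊗ₖ (1 : Matrix (Fin c) (Fin c) F) =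
      (X ⊗ₖ (1 : Matrix (Fin c) (Fin c) F)) * (Y ⊗ₖ (1 : Matrix (Fin c) (Fin c) F)) := by
    intro X Y
    rw [← Matrix.mul_kronecker_mul, Matrix.one_mul]
  let ψ : Matrix (Fin a) (Fin a) F →ₐ[F] Matrix (Fin a) (Fin a) F :=
    { toFun := Ψ
      map_one' := GB8_inj hc (by
        rw [← hΨ, Matrix.one_kronecker_one, Matrix.mul_one, hgh])
      map_mul' := fun X Y => GB8_inj hc (by
        rw [← hΨ, hmul, hmul, ← hΨ, ← hΨ]
        simp only [Matrix.mul_assoc]
        rw [← Matrix.mul_assoc h g, hhg, Matrix.one_mul])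
      map_zero' := GB8_inj hc (by
        rw [← hΨ, Matrix.zero_kronecker, Matrix.mul_zero, Matrix.zero_mul])
      map_add' := fun X Y => GB8_inj hc (by
        rw [← hΨ, Matrix.add_kronecker, Matrix.add_kronecker, ← hΨ, ← hΨ, Matrix.mul_add,
          Matrix.add_mul])
      commutes' := fun s => GB8_inj hc (by
        rw [← hΨ, Algebra.algebraMap_eq_smul_one, Matrix.smul_kronecker,
          Matrix.one_kronecker_one, Matrix.mul_smul, Matrix.smul_mul, Matrix.mul_one, hgh]) }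
  have hψ : Function.Injective ψ := by
    intro X Y hXY
    have h1 : g * (X ⊗ₖ (1 : Matrix (Fin c) (Fin c) F)) * h =
        g * (Y ⊗ₖ (1 : Matrix (Fin c) (Fin c) F)) * h := by
      rw [hΨ, hΨ]
      exact congrArg (· ⊗ₖ (1 : Matrix (Fin c) (Fin c) F)) hXY
    have h2 := congrArg (fun M => h * M * g) h1
    simp only [Matrix.mul_assoc, hhg, Matrix.mul_one] at h2
    rw [← Matrix.mul_assoc h g, ← Matrix.mul_assoc h g, hhg, Matrix.one_mul, Matrix.one_mul] at h2
    exact GB8_inj hc h2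
  obtain ⟨x, hx⟩ := GB8_conj ψ hψ
  have hxx : (x⁻¹).1 * x.1 = 1 := by
    rw [← Units.val_mul, inv_mul_cancel, Units.val_one]
  have hxx' : x.1 * (x⁻¹).1 = 1 := by
    rw [← Units.val_mul, mul_inv_cancel, Units.val_one]
  have hgX : ∀ X : Matrix (Fin a) (Fin a) F, g * (X ⊗ₖ (1 : Matrix (Fin c) (Fin c) F)) =
      ((x.1 * X * (x⁻¹).1) ⊗ₖ (1 : Matrix (Fin c) (Fin c) F)) * g := by
    intro X
    rw [← hx X]
    change _ = (Ψ X ⊗ₖ (1 : Matrix (Fin c) (Fin c) F)) * g
    rw [← hΨ, Matrix.mul_assoc, hhg, Matrix.mul_one]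
  obtain ⟨Y, hY⟩ := GB8_comm ha (((x⁻¹).1 ⊗ₖ (1 : Matrix (Fin c) (Fin c) F)) * g) (by
    intro X
    rw [Matrix.mul_assoc, hgX, ← Matrix.mul_assoc, ← Matrix.mul_assoc, ← hmul, ← hmul,
      Matrix.mul_assoc x.1, ← Matrix.mul_assoc (x⁻¹).1, hxx, Matrix.one_mul])
  have hgY : g = x.1 ⊗ₖ Y := by
    have h1 : (x.1 ⊗ₖ (1 : Matrix (Fin c) (Fin c) F)) *
        (((x⁻¹).1 ⊗ₖ (1 : Matrix (Fin c) (Fin c) F)) * g) = g := by
      rw [← Matrix.mul_assoc, ← hmul, hxx', Matrix.one_kronecker_one, Matrix.one_mul]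
    rw [hY, ← Matrix.mul_kronecker_mul, Matrix.mul_one, Matrix.one_mul] at h1
    exact h1.symm
  have hdet : Y.det ≠ 0 := by
    intro h0
    have h1 : g.det = 0 := by
      rw [hgY, Matrix.det_kronecker, h0, Fintype.card_fin, Fintype.card_fin, zero_pow ha.ne',
        mul_zero]
    have h2 := congrArg Matrix.det hgh
    rw [Matrix.det_mul, h1, zero_mul, Matrix.det_one] at h2
    exact zero_ne_one h2
  exact ⟨x, Matrix.GeneralLinearGroup.mkOfDetNeZero Y hdet, hgY⟩

end Pool.Agent.GLN
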