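import Mathlib

/-!
# Representations of the algebra of matrices

Row GB7. Let `e i j` be the image of the matrix unit `Matrix.single i j 1`, `U` the range of `e 0 0`
with basis `u : Fin c → U`. Then `(i, k) ↦ e i 0 (u k)` is a basis of `F ^ n`
(`x = ∑ i, e i 0 (e 0 i x)`), and `φ X` maps the vector `(j, k)` to `∑ i, X i j • (i, k)`. In
particular `n = a * c`.
-/

set_option autoImplicit false

open scoped Kronecker

namespace Pool.Agent.GLN

private theorem GB7_single_mul {F : Type} [Field F] {a : ℕ} (z i : Fin a)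
    (X : Matrix (Fin a) (Fin a) F) :
    Matrix.single z i 1 * X = ∑ j, X i j • Matrix.single z j (1 : F) := by
  ext p q
  rw [Matrix.sum_apply, Matrix.mul_apply]
  simp only [Matrix.single_apply, Matrix.smul_apply, smul_eq_mul]
  by_cases h : z = p
  · simp [h]
  · simp [h]

theorem exists_kronecker {F : Type} [Field F] {a n : ℕ} (ha : 0 < a)
    (φ : Matrix (Fin a) (Fin a) F →ₐ[F] Matrix (Fin n) (Fin n) F) :
    ∃ (c : ℕ) (e : Fin n ≃ Fin a × Fin c) (p : GL (Fin n) F),
      ∀ X, φ X = p.1 * (X ⊗ₖ (1 : Matrix (Fin c) (Fin c) F)).submatrix e e * (p⁻¹).1 := by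
  classical
  let z : Fin a := ⟨0, ha⟩
  let E : Fin a → Fin a → (Fin n → F) →ₗ[F] (Fin n → F) :=
    fun i j => Matrix.toLin' (φ (Matrix.single i j 1))
  have hE : ∀ X Y x, Matrix.toLin' (φ X) (Matrix.toLin' (φ Y) x) =
      Matrix.toLin' (φ (X * Y)) x := by
    intro X Y x
    rw [map_mul, Matrix.toLin'_mul_apply]
  let U : Submodule F (Fin n → F) := LinearMap.range (E z z)
  let c := Module.finrank F U
  let u : Module.Basis (Fin c) F U := Module.finBasis F U
  have hEE : ∀ i j k x, E i j (E j k x) = E i k x := by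
    intro i j k x
    change Matrix.toLin' (φ (Matrix.single i j 1)) (Matrix.toLin' (φ (Matrix.single j k 1)) x) = _
    rw [hE, Matrix.single_mul_single_same, mul_one]
  have hE0 : ∀ i j k l x, j ≠ k → E i j (E k l x) = 0 := by
    intro i j k l x hjk
    change Matrix.toLin' (φ (Matrix.single i j 1)) (Matrix.toLin' (φ (Matrix.single k l 1)) x) = _
    rw [hE, Matrix.single_mul_single_of_ne _ _ _ _ hjk, map_zero, map_zero]
    rfl
  have hEs : ∀ x, ∑ i, E i i x = x := by
    intro x
    have h1 : (∑ i : Fin a, Matrix.single i i (1 : F)) = 1 := by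
      ext p q
      rw [Matrix.sum_apply]
      by_cases h : p = q
      · subst h
        simp [Matrix.single_apply]
      · rw [Matrix.one_apply_ne h]
        refine Finset.sum_eq_zero fun i _ => ?_
        rw [Matrix.single_apply, if_neg]
        rintro ⟨rfl, rfl⟩
        exact h rfl
    have h2 : ∑ i, E i i x = Matrix.toLin' (φ (∑ i : Fin a, Matrix.single i i (1 : F))) x := by
      rw [map_sum, map_sum, LinearMap.sum_apply]
    rw [h2, h1, map_one, Matrix.toLin'_one, LinearMap.id_apply]
  have hU : ∀ i x, E z i x ∈ U := fun i x => ⟨E z i x, hEE z z i x⟩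
  have hUid : ∀ x ∈ U, E z z x = x := by
    rintro _ ⟨x, rfl⟩
    exact hEE z z z x
  let D : Fin a → (Fin n → F) →ₗ[F] U := fun i => (E z i).codRestrict U (hU i)
  have hD : ∀ i x, (D i x : Fin n → F) = E z i x := fun i x => rfl
  let S : (Fin n → F) →ₗ[F] (Fin a × Fin c → F) :=
    LinearMap.pi fun q => (u.coord q.2) ∘ₗ (D q.1)
  have hS : ∀ x q, S x q = u.coord q.2 (D q.1 x) := fun x q => rfl
  let R : (Fin a × Fin c → F) → (Fin n → F) := fun y =>
    ∑ i, E i z ((u.equivFun.symm (fun k => y (i, k)) : U) : Fin n → F)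
  have hRS : ∀ x, R (S x) = x := by
    intro x
    have h1 : ∀ i, u.equivFun.symm (fun k => S x (i, k)) = D i x := by
      intro i
      rw [LinearEquiv.symm_apply_eq]
      funext k
      rfl
    refine Eq.trans (Finset.sum_congr rfl fun i _ => ?_) (hEs x)
    rw [h1, hD, hEE]
  have hSR : ∀ y, S (R y) = y := by
    intro y
    funext q
    obtain ⟨j, l⟩ := q
    have h1 : D j (R y) = u.equivFun.symm (fun k => y (j, k)) := by
      apply Subtype.ext
      rw [hD]
      change E z j (∑ i, E i z ((u.equivFun.symm (fun k => y (i, k)) : U) : Fin n → F)) = _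
      rw [map_sum, Finset.sum_eq_single j]
      · rw [hEE]
        exact hUid _ (Subtype.mem _)
      · intro i _ hij
        exact hE0 _ _ _ _ _ (Ne.symm hij)
      · intro h
        exact absurd (Finset.mem_univ _) h
    rw [hS, h1]
    have h2 := congrFun (LinearEquiv.apply_symm_apply u.equivFun (fun k => y (j, k))) l
    exact h2
  let S' : (Fin n → F) ≃ₗ[F] (Fin a × Fin c → F) := LinearEquiv.ofBijective S
    ⟨Function.LeftInverse.injective hRS, Function.RightInverse.surjective hSR⟩
  have hcard : Fintype.card (Fin n) = Fintype.card (Fin a × Fin c) := by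
    have h1 := S'.finrank_eq
    rwa [Module.finrank_fintype_fun_eq_card, Module.finrank_fintype_fun_eq_card] at h1
  let e : Fin n ≃ Fin a × Fin c := Fintype.equivOfCardEq hcard
  let T : (Fin n → F) ≃ₗ[F] (Fin n → F) := S'.trans (LinearEquiv.funCongrLeft F F e)
  have hT : ∀ x i, T x i = u.coord (e i).2 (D (e i).1 x) := fun x i => rfl
  have key : ∀ (X : Matrix (Fin a) (Fin a) F) x, T (Matrix.toLin' (φ X) x) =
      Matrix.toLin' ((X ⊗ₖ (1 : Matrix (Fin c) (Fin c) F)).submatrix e e) (T x) := by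
    intro X x
    funext i
    rw [hT]
    change _ = ∑ j, (X ⊗ₖ (1 : Matrix (Fin c) (Fin c) F)).submatrix e e i j * T x j
    have h1 : D (e i).1 (Matrix.toLin' (φ X) x) = ∑ j, X (e i).1 j • D j x := by
      apply Subtype.ext
      rw [hD]
      change Matrix.toLin' (φ (Matrix.single z (e i).1 1)) (Matrix.toLin' (φ X) x) = _
      rw [hE, GB7_single_mul, map_sum, map_sum, LinearMap.sum_apply, Submodule.coe_sum]
      refine Finset.sum_congr rfl fun j _ => ?_
      rw [map_smul, map_smul, LinearMap.smul_apply, Submodule.coe_smul, hD]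
    rw [h1, map_sum]
    have h2 : ∑ j, (X ⊗ₖ (1 : Matrix (Fin c) (Fin c) F)).submatrix e e i j * T x j =
        ∑ q : Fin a × Fin c, (X ⊗ₖ (1 : Matrix (Fin c) (Fin c) F)) (e i) q *
          u.coord q.2 (D q.1 x) :=
      Equiv.sum_comp e (fun q => (X ⊗ₖ (1 : Matrix (Fin c) (Fin c) F)) (e i) q *
          u.coord q.2 (D q.1 x))
    rw [h2, Fintype.sum_prod_type]
    refine Finset.sum_congr rfl fun j _ => ?_
    rw [map_smul, smul_eq_mul, Finset.sum_eq_single (e i).2]
    · rw [Matrix.kroneckerMap_apply, Matrix.one_apply_eq, mul_one]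
    · intro l _ hl
      rw [Matrix.kroneckerMap_apply, Matrix.one_apply_ne (Ne.symm hl), mul_zero, zero_mul]
    · intro h
      exact absurd (Finset.mem_univ _) h
  have hp1 : LinearMap.toMatrix' (T.symm : (Fin n → F) →ₗ[F] (Fin n → F)) *
      LinearMap.toMatrix' (T : (Fin n → F) →ₗ[F] (Fin n → F)) = 1 := by
    rw [← LinearMap.toMatrix'_comp, LinearEquiv.comp_coe, LinearEquiv.self_trans_symm,
      LinearEquiv.refl_toLinearMap, LinearMap.toMatrix'_id]
  have hp2 : LinearMap.toMatrix' (T : (Fin n → F) →ₗ[F] (Fin n → F)) *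
      LinearMap.toMatrix' (T.symm : (Fin n → F) →ₗ[F] (Fin n → F)) = 1 := by
    rw [← LinearMap.toMatrix'_comp, LinearEquiv.comp_coe, LinearEquiv.symm_trans_self,
      LinearEquiv.refl_toLinearMap, LinearMap.toMatrix'_id]
  refine ⟨c, e, ⟨_, _, hp1, hp2⟩, fun X => ?_⟩
  have h3 : LinearMap.toMatrix' (T : (Fin n → F) →ₗ[F] (Fin n → F)) * φ X =
      (X ⊗ₖ (1 : Matrix (Fin c) (Fin c) F)).submatrix e e *
        LinearMap.toMatrix' (T : (Fin n → F) →ₗ[F] (Fin n → F)) := by
    apply Matrix.toLin'.injective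
    rw [Matrix.toLin'_mul, Matrix.toLin'_mul, Matrix.toLin'_toMatrix']
    exact LinearMap.ext fun x => key X x
  change φ X = LinearMap.toMatrix' (T.symm : (Fin n → F) →ₗ[F] (Fin n → F)) *
    (X ⊗ₖ (1 : Matrix (Fin c) (Fin c) F)).submatrix e e *
      LinearMap.toMatrix' (T : (Fin n → F) →ₗ[F] (Fin n → F))
  rw [Matrix.mul_assoc, ← h3, ← Matrix.mul_assoc, hp1, Matrix.one_mul]

end Pool.Agent.GLN
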