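import Pool.Agent.Lib.MP_98022b_gln.AnnSimple
import Pool.Agent.Lib.MP_98022b_gln.Burnside
import Pool.Agent.Lib.MP_98022b_gln.MatUnits
import Pool.Agent.Lib.MP_98022b_gln.KronNorm
import Pool.Agent.Lib.MP_98022b_gln.KronMem

/-!
# Normalizers of algebras of matrices

Row GB10. `mem_normalizer`: let `W` and `H₀` be as in `exists_simple_ann` and
`V = {x | ∀ b ∈ B, b W = 0 → b x = 0}`, a subspace which contains `W` and is invariant under `H₀`.
If `V ≠ ⊤` use `mem_of_subspace` for `H₀` and the closure under overgroups of finite index. If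
`V = ⊤` then `B` acts faithfully on `W`, so `B` is the image of an injective homomorphism of
`M_a (F)` (`exists_equiv_matrix`), and `B = p (M_a (F) ⊗ 1) p⁻¹` by `exists_kronecker`, `n = a * c`.
If `a = 1` then `B = ⊥`, if `c = 1` then `B = ⊤`; so `1 < a`, `1 < c` and `a, c < n`. Use
`exists_eq_kronecker` for the conjugates of the members of `H`, and `mem_of_kronecker`.
`mem_normalizer_ext`: a field extension. Let `B'` be the span over `F` of the image of `B`, an
algebra normalized by the image of `H`. It is not `⊥`, since it contains a nonscalar matrix. It is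
not `⊤`: there is a nonzero linear form on the matrices over `E` which vanishes on `B`, given by a
matrix with entries in `E`.
-/

set_option autoImplicit false

open scoped Kronecker

namespace Pool.Agent.GLN

open Pool.Agent.FJ

variable {P : ∀ (G : Type) [Group G], Prop}

/-- the case of a matrix algebra -/
theorem mem_normalizer_simple (hP : IsFJClass P)
    (hsol : ∀ (G : Type) [Group G], Group.IsSolvable G → P G)
    {F : Type} [Field F] {n : ℕ} (hn : 0 < n)
    (hF' : ∀ m < n, P (Matrix.ProjGenLinGroup (Fin m) F)) (H : Subgroup (GL (Fin n) F))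
    (B : Subalgebra F (Matrix (Fin n) (Fin n) F)) (h0 : B ≠ ⊥) (h1 : B ≠ ⊤)
    (hH : ∀ g ∈ H, ∀ x ∈ B, g.1 * x * (g⁻¹).1 ∈ B) {a : ℕ} (ha : 0 < a)
    (e : Matrix (Fin a) (Fin a) F ≃ₐ[F] B) : P H := by
  classical
  let φ : Matrix (Fin a) (Fin a) F →ₐ[F] Matrix (Fin n) (Fin n) F := B.val.comp e.toAlgHom
  have hφB : ∀ X, φ X ∈ B := fun X => (e X).2
  have hBφ : ∀ b ∈ B, ∃ X, φ X = b := fun b hb => ⟨e.symm ⟨b, hb⟩, by
    show ((e (e.symm ⟨b, hb⟩) : B) : Matrix (Fin n) (Fin n) F) = b
    rw [e.apply_symm_apply]⟩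
  obtain ⟨c, ε, p, hp⟩ := exists_kronecker ha φ
  have hnac : n = a * c := by
    have h2 := Fintype.card_congr ε
    rwa [Fintype.card_fin, Fintype.card_prod, Fintype.card_fin, Fintype.card_fin] at h2
  have hc : 0 < c := by
    rcases Nat.eq_zero_or_pos c with h2 | h2
    · rw [h2, mul_zero] at hnac
      omega
    · exact h2
  have ha1 : a ≠ 1 := by
    intro h2
    apply h0
    rw [eq_bot_iff]
    intro b hb
    obtain ⟨X, rfl⟩ := hBφ b hb
    subst h2
    have h3 : X = algebraMap F (Matrix (Fin 1) (Fin 1) F) (X 0 0) := by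
      ext i j
      rw [Subsingleton.elim i 0, Subsingleton.elim j 0, Matrix.algebraMap_matrix_apply,
        if_pos rfl]
      rfl
    rw [h3, AlgHom.commutes]
    exact Subalgebra.algebraMap_mem _ _
  have hc1 : c ≠ 1 := by
    intro h2
    apply h1
    rw [h2, mul_one] at hnac
    have h3 : Module.finrank F B = Module.finrank F (Matrix (Fin n) (Fin n) F) := by
      rw [← e.toLinearEquiv.finrank_eq, hnac]
    rw [← Algebra.toSubmodule_eq_top]
    exact Submodule.eq_top_of_finrank_eq h3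
  have han : a < n := by
    have : 2 ≤ c := by omega
    nlinarith
  have hcn : c < n := by
    have : 2 ≤ a := by omega
    nlinarith
  -- the homomorphism
  let f : H →* Matrix (Fin a × Fin c) (Fin a × Fin c) F :=
    ((Matrix.reindexAlgEquiv F F ε : Matrix (Fin n) (Fin n) F →* _)).comp
      ((Units.coeHom _).comp ((MulAut.conj p⁻¹).toMonoidHom.comp H.subtype))
  have hf : ∀ g : H, f g = Matrix.reindexAlgEquiv F F ε
      ((p⁻¹).1 * (g : GL (Fin n) F).1 * p.1) := by
    intro g
    show Matrix.reindexAlgEquiv F F ε ((p⁻¹ * (g : GL (Fin n) F) * (p⁻¹)⁻¹ : GL (Fin n) F)).1 = _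
    rw [inv_inv]
    rfl
  have hfinj : Function.Injective f := by
    refine (Matrix.reindexAlgEquiv F F ε).injective.comp (Units.val_injective.comp
      ((MulAut.conj p⁻¹).injective.comp H.subtype_injective))
  refine mem_of_kronecker hP hsol ha hc (hF' a han) (hF' c hcn) f hfinj fun g => ?_
  have hpp : p.1 * (p⁻¹).1 = 1 := p.mul_inv
  have hpp' : (p⁻¹).1 * p.1 = 1 := p.inv_mul
  have hX : ∀ X : Matrix (Fin a) (Fin a) F, X ⊗ₖ (1 : Matrix (Fin c) (Fin c) F) =
      Matrix.reindexAlgEquiv F F ε ((p⁻¹).1 * φ X * p.1) := by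
    intro X
    rw [hp X]
    have h2 : (p⁻¹).1 * (p.1 * (X ⊗ₖ (1 : Matrix (Fin c) (Fin c) F)).submatrix ε ε * (p⁻¹).1) *
        p.1 = (X ⊗ₖ (1 : Matrix (Fin c) (Fin c) F)).submatrix ε ε := by
      rw [← mul_assoc, ← mul_assoc, hpp', one_mul, mul_assoc, hpp', mul_one]
    rw [h2]
    ext x y
    show _ = ((X ⊗ₖ (1 : Matrix (Fin c) (Fin c) F)).submatrix ε ε) (ε.symm x) (ε.symm y)
    rw [Matrix.submatrix_apply, ε.apply_symm_apply, ε.apply_symm_apply]
  refine exists_eq_kronecker ha hc (f g) (f g⁻¹) (by rw [← map_mul, mul_inv_cancel, map_one]) ?_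
  intro X
  obtain ⟨Y, hY⟩ := hBφ _ (hH g g.2 (φ X) (hφB X))
  refine ⟨Y, ?_⟩
  rw [hX X, hX Y, hf, hf, ← map_mul, ← map_mul, hY]
  congr 1
  have h3 : (((g⁻¹ : H) : GL (Fin n) F)).1 = ((g : GL (Fin n) F)⁻¹).1 := rfl
  rw [h3]
  simp only [mul_assoc]
  rw [← mul_assoc p.1 (p⁻¹).1, hpp, one_mul, ← mul_assoc p.1 (p⁻¹).1, hpp, one_mul]

theorem mem_normalizer (hP : IsFJClass P) (hsol : ∀ (G : Type) [Group G], Group.IsSolvable G → P G)
    {F : Type} [Field F] [IsAlgClosed F] {n : ℕ} (hF : ∀ m < n, P (GL (Fin m) F))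
    (hF' : ∀ m < n, P (Matrix.ProjGenLinGroup (Fin m) F)) (H : Subgroup (GL (Fin n) F))
    (B : Subalgebra F (Matrix (Fin n) (Fin n) F)) (h0 : B ≠ ⊥) (h1 : B ≠ ⊤)
    (hH : ∀ g ∈ H, ∀ x ∈ B, g.1 * x * (g⁻¹).1 ∈ B) : P H := by
  classical
  have hn : 0 < n := by
    rcases Nat.eq_zero_or_pos n with h2 | h2
    · exfalso
      subst h2
      apply h1
      rw [eq_top_iff]
      intro x _
      rw [Subsingleton.elim x 0]
      exact zero_mem _
    · exact h2
  obtain ⟨W, hW0, hWB, hWs, H₀, hH₀, hann⟩ := exists_simple_ann hn B H hH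
  let V : Submodule F (Fin n → F) :=
    { carrier := {x | ∀ b ∈ B, (∀ y ∈ W, b.mulVec y = 0) → b.mulVec x = 0}
      add_mem' := by
        intro x y hx hy b hb hbW
        rw [Matrix.mulVec_add, hx b hb hbW, hy b hb hbW, add_zero]
      zero_mem' := by
        intro b _ _
        rw [Matrix.mulVec_zero]
      smul_mem' := by
        intro c x hx b hb hbW
        rw [Matrix.mulVec_smul, hx b hb hbW, smul_zero] }
  have hWV : W ≤ V := fun x hx b _ hbW => hbW x hx
  by_cases hV : V = ⊤
  · have hf : ∀ b ∈ B, (∀ x ∈ W, b.mulVec x = 0) → b = 0 := by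
      intro b hb hbW
      apply Matrix.toLin'.injective
      rw [map_zero]
      apply LinearMap.ext
      intro x
      have hx : x ∈ V := by
        rw [hV]
        trivial
      rw [Matrix.toLin'_apply, hx b hb hbW, LinearMap.zero_apply]
    obtain ⟨a, ha, ⟨e⟩⟩ := exists_equiv_matrix B W hW0 hWB hWs hf
    exact mem_normalizer_simple hP hsol hn hF' H B h0 h1 hH ha e
  · have hV0 : V ≠ ⊥ := by
      intro h2
      apply hW0
      rw [eq_bot_iff, ← h2]
      exact hWV
    have h2 : P (H₀.map H.subtype) := by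
      refine mem_of_subspace hP hsol hF (H₀.map H.subtype) V hV0 hV ?_
      rintro _ ⟨g, hg, rfl⟩ x hx b hb hbW
      have hgi : g⁻¹ ∈ H₀ := H₀.inv_mem hg
      have h3 : ((g⁻¹ : H) : GL (Fin n) F).1 * b * (((g⁻¹ : H) : GL (Fin n) F)⁻¹).1 ∈ B :=
        hH _ (g⁻¹ : H).2 b hb
      have h4 := hx _ h3 (hann _ hgi b hb hbW)
      have h5 : b.mulVec ((H.subtype g).1.mulVec x) = (H.subtype g).1.mulVec
          ((((g⁻¹ : H) : GL (Fin n) F).1 * b *
            (((g⁻¹ : H) : GL (Fin n) F)⁻¹).1).mulVec x) := by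
        rw [Matrix.mulVec_mulVec, Matrix.mulVec_mulVec]
        congr 1
        have h6 : (((g⁻¹ : H) : GL (Fin n) F)⁻¹).1 = (g : GL (Fin n) F).1 := by
          rw [Subgroup.coe_inv, inv_inv]
        have h7 : ((g⁻¹ : H) : GL (Fin n) F).1 = ((g : GL (Fin n) F)⁻¹).1 := rfl
        have h8 : (g : GL (Fin n) F).1 * ((g : GL (Fin n) F)⁻¹).1 = 1 :=
          (g : GL (Fin n) F).mul_inv
        rw [h6, h7]
        show b * (g : GL (Fin n) F).1 = (g : GL (Fin n) F).1 * _
        rw [← mul_assoc, ← mul_assoc, h8, one_mul]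
      rw [h5, h4, Matrix.mulVec_zero]
    have h3 : P H₀ := hP.of_equiv (H₀.equivMapOfInjective H.subtype H.subtype_injective) h2
    exact hP.of_finiteIndex H₀ hH₀ h3

theorem mem_normalizer_ext (hP : IsFJClass P)
    (hsol : ∀ (G : Type) [Group G], Group.IsSolvable G → P G) {E F : Type} [Field E] [Field F]
    [Algebra E F] [IsAlgClosed F] {n : ℕ} (hF : ∀ m < n, P (GL (Fin m) F))
    (hF' : ∀ m < n, P (Matrix.ProjGenLinGroup (Fin m) F)) (H : Subgroup (GL (Fin n) E))
    (B : Subalgebra E (Matrix (Fin n) (Fin n) E)) (h0 : B ≠ ⊥) (h1 : B ≠ ⊤)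
    (hH : ∀ g ∈ H, ∀ x ∈ B, g.1 * x * (g⁻¹).1 ∈ B) : P H := by
  classical
  let j : Matrix (Fin n) (Fin n) E →+* Matrix (Fin n) (Fin n) F := (algebraMap E F).mapMatrix
  have hj : Function.Injective j := Matrix.map_injective (algebraMap E F).injective
  let ι : GL (Fin n) E →* GL (Fin n) F := Matrix.GeneralLinearGroup.map (algebraMap E F)
  have hι : Function.Injective ι := by
    intro M N h
    apply Units.ext
    exact hj (congrArg Units.val h)
  have hιj : ∀ g, (ι g).1 = j g.1 := fun g => rfl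
  let B' : Subalgebra F (Matrix (Fin n) (Fin n) F) := Algebra.adjoin F (j '' (B : Set _))
  have hB' : ∀ b ∈ B, j b ∈ B' := fun b hb => Algebra.subset_adjoin ⟨b, hb, rfl⟩
  have hB'0 : B' ≠ ⊥ := by
    intro h2
    apply h0
    rw [eq_bot_iff]
    intro b hb
    have h3 := hB' b hb
    rw [h2, Algebra.mem_bot] at h3
    obtain ⟨c, hc⟩ := h3
    rw [Algebra.mem_bot]
    rcases Nat.eq_zero_or_pos n with h4 | h4
    · subst h4
      exact ⟨0, Subsingleton.elim _ _⟩
    · refine ⟨b ⟨0, h4⟩ ⟨0, h4⟩, ?_⟩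
      have h5 : algebraMap E F (b ⟨0, h4⟩ ⟨0, h4⟩) = c := by
        have h6 := congrFun (congrFun hc ⟨0, h4⟩) ⟨0, h4⟩
        rw [Matrix.algebraMap_matrix_apply, if_pos rfl] at h6
        exact h6.symm
      apply hj
      rw [← hc, ← h5]
      ext i k
      show algebraMap E F ((algebraMap E (Matrix (Fin n) (Fin n) E) _) i k) = _
      rw [Matrix.algebraMap_matrix_apply, Matrix.algebraMap_matrix_apply]
      split_ifs
      · rfl
      · rw [map_zero]
  have hB'1 : B' ≠ ⊤ := by
    intro h2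
    have h3 : Subalgebra.toSubmodule B < ⊤ := by
      rw [lt_top_iff_ne_top]
      intro h4
      exact h1 (Algebra.toSubmodule_eq_top.1 h4)
    obtain ⟨l, hl, hlB⟩ := Submodule.exists_le_ker_of_lt_top _ h3
    let l' : Matrix (Fin n) (Fin n) F →ₗ[F] F :=
      { toFun := fun M => ∑ i, ∑ k, M i k * algebraMap E F (l (Matrix.single i k 1))
        map_add' := by
          intro M N
          simp only [Matrix.add_apply, add_mul, Finset.sum_add_distrib]
        map_smul' := by
          intro c M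
          simp only [Matrix.smul_apply, smul_eq_mul, mul_assoc, Finset.mul_sum,
            RingHom.id_apply] }
    have hl' : ∀ M, l' (j M) = algebraMap E F (l M) := by
      intro M
      show ∑ i, ∑ k, algebraMap E F (M i k) * algebraMap E F (l (Matrix.single i k 1)) = _
      conv_rhs => rw [Matrix.matrix_eq_sum_single M]
      simp only [map_sum]
      refine Finset.sum_congr rfl fun i _ => Finset.sum_congr rfl fun k _ => ?_
      rw [← map_mul]
      congr 1
      have h4 : Matrix.single i k (M i k) = M i k • (Matrix.single i k (1 : E) :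
          Matrix (Fin n) (Fin n) E) := by
        rw [Matrix.smul_single, smul_eq_mul, mul_one]
      rw [h4, map_smul, smul_eq_mul]
    have hspan : Subalgebra.toSubmodule B' ≤ LinearMap.ker l' := by
      show Subalgebra.toSubmodule (Algebra.adjoin F (j '' (B : Set _))) ≤ _
      rw [Algebra.adjoin_eq_span, Submodule.span_le]
      intro x hx
      have h5 : x ∈ j '' (B : Set (Matrix (Fin n) (Fin n) E)) := by
        have h6 : Submonoid.closure (j '' (B : Set (Matrix (Fin n) (Fin n) E))) ≤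
            (B.toSubmonoid.map (j : Matrix (Fin n) (Fin n) E →* _)) := by
          rw [Submonoid.closure_le]
          rintro _ ⟨b, hb, rfl⟩
          exact ⟨b, hb, rfl⟩
        exact h6 hx
      obtain ⟨b, hb, rfl⟩ := h5
      have h7 : l b = 0 := hlB hb
      rw [SetLike.mem_coe, LinearMap.mem_ker, hl', h7, map_zero]
    rw [h2, Algebra.top_toSubmodule, top_le_iff] at hspan
    apply hl
    apply LinearMap.ext
    intro M
    have h8 : l' (j M) = 0 := by
      rw [← LinearMap.mem_ker, hspan]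
      trivial
    rw [hl'] at h8
    rw [LinearMap.zero_apply]
    exact (algebraMap E F).injective (by rw [h8, map_zero])
  have hH' : ∀ g ∈ H.map ι, ∀ x ∈ B', g.1 * x * (g⁻¹).1 ∈ B' := by
    rintro _ ⟨g, hg, rfl⟩ x hx
    have hgg : (ι g).1 * ((ι g)⁻¹).1 = 1 := (ι g).mul_inv
    have hgg' : ((ι g)⁻¹).1 * (ι g).1 = 1 := (ι g).inv_mul
    induction hx using Algebra.adjoin_induction with
    | mem x hx =>
      obtain ⟨b, hb, rfl⟩ := hx
      have h2 : (ι g).1 * j b * ((ι g)⁻¹).1 = j (g.1 * b * (g⁻¹).1) := by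
        rw [← map_inv, hιj, hιj, map_mul, map_mul]
      rw [h2]
      exact hB' _ (hH g hg b hb)
    | algebraMap r =>
      rw [← Algebra.commutes, mul_assoc, hgg, mul_one]
      exact Subalgebra.algebraMap_mem _ _
    | add x y _ _ hx hy =>
      rw [mul_add, add_mul]
      exact add_mem hx hy
    | mul x y _ _ hx hy =>
      have h2 : (ι g).1 * (x * y) * ((ι g)⁻¹).1 =
          ((ι g).1 * x * ((ι g)⁻¹).1) * ((ι g).1 * y * ((ι g)⁻¹).1) := by
        simp only [mul_assoc]
        rw [← mul_assoc ((ι g)⁻¹).1 (ι g).1, hgg', one_mul]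
      rw [h2]
      exact mul_mem hx hy
  have h2 := mem_normalizer hP hsol hF hF' (H.map ι) B' hB'0 hB'1 hH'
  exact hP.of_equiv (H.equivMapOfInjective ι hι) h2

end Pool.Agent.GLN
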