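import Pool.Agent.Lib.MP_98022b_gln.PlacesN
import Pool.Agent.Lib.MP_98022b_gln.LatStab
import Pool.Agent.Lib.MP_98022b_gln.NormMem

/-!
# Groups of matrices of determinant one with integral entries over a function field

Row GB16. `GeoMem` for the places of `exists_places_n`, `A` the ring of the elements which are
integral over `K[X]`; `mem_latStab` and `mem_normalizer_ext`.
-/

set_option autoImplicit false

open scoped WithZero

namespace Pool.Agent.GLN

open Pool.Agent.FJ Pool.Agent.GT

variable {P : ∀ (G : Type) [Group G], Prop}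

/-- The ring of the elements which are integral over `K[X]`. -/
private noncomputable def GB16_ring (K E : Type) [Field K] [Field E] [Algebra (RatFunc K) E] :
    Subring E where
  carrier := {x | (pE K E).IsIntegralElem x}
  mul_mem' := fun ha hb => ha.mul _ hb
  one_mem' := RingHom.isIntegralElem_one _
  add_mem' := fun ha hb => ha.add _ hb
  zero_mem' := RingHom.isIntegralElem_zero _
  neg_mem' := fun ha => ha.neg _

theorem mem_geo (hP : IsFJClass P) (hgeo : GeoMem P)
    (hsol : ∀ (G : Type) [Group G], Group.IsSolvable G → P G)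
    {K E F : Type} [Field K] [Field E] [Countable E] [Algebra (RatFunc K) E]
    [FiniteDimensional (RatFunc K) E] [Algebra.IsSeparable (RatFunc K) E] [Field F]
    [IsAlgClosed F] [Algebra E F] (hK : ∀ m : ℕ, P (GL (Fin m) K)) {n : ℕ}
    (hF : ∀ m < n, P (GL (Fin m) F)) (hF' : ∀ m < n, P (Matrix.ProjGenLinGroup (Fin m) F))
    (G : Subgroup (GL (Fin n) E)) (hfg : G.FG) (hdet : ∀ g ∈ G, g.1.det = 1)
    (hG : ∀ g ∈ G, ∀ i j, (pE K E).IsIntegralElem (g.1 i j)) : P G := by
  obtain ⟨I, hI, hI', v, hπ, hc, hX, hzero, hfin⟩ := exists_places_n K E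
  refine hgeo E n I v (GB16_ring K E) G hπ ?_ hfg hdet hG ?_ ?_
  · intro R
    obtain ⟨C, hC⟩ := hzero R
    exact ⟨C, fun x hx hx0 h i => hC x hx0 hx h i⟩
  · intro H hHG L hL hHL
    exact mem_latStab hP hK v hc hX hfin H (fun g hg => hG g (hHG hg)) L hL hHL
  · intro H hHG B h0 h1 hH
    exact mem_normalizer_ext hP hsol hF hF' H B h0 h1 hH

end Pool.Agent.GLN
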