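import Pool.Agent.Lib.MP_98022b_gln.GeoDefs
import Pool.Agent.Lib.MP_98022b_gln.LatVtx
import Pool.Agent.Lib.MP_98022b_gln.HullT

/-!
# From transfer reducibility to `GeoMem`
-/

set_option autoImplicit false

open scoped WithZero

namespace Pool.Agent.GLN

open Pool.Agent.FJ

/-- The subgroups of the stabilizers of the vertices and of the normalizers of the proper algebras
of matrices which contain a matrix which is not a scalar. -/
def Fam {E : Type} [Field E] {n : ℕ} {I : Type} (v : I → Valuation E ℤᵐ⁰)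
    (G : Subgroup (Matrix.SpecialLinearGroup (Fin n) E)) (H : Subgroup G) : Prop :=
  (∃ x : Vx v n, ∀ h ∈ H, h • x = x) ∨ ∃ B : Om E n, B ≠ ⊥ ∧ B ≠ ⊤ ∧ ∀ h ∈ H, h • B = B

/-- The result of the geometric part. -/
def GeoTR : Prop :=
  ∀ (E : Type) [Field E] [Countable E] (n : ℕ) (I : Type) [Finite I] [Nonempty I]
    (v : I → Valuation E ℤᵐ⁰) (A : Subring E)
    (G : Subgroup (Matrix.SpecialLinearGroup (Fin n) E)),
    0 < n → (∀ i, ∃ π, v i π = WithZero.exp (-1)) → FewZeros v A → Group.FG G →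
    (∀ g ∈ G, ∀ a b, g.1 a b ∈ A) → TransferReducible G (Fam v G)

variable {P : ∀ (G : Type) [Group G], Prop}

/-- The lattice of a norm. -/
theorem isLat_lat {E : Type} [Field E] {n : ℕ} {v : Valuation E ℤᵐ⁰} (w : Nm v n) :
    IsLat v (w.lat 0 : Set (Fin n → E)) where
  add_mem x hx y hy := (w.lat 0).add_mem hx hy
  smul_mem a ha x hx := (w.lat 0).smul_mem ⟨a, ha⟩ hx
  large := by
    obtain ⟨C, hC⟩ := w.bdd'
    refine ⟨⌈C⌉₊, fun x hx hx0 => ?_⟩
    have h1 : (⌈C⌉₊ : ℝ) ≤ w0 v x := by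
      obtain ⟨i, hi⟩ : ∃ i, x i ≠ 0 := by
        by_contra hcon
        push Not at hcon
        exact hx0 (funext hcon)
      refine le_csInf ⟨_, i, hi, rfl⟩ ?_
      rintro _ ⟨j, hj, rfl⟩
      have h2 := (WithZero.log_le_iff_le_exp ((Valuation.ne_zero_iff v).2 hj)).2 (hx j)
      show (⌈C⌉₊ : ℝ) ≤ -((WithZero.log (v (x j)) : ℤ) : ℝ)
      have h3 : ((WithZero.log (v (x j)) : ℤ) : ℝ) ≤ ((-(⌈C⌉₊ : ℤ) : ℤ) : ℝ) := by
        exact_mod_cast h2
      push_cast at h3
      linarith
    have h2 := (abs_le.1 (hC x)).1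
    have h3 := Nat.le_ceil C
    show (0 : ℝ) ≤ w.toFun x
    linarith
  small := by
    obtain ⟨C, hC⟩ := w.bdd'
    refine ⟨⌈C⌉₊, fun x hx i => ?_⟩
    by_cases hi : x i = 0
    · rw [hi, map_zero]
      exact zero_le
    have hx0 : x ≠ 0 := fun h => hi (congrFun h i)
    have h1 : w0 v x ≤ od v (x i) := by
      refine csInf_le ?_ ⟨i, hi, rfl⟩
      exact ((Set.toFinite _).image _).bddBelow
    have h2 := (abs_le.1 (hC x)).2
    have h3 := Nat.le_ceil C
    have h4 : (0 : ℝ) ≤ w.toFun x := hx hx0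
    rw [← WithZero.log_le_iff_le_exp ((Valuation.ne_zero_iff v).2 hi)]
    have h5 : ((WithZero.log (v (x i)) : ℤ) : ℝ) ≤ (((⌈C⌉₊ : ℕ) : ℤ) : ℝ) := by
      have h6 : od v (x i) = -((WithZero.log (v (x i)) : ℤ) : ℝ) := rfl
      push_cast
      linarith
    exact_mod_cast h5

/-- The geometric part for classes of groups which contain the transfer reducible groups. -/
theorem geoMem_of (hT : GeoTR) (hP : IsFJClassT P) : GeoMem P := by
  intro E _ _ n I _ _ v A G hπ hA hfg hdet hG hL hB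
  rcases Nat.eq_zero_or_pos n with rfl | hn
  · have : Subsingleton G := ⟨fun x y => by
      refine Subtype.ext (Units.ext ?_)
      ext i
      exact i.elim0⟩
    exact hP.toIsFJClass.of_subsingleton
  let G' : Subgroup (Matrix.SpecialLinearGroup (Fin n) E) :=
    G.comap Matrix.SpecialLinearGroup.toGL
  have hinj : Function.Injective
      (Matrix.SpecialLinearGroup.toGL : Matrix.SpecialLinearGroup (Fin n) E →* GL (Fin n) E) := by
    intro x y hxy
    refine Subtype.ext ?_
    have := congrArg (fun g : GL (Fin n) E => g.1) hxy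
    simpa using this
  have hcoei : ∀ g : Matrix.SpecialLinearGroup (Fin n) E,
      ((Matrix.SpecialLinearGroup.toGL g)⁻¹).1 = (g⁻¹).1 := fun g => by
    rw [← map_inv]
    rfl
  -- `G' → G` is an isomorphism
  let e : G' →* G :=
    (Matrix.SpecialLinearGroup.toGL.comp G'.subtype).codRestrict G fun g => g.2
  have he : Function.Injective e := by
    intro x y hxy
    have h1 : (e x : GL (Fin n) E) = e y := congrArg Subtype.val hxy
    exact Subtype.ext (hinj h1)
  have he' : Function.Surjective e := by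
    rintro ⟨g, hg⟩
    have h1 : Matrix.SpecialLinearGroup.toGL (⟨g.1, hdet g hg⟩ : Matrix.SpecialLinearGroup _ _)
        = g := Units.ext rfl
    exact ⟨⟨⟨g.1, hdet g hg⟩, by
      show Matrix.SpecialLinearGroup.toGL _ ∈ G
      rw [h1]
      exact hg⟩, Subtype.ext h1⟩
  let E' := MulEquiv.ofBijective e ⟨he, he'⟩
  refine hP.toIsFJClass.of_equiv E'.symm ?_
  have hfg' : Group.FG G' := by
    have := (Group.fg_iff_subgroup_fg G).2 hfg
    exact Group.fg_of_surjective (f := E'.symm.toMonoidHom) E'.symm.surjective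
  refine hP.transfer (Fam v G') (hT E n I v A G' hn hπ hA hfg' ?_) ?_
  · intro g hg a b
    exact hG _ hg a b
  intro H hH
  set f : G' →* GL (Fin n) E := Matrix.SpecialLinearGroup.toGL.comp G'.subtype with hf
  have hf' : Function.Injective f := fun x y hxy => Subtype.ext (hinj hxy)
  have hH1 : H.map f ≤ G := by
    rintro _ ⟨h, -, rfl⟩
    exact h.2
  suffices P (H.map f) from
    hP.toIsFJClass.of_equiv (H.equivMapOfInjective f hf') this
  rcases hH with ⟨x, hx⟩ | ⟨B, hB0, hB1, hB2⟩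
  · refine hL _ hH1 (fun i => ((x.1 i).lat 0 : Set (Fin n → E))) (fun i => isLat_lat _) ?_
    rintro _ ⟨h, hh, rfl⟩ i y hy hy0
    have h0 : y ≠ 0 := by
      rintro rfl
      exact hy0 (Matrix.mulVec_zero _)
    have h1 : (h : Matrix.SpecialLinearGroup (Fin n) E) • x.1 i = x.1 i :=
      congrFun (congrArg Subtype.val (hx h hh)) i
    have h2 := Nm.sl_smul_mulVec (h : Matrix.SpecialLinearGroup (Fin n) E) (x.1 i) y
    rw [h1] at h2
    show 0 ≤ (x.1 i) ((h : Matrix.SpecialLinearGroup (Fin n) E).1.mulVec y)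
    rw [h2]
    exact hy h0
  · refine hB _ hH1 B hB0 hB1 ?_
    rintro _ ⟨h, hh, rfl⟩ x hx
    have h1 : B.map (cjA (h : Matrix.SpecialLinearGroup (Fin n) E)) = B := hB2 h hh
    have h2 : cjA (h : Matrix.SpecialLinearGroup (Fin n) E) x ∈ B := by
      rw [← h1]
      exact ⟨x, hx, rfl⟩
    rw [cjA_apply] at h2
    show (Matrix.SpecialLinearGroup.toGL (h : Matrix.SpecialLinearGroup (Fin n) E)).1 * x *
      ((Matrix.SpecialLinearGroup.toGL (h : Matrix.SpecialLinearGroup (Fin n) E))⁻¹).1 ∈ B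
    rw [hcoei]
    exact h2

end Pool.Agent.GLN
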