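import Pool.Agent.Lib.MP_98022b_gln.GeoTrack
import Pool.Agent.Lib.MP_98022b_gln.ExTrack
import Pool.Agent.Lib.MP_98022b_gln.Dens

/-!
# The sequences of the persistent states of close frames
-/

set_option autoImplicit false

open Set Filter Topology

namespace Pool.Agent.GLN

open Pool.Agent.TR (IsTrack IsEvents GoodPair kap evs Pers seqP clk)

variable {G X B V : Type} [Group G] [MetricSpace B] [MulAction G B] [MulAction G V]
  {dV : V → V → ℕ} {M : ℕ} {geo : B → B → ℝ → B}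

/-! ### `SeqData` from an equivariant family of sequences -/

/-- The domain consists of the frames for which the sequence has all properties. -/
def SeqData.ofP (hd : IsDist G dV) (Bd W q : ℕ) (P : G → X → ℤ → Option V)
    (hP : ∀ h g x c, P (h * g) x c = h • P g x c) (A : Set V) (hA : A.Finite)
    (hAq : A.ncard ≤ q) : SeqData G X V dV Bd W q where
  Dom g x := (∀ c c' : ℤ, |c| ≤ W → |c'| ≤ W → ∀ v v', P g x c = some v → P g x c' = some v' →
      (dV v v' : ℤ) = |c - c'|) ∧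
    (∀ c : ℤ, |c| ≤ W → |c + Bd| ≤ W → ∃ m : ℕ, m ≤ Bd ∧ ∃ v, P g x (c + m) = some v) ∧
    ∀ c : ℤ, |c| ≤ W → ∀ v, P g x c = some v → g⁻¹ • v ∈ A
  P := P
  dom_smul := by
    rintro h g x ⟨h1, h2, h3⟩
    have key : ∀ c v, P (h * g) x c = some v → P g x c = some (h⁻¹ • v) := by
      intro c v hv
      rw [hP] at hv
      have h4 := congrArg (fun w => h⁻¹ • w) hv
      simpa only [inv_smul_smul, Option.smul_some] using h4
    refine ⟨fun c c' hc hc' v v' hv hv' => ?_, fun c hc hc' => ?_, fun c hc v hv => ?_⟩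
    · rw [← h1 c c' hc hc' _ _ (key c v hv) (key c' v' hv'), hd.smul]
    · obtain ⟨m, hm, v, hv⟩ := h2 c hc hc'
      exact ⟨m, hm, h • v, by rw [hP, hv, Option.smul_some]⟩
    · have := h3 c hc _ (key c v hv)
      rwa [← mul_smul, ← mul_inv_rev] at this
  smul := hP
  dist g x hx := hx.1
  dense g x hx := hx.2.1
  fin := ⟨A, hA, hAq, fun g x hx => hx.2.2⟩

/-! ### Persistent states -/

theorem pers_congr {dl : V → V → ℤ} {u u' : ℝ → V} {H δ : ℝ} (hH : 0 ≤ H)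
    (h : ∀ s, 0 ≤ s → s ≤ 3 * H → u s = u' s) (c : ℤ) (p : V) :
    Pers dl u H δ c p ↔ Pers dl u' H δ c p := by
  have hclk : ∀ s, 0 ≤ s → s ≤ 3 * H → clk dl u H s = clk dl u' H s := by
    intro s hs hs'
    unfold clk
    rw [h (2 * H) (by linarith) (by linarith), h s hs hs']
  constructor
  · rintro ⟨s₁, s₂, h1, h2, h3, h4⟩
    refine ⟨s₁, s₂, h1, h2, h3, fun s hs => ?_⟩
    rw [← h s (by linarith [hs.1]) (by linarith [hs.2]),
      ← hclk s (by linarith [hs.1]) (by linarith [hs.2])]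
    exact h4 s hs
  · rintro ⟨s₁, s₂, h1, h2, h3, h4⟩
    refine ⟨s₁, s₂, h1, h2, h3, fun s hs => ?_⟩
    rw [h s (by linarith [hs.1]) (by linarith [hs.2]),
      hclk s (by linarith [hs.1]) (by linarith [hs.2])]
    exact h4 s hs

open Classical in
theorem seqP_congr {dl : V → V → ℤ} {u u' : ℝ → V} {H δ : ℝ} (hH : 0 ≤ H)
    (h : ∀ s, 0 ≤ s → s ≤ 3 * H → u s = u' s) (c : ℤ) :
    seqP dl u H δ c = seqP dl u' H δ c := by
  have h1 : Pers dl u H δ c = Pers dl u' H δ c := by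
    funext p
    exact propext (pers_congr hH h c p)
  unfold seqP
  simp only [h1]

/-! ### `far` -/

variable (Δ : Disc G B V dV M geo)

theorem Disc.far_mono {r e e' : ℝ} {w : B} (h : Δ.far r e w) (he : e' ≤ e) : Δ.far r e' w := by
  obtain ⟨a, ha⟩ := Δ.vals w
  rw [ha] at h ⊢
  exact fun i k => he.trans (h i k)

/-- THE COMPARISON of two close paths. -/
theorem frames_agree (hsep : ∀ v w, dV v w = 0 → v = w) {C H ε r δ : ℝ} {x y x' y' : B}
    {a b : Fin M → ℝ} (hC : 0 ≤ C) (hM : 1 ≤ M) (hH : 4 * (M + 1) * (C + 4) ≤ H) (hδ : 0 < δ)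
    (hδ1 : δ ≤ 1 / 100) (hε : 0 < ε) (hc : Crv Δ x y a b) (hG : GoodPair a b H ε r δ)
    (hT : 5 * H ≤ dist x y) (hT' : 5 * H ≤ dist x' y') {τ : ℝ} (hτ : |τ| ≤ C)
    (hnear : ∀ s ∈ Icc (H / 2) (9 * H / 2),
      dist (endPt geo x y s) (endPt geo x' y' (s + τ)) < ε / 2) :
    ∃ sh : ℤ, |(sh : ℝ)| ≤ M * (C + 4) ∧ ∀ c : ℤ, |(c : ℝ)| ≤ H / 2 → ∀ p,
      (Pers (fun p q => (dV p q : ℤ)) (fun s => Δ.st r (endPt geo x' y' s)) H δ (c + sh) p ↔
        Pers (fun p q => (dV p q : ℤ)) (fun s => Δ.st r (endPt geo x y s)) H δ c p) ∧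
      (Pers (fun p q => (dV p q : ℤ)) (fun s => Δ.st r (endPt geo x' y' s)) H δ (c + sh) p →
        ∃ s, 0 ≤ s ∧ s ≤ dist x' y' ∧ Δ.st r (endPt geo x' y' s) = p ∧
          Δ.far r (ε / 2) (endPt geo x' y' s)) := by
  have hM' : (1 : ℝ) ≤ M := by exact_mod_cast hM
  have hH0 : 0 < H := by nlinarith
  have hH32 : 32 ≤ H := by nlinarith
  have hCH : C + 4 ≤ H / 8 := by nlinarith
  have hne' : x' ≠ y' := by
    rintro rfl
    rw [dist_self] at hT'
    linarith
  obtain ⟨a', b', hc'⟩ := exists_crv Δ hne'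
  have hu := hc.isTrack hsep hT r
  have hu' := hc'.isTrack hsep hT' r
  have hE := hc.isEvents hsep hT hε.le hG
  have hst : ∀ s ∈ Icc (H / 2) (9 * H / 2), s ∉ evs a b r ε →
      Δ.st r (endPt geo x' y' (s + τ)) = Δ.st r (endPt geo x y s) := by
    intro s hs he
    have h1 := hc.far_of_not_mem (by linarith [hs.1]) (by linarith [hs.2]) he
    exact Δ.st_eq r ε _ _ h1 ((hnear s hs).trans (by linarith))
  obtain ⟨sh, hsh, hmain⟩ := Pool.Agent.TR.ex_track hC hM hH hδ hδ1 hτ hu hu' hE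
    hst
  refine ⟨sh, hsh, fun c hcb p => ⟨hmain c hcb p, fun hp => ?_⟩⟩
  obtain ⟨s₁, s₂, h1, h2, h3, h4⟩ := (hmain c hcb p).1 hp
  -- a time which is not bad
  have h5 : ∃ s, s₁ ≤ s ∧ s ≤ s₂ ∧ s ∉ evs a b r ε := by
    rcases Pool.Agent.TR.exists_not_hull hδ hδ1 hE (j := s₁)
      ⟨by linarith, by linarith⟩ with h | h
    · refine ⟨s₁, le_rfl, by linarith, fun he => h ⟨s₁, he, s₁, he, by linarith, le_rfl, le_rfl⟩⟩
    · refine ⟨s₁ + 3 / 2 * δ, by linarith, by linarith, fun he =>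
        h ⟨_, he, _, he, by linarith, le_rfl, le_rfl⟩⟩
  obtain ⟨s, hs1, hs2, he⟩ := h5
  have hsI : s ∈ Icc (H / 2) (9 * H / 2) := ⟨by linarith, by linarith⟩
  have hτ' := abs_le.1 hτ
  refine ⟨s + τ, by linarith [hτ'.1], by linarith [hτ'.2], ?_, ?_⟩
  · rw [hst s hsI he]
    exact (h4 s ⟨hs1, hs2⟩).1
  · have h6 := hc.far_of_not_mem (r := r) (by linarith) (by linarith) he
    exact Δ.far_mono (Δ.far_dist r ε _ _ h6) (by linarith [hnear s hsI])

end Pool.Agent.GLN
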