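import Pool.Agent.Lib.MP_98022b_gln.GeoIface
import Pool.Agent.Lib.MP_98022b_gln.ConeDefs

/-!
# Small covers from the discretization
-/

set_option autoImplicit false

open Set

namespace Pool.Agent.GLN

private theorem sc_exists_pos {ι : Type*} [Finite ι] (f : ι → ℝ) (hf : ∀ i, 0 < f i) :
    ∃ e : ℝ, 0 < e ∧ ∀ i, e ≤ f i := by
  rcases isEmpty_or_nonempty ι with h | h
  · exact ⟨1, one_pos, fun i => (h.false i).elim⟩
  · obtain ⟨i, hi⟩ := Finite.exists_min f
    exact ⟨f i, hf i, hi⟩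

private theorem sc_nonint (x : ℝ) (hx : ∀ k : ℤ, x + k ≠ 0) :
    ∃ δ : ℝ, 0 < δ ∧ ∀ k : ℤ, δ ≤ |x + k| := by
  refine ⟨|x - round x|, ?_, fun k => ?_⟩
  · rw [abs_pos]
    have := hx (-(round x))
    push_cast at this
    rwa [← sub_eq_add_neg] at this
  · have := round_le x (-k)
    push_cast at this
    rwa [sub_neg_eq_add] at this

/-- The space of norms has open covers by small sets with multiplicity at most `M + 1`. -/
theorem smallCovers_of_disc {G B V : Type} [Group G] [MetricSpace B] [MulAction G B]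
    [MulAction G V] {dV : V → V → ℕ} {M : ℕ} {geo : B → B → ℝ → B}
    (Δ : Disc G B V dV M geo) : SmallCovers B M := by
  intro ε hε
  obtain ⟨K', hK'⟩ := exists_nat_one_div_lt hε
  set K : ℕ := K' + 1 with hKdef
  have hK0 : 0 < K := Nat.succ_pos _
  have hK : 1 / (K : ℝ) < ε := by rw [hKdef]; push_cast; exact hK'
  have hKR : (0 : ℝ) < K := by exact_mod_cast hK0
  have hMR : (0 : ℝ) < (M : ℝ) + 1 := by positivity
  let r : Fin (M + 1) → ℝ := fun j => (j : ℝ) / (K * (M + 1))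
  let U : Fin (M + 1) × (Fin K → V) → Set B := fun p =>
    {w | ∃ e : ℝ, 0 < e ∧ ∀ i : Fin K, Δ.far (r p.1 + (i : ℕ) / K) e w ∧
      Δ.st (r p.1 + (i : ℕ) / K) w = p.2 i}
  refine ⟨Fin (M + 1) × (Fin K → V), U, ?_, ?_, ?_, ?_⟩
  · rintro ⟨j, l⟩
    rw [Metric.isOpen_iff]
    rintro w ⟨e, he, h⟩
    refine ⟨e, he, ?_⟩
    intro w' hw'
    rw [Metric.mem_ball, dist_comm] at hw'
    refine ⟨e - dist w w', by linarith, fun i => ⟨Δ.far_dist _ _ _ _ (h i).1, ?_⟩⟩
    rw [Δ.st_eq _ _ _ _ (h i).1 hw']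
    exact (h i).2
  · rw [eq_univ_iff_forall]
    intro w
    obtain ⟨a, ha⟩ := Δ.vals w
    -- some shift is free
    have hfree : ∃ j : Fin (M + 1), ∀ (i : Fin M) (i' : Fin K) (k : ℤ),
        a i - (r j + (i' : ℕ) / K) + k ≠ 0 := by
      by_contra hcon
      push Not at hcon
      choose i i' k hk using hcon
      obtain ⟨j, j', hne, hij⟩ := Fintype.exists_ne_map_eq_of_card_lt i (by simp)
      apply hne
      have h1 := hk j
      have h2 := hk j'
      rw [← hij] at h2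
      have h3 : r j + (i' j : ℕ) / K - k j = r j' + (i' j' : ℕ) / K - k j' := by linarith
      simp only [r] at h3
      have h4 : ((j : ℕ) : ℝ) + (i' j : ℕ) * (M + 1) - k j * (K * (M + 1)) =
          ((j' : ℕ) : ℝ) + (i' j' : ℕ) * (M + 1) - k j' * (K * (M + 1)) := by
        have hKne := hKR.ne'
        have hMne := hMR.ne'
        field_simp at h3
        linarith
      have h5 : ((j : ℕ) : ℤ) + (i' j : ℕ) * ((M : ℤ) + 1) - k j * (K * ((M : ℤ) + 1)) =
          ((j' : ℕ) : ℤ) + (i' j' : ℕ) * ((M : ℤ) + 1) - k j' * (K * ((M : ℤ) + 1)) := by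
        exact_mod_cast h4
      have h6 : ((M : ℤ) + 1) ∣ ((j : ℕ) : ℤ) - ((j' : ℕ) : ℤ) :=
        ⟨(i' j' : ℕ) - (i' j : ℕ) + k j * K - k j' * K, by linear_combination h5⟩
      have h7 : ((j : ℕ) : ℤ) - ((j' : ℕ) : ℤ) = 0 := by
        apply Int.eq_zero_of_abs_lt_dvd h6
        have hj := j.2
        have hj' := j'.2
        rw [abs_lt]
        constructor <;> omega
      apply Fin.ext
      omega
    obtain ⟨j, hj⟩ := hfree
    -- positive distance
    have hpos : ∀ p : Fin M × Fin K, ∃ δ : ℝ, 0 < δ ∧ ∀ k : ℤ,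
        δ ≤ |a p.1 - (r j + (p.2 : ℕ) / K) + k| := fun p =>
      sc_nonint _ (fun k => hj p.1 p.2 k)
    choose δ hδ hδk using hpos
    obtain ⟨e, he, hle⟩ := sc_exists_pos δ hδ
    rw [mem_iUnion]
    refine ⟨(j, fun i => Δ.st (r j + (i : ℕ) / K) w), e, he, fun i' => ⟨?_, rfl⟩⟩
    rw [ha]
    intro i k
    have h1 := hδk (i, i') k
    have h2 := hle (i, i')
    have h3 : a i - (r j + (i' : ℕ) / K) + k = a i + k - (r j + (i' : ℕ) / K) := by ring
    simp only at h1
    rw [h3] at h1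
    exact h2.trans h1
  · rintro ⟨j, l⟩ w ⟨e, he, h⟩ w' ⟨e', he', h'⟩
    refine lt_of_le_of_lt (Δ.mesh K hK0 (r j) w w' ?_) hK
    intro i hi
    have h1 := (h ⟨i, hi⟩).2
    have h2 := (h' ⟨i, hi⟩).2
    simp only at h1 h2
    rw [h1, h2]
  · intro w
    have hinj : InjOn Prod.fst {p : Fin (M + 1) × (Fin K → V) | w ∈ U p} := by
      rintro ⟨j, l⟩ ⟨e, he, h⟩ ⟨j', l'⟩ ⟨e', he', h'⟩ hjj
      simp only at hjj h h'
      subst hjj
      congr 1
      funext i
      rw [← (h i).2, ← (h' i).2]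
    rw [← hinj.encard_image]
    refine (encard_le_encard (subset_univ _)).trans ?_
    rw [encard_univ]
    simp

end Pool.Agent.GLN
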