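import Pool.Agent.Lib.MP_98022b_gln.GeoMemN
import Pool.Agent.Lib.MP_98022b_gln.GeoMain
import Pool.Agent.Lib.MP_98022b_gln.GaugeVx
import Pool.Agent.Lib.MP_98022b_gln.SmallCov
import Pool.Agent.Lib.MP_98022b_gln.ConeMain
import Pool.Agent.Lib.MP_98022b_gln.AlgDataG

/-!
# Groups of matrices over fields with discrete valuations are transfer reducible

The geometric theorem for the product of the spaces of norms.
-/

set_option autoImplicit false

open scoped WithZero

namespace Pool.Agent.GLN

theorem geoTR : GeoTR := by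
  intro E _ _ n I _ _ v A G _ hπ hA hfg hG
  have : Fintype I := Fintype.ofFinite I
  refine transferReducible_of_disc hfg (isDist G) (fun u w h => eq_of_dV h)
    (algData A hA G hG) (Fam v G) ?_ ?_ (discN G) Bld.o
    (2 * Fintype.card (I × Fin n) + 2) fun S hS => ?_
  · rintro B ⟨h0, h1⟩ H hH
    exact Or.inr ⟨B, h0, h1, hH⟩
  · intro x H hH
    exact Or.inl ⟨x, hH⟩
  · obtain ⟨L, R, η, h⟩ := coneData (v := v) hπ G S hS
    exact ⟨gF v (sgl S), L, R, η, h, gaugeFin hπ G S hS,
      coneOut h hS (smallCovers_of_disc (discN (v := v) G))⟩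

end Pool.Agent.GLN
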