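import Mathlib

/-!
# Gram determinants of the trace form of a matrix algebra

`gram a` is the determinant of the matrix of the traces of the products of `n ^ 2` matrices. It is,
up to sign, a square of a determinant; it is small at a valuation if the entries of the matrices are
small off the diagonal blocks.
-/

set_option autoImplicit false

open scoped WithZero

namespace Pool.Agent.GLN

/-! ### Lower bounds for orders -/

section OB

variable {E : Type} [Field E]

/-- `x = 0` or the order of `x` is at least `B`. -/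
def OB (v : Valuation E ℤᵐ⁰) (B : ℝ) (x : E) : Prop := x ≠ 0 → B ≤ -((WithZero.log (v x) : ℤ) : ℝ)

variable {v : Valuation E ℤᵐ⁰}

theorem OB.mono {B C : ℝ} {x : E} (h : OB v B x) (hC : C ≤ B) : OB v C x := fun hx => hC.trans (h hx)

theorem OB.zero (B : ℝ) : OB v B 0 := fun h => absurd rfl h

theorem OB.one : OB v 0 (1 : E) := fun _ => by simp

theorem OB.neg {B : ℝ} {x : E} (h : OB v B x) : OB v B (-x) := by
  intro hx
  rw [Valuation.map_neg]
  exact h (neg_ne_zero.1 hx)

theorem OB.mul {B C : ℝ} {x y : E} (hx : OB v B x) (hy : OB v C y) : OB v (B + C) (x * y) := by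
  intro h
  have h1 : x ≠ 0 := left_ne_zero_of_mul h
  have h2 : y ≠ 0 := right_ne_zero_of_mul h
  rw [map_mul, WithZero.log_mul ((Valuation.ne_zero_iff v).2 h1) ((Valuation.ne_zero_iff v).2 h2)]
  have := hx h1
  have := hy h2
  push_cast
  linarith

theorem OB.add {B : ℝ} {x y : E} (hx : OB v B x) (hy : OB v B y) : OB v B (x + y) := by
  intro h
  have key : ∀ z : E, z ≠ 0 → v (x + y) ≤ v z → OB v B z → B ≤ -((WithZero.log (v (x + y)) : ℤ) : ℝ) := by
    intro z hz hle hO
    have h1 : WithZero.log (v (x + y)) ≤ WithZero.log (v z) :=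
      (WithZero.log_le_log ((Valuation.ne_zero_iff v).2 h) ((Valuation.ne_zero_iff v).2 hz)).2 hle
    have h2 : ((WithZero.log (v (x + y)) : ℤ) : ℝ) ≤ ((WithZero.log (v z) : ℤ) : ℝ) := by exact_mod_cast h1
    have := hO hz
    linarith
  rcases eq_or_ne x 0 with rfl | hx0
  · rw [zero_add] at h ⊢
    exact hy h
  rcases eq_or_ne y 0 with rfl | hy0
  · rw [add_zero] at h ⊢
    exact hx h
  rcases le_max_iff.1 (v.map_add x y) with h1 | h1
  · exact key x hx0 h1 hx
  · exact key y hy0 h1 hy

theorem OB.sum {ι : Type} {B : ℝ} (s : Finset ι) (f : ι → E) (h : ∀ i ∈ s, OB v B (f i)) :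
    OB v B (∑ i ∈ s, f i) := by
  classical
  induction s using Finset.induction_on with
  | empty =>
    rw [Finset.sum_empty]
    exact OB.zero B
  | insert a s ha ih =>
    rw [Finset.sum_insert ha]
    exact (h a (Finset.mem_insert_self a s)).add
      (ih fun i hi => h i (Finset.mem_insert_of_mem hi))

theorem OB.prod {ι : Type} (s : Finset ι) (f : ι → E) (B : ι → ℝ) (h : ∀ i ∈ s, OB v (B i) (f i)) :
    OB v (∑ i ∈ s, B i) (∏ i ∈ s, f i) := by
  classical
  induction s using Finset.induction_on with
  | empty =>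
    rw [Finset.sum_empty, Finset.prod_empty]
    exact OB.one
  | insert a s ha ih =>
    rw [Finset.sum_insert ha, Finset.prod_insert ha]
    exact (h a (Finset.mem_insert_self a s)).mul
      (ih fun i hi => h i (Finset.mem_insert_of_mem hi))

theorem OB.sign {B : ℝ} {x : E} {κ : Type} [Fintype κ] [DecidableEq κ] (σ : Equiv.Perm κ)
    (h : OB v B x) : OB v B (Equiv.Perm.sign σ • x) := by
  rcases Int.units_eq_one_or (Equiv.Perm.sign σ) with h1 | h1
  · rw [h1, one_smul]
    exact h
  · rw [h1, Units.neg_smul, one_smul]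
    exact h.neg

/-- The determinant of a matrix with bounds for the columns. -/
theorem OB.det {κ : Type} [Fintype κ] [DecidableEq κ] (A : Matrix κ κ E) (β : κ → ℝ)
    (h : ∀ p q, OB v (β q) (A p q)) : OB v (∑ q, β q) A.det := by
  rw [Matrix.det_apply]
  refine OB.sum _ _ fun σ _ => ?_
  exact OB.sign σ (OB.prod _ _ _ fun q _ => h (σ q) q)

end OB

/-! ### The Gram determinant -/

section Gram

variable {n : ℕ} {R : Type} [CommRing R]

/-- The matrices as the rows of a matrix. -/
def wm (a : Fin n × Fin n → Matrix (Fin n) (Fin n) R) :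
    Matrix (Fin n × Fin n) (Fin n × Fin n) R := Matrix.of fun p q => a p q.1 q.2

/-- The determinant of the matrix of the traces of the products. -/
def gram (a : Fin n × Fin n → Matrix (Fin n) (Fin n) R) : R :=
  (Matrix.of fun p q => (a p * a q).trace).det

theorem gram_eq (a : Fin n × Fin n → Matrix (Fin n) (Fin n) R) :
    gram a = ((Equiv.Perm.sign (Equiv.prodComm (Fin n) (Fin n)) : ℤ) : R) * (wm a).det ^ 2 := by
  have h : (Matrix.of fun p q => (a p * a q).trace) =
      wm a * ((wm a).submatrix id (Equiv.prodComm (Fin n) (Fin n))).transpose := by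
    ext p q
    rw [Matrix.mul_apply]
    show (a p * a q).trace = ∑ r : Fin n × Fin n, a p r.1 r.2 * a q r.2 r.1
    rw [Matrix.trace, Fintype.sum_prod_type]
    refine Finset.sum_congr rfl fun i _ => ?_
    rw [Matrix.diag_apply, Matrix.mul_apply]
  unfold gram
  rw [h, Matrix.det_mul, Matrix.det_transpose, Matrix.det_permute']
  ring

theorem gram_map {S : Type} [CommRing S] (f : R →+* S)
    (a : Fin n × Fin n → Matrix (Fin n) (Fin n) R) : gram (fun p => (a p).map f) = f (gram a) := by
  unfold gram
  rw [RingHom.map_det]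
  congr 1
  ext p q
  show ((a p).map f * (a q).map f).trace = f (a p * a q).trace
  rw [← Matrix.map_mul, AddMonoidHom.map_trace]

theorem gram_conj (b : GL (Fin n) R) (a : Fin n × Fin n → Matrix (Fin n) (Fin n) R) :
    gram (fun p => (b⁻¹).1 * a p * b.1) = gram a := by
  unfold gram
  congr 1
  ext p q
  show ((b⁻¹).1 * a p * b.1 * ((b⁻¹).1 * a q * b.1)).trace = (a p * a q).trace
  have h : (b⁻¹).1 * a p * b.1 * ((b⁻¹).1 * a q * b.1) = (b⁻¹).1 * (a p * a q) * b.1 := by
    have h1 : b.1 * (b⁻¹).1 = 1 := b.mul_inv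
    calc (b⁻¹).1 * a p * b.1 * ((b⁻¹).1 * a q * b.1)
        = (b⁻¹).1 * a p * (b.1 * (b⁻¹).1) * a q * b.1 := by simp only [mul_assoc]
      _ = _ := by rw [h1]; simp only [mul_assoc, one_mul]
  rw [h]
  exact Matrix.trace_units_conj' b _

/-- The Gram determinant is not zero for linearly independent matrices. -/
theorem gram_ne_zero {F : Type} [Field F] (a : Fin n × Fin n → Matrix (Fin n) (Fin n) F)
    (h : LinearIndependent F a) : gram a ≠ 0 := by
  rw [gram_eq]
  have h1 : LinearIndependent F (wm a).row := by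
    let e : Matrix (Fin n) (Fin n) F ≃ₗ[F] (Fin n × Fin n → F) :=
      { toFun := fun M q => M q.1 q.2
        invFun := fun f => Matrix.of fun i j => f (i, j)
        map_add' := fun _ _ => rfl
        map_smul' := fun _ _ => rfl
        left_inv := fun _ => rfl
        right_inv := fun _ => rfl }
    exact h.map' e.toLinearMap (LinearMap.ker_eq_bot.2 e.injective)
  have h2 : (wm a).det ≠ 0 :=
    ((Matrix.isUnit_iff_isUnit_det _).1 (Matrix.linearIndependent_rows_iff_isUnit.1 h1)).ne_zero
  refine mul_ne_zero ?_ (pow_ne_zero 2 h2)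
  rcases Int.units_eq_one_or (Equiv.Perm.sign (Equiv.prodComm (Fin n) (Fin n))) with h3 | h3
  · rw [h3]
    simp
  · rw [h3]
    simp

end Gram

/-! ### Bounds for matrices -/

section MB

variable {n : ℕ} {E : Type} [Field E] {v : Valuation E ℤᵐ⁰}

/-- The bound of the entries of a matrix. -/
def MB (v : Valuation E ℤᵐ⁰) (c δ : Fin n → ℝ) (T : ℝ) (M : Matrix (Fin n) (Fin n) E) : Prop :=
  ∀ k l, OB v (c l - c k + |δ k - δ l| / 2 - T) (M k l)

variable {c δ : Fin n → ℝ}

theorem MB.mono {T T' : ℝ} {M : Matrix (Fin n) (Fin n) E} (h : MB v c δ T M) (hT : T ≤ T') :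
    MB v c δ T' M := fun k l => (h k l).mono (by linarith)

theorem MB.one : MB v c δ 0 (1 : Matrix (Fin n) (Fin n) E) := by
  intro k l
  by_cases h : k = l
  · subst h
    rw [Matrix.one_apply_eq]
    exact OB.one.mono (by simp)
  · rw [Matrix.one_apply_ne h]
    exact OB.zero _

theorem MB.mul {T T' : ℝ} {M N : Matrix (Fin n) (Fin n) E} (hM : MB v c δ T M)
    (hN : MB v c δ T' N) : MB v c δ (T + T') (M * N) := by
  intro k l
  rw [Matrix.mul_apply]
  refine OB.sum _ _ fun i _ => ((hM k i).mul (hN i l)).mono ?_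
  have h := abs_sub_le (δ k) (δ i) (δ l)
  linarith

theorem MB.list {T : ℝ} (l : List (Matrix (Fin n) (Fin n) E)) (h : ∀ M ∈ l, MB v c δ T M) :
    MB v c δ (l.length * T) l.prod := by
  induction l with
  | nil =>
    rw [List.prod_nil, List.length_nil, Nat.cast_zero, zero_mul]
    exact MB.one
  | cons M l ih =>
    rw [List.prod_cons, List.length_cons]
    refine ((h M (List.mem_cons_self)).mul (ih fun N hN => h N (List.mem_cons_of_mem _ hN))).mono ?_
    push_cast
    linarith

/-- The bound of the Gram determinant. -/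
theorem MB.gram {T : ℝ} (a : Fin n × Fin n → Matrix (Fin n) (Fin n) E)
    (h : ∀ p, MB v c δ T (a p)) :
    OB v (∑ k, ∑ l, |δ k - δ l| - 2 * (n : ℝ) ^ 2 * T) (gram a) := by
  have h1 : OB v (∑ q : Fin n × Fin n, (c q.2 - c q.1 + |δ q.1 - δ q.2| / 2 - T)) (wm a).det :=
    OB.det _ _ fun p q => h p q.1 q.2
  have e1 : ∑ q : Fin n × Fin n, (c q.2 - c q.1 + |δ q.1 - δ q.2| / 2 - T) =
      (∑ k, ∑ l, |δ k - δ l|) / 2 - (n : ℝ) ^ 2 * T := by
    rw [Fintype.sum_prod_type]
    simp only [Finset.sum_sub_distrib, Finset.sum_add_distrib, Finset.sum_const,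
      Finset.card_univ, Fintype.card_fin, nsmul_eq_mul, ← Finset.sum_div, ← Finset.mul_sum]
    ring
  rw [e1] at h1
  rw [gram_eq]
  have h2 := h1.mul h1
  rcases Int.units_eq_one_or (Equiv.Perm.sign (Equiv.prodComm (Fin n) (Fin n))) with h3 | h3
  · rw [h3]
    simp only [Units.val_one, Int.cast_one, one_mul, pow_two]
    exact h2.mono (by linarith)
  · rw [h3]
    simp only [Units.val_neg, Units.val_one, Int.cast_neg, Int.cast_one, neg_mul, one_mul, pow_two]
    exact h2.neg.mono (by linarith)

/-- The sum of the differences is large if one of numbers with sum zero is large. -/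
theorem sum_abs_ge (δ : Fin n → ℝ) (h0 : ∑ k, δ k = 0) (k : Fin n) :
    |δ k| ≤ ∑ k, ∑ l, |δ k - δ l| := by
  have h1 : |δ k| * n ≤ ∑ l, |δ k - δ l| := by
    have h2 : ∑ l, (δ k - δ l) = δ k * n := by
      rw [Finset.sum_sub_distrib, h0, Finset.sum_const, Finset.card_univ, Fintype.card_fin,
        nsmul_eq_mul]
      ring
    have h3 := Finset.abs_sum_le_sum_abs (fun l => δ k - δ l) Finset.univ
    rw [h2, abs_mul, Nat.abs_cast] at h3
    exact h3
  have hn : (1 : ℝ) ≤ n := by
    have : 1 ≤ n := by
      have := k.2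
      omega
    exact_mod_cast this
  have h4 : ∑ l, |δ k - δ l| ≤ ∑ k, ∑ l, |δ k - δ l| :=
    Finset.single_le_sum (f := fun k => ∑ l, |δ k - δ l|)
      (fun i _ => Finset.sum_nonneg fun l _ => abs_nonneg _) (Finset.mem_univ k)
  have h5 : |δ k| ≤ |δ k| * n := le_mul_of_one_le_right (abs_nonneg _) hn
  linarith

/-- The bound from two norms. -/
theorem MB.of_two {α α' : Fin n → ℝ} {R : ℝ} {M : Matrix (Fin n) (Fin n) E}
    (h : ∀ k l, OB v (α l - α k - R) (M k l)) (h' : ∀ k l, OB v (α' l - α' k - R) (M k l)) :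
    MB v (fun k => (α k + α' k) / 2) (fun k => α' k - α k) R M := by
  intro k l hx
  have h1 := h k l hx
  have h2 := h' k l hx
  have h3 : |(α' k - α k) - (α' l - α l)| ≤
      max ((α' k - α k) - (α' l - α l)) (-((α' k - α k) - (α' l - α l))) := le_of_eq (abs_eq_max_neg)
  rcases le_total 0 ((α' k - α k) - (α' l - α l)) with h4 | h4
  · rw [abs_of_nonneg h4]
    linarith
  · rw [abs_of_nonpos h4]
    linarith

end MB

/-! ### Words -/

section Words

variable {n : ℕ} {F : Type} [Field F]

/-- If the algebra generated by `Z` is the whole matrix algebra, then there are `n ^ 2` words of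
length at most `n ^ 2` in `Z` which are linearly independent. -/
theorem exists_words (Z : Set (Matrix (Fin n) (Fin n) F)) (hZ : Algebra.adjoin F Z = ⊤) :
    ∃ l : Fin n × Fin n → List (Matrix (Fin n) (Fin n) F),
      (∀ p, (l p).length ≤ n ^ 2) ∧ (∀ p, ∀ M ∈ l p, M ∈ Z) ∧
      LinearIndependent F fun p => (l p).prod := by
  classical
  let W : ℕ → Set (Matrix (Fin n) (Fin n) F) := fun m =>
    {M | ∃ l : List (Matrix (Fin n) (Fin n) F), l.length ≤ m ∧ (∀ N ∈ l, N ∈ Z) ∧ l.prod = M}
  let S : ℕ → Submodule F (Matrix (Fin n) (Fin n) F) := fun m => Submodule.span F (W m)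
  have hWmono : ∀ m, W m ⊆ W (m + 1) := by
    rintro m M ⟨l, h1, h2, h3⟩
    exact ⟨l, h1.trans (Nat.le_succ m), h2, h3⟩
  have hSmono : ∀ m, S m ≤ S (m + 1) := fun m => Submodule.span_mono (hWmono m)
  -- a stable step
  have hstab : ∀ m, S m = S (m + 1) → S m = ⊤ := by
    intro m hm
    have hmul : ∀ N ∈ Z, ∀ M ∈ S m, N * M ∈ S m := by
      intro N hN M hM
      rw [hm]
      refine Submodule.span_induction (p := fun M _ => N * M ∈ S (m + 1)) ?_ ?_ ?_ ?_ hM
      · rintro M ⟨l, h1, h2, h3⟩
        refine Submodule.subset_span ⟨N :: l, ?_, ?_, ?_⟩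
        · rw [List.length_cons]
          omega
        · intro N' hN'
          rcases List.mem_cons.1 hN' with rfl | h
          · exact hN
          · exact h2 N' h
        · rw [List.prod_cons, h3]
      · rw [mul_zero]
        exact Submodule.zero_mem _
      · intro x y _ _ hx hy
        rw [mul_add]
        exact Submodule.add_mem _ hx hy
      · intro a x _ hx
        rw [mul_smul_comm]
        exact Submodule.smul_mem _ a hx
    have hall : ∀ A ∈ Algebra.adjoin F Z, ∀ M ∈ S m, A * M ∈ S m := by
      intro A hA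
      refine Algebra.adjoin_induction (p := fun A _ => ∀ M ∈ S m, A * M ∈ S m) ?_ ?_ ?_ ?_ hA
      · intro N hN
        exact hmul N hN
      · intro r M hM
        rw [← Algebra.smul_def]
        exact Submodule.smul_mem _ r hM
      · intro x y _ _ hx hy M hM
        rw [add_mul]
        exact Submodule.add_mem _ (hx M hM) (hy M hM)
      · intro x y _ _ hx hy M hM
        rw [mul_assoc]
        exact hx _ (hy M hM)
    rw [eq_top_iff]
    intro A _
    have h1 : (1 : Matrix (Fin n) (Fin n) F) ∈ S m :=
      Submodule.subset_span ⟨[], Nat.zero_le _, by simp, rfl⟩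
    have h2 := hall A (by rw [hZ]; trivial) 1 h1
    rwa [mul_one] at h2
  -- the dimension grows
  have hdim : ∀ m, S m = ⊤ ∨ m ≤ Module.finrank F (S m) := by
    intro m
    induction m with
    | zero => exact Or.inr (Nat.zero_le _)
    | succ m ih =>
      rcases ih with h | h
      · left
        rw [eq_top_iff, ← h]
        exact hSmono m
      · by_cases hs : S m = S (m + 1)
        · left
          rw [← hs]
          exact hstab m hs
        · right
          have h1 : S m < S (m + 1) := lt_of_le_of_ne (hSmono m) hs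
          have h2 := Submodule.finrank_lt_finrank_of_lt h1
          omega
  have htop : S (n ^ 2) = ⊤ := by
    rcases hdim (n ^ 2) with h | h
    · exact h
    · refine Submodule.eq_top_of_finrank_eq (le_antisymm (Submodule.finrank_le _) ?_)
      rw [Module.finrank_matrix, Module.finrank_self, Fintype.card_fin, mul_one, ← pow_two]
      exact h
  -- a basis of words
  obtain ⟨B, hB1, hB2, hB3⟩ := exists_linearIndependent F (W (n ^ 2))
  have hBspan : Submodule.span F B = ⊤ := by
    rw [hB2]
    exact htop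
  have hBb := Module.Basis.mk hB3 (by
    rw [Subtype.range_coe]
    exact hBspan.ge)
  let _ : Fintype B := FiniteDimensional.fintypeBasisIndex hBb
  have hcard : Fintype.card B = Fintype.card (Fin n × Fin n) := by
    rw [← Module.finrank_eq_card_basis hBb, Module.finrank_matrix, Module.finrank_self,
      Fintype.card_prod, mul_one]
  let e : Fin n × Fin n ≃ B := Fintype.equivOfCardEq hcard.symm
  choose l hl1 hl2 hl3 using fun p => hB1 (e p).2
  refine ⟨l, hl1, hl2, ?_⟩
  have h1 : (fun p => (l p).prod) = (fun b : B => (b : Matrix (Fin n) (Fin n) F)) ∘ e := by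
    funext p
    exact hl3 p
  rw [h1]
  exact hB3.comp e e.injective

end Words

end Pool.Agent.GLN
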