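import Mathlib

/-!
# The line lemma: auxiliary statements

Powers of a small number cannot all be close to an arithmetic progression, and the counts which
follow from this.
-/

set_option autoImplicit false

open Finset

namespace Pool.Agent.GLN

theorem int_eq_zero_of_abs_lt {n : ℤ} (h : |(n : ℝ)| < 1) : n = 0 := by
  have h1 : |n| < 1 := by exact_mod_cast h
  exact Int.abs_lt_one_iff.mp h1

theorem aux_le {x R S : ℝ} (hx1 : x ≤ 1 / 50) (hR : 0 ≤ R) (h : S ≤ x * R) : S ≤ R / 50 := by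
  have := mul_le_mul_of_nonneg_right hx1 hR
  linarith

theorem aux_mul_le {Q x R S : ℝ} (hQ0 : 0 ≤ Q) (hQ : Q * x ≤ 1 / 50) (hR : 0 ≤ R)
    (h : S ≤ x * R) : Q * S ≤ R / 50 := by
  have h1 := mul_le_mul_of_nonneg_left h hQ0
  have h2 := mul_le_mul_of_nonneg_right hQ hR
  rw [mul_assoc] at h2
  linarith

theorem aux_mul_le2 {Q x R E : ℝ} (hQ0 : 0 ≤ Q) (hx : 0 ≤ x) (hQ : Q * x ≤ 1 / 50)
    (hx1 : x ≤ 1 / 50) (hR : 0 ≤ R) (h : E ≤ x * x * R) : Q * E ≤ R / 2500 := by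
  have h1 := mul_le_mul_of_nonneg_left h hQ0
  have h2 : Q * (x * x * R) = (Q * x) * (x * R) := by ring
  have h3 : (Q * x) * (x * R) ≤ (1 / 50) * (x * R) :=
    mul_le_mul_of_nonneg_right hQ (mul_nonneg hx hR)
  have h4 := mul_le_mul_of_nonneg_right hx1 hR
  rw [h2] at h1
  linarith

/-- Powers of a small number cannot all be close to an arithmetic progression. -/
theorem three_hits {x : ℝ} (hx : 0 < x) {Q : ℝ} (hQ0 : 1 ≤ Q) (hQ : Q * x ≤ 1 / 50) {K : ℕ}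
    {k₁ k₂ k₃ : ℕ} (h12 : k₁ < k₂) (h23 : k₂ < k₃) (h3 : k₃ < K) {θ ω : ℝ}
    {p₁ p₂ p₃ n₁ n₂ n₃ : ℤ} (d12 : |(p₁ : ℝ) - p₂| ≤ Q) (d23 : |(p₂ : ℝ) - p₃| ≤ Q)
    (d13 : |(p₁ : ℝ) - p₃| ≤ Q)
    (e₁ : |x ^ (k₁ + 1) - (θ + p₁ * ω + n₁)| ≤ x ^ (K + 2))
    (e₂ : |x ^ (k₂ + 1) - (θ + p₂ * ω + n₂)| ≤ x ^ (K + 2))
    (e₃ : |x ^ (k₃ + 1) - (θ + p₃ * ω + n₃)| ≤ x ^ (K + 2)) : False := by
  have hx1 : x ≤ 1 / 50 := le_trans (le_mul_of_one_le_left hx.le hQ0) hQ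
  have hx1' : x ≤ 1 := by linarith
  -- sizes
  have hr1 : 0 < x ^ (k₁ + 1) := pow_pos hx _
  have hr2 : 0 < x ^ (k₂ + 1) := pow_pos hx _
  have hr3 : 0 < x ^ (k₃ + 1) := pow_pos hx _
  have hr21 : x ^ (k₂ + 1) ≤ x * x ^ (k₁ + 1) := by
    rw [← pow_succ']
    exact pow_le_pow_of_le_one hx.le hx1' (by omega)
  have hr32 : x ^ (k₃ + 1) ≤ x * x ^ (k₂ + 1) := by
    rw [← pow_succ']
    exact pow_le_pow_of_le_one hx.le hx1' (by omega)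
  have hr1x : x ^ (k₁ + 1) ≤ x := by
    calc x ^ (k₁ + 1) ≤ x ^ 1 := pow_le_pow_of_le_one hx.le hx1' (by omega)
      _ = x := pow_one x
  have hK1 : x ^ (K + 2) ≤ x * x * x ^ (k₁ + 1) := by
    rw [← pow_two, ← pow_add]
    exact pow_le_pow_of_le_one hx.le hx1' (by omega)
  have hK2 : x ^ (K + 2) ≤ x * x * x ^ (k₂ + 1) := by
    rw [← pow_two, ← pow_add]
    exact pow_le_pow_of_le_one hx.le hx1' (by omega)
  have hK0 : 0 < x ^ (K + 2) := pow_pos hx _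
  set R₁ := x ^ (k₁ + 1)
  set R₂ := x ^ (k₂ + 1)
  set R₃ := x ^ (k₃ + 1)
  set E := x ^ (K + 2)
  have hQ0' : 0 ≤ Q := by linarith
  have hR2' : R₂ ≤ R₁ / 50 := aux_le hx1 hr1.le hr21
  have hR3' : R₃ ≤ R₂ / 50 := aux_le hx1 hr2.le hr32
  have hQR1 : Q * R₂ ≤ R₁ / 50 := aux_mul_le hQ0' hQ hr1.le hr21
  have hQR2 : Q * R₃ ≤ R₂ / 50 := aux_mul_le hQ0' hQ hr2.le hr32
  have hQE1 : Q * E ≤ R₁ / 2500 := aux_mul_le2 hQ0' hx.le hQ hx1 hr1.le hK1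
  have hQE2 : Q * E ≤ R₂ / 2500 := aux_mul_le2 hQ0' hx.le hQ hx1 hr2.le hK2
  have hE1 : E ≤ R₁ / 2500 := le_trans (le_mul_of_one_le_left hK0.le hQ0) hQE1
  have hE2 : E ≤ R₂ / 2500 := le_trans (le_mul_of_one_le_left hK0.le hQ0) hQE2
  -- the integer relation
  have hR1s : R₁ ≤ 1 / 50 := by linarith
  have key : |((p₂ : ℝ) - p₃) * R₁ + ((p₃ : ℝ) - p₁) * R₂ + ((p₁ : ℝ) - p₂) * R₃ -
      (((p₂ : ℝ) - p₃) * n₁ + ((p₃ : ℝ) - p₁) * n₂ + ((p₁ : ℝ) - p₂) * n₃)| ≤ 3 * (Q * E) := by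
    have e : ((p₂ : ℝ) - p₃) * R₁ + ((p₃ : ℝ) - p₁) * R₂ + ((p₁ : ℝ) - p₂) * R₃ -
        (((p₂ : ℝ) - p₃) * n₁ + ((p₃ : ℝ) - p₁) * n₂ + ((p₁ : ℝ) - p₂) * n₃) =
        ((p₂ : ℝ) - p₃) * (R₁ - (θ + p₁ * ω + n₁)) + ((p₃ : ℝ) - p₁) * (R₂ - (θ + p₂ * ω + n₂)) +
        ((p₁ : ℝ) - p₂) * (R₃ - (θ + p₃ * ω + n₃)) := by ring
    rw [e]
    have f1 : |((p₂ : ℝ) - p₃) * (R₁ - (θ + p₁ * ω + n₁))| ≤ Q * E := by
      rw [abs_mul]
      exact mul_le_mul d23 e₁ (abs_nonneg _) (by linarith)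
    have f2 : |((p₃ : ℝ) - p₁) * (R₂ - (θ + p₂ * ω + n₂))| ≤ Q * E := by
      rw [abs_mul]
      exact mul_le_mul (by rwa [abs_sub_comm]) e₂ (abs_nonneg _) (by linarith)
    have f3 : |((p₁ : ℝ) - p₂) * (R₃ - (θ + p₃ * ω + n₃))| ≤ Q * E := by
      rw [abs_mul]
      exact mul_le_mul d12 e₃ (abs_nonneg _) (by linarith)
    have g1 := abs_add_three (((p₂ : ℝ) - p₃) * (R₁ - (θ + p₁ * ω + n₁)))
      (((p₃ : ℝ) - p₁) * (R₂ - (θ + p₂ * ω + n₂))) (((p₁ : ℝ) - p₂) * (R₃ - (θ + p₃ * ω + n₃)))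
    linarith
  have b1 : |((p₂ : ℝ) - p₃) * R₁| ≤ Q * R₁ := by
    rw [abs_mul, abs_of_pos hr1]
    exact mul_le_mul_of_nonneg_right d23 hr1.le
  have b2 : |((p₃ : ℝ) - p₁) * R₂| ≤ Q * R₂ := by
    rw [abs_mul, abs_of_pos hr2, abs_sub_comm]
    exact mul_le_mul_of_nonneg_right d13 hr2.le
  have b3 : |((p₁ : ℝ) - p₂) * R₃| ≤ Q * R₃ := by
    rw [abs_mul, abs_of_pos hr3]
    exact mul_le_mul_of_nonneg_right d12 hr3.le
  have hQR0 : Q * R₁ ≤ 1 / 50 := le_trans (mul_le_mul_of_nonneg_left hr1x hQ0') hQ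
  -- the integer is zero
  have hn : ((p₂ - p₃) * n₁ + (p₃ - p₁) * n₂ + (p₁ - p₂) * n₃ : ℤ) = 0 := by
    apply int_eq_zero_of_abs_lt
    push_cast
    rw [abs_le] at key b1 b2 b3
    obtain ⟨key1, key2⟩ := key
    obtain ⟨b11, b12⟩ := b1
    obtain ⟨b21, b22⟩ := b2
    obtain ⟨b31, b32⟩ := b3
    clear hr21 hr32 hK1 hK2 e₁ e₂ e₃ d12 d23 d13 hQ hx1 hx1' hQE2 hE2 hx hQ0 hr1x
    rw [abs_lt]
    constructor <;> linarith
  have hn' : ((p₂ : ℝ) - p₃) * n₁ + ((p₃ : ℝ) - p₁) * n₂ + ((p₁ : ℝ) - p₂) * n₃ = 0 := by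
    exact_mod_cast hn
  rw [hn', sub_zero] at key
  -- first coefficient
  have c1 : p₂ - p₃ = 0 := by
    by_contra hne
    have h1 : (1 : ℝ) ≤ |(p₂ : ℝ) - p₃| := by
      have : (1 : ℤ) ≤ |p₂ - p₃| := Int.one_le_abs hne
      exact_mod_cast this
    have h2 : R₁ ≤ |((p₂ : ℝ) - p₃) * R₁| := by
      rw [abs_mul, abs_of_pos hr1]
      exact le_mul_of_one_le_left hr1.le h1
    have h4 : |((p₂ : ℝ) - p₃) * R₁| ≤ |((p₂ : ℝ) - p₃) * R₁ + ((p₃ : ℝ) - p₁) * R₂ +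
        ((p₁ : ℝ) - p₂) * R₃| + |((p₃ : ℝ) - p₁) * R₂| + |((p₁ : ℝ) - p₂) * R₃| := by
      have := abs_add_three (((p₂ : ℝ) - p₃) * R₁ + ((p₃ : ℝ) - p₁) * R₂ +
        ((p₁ : ℝ) - p₂) * R₃) (-(((p₃ : ℝ) - p₁) * R₂)) (-(((p₁ : ℝ) - p₂) * R₃))
      rw [abs_neg, abs_neg] at this
      refine le_trans (le_of_eq ?_) this
      congr 1
      ring
    clear hr21 hr32 hK1 hK2 e₁ e₂ e₃ d12 d23 d13 hQ hx1 hx1' hQE2 hE2 hx hQ0 hr1x
    linarith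
  have hp23 : (p₂ : ℝ) = p₃ := by
    have : p₂ = p₃ := by omega
    exact_mod_cast this
  -- second coefficient
  have c2 : p₃ - p₁ = 0 := by
    by_contra hne
    have h1 : (1 : ℝ) ≤ |(p₃ : ℝ) - p₁| := by
      have : (1 : ℤ) ≤ |p₃ - p₁| := Int.one_le_abs hne
      exact_mod_cast this
    have h2 : ((p₂ : ℝ) - p₃) * R₁ + ((p₃ : ℝ) - p₁) * R₂ + ((p₁ : ℝ) - p₂) * R₃ =
        ((p₃ : ℝ) - p₁) * (R₂ - R₃) := by
      rw [hp23]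
      ring
    rw [h2, abs_mul] at key
    have h3 : R₂ - R₃ ≤ |R₂ - R₃| := le_abs_self _
    have h4 : (1 : ℝ) * (R₂ - R₃) ≤ |(p₃ : ℝ) - p₁| * |R₂ - R₃| :=
      mul_le_mul h1 h3 (by linarith) (abs_nonneg _)
    linarith
  have hp13 : (p₃ : ℝ) = p₁ := by
    have : p₃ = p₁ := by omega
    exact_mod_cast this
  have hp21 : (p₂ : ℝ) = p₁ := by rw [hp23, hp13]
  rw [hp21] at e₂
  -- all equal
  have hd : |(R₁ - R₂) - ((n₁ : ℝ) - n₂)| ≤ 2 * E := by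
    have : (R₁ - R₂) - ((n₁ : ℝ) - n₂) = (R₁ - (θ + p₁ * ω + n₁)) - (R₂ - (θ + p₁ * ω + n₂)) := by
      ring
    rw [this]
    have := abs_sub (R₁ - (θ + p₁ * ω + n₁)) (R₂ - (θ + p₁ * ω + n₂))
    linarith
  have hnn : n₁ - n₂ = 0 := by
    apply int_eq_zero_of_abs_lt
    push_cast
    rw [abs_le] at hd
    rw [abs_lt]
    constructor <;> linarith
  have hnn' : (n₁ : ℝ) - n₂ = 0 := by exact_mod_cast hnn
  rw [hnn', sub_zero, abs_le] at hd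
  linarith [hd.2]

/-- At most two powers are close to a progression. -/
theorem card_hits {x : ℝ} (hx : 0 < x) {Q : ℝ} (hQ0 : 1 ≤ Q) (hQ : Q * x ≤ 1 / 50) {K : ℕ}
    (θ ω : ℝ) (T : Set ℤ) (hT : ∀ p ∈ T, ∀ p' ∈ T, |(p : ℝ) - p'| ≤ Q) (S : Finset (Fin K))
    (hS : ∀ k ∈ S, ∃ p ∈ T, ∃ n : ℤ, |x ^ (k.val + 1) - (θ + p * ω + n)| ≤ x ^ (K + 2)) :
    S.card ≤ 2 := by
  by_contra hcon
  push Not at hcon
  obtain ⟨k₁, k₂, k₃, h1, h2, h3, n12, n13, n23⟩ := Finset.two_lt_card_iff.mp hcon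
  have main : ∀ k₁ ∈ S, ∀ k₂ ∈ S, ∀ k₃ ∈ S, k₁.val < k₂.val → k₂.val < k₃.val → False := by
    intro k₁ h1 k₂ h2 k₃ h3 l12 l23
    obtain ⟨p₁, hp1, m₁, e1⟩ := hS k₁ h1
    obtain ⟨p₂, hp2, m₂, e2⟩ := hS k₂ h2
    obtain ⟨p₃, hp3, m₃, e3⟩ := hS k₃ h3
    exact three_hits hx hQ0 hQ l12 l23 k₃.2 (hT _ hp1 _ hp2) (hT _ hp2 _ hp3) (hT _ hp1 _ hp3)
      e1 e2 e3
  have v12 : k₁.val ≠ k₂.val := fun h => n12 (Fin.ext h)
  have v13 : k₁.val ≠ k₃.val := fun h => n13 (Fin.ext h)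
  have v23 : k₂.val ≠ k₃.val := fun h => n23 (Fin.ext h)
  rcases Nat.lt_or_gt_of_ne v12 with a | a <;> rcases Nat.lt_or_gt_of_ne v13 with b | b <;>
    rcases Nat.lt_or_gt_of_ne v23 with c | c
  · exact main _ h1 _ h2 _ h3 a c
  · exact main _ h1 _ h3 _ h2 b c
  · omega
  · exact main _ h3 _ h1 _ h2 b a
  · exact main _ h2 _ h1 _ h3 a b
  · omega
  · exact main _ h2 _ h3 _ h1 c b
  · exact main _ h3 _ h2 _ h1 c a

/-- At most one power is close to a given number modulo `1`. -/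
theorem card_hit_one {x : ℝ} (hx : 0 < x) (hx1 : x ≤ 1 / 50) {K : ℕ} (c : ℝ) {e : ℝ}
    (he : e ≤ x ^ (K + 1)) (S : Finset (Fin K))
    (hS : ∀ k ∈ S, ∃ n : ℤ, |c - x ^ (k.val + 1) - n| ≤ e) : S.card ≤ 1 := by
  rw [Finset.card_le_one]
  have hx1' : x ≤ 1 := by linarith
  have main : ∀ k₁ ∈ S, ∀ k₂ ∈ S, k₁.val < k₂.val → False := by
    intro k₁ h1 k₂ h2 l12
    obtain ⟨m₁, e1⟩ := hS k₁ h1
    obtain ⟨m₂, e2⟩ := hS k₂ h2
    have hr1 : 0 < x ^ (k₁.val + 1) := pow_pos hx _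
    have hr2 : 0 < x ^ (k₂.val + 1) := pow_pos hx _
    have hr21 : x ^ (k₂.val + 1) ≤ x * x ^ (k₁.val + 1) := by
      rw [← pow_succ']
      exact pow_le_pow_of_le_one hx.le hx1' (by omega)
    have hr1x : x ^ (k₁.val + 1) ≤ x := by
      calc x ^ (k₁.val + 1) ≤ x ^ 1 := pow_le_pow_of_le_one hx.le hx1' (by omega)
        _ = x := pow_one x
    have hK1 : x ^ (K + 1) ≤ x * x ^ (k₁.val + 1) := by
      rw [← pow_succ']
      exact pow_le_pow_of_le_one hx.le hx1' (by have := k₁.2; omega)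
    have hR2 : x ^ (k₂.val + 1) ≤ x ^ (k₁.val + 1) / 50 := aux_le hx1 hr1.le hr21
    have hE : e ≤ x ^ (k₁.val + 1) / 50 := aux_le hx1 hr1.le (he.trans hK1)
    have hd : |(x ^ (k₁.val + 1) - x ^ (k₂.val + 1)) - ((m₂ : ℝ) - m₁)| ≤ 2 * e := by
      have : (x ^ (k₁.val + 1) - x ^ (k₂.val + 1)) - ((m₂ : ℝ) - m₁) =
        (c - x ^ (k₂.val + 1) - m₂) - (c - x ^ (k₁.val + 1) - m₁) := by ring
      rw [this]
      have := abs_sub (c - x ^ (k₂.val + 1) - m₂) (c - x ^ (k₁.val + 1) - m₁)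
      linarith
    have hnn : m₂ - m₁ = 0 := by
      apply int_eq_zero_of_abs_lt
      push_cast
      obtain ⟨hd1, hd2⟩ := abs_le.1 hd
      rw [abs_lt]
      constructor <;> linarith
    have hnn' : (m₂ : ℝ) - m₁ = 0 := by exact_mod_cast hnn
    rw [hnn', sub_zero, abs_le] at hd
    linarith [hd.2]
  intro k₁ h1 k₂ h2
  rcases lt_trichotomy k₁.val k₂.val with h | h | h
  · exact (main _ h1 _ h2 h).elim
  · exact Fin.ext h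
  · exact (main _ h2 _ h1 h).elim

/-- There is an index which avoids all the bad sets. -/
theorem exists_avoid {ι : Type} [Fintype ι] [DecidableEq ι] {K : ℕ}
    (hK : 2 * Fintype.card ι ^ 2 < K) (F : ι → ι → Finset (Fin K)) (hF : ∀ i j, (F i j).card ≤ 2) :
    ∃ k : Fin K, ∀ i j, k ∉ F i j := by
  classical
  by_contra hcon
  push Not at hcon
  have hsub : (Finset.univ : Finset (Fin K)) ⊆
      (Finset.univ : Finset (ι × ι)).biUnion fun q => F q.1 q.2 := by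
    intro k _
    obtain ⟨i, j, h⟩ := hcon k
    exact Finset.mem_biUnion.mpr ⟨(i, j), Finset.mem_univ _, h⟩
  have h1 := Finset.card_le_card hsub
  have h2 := Finset.card_biUnion_le_card_mul (Finset.univ : Finset (ι × ι))
    (fun q => F q.1 q.2) 2 (fun q _ => hF q.1 q.2)
  rw [Finset.card_univ, Fintype.card_fin] at h1
  rw [Finset.card_univ, Fintype.card_prod] at h2
  nlinarith

end Pool.Agent.GLN
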