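import Mathlib

/-!
# The line lemma: the definition of a bad point
-/

set_option autoImplicit false

namespace Pool.Agent.GLN

/-- One of the functions `a i + b i * s` is within `e` of `r` modulo `1`. -/
def BadPt {ι : Type} (a b : ι → ℝ) (r e s : ℝ) : Prop :=
  ∃ i, ∃ m : ℤ, |a i + b i * s - r - m| ≤ e

end Pool.Agent.GLN
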