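import Mathlib
import Pool.Agent.Lib.MP_98022b_gln.LineDefs
import Pool.Agent.Lib.MP_98022b_gln.LineAux

/-!
# The line lemma

For finitely many affine functions `a i + b i * s` on a window there is a pair (threshold, scale)
in an explicit finite list such that the times at which one of the functions is close to the
threshold modulo `1` form clusters of this scale.
-/

set_option autoImplicit false

open Finset

namespace Pool.Agent.GLN

/-- THE LINE LEMMA. -/
theorem line_lemma {ι : Type} [Fintype ι] {x P : ℝ} (hx : 0 < x) (hP : 0 ≤ P)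
    (hxP : 100 * (Fintype.card ι + 1) * (P + 4) * x ≤ 1) {K : ℕ} (hK : K = 2 * Fintype.card ι ^ 2 + 1)
    (a b : ι → ℝ) (hb : ∀ i, |b i| ≤ 1) :
    ∃ k < K, ∃ l < K, ∀ s s' : ℝ, 0 ≤ s → s ≤ P → 0 ≤ s' → s' ≤ P →
      BadPt a b (x ^ (k + 1)) (x ^ ((K + 3) + (2 * K + 6) * K + 1)) s →
      BadPt a b (x ^ (k + 1)) (x ^ ((K + 3) + (2 * K + 6) * K + 1)) s' →
      |s - s'| ≤ 2 * (x ^ (2 * K + 6)) ^ (l + 1) ∨
        9 * (Fintype.card ι + 1) * (x ^ (2 * K + 6)) ^ (l + 1) ≤ |s - s'| := by
  classical
  set N : ℝ := (Fintype.card ι : ℝ) + 1 with hN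
  have hN1 : (1 : ℝ) ≤ N := by
    have : (0 : ℝ) ≤ (Fintype.card ι : ℝ) := Nat.cast_nonneg _
    linarith
  have hP4x : (P + 4) * x ≤ 1 / 100 := by
    have : (P + 4) * x * 100 ≤ (P + 4) * x * (100 * N) :=
      mul_le_mul_of_nonneg_left (by linarith) (by positivity)
    linarith
  have hNx : N * x ≤ 1 / 400 := by
    have : N * x * 400 ≤ N * x * (100 * (P + 4)) :=
      mul_le_mul_of_nonneg_left (by linarith) (by positivity)
    linarith
  have hx1 : x ≤ 1 / 400 := by
    have : 4 * x ≤ (P + 4) * x := mul_le_mul_of_nonneg_right (by linarith) hx.le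
    linarith
  have hx1' : x ≤ 1 := by linarith
  set β : ℝ := x ^ (K + 3) with hβ
  set γ : ℝ := x ^ (2 * K + 6) with hγ
  set ε : ℝ := x ^ (K + 2) with hε
  set e₀ : ℝ := x ^ ((K + 3) + (2 * K + 6) * K + 1) with he₀
  have hβ0 : 0 < β := pow_pos hx _
  have hγ0 : 0 < γ := pow_pos hx _
  have hε0 : 0 < ε := pow_pos hx _
  have he0 : 0 < e₀ := pow_pos hx _
  have hβx : β = x * ε := by rw [hβ, hε, ← pow_succ']
  have hγ2 : γ = x * (β * ε) := by
    rw [hγ, hβ, hε, ← pow_add, ← pow_succ']
    congr 1
    ring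
  have hε1 : ε ≤ x := by
    calc x ^ (K + 2) ≤ x ^ 1 := pow_le_pow_of_le_one hx.le hx1' (by omega)
      _ = x := pow_one x
  have hβ1 : β ≤ x := by
    rw [hβx]
    exact mul_le_of_le_one_right hx.le (hε1.trans hx1')
  have hγβ : γ ≤ x * x * β := by
    rw [hγ2]
    have := mul_le_mul_of_nonneg_left hε1 (mul_pos hx hβ0).le
    linarith
  have hγ1 : γ ≤ x := by
    rw [hγ2]
    exact mul_le_of_le_one_right hx.le
      (mul_le_one₀ (hβ1.trans hx1') hε0.le (hε1.trans hx1'))
  have he0e : e₀ = β * γ ^ K * x := by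
    rw [he₀, hβ, hγ, ← pow_mul, ← pow_add, ← pow_succ]
  -- the scales
  have hδ0 : ∀ l : ℕ, 0 < γ ^ (l + 1) := fun l => pow_pos hγ0 _
  have hδγ : ∀ l : ℕ, γ ^ (l + 1) ≤ γ := by
    intro l
    calc γ ^ (l + 1) ≤ γ ^ 1 := pow_le_pow_of_le_one hγ0.le (by linarith) (by omega)
      _ = γ := pow_one γ
  have hδs : ∀ l l' : ℕ, l < l' → γ ^ (l' + 1) ≤ γ * γ ^ (l + 1) := by
    intro l l' h
    rw [← pow_succ']
    exact pow_le_pow_of_le_one hγ0.le (by linarith) (by omega)
  have hδe : ∀ l < K, e₀ / β ≤ γ ^ (l + 1) / 4 := by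
    intro l hl
    have h1 : γ ^ K ≤ γ ^ (l + 1) := pow_le_pow_of_le_one hγ0.le (by linarith) (by omega)
    have h2 : e₀ / β = γ ^ K * x := by
      rw [he0e]
      field_simp
    rw [h2]
    have h3 := hδ0 l
    have h4 := mul_le_mul_of_nonneg_right h1 hx.le
    have h5 := mul_le_mul_of_nonneg_left hx1 h3.le
    linarith
  have hNγ : 40 * N * γ ≤ 1 := by
    have := mul_le_mul_of_nonneg_left hγ1 (by linarith : 0 ≤ N)
    linarith
  -- the bad thresholds
  let FK : ι → ι → Finset (Fin K) := fun i j =>
    if i = j then Finset.univ.filter fun k : Fin K => |b i| < β ∧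
      ∃ n : ℤ, |a i - x ^ (k.val + 1) - n| ≤ e₀ + P * β
    else Finset.univ.filter fun k : Fin K => b j - b i ≠ 0 ∧ ∃ p n : ℤ,
      -2 ≤ (p - (a j - a i)) / (b j - b i) ∧ (p - (a j - a i)) / (b j - b i) ≤ P + 2 ∧
      |a i + b i * ((p - (a j - a i)) / (b j - b i)) - x ^ (k.val + 1) - n| ≤ ε
  have hFK : ∀ i j, (FK i j).card ≤ 2 := by
    intro i j
    by_cases hij : i = j
    · have : FK i j = Finset.univ.filter fun k : Fin K => |b i| < β ∧
          ∃ n : ℤ, |a i - x ^ (k.val + 1) - n| ≤ e₀ + P * β := by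
        simp only [FK, hij, if_true]
      rw [this]
      refine (card_hit_one (e := e₀ + P * β) hx (by linarith) (a i) ?_ _ ?_).trans (by norm_num)
      · have h1 : e₀ ≤ x * ε := by
          rw [he0e, hβx]
          have h2 : γ ^ K ≤ 1 := pow_le_one₀ hγ0.le (by linarith)
          have h3 : x * ε * γ ^ K * x ≤ x * ε * 1 * 1 := by
            apply mul_le_mul _ hx1' hx.le (by positivity)
            exact mul_le_mul_of_nonneg_left h2 (by positivity)
          linarith
        have h2 : P * β ≤ ε / 100 := by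
          rw [hβx]
          have : P * (x * ε) = (P * x) * ε := by ring
          rw [this]
          have h3 : P * x ≤ 1 / 100 := by
            have : P * x ≤ (P + 4) * x := mul_le_mul_of_nonneg_right (by linarith) hx.le
            linarith
          have h4 := mul_le_mul_of_nonneg_right h3 hε0.le
          linarith
        have h3 : ε = x * x ^ (K + 1) := by rw [hε, ← pow_succ']
        have h4 : 0 < x ^ (K + 1) := pow_pos hx _
        have h5 : x * ε ≤ ε := mul_le_of_le_one_left hε0.le hx1'
        have h6 : ε ≤ x ^ (K + 1) / 400 := by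
          have h7 := mul_le_mul_of_nonneg_right hx1 h4.le
          rw [h3]
          linarith
        linarith
      · intro k hk
        exact (Finset.mem_filter.mp hk).2.2
    · have hF : FK i j = Finset.univ.filter fun k : Fin K => b j - b i ≠ 0 ∧ ∃ p n : ℤ,
          -2 ≤ (p - (a j - a i)) / (b j - b i) ∧ (p - (a j - a i)) / (b j - b i) ≤ P + 2 ∧
          |a i + b i * ((p - (a j - a i)) / (b j - b i)) - x ^ (k.val + 1) - n| ≤ ε := by
        simp only [FK, hij, if_false]
      by_cases hκ : b j - b i = 0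
      · have : FK i j = ∅ := by
          rw [hF]
          apply Finset.filter_false_of_mem
          intro k _ h
          exact h.1 hκ
        rw [this]
        simp
      · refine card_hits (Q := 2 * (P + 4)) hx (by linarith) (by linarith)
          (a i - b i * (a j - a i) / (b j - b i)) (b i / (b j - b i))
          {p : ℤ | -2 ≤ (p - (a j - a i)) / (b j - b i) ∧
            (p - (a j - a i)) / (b j - b i) ≤ P + 2} ?_ _ ?_
        · rintro p ⟨hp1, hp2⟩ p' ⟨hp1', hp2'⟩
          have hκ2 : |b j - b i| ≤ 2 := by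
            have := abs_sub (b j) (b i)
            have h1 := hb i
            have h2 := hb j
            linarith
          have e : (p : ℝ) - p' = (b j - b i) *
              ((p - (a j - a i)) / (b j - b i) - (p' - (a j - a i)) / (b j - b i)) := by
            field_simp
            ring
          rw [e, abs_mul]
          have h3 : |((p : ℝ) - (a j - a i)) / (b j - b i) - (p' - (a j - a i)) / (b j - b i)| ≤
              P + 4 := by
            rw [abs_le]
            constructor <;> linarith
          exact mul_le_mul hκ2 h3 (abs_nonneg _) (by norm_num)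
        · intro k hk
          rw [hF] at hk
          obtain ⟨-, -, p, n, h1, h2, h3⟩ := Finset.mem_filter.mp hk
          refine ⟨p, ⟨h1, h2⟩, -n, ?_⟩
          rw [abs_sub_comm]
          refine le_trans (le_of_eq ?_) h3
          congr 1
          push_cast
          field_simp
          ring
  obtain ⟨k, hk⟩ := exists_avoid (by omega) FK hFK
  -- the bad scales
  let FL : ι → ι → Finset (Fin K) := fun i j =>
    (Finset.univ.filter fun l : Fin K => ε * |b j - b i| < 10 * N * γ ^ (l.val + 1) ∧
      β * γ ^ (l.val + 1) < 2 * (P + 2) * |b j - b i|) ∪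
    (Finset.univ.filter fun l : Fin K => ∃ p : ℤ,
      β * γ ^ (l.val + 1) / 2 ≤ |(a j - a i) - (b j - b i) - p| ∧
      |(a j - a i) - (b j - b i) - p| < 11 * N * γ ^ (l.val + 1))
  have hFL : ∀ i j, (FL i j).card ≤ 2 := by
    intro i j
    refine (Finset.card_union_le _ _).trans ?_
    have c1 : (Finset.univ.filter fun l : Fin K => ε * |b j - b i| < 10 * N * γ ^ (l.val + 1) ∧
        β * γ ^ (l.val + 1) < 2 * (P + 2) * |b j - b i|).card ≤ 1 := by
      rw [Finset.card_le_one]
      have main : ∀ l l' : ℕ, l < l' → β * γ ^ (l + 1) < 2 * (P + 2) * |b j - b i| →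
          ε * |b j - b i| < 10 * N * γ ^ (l' + 1) → False := by
        intro l l' hll h1 h2
        have h3 := hδs l l' hll
        have h4 := hδ0 l
        have h5 : 0 < |b j - b i| := by
          by_contra h
          have : |b j - b i| = 0 := le_antisymm (not_lt.mp h) (abs_nonneg _)
          rw [this, mul_zero] at h1
          exact absurd h1 (not_lt.2 (mul_pos hβ0 h4).le)
        -- multiply
        have h6 : ε * |b j - b i| * β < 10 * N * γ * (2 * (P + 2) * |b j - b i|) := by
          calc ε * |b j - b i| * β < 10 * N * γ ^ (l' + 1) * β :=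
                mul_lt_mul_of_pos_right h2 hβ0
            _ ≤ 10 * N * (γ * γ ^ (l + 1)) * β := by
                apply mul_le_mul_of_nonneg_right _ hβ0.le
                exact mul_le_mul_of_nonneg_left h3 (by positivity)
            _ = 10 * N * γ * (β * γ ^ (l + 1)) := by ring
            _ < 10 * N * γ * (2 * (P + 2) * |b j - b i|) :=
                mul_lt_mul_of_pos_left h1 (by positivity)
        have h7 : 10 * N * γ * (2 * (P + 2) * |b j - b i|) =
            (20 * (N * (P + 2) * x)) * (ε * |b j - b i| * β) := by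
          rw [hγ2]
          ring
        rw [h7] at h6
        have h8 : N * (P + 2) * x ≤ 1 / 100 := by
          have : N * (P + 2) * x ≤ N * (P + 4) * x := by
            apply mul_le_mul_of_nonneg_right _ hx.le
            exact mul_le_mul_of_nonneg_left (by linarith) (by linarith)
          linarith
        have h9 : 0 < ε * |b j - b i| * β := by positivity
        have h10 := mul_le_mul_of_nonneg_right h8 h9.le
        generalize ε * |b j - b i| * β = X at h6 h9 h10
        generalize N * (P + 2) * x = Z at h6 h10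
        linarith
      intro l hl l' hl'
      obtain ⟨-, u1, u2⟩ := Finset.mem_filter.mp hl
      obtain ⟨-, w1, w2⟩ := Finset.mem_filter.mp hl'
      rcases lt_trichotomy l.val l'.val with h | h | h
      · exact (main _ _ h u2 w1).elim
      · exact Fin.ext h
      · exact (main _ _ h w2 u1).elim
    have c2 : (Finset.univ.filter fun l : Fin K => ∃ p : ℤ,
        β * γ ^ (l.val + 1) / 2 ≤ |(a j - a i) - (b j - b i) - p| ∧
        |(a j - a i) - (b j - b i) - p| < 11 * N * γ ^ (l.val + 1)).card ≤ 1 := by
      rw [Finset.card_le_one]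
      have main : ∀ l l' : ℕ, l < l' → ∀ p p' : ℤ,
          β * γ ^ (l + 1) / 2 ≤ |(a j - a i) - (b j - b i) - p| →
          |(a j - a i) - (b j - b i) - p| < 11 * N * γ ^ (l + 1) →
          |(a j - a i) - (b j - b i) - p'| < 11 * N * γ ^ (l' + 1) → False := by
        intro l l' hll p p' h1 h2 h3
        have h4 := hδs l l' hll
        have h5 := hδ0 l
        have h6 := hδγ l
        have h7 := hδγ l'
        have hNγ0 : 0 < N := by linarith
        have hpp : p' - p = 0 := by
          apply int_eq_zero_of_abs_lt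
          push_cast
          have h8 : 11 * N * γ ^ (l + 1) ≤ 11 * N * γ :=
            mul_le_mul_of_nonneg_left h6 (by positivity)
          have h9 : 11 * N * γ ^ (l' + 1) ≤ 11 * N * γ :=
            mul_le_mul_of_nonneg_left h7 (by positivity)
          rw [abs_lt] at h2 h3 ⊢
          constructor <;> linarith
        have hpp' : (p' : ℝ) = p := by
          have : p' = p := by omega
          exact_mod_cast this
        rw [hpp'] at h3
        have h8 : 11 * N * γ ^ (l' + 1) ≤ 11 * N * (γ * γ ^ (l + 1)) :=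
          mul_le_mul_of_nonneg_left h4 (by positivity)
        have h9 : β / 2 * γ ^ (l + 1) < 11 * N * γ * γ ^ (l + 1) := by linarith
        have h10 : β / 2 < 11 * N * γ := lt_of_mul_lt_mul_right h9 h5.le
        have h11 : N * γ ≤ N * (x * x * β) := mul_le_mul_of_nonneg_left hγβ (by positivity)
        have h12 : N * (x * x * β) = (N * x) * (x * β) := by ring
        have h13 : (N * x) * (x * β) ≤ 1 / 400 * (x * β) :=
          mul_le_mul_of_nonneg_right hNx (by positivity)
        have h14 := mul_le_mul_of_nonneg_right hx1 hβ0.le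
        clear h1 h2 h3 h8 h9 hδs hδγ hδ0 hδe hFK hk FK
        linarith
      intro l hl l' hl'
      obtain ⟨-, p, u1, u2⟩ := Finset.mem_filter.mp hl
      obtain ⟨-, p', w1, w2⟩ := Finset.mem_filter.mp hl'
      rcases lt_trichotomy l.val l'.val with h | h | h
      · exact (main _ _ h p p' u1 u2 w2).elim
      · exact Fin.ext h
      · exact (main _ _ h p' p w1 w2 u2).elim
    omega
  obtain ⟨l, hl⟩ := exists_avoid (by omega) FL hFL
  refine ⟨k.val, k.2, l.val, l.2, ?_⟩
  set r : ℝ := x ^ (k.val + 1) with hr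
  set δ : ℝ := γ ^ (l.val + 1) with hδ
  have hδ0' : 0 < δ := hδ0 _
  have hη := hδe l.val l.2
  rw [← hδ] at hη
  have hδx : δ ≤ x := (hδγ l.val).trans hγ1
  -- bad points are close to change times of moving coordinates
  have near : ∀ s, 0 ≤ s → s ≤ P → ∀ i, ∀ m : ℤ, |a i + b i * s - r - m| ≤ e₀ →
      ∃ t, -1 ≤ t ∧ t ≤ P + 1 ∧ |s - t| ≤ δ / 4 ∧ β ≤ |b i| ∧ a i + b i * t = r + m := by
    intro s hs0 hsP i m hm
    have hmov : β ≤ |b i| := by
      by_contra hlt
      push Not at hlt
      apply hk i i
      simp only [FK, if_true]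
      refine Finset.mem_filter.mpr ⟨Finset.mem_univ _, hlt, m, ?_⟩
      have h1 : |b i * s| ≤ P * β := by
        rw [abs_mul, abs_of_nonneg hs0, mul_comm P β]
        exact mul_le_mul hlt.le hsP hs0 hβ0.le
      have h2 : a i - r - m = (a i + b i * s - r - m) - b i * s := by ring
      rw [← hr, h2]
      have := abs_sub (a i + b i * s - r - m) (b i * s)
      linarith
    have hbi : 0 < |b i| := lt_of_lt_of_le hβ0 hmov
    have hbi' : b i ≠ 0 := abs_pos.mp hbi
    have hst : |s - (r + m - a i) / b i| ≤ δ / 4 := by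
      have e : s - (r + m - a i) / b i = (a i + b i * s - r - m) / b i := by
        field_simp
        ring
      rw [e, abs_div]
      calc |a i + b i * s - r - m| / |b i| ≤ e₀ / β :=
            div_le_div₀ he0.le hm hβ0 hmov
        _ ≤ δ / 4 := hη
    refine ⟨(r + m - a i) / b i, ?_, ?_, hst, hmov, by field_simp; ring⟩
    · rw [abs_le] at hst
      linarith
    · rw [abs_le] at hst
      linarith
  rintro s s' hs0 hsP hs0' hsP' ⟨i, m, hm⟩ ⟨j, m', hm'⟩
  obtain ⟨t, ht0, htP, hst, hmi, ht⟩ := near s hs0 hsP i m hm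
  obtain ⟨t', ht0', htP', hst', hmj, ht'⟩ := near s' hs0' hsP' j m' hm'
  by_cases h1 : |t - t'| ≤ δ
  · left
    have e : s - s' = (s - t) + (t - t') - (s' - t') := by ring
    rw [e]
    have g1 := abs_sub ((s - t) + (t - t')) (s' - t')
    have g2 := abs_add_le (s - t) (t - t')
    linarith
  push Not at h1
  by_cases h2 : 10 * N * δ ≤ |t - t'|
  · right
    have e : t - t' = (s - s') - (s - t) + (s' - t') := by ring
    have g1 := abs_add_le ((s - s') - (s - t)) (s' - t')
    have g2 := abs_sub (s - s') (s - t)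
    rw [← e] at g1
    have g3 := le_mul_of_one_le_left hδ0'.le hN1
    linarith
  push Not at h2
  exfalso
  have hNδ : 10 * N * δ ≤ 1 / 4 := by
    have := hδγ l.val
    have h3 : 10 * N * δ ≤ 10 * N * γ := mul_le_mul_of_nonneg_left this (by positivity)
    linarith
  by_cases hij : i = j
  · subst hij
    have e : b i * (t - t') = ((m - m' : ℤ) : ℝ) := by
      push_cast
      linarith
    have h3 : |((m - m' : ℤ) : ℝ)| < 1 := by
      rw [← e, abs_mul]
      have := mul_le_mul_of_nonneg_right (hb i) (abs_nonneg (t - t'))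
      linarith
    have h4 := int_eq_zero_of_abs_lt h3
    rw [h4, Int.cast_zero] at e
    have hbi : b i ≠ 0 := by
      intro h
      rw [h, abs_zero] at hmi
      linarith
    have h5 : t - t' = 0 := by
      rcases mul_eq_zero.mp e with h | h
      · exact absurd h hbi
      · exact h
    rw [h5, abs_zero] at h1
    linarith
  -- two different coordinates
  set κ : ℝ := b j - b i with hκ
  set A : ℝ := a j - a i with hA
  have hg : A + κ * t - ((m' - m : ℤ) : ℝ) = b j * (t - t') := by
    push_cast
    rw [hκ, hA]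
    linarith
  have hg1 : |A + κ * t - ((m' - m : ℤ) : ℝ)| < 10 * N * δ := by
    rw [hg, abs_mul]
    have := mul_le_mul_of_nonneg_right (hb j) (abs_nonneg (t - t'))
    linarith
  have hg2 : β * δ ≤ |A + κ * t - ((m' - m : ℤ) : ℝ)| := by
    rw [hg, abs_mul]
    exact mul_le_mul hmj h1.le hδ0'.le (abs_nonneg _)
  by_cases hA1 : 10 * N * δ ≤ ε * |κ|
  · -- the threshold is close to the progression
    have hκ0 : κ ≠ 0 := by
      intro h
      rw [h, abs_zero, mul_zero] at hA1
      have : 0 < 10 * N * δ := by positivity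
      linarith
    have hκp : 0 < |κ| := abs_pos.mpr hκ0
    apply hk i j
    simp only [FK, hij, if_false]
    have hd : |t - (((m' - m : ℤ) : ℝ) - A) / κ| ≤ ε := by
      have e : t - (((m' - m : ℤ) : ℝ) - A) / κ = (A + κ * t - ((m' - m : ℤ) : ℝ)) / κ := by
        field_simp
        ring
      rw [e, abs_div, div_le_iff₀ hκp]
      linarith
    have hε1' : ε ≤ 1 := by linarith
    have hd' := abs_le.mp hd
    refine Finset.mem_filter.mpr ⟨Finset.mem_univ _, hκ0, m' - m, m, by linarith, by linarith, ?_⟩
    have e : a i + b i * ((((m' - m : ℤ) : ℝ) - A) / κ) - x ^ (k.val + 1) - m =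
        -(b i * (t - (((m' - m : ℤ) : ℝ) - A) / κ)) := by
      rw [← hr]
      linarith
    rw [e, abs_neg, abs_mul]
    have := mul_le_mul_of_nonneg_right (hb i)
      (abs_nonneg (t - (((m' - m : ℤ) : ℝ) - A) / κ))
    linarith
  push Not at hA1
  apply hl i j
  by_cases hB1 : β * δ < 2 * (P + 2) * |κ|
  · exact Finset.mem_union_left _ (Finset.mem_filter.mpr ⟨Finset.mem_univ _, hA1, hB1⟩)
  push Not at hB1
  refine Finset.mem_union_right _ (Finset.mem_filter.mpr ⟨Finset.mem_univ _, m' - m, ?_, ?_⟩)
  · have e : A - κ - ((m' - m : ℤ) : ℝ) = (A + κ * t - ((m' - m : ℤ) : ℝ)) - κ * (t + 1) := by ring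
    have h3 : |κ * (t + 1)| ≤ (P + 2) * |κ| := by
      rw [abs_mul, abs_of_nonneg (by linarith : (0 : ℝ) ≤ t + 1)]
      have := mul_le_mul_of_nonneg_left (show t + 1 ≤ P + 2 by linarith) (abs_nonneg κ)
      linarith
    have h4 := abs_sub_abs_le_abs_sub (A + κ * t - ((m' - m : ℤ) : ℝ)) (κ * (t + 1))
    rw [← e] at h4
    change β * δ / 2 ≤ |A - κ - ((m' - m : ℤ) : ℝ)|
    linarith
  · have e : A - κ - ((m' - m : ℤ) : ℝ) = (A + κ * t - ((m' - m : ℤ) : ℝ)) - κ * (t + 1) := by ring
    have h3 : |κ * (t + 1)| ≤ (P + 2) * |κ| := by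
      rw [abs_mul, abs_of_nonneg (by linarith : (0 : ℝ) ≤ t + 1)]
      have := mul_le_mul_of_nonneg_left (show t + 1 ≤ P + 2 by linarith) (abs_nonneg κ)
      linarith
    have h4 := abs_sub (A + κ * t - ((m' - m : ℤ) : ℝ)) (κ * (t + 1))
    rw [← e] at h4
    have h5 : β * δ ≤ N * δ := by
      apply mul_le_mul_of_nonneg_right _ hδ0'.le
      linarith
    change |A - κ - ((m' - m : ℤ) : ℝ)| < 11 * N * δ
    linarith

end Pool.Agent.GLN
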