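import Pool.Agent.Lib.MP_98022b_gln.FieldN
import Pool.Agent.Lib.MP_98022b_gln.GeoMemN

/-!
# Summary
-/

set_option autoImplicit false

namespace Pool.Agent.GLN

open Pool.Agent.FJ

variable {P : ∀ (G : Type) [Group G], Prop}

/-- Groups with a homomorphism with solvable kernel to the automorphism group of a finitely
generated module over a commutative ring. -/
theorem mem_of_hom_T (hT : GeoTR) (hP : IsFJClassT P)
    (hsol : ∀ (G : Type) [Group G], Group.IsSolvable G → P G)
    (hQ : ∀ n : ℕ, P (GL (Fin n) ℚ)) {R M G : Type} [CommRing R] [AddCommGroup M] [Module R M]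
    [Module.Finite R M] [Group G] (f : G →* (M ≃ₗ[R] M)) (hf : Group.IsSolvable f.ker) : P G :=
  mem_of_hom hP.toIsFJClass (geoMem_of hT hP) hsol hQ f hf

end Pool.Agent.GLN
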