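import Mathlib

/-!
# The kernel of the reduction modulo a nilpotent ideal

As in `MP_98022b_gl/NilKer.lean`, for `GL_n`. Let `J` be the kernel of `f`, `K j` the group of the matrices in the kernel which are
congruent to `1` modulo `J ^ j`. Then `⁅K j, K j⁆ ≤ K (2 * j)`, so the derived series reaches the
trivial group.
-/

set_option autoImplicit false

namespace Pool.Agent.GLN

/-- The matrices congruent to `1` modulo the ideal. -/
private def nkK {m : ℕ} {R : Type} [CommRing R] (I : Ideal R) : Subgroup (GL (Fin m) R) :=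
  (Matrix.GeneralLinearGroup.map (n := Fin m) (Ideal.Quotient.mk I)).ker

private theorem mem_nkK {m : ℕ} {R : Type} [CommRing R] {I : Ideal R} {a : GL (Fin m) R} :
    a ∈ nkK I ↔ ∀ i j, a.1 i j - (1 : Matrix (Fin m) (Fin m) R) i j ∈ I := by
  unfold nkK
  rw [MonoidHom.mem_ker]
  constructor
  · intro h i j
    rw [← Ideal.Quotient.eq]
    have h1 := congrArg (fun x : GL (Fin m) (R ⧸ I) => x.1 i j) h
    beta_reduce at h1
    rw [Matrix.GeneralLinearGroup.map_apply] at h1
    rw [h1]
    show (1 : Matrix (Fin m) (Fin m) (R ⧸ I)) i j = _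
    rw [Matrix.one_apply, Matrix.one_apply]
    split_ifs
    · rw [map_one]
    · rw [map_zero]
  · intro h
    refine Units.ext ?_
    ext i j
    rw [Matrix.GeneralLinearGroup.map_apply]
    have h1 := (Ideal.Quotient.eq (I := I)).2 (h i j)
    rw [h1]
    show _ = (1 : Matrix (Fin m) (Fin m) (R ⧸ I)) i j
    rw [Matrix.one_apply, Matrix.one_apply]
    split_ifs
    · rw [map_one]
    · rw [map_zero]

private theorem nkK_comm {m : ℕ} {R : Type} [CommRing R] (J : Ideal R) (j : ℕ) :
    ⁅nkK (m := m) (J ^ j), nkK (m := m) (J ^ j)⁆ ≤ nkK (J ^ (j + j)) := by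
  rw [Subgroup.commutator_le]
  intro a ha b hb
  rw [mem_nkK] at ha hb
  have hab : (Matrix.GeneralLinearGroup.map (n := Fin m) (Ideal.Quotient.mk (J ^ (j + j)))) (a * b) =
      (Matrix.GeneralLinearGroup.map (n := Fin m) (Ideal.Quotient.mk (J ^ (j + j)))) (b * a) := by
    refine Units.ext ?_
    ext i k
    rw [Matrix.GeneralLinearGroup.map_apply, Matrix.GeneralLinearGroup.map_apply,
      Ideal.Quotient.eq]
    have e : (a * b).1 i k - (b * a).1 i k =
        ((a.1 - 1) * (b.1 - 1)) i k - ((b.1 - 1) * (a.1 - 1)) i k := by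
      have e0 : a.1 * b.1 - b.1 * a.1 = (a.1 - 1) * (b.1 - 1) - (b.1 - 1) * (a.1 - 1) := by
        simp only [sub_mul, mul_sub, one_mul, mul_one]
        abel
      exact congrArg (fun M : Matrix (Fin m) (Fin m) R => M i k) e0
    rw [e]
    have hmul : ∀ c d : Matrix (Fin m) (Fin m) R, (∀ i j', (c - 1) i j' ∈ J ^ j) →
        (∀ i j', (d - 1) i j' ∈ J ^ j) → ((c - 1) * (d - 1)) i k ∈ J ^ (j + j) := by
      intro c d hc hd
      rw [Matrix.mul_apply, pow_add]
      exact Ideal.sum_mem _ fun l _ => Ideal.mul_mem_mul (hc i l) (hd l k)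
    exact Ideal.sub_mem _ (hmul _ _ ha hb) (hmul _ _ hb ha)
  show _ ∈ (Matrix.GeneralLinearGroup.map (n := Fin m) (Ideal.Quotient.mk (J ^ (j + j)))).ker
  rw [MonoidHom.mem_ker, commutatorElement_def, map_mul, map_mul, map_inv, map_inv, hab,
    map_mul, mul_inv_cancel_right, mul_inv_cancel]

theorem solvable_ker {m : ℕ} {R S : Type} [CommRing R] [CommRing S] (f : R →+* S) (k : ℕ)
    (hk : RingHom.ker f ^ k = ⊥) :
    Group.IsSolvable (Matrix.GeneralLinearGroup.map (n := Fin m) f).ker := by
  set J : Ideal R := RingHom.ker f with hJ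
  set N : Subgroup (GL (Fin m) R) := (Matrix.GeneralLinearGroup.map (n := Fin m) f).ker with hN
  have key : ∀ n : ℕ, (derivedSeries N n).map N.subtype ≤ nkK (J ^ (2 ^ n)) := by
    intro n
    induction n with
    | zero =>
      rintro _ ⟨⟨a, ha⟩, -, rfl⟩
      rw [mem_nkK]
      intro i j
      rw [pow_zero, pow_one, hJ, RingHom.mem_ker, map_sub, sub_eq_zero]
      have h1 := congrArg (fun x : GL (Fin m) S => x.1 i j) (MonoidHom.mem_ker.1 ha)
      beta_reduce at h1
      rw [Matrix.GeneralLinearGroup.map_apply] at h1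
      refine h1.trans ?_
      show (1 : Matrix (Fin m) (Fin m) S) i j = _
      rw [Matrix.one_apply, Matrix.one_apply]
      split_ifs
      · rw [map_one]
      · rw [map_zero]
    | succ n ih =>
      rw [derivedSeries_succ, Subgroup.map_commutator]
      refine (Subgroup.commutator_mono ih ih).trans ?_
      refine (nkK_comm J (2 ^ n)).trans ?_
      rw [pow_succ, mul_two]
  refine ⟨⟨k, ?_⟩⟩
  rw [eq_bot_iff]
  intro a ha
  have h1 : (a : GL (Fin m) R) ∈ nkK (J ^ (2 ^ k)) := key k ⟨a, ha, rfl⟩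
  rw [mem_nkK] at h1
  rw [Subgroup.mem_bot]
  apply Subtype.ext
  refine Units.ext ?_
  ext i j
  have h2 := Ideal.pow_le_pow_right (I := J) (Nat.lt_two_pow_self (n := k)).le (h1 i j)
  rw [hk, Ideal.mem_bot, sub_eq_zero] at h2
  exact h2

end Pool.Agent.GLN
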