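import Pool.Agent.Lib.MP_98022b_gln.NormDefs

/-!
# Common orthogonal bases

Any two norms have a common orthogonal basis.
-/

set_option autoImplicit false

open scoped WithZero

namespace Pool.Agent.GLN

variable {E : Type} [Field E] {v : Valuation E ℤᵐ⁰} {n : ℕ}

/-! ### The standard norm -/

theorem w0_le {x : Fin n → E} {i : Fin n} (hi : x i ≠ 0) : w0 v x ≤ od v (x i) :=
  csInf_le (Set.toFinite _).bddBelow ⟨i, hi, rfl⟩

theorem le_w0 {x : Fin n → E} {r : ℝ} (hx : x ≠ 0) (h : ∀ i, x i ≠ 0 → r ≤ od v (x i)) :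
    r ≤ w0 v x := by
  refine le_csInf ?_ ?_
  · obtain ⟨i, hi⟩ := Function.ne_iff.1 hx
    exact ⟨_, i, hi, rfl⟩
  · rintro _ ⟨i, hi, rfl⟩
    exact h i hi

theorem exists_w0 {x : Fin n → E} (hx : x ≠ 0) : ∃ i, x i ≠ 0 ∧ w0 v x = od v (x i) := by
  by_contra hcon
  push Not at hcon
  obtain ⟨i, hi⟩ := Function.ne_iff.1 hx
  have hne : ((fun i => od v (x i)) '' {i | x i ≠ 0}).Nonempty := ⟨_, i, hi, rfl⟩
  obtain ⟨j, hj, hj'⟩ := hne.csInf_mem (Set.toFinite _)
  exact hcon j hj hj'.symm

theorem w0_zero : w0 v (0 : Fin n → E) = 0 := by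
  unfold w0
  simp

theorem w0_add {x y : Fin n → E} (hxy : x + y ≠ 0) :
    min (w0 v x) (w0 v y) ≤ w0 v (x + y) := by
  refine le_w0 hxy fun i hi => ?_
  rw [Pi.add_apply] at hi ⊢
  by_cases h1 : x i = 0
  · rw [h1, zero_add] at hi ⊢
    exact (min_le_right _ _).trans (w0_le hi)
  by_cases h2 : y i = 0
  · rw [h2, add_zero] at hi ⊢
    exact (min_le_left _ _).trans (w0_le hi)
  · exact (min_le_min (w0_le h1) (w0_le h2)).trans (od_add h1 h2 hi)

theorem w0_smul {a : E} {x : Fin n → E} (ha : a ≠ 0) (hx : x ≠ 0) :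
    w0 v (a • x) = od v a + w0 v x := by
  have hax : a • x ≠ 0 := smul_ne_zero ha hx
  refine le_antisymm ?_ ?_
  · obtain ⟨i, hi, hi'⟩ := exists_w0 (v := v) hx
    rw [hi', ← od_mul ha hi]
    exact w0_le (x := a • x) (mul_ne_zero ha hi)
  · refine le_w0 hax fun i hi => ?_
    have hi' : x i ≠ 0 := fun h => hi (by rw [Pi.smul_apply, h, smul_zero])
    rw [Pi.smul_apply, smul_eq_mul, od_mul ha hi']
    have := w0_le (v := v) hi'
    linarith

/-- The standard norm. -/
noncomputable def nm0 (v : Valuation E ℤᵐ⁰) (n : ℕ) : Nm v n where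
  toFun := w0 v
  zero' := w0_zero
  add' := fun _ _ _ _ => w0_add
  smul' := fun _ _ => w0_smul
  bdd' := ⟨0, fun x => by simp⟩

@[simp] theorem nm0_apply (x : Fin n → E) : nm0 v n x = w0 v x := rfl

theorem nm0_basis (i : Fin n) : nm0 v n (Pi.basisFun E (Fin n) i) = 0 := by
  classical
  have h1 : (Pi.basisFun E (Fin n) i) i = (1 : E) := by simp
  refine le_antisymm ?_ ?_
  · have := w0_le (v := v) (x := Pi.basisFun E (Fin n) i) (i := i) (by rw [h1]; exact one_ne_zero)
    rwa [h1, od_one] at this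
  · refine le_w0 ((Pi.basisFun E (Fin n)).ne_zero i) fun j hj => ?_
    rw [Pi.basisFun_apply] at hj ⊢
    by_cases hij : j = i
    · subst hij
      simp
    · exact absurd (Pi.single_eq_of_ne hij _) hj

theorem nm0_orth : (nm0 v n).Orth (Pi.basisFun E (Fin n)) := by
  intro x i hi
  rw [nm0_basis, add_zero, Pi.basisFun_repr]
  rw [Pi.basisFun_repr] at hi
  exact w0_le hi

/-! ### Distances -/

theorem Nm.bdd (w w' : Nm v n) : ∃ C : ℝ, ∀ x, |w x - w' x| ≤ C := by
  obtain ⟨C, hC⟩ := w.bdd'
  obtain ⟨C', hC'⟩ := w'.bdd'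
  refine ⟨C + C', fun x => ?_⟩
  have h1 := hC x
  have h2 := hC' x
  rw [abs_sub_comm] at h2
  calc |w x - w' x| = |(w x - w0 v x) + (w0 v x - w' x)| := by ring_nf
    _ ≤ _ := (abs_add_le _ _).trans (add_le_add h1 h2)

/-! ### Values -/

/-- Vectors with different values mod `1` are linearly independent. -/
theorem Nm.linearIndependent (w : Nm v n) {ι : Type} (x : ι → Fin n → E) (hx : ∀ i, x i ≠ 0)
    (h : ∀ i j, i ≠ j → ∀ k : ℤ, w (x i) - w (x j) ≠ k) : LinearIndependent E x := by
  classical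
  rw [linearIndependent_iff']
  intro s g hg
  by_contra hcon
  push Not at hcon
  obtain ⟨i₀, hi₀, hg₀⟩ := hcon
  obtain ⟨i, hi, hmin⟩ := Finset.exists_min_image (s.filter fun i => g i ≠ 0)
    (fun i => od v (g i) + w (x i)) ⟨i₀, Finset.mem_filter.2 ⟨hi₀, hg₀⟩⟩
  obtain ⟨his, hgi⟩ := Finset.mem_filter.1 hi
  have hstrict : ∀ j ∈ s, j ≠ i → g j ≠ 0 → od v (g i) + w (x i) < od v (g j) + w (x j) := by
    intro j hj hji hgj
    refine lt_of_le_of_ne (hmin j (Finset.mem_filter.2 ⟨hj, hgj⟩)) fun heq => ?_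
    obtain ⟨k, hk⟩ := od_int (v := v) (g i)
    obtain ⟨l, hl⟩ := od_int (v := v) (g j)
    refine h j i hji (k - l) ?_
    push_cast
    rw [← hk, ← hl]
    linarith
  have h1 : g i • x i = -∑ j ∈ s.erase i, g j • x j := by
    rw [← Finset.add_sum_erase s _ his] at hg
    exact eq_neg_of_add_eq_zero_left hg
  have hne : g i • x i ≠ 0 := smul_ne_zero hgi (hx i)
  have hne' : ∑ j ∈ s.erase i, g j • x j ≠ 0 := by
    intro h0
    rw [h0, neg_zero] at h1
    exact hne h1
  have hval : w (g i • x i) = w (∑ j ∈ s.erase i, g j • x j) := by rw [h1, Nm.neg]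
  -- the minimum over the other terms
  have hex : ∃ j ∈ s.erase i, g j ≠ 0 := by
    by_contra hcon2
    push Not at hcon2
    exact hne' (Finset.sum_eq_zero fun j hj => by rw [hcon2 j hj, zero_smul])
  obtain ⟨j₀, hj₀, hgj₀⟩ := hex
  obtain ⟨j, hj, hminj⟩ := Finset.exists_min_image ((s.erase i).filter fun i => g i ≠ 0)
    (fun i => od v (g i) + w (x i)) ⟨j₀, Finset.mem_filter.2 ⟨hj₀, hgj₀⟩⟩
  obtain ⟨hjs, hgj⟩ := Finset.mem_filter.1 hj
  have h2 : od v (g j) + w (x j) ≤ w (∑ j ∈ s.erase i, g j • x j) := by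
    refine w.sum_mem _ _ (fun l hl hl0 => ?_) hne'
    have hgl : g l ≠ 0 := fun h => hl0 (by rw [h, zero_smul])
    rw [w.smul hgl (hx l)]
    exact hminj l (Finset.mem_filter.2 ⟨hl, hgl⟩)
  rw [← hval, w.smul hgi (hx i)] at h2
  exact absurd h2 (not_le.2 (hstrict j (Finset.mem_of_mem_erase hjs)
    (Finset.ne_of_mem_erase hjs) hgj))

/-- There are at most `n` values mod `1`. -/
theorem Nm.exists_values (w : Nm v n) : ∃ A : Finset ℝ, A.card ≤ n ∧
    ∀ x, x ≠ 0 → ∃ a ∈ A, ∃ k : ℤ, w x = a + k := by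
  classical
  -- the set of the fractional parts
  set T : Set ℝ := {r | ∃ x, x ≠ 0 ∧ Int.fract (w x) = r} with hT
  have hbound : ∀ A : Finset ℝ, (∀ a ∈ A, a ∈ T) → A.card ≤ n := by
    intro A hA
    have hA' : ∀ a : A, ∃ x, x ≠ 0 ∧ Int.fract (w x) = a := fun a => hA a a.2
    choose x hx0 hx1 using hA'
    have hli : LinearIndependent E x := by
      refine w.linearIndependent x hx0 fun a b hab k hk => hab ?_
      have h1 : Int.fract (w (x a)) = Int.fract (w (x b)) := by
        rw [show w (x a) = w (x b) + k by linarith, Int.fract_add_intCast]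
      rw [hx1, hx1] at h1
      exact Subtype.ext h1
    have h2 := hli.fintype_card_le_finrank
    rwa [Fintype.card_coe, Module.finrank_fin_fun] at h2
  have hfin : T.Finite := by
    by_contra hinf
    obtain ⟨A, hA, hcard⟩ := Set.Infinite.exists_subset_card_eq hinf (n + 1)
    have := hbound A fun a ha => hA ha
    omega
  refine ⟨hfin.toFinset, hbound _ fun a ha => hfin.mem_toFinset.1 ha, fun x hx => ?_⟩
  refine ⟨Int.fract (w x), hfin.mem_toFinset.2 ⟨x, hx, rfl⟩, ⌊w x⌋, ?_⟩
  rw [add_comm]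
  exact (Int.floor_add_fract _).symm

/-- The difference of two norms attains its minimum on each nonempty set of nonzero vectors. -/
theorem Nm.exists_min (w w' : Nm v n) (U : Set (Fin n → E)) (hU : ∃ x ∈ U, x ≠ 0) :
    ∃ e ∈ U, e ≠ 0 ∧ ∀ x ∈ U, x ≠ 0 → w' e - w e ≤ w' x - w x := by
  classical
  obtain ⟨C, hC⟩ := w'.bdd w
  obtain ⟨A, -, hA⟩ := w.exists_values
  obtain ⟨A', -, hA'⟩ := w'.exists_values
  set T : Set ℝ := {r | ∃ x ∈ U, x ≠ 0 ∧ w' x - w x = r} with hT
  have hfin : T.Finite := by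
    refine Set.Finite.subset ((A ×ˢ A').finite_toSet.biUnion
      (t := fun p => {r : ℝ | ∃ k : ℤ, r = p.2 - p.1 + k ∧ |r| ≤ C}) fun p _ => ?_) ?_
    · have h1 : {r : ℝ | ∃ k : ℤ, r = p.2 - p.1 + k ∧ |r| ≤ C} ⊆
          (fun k : ℤ => p.2 - p.1 + (k : ℝ)) '' (Set.Icc ⌊-C - (p.2 - p.1)⌋ ⌈C - (p.2 - p.1)⌉) := by
        rintro r ⟨k, hk, hr⟩
        refine ⟨k, ⟨?_, ?_⟩, hk.symm⟩
        · rw [Int.floor_le_iff]
          have := (abs_le.1 hr).1
          linarith
        · rw [Int.le_ceil_iff]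
          have := (abs_le.1 hr).2
          linarith
      exact ((Set.finite_Icc _ _).image _).subset h1
    · rintro r ⟨x, -, hx, rfl⟩
      obtain ⟨a, ha, k, hk⟩ := hA x hx
      obtain ⟨a', ha', k', hk'⟩ := hA' x hx
      rw [Set.mem_iUnion₂]
      refine ⟨(a, a'), Finset.mem_coe.2 (Finset.mem_product.2 ⟨ha, ha'⟩), k' - k, ?_, hC x⟩
      rw [hk, hk']
      push_cast
      ring
  obtain ⟨x₀, hx₀, hx₀'⟩ := hU
  have hne : T.Nonempty := ⟨_, x₀, hx₀, hx₀', rfl⟩
  obtain ⟨e, he, he0, hmin⟩ := hne.csInf_mem hfin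
  refine ⟨e, he, he0, fun x hx hx0 => ?_⟩
  rw [hmin]
  exact csInf_le hfin.bddBelow ⟨x, hx, hx0, rfl⟩

/-! ### Exchange -/

/-- The basis `b` with `b i` replaced by `e`. -/
noncomputable def exch (b : Module.Basis (Fin n) E (Fin n → E)) (e : Fin n → E) (i : Fin n)
    (he : b.repr e i ≠ 0) : Module.Basis (Fin n) E (Fin n → E) :=
  b.map (LinearEquiv.ofLinearMap
    (LinearMap.id + (b.coord i).smulRight (e - b i))
    (LinearMap.id - ((b.repr e i)⁻¹ • b.coord i).smulRight (e - b i))
    (by
      refine LinearMap.ext fun x => ?_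
      simp only [LinearMap.comp_apply, LinearMap.sub_apply, LinearMap.add_apply,
        LinearMap.id_apply, LinearMap.smulRight_apply, LinearMap.smul_apply,
        Module.Basis.coord_apply, map_sub, map_smul,
        Module.Basis.repr_self, Finsupp.single_eq_same, smul_eq_mul]
      match_scalars <;> field_simp <;> ring)
    (by
      refine LinearMap.ext fun x => ?_
      simp only [LinearMap.comp_apply, LinearMap.sub_apply, LinearMap.add_apply,
        LinearMap.id_apply, LinearMap.smulRight_apply, LinearMap.smul_apply,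
        Module.Basis.coord_apply, map_add, map_sub, map_smul,
        Module.Basis.repr_self, Finsupp.single_eq_same, smul_eq_mul]
      match_scalars <;> field_simp <;> ring))

section exch

variable (b : Module.Basis (Fin n) E (Fin n → E)) (e : Fin n → E) (i : Fin n)
  (he : b.repr e i ≠ 0)

theorem exch_self : exch b e i he i = e := by
  unfold exch
  simp

theorem exch_ne {j : Fin n} (hj : j ≠ i) : exch b e i he j = b j := by
  unfold exch
  simp [hj]

theorem exch_repr_self (x : Fin n → E) : (exch b e i he).repr x i = b.repr x i / b.repr e i := by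
  unfold exch
  simp only [Module.Basis.map_repr, LinearEquiv.trans_apply, LinearEquiv.symm_ofLinearMap,
    LinearEquiv.coe_ofLinearMap,
    LinearMap.sub_apply, LinearMap.id_apply, LinearMap.smulRight_apply, LinearMap.smul_apply,
    Module.Basis.coord_apply, map_sub, map_smul, Finsupp.sub_apply, Finsupp.smul_apply,
    Module.Basis.repr_self, Finsupp.single_eq_same, smul_eq_mul]
  field_simp
  ring

theorem exch_repr_ne (x : Fin n → E) {j : Fin n} (hj : j ≠ i) :
    (exch b e i he).repr x j = b.repr x j - b.repr x i / b.repr e i * b.repr e j := by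
  unfold exch
  simp only [Module.Basis.map_repr, LinearEquiv.trans_apply, LinearEquiv.symm_ofLinearMap,
    LinearEquiv.coe_ofLinearMap,
    LinearMap.sub_apply, LinearMap.id_apply, LinearMap.smulRight_apply, LinearMap.smul_apply,
    Module.Basis.coord_apply, map_sub, map_smul, Finsupp.sub_apply, Finsupp.smul_apply,
    Module.Basis.repr_self, smul_eq_mul]
  rw [Finsupp.single_eq_of_ne hj]
  field_simp
  ring

end exch

/-- The exchange lemma for the coordinate which attains the value of `e`. -/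
theorem Nm.Orth.exch {w : Nm v n} {b : Module.Basis (Fin n) E (Fin n → E)} (h : w.Orth b)
    {e : Fin n → E} (he0 : e ≠ 0) {i : Fin n} (he : b.repr e i ≠ 0)
    (hi : w e = od v (b.repr e i) + w (b i)) : w.Orth (exch b e i he) := by
  have key : ∀ x : Fin n → E, b.repr x i ≠ 0 → w x ≤ od v (b.repr x i / b.repr e i) + w e := by
    intro x hx
    rw [od_div hx he, hi]
    have := h x i hx
    linarith
  intro x j hj
  by_cases hji : j = i
  · subst hji
    rw [exch_repr_self] at hj ⊢
    rw [exch_self]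
    exact key x fun h0 => hj (by rw [h0, zero_div])
  · rw [exch_repr_ne _ _ _ _ _ hji] at hj ⊢
    rw [exch_ne _ _ _ _ hji]
    have hz : b.repr (x - (b.repr x i / b.repr e i) • e) j =
        b.repr x j - b.repr x i / b.repr e i * b.repr e j := by
      rw [map_sub, map_smul, Finsupp.sub_apply, Finsupp.smul_apply, smul_eq_mul]
    have hz0 : x - (b.repr x i / b.repr e i) • e ≠ 0 := by
      intro h0
      rw [h0, map_zero, Finsupp.zero_apply] at hz
      exact hj hz.symm
    have h1 : w x ≤ w (x - (b.repr x i / b.repr e i) • e) := by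
      have h2 : x - (b.repr x i / b.repr e i) • e ∈ w.lat (w x) := by
        refine Submodule.sub_mem _ (fun _ => le_rfl) fun h3 => ?_
        have h4 : b.repr x i ≠ 0 := fun h0 => h3 (by rw [h0, zero_div, zero_smul])
        rw [w.smul (div_ne_zero h4 he) he0]
        exact key x h4
      exact h2 hz0
    rw [← hz]
    rw [← hz] at hj
    exact h1.trans (h _ j hj)

/-- A norm and a norm with an orthogonal basis have a common orthogonal basis. -/
theorem Nm.exists_orth_aux (w w' : Nm v n) (hw' : ∃ b, w'.Orth b) : ∀ k ≤ n,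
    ∃ (J : Finset (Fin n)) (b : Module.Basis (Fin n) E (Fin n → E)), J.card = k ∧ w'.Orth b ∧
      ∀ j ∈ J, ∀ x, b.repr x j ≠ 0 → w x ≤ od v (b.repr x j) + w (b j) := by
  classical
  intro k
  induction k with
  | zero =>
    intro _
    obtain ⟨b, hb⟩ := hw'
    exact ⟨∅, b, Finset.card_empty, hb, by simp⟩
  | succ k ih =>
    intro hk
    obtain ⟨J, b, hJ, hb, hbJ⟩ := ih (by omega)
    obtain ⟨i₁, hi₁⟩ : ∃ i, i ∉ J := by
      by_contra hcon
      push Not at hcon
      rw [Finset.eq_univ_iff_forall.2 hcon, Finset.card_univ, Fintype.card_fin] at hJ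
      omega
    obtain ⟨e, heU, he0, hmin⟩ := w.exists_min w' {x | ∀ j ∈ J, b.repr x j = 0}
      ⟨b i₁, fun j hj => by
        rw [Module.Basis.repr_self, Finsupp.single_eq_of_ne]
        rintro rfl
        exact hi₁ hj, b.ne_zero i₁⟩
    obtain ⟨i, hei, hi⟩ := hb.exists_eq he0
    have hiJ : i ∉ J := fun h => hei (heU i h)
    have hb' := hb.exch he0 hei hi
    refine ⟨insert i J, exch b e i hei, by rw [Finset.card_insert_of_notMem hiJ, hJ], hb', ?_⟩
    intro j hj x hx
    rcases Finset.mem_insert.1 hj with rfl | hjJ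
    · rw [exch_self]
      have hxi : b.repr x j ≠ 0 := by
        intro h0
        rw [exch_repr_self, h0, zero_div] at hx
        exact hx rfl
      set z : Fin n → E := x - ∑ l ∈ J, b.repr x l • b l with hz
      have hzr : ∀ m, b.repr z m = if m ∈ J then 0 else b.repr x m := by
        intro m
        rw [hz, map_sub, map_sum, Finsupp.sub_apply, Finsupp.finsetSum_apply]
        have : ∀ l ∈ J, (b.repr (b.repr x l • b l)) m = if l = m then b.repr x m else 0 := by
          intro l _
          rw [map_smul, Finsupp.smul_apply, Module.Basis.repr_self, smul_eq_mul]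
          split_ifs with h
          · subst h
            rw [Finsupp.single_eq_same, mul_one]
          · rw [Finsupp.single_eq_of_ne (Ne.symm h), mul_zero]
        rw [Finset.sum_congr rfl this, Finset.sum_ite_eq']
        split_ifs <;> simp
      have hzU : ∀ l ∈ J, b.repr z l = 0 := fun l hl => by rw [hzr, if_pos hl]
      have hzi : b.repr z j = b.repr x j := by rw [hzr, if_neg hiJ]
      have hz0 : z ≠ 0 := by
        intro h0
        rw [h0, map_zero, Finsupp.zero_apply] at hzi
        exact hxi hzi.symm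
      have h1 : w x ≤ w z := by
        have h2 : z ∈ w.lat (w x) := by
          refine Submodule.sub_mem _ (fun _ => le_rfl) (Submodule.sum_mem _ fun l hl h3 => ?_)
          have h4 : b.repr x l ≠ 0 := fun h0 => h3 (by rw [h0, zero_smul])
          rw [w.smul h4 (b.ne_zero l)]
          exact hbJ l hl x h4
        exact h2 hz0
      have h3 := hmin z hzU hz0
      have h4 := hb' z j (by rw [exch_repr_self, hzi]; exact div_ne_zero hxi hei)
      rw [exch_repr_self, exch_self, hzi] at h4
      rw [exch_repr_self]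
      linarith
    · have hji : j ≠ i := fun h => hiJ (h ▸ hjJ)
      rw [exch_repr_ne _ _ _ _ _ hji, heU j hjJ, mul_zero, sub_zero] at hx ⊢
      rw [exch_ne _ _ _ _ hji]
      exact hbJ j hjJ x hx

theorem Nm.exists_orth_of_orth (w w' : Nm v n) (hw' : ∃ b, w'.Orth b) :
    ∃ b, w.Orth b ∧ w'.Orth b := by
  classical
  obtain ⟨J, b, hJ, hb, hbJ⟩ := w.exists_orth_aux w' hw' n le_rfl
  refine ⟨b, fun x i hi => hbJ i ?_ x hi, hb⟩
  have : J = Finset.univ := by
    rw [← Finset.card_eq_iff_eq_univ, hJ, Fintype.card_fin]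
  rw [this]
  exact Finset.mem_univ i

/-- Each norm has an orthogonal basis. -/
theorem Nm.exists_orth (w : Nm v n) : ∃ b, w.Orth b := by
  obtain ⟨b, hb, -⟩ := w.exists_orth_of_orth (nm0 v n) ⟨_, nm0_orth⟩
  exact ⟨b, hb⟩

/-- Two norms have a common orthogonal basis. -/
theorem Nm.exists_orth_pair (w w' : Nm v n) : ∃ b, w.Orth b ∧ w'.Orth b :=
  w.exists_orth_of_orth w' w'.exists_orth

end Pool.Agent.GLN
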