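import Mathlib

/-!
# Norms on `E ^ n` for a discrete valuation

The values of the norms are real; the value at `0` is a junk value `0` (it should be `∞`).
-/

set_option autoImplicit false

open scoped WithZero

namespace Pool.Agent.GLN

section

variable {E : Type} [Field E] (v : Valuation E ℤᵐ⁰)

/-- The order (with the junk value `0` at `0`). -/
noncomputable def od (a : E) : ℝ := -((WithZero.log (v a) : ℤ) : ℝ)

/-- `min (o(x_i) + α_i)` over the coordinates `x_i` of `x` in the basis `b`. -/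
noncomputable def dg {n : ℕ} (b : Module.Basis (Fin n) E (Fin n → E)) (α : Fin n → ℝ)
    (x : Fin n → E) : ℝ :=
  sInf ((fun i => od v (b.repr x i) + α i) '' {i | b.repr x i ≠ 0})

/-- The standard norm. -/
noncomputable def w0 {n : ℕ} (x : Fin n → E) : ℝ :=
  sInf ((fun i => od v (x i)) '' {i | x i ≠ 0})

/-- Norms on `E ^ n`. -/
structure Nm (n : ℕ) where
  /-- The function. -/
  toFun : (Fin n → E) → ℝ
  zero' : toFun 0 = 0
  add' : ∀ x y, x ≠ 0 → y ≠ 0 → x + y ≠ 0 → min (toFun x) (toFun y) ≤ toFun (x + y)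
  smul' : ∀ (a : E) x, a ≠ 0 → x ≠ 0 → toFun (a • x) = od v a + toFun x
  bdd' : ∃ C : ℝ, ∀ x, |toFun x - w0 v x| ≤ C

instance (n : ℕ) : FunLike (Nm v n) (Fin n → E) ℝ where
  coe := Nm.toFun
  coe_injective w w' h := by
    cases w; cases w'; congr

end

variable {E : Type} [Field E] {v : Valuation E ℤᵐ⁰} {n : ℕ}

/-! ### The order -/

theorem od_mul {a b : E} (ha : a ≠ 0) (hb : b ≠ 0) : od v (a * b) = od v a + od v b := by
  unfold od
  rw [map_mul, WithZero.log_mul ((Valuation.ne_zero_iff v).2 ha) ((Valuation.ne_zero_iff v).2 hb)]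
  push_cast
  ring

@[simp] theorem od_one : od v (1 : E) = 0 := by simp [od]

@[simp] theorem od_neg (a : E) : od v (-a) = od v a := by simp [od]

theorem od_inv {a : E} (ha : a ≠ 0) : od v a⁻¹ = -od v a := by
  have h := od_mul (v := v) ha (inv_ne_zero ha)
  rw [mul_inv_cancel₀ ha, od_one] at h
  linarith

theorem od_div {a b : E} (ha : a ≠ 0) (hb : b ≠ 0) : od v (a / b) = od v a - od v b := by
  rw [div_eq_mul_inv, od_mul ha (inv_ne_zero hb), od_inv hb]
  ring

theorem od_add {a b : E} (ha : a ≠ 0) (hb : b ≠ 0) (hab : a + b ≠ 0) :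
    min (od v a) (od v b) ≤ od v (a + b) := by
  have ha' := (Valuation.ne_zero_iff v).2 ha
  have hb' := (Valuation.ne_zero_iff v).2 hb
  have hab' := (Valuation.ne_zero_iff v).2 hab
  unfold od
  rcases le_total (v a) (v b) with h | h
  · have h1 : v (a + b) ≤ v b := (v.map_add_le h le_rfl)
    have h2 := (WithZero.log_le_log hab' hb').2 h1
    refine (min_le_right _ _).trans (neg_le_neg ?_)
    exact_mod_cast h2
  · have h1 : v (a + b) ≤ v a := (v.map_add_le le_rfl h)
    have h2 := (WithZero.log_le_log hab' ha').2 h1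
    refine (min_le_left _ _).trans (neg_le_neg ?_)
    exact_mod_cast h2

theorem od_nonneg_iff {a : E} (ha : a ≠ 0) : 0 ≤ od v a ↔ v a ≤ 1 := by
  have ha' := (Valuation.ne_zero_iff v).2 ha
  unfold od
  rw [neg_nonneg, ← Int.cast_zero, Int.cast_le]
  rw [WithZero.log_le_iff_le_exp ha', WithZero.exp_zero]

theorem od_int (a : E) : ∃ k : ℤ, od v a = k := ⟨-WithZero.log (v a), by simp [od]⟩

/-- Powers of a uniformizer. -/
theorem od_zpow {π : E} (hπ : v π = WithZero.exp (-1)) (k : ℤ) : od v (π ^ k) = k := by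
  unfold od
  rw [map_zpow₀, hπ, WithZero.log_zpow, WithZero.log_exp]
  simp

/-! ### Norms -/

namespace Nm

theorem ext' {w w' : Nm v n} (h : ∀ x, x ≠ 0 → w x = w' x) : w = w' := by
  refine DFunLike.ext _ _ fun x => ?_
  by_cases hx : x = 0
  · subst hx
    exact w.zero'.trans w'.zero'.symm
  · exact h x hx

@[simp] theorem zero (w : Nm v n) : w 0 = 0 := w.zero'

theorem add (w : Nm v n) {x y : Fin n → E} (hx : x ≠ 0) (hy : y ≠ 0) (hxy : x + y ≠ 0) :
    min (w x) (w y) ≤ w (x + y) := w.add' x y hx hy hxy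

theorem smul (w : Nm v n) {a : E} {x : Fin n → E} (ha : a ≠ 0) (hx : x ≠ 0) :
    w (a • x) = od v a + w x := w.smul' a x ha hx

@[simp] theorem neg (w : Nm v n) (x : Fin n → E) : w (-x) = w x := by
  by_cases hx : x = 0
  · simp [hx]
  · have h := w.smul (a := -1) (neg_ne_zero.2 one_ne_zero) hx
    rw [neg_one_smul, od_neg, od_one, zero_add] at h
    exact h

/-- The lattices of a norm. -/
def lat (w : Nm v n) (r : ℝ) : Submodule v.integer (Fin n → E) where
  carrier := {x | x ≠ 0 → r ≤ w x}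
  zero_mem' := fun h => absurd rfl h
  add_mem' := by
    intro x y hx hy hxy
    by_cases hx0 : x = 0
    · subst hx0
      rw [zero_add] at hxy ⊢
      exact hy hxy
    by_cases hy0 : y = 0
    · subst hy0
      rw [add_zero] at hxy ⊢
      exact hx hxy
    · exact (le_min (hx hx0) (hy hy0)).trans (w.add hx0 hy0 hxy)
  smul_mem' := by
    rintro ⟨c, hc⟩ x hx hcx
    have hcx' : c • x ≠ 0 := hcx
    have hc0 : c ≠ 0 := fun h => hcx' (by rw [h, zero_smul])
    have hx0 : x ≠ 0 := fun h => hcx' (by rw [h, smul_zero])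
    show r ≤ w (c • x)
    rw [w.smul hc0 hx0]
    have h1 : 0 ≤ od v c := (od_nonneg_iff hc0).2 hc
    have h2 := hx hx0
    linarith

theorem mem_lat {w : Nm v n} {r : ℝ} {x : Fin n → E} : x ∈ w.lat r ↔ (x ≠ 0 → r ≤ w x) := Iff.rfl

theorem lat_anti (w : Nm v n) {r s : ℝ} (h : r ≤ s) : w.lat s ≤ w.lat r :=
  fun _ hx hx0 => h.trans (hx hx0)

/-- Finite sums. -/
theorem sum_mem {ι : Type} (w : Nm v n) {r : ℝ} (s : Finset ι) (f : ι → Fin n → E)
    (h : ∀ i ∈ s, f i ≠ 0 → r ≤ w (f i)) (h0 : ∑ i ∈ s, f i ≠ 0) : r ≤ w (∑ i ∈ s, f i) :=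
  (w.lat r).sum_mem (t := s) (f := f) (fun i hi => h i hi) h0

theorem exists_basis_sum (b : Module.Basis (Fin n) E (Fin n → E)) (x : Fin n → E) :
    ∑ i, b.repr x i • b i = x := b.sum_repr x

/-- `b` is an orthogonal basis for `w`. -/
def Orth (w : Nm v n) (b : Module.Basis (Fin n) E (Fin n → E)) : Prop :=
  ∀ x i, b.repr x i ≠ 0 → w x ≤ od v (b.repr x i) + w (b i)

theorem le_of_coord (w : Nm v n) (b : Module.Basis (Fin n) E (Fin n → E)) {x : Fin n → E} {r : ℝ}
    (hx : x ≠ 0) (h : ∀ i, b.repr x i ≠ 0 → r ≤ od v (b.repr x i) + w (b i)) : r ≤ w x := by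
  have h1 := w.sum_mem (r := r) Finset.univ (fun i => b.repr x i • b i) (fun i _ hi => ?_)
    (by rw [exists_basis_sum]; exact hx)
  · rwa [exists_basis_sum] at h1
  · have h2 : b.repr x i ≠ 0 := fun h => hi (by rw [h, zero_smul])
    rw [w.smul h2 (b.ne_zero i)]
    exact h i h2

/-- The value is attained by one of the coordinates. -/
theorem exists_coord (w : Nm v n) (b : Module.Basis (Fin n) E (Fin n → E)) {x : Fin n → E}
    (hx : x ≠ 0) : ∃ i, b.repr x i ≠ 0 ∧ od v (b.repr x i) + w (b i) ≤ w x := by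
  classical
  by_contra hcon
  push Not at hcon
  have hne : (Finset.univ.filter fun i => b.repr x i ≠ 0).Nonempty := by
    by_contra h0
    rw [Finset.not_nonempty_iff_eq_empty, Finset.filter_eq_empty_iff] at h0
    apply hx
    rw [← exists_basis_sum b x]
    refine Finset.sum_eq_zero fun i hi => ?_
    have := h0 hi
    push Not at this
    rw [this, zero_smul]
  obtain ⟨i, hi, hmin⟩ := Finset.exists_min_image _ (fun i => od v (b.repr x i) + w (b i)) hne
  have hi' : b.repr x i ≠ 0 := (Finset.mem_filter.1 hi).2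
  have h1 := w.le_of_coord b hx (r := od v (b.repr x i) + w (b i)) fun j hj =>
    hmin j (Finset.mem_filter.2 ⟨Finset.mem_univ _, hj⟩)
  exact absurd h1 (not_le.2 (hcon i hi'))

theorem Orth.exists_eq {w : Nm v n} {b : Module.Basis (Fin n) E (Fin n → E)} (h : w.Orth b)
    {x : Fin n → E} (hx : x ≠ 0) : ∃ i, b.repr x i ≠ 0 ∧ w x = od v (b.repr x i) + w (b i) := by
  obtain ⟨i, hi, hle⟩ := w.exists_coord b hx
  exact ⟨i, hi, le_antisymm (h x i hi) hle⟩

theorem Orth.le_iff {w : Nm v n} {b : Module.Basis (Fin n) E (Fin n → E)} (h : w.Orth b)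
    {x : Fin n → E} {r : ℝ} (hx : x ≠ 0) :
    r ≤ w x ↔ ∀ i, b.repr x i ≠ 0 → r ≤ od v (b.repr x i) + w (b i) :=
  ⟨fun h1 i hi => h1.trans (h x i hi), fun h1 => w.le_of_coord b hx h1⟩

theorem Orth.ext {w w' : Nm v n} {b : Module.Basis (Fin n) E (Fin n → E)} (h : w.Orth b)
    (h' : w'.Orth b) (he : ∀ i, w (b i) = w' (b i)) : w = w' := by
  refine ext' fun x hx => le_antisymm ?_ ?_
  · rw [h'.le_iff hx]
    intro i hi
    rw [← he]
    exact h x i hi
  · rw [h.le_iff hx]
    intro i hi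
    rw [he]
    exact h' x i hi

theorem Orth.mem_lat {w : Nm v n} {b : Module.Basis (Fin n) E (Fin n → E)} (h : w.Orth b)
    {x : Fin n → E} {r : ℝ} :
    x ∈ w.lat r ↔ ∀ i, b.repr x i ≠ 0 → r ≤ od v (b.repr x i) + w (b i) := by
  rw [Nm.mem_lat]
  constructor
  · intro h1 i hi
    have hx : x ≠ 0 := by
      rintro rfl
      simp at hi
    exact (h1 hx).trans (h x i hi)
  · exact fun h1 hx => (h.le_iff hx).2 h1

end Nm

end Pool.Agent.GLN
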