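import Pool.Agent.Lib.MP_98022b_gln.NormVol

/-!
# Geodesics between norms
-/

set_option autoImplicit false

open scoped WithZero

namespace Pool.Agent.GLN

variable {E : Type} [Field E] {v : Valuation E ℤᵐ⁰} {n : ℕ}

/-! ### Diagonal norms -/

section dg

variable {b : Module.Basis (Fin n) E (Fin n → E)} {α : Fin n → ℝ}

theorem dg_le {x : Fin n → E} {i : Fin n} (hi : b.repr x i ≠ 0) :
    dg v b α x ≤ od v (b.repr x i) + α i :=
  csInf_le (Set.toFinite _).bddBelow ⟨i, hi, rfl⟩

theorem exists_repr_ne_zero (b : Module.Basis (Fin n) E (Fin n → E)) {x : Fin n → E}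
    (hx : x ≠ 0) : ∃ i, b.repr x i ≠ 0 := by
  by_contra hcon
  push Not at hcon
  apply hx
  rw [← b.sum_repr x]
  exact Finset.sum_eq_zero fun i _ => by rw [hcon i, zero_smul]

theorem le_dg {x : Fin n → E} {r : ℝ} (hx : x ≠ 0)
    (h : ∀ i, b.repr x i ≠ 0 → r ≤ od v (b.repr x i) + α i) : r ≤ dg v b α x := by
  refine le_csInf ?_ ?_
  · obtain ⟨i, hi⟩ := exists_repr_ne_zero b hx
    exact ⟨_, i, hi, rfl⟩
  · rintro _ ⟨i, hi, rfl⟩
    exact h i hi

theorem dg_zero : dg v b α 0 = 0 := by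
  unfold dg
  simp

theorem dg_add {x y : Fin n → E} (hxy : x + y ≠ 0) :
    min (dg v b α x) (dg v b α y) ≤ dg v b α (x + y) := by
  refine le_dg hxy fun i hi => ?_
  rw [map_add, Finsupp.add_apply] at hi ⊢
  by_cases h1 : b.repr x i = 0
  · rw [h1, zero_add] at hi ⊢
    exact (min_le_right _ _).trans (dg_le hi)
  by_cases h2 : b.repr y i = 0
  · rw [h2, add_zero] at hi ⊢
    exact (min_le_left _ _).trans (dg_le hi)
  · refine (min_le_min (dg_le h1) (dg_le h2)).trans ?_
    rw [min_add_add_right]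
    have := od_add (v := v) h1 h2 hi
    linarith

theorem dg_smul {a : E} {x : Fin n → E} (ha : a ≠ 0) (hx : x ≠ 0) :
    dg v b α (a • x) = od v a + dg v b α x := by
  have hax : a • x ≠ 0 := smul_ne_zero ha hx
  refine le_antisymm ?_ ?_
  · have h1 : dg v b α (a • x) - od v a ≤ dg v b α x := by
      refine le_dg hx fun i hi => ?_
      have h2 : b.repr (a • x) i = a * b.repr x i := by
        rw [map_smul, Finsupp.smul_apply, smul_eq_mul]
      have h3 := dg_le (v := v) (α := α) (x := a • x) (i := i) (b := b)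
        (by rw [h2]; exact mul_ne_zero ha hi)
      rw [h2, od_mul ha hi] at h3
      linarith
    linarith
  · refine le_dg hax fun i hi => ?_
    have h2 : b.repr (a • x) i = a * b.repr x i := by
      rw [map_smul, Finsupp.smul_apply, smul_eq_mul]
    have hi' : b.repr x i ≠ 0 := fun h => hi (by rw [h2, h, mul_zero])
    rw [h2, od_mul ha hi']
    have := dg_le (v := v) (α := α) hi'
    linarith

theorem dg_sum {ι : Type} {r : ℝ} (s : Finset ι) (f : ι → Fin n → E)
    (h : ∀ i ∈ s, f i ≠ 0 → r ≤ dg v b α (f i)) (h0 : ∑ i ∈ s, f i ≠ 0) :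
    r ≤ dg v b α (∑ i ∈ s, f i) := by
  classical
  induction s using Finset.induction_on with
  | empty => exact absurd Finset.sum_empty h0
  | insert a s ha ih =>
    rw [Finset.sum_insert ha] at h0 ⊢
    by_cases h1 : f a = 0
    · rw [h1, zero_add] at h0 ⊢
      exact ih (fun i hi => h i (Finset.mem_insert_of_mem hi)) h0
    by_cases h2 : ∑ i ∈ s, f i = 0
    · rw [h2, add_zero]
      exact h a (Finset.mem_insert_self a s) h1
    · exact (le_min (h a (Finset.mem_insert_self a s) h1)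
        (ih (fun i hi => h i (Finset.mem_insert_of_mem hi)) h2)).trans (dg_add h0)

theorem exists_lower {ι : Type} [Finite ι] (f : ι → ℝ) : ∃ C : ℝ, 0 ≤ C ∧ ∀ i, |f i| ≤ C := by
  have := Fintype.ofFinite ι
  refine ⟨∑ i, |f i|, Finset.sum_nonneg fun i _ => abs_nonneg _, fun i => ?_⟩
  exact Finset.single_le_sum (f := fun i => |f i|) (fun j _ => abs_nonneg _) (Finset.mem_univ i)

variable (v b α) in
theorem dg_bdd : ∃ C : ℝ, ∀ x, |dg v b α x - w0 v x| ≤ C := by
  obtain ⟨C₁, h0, h1⟩ := exists_lower fun j => dg v b α (Pi.basisFun E (Fin n) j)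
  obtain ⟨C₂, h0', h2⟩ := exists_lower fun i => (nm0 v n) (b i) - α i
  refine ⟨max C₁ C₂, fun x => ?_⟩
  by_cases hx : x = 0
  · subst hx
    rw [dg_zero, w0_zero, sub_zero, abs_zero]
    exact h0.trans (le_max_left _ _)
  rw [abs_le]
  constructor
  · have h3 : w0 v x - C₁ ≤ dg v b α x := by
      have h4 := dg_sum (v := v) (b := b) (α := α) (r := w0 v x - C₁) Finset.univ
        (fun j => (Pi.basisFun E (Fin n)).repr x j • Pi.basisFun E (Fin n) j) (fun j _ hj => ?_)
        (by rw [Module.Basis.sum_repr]; exact hx)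
      · rwa [Module.Basis.sum_repr] at h4
      · have hxj : x j ≠ 0 := by
          intro h
          rw [Pi.basisFun_repr, h, zero_smul] at hj
          exact hj rfl
        rw [Pi.basisFun_repr, dg_smul hxj ((Pi.basisFun E (Fin n)).ne_zero j)]
        have h5 := w0_le (v := v) hxj
        have h6 := (abs_le.1 (h1 j)).1
        linarith
    have := le_max_left C₁ C₂
    linarith
  · have h3 : dg v b α x - C₂ ≤ (nm0 v n) x := by
      refine (nm0 v n).le_of_coord b hx fun i hi => ?_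
      have h4 := dg_le (v := v) (α := α) hi
      have h5 := (abs_le.1 (h2 i)).1
      linarith
    rw [nm0_apply] at h3
    have := le_max_right C₁ C₂
    linarith

end dg

variable (v) in
/-- The norm with the orthogonal basis `b` and the values `α` on it. -/
noncomputable def dgN (b : Module.Basis (Fin n) E (Fin n → E)) (α : Fin n → ℝ) : Nm v n where
  toFun := dg v b α
  zero' := dg_zero
  add' := fun _ _ _ _ => dg_add
  smul' := fun _ _ => dg_smul
  bdd' := dg_bdd v b α

theorem dgN_basis (b : Module.Basis (Fin n) E (Fin n → E)) (α : Fin n → ℝ) (i : Fin n) :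
    dgN v b α (b i) = α i := by
  have h1 : (b.repr (b i)) i = (1 : E) := by rw [Module.Basis.repr_self, Finsupp.single_eq_same]
  refine le_antisymm ?_ ?_
  · have := dg_le (v := v) (α := α) (x := b i) (i := i) (b := b) (by rw [h1]; exact one_ne_zero)
    rwa [h1, od_one, zero_add] at this
  · refine le_dg (b.ne_zero i) fun j hj => ?_
    by_cases hij : j = i
    · subst hij
      rw [h1, od_one, zero_add]
    · rw [Module.Basis.repr_self, Finsupp.single_eq_of_ne hij] at hj
      exact absurd rfl hj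

theorem dgN_orth (b : Module.Basis (Fin n) E (Fin n → E)) (α : Fin n → ℝ) :
    (dgN v b α).Orth b := by
  intro x i hi
  rw [dgN_basis]
  exact dg_le hi

theorem Nm.Orth.eq_dgN {w : Nm v n} {b : Module.Basis (Fin n) E (Fin n → E)} (h : w.Orth b) :
    w = dgN v b fun i => w (b i) :=
  h.ext (dgN_orth b _) fun i => (dgN_basis (v := v) b (fun i => w (b i)) i).symm

/-- The values of a common orthogonal basis determine the distance. -/
theorem Nm.Orth.abs_sub_le {w w' : Nm v n} {b : Module.Basis (Fin n) E (Fin n → E)}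
    (h : w.Orth b) (h' : w'.Orth b) {c : ℝ} (hc : ∀ i, |w (b i) - w' (b i)| ≤ c)
    {x : Fin n → E} (hx : x ≠ 0) : |w x - w' x| ≤ c := by
  rw [abs_le]
  constructor
  · have := h'.sub_le (w := w) (c := c) (fun i => by have := (abs_le.1 (hc i)).1; linarith) hx
    linarith
  · have := h.sub_le (w := w') (c := c) (fun i => by have := (abs_le.1 (hc i)).2; linarith) hx
    linarith

/-! ### Shifts -/

/-- `w + c`. -/
noncomputable def Nm.shift (w : Nm v n) (c : ℝ) : Nm v n :=
  dgN v w.exists_orth.choose fun i => w (w.exists_orth.choose i) + c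

theorem Nm.shift_apply (w : Nm v n) (c : ℝ) {x : Fin n → E} (hx : x ≠ 0) :
    w.shift c x = w x + c := by
  have hb := w.exists_orth.choose_spec
  unfold Nm.shift
  set b := w.exists_orth.choose with hbdef
  refine le_antisymm ?_ ?_
  · have h1 : dgN v b (fun i => w (b i) + c) x - c ≤ w x := by
      rw [hb.le_iff hx]
      intro i hi
      have := dgN_orth (v := v) b (fun i => w (b i) + c) x i hi
      rw [dgN_basis] at this
      linarith
    linarith
  · rw [(dgN_orth b _).le_iff hx]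
    intro i hi
    rw [dgN_basis]
    have := hb x i hi
    linarith

/-! ### Geodesics -/

/-- The geodesic from `w` to `w'`. -/
noncomputable def Nm.geo (w w' : Nm v n) (t : ℝ) : Nm v n :=
  dgN v (w.exists_orth_pair w').choose fun i =>
    (1 - t) * w ((w.exists_orth_pair w').choose i) + t * w' ((w.exists_orth_pair w').choose i)

section geo

variable {w w' : Nm v n} {t : ℝ}

/-- The universal property of the geodesic (for any common basis). -/
theorem le_dgN_of_orth {b : Module.Basis (Fin n) E (Fin n → E)} (hb : w.Orth b) (hb' : w'.Orth b)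
    (h0 : 0 ≤ t) (h1 : t ≤ 1) {x : Fin n → E} (hx : x ≠ 0) :
    (1 - t) * w x + t * w' x ≤ dgN v b (fun i => (1 - t) * w (b i) + t * w' (b i)) x := by
  rw [(dgN_orth b _).le_iff hx]
  intro i hi
  rw [dgN_basis]
  have h2 := mul_le_mul_of_nonneg_left (hb x i hi) (sub_nonneg.2 h1)
  have h3 := mul_le_mul_of_nonneg_left (hb' x i hi) h0
  linarith

theorem dgN_le {b : Module.Basis (Fin n) E (Fin n → E)} {α : Fin n → ℝ} {u : Nm v n}
    (h : ∀ i, α i ≤ u (b i)) {x : Fin n → E} (hx : x ≠ 0) : dgN v b α x ≤ u x := by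
  refine u.le_of_coord b hx fun i hi => ?_
  have h1 := dgN_orth (v := v) b α x i hi
  rw [dgN_basis] at h1
  have := h i
  linarith

theorem Nm.le_geo (w w' : Nm v n) (h0 : 0 ≤ t) (h1 : t ≤ 1) {x : Fin n → E} (hx : x ≠ 0) :
    (1 - t) * w x + t * w' x ≤ w.geo w' t x :=
  le_dgN_of_orth (w.exists_orth_pair w').choose_spec.1 (w.exists_orth_pair w').choose_spec.2
    h0 h1 hx

/-- The geodesic is the smallest norm above the affine combination. -/
theorem Nm.geo_le {u : Nm v n} (h : ∀ x, x ≠ 0 → (1 - t) * w x + t * w' x ≤ u x)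
    {x : Fin n → E} (hx : x ≠ 0) : w.geo w' t x ≤ u x :=
  dgN_le (fun i => h _ (Module.Basis.ne_zero _ i)) hx

theorem Nm.geo_eq_of_orth {b : Module.Basis (Fin n) E (Fin n → E)} (hb : w.Orth b)
    (hb' : w'.Orth b) (h0 : 0 ≤ t) (h1 : t ≤ 1) :
    w.geo w' t = dgN v b fun i => (1 - t) * w (b i) + t * w' (b i) := by
  refine Nm.ext' fun x hx => le_antisymm ?_ ?_
  · exact Nm.geo_le (fun y hy => le_dgN_of_orth hb hb' h0 h1 hy) hx
  · exact dgN_le (fun i => Nm.le_geo w w' h0 h1 (b.ne_zero i)) hx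

theorem Nm.Orth.geo {b : Module.Basis (Fin n) E (Fin n → E)} (hb : w.Orth b)
    (hb' : w'.Orth b) (h0 : 0 ≤ t) (h1 : t ≤ 1) : (w.geo w' t).Orth b := by
  rw [Nm.geo_eq_of_orth hb hb' h0 h1]
  exact dgN_orth b _

theorem Nm.geo_basis {b : Module.Basis (Fin n) E (Fin n → E)} (hb : w.Orth b)
    (hb' : w'.Orth b) (h0 : 0 ≤ t) (h1 : t ≤ 1) (i : Fin n) :
    w.geo w' t (b i) = (1 - t) * w (b i) + t * w' (b i) := by
  rw [Nm.geo_eq_of_orth hb hb' h0 h1, dgN_basis]

theorem Nm.geo_zero (w w' : Nm v n) : w.geo w' 0 = w := by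
  obtain ⟨b, hb, hb'⟩ := w.exists_orth_pair w'
  refine (hb.geo hb' le_rfl zero_le_one).ext hb fun i => ?_
  rw [Nm.geo_basis hb hb' le_rfl zero_le_one]
  ring

theorem Nm.geo_one (w w' : Nm v n) : w.geo w' 1 = w' := by
  obtain ⟨b, hb, hb'⟩ := w.exists_orth_pair w'
  refine (hb.geo hb' zero_le_one le_rfl).ext hb' fun i => ?_
  rw [Nm.geo_basis hb hb' zero_le_one le_rfl]
  ring

theorem Nm.geo_self (w : Nm v n) (h0 : 0 ≤ t) (h1 : t ≤ 1) : w.geo w t = w := by
  obtain ⟨b, hb⟩ := w.exists_orth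
  refine (hb.geo hb h0 h1).ext hb fun i => ?_
  rw [Nm.geo_basis hb hb h0 h1]
  ring

theorem Nm.geo_symm (w w' : Nm v n) (h0 : 0 ≤ t) (h1 : t ≤ 1) :
    w.geo w' t = w'.geo w (1 - t) := by
  obtain ⟨b, hb, hb'⟩ := w.exists_orth_pair w'
  refine (hb.geo hb' h0 h1).ext (hb'.geo hb (by linarith) (by linarith)) fun i => ?_
  rw [Nm.geo_basis hb hb' h0 h1, Nm.geo_basis hb' hb (by linarith) (by linarith)]
  ring

/-- Geodesics are consistent. -/
theorem Nm.geo_geo (w w' : Nm v n) {a c t : ℝ} (ha : 0 ≤ a) (ha' : a ≤ 1) (hc : 0 ≤ c)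
    (hc' : c ≤ 1) (h0 : 0 ≤ t) (h1 : t ≤ 1) :
    (w.geo w' a).geo (w.geo w' c) t = w.geo w' ((1 - t) * a + t * c) := by
  obtain ⟨b, hb, hb'⟩ := w.exists_orth_pair w'
  have h2 := hb.geo hb' ha ha'
  have h3 := hb.geo hb' hc hc'
  have h4 : 0 ≤ (1 - t) * a + t * c :=
    add_nonneg (mul_nonneg (by linarith) ha) (mul_nonneg h0 hc)
  have h5 : (1 - t) * a + t * c ≤ 1 := by
    nlinarith [mul_le_mul_of_nonneg_left ha' (sub_nonneg.2 h1), mul_le_mul_of_nonneg_left hc' h0]
  refine (h2.geo h3 h0 h1).ext (hb.geo hb' h4 h5) fun i => ?_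
  rw [Nm.geo_basis h2 h3 h0 h1, Nm.geo_basis hb hb' ha ha', Nm.geo_basis hb hb' hc hc',
    Nm.geo_basis hb hb' h4 h5]
  ring

/-- Geodesics are monotone and conical. -/
theorem Nm.geo_mono {u u' : Nm v n} {a a' : ℝ} (h0 : 0 ≤ t) (h1 : t ≤ 1)
    (h : ∀ x, x ≠ 0 → u x - a ≤ w x) (h' : ∀ x, x ≠ 0 → u' x - a' ≤ w' x) {x : Fin n → E}
    (hx : x ≠ 0) : u.geo u' t x - ((1 - t) * a + t * a') ≤ w.geo w' t x := by
  have h2 : u.geo u' t x ≤ (w.geo w' t).shift ((1 - t) * a + t * a') x := by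
    refine Nm.geo_le (fun y hy => ?_) hx
    rw [Nm.shift_apply _ _ hy]
    have h3 := Nm.le_geo w w' h0 h1 hy
    have h4 := mul_le_mul_of_nonneg_left (h y hy) (sub_nonneg.2 h1)
    have h5 := mul_le_mul_of_nonneg_left (h' y hy) h0
    linarith
  rw [Nm.shift_apply _ _ hx] at h2
  linarith

/-- The volume is affine along geodesics. -/
theorem Nm.vol_geo (w w' : Nm v n) (h0 : 0 ≤ t) (h1 : t ≤ 1) :
    (w.geo w' t).vol = (1 - t) * w.vol + t * w'.vol := by
  obtain ⟨b, hb, hb'⟩ := w.exists_orth_pair w'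
  rw [(hb.geo hb' h0 h1).vol_eq, hb.vol_eq, hb'.vol_eq]
  simp only [Nm.geo_basis hb hb' h0 h1]
  rw [Finset.sum_add_distrib, ← Finset.mul_sum, ← Finset.mul_sum]
  ring

end geo

/-! ### Lattices and distances -/

/-- (1.8): the lattice of the threshold `r` does not change if no value is within `e` of `r`. -/
theorem Nm.lat_eq {w w' : Nm v n} {r e : ℝ} (h : ∀ x, x ≠ 0 → e ≤ |w x - r|)
    (h' : ∀ x, x ≠ 0 → |w x - w' x| < e) : w'.lat r = w.lat r := by
  ext x
  rw [Nm.mem_lat, Nm.mem_lat]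
  refine forall_congr' fun hx => ?_
  have h1 := h x hx
  have h2 := abs_lt.1 (h' x hx)
  constructor
  · intro h3
    rcases le_abs.1 h1 with h4 | h4
    · linarith [abs_nonneg (w x - w' x), h' x hx]
    · linarith
  · intro h3
    rcases le_abs.1 h1 with h4 | h4
    · linarith
    · linarith [abs_nonneg (w x - w' x), h' x hx]

/-- The values in terms of an orthogonal basis. -/
theorem Nm.Orth.far_of_basis {w : Nm v n} {b : Module.Basis (Fin n) E (Fin n → E)}
    (h : w.Orth b) {r e : ℝ} (hb : ∀ i, ∀ k : ℤ, e ≤ |w (b i) + k - r|) {x : Fin n → E}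
    (hx : x ≠ 0) : e ≤ |w x - r| := by
  obtain ⟨i, hi, hi'⟩ := h.exists_eq hx
  obtain ⟨k, hk⟩ := od_int (v := v) (b.repr x i)
  rw [hi', hk, add_comm]
  exact hb i k

/-- Equal lattices: the norms are close. -/
theorem Nm.lt_of_lat_le {π : E} (hπ : v π = WithZero.exp (-1)) {w w' : Nm v n} {r r' : ℝ}
    (h : w.lat r ≤ w'.lat r') {x : Fin n → E} (hx : x ≠ 0) : w x - w' x - (r - r') < 1 := by
  have hπ0 : π ≠ 0 := by
    rintro rfl
    rw [map_zero] at hπ
    exact WithZero.exp_ne_zero hπ.symm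
  set k := ⌊w x - r⌋ with hk
  have h1 : π ^ (-k) ≠ 0 := zpow_ne_zero _ hπ0
  have h2 : π ^ (-k) • x ∈ w.lat r := by
    intro _
    rw [w.smul h1 hx, od_zpow hπ]
    have := Int.floor_le (w x - r)
    push_cast
    linarith
  have h3 := h h2 (smul_ne_zero h1 hx)
  rw [w'.smul h1 hx, od_zpow hπ] at h3
  have h4 := Int.lt_floor_add_one (w x - r)
  push_cast at h3
  linarith

end Pool.Agent.GLN
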