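import Pool.Agent.Lib.MP_98022b_gln.NormMetric

/-!
# Integer valued norms and the L1 distance

A lattice is the same as an integer valued norm. The lattice `{w ≥ r}` is the norm `⌊w - r⌋`.
-/

set_option autoImplicit false

open scoped WithZero

namespace Pool.Agent.GLN

variable {E : Type} [Field E] {v : Valuation E ℤᵐ⁰} {n : ℕ}

/-! ### Minimum and maximum -/

/-- The minimum of two norms. -/
noncomputable def Nm.inf (w w' : Nm v n) : Nm v n :=
  dgN v (w.exists_orth_pair w').choose fun i =>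
    min (w ((w.exists_orth_pair w').choose i)) (w' ((w.exists_orth_pair w').choose i))

theorem dgN_min {w w' : Nm v n} {b : Module.Basis (Fin n) E (Fin n → E)} (hb : w.Orth b)
    (hb' : w'.Orth b) {x : Fin n → E} (hx : x ≠ 0) :
    dgN v b (fun i => min (w (b i)) (w' (b i))) x = min (w x) (w' x) := by
  refine le_antisymm (le_min ?_ ?_) ?_
  · exact dgN_le (fun i => min_le_left _ _) hx
  · exact dgN_le (fun i => min_le_right _ _) hx
  · rw [(dgN_orth b _).le_iff hx]
    intro i hi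
    rw [dgN_basis, ← min_add_add_left]
    exact min_le_min (hb x i hi) (hb' x i hi)

theorem Nm.inf_apply (w w' : Nm v n) {x : Fin n → E} (hx : x ≠ 0) :
    w.inf w' x = min (w x) (w' x) :=
  dgN_min (w.exists_orth_pair w').choose_spec.1 (w.exists_orth_pair w').choose_spec.2 hx

theorem Nm.inf_eq {w w' : Nm v n} {b : Module.Basis (Fin n) E (Fin n → E)} (hb : w.Orth b)
    (hb' : w'.Orth b) : w.inf w' = dgN v b fun i => min (w (b i)) (w' (b i)) :=
  Nm.ext' fun x hx => by rw [Nm.inf_apply _ _ hx, dgN_min hb hb' hx]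

theorem Nm.Orth.inf {w w' : Nm v n} {b : Module.Basis (Fin n) E (Fin n → E)} (hb : w.Orth b)
    (hb' : w'.Orth b) : (w.inf w').Orth b := by
  rw [Nm.inf_eq hb hb']
  exact dgN_orth b _

theorem Nm.inf_comm (w w' : Nm v n) : w.inf w' = w'.inf w :=
  Nm.ext' fun x hx => by rw [Nm.inf_apply _ _ hx, Nm.inf_apply _ _ hx, min_comm]

/-- The inequality of modularity. -/
theorem Nm.vol_add_vol_le {w w' u : Nm v n} (h : ∀ x, x ≠ 0 → w x ≤ u x)
    (h' : ∀ x, x ≠ 0 → w' x ≤ u x) : w.vol + w'.vol ≤ (w.inf w').vol + u.vol := by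
  obtain ⟨b, hb, hb'⟩ := w.exists_orth_pair w'
  have h1 : (dgN v b fun i => max (w (b i)) (w' (b i))).vol ≤ u.vol :=
    Nm.vol_mono fun x hx => dgN_le (fun i => max_le (h _ (b.ne_zero i)) (h' _ (b.ne_zero i))) hx
  have h2 : w.vol + w'.vol = (w.inf w').vol + (dgN v b fun i => max (w (b i)) (w' (b i))).vol := by
    rw [Nm.inf_eq hb hb', (dgN_orth b _).vol_eq, (dgN_orth b _).vol_eq, hb.vol_eq, hb'.vol_eq]
    simp only [dgN_basis]
    have h3 : ∑ i, w (b i) + ∑ i, w' (b i) =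
        ∑ i, min (w (b i)) (w' (b i)) + ∑ i, max (w (b i)) (w' (b i)) := by
      rw [← Finset.sum_add_distrib, ← Finset.sum_add_distrib]
      exact Finset.sum_congr rfl fun i _ => (min_add_max _ _).symm
    linarith
  linarith

/-! ### The L1 distance -/

/-- The L1 distance. -/
noncomputable def Nm.d1 (w w' : Nm v n) : ℝ := w.vol + w'.vol - 2 * (w.inf w').vol

theorem Nm.d1_eq {w w' : Nm v n} {b : Module.Basis (Fin n) E (Fin n → E)} (hb : w.Orth b)
    (hb' : w'.Orth b) : w.d1 w' = ∑ i, |w (b i) - w' (b i)| := by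
  unfold Nm.d1
  rw [Nm.inf_eq hb hb', (dgN_orth b _).vol_eq, hb.vol_eq, hb'.vol_eq]
  simp only [dgN_basis]
  have h3 : ∑ i, |w (b i) - w' (b i)| =
      ∑ i, w (b i) + ∑ i, w' (b i) - 2 * ∑ i, min (w (b i)) (w' (b i)) := by
    rw [← Finset.sum_add_distrib, Finset.mul_sum, ← Finset.sum_sub_distrib]
    refine Finset.sum_congr rfl fun i _ => ?_
    rcases le_total (w (b i)) (w' (b i)) with h | h
    · rw [min_eq_left h, abs_of_nonpos (by linarith)]
      ring
    · rw [min_eq_right h, abs_of_nonneg (by linarith)]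
      ring
  rw [h3]
  ring

theorem Nm.d1_comm (w w' : Nm v n) : w.d1 w' = w'.d1 w := by
  unfold Nm.d1
  rw [Nm.inf_comm]
  ring

theorem Nm.d1_nonneg (w w' : Nm v n) : 0 ≤ w.d1 w' := by
  obtain ⟨b, hb, hb'⟩ := w.exists_orth_pair w'
  rw [Nm.d1_eq hb hb']
  exact Finset.sum_nonneg fun i _ => abs_nonneg _

theorem Nm.d1_triangle (w w' w'' : Nm v n) : w.d1 w'' ≤ w.d1 w' + w'.d1 w'' := by
  have h1 : (w.inf w').vol + (w'.inf w'').vol ≤ ((w.inf w').inf (w'.inf w'')).vol + w'.vol := by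
    refine Nm.vol_add_vol_le (fun x hx => ?_) fun x hx => ?_
    · rw [Nm.inf_apply _ _ hx]
      exact min_le_right _ _
    · rw [Nm.inf_apply _ _ hx]
      exact min_le_left _ _
  have h2 : ((w.inf w').inf (w'.inf w'')).vol ≤ (w.inf w'').vol := by
    refine Nm.vol_mono fun x hx => ?_
    rw [Nm.inf_apply _ _ hx, Nm.inf_apply _ _ hx, Nm.inf_apply _ _ hx, Nm.inf_apply _ _ hx]
    exact min_le_min (min_le_left _ _) (min_le_right _ _)
  unfold Nm.d1
  linarith

theorem Nm.dist_le_d1 (w w' : Nm v n) : dist w w' ≤ w.d1 w' := by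
  obtain ⟨b, hb, hb'⟩ := w.exists_orth_pair w'
  refine hb.dist_le hb' (w.d1_nonneg w') fun i => ?_
  rw [Nm.d1_eq hb hb']
  exact Finset.single_le_sum (f := fun i => |w (b i) - w' (b i)|) (fun j _ => abs_nonneg _)
    (Finset.mem_univ i)

theorem Nm.d1_le_dist (w w' : Nm v n) : w.d1 w' ≤ n * dist w w' := by
  obtain ⟨b, hb, hb'⟩ := w.exists_orth_pair w'
  rw [Nm.d1_eq hb hb']
  calc ∑ i, |w (b i) - w' (b i)| ≤ ∑ _i : Fin n, dist w w' :=
        Finset.sum_le_sum fun i _ => w.abs_sub_le_dist w' _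
    _ = n * dist w w' := by rw [Finset.sum_const, Finset.card_univ, Fintype.card_fin, nsmul_eq_mul]

theorem Nm.eq_of_d1 {w w' : Nm v n} (h : w.d1 w' = 0) : w = w' := by
  have h1 := w.dist_le_d1 w'
  rw [h] at h1
  exact dist_le_zero.1 h1

theorem Nm.smul_inf (g : GL (Fin n) E) (w w' : Nm v n) : g • w.inf w' = (g • w).inf (g • w') := by
  refine Nm.ext' fun x hx => ?_
  rw [Nm.smul_apply, Nm.inf_apply _ _ (inv_mulVec_ne_zero g hx), Nm.inf_apply _ _ hx,
    Nm.smul_apply, Nm.smul_apply]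

theorem Nm.d1_smul (g : GL (Fin n) E) (w w' : Nm v n) : (g • w).d1 (g • w') = w.d1 w' := by
  unfold Nm.d1
  rw [← Nm.smul_inf, Nm.vol_smul, Nm.vol_smul, Nm.vol_smul]
  ring

/-! ### Integer valued norms -/

/-- The norm has integer values. -/
def Nm.IsInt (w : Nm v n) : Prop := ∀ x, ∃ k : ℤ, w x = k

theorem Nm.IsInt.smul {w : Nm v n} (h : w.IsInt) (g : GL (Fin n) E) : (g • w).IsInt :=
  fun _ => h _

theorem Nm.IsInt.vol {w : Nm v n} (h : w.IsInt) : ∃ k : ℤ, w.vol = k := by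
  obtain ⟨b, hb⟩ := w.exists_orth
  choose k hk using fun i => h (b i)
  obtain ⟨l, hl⟩ := od_int (v := v) (bdet b)
  refine ⟨∑ i, k i - l, ?_⟩
  rw [hb.vol_eq, hl]
  push_cast
  congr 1
  exact Finset.sum_congr rfl fun i _ => hk i

theorem Nm.IsInt.inf {w w' : Nm v n} (h : w.IsInt) (h' : w'.IsInt) : (w.inf w').IsInt := by
  intro x
  by_cases hx : x = 0
  · exact ⟨0, by rw [hx, Nm.zero, Int.cast_zero]⟩
  · rw [Nm.inf_apply _ _ hx]
    rcases min_choice (w x) (w' x) with h1 | h1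
    · rw [h1]
      exact h x
    · rw [h1]
      exact h' x

theorem Nm.IsInt.d1 {w w' : Nm v n} (h : w.IsInt) (h' : w'.IsInt) : ∃ k : ℤ, w.d1 w' = k := by
  obtain ⟨a, ha⟩ := h.vol
  obtain ⟨b, hb⟩ := h'.vol
  obtain ⟨c, hc⟩ := (h.inf h').vol
  refine ⟨a + b - 2 * c, ?_⟩
  unfold Nm.d1
  rw [ha, hb, hc]
  push_cast
  ring

/-- The lattice `{w ≥ r}` as an integer valued norm. -/
noncomputable def Nm.fl (w : Nm v n) (r : ℝ) : Nm v n where
  toFun := fun x => open Classical in if x = 0 then 0 else (⌊w x - r⌋ : ℝ)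
  zero' := if_pos rfl
  add' := by
    intro x y hx hy hxy
    simp only [if_neg hx, if_neg hy, if_neg hxy]
    have h1 := w.add hx hy hxy
    rw [← Int.cast_min, Int.cast_le]
    rcases min_le_iff.1 h1 with h2 | h2
    · exact (min_le_left _ _).trans (Int.floor_le_floor (by linarith))
    · exact (min_le_right _ _).trans (Int.floor_le_floor (by linarith))
  smul' := by
    intro a x ha hx
    simp only [if_neg (smul_ne_zero ha hx), if_neg hx]
    obtain ⟨k, hk⟩ := od_int (v := v) a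
    rw [w.smul ha hx, hk, add_sub_assoc, Int.floor_intCast_add]
    push_cast
    ring
  bdd' := by
    obtain ⟨C, hC⟩ := w.bdd'
    refine ⟨C + |r| + 1, fun x => ?_⟩
    have h0 := (abs_nonneg _).trans (hC 0)
    by_cases hx : x = 0
    · simp only [if_pos hx]
      rw [hx, w0_zero, sub_zero, abs_zero]
      have := abs_nonneg r
      linarith
    · simp only [if_neg hx]
      have h1 := abs_le.1 (hC x)
      have h2 := Int.floor_le (w x - r)
      have h3 := Int.lt_floor_add_one (w x - r)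
      have h4 := neg_abs_le r
      have h5 := le_abs_self r
      have h6 : w x = w.toFun x := rfl
      rw [abs_le]
      constructor <;> linarith

theorem Nm.fl_apply (w : Nm v n) (r : ℝ) {x : Fin n → E} (hx : x ≠ 0) :
    w.fl r x = (⌊w x - r⌋ : ℝ) := if_neg hx

theorem Nm.fl_isInt (w : Nm v n) (r : ℝ) : (w.fl r).IsInt := by
  intro x
  by_cases hx : x = 0
  · exact ⟨0, by rw [hx, Nm.zero, Int.cast_zero]⟩
  · exact ⟨_, w.fl_apply r hx⟩

theorem Nm.Orth.fl {w : Nm v n} {b : Module.Basis (Fin n) E (Fin n → E)} (h : w.Orth b) (r : ℝ) :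
    (w.fl r).Orth b := by
  intro x i hi
  have hx : x ≠ 0 := by
    rintro rfl
    simp at hi
  obtain ⟨k, hk⟩ := od_int (v := v) (b.repr x i)
  have h1 := h x i hi
  rw [Nm.fl_apply _ _ hx, Nm.fl_apply _ _ (b.ne_zero i), hk, ← Int.cast_add, Int.cast_le,
    ← Int.floor_intCast_add]
  refine Int.floor_le_floor ?_
  rw [hk] at h1
  linarith

theorem Nm.smul_fl (g : GL (Fin n) E) (w : Nm v n) (r : ℝ) : g • w.fl r = (g • w).fl r := by
  refine Nm.ext' fun x hx => ?_
  rw [Nm.smul_apply, Nm.fl_apply _ _ (inv_mulVec_ne_zero g hx), Nm.fl_apply _ _ hx,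
    Nm.smul_apply]

theorem Nm.fl_le (w : Nm v n) (r : ℝ) {x : Fin n → E} (hx : x ≠ 0) : w.fl r x ≤ w x - r := by
  rw [Nm.fl_apply _ _ hx]
  exact Int.floor_le _

theorem Nm.lt_fl (w : Nm v n) (r : ℝ) {x : Fin n → E} (hx : x ≠ 0) : w x - r < w.fl r x + 1 := by
  rw [Nm.fl_apply _ _ hx]
  exact Int.lt_floor_add_one _

/-- The norms which have the same lattice. -/
theorem Nm.fl_eq_iff {π : E} (hπ : v π = WithZero.exp (-1)) {w w' : Nm v n} {r r' : ℝ} :
    w.fl r = w'.fl r' ↔ w.lat r = w'.lat r' := by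
  have hπ0 : π ≠ 0 := by
    rintro rfl
    rw [map_zero] at hπ
    exact WithZero.exp_ne_zero hπ.symm
  constructor
  · intro h
    have key : ∀ (w : Nm v n) (r : ℝ) (x : Fin n → E), x ∈ w.lat r ↔ (x ≠ 0 → 0 ≤ w.fl r x) := by
      intro w r x
      rw [Nm.mem_lat]
      refine forall_congr' fun hx => ?_
      rw [Nm.fl_apply _ _ hx, ← Int.cast_zero, Int.cast_le, Int.floor_nonneg, sub_nonneg]
    ext x
    rw [key, key, h]
  · intro h
    have key : ∀ (w w' : Nm v n) (r r' : ℝ), w.lat r ≤ w'.lat r' → ∀ x, x ≠ 0 →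
        w.fl r x ≤ w'.fl r' x := by
      intro w w' r r' h x hx
      rw [Nm.fl_apply _ _ hx, Nm.fl_apply _ _ hx, Int.cast_le, Int.le_floor]
      have h1 : π ^ (-⌊w x - r⌋) ≠ 0 := zpow_ne_zero _ hπ0
      have h2 : π ^ (-⌊w x - r⌋) • x ∈ w.lat r := by
        intro _
        rw [w.smul h1 hx, od_zpow hπ]
        have := Int.floor_le (w x - r)
        push_cast
        linarith
      have h3 := h h2 (smul_ne_zero h1 hx)
      rw [w'.smul h1 hx, od_zpow hπ] at h3
      push_cast at h3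
      linarith
    exact Nm.ext' fun x hx => le_antisymm (key w w' r r' h.le x hx) (key w' w r' r h.ge x hx)

/-- (1.8) for the integer valued norms. -/
theorem Nm.fl_eq_of_far {w w' : Nm v n} {b : Module.Basis (Fin n) E (Fin n → E)} (h : w.Orth b)
    {r e : ℝ} (hb : ∀ i, ∀ k : ℤ, e ≤ |w (b i) - r - k|) (hd : dist w w' < e) :
    w'.fl r = w.fl r := by
  refine Nm.ext' fun x hx => ?_
  rw [Nm.fl_apply _ _ hx, Nm.fl_apply _ _ hx]
  have h1 : ∀ k : ℤ, e ≤ |w x - r - k| := by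
    intro k
    obtain ⟨i, hi, hi'⟩ := h.exists_eq hx
    obtain ⟨l, hl⟩ := od_int (v := v) (b.repr x i)
    have := hb i (k - l)
    rw [hi', hl]
    push_cast at this
    rwa [show (l : ℝ) + w (b i) - r - k = w (b i) - r - (k - l) by ring]
  have h2 := abs_lt.1 ((w.abs_sub_le_dist w' x).trans_lt hd)
  congr 1
  rw [Int.floor_eq_iff]
  have h3 := Int.floor_le (w x - r)
  have h4 := Int.lt_floor_add_one (w x - r)
  have h5 := h1 ⌊w x - r⌋
  have h6 := h1 (⌊w x - r⌋ + 1)
  push_cast at h6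
  rw [abs_of_nonneg (by linarith)] at h5
  rw [abs_of_nonpos (by linarith)] at h6
  constructor <;> linarith

/-- The volume of the lattice. -/
theorem Nm.abs_vol_fl (w : Nm v n) (r : ℝ) (h0 : 0 ≤ r) (h1 : r ≤ 1) (hw : w.vol = 0) :
    |(w.fl r).vol| ≤ 2 * n := by
  obtain ⟨b, hb⟩ := w.exists_orth
  have h2 := Nm.vol_sub (hb.fl r) hb
  rw [hw] at h2
  have h3 : ∑ i, (w (b i) - w.fl r (b i)) ≤ ∑ _i : Fin n, (2 : ℝ) :=
    Finset.sum_le_sum fun i _ => by
      have := w.lt_fl r (b.ne_zero i)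
      linarith
  have h4 : 0 ≤ ∑ i, (w (b i) - w.fl r (b i)) :=
    Finset.sum_nonneg fun i _ => by
      have := w.fl_le r (b.ne_zero i)
      linarith
  rw [Finset.sum_const, Finset.card_univ, Fintype.card_fin, nsmul_eq_mul] at h3
  rw [abs_le]
  constructor <;> linarith

end Pool.Agent.GLN
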