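import Pool.Agent.Lib.MP_98022b_gln.NormGeo

/-!
# The metric space of norms and the action of the general linear group
-/

set_option autoImplicit false

open scoped WithZero

namespace Pool.Agent.GLN

variable {E : Type} [Field E] {v : Valuation E ℤᵐ⁰} {n : ℕ}

/-! ### The metric -/

/-- The difference with the standard norm, as an element of a Banach space. -/
noncomputable def Nm.emb (w : Nm v n) : lp (fun _ : Fin n → E => ℝ) ⊤ :=
  ⟨fun x => w x - w0 v x, memℓp_infty (by
    obtain ⟨C, hC⟩ := w.bdd'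
    exact ⟨C, by rintro _ ⟨x, rfl⟩; exact hC x⟩)⟩

theorem Nm.emb_apply (w : Nm v n) (x : Fin n → E) : (w.emb : (Fin n → E) → ℝ) x = w x - w0 v x :=
  rfl

theorem Nm.emb_injective : Function.Injective (Nm.emb (v := v) (n := n)) := by
  intro w w' h
  refine DFunLike.ext _ _ fun x => ?_
  have h1 : (w.emb : (Fin n → E) → ℝ) x = (w'.emb : (Fin n → E) → ℝ) x := by rw [h]
  rw [Nm.emb_apply, Nm.emb_apply] at h1
  linarith

noncomputable instance : MetricSpace (Nm v n) :=
  MetricSpace.induced Nm.emb Nm.emb_injective inferInstance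

theorem Nm.dist_def (w w' : Nm v n) : dist w w' = dist w.emb w'.emb := rfl

theorem Nm.isometry_emb : Isometry (Nm.emb (v := v) (n := n)) := Isometry.of_dist_eq fun _ _ => rfl

theorem Nm.dist_le {w w' : Nm v n} {c : ℝ} (hc : 0 ≤ c) :
    dist w w' ≤ c ↔ ∀ x, x ≠ 0 → |w x - w' x| ≤ c := by
  rw [Nm.dist_def, dist_eq_norm]
  constructor
  · intro h x _
    have h1 := (lp.norm_apply_le_norm (by simp) (w.emb - w'.emb) x).trans h
    rw [lp.coeFn_sub, Pi.sub_apply, Nm.emb_apply, Nm.emb_apply, Real.norm_eq_abs] at h1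
    rwa [show w x - w0 v x - (w' x - w0 v x) = w x - w' x by ring] at h1
  · intro h
    refine lp.norm_le_of_forall_le hc fun x => ?_
    rw [lp.coeFn_sub, Pi.sub_apply, Nm.emb_apply, Nm.emb_apply, Real.norm_eq_abs,
      show w x - w0 v x - (w' x - w0 v x) = w x - w' x by ring]
    by_cases hx : x = 0
    · subst hx
      rw [Nm.zero, Nm.zero, sub_zero, abs_zero]
      exact hc
    · exact h x hx

theorem Nm.abs_sub_le_dist (w w' : Nm v n) (x : Fin n → E) : |w x - w' x| ≤ dist w w' := by
  by_cases hx : x = 0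
  · subst hx
    rw [Nm.zero, Nm.zero, sub_zero, abs_zero]
    exact dist_nonneg
  · exact (Nm.dist_le dist_nonneg).1 le_rfl x hx

theorem Nm.le_add_dist (w w' : Nm v n) (x : Fin n → E) : w x ≤ w' x + dist w w' := by
  have := (abs_le.1 (w.abs_sub_le_dist w' x)).2
  linarith

/-- The distance from a common orthogonal basis. -/
theorem Nm.Orth.dist_le {w w' : Nm v n} {b : Module.Basis (Fin n) E (Fin n → E)}
    (h : w.Orth b) (h' : w'.Orth b) {c : ℝ} (h0 : 0 ≤ c) (hc : ∀ i, |w (b i) - w' (b i)| ≤ c) :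
    dist w w' ≤ c :=
  (Nm.dist_le h0).2 fun _ hx => h.abs_sub_le h' hc hx

theorem Nm.Orth.exists_dist {w w' : Nm v n} {b : Module.Basis (Fin n) E (Fin n → E)}
    (h : w.Orth b) (h' : w'.Orth b) (hpos : 0 < dist w w') :
    ∃ i, |w (b i) - w' (b i)| = dist w w' := by
  by_contra hcon
  push Not at hcon
  have hlt : ∀ i, |w (b i) - w' (b i)| < dist w w' :=
    fun i => lt_of_le_of_ne (w.abs_sub_le_dist w' _) (hcon i)
  rcases isEmpty_or_nonempty (Fin n) with hn | hn
  · have : dist w w' ≤ 0 := h.dist_le h' le_rfl fun i => (IsEmpty.false i).elim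
    linarith
  · obtain ⟨i, -, hi⟩ := Finset.exists_max_image Finset.univ (fun i => |w (b i) - w' (b i)|)
      Finset.univ_nonempty
    have := h.dist_le h' (abs_nonneg (w (b i) - w' (b i))) fun j => hi j (Finset.mem_univ j)
    linarith [hlt i]

theorem Nm.dist_shift (w : Nm v n) (c : ℝ) : dist (w.shift c) w ≤ |c| := by
  rw [Nm.dist_le (abs_nonneg c)]
  intro x hx
  rw [Nm.shift_apply _ _ hx, add_sub_cancel_left]

theorem Nm.abs_vol_sub_le (w w' : Nm v n) : |w.vol - w'.vol| ≤ n * dist w w' := by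
  rw [abs_le]
  constructor
  · have := Nm.vol_le_add (w := w) (w' := w') (c := dist w w') fun x _ => by
      rw [dist_comm]
      exact w'.le_add_dist w x
    linarith
  · have := Nm.vol_le_add (w := w') (w' := w) (c := dist w w') fun x _ => w.le_add_dist w' x
    linarith

/-- Geodesics are conical. -/
theorem Nm.dist_geo_geo (w w' u u' : Nm v n) {t : ℝ} (h0 : 0 ≤ t) (h1 : t ≤ 1) :
    dist (w.geo w' t) (u.geo u' t) ≤ (1 - t) * dist w u + t * dist w' u' := by
  have hc : 0 ≤ (1 - t) * dist w u + t * dist w' u' :=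
    add_nonneg (mul_nonneg (by linarith) dist_nonneg) (mul_nonneg h0 dist_nonneg)
  rw [Nm.dist_le hc]
  intro x hx
  rw [abs_le]
  constructor
  · have := Nm.geo_mono (w := w) (w' := w') (u := u) (u' := u') (a := dist w u)
      (a' := dist w' u') h0 h1 (fun y _ => by
        have := u.le_add_dist w y
        rw [dist_comm u w] at this
        linarith) (fun y _ => by
        have := u'.le_add_dist w' y
        rw [dist_comm u' w'] at this
        linarith) hx
    linarith
  · have := Nm.geo_mono (w := u) (w' := u') (u := w) (u' := w') (a := dist w u)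
      (a' := dist w' u') h0 h1 (fun y _ => by
        have := w.le_add_dist u y
        linarith) (fun y _ => by
        have := w'.le_add_dist u' y
        linarith) hx
    linarith

theorem Nm.dist_geo_left (w w' : Nm v n) {s t : ℝ} (hs : 0 ≤ s) (hs' : s ≤ 1) (ht : 0 ≤ t)
    (ht' : t ≤ 1) : dist (w.geo w' s) (w.geo w' t) = |s - t| * dist w w' := by
  obtain ⟨b, hb, hb'⟩ := w.exists_orth_pair w'
  have h1 := hb.geo hb' hs hs'
  have h2 := hb.geo hb' ht ht'
  have h3 : ∀ i, |w.geo w' s (b i) - w.geo w' t (b i)| = |s - t| * |w (b i) - w' (b i)| := by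
    intro i
    rw [Nm.geo_basis hb hb' hs hs', Nm.geo_basis hb hb' ht ht', ← abs_mul,
      show (1 - s) * w (b i) + s * w' (b i) - ((1 - t) * w (b i) + t * w' (b i)) =
        -((s - t) * (w (b i) - w' (b i))) by ring, abs_neg]
  refine le_antisymm (h1.dist_le h2 (mul_nonneg (abs_nonneg _) dist_nonneg) fun i => ?_) ?_
  · rw [h3]
    exact mul_le_mul_of_nonneg_left (w.abs_sub_le_dist w' _) (abs_nonneg _)
  · rcases eq_or_lt_of_le (dist_nonneg (x := w) (y := w')) with h4 | h4
    · rw [← h4, mul_zero]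
      exact dist_nonneg
    · obtain ⟨i, hi⟩ := hb.exists_dist hb' h4
      rw [← hi, ← h3]
      exact Nm.abs_sub_le_dist _ _ _

theorem Nm.dist_left_geo (w w' : Nm v n) {t : ℝ} (ht : 0 ≤ t) (ht' : t ≤ 1) :
    dist w (w.geo w' t) = t * dist w w' := by
  have := w.dist_geo_left w' le_rfl zero_le_one ht ht'
  rwa [Nm.geo_zero, zero_sub, abs_neg, abs_of_nonneg ht] at this

/-! ### Completeness -/

theorem Nm.isClosed_range_emb : IsClosed (Set.range (Nm.emb (v := v) (n := n))) := by
  rw [← isSeqClosed_iff_isClosed]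
  intro u f hu hf
  choose w hw using hu
  -- pointwise convergence
  have hp : ∀ x, Filter.Tendsto (fun k => w k x) Filter.atTop (nhds ((f : (Fin n → E) → ℝ) x +
      w0 v x)) := by
    intro x
    have h1 : Filter.Tendsto (fun k => (u k : (Fin n → E) → ℝ) x) Filter.atTop
        (nhds ((f : (Fin n → E) → ℝ) x)) := by
      rw [tendsto_iff_dist_tendsto_zero] at hf ⊢
      refine squeeze_zero (fun k => dist_nonneg) (fun k => ?_) hf
      rw [dist_eq_norm, dist_eq_norm]
      have := lp.norm_apply_le_norm (by simp) (u k - f) x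
      rwa [lp.coeFn_sub, Pi.sub_apply] at this
    have h2 := h1.add_const (w0 v x)
    refine h2.congr fun k => ?_
    rw [← hw k, Nm.emb_apply]
    ring
  let z : Nm v n :=
    { toFun := fun x => (f : (Fin n → E) → ℝ) x + w0 v x
      zero' := by
        have h1 := hp 0
        simp only [Nm.zero] at h1
        exact tendsto_nhds_unique h1 tendsto_const_nhds
      add' := by
        intro x y hx hy hxy
        exact le_of_tendsto_of_tendsto' ((hp x).min (hp y)) (hp (x + y))
          fun k => (w k).add hx hy hxy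
      smul' := by
        intro a x ha hx
        refine tendsto_nhds_unique (hp (a • x)) ?_
        refine ((hp x).const_add (od v a)).congr fun k => ?_
        rw [(w k).smul ha hx]
      bdd' := by
        refine ⟨‖f‖, fun x => ?_⟩
        rw [add_sub_cancel_right]
        exact lp.norm_apply_le_norm (by simp) f x }
  refine ⟨z, ?_⟩
  refine Subtype.ext (funext fun x => ?_)
  show (f : (Fin n → E) → ℝ) x + w0 v x - w0 v x = _
  rw [add_sub_cancel_right]

instance : CompleteSpace (Nm v n) :=
  (completeSpace_iff_isComplete_range Nm.isometry_emb.isUniformInducing).2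
    Nm.isClosed_range_emb.isComplete

/-! ### The action of the general linear group -/

/-- The linear automorphism of an invertible matrix. -/
def mvE (g : GL (Fin n) E) : (Fin n → E) ≃ₗ[E] (Fin n → E) :=
  LinearEquiv.ofLinearMap g.1.mulVecLin (g⁻¹).1.mulVecLin
    (by rw [← Matrix.mulVecLin_mul, ← Units.val_mul, mul_inv_cancel, Units.val_one,
      Matrix.mulVecLin_one])
    (by rw [← Matrix.mulVecLin_mul, ← Units.val_mul, inv_mul_cancel, Units.val_one,
      Matrix.mulVecLin_one])

@[simp] theorem mvE_apply (g : GL (Fin n) E) (x : Fin n → E) : mvE g x = g.1.mulVec x := rfl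

@[simp] theorem mvE_symm_apply (g : GL (Fin n) E) (x : Fin n → E) :
    (mvE g).symm x = (g⁻¹).1.mulVec x := rfl

theorem inv_mulVec_ne_zero (g : GL (Fin n) E) {x : Fin n → E} (hx : x ≠ 0) :
    (g⁻¹).1.mulVec x ≠ 0 := by
  rw [← mvE_symm_apply]
  exact (LinearEquiv.map_ne_zero_iff (mvE g).symm).2 hx

theorem Nm.eq_dg {w : Nm v n} {b : Module.Basis (Fin n) E (Fin n → E)} (h : w.Orth b)
    (x : Fin n → E) : w x = dg v b (fun i => w (b i)) x := by
  conv_lhs => rw [h.eq_dgN]
  rfl

noncomputable instance : SMul (GL (Fin n) E) (Nm v n) where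
  smul g w :=
    { toFun := fun x => w ((g⁻¹).1.mulVec x)
      zero' := by rw [Matrix.mulVec_zero, Nm.zero]
      add' := by
        intro x y hx hy hxy
        rw [Matrix.mulVec_add]
        refine w.add (inv_mulVec_ne_zero g hx) (inv_mulVec_ne_zero g hy) ?_
        rw [← Matrix.mulVec_add]
        exact inv_mulVec_ne_zero g hxy
      smul' := by
        intro a x ha hx
        rw [Matrix.mulVec_smul]
        exact w.smul ha (inv_mulVec_ne_zero g hx)
      bdd' := by
        obtain ⟨b, hb⟩ := w.exists_orth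
        obtain ⟨C, hC⟩ := dg_bdd v (b.map (mvE g)) fun i => w (b i)
        refine ⟨C, fun x => ?_⟩
        have h1 : w ((g⁻¹).1.mulVec x) = dg v (b.map (mvE g)) (fun i => w (b i)) x := by
          rw [Nm.eq_dg hb]
          rfl
        rw [h1]
        exact hC x }

@[simp] theorem Nm.smul_apply (g : GL (Fin n) E) (w : Nm v n) (x : Fin n → E) :
    (g • w) x = w ((g⁻¹).1.mulVec x) := rfl

noncomputable instance : MulAction (GL (Fin n) E) (Nm v n) where
  one_smul w := by
    refine DFunLike.ext _ _ fun x => ?_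
    rw [Nm.smul_apply, inv_one, Units.val_one, Matrix.one_mulVec]
  mul_smul g h w := by
    refine DFunLike.ext _ _ fun x => ?_
    rw [Nm.smul_apply, Nm.smul_apply, Nm.smul_apply, mul_inv_rev, Units.val_mul,
      Matrix.mulVec_mulVec]

theorem Nm.smul_mulVec (g : GL (Fin n) E) (w : Nm v n) (x : Fin n → E) :
    (g • w) (g.1.mulVec x) = w x := by
  rw [Nm.smul_apply, Matrix.mulVec_mulVec, ← Units.val_mul, inv_mul_cancel, Units.val_one,
    Matrix.one_mulVec]

theorem Nm.Orth.smul {w : Nm v n} {b : Module.Basis (Fin n) E (Fin n → E)} (h : w.Orth b)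
    (g : GL (Fin n) E) : (g • w).Orth (b.map (mvE g)) := by
  intro x i hi
  have h1 : ((b.map (mvE g)).repr x) i = b.repr ((g⁻¹).1.mulVec x) i := rfl
  rw [h1] at hi ⊢
  rw [Module.Basis.map_apply, mvE_apply, Nm.smul_mulVec, Nm.smul_apply]
  exact h _ i hi

theorem Nm.dist_smul_smul (g : GL (Fin n) E) (w w' : Nm v n) : dist (g • w) (g • w') = dist w w' := by
  have key : ∀ (g : GL (Fin n) E) (w w' : Nm v n), dist (g • w) (g • w') ≤ dist w w' := by
    intro g w w'
    rw [Nm.dist_le dist_nonneg]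
    intro x _
    exact w.abs_sub_le_dist w' _
  refine le_antisymm (key g w w') ?_
  have := key g⁻¹ (g • w) (g • w')
  rwa [inv_smul_smul, inv_smul_smul] at this

instance : IsIsometricSMul (GL (Fin n) E) (Nm v n) :=
  ⟨fun g => Isometry.of_dist_eq fun w w' => Nm.dist_smul_smul g w w'⟩

theorem Nm.smul_geo (g : GL (Fin n) E) (w w' : Nm v n) {t : ℝ} (h0 : 0 ≤ t) (h1 : t ≤ 1) :
    g • w.geo w' t = (g • w).geo (g • w') t := by
  obtain ⟨b, hb, hb'⟩ := w.exists_orth_pair w'
  refine ((hb.geo hb' h0 h1).smul g).ext ((hb.smul g).geo (hb'.smul g) h0 h1) fun i => ?_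
  rw [Nm.geo_basis (hb.smul g) (hb'.smul g) h0 h1, Module.Basis.map_apply, mvE_apply,
    Nm.smul_mulVec, Nm.smul_mulVec, Nm.smul_mulVec, Nm.geo_basis hb hb' h0 h1]

theorem bdet_map (g : GL (Fin n) E) (b : Module.Basis (Fin n) E (Fin n → E)) :
    bdet (b.map (mvE g)) = g.1.det * bdet b := by
  unfold bdet
  rw [Module.Basis.det_apply, Module.Basis.det_apply, ← Matrix.det_mul]
  congr 1

theorem Nm.vol_smul (g : GL (Fin n) E) (w : Nm v n) : (g • w).vol = w.vol - od v g.1.det := by
  obtain ⟨b, hb⟩ := w.exists_orth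
  have h1 : g.1.det ≠ 0 := ((Matrix.isUnit_iff_isUnit_det _).1 g.isUnit).ne_zero
  rw [(hb.smul g).vol_eq, hb.vol_eq, bdet_map, od_mul h1 (bdet_ne_zero b)]
  simp only [Module.Basis.map_apply, mvE_apply, Nm.smul_mulVec]
  ring

theorem Nm.vol_smul_of_det (g : GL (Fin n) E) (hg : g.1.det = 1) (w : Nm v n) :
    (g • w).vol = w.vol := by
  rw [Nm.vol_smul, hg, od_one, sub_zero]

/-! ### The action of the special linear group -/

noncomputable instance : MulAction (Matrix.SpecialLinearGroup (Fin n) E) (Nm v n) :=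
  MulAction.compHom (Nm v n)
    (Matrix.SpecialLinearGroup.toGL : Matrix.SpecialLinearGroup (Fin n) E →* GL (Fin n) E)

theorem Nm.sl_smul_def (g : Matrix.SpecialLinearGroup (Fin n) E) (w : Nm v n) :
    g • w = (Matrix.SpecialLinearGroup.toGL g : GL (Fin n) E) • w := rfl

theorem Nm.sl_smul_apply (g : Matrix.SpecialLinearGroup (Fin n) E) (w : Nm v n)
    (x : Fin n → E) : (g • w) x = w ((g⁻¹).1.mulVec x) := by
  rw [Nm.sl_smul_def, Nm.smul_apply, ← map_inv]
  rfl

theorem Nm.sl_smul_mulVec (g : Matrix.SpecialLinearGroup (Fin n) E) (w : Nm v n)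
    (x : Fin n → E) : (g • w) (g.1.mulVec x) = w x :=
  Nm.smul_mulVec (Matrix.SpecialLinearGroup.toGL g) w x

theorem Nm.vol_sl_smul (g : Matrix.SpecialLinearGroup (Fin n) E) (w : Nm v n) :
    (g • w).vol = w.vol :=
  Nm.vol_smul_of_det (Matrix.SpecialLinearGroup.toGL g) g.2 w

theorem Nm.sl_smul_geo (g : Matrix.SpecialLinearGroup (Fin n) E) (w w' : Nm v n) {t : ℝ}
    (h0 : 0 ≤ t) (h1 : t ≤ 1) : g • w.geo w' t = (g • w).geo (g • w') t :=
  Nm.smul_geo (Matrix.SpecialLinearGroup.toGL g) w w' h0 h1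

instance : IsIsometricSMul (Matrix.SpecialLinearGroup (Fin n) E) (Nm v n) :=
  ⟨fun g => Isometry.of_dist_eq fun w w' =>
    Nm.dist_smul_smul (Matrix.SpecialLinearGroup.toGL g) w w'⟩

end Pool.Agent.GLN
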