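import Pool.Agent.Lib.MP_98022b_gln.NormBasis
import Pool.Agent.Lib.MP_98022b_gln.Gram

/-!
# The volume of a norm
-/

set_option autoImplicit false

open scoped WithZero

namespace Pool.Agent.GLN

variable {E : Type} [Field E] {v : Valuation E ℤᵐ⁰} {n : ℕ}

/-- The determinant of a basis. -/
noncomputable def bdet (b : Module.Basis (Fin n) E (Fin n → E)) : E :=
  (Pi.basisFun E (Fin n)).det b

theorem bdet_ne_zero (b : Module.Basis (Fin n) E (Fin n → E)) : bdet b ≠ 0 :=
  ((Pi.basisFun E (Fin n)).isUnit_det b).ne_zero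

theorem bdet_mul (b b' : Module.Basis (Fin n) E (Fin n → E)) :
    bdet b * (b.toMatrix b').det = bdet b' := by
  unfold bdet
  rw [Module.Basis.det_apply, Module.Basis.det_apply, ← Matrix.det_mul,
    Module.Basis.toMatrix_mul_toMatrix]

theorem bdet_std : bdet (Pi.basisFun E (Fin n)) = 1 := by
  unfold bdet
  rw [Module.Basis.det_self]

/-- The volume defined with the basis `b`. -/
noncomputable def Nm.volB (w : Nm v n) (b : Module.Basis (Fin n) E (Fin n → E)) : ℝ :=
  ∑ i, w (b i) - od v (bdet b)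

theorem Nm.Orth.volB_le {w : Nm v n} {b : Module.Basis (Fin n) E (Fin n → E)} (h : w.Orth b)
    (b' : Module.Basis (Fin n) E (Fin n → E)) : w.volB b' ≤ w.volB b := by
  have h1 := bdet_mul b b'
  have hA : (b.toMatrix b').det ≠ 0 := by
    intro h0
    rw [h0, mul_zero] at h1
    exact bdet_ne_zero b' h1.symm
  -- scale the entries
  have h2 : OB v (∑ j, w (b' j) - ∑ i, w (b i)) (b.toMatrix b').det := by
    rw [Matrix.det_apply]
    refine OB.sum _ _ fun σ _ => OB.sign σ ?_
    have h3 : ∑ j, w (b' j) - ∑ i, w (b i) = ∑ j, (w (b' j) - w (b (σ j))) := by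
      rw [Finset.sum_sub_distrib, Equiv.sum_comp σ fun i => w (b i)]
    rw [h3]
    refine OB.prod _ _ _ fun j _ => ?_
    intro hj
    have h4 := h (b' j) (σ j) hj
    show w (b' j) - w (b (σ j)) ≤ od v (b.toMatrix b' (σ j) j)
    rw [Module.Basis.toMatrix_apply]
    linarith
  have h3 : ∑ j, w (b' j) - ∑ i, w (b i) ≤ od v (b.toMatrix b').det := h2 hA
  unfold Nm.volB
  rw [← h1, od_mul (bdet_ne_zero b) hA]
  linarith

/-- The volume of a norm. -/
noncomputable def Nm.vol (w : Nm v n) : ℝ := w.volB w.exists_orth.choose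

theorem Nm.volB_le_vol (w : Nm v n) (b : Module.Basis (Fin n) E (Fin n → E)) :
    w.volB b ≤ w.vol := w.exists_orth.choose_spec.volB_le b

theorem Nm.Orth.vol_eq {w : Nm v n} {b : Module.Basis (Fin n) E (Fin n → E)} (h : w.Orth b) :
    w.vol = ∑ i, w (b i) - od v (bdet b) := le_antisymm (h.volB_le _) (w.volB_le_vol b)

theorem vol_nm0 : (nm0 v n).vol = 0 := by
  rw [(nm0_orth (v := v) (n := n)).vol_eq, bdet_std, od_one, sub_zero]
  exact Finset.sum_eq_zero fun i _ => nm0_basis i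

/-- Two norms: the differences on a common orthogonal basis. -/
theorem Nm.vol_sub {w w' : Nm v n} {b : Module.Basis (Fin n) E (Fin n → E)} (h : w.Orth b)
    (h' : w'.Orth b) : w'.vol - w.vol = ∑ i, (w' (b i) - w (b i)) := by
  rw [h.vol_eq, h'.vol_eq, Finset.sum_sub_distrib]
  ring

theorem Nm.vol_mono {w w' : Nm v n} (h : ∀ x, x ≠ 0 → w x ≤ w' x) : w.vol ≤ w'.vol := by
  obtain ⟨b, hb, hb'⟩ := w.exists_orth_pair w'
  have h1 := Nm.vol_sub hb hb'
  have h2 : 0 ≤ ∑ i, (w' (b i) - w (b i)) :=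
    Finset.sum_nonneg fun i _ => sub_nonneg.2 (h _ (b.ne_zero i))
  linarith

/-- The difference of two norms is bounded by its values on a basis which is orthogonal for the
second one. -/
theorem Nm.Orth.sub_le {w w' : Nm v n} {b : Module.Basis (Fin n) E (Fin n → E)} (h : w'.Orth b)
    {c : ℝ} (hc : ∀ i, w' (b i) - c ≤ w (b i)) {x : Fin n → E} (hx : x ≠ 0) : w' x - c ≤ w x := by
  refine w.le_of_coord b hx fun i hi => ?_
  have h1 := h x i hi
  have h2 := hc i
  linarith

/-- If `w ≤ w'` then `w' - w ≤ vol w' - vol w`. -/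
theorem Nm.sub_le_vol {w w' : Nm v n} (h : ∀ x, x ≠ 0 → w x ≤ w' x) {x : Fin n → E}
    (hx : x ≠ 0) : w' x - w x ≤ w'.vol - w.vol := by
  obtain ⟨b, hb, hb'⟩ := w.exists_orth_pair w'
  rw [Nm.vol_sub hb hb']
  have h1 : ∀ i, w' (b i) - (∑ i, (w' (b i) - w (b i))) ≤ w (b i) := by
    intro i
    have h2 : w' (b i) - w (b i) ≤ ∑ i, (w' (b i) - w (b i)) :=
      Finset.single_le_sum (f := fun i => w' (b i) - w (b i))
        (fun j _ => sub_nonneg.2 (h _ (b.ne_zero j))) (Finset.mem_univ i)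
    linarith
  have h2 := hb'.sub_le h1 hx
  linarith

/-- The volume is `n`-Lipschitz. -/
theorem Nm.vol_le_add {w w' : Nm v n} {c : ℝ} (h : ∀ x, x ≠ 0 → w' x ≤ w x + c) :
    w'.vol ≤ w.vol + n * c := by
  obtain ⟨b, hb, hb'⟩ := w.exists_orth_pair w'
  have h1 := Nm.vol_sub hb hb'
  have h2 : ∑ i, (w' (b i) - w (b i)) ≤ ∑ _i : Fin n, c :=
    Finset.sum_le_sum fun i _ => by
      have := h _ (b.ne_zero i)
      linarith
  rw [Finset.sum_const, Finset.card_univ, Fintype.card_fin, nsmul_eq_mul] at h2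
  linarith

end Pool.Agent.GLN
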