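import Pool.Agent.Lib.MP_98022b_h71.Defs

/-!
# Groups of matrices with an invariant subspace

Row GB4. `H` acts on `W` and on the quotient by `W`; the kernel of the homomorphism to
`GL (W) × GL (F ^ n / W)` (both embed in some `GL_m (F)`, `m < n`, by a basis) is commutative:
`g - 1` maps `F ^ n` to `W` and `W` to `0`, so `(g - 1) * (h - 1) = 0`. Extension property with
solvable preimages of cyclic groups.
-/

set_option autoImplicit false

namespace Pool.Agent.GLN

open Pool.Agent.FJ

variable {P : ∀ (G : Type) [Group G], Prop}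

/-- The preimages of cyclic groups are solvable if the kernel is. -/
theorem solvable_comap {G Q : Type} [Group G] [Group Q] (f : G →* Q)
    (hf : Group.IsSolvable f.ker) (q : Q) : Group.IsSolvable ((Subgroup.zpowers q).comap f) := by
  have h1 : Group.IsSolvable (Subgroup.zpowers q) := by
    refine Group.isSolvable_of_comm (fun a b => ?_)
    obtain ⟨a, i, rfl⟩ := a
    obtain ⟨b, j, rfl⟩ := b
    apply Subtype.ext
    show q ^ i * q ^ j = q ^ j * q ^ i
    rw [← zpow_add, ← zpow_add, add_comm]
  let ι : f.ker →* ((Subgroup.zpowers q).comap f) :=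
    Subgroup.inclusion (fun x hx => by
      have hx' : f x = 1 := hx
      show f x ∈ Subgroup.zpowers q
      rw [hx']
      exact one_mem _)
  let φ : ((Subgroup.zpowers q).comap f) →* (Subgroup.zpowers q) :=
    (f.comp ((Subgroup.zpowers q).comap f).subtype).codRestrict (Subgroup.zpowers q) (fun x => x.2)
  refine Group.isSolvable_of_ker_le_range ι φ (fun x hx => ?_)
  have hx' : f x.1 = 1 := by
    have := congrArg Subtype.val (MonoidHom.mem_ker.1 hx)
    exact this
  exact ⟨⟨x.1, hx'⟩, Subtype.ext rfl⟩

private theorem mem_units_end (hP : IsFJClass P) {F : Type} [Field F] {n : ℕ}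
    (hF : ∀ m < n, P (GL (Fin m) F)) (V : Type) [AddCommGroup V] [Module F V]
    [Module.Finite F V] (hV : Module.finrank F V < n) : P (Module.End F V)ˣ :=
  hP.of_equiv (Units.mapEquiv
    (algEquivMatrix (Module.finBasis F V)).toRingEquiv.toMulEquiv) (hF _ hV)

theorem mem_of_subspace (hP : IsFJClass P) (hsol : ∀ (G : Type) [Group G], Group.IsSolvable G → P G)
    {F : Type} [Field F] {n : ℕ} (hF : ∀ m < n, P (GL (Fin m) F)) (H : Subgroup (GL (Fin n) F))
    (W : Submodule F (Fin n → F)) (h0 : W ≠ ⊥) (h1 : W ≠ ⊤)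
    (hW : ∀ g ∈ H, ∀ x ∈ W, g.1.mulVec x ∈ W) : P H := by
  classical
  have hle : ∀ g : H, W ≤ W.comap (Matrix.toLin' g.1.1) := fun g x hx => by
    rw [Submodule.mem_comap, Matrix.toLin'_apply]
    exact hW g.1 g.2 x hx
  -- the actions
  let r₁ : H →* Module.End F W :=
    { toFun := fun g => (Matrix.toLin' g.1.1).restrict (hle g)
      map_one' := by
        ext x i
        simp
      map_mul' := fun g h => by
        ext x i
        simp [Matrix.toLin'_mul] }
  let r₂ : H →* Module.End F ((Fin n → F) ⧸ W) :=
    { toFun := fun g => W.mapQ W (Matrix.toLin' g.1.1) (hle g)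
      map_one' := by
        ext x
        simp
      map_mul' := fun g h => by
        ext x
        simp [Matrix.toLin'_mul] }
  let f : H →* (Module.End F W)ˣ × (Module.End F ((Fin n → F) ⧸ W))ˣ :=
    r₁.toHomUnits.prod r₂.toHomUnits
  have hfin : Module.finrank F (Fin n → F) = n := by simp
  have hQ : P ((Module.End F W)ˣ × (Module.End F ((Fin n → F) ⧸ W))ˣ) := by
    refine hP.prod (mem_units_end hP hF W ?_) (mem_units_end hP hF _ ?_)
    · have := Submodule.finrank_lt h1
      omega
    · have e1 := Submodule.finrank_quotient_add_finrank W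
      have e2 : 0 < Module.finrank F W := by
        have : Nontrivial W := Submodule.nontrivial_iff_ne_bot.2 h0
        exact Module.finrank_pos
      omega
  refine hP.extension f hQ (fun q => hsol _ (solvable_comap f ?_ q))
  have hker : ∀ g : H, g ∈ f.ker → (∀ x ∈ W, g.1.1.mulVec x = x) ∧
      ∀ x, g.1.1.mulVec x - x ∈ W := by
    intro g hg
    have hg' : f g = 1 := hg
    have e1 : r₁ g = 1 := by
      have := congrArg (fun z => ((z.1 : (Module.End F W)ˣ) : Module.End F W)) hg'
      exact this
    have e2 : r₂ g = 1 := by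
      have := congrArg (fun z => ((z.2 : (Module.End F ((Fin n → F) ⧸ W))ˣ) :
        Module.End F ((Fin n → F) ⧸ W))) hg'
      exact this
    constructor
    · intro x hx
      have := congrArg (fun z : Module.End F W => ((z ⟨x, hx⟩ : W) : Fin n → F)) e1
      exact this
    · intro x
      have h3 : r₂ g (Submodule.Quotient.mk x) = Submodule.Quotient.mk x := by rw [e2]; rfl
      have h4 : r₂ g (Submodule.Quotient.mk x) = Submodule.Quotient.mk (g.1.1.mulVec x) := by
        show W.mapQ W (Matrix.toLin' g.1.1) (hle g) (Submodule.Quotient.mk x) = _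
        rw [Submodule.mapQ_apply, Matrix.toLin'_apply]
      rw [h4] at h3
      exact (Submodule.Quotient.eq W).1 h3
  have hprod : ∀ g h : H, g ∈ f.ker → h ∈ f.ker → ∀ x,
      (g.1.1 * h.1.1).mulVec x = g.1.1.mulVec x + h.1.1.mulVec x - x := by
    intro g h hg hh x
    have e1 := (hker g hg).1 _ ((hker h hh).2 x)
    rw [Matrix.mulVec_sub, Matrix.mulVec_mulVec] at e1
    rw [sub_eq_iff_eq_add.1 e1]
    abel
  refine Group.isSolvable_of_comm (fun a b => ?_)
  apply Subtype.ext
  apply Subtype.ext
  apply Units.ext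
  show a.1.1.1 * b.1.1.1 = b.1.1.1 * a.1.1.1
  refine Matrix.toLin'.injective (LinearMap.ext fun x => ?_)
  rw [Matrix.toLin'_apply, Matrix.toLin'_apply, hprod _ _ a.2 b.2, hprod _ _ b.2 a.2]
  abel

end Pool.Agent.GLN
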