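import Pool.Agent.Lib.MP_98022b_gln.AvoidScalar
import Pool.Agent.Lib.MP_98022b_gln.SubStab

/-!
# From groups of matrices of determinant one to all groups of matrices

Row GB12. `mem_PGL_of_SL`: as `mem_PGL_closed` in `MP_98022b_gl/PGLField.lean`: lift the elements of a
finite set to matrices of determinant `1` (divide by a root of order `n` of the determinant);
`exists_avoid_scalar` gives a subgroup of finite index which embeds in the projective group
(`n = 0`: trivial group). `mem_GL_of_PGL`: the kernel of `GL_n → PGL_n` is the centre; extension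
property with `solvable_comap`.
-/

set_option autoImplicit false

namespace Pool.Agent.GLN

open Pool.Agent.FJ

variable {P : ∀ (G : Type) [Group G], Prop}

private theorem GB12_lift {F : Type} [Field F] [IsAlgClosed F] {n : ℕ} (hn : 0 < n)
    (x : Matrix.ProjGenLinGroup (Fin n) F) :
    ∃ M : GL (Fin n) F, Matrix.ProjGenLinGroup.mk M = x ∧ M.1.det = 1 := by
  obtain ⟨M, rfl⟩ := Matrix.ProjGenLinGroup.mk_surjective x
  have hd : M.1.det ≠ 0 := ((Matrix.isUnit_iff_isUnit_det _).1 M.isUnit).ne_zero
  obtain ⟨c, hc⟩ := IsAlgClosed.exists_pow_nat_eq (M.1.det)⁻¹ hn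
  have hc0 : c ≠ 0 := by
    rintro rfl
    rw [zero_pow hn.ne'] at hc
    exact inv_ne_zero hd hc.symm
  refine ⟨M * Matrix.GeneralLinearGroup.scalar (Fin n) (Units.mk0 c hc0), ?_, ?_⟩
  · rw [map_mul, Matrix.ProjGenLinGroup.mk_scalar, mul_one]
  · rw [Units.val_mul, Matrix.det_mul]
    have h1 : (Matrix.GeneralLinearGroup.scalar (Fin n) (Units.mk0 c hc0)).1.det = c ^ n := by
      show (Matrix.scalar (Fin n) c).det = c ^ n
      rw [Matrix.scalar_apply, Matrix.det_diagonal]
      simp
    rw [h1, hc, mul_inv_cancel₀ hd]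

private theorem GB12_scalar {F : Type} [Field F] {n : ℕ} {M : GL (Fin n) F} (hM : M.1.det = 1)
    (h : (Matrix.ProjGenLinGroup.mk M : Matrix.ProjGenLinGroup (Fin n) F) = 1) :
    ∃ c : F, c ^ n = 1 ∧ M.1 = c • 1 := by
  rw [Matrix.ProjGenLinGroup.mk_eq_one,
    Matrix.GeneralLinearGroup.mem_center_iff_val_mem_range_scalar] at h
  obtain ⟨c, hc⟩ := h
  refine ⟨c, ?_, ?_⟩
  · rw [← hc, Matrix.scalar_apply, Matrix.det_diagonal] at hM
    simpa using hM
  · rw [← hc, Matrix.scalar_apply, Matrix.smul_one_eq_diagonal]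

theorem mem_PGL_of_SL (hP : IsFJClass P) {F : Type} [Field F] [IsAlgClosed F] {n : ℕ}
    (h : ∀ s : Finset (GL (Fin n) F), (∀ M ∈ s, M.1.det = 1) →
      P (Subgroup.closure (s : Set (GL (Fin n) F)))) :
    P (Matrix.ProjGenLinGroup (Fin n) F) := by
  classical
  rcases Nat.eq_zero_or_pos n with rfl | hn
  · have hsub : Subsingleton (GL (Fin 0) F) := inferInstance
    have : Subsingleton (Matrix.ProjGenLinGroup (Fin 0) F) := by
      refine ⟨fun x y => ?_⟩
      obtain ⟨M, rfl⟩ := Matrix.ProjGenLinGroup.mk_surjective x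
      obtain ⟨N, rfl⟩ := Matrix.ProjGenLinGroup.mk_surjective y
      rw [Subsingleton.elim M N]
    exact hP.of_subsingleton
  choose L hL hdet using GB12_lift (F := F) hn
  refine hP.locally fun S => ?_
  set s : Finset (GL (Fin n) F) := S.image L with hs
  have hPH := h s (by
    intro M hM
    rw [hs, Finset.mem_image] at hM
    obtain ⟨x, _, rfl⟩ := hM
    exact hdet x)
  set H : Subgroup (GL (Fin n) F) := Subgroup.closure (s : Set (GL (Fin n) F)) with hH
  have hH1 : ∀ M ∈ H, M.1.det = 1 := by
    intro M hM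
    have h1 : H ≤ (Matrix.GeneralLinearGroup.det (n := Fin n) (R := F)).ker := by
      rw [hH, Subgroup.closure_le]
      intro M hM
      rw [hs, Finset.coe_image] at hM
      obtain ⟨x, _, rfl⟩ := hM
      rw [SetLike.mem_coe, MonoidHom.mem_ker]
      apply Units.ext
      exact hdet x
    exact congrArg Units.val (h1 hM)
  let π : GL (Fin n) F →* Matrix.ProjGenLinGroup (Fin n) F := Matrix.ProjGenLinGroup.mk
  refine ⟨H.map π, fun x hx => ?_, ?_⟩
  · exact ⟨L x, Subgroup.subset_closure (by
      rw [hs, Finset.coe_image]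
      exact ⟨x, hx, rfl⟩), hL x⟩
  · obtain ⟨N, hN, hN1⟩ : ∃ N : Subgroup H, N.FiniteIndex ∧
        ∀ x ∈ N, π (x : GL (Fin n) F) = 1 → x = 1 := by
      obtain ⟨N, hN, hN1⟩ := exists_avoid_scalar hn s
      refine ⟨N, hN, fun x hx hx1 => ?_⟩
      obtain ⟨c, hc, hxc⟩ := GB12_scalar (hH1 x x.2) hx1
      have hc1 := hN1 x hx c hc hxc
      apply Subtype.ext
      apply Units.ext
      rw [hxc, hc1, one_smul]
      rfl
    have hPN : P N := hP.subgroup N hPH
    have hsur : Function.Surjective (π.subgroupMap H) := π.subgroupMap_surjective H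
    have hfin : (N.map (π.subgroupMap H)).FiniteIndex := by
      refine ⟨fun h0 => hN.index_ne_zero ?_⟩
      have := Subgroup.index_map_dvd N hsur
      rw [h0] at this
      exact zero_dvd_iff.1 this
    refine hP.of_finiteIndex _ hfin ?_
    have hinj : Function.Injective ((π.subgroupMap H).subgroupMap N) := by
      rw [injective_iff_map_eq_one]
      intro a ha
      have h1 : π ((a : H) : GL (Fin n) F) = 1 := by
        have h2 := congrArg (fun z : N.map (π.subgroupMap H) =>
          ((z : H.map π) : Matrix.ProjGenLinGroup (Fin n) F)) ha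
        exact h2
      exact Subtype.ext (hN1 a a.2 h1)
    exact hP.of_equiv (MulEquiv.ofBijective _
      ⟨hinj, (π.subgroupMap H).subgroupMap_surjective N⟩).symm hPN

theorem mem_GL_of_PGL (hP : IsFJClass P) (hsol : ∀ (G : Type) [Group G], Group.IsSolvable G → P G)
    {R : Type} [CommRing R] {n : ℕ} (h : P (Matrix.ProjGenLinGroup (Fin n) R)) :
    P (GL (Fin n) R) := by
  refine hP.extension (Matrix.ProjGenLinGroup.mk : GL (Fin n) R →* _) h fun q =>
    hsol _ (solvable_comap _ ?_ q)
  have hcomm : ∀ a b : (Matrix.ProjGenLinGroup.mk : GL (Fin n) R →*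
      Matrix.ProjGenLinGroup (Fin n) R).ker, a * b = b * a := by
    intro a b
    have ha : (a : GL (Fin n) R) ∈ Subgroup.center (GL (Fin n) R) := by
      have := a.2
      rwa [MonoidHom.mem_ker, Matrix.ProjGenLinGroup.mk_eq_one] at this
    apply Subtype.ext
    exact (Subgroup.mem_center_iff.1 ha b).symm
  exact Group.isSolvable_of_comm hcomm

end Pool.Agent.GLN
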