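import Pool.Agent.Lib.MP_98022b_gl.InfPlaces
import Pool.Agent.Lib.MP_98022b_gl.PlaceBound
import Pool.Agent.Lib.MP_98022b_gln.FewFunctions

/-!
# Places

Row GB14. As `exists_places` in `MP_98022b_gl/Places.lean`; the constants are integral over
`pI`; `few_functions` for the last property.
-/

set_option autoImplicit false

open Polynomial
open scoped WithZero

namespace Pool.Agent.GLN

open Pool.Agent.GT

theorem exists_places_n (K E : Type) [Field K] [Field E] [Algebra (RatFunc K) E]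
    [FiniteDimensional (RatFunc K) E] [Algebra.IsSeparable (RatFunc K) E] :
    ∃ (I : Type) (_ : Finite I) (_ : Nonempty I) (v : I → Valuation E ℤᵐ⁰),
      (∀ i, ∃ π, v i π = WithZero.exp (-1)) ∧
      (∀ i c, v i (cE K E c) ≤ 1) ∧
      (∀ i, v i (pI K E X) ≤ WithZero.exp (-1)) ∧
      (∀ R : ℕ, ∃ C : ℕ, ∀ x : E, x ≠ 0 → (pE K E).IsIntegralElem x →
        (∀ i, v i x ≤ WithZero.exp (R : ℤ)) → ∀ i, WithZero.exp (-(C : ℤ)) ≤ v i x) ∧
      ∀ R : ℕ, ∃ N : ℕ, ∀ x : Fin N → E, (∀ j, (pE K E).IsIntegralElem (x j)) →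
        (∀ j i, v i (x j) ≤ WithZero.exp (R : ℤ)) →
        ∃ c : Fin N → K, c ≠ 0 ∧ ∑ j, cE K E (c j) * x j = 0 := by
  classical
  obtain ⟨I, hI, hne, v, h1, h2, h3, h4⟩ := exists_inf_places K E
  have h5 : ∀ (R : ℕ) (x : E), (pE K E).IsIntegralElem x →
      (∀ i, v i x ≤ WithZero.exp (R : ℤ)) → (pI K E).IsIntegralElem (pI K E X ^ R * x) := by
    intro R x hx hv
    refine h4 x R hx (fun j => ?_)
    rw [map_mul, map_pow]
    have e1 : (v j (pI K E X)) ^ R ≤ WithZero.exp (-(R : ℤ)) := by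
      have e2 : (v j (pI K E X)) ^ R ≤ (WithZero.exp (-1 : ℤ)) ^ R :=
        pow_le_pow_left₀ zero_le (h3 j) R
      refine e2.trans (le_of_eq ?_)
      rw [← WithZero.exp_nsmul]
      congr 1
      simp
    calc (v j (pI K E X)) ^ R * v j x ≤ WithZero.exp (-(R : ℤ)) * WithZero.exp (R : ℤ) :=
          mul_le_mul' e1 (hv j)
      _ = 1 := by rw [← WithZero.exp_add, neg_add_cancel, WithZero.exp_zero]
  refine ⟨I, hI, hne, v, h1, fun i c => ?_, h3, fun R => ?_, fun R => ?_⟩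
  · have e : cE K E c = pI K E (C c) := by simp [cE, pE, pI]
    rw [e]
    exact h2 i _ (pI K E).isIntegralElem_map
  · choose C hC using fun i => place_bound (K := K) (v i) (h2 i) (h3 i) R
    let _ : Fintype I := Fintype.ofFinite I
    refine ⟨Finset.univ.sup C, fun x hx0 hx hv i => ?_⟩
    refine le_trans ?_ (hC i x hx0 hx (h5 R x hx hv))
    rw [WithZero.exp_le_exp]
    have h6 : C i ≤ Finset.univ.sup C := Finset.le_sup (Finset.mem_univ i)
    have h7 : ((C i : ℕ) : ℤ) ≤ ((Finset.univ.sup C : ℕ) : ℤ) := by exact_mod_cast h6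
    linarith
  · obtain ⟨N, hN⟩ := few_functions (K := K) (E := E) R
    exact ⟨N, fun x hx hv => hN x hx (fun j => h5 R (x j) (hx j) (hv j))⟩

end Pool.Agent.GLN
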