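import Mathlib

/-!
# Counting classes of lattices: the abstract version (helper10)

`P` is a complete lattice with a `ℤ`-action `sh` (multiplication by the powers of the uniformiser)
and a chain `B k` (the multiples of the standard lattice), `len` is minus the colength.
For a family `A ⊆ P` the set `Cl A` of the elements of level `0` is a set of representatives of the
classes modulo `sh`.
-/

set_option autoImplicit false

namespace Pool.Agent.GLN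

/-- A complete lattice with a chain `B k`, shifts and a length function. -/
structure Scale (P : Type) [CompleteLattice P] (n : ℕ) where
  B : ℤ → P
  anti : ∀ {j k : ℤ}, j ≤ k → B k ≤ B j
  sh : ℤ → P ≃o P
  sh_zero : ∀ L, sh 0 L = L
  sh_add : ∀ j k L, sh j (sh k L) = sh (j + k) L
  sh_B : ∀ j k, sh j (B k) = B (k + j)
  len : P → ℝ
  len_lt : ∀ {L L' : P} {c d : ℤ}, B c ≤ L → L < L' → L' ≤ B d → len L + 1 ≤ len L'
  len_B : ∀ k, len (B k) = -(n * k)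

namespace Scale

variable {P : Type} [CompleteLattice P] {n : ℕ} (Q : Scale P n)

/-- The elements of `A` of level `0`. -/
def Cl (A : Set P) : Set P := {L | L ∈ A ∧ L ≤ Q.B 0 ∧ ¬ L ≤ Q.B 1}

/-- All elements of `A` have width at most `R`. -/
def Wid (R : ℕ) (A : Set P) : Prop := ∀ L ∈ A, ∃ k : ℤ, Q.B (k + R) ≤ L ∧ L ≤ Q.B k

/-- `A` is stable under shifts. -/
def Stab (A : Set P) : Prop := ∀ (k : ℤ), ∀ L ∈ A, Q.sh k L ∈ A

/-- Bounded sums. -/
def SumS (A : Set P) : Set P :=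
  {U | ∃ T : Set P, T ⊆ A ∧ T.Nonempty ∧ (∃ k : ℤ, ∀ L ∈ T, L ≤ Q.B k) ∧ U = sSup T}

/-- Intersections of two elements. -/
def IntS (A : Set P) : Set P := {U | ∃ V ∈ A, ∃ W ∈ A, U = V ⊓ W}

/-- `X` is covered by a sequence of length `N`. -/
def Cov (N : ℕ) (X : Set P) : Prop := ∃ f : Fin N → P, X ⊆ Set.range f

theorem Cov.of {ι : Type} [Fintype ι] {g : ι → P} {X : Set P}
    (h : X ⊆ Set.range g) {N : ℕ} (hN : Fintype.card ι ≤ N) : Cov N X := by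
  classical
  let e := Fintype.equivFin ι
  refine ⟨fun i => if hi : i.1 < Fintype.card ι then g (e.symm ⟨i.1, hi⟩) else ⊥, ?_⟩
  intro x hx
  obtain ⟨j, rfl⟩ := h hx
  refine ⟨⟨(e j).1, lt_of_lt_of_le (e j).2 hN⟩, ?_⟩
  simp

omit [CompleteLattice P] in
theorem Cov.mono {X Y : Set P} {N : ℕ} (h : Cov N Y) (hXY : X ⊆ Y) :
    Cov N X := by
  obtain ⟨f, hf⟩ := h
  exact ⟨f, hXY.trans hf⟩

theorem Cov.mono_card {X : Set P} {N M : ℕ} (h : Cov N X) (hNM : N ≤ M) : Cov M X := by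
  obtain ⟨f, hf⟩ := h
  exact Cov.of hf (by simpa using hNM)

omit [CompleteLattice P] in
theorem Cov.finite {X : Set P} {N : ℕ} (h : Cov N X) : X.Finite := by
  obtain ⟨f, hf⟩ := h
  exact (Set.finite_range f).subset hf

omit [CompleteLattice P] in
theorem Cov.ncard_le {X : Set P} {N : ℕ} (h : Cov N X) : X.ncard ≤ N := by
  obtain ⟨f, hf⟩ := h
  refine (Set.ncard_le_ncard hf (Set.finite_range f)).trans ?_
  rw [← Set.image_univ]
  refine (Set.ncard_image_le Set.finite_univ).trans ?_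
  simp

variable {Q}

theorem B_le_iff (hn : 0 < n) {j k : ℤ} : Q.B j ≤ Q.B k ↔ k ≤ j := by
  constructor
  · intro h
    by_contra hjk
    push Not at hjk
    have h1 : Q.B k ≤ Q.B j := Q.anti hjk.le
    have h2 : Q.B j = Q.B k := le_antisymm h h1
    have h3 := congrArg Q.len h2
    rw [Q.len_B, Q.len_B, neg_inj] at h3
    have hn' : (n : ℝ) ≠ 0 := by exact_mod_cast hn.ne'
    have h4 := mul_left_cancel₀ hn' h3
    have h5 : j = k := by exact_mod_cast h4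
    omega
  · exact Q.anti

/-- The level of an element. -/
theorem exists_lev (hn : 0 < n) {R : ℕ} {A : Set P} (hW : Q.Wid R A) {L : P} (hL : L ∈ A) :
    ∃ k : ℤ, L ≤ Q.B k ∧ ¬ L ≤ Q.B (k + 1) ∧ Q.B (k + R) ≤ L := by
  obtain ⟨j, hj1, hj2⟩ := hW L hL
  have hbdd : ∀ k, L ≤ Q.B k → k ≤ j + R := fun k hk => (B_le_iff hn).1 (hj1.trans hk)
  obtain ⟨k, hk, hmax⟩ := Int.exists_greatest_of_bdd (P := fun k => L ≤ Q.B k)
    ⟨j + R, hbdd⟩ ⟨j, hj2⟩
  refine ⟨k, hk, fun h => ?_, ?_⟩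
  · have := hmax _ h
    omega
  · exact (Q.anti (by have := hmax _ hj2; omega)).trans hj1

theorem sh_le_B {L : P} {j k : ℤ} : Q.sh j L ≤ Q.B k ↔ L ≤ Q.B (k - j) := by
  have h : Q.B k = Q.sh j (Q.B (k - j)) := by rw [Q.sh_B]; congr 1; ring
  rw [h, OrderIso.le_iff_le]

theorem B_le_sh {L : P} {j k : ℤ} : Q.B k ≤ Q.sh j L ↔ Q.B (k - j) ≤ L := by
  have h : Q.B k = Q.sh j (Q.B (k - j)) := by rw [Q.sh_B]; congr 1; ring
  rw [h, OrderIso.le_iff_le]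

theorem exists_cl {A : Set P} (hA : Q.Stab A) {L : P} (hL : L ∈ A) {k : ℤ}
    (h1 : L ≤ Q.B k) (h2 : ¬ L ≤ Q.B (k + 1)) : ∃ L' ∈ Q.Cl A, L = Q.sh k L' := by
  refine ⟨Q.sh (-k) L, ⟨hA _ _ hL, ?_, ?_⟩, ?_⟩
  · rw [sh_le_B]
    rwa [show (0 : ℤ) - -k = k by ring]
  · rw [sh_le_B]
    rwa [show (1 : ℤ) - -k = k + 1 by ring]
  · rw [Q.sh_add, show k + -k = 0 by ring, Q.sh_zero]

/-! ### Sums -/

theorem Wid.sumS {R : ℕ} {A : Set P} (hW : Q.Wid R A) (hn : 0 < n) : Q.Wid R (Q.SumS A) := by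
  rintro U ⟨T, hTA, hne, ⟨k, hk⟩, rfl⟩
  -- the least level
  obtain ⟨L₀, hL₀⟩ := hne
  let p : ℤ → Prop := fun j => ∃ L ∈ T, L ≤ Q.B j ∧ ¬ L ≤ Q.B (j + 1) ∧ Q.B (j + R) ≤ L
  have hp : ∃ j, p j := by
    obtain ⟨j, hj⟩ := exists_lev hn hW (hTA hL₀)
    exact ⟨j, L₀, hL₀, hj⟩
  have hb : ∀ j, p j → k ≤ j := by
    rintro j ⟨L, hL, h1, h2, h3⟩
    by_contra hcon
    push Not at hcon
    exact h2 ((hk L hL).trans (Q.anti (by omega)))
  obtain ⟨j, ⟨L, hL, h1, h2, h3⟩, hmin⟩ := Int.exists_least_of_bdd ⟨k, hb⟩ hp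
  refine ⟨j, h3.trans (le_sSup hL), sSup_le fun L' hL' => ?_⟩
  obtain ⟨j', hj1, hj2, hj3⟩ := exists_lev hn hW (hTA hL')
  exact hj1.trans (Q.anti (hmin j' ⟨L', hL', hj1, hj2, hj3⟩))

theorem Stab.sumS {A : Set P} (hA : Q.Stab A) : Q.Stab (Q.SumS A) := by
  rintro j U ⟨T, hTA, hne, ⟨k, hk⟩, rfl⟩
  refine ⟨Q.sh j '' T, ?_, hne.image _, ⟨k + j, ?_⟩, ?_⟩
  · rintro _ ⟨L, hL, rfl⟩
    exact hA j L (hTA hL)
  · rintro _ ⟨L, hL, rfl⟩
    rw [sh_le_B]
    exact (hk L hL).trans (Q.anti (by omega))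
  · rw [OrderIso.map_sSup, sSup_image]

/-- Few summands are enough. -/
theorem exists_few {R : ℕ} {T : Set P} {L₁ : P} (h1 : L₁ ∈ T) (h1' : Q.B R ≤ L₁) (hT : ∀ L ∈ T, L ≤ Q.B 0) :
    ∃ F : Finset P, ↑F ⊆ T ∧ L₁ ∈ F ∧ F.card ≤ n * R + 2 ∧ F.sup id = sSup T ∧
      ∀ L ∈ F, L = L₁ ∨ ¬ L ≤ Q.B R := by
  classical
  have key : ∀ j : ℕ, (∃ F : Finset P, ↑F ⊆ T ∧ L₁ ∈ F ∧ F.card ≤ j + 1 ∧ F.sup id = sSup T ∧
      ∀ L ∈ F, L = L₁ ∨ ¬ L ≤ Q.B R) ∨
      (∃ F : Finset P, ↑F ⊆ T ∧ L₁ ∈ F ∧ F.card ≤ j + 1 ∧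
        (-(n * R : ℝ) + j ≤ Q.len (F.sup id)) ∧ ∀ L ∈ F, L = L₁ ∨ ¬ L ≤ Q.B R) := by
    intro j
    induction j with
    | zero =>
      refine Or.inr ⟨{L₁}, by simpa using h1, by simp, by simp, ?_, by simp⟩
      rw [Finset.sup_singleton, id, Nat.cast_zero, add_zero]
      have hR : -(n * R : ℝ) = Q.len (Q.B R) := by rw [Q.len_B]; push_cast; ring
      rw [hR]
      rcases eq_or_lt_of_le h1' with h | h
      · rw [← h]
      · have := Q.len_lt le_rfl h (hT L₁ h1)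
        linarith
    | succ j ih =>
      rcases ih with ⟨F, hF1, hF2, hF3, hF4, hF5⟩ | ⟨F, hF1, hF2, hF3, hF4, hF5⟩
      · exact Or.inl ⟨F, hF1, hF2, by omega, hF4, hF5⟩
      · by_cases hc : F.sup id = sSup T
        · exact Or.inl ⟨F, hF1, hF2, by omega, hc, hF5⟩
        · have hlt : ∃ L ∈ T, ¬ L ≤ F.sup id := by
            by_contra hcon
            push Not at hcon
            apply hc
            refine le_antisymm (Finset.sup_le fun L hL => le_sSup (hF1 hL)) (sSup_le hcon)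
          obtain ⟨L, hL, hLF⟩ := hlt
          have hBF : Q.B R ≤ F.sup id := h1'.trans (Finset.le_sup (f := id) hF2)
          refine Or.inr ⟨insert L F, ?_, Finset.mem_insert_of_mem hF2, ?_, ?_, ?_⟩
          · rw [Finset.coe_insert]
            exact Set.insert_subset hL hF1
          · exact (Finset.card_insert_le _ _).trans (by omega)
          · rw [Finset.sup_insert, id]
            have h2 : F.sup id < L ⊔ F.sup id := by
              refine lt_of_le_of_ne le_sup_right fun h => hLF ?_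
              rw [h]
              exact le_sup_left
            have h3 : L ⊔ F.sup id ≤ Q.B 0 :=
              sup_le (hT L hL) (Finset.sup_le fun L' hL' => hT L' (hF1 hL'))
            have := Q.len_lt hBF h2 h3
            push_cast
            linarith
          · intro L' hL'
            rcases Finset.mem_insert.1 hL' with rfl | h
            · exact Or.inr fun h => hLF (h.trans hBF)
            · exact hF5 L' h
  rcases key (n * R + 1) with ⟨F, h2, h3, h4, h5, h6⟩ | ⟨F, h2, h3, h4, h5, h6⟩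
  · exact ⟨F, h2, h3, h4, h5, h6⟩
  · exfalso
    have h7 : F.sup id ≤ Q.B 0 := Finset.sup_le fun L' hL' => hT L' (h2 hL')
    have h8 : Q.B R ≤ F.sup id := h1'.trans (Finset.le_sup (f := id) h3)
    have h9 : Q.len (F.sup id) ≤ Q.len (Q.B 0) := by
      rcases eq_or_lt_of_le h7 with h | h
      · rw [h]
      · have := Q.len_lt h8 h le_rfl
        linarith
    rw [Q.len_B] at h9
    push_cast at h5
    simp at h9
    linarith

theorem cov_sumS (hn : 0 < n) {A : Set P} (hA : Q.Stab A) {R : ℕ} (hW : Q.Wid R A) {N : ℕ}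
    (hN : Cov N (Q.Cl A)) : Cov ((N * (R + 1)) ^ (n * R + 2)) (Q.Cl (Q.SumS A)) := by
  classical
  obtain ⟨f, hf⟩ := hN
  let g : (Fin (n * R + 2) → Fin N × Fin (R + 1)) → P := fun a => ⨆ i, Q.sh (a i).2 (f (a i).1)
  refine Cov.of (g := g) ?_ (by simp)
  rintro U ⟨⟨T, hTA, hne, ⟨k, hk⟩, rfl⟩, hU0, hU1⟩
  have hT : ∀ L ∈ T, L ≤ Q.B 0 := fun L hL => (le_sSup hL).trans hU0
  obtain ⟨L₁, hL₁, hL₁'⟩ : ∃ L ∈ T, ¬ L ≤ Q.B 1 := by
    by_contra hcon
    push Not at hcon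
    exact hU1 (sSup_le hcon)
  have h1' : Q.B R ≤ L₁ := by
    obtain ⟨j, hj1, hj2, hj3⟩ := exists_lev hn hW (hTA hL₁)
    refine (Q.anti ?_).trans hj3
    have : j ≤ 0 := by
      by_contra hcon
      push Not at hcon
      exact hL₁' (hj1.trans (Q.anti (by omega)))
    omega
  obtain ⟨F, hF1, hF2, hF3, hF4, hF5⟩ := exists_few hL₁ h1' hT
  -- each element of `F` is a shift by a number in `[0, R]`
  have hrep : ∀ L ∈ F, ∃ a : Fin N × Fin (R + 1), Q.sh a.2 (f a.1) = L := by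
    intro L hL
    obtain ⟨j, hj1, hj2, hj3⟩ := exists_lev hn hW (hTA (hF1 hL))
    obtain ⟨L', hL', hLL'⟩ := exists_cl hA (hTA (hF1 hL)) hj1 hj2
    obtain ⟨i, hi⟩ := hf hL'
    have hj0 : 0 ≤ j := by
      by_contra hcon
      push Not at hcon
      exact hj2 ((hT L (hF1 hL)).trans (Q.anti (by omega)))
    have hjR : j ≤ R := by
      by_contra hcon
      push Not at hcon
      rcases hF5 L hL with rfl | h
      · exact hL₁' (hj1.trans (Q.anti (by omega)))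
      · exact h (hj1.trans (Q.anti (by omega)))
    refine ⟨(i, ⟨j.toNat, by omega⟩), ?_⟩
    simp only
    rw [hi, hLL']
    congr 2
    exact Int.toNat_of_nonneg hj0
  -- enumerate `F`
  obtain ⟨e, he⟩ : ∃ e : Fin (n * R + 2) → P, Set.range e = ↑F := by
    have hc : F.card ≤ n * R + 2 := hF3
    refine ⟨fun i => if hi : i.1 < F.card then (F.equivFin.symm ⟨i.1, hi⟩ : P) else L₁, ?_⟩
    ext L
    constructor
    · rintro ⟨i, rfl⟩
      simp only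
      split_ifs with hi
      · exact (F.equivFin.symm ⟨i.1, hi⟩).2
      · exact hF2
    · intro hL
      refine ⟨⟨(F.equivFin ⟨L, hL⟩).1, lt_of_lt_of_le (F.equivFin ⟨L, hL⟩).2 hc⟩, ?_⟩
      simp
  have hrep' : ∀ i, ∃ a : Fin N × Fin (R + 1), Q.sh a.2 (f a.1) = e i := by
    intro i
    have : e i ∈ Set.range e := ⟨i, rfl⟩
    rw [he] at this
    exact hrep _ this
  choose a h10 using hrep'
  refine ⟨a, ?_⟩
  show (⨆ i, Q.sh (a i).2 (f (a i).1)) = sSup T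
  rw [← hF4, Finset.sup_id_eq_sSup, ← he, ← sSup_range]
  exact congrArg sSup (by congr 1; exact funext h10)

/-! ### Intersections -/

theorem Stab.intS {A : Set P} (hA : Q.Stab A) : Q.Stab (IntS A) := by
  rintro j U ⟨V, hV, W, hW, rfl⟩
  exact ⟨Q.sh j V, hA j V hV, Q.sh j W, hA j W hW, OrderIso.map_inf _ _ _⟩

theorem Wid.intS {A : Set P} {R : ℕ} (hA : Q.Wid R A) : Q.Wid R (IntS A) := by
  rintro U ⟨V, hV, W, hW, rfl⟩
  obtain ⟨j, hj1, hj2⟩ := hA V hV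
  obtain ⟨k, hk1, hk2⟩ := hA W hW
  rcases le_total j k with h | h
  · refine ⟨k, le_inf ((Q.anti (by omega)).trans hj1) hk1, inf_le_right.trans hk2⟩
  · refine ⟨j, le_inf hj1 ((Q.anti (by omega)).trans hk1), inf_le_left.trans hj2⟩

theorem cov_intS (hn : 0 < n) {A : Set P} (hA : Q.Stab A) {R : ℕ} (hW : Q.Wid R A) {N : ℕ}
    (hN : Cov N (Q.Cl A)) : Cov ((N * (2 * R + 1)) ^ 2) (Q.Cl (IntS A)) := by
  classical
  obtain ⟨f, hf⟩ := hN
  let g : (Fin N × Fin (2 * R + 1)) × (Fin N × Fin (2 * R + 1)) → P := fun a =>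
    Q.sh (-(a.1.2 : ℕ)) (f a.1.1) ⊓ Q.sh (-(a.2.2 : ℕ)) (f a.2.1)
  refine Cov.of (g := g) ?_ (by simp [pow_two])
  -- one element
  have hrep : ∀ V ∈ A, ∀ k : ℤ, -(2 * R : ℤ) ≤ k → k ≤ 0 → V ≤ Q.B k → ¬ V ≤ Q.B (k + 1) →
      ∃ a : Fin N × Fin (2 * R + 1), Q.sh (-(a.2 : ℕ)) (f a.1) = V := by
    intro V hV k hk1 hk2 h1 h2
    obtain ⟨L', hL', hLL'⟩ := exists_cl hA hV h1 h2
    obtain ⟨i, hi⟩ := hf hL'
    refine ⟨(i, ⟨(-k).toNat, by omega⟩), ?_⟩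
    simp only
    rw [hi, hLL']
    congr 2
    omega
  rintro L ⟨⟨V, hV, W, hW', rfl⟩, hU0, hU1⟩
  -- the main case
  have main : ∀ V ∈ A, ∀ W ∈ A, ∀ a b : ℤ, V ≤ Q.B a → ¬ V ≤ Q.B (a + 1) → Q.B (a + R) ≤ V →
      W ≤ Q.B b → ¬ W ≤ Q.B (b + 1) → Q.B (b + R) ≤ W → b ≤ a → V ⊓ W ≤ Q.B 0 →
      ¬ V ⊓ W ≤ Q.B 1 → ∃ p : (Fin N × Fin (2 * R + 1)) × (Fin N × Fin (2 * R + 1)),
        g p = V ⊓ W := by
    intro V hV W hW' a b ha1 ha2 ha3 hb1 hb2 hb3 hab hU0 hU1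
    have ha0 : a ≤ 0 := by
      by_contra hcon
      push Not at hcon
      exact hU1 (inf_le_left.trans (ha1.trans (Q.anti (by omega))))
    have haR : -(R : ℤ) ≤ a := by
      have h : Q.B (a + R) ≤ Q.B 0 :=
        (le_inf ha3 ((Q.anti (by omega)).trans hb3)).trans hU0
      have := (B_le_iff hn).1 h
      omega
    obtain ⟨p, hp⟩ := hrep V hV a (by omega) ha0 ha1 ha2
    by_cases hbR : b + R ≤ a
    · have hVW : V ≤ W := ha1.trans ((Q.anti hbR).trans hb3)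
      refine ⟨(p, p), ?_⟩
      show Q.sh (-(p.2 : ℕ)) (f p.1) ⊓ Q.sh (-(p.2 : ℕ)) (f p.1) = V ⊓ W
      rw [hp, inf_idem, inf_eq_left.2 hVW]
    · obtain ⟨q, hq⟩ := hrep W hW' b (by omega) (by omega) hb1 hb2
      refine ⟨(p, q), ?_⟩
      show Q.sh (-(p.2 : ℕ)) (f p.1) ⊓ Q.sh (-(q.2 : ℕ)) (f q.1) = V ⊓ W
      rw [hp, hq]
  obtain ⟨a, ha1, ha2, ha3⟩ := exists_lev hn hW hV
  obtain ⟨b, hb1, hb2, hb3⟩ := exists_lev hn hW hW'
  rcases le_total b a with h | h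
  · exact main V hV W hW' a b ha1 ha2 ha3 hb1 hb2 hb3 h hU0 hU1
  · rw [inf_comm] at hU0 hU1 ⊢
    exact main W hW' V hV b a hb1 hb2 hb3 ha1 ha2 ha3 h hU0 hU1

/-! ### The action -/

/-- The family of the translates. -/
def actS {S : Type} (σ : S → P ≃o P) (A : Set P) : Set P :=
  {U | ∃ s, ∃ L ∈ A, U = σ s L}

theorem Stab.actS {A : Set P} (hA : Q.Stab A) {S : Type} {σ : S → P ≃o P}
    (hσ : ∀ s k L, σ s (Q.sh k L) = Q.sh k (σ s L)) : Q.Stab (actS σ A) := by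
  rintro j U ⟨s, L, hL, rfl⟩
  exact ⟨s, Q.sh j L, hA j L hL, (hσ s j L).symm⟩

theorem Wid.actS {A : Set P} {R : ℕ} (hA : Q.Wid R A) {S : Type} {σ : S → P ≃o P} {η : ℕ}
    (hη : ∀ s k, Q.B (k + η) ≤ σ s (Q.B k) ∧ σ s (Q.B k) ≤ Q.B (k - η)) :
    Q.Wid (R + 2 * η) (actS σ A) := by
  rintro U ⟨s, L, hL, rfl⟩
  obtain ⟨k, h1, h2⟩ := hA L hL
  refine ⟨k - η, ?_, ?_⟩
  · refine le_trans ?_ ((σ s).monotone h1)
    refine (Q.anti ?_).trans (hη s (k + R)).1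
    push_cast
    omega
  · exact ((σ s).monotone h2).trans (hη s k).2

theorem cov_actS (hn : 0 < n) {A : Set P} (hA : Q.Stab A) {R : ℕ} (hW : Q.Wid R A) {S : Type}
    [Fintype S] {σ : S → P ≃o P}
    (hσ : ∀ s k L, σ s (Q.sh k L) = Q.sh k (σ s L))
    {N : ℕ} (hN : Cov N (Q.Cl A)) : Cov (Fintype.card S * N) (Q.Cl (actS σ A)) := by
  classical
  obtain ⟨f, hf⟩ := hN
  -- normalisation
  have hnorm : ∀ U : P, ∃ V : P, ∀ k : ℤ, Q.sh k U ≤ Q.B 0 → ¬ Q.sh k U ≤ Q.B 1 →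
      V = Q.sh k U := by
    intro U
    by_cases h : ∃ k : ℤ, Q.sh k U ≤ Q.B 0 ∧ ¬ Q.sh k U ≤ Q.B 1
    · obtain ⟨k, hk1, hk2⟩ := h
      refine ⟨Q.sh k U, fun j hj1 hj2 => ?_⟩
      have : j = k := by
        rw [sh_le_B] at hk1 hk2 hj1 hj2
        by_contra hne
        rcases lt_or_gt_of_ne hne with h | h
        · exact hk2 (hj1.trans (Q.anti (by omega)))
        · exact hj2 (hk1.trans (Q.anti (by omega)))
      rw [this]
    · push Not at h
      exact ⟨⊥, fun k h1 h2 => absurd (h k h1) h2⟩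
  choose ν hν using hnorm
  refine Cov.of (ι := S × Fin N) (g := fun a => ν (σ a.1 (f a.2))) ?_ (by simp)
  rintro U ⟨⟨s, L, hL, rfl⟩, hU0, hU1⟩
  obtain ⟨k, hk1, hk2, hk3⟩ := exists_lev hn hW hL
  obtain ⟨L', hL', rfl⟩ := exists_cl hA hL hk1 hk2
  obtain ⟨i, rfl⟩ := hf hL'
  refine ⟨(s, i), ?_⟩
  rw [hσ] at hU0 hU1 ⊢
  exact hν (σ s (f i)) k hU0 hU1

/-! ### The sequence -/

variable (Q)

/-- The sequence of families. -/
def seq {S : Type} (σ : S → P ≃o P) : ℕ → Set P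
  | 0 => Set.range Q.B
  | m + 1 => IntS (Q.SumS (actS σ (seq σ m)))

variable {Q}

theorem seq_stab {S : Type} {σ : S → P ≃o P} (hσ : ∀ s k L, σ s (Q.sh k L) = Q.sh k (σ s L))
    (m : ℕ) : Q.Stab (Q.seq σ m) := by
  induction m with
  | zero =>
    rintro k L ⟨j, rfl⟩
    exact ⟨j + k, (Q.sh_B k j).symm⟩
  | succ m ih => exact ((ih.actS hσ).sumS).intS

theorem seq_wid (hn : 0 < n) {S : Type} {σ : S → P ≃o P} {η : ℕ}
    (hη : ∀ s k, Q.B (k + η) ≤ σ s (Q.B k) ∧ σ s (Q.B k) ≤ Q.B (k - η))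
    (m : ℕ) : Q.Wid (2 * η * m) (Q.seq σ m) := by
  induction m with
  | zero =>
    rintro L ⟨j, rfl⟩
    exact ⟨j, by simp, le_rfl⟩
  | succ m ih =>
    have h := ((ih.actS hη).sumS hn).intS
    rwa [show 2 * η * m + 2 * η = 2 * η * (m + 1) by ring] at h

/-- The recursion for the number of the classes. -/
theorem seq_cov_step (hn : 0 < n) {S : Type} [Fintype S] {σ : S → P ≃o P} {η : ℕ}
    (hσ : ∀ s k L, σ s (Q.sh k L) = Q.sh k (σ s L))
    (hη : ∀ s k, Q.B (k + η) ≤ σ s (Q.B k) ∧ σ s (Q.B k) ≤ Q.B (k - η))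
    (m : ℕ) {N : ℕ} (hN : Cov N (Q.Cl (Q.seq σ m))) :
    Cov (((Fintype.card S * N * (2 * η * (m + 1) + 1)) ^ (n * (2 * η * (m + 1)) + 2) *
      (2 * (2 * η * (m + 1)) + 1)) ^ 2) (Q.Cl (Q.seq σ (m + 1))) := by
  have h1 := seq_stab hσ m
  have h2 := seq_wid hn hη m
  have h3 := h2.actS hη
  rw [show 2 * η * m + 2 * η = 2 * η * (m + 1) by ring] at h3
  exact cov_intS hn (h1.actS hσ).sumS (h3.sumS hn)
    (cov_sumS hn (h1.actS hσ) h3 (cov_actS hn h1 h2 hσ hN))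

theorem seq_cov_zero (hn : 0 < n) {S : Type} {σ : S → P ≃o P} : Cov 1 (Q.Cl (Q.seq σ 0)) := by
  refine ⟨fun _ => Q.B 0, ?_⟩
  rintro L ⟨⟨j, rfl⟩, h0, h1⟩
  rw [B_le_iff hn] at h0 h1
  refine ⟨0, ?_⟩
  have : j = 0 := by omega
  rw [this]

/-! ### The growth -/

theorem growth (K a N t x e1 e2 e3 : ℕ) (hK : 1 ≤ K) (ht : 1 ≤ t) (ha : a ≤ K)
    (hN : N ≤ 2 ^ x) (h1 : e1 ≤ K * t) (h2 : e2 ≤ K * t) (h3 : e3 ≤ 2 * K * t) (hx : 1 ≤ x) :
    ((a * N * e1) ^ e2 * e3) ^ 2 ≤ 2 ^ (x * 2 ^ ((3 * K + 4) * (2 * t + 1))) := by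
  have hKK : K ≤ 2 ^ K := Nat.lt_two_pow_self.le
  have htt : t ≤ 2 ^ t := Nat.lt_two_pow_self.le
  have h4 : a * N * e1 ≤ 2 ^ (2 * K + x + t) := by
    calc a * N * e1 ≤ 2 ^ K * 2 ^ x * (2 ^ K * 2 ^ t) := by
          gcongr
          · exact ha.trans hKK
          · exact h1.trans (Nat.mul_le_mul hKK htt)
      _ = 2 ^ (2 * K + x + t) := by ring
  have h5 : (a * N * e1) ^ e2 ≤ 2 ^ ((2 * K + x + t) * (K * t)) := by
    calc (a * N * e1) ^ e2 ≤ (2 ^ (2 * K + x + t)) ^ e2 := Nat.pow_le_pow_left h4 _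
      _ ≤ (2 ^ (2 * K + x + t)) ^ (K * t) := Nat.pow_le_pow_right (by positivity) h2
      _ = 2 ^ ((2 * K + x + t) * (K * t)) := by rw [← pow_mul]
  have h6 : e3 ≤ 2 ^ (1 + K + t) := by
    calc e3 ≤ 2 * K * t := h3
      _ ≤ 2 * 2 ^ K * 2 ^ t := by gcongr
      _ = 2 ^ (1 + K + t) := by ring
  calc ((a * N * e1) ^ e2 * e3) ^ 2 ≤ (2 ^ ((2 * K + x + t) * (K * t)) * 2 ^ (1 + K + t)) ^ 2 := by
        gcongr
    _ = 2 ^ (2 * ((2 * K + x + t) * (K * t) + (1 + K + t))) := by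
        rw [← pow_add, ← pow_mul]
        congr 1
        ring
    _ ≤ _ := by
        refine Nat.pow_le_pow_right (by norm_num) ?_
        have hKt : 1 ≤ K * t := Nat.mul_pos hK ht
        have h7 : 2 * K + x + t ≤ 4 * (K * t) * x := by nlinarith
        have h8 : 1 + K + t ≤ 3 * (K * t) := by nlinarith
        have h9 : (2 * K + x + t) * (K * t) ≤ 4 * (K * t) ^ 2 * x := by
          calc (2 * K + x + t) * (K * t) ≤ (4 * (K * t) * x) * (K * t) :=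
                Nat.mul_le_mul_right _ h7
            _ = 4 * (K * t) ^ 2 * x := by ring
        have h10 : 3 * (K * t) ≤ 3 * (K * t) ^ 2 * x := by
          have : K * t ≤ (K * t) ^ 2 * x := by nlinarith [Nat.mul_le_mul hKt hx]
          nlinarith
        calc 2 * ((2 * K + x + t) * (K * t) + (1 + K + t))
            ≤ x * (16 * (K * t) ^ 2) := by nlinarith
          _ ≤ x * (2 ^ 4 * (2 ^ K * 2 ^ t) ^ 2) := by
              gcongr
              norm_num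
          _ = x * 2 ^ (4 + 2 * K + 2 * t) := by ring
          _ ≤ x * 2 ^ ((3 * K + 4) * (2 * t + 1)) := by
              refine Nat.mul_le_mul_left _ (Nat.pow_le_pow_right (by norm_num) ?_)
              nlinarith

theorem seq_cov (hn : 0 < n) {S : Type} [Fintype S] {σ : S → P ≃o P} {η : ℕ}
    (hσ : ∀ s k L, σ s (Q.sh k L) = Q.sh k (σ s L))
    (hη : ∀ s k, Q.B (k + η) ≤ σ s (Q.B k) ∧ σ s (Q.B k) ≤ Q.B (k - η)) {K : ℕ}
    (hK : K = Fintype.card S + (2 * η + 1) + (n * (2 * η) + 2)) (m : ℕ) :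
    Cov (2 ^ 2 ^ ((3 * K + 4) * (m + 1) ^ 2)) (Q.Cl (Q.seq σ m)) := by
  induction m with
  | zero => exact (seq_cov_zero hn).mono_card Nat.one_le_two_pow
  | succ m ih =>
    refine (seq_cov_step hn hσ hη m ih).mono_card ?_
    refine (growth K _ _ (m + 1) (2 ^ ((3 * K + 4) * (m + 1) ^ 2)) _ _ _ (by omega) (by omega)
      (by omega) le_rfl ?_ ?_ ?_ Nat.one_le_two_pow).trans ?_
    · rw [hK]
      nlinarith [Nat.zero_le (Fintype.card S * (m + 1)), Nat.zero_le ((n * (2 * η) + 2) * (m + 1))]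
    · rw [hK]
      nlinarith [Nat.zero_le (Fintype.card S * (m + 1)), Nat.zero_le ((2 * η + 1) * (m + 1))]
    · rw [hK]
      nlinarith [Nat.zero_le (Fintype.card S * (m + 1)), Nat.zero_le ((n * (2 * η) + 2) * (m + 1))]
    · rw [← pow_add]
      refine Nat.pow_le_pow_right (by norm_num) (Nat.pow_le_pow_right (by norm_num) ?_)
      exact le_of_eq (by ring)

/-- The sums of the members of the sequence. -/
theorem sumS_seq_cov (hn : 0 < n) {S : Type} [Fintype S] [Nonempty S] {σ : S → P ≃o P} {η : ℕ}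
    (hσ : ∀ s k L, σ s (Q.sh k L) = Q.sh k (σ s L))
    (hη : ∀ s k, Q.B (k + η) ≤ σ s (Q.B k) ∧ σ s (Q.B k) ≤ Q.B (k - η)) {K : ℕ}
    (hK : K = Fintype.card S + (2 * η + 1) + (n * (2 * η) + 2)) (m : ℕ) :
    Cov (2 ^ 2 ^ ((4 * (3 * K + 4)) * (m + 1) ^ 2)) (Q.Cl (Q.SumS (Q.seq σ m))) := by
  have h1 := cov_sumS hn (seq_stab hσ m) (seq_wid hn hη m) (seq_cov hn hσ hη hK m)
  refine h1.mono_card ?_
  set N := 2 ^ 2 ^ ((3 * K + 4) * (m + 1) ^ 2) with hN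
  have hS : 1 ≤ Fintype.card S := Fintype.card_pos
  have hN1 : 1 ≤ N := Nat.one_le_two_pow
  have h2 := growth K (Fintype.card S) N (m + 1) (2 ^ ((3 * K + 4) * (m + 1) ^ 2))
    (2 * η * (m + 1) + 1) (n * (2 * η * (m + 1)) + 2) (2 * (2 * η * (m + 1)) + 1)
    (by omega) (by omega) (by omega) le_rfl (by
      rw [hK]
      nlinarith [Nat.zero_le (Fintype.card S * (m + 1)), Nat.zero_le ((n * (2 * η) + 2) * (m + 1))])
    (by
      rw [hK]
      nlinarith [Nat.zero_le (Fintype.card S * (m + 1)), Nat.zero_le ((2 * η + 1) * (m + 1))])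
    (by
      rw [hK]
      nlinarith [Nat.zero_le (Fintype.card S * (m + 1)), Nat.zero_le ((n * (2 * η) + 2) * (m + 1))])
    Nat.one_le_two_pow
  have h3 : (N * (2 * η * m + 1)) ^ (n * (2 * η * m) + 2) ≤
      ((Fintype.card S * N * (2 * η * (m + 1) + 1)) ^ (n * (2 * η * (m + 1)) + 2) *
        (2 * (2 * η * (m + 1)) + 1)) ^ 2 := by
    set X := Fintype.card S * N * (2 * η * (m + 1) + 1) with hX
    have hX1 : 1 ≤ X := Nat.mul_pos (Nat.mul_pos hS hN1) (by omega)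
    have h4 : N * (2 * η * m + 1) ≤ X := by
      calc N * (2 * η * m + 1) ≤ N * (2 * η * (m + 1) + 1) := by gcongr; omega
        _ = 1 * N * (2 * η * (m + 1) + 1) := by ring
        _ ≤ X := by rw [hX]; gcongr
    calc (N * (2 * η * m + 1)) ^ (n * (2 * η * m) + 2) ≤ X ^ (n * (2 * η * m) + 2) :=
          Nat.pow_le_pow_left h4 _
      _ ≤ X ^ (n * (2 * η * (m + 1)) + 2) := Nat.pow_le_pow_right hX1 (by gcongr; omega)
      _ ≤ X ^ (n * (2 * η * (m + 1)) + 2) * (2 * (2 * η * (m + 1)) + 1) :=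
          Nat.le_mul_of_pos_right _ (by omega)
      _ ≤ _ := Nat.le_self_pow (by norm_num) _
  refine h3.trans (h2.trans ?_)
  rw [← pow_add]
  refine Nat.pow_le_pow_right (by norm_num) (Nat.pow_le_pow_right (by norm_num) ?_)
  have : (3 * K + 4) * (m + 1) ^ 2 + (3 * K + 4) * (2 * (m + 1) + 1) =
      (3 * K + 4) * (m + 2) ^ 2 := by ring
  rw [this]
  have h5 : (m + 2) ^ 2 ≤ 4 * (m + 1) ^ 2 := by nlinarith
  calc (3 * K + 4) * (m + 2) ^ 2 ≤ (3 * K + 4) * (4 * (m + 1) ^ 2) := Nat.mul_le_mul_left _ h5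
    _ = 4 * (3 * K + 4) * (m + 1) ^ 2 := by ring

/-- The elements between two given multiples. -/
theorem cov_between (hn : 0 < n) {A : Set P} (hA : Q.Stab A) {R : ℕ} (hW : Q.Wid R A) {N : ℕ}
    (hN : Cov N (Q.Cl A)) (b : ℕ) :
    Cov ((2 * b + 1) * N) {L | L ∈ A ∧ Q.B b ≤ L ∧ L ≤ Q.B (-b)} := by
  classical
  obtain ⟨f, hf⟩ := hN
  refine Cov.of (ι := Fin (2 * b + 1) × Fin N) (g := fun a => Q.sh ((a.1 : ℕ) - b) (f a.2)) ?_
    (by simp)
  rintro L ⟨hL, h1, h2⟩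
  obtain ⟨k, hk1, hk2, hk3⟩ := exists_lev hn hW hL
  obtain ⟨L', hL', rfl⟩ := exists_cl hA hL hk1 hk2
  obtain ⟨i, rfl⟩ := hf hL'
  have hk4 : k ≤ b := by
    have := (B_le_iff hn).1 (h1.trans hk1)
    omega
  have hk5 : -(b : ℤ) ≤ k := by
    by_contra hcon
    push Not at hcon
    exact hk2 (h2.trans (Q.anti (by omega)))
  refine ⟨(⟨(k + b).toNat, by omega⟩, i), ?_⟩
  simp only
  congr 2
  omega

end Scale

end Pool.Agent.GLN
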