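import Pool.Agent.Lib.MP_98022b_gln.GaugeFilt
import Pool.Agent.Lib.MP_98022b_gln.ScaleCount

/-!
# The lattices in `E ^ n` as an instance of `Scale` (helper10)
-/

set_option autoImplicit false

open scoped WithZero

namespace Pool.Agent.GLN

variable {E : Type} [Field E] {v : Valuation E ℤᵐ⁰} {n : ℕ}

theorem mem_stl {k : ℤ} {x : Fin n → E} : x ∈ stl v n k ↔ (x ≠ 0 → (k : ℝ) ≤ w0 v x) := Iff.rfl

theorem w0_int {x : Fin n → E} (hx : x ≠ 0) : ∃ k : ℤ, w0 v x = k := by
  obtain ⟨i, -, hi⟩ := exists_w0 (v := v) hx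
  rw [hi]
  exact od_int _

/-- The scaling as an order isomorphism. -/
def Lt.scIso (a : Eˣ) : Lt v n ≃o Lt v n where
  toFun L := L.sc a
  invFun L := L.sc a⁻¹
  left_inv L := by
    ext x
    rw [Lt.mem_sc, Lt.mem_sc, inv_inv, smul_smul, Units.inv_mul, one_smul]
  right_inv L := by
    ext x
    rw [Lt.mem_sc, Lt.mem_sc, inv_inv, smul_smul, Units.mul_inv, one_smul]
  map_rel_iff' := by
    intro L L'
    constructor
    · intro h x hx
      have h1 : a.1 • x ∈ L.sc a := by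
        rw [Lt.mem_sc, smul_smul, Units.inv_mul, one_smul]
        exact hx
      have h2 := h h1
      change a.1 • x ∈ L'.sc a at h2
      rwa [Lt.mem_sc, smul_smul, Units.inv_mul, one_smul] at h2
    · intro h x hx
      exact h hx

/-- The translation as an order isomorphism. -/
def Lt.trIso (g : GL (Fin n) E) : Lt v n ≃o Lt v n where
  toFun L := L.tr g
  invFun L := L.tr g⁻¹
  left_inv L := by
    ext x
    rw [Lt.mem_tr, Lt.mem_tr, inv_inv, Matrix.mulVec_mulVec, ← Units.val_mul, inv_mul_cancel,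
      Units.val_one, Matrix.one_mulVec]
  right_inv L := by
    ext x
    rw [Lt.mem_tr, Lt.mem_tr, inv_inv, Matrix.mulVec_mulVec, ← Units.val_mul, mul_inv_cancel,
      Units.val_one, Matrix.one_mulVec]
  map_rel_iff' := by
    intro L L'
    constructor
    · intro h x hx
      have h1 : g.1.mulVec x ∈ L.tr g := by
        rw [Lt.mem_tr, Matrix.mulVec_mulVec, ← Units.val_mul, inv_mul_cancel,
          Units.val_one, Matrix.one_mulVec]
        exact hx
      have h2 := h h1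
      change g.1.mulVec x ∈ L'.tr g at h2
      rwa [Lt.mem_tr, Matrix.mulVec_mulVec, ← Units.val_mul, inv_mul_cancel,
        Units.val_one, Matrix.one_mulVec] at h2
    · intro h x hx
      exact h hx

theorem Lt.tr_sc (g : GL (Fin n) E) (a : Eˣ) (L : Lt v n) : (L.sc a).tr g = (L.tr g).sc a := by
  ext x
  rw [Lt.mem_tr, Lt.mem_sc, Lt.mem_sc, Lt.mem_tr, Matrix.mulVec_smul]

/-- A uniformizer as a unit. -/
noncomputable def unif {π : E} (hπ : v π = WithZero.exp (-1)) : Eˣ :=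
  Units.mk0 π (by
    rintro rfl
    rw [map_zero] at hπ
    exact WithZero.exp_ne_zero hπ.symm)

theorem od_unif_zpow {π : E} (hπ : v π = WithZero.exp (-1)) (k : ℤ) :
    od v ((unif hπ ^ k : Eˣ) : E) = k := by
  rw [Units.val_zpow_eq_zpow_val]
  exact od_zpow hπ k

/-- The powers of the uniformizer applied to a lattice. -/
noncomputable def Lt.pw {π : E} (hπ : v π = WithZero.exp (-1)) (k : ℤ) (L : Lt v n) : Lt v n :=
  L.sc (unif hπ ^ k)

theorem Lt.mem_pw {π : E} {hπ : v π = WithZero.exp (-1)} {k : ℤ} {L : Lt v n} {x : Fin n → E} :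
    x ∈ L.pw hπ k ↔ ((unif hπ ^ (-k) : Eˣ) : E) • x ∈ L := by
  rw [zpow_neg]
  exact Iff.rfl

theorem Lt.pw_zero {π : E} (hπ : v π = WithZero.exp (-1)) (L : Lt v n) : L.pw hπ 0 = L := by
  ext x
  rw [Lt.mem_pw, neg_zero, zpow_zero, Units.val_one, one_smul]

theorem Lt.pw_pw {π : E} (hπ : v π = WithZero.exp (-1)) (j k : ℤ) (L : Lt v n) :
    (L.pw hπ k).pw hπ j = L.pw hπ (j + k) := by
  ext x
  rw [Lt.mem_pw, Lt.mem_pw, Lt.mem_pw, smul_smul, ← Units.val_mul, ← zpow_add,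
    show -k + -j = -(j + k) by ring]

theorem Lt.pw_stl {π : E} (hπ : v π = WithZero.exp (-1)) (j k : ℤ) :
    (stl v n k).pw hπ j = stl v n (k + j) := by
  ext x
  rw [Lt.mem_pw, mem_stl, mem_stl]
  by_cases hx : x = 0
  · simp [hx]
  · have h1 : ((unif hπ ^ (-j) : Eˣ) : E) • x ≠ 0 := smul_ne_zero (Units.ne_zero _) hx
    rw [w0_smul (Units.ne_zero _) hx, od_unif_zpow]
    constructor
    · intro h _
      have := h h1
      push_cast at this ⊢
      linarith
    · intro h _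
      have := h hx
      push_cast at this ⊢
      linarith

/-- Multiplication by a scalar of order `k` is multiplication by `π ^ k`. -/
theorem Lt.smul_mem_iff {a b : E} (ha : a ≠ 0) (hb : b ≠ 0) (hab : od v a = od v b) {L : Lt v n}
    {x : Fin n → E} : a • x ∈ L ↔ b • x ∈ L := by
  have key : ∀ a b : E, a ≠ 0 → b ≠ 0 → od v a = od v b → a • x ∈ L → b • x ∈ L := by
    intro a b ha hb hab h
    have h1 : 0 ≤ od v (b / a) := by rw [od_div hb ha, hab, sub_self]
    have h2 : b / a ∈ v.integer := (od_nonneg_iff (div_ne_zero hb ha)).1 h1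
    have h3 := L.smul_mem ⟨b / a, h2⟩ h
    have h4 : (⟨b / a, h2⟩ : v.integer) • a • x = b • x := by
      show (b / a) • a • x = b • x
      rw [smul_smul, div_mul_cancel₀ _ ha]
    rwa [h4] at h3
  exact ⟨key a b ha hb hab, key b a hb ha hab.symm⟩

/-- The norm of a lattice. -/
theorem exists_nm_of_lt {π : E} (hπ : v π = WithZero.exp (-1)) {L : Lt v n} {c d : ℤ}
    (hc : stl v n c ≤ L) (hd : L ≤ stl v n d) :
    ∃ u : Nm v n, ∀ r : ℝ, u.lat r = L.pw hπ ⌈r⌉ := by
  refine exists_nm (fun r => L.pw hπ ⌈r⌉) ?_ ?_ ?_ ?_ ?_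
  · intro r s hrs x hx
    rw [Lt.mem_pw] at hx ⊢
    have h1 : ⌈r⌉ ≤ ⌈s⌉ := Int.ceil_mono hrs
    have h2 : (unif hπ ^ (⌈s⌉ - ⌈r⌉) : Eˣ).1 ∈ v.integer := by
      refine (od_nonneg_iff (Units.ne_zero _)).1 ?_
      rw [od_unif_zpow]
      have : (0 : ℤ) ≤ ⌈s⌉ - ⌈r⌉ := by omega
      exact_mod_cast this
    have h3 := L.smul_mem ⟨_, h2⟩ hx
    have h4 : (⟨_, h2⟩ : v.integer) • ((unif hπ ^ (-⌈s⌉) : Eˣ) : E) • x =
        ((unif hπ ^ (-⌈r⌉) : Eˣ) : E) • x := by
      show (unif hπ ^ (⌈s⌉ - ⌈r⌉) : Eˣ).1 • ((unif hπ ^ (-⌈s⌉) : Eˣ) : E) • x = _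
      rw [smul_smul, ← Units.val_mul, ← zpow_add, show ⌈s⌉ - ⌈r⌉ + -⌈s⌉ = -⌈r⌉ by ring]
    rwa [h4] at h3
  · intro r x h
    have h1 : (⌈r⌉ : ℝ) - 1 < r := by linarith [Int.ceil_lt_add_one r]
    have h2 := h (((⌈r⌉ : ℝ) - 1 + r) / 2) (by linarith)
    have h3 : ⌈((⌈r⌉ : ℝ) - 1 + r) / 2⌉ = ⌈r⌉ := by
      rw [Int.ceil_eq_iff]
      have := Int.le_ceil r
      constructor <;> linarith
    simp only [h3] at h2
    exact h2
  · intro a r x hx
    simp only [Lt.mem_pw] at hx ⊢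
    obtain ⟨k, hk⟩ := od_int (v := v) (a : E)
    rw [hk, Int.ceil_intCast_add, smul_smul]
    refine (Lt.smul_mem_iff (mul_ne_zero (Units.ne_zero _) (Units.ne_zero _))
      (Units.ne_zero _) ?_).2 hx
    rw [od_mul (Units.ne_zero _) (Units.ne_zero _), hk, od_unif_zpow, od_unif_zpow]
    push_cast
    ring
  · refine ⟨c, fun x hx => ?_⟩
    obtain ⟨k, hk⟩ := w0_int (v := v) hx
    rw [Lt.mem_pw]
    refine hc ?_
    rw [mem_stl]
    intro _
    rw [w0_smul (Units.ne_zero _) hx, od_unif_zpow, hk, ← Int.cast_sub, Int.ceil_intCast]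
    push_cast
    linarith
  · refine ⟨-d, fun x r hx h => ?_⟩
    rw [Lt.mem_pw] at h
    have h1 := hd h
    rw [mem_stl] at h1
    have h2 := h1 (smul_ne_zero (Units.ne_zero _) hx)
    rw [w0_smul (Units.ne_zero _) hx, od_unif_zpow] at h2
    have := Int.le_ceil r
    push_cast at h2
    linarith

theorem Nm.ext_lat {u u' : Nm v n} (h : ∀ r, u.lat r = u'.lat r) : u = u' := by
  refine Nm.ext' fun x hx => le_antisymm ?_ ?_
  · have h1 : x ∈ u.lat (u x) := fun _ => le_rfl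
    rw [h] at h1
    exact h1 hx
  · have h1 : x ∈ u'.lat (u' x) := fun _ => le_rfl
    rw [← h] at h1
    exact h1 hx

/-- Minus the colength. -/
noncomputable def Lt.len {π : E} (hπ : v π = WithZero.exp (-1)) (L : Lt v n) : ℝ :=
  open Classical in
  if h : ∃ u : Nm v n, ∀ r : ℝ, u.lat r = L.pw hπ ⌈r⌉ then h.choose.vol else 0

theorem Lt.len_eq {π : E} (hπ : v π = WithZero.exp (-1)) {L : Lt v n} {u : Nm v n}
    (hu : ∀ r : ℝ, u.lat r = L.pw hπ ⌈r⌉) : L.len hπ = u.vol := by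
  have h : ∃ u : Nm v n, ∀ r : ℝ, u.lat r = L.pw hπ ⌈r⌉ := ⟨u, hu⟩
  unfold Lt.len
  rw [dif_pos h]
  congr 1
  exact Nm.ext_lat fun r => (h.choose_spec r).trans (hu r).symm

theorem vol_shift (w : Nm v n) (c : ℝ) : (w.shift c).vol = w.vol + n * c := by
  obtain ⟨b, hb⟩ := w.exists_orth
  have h1 : (w.shift c).Orth b := by
    intro x i hi
    have hx : x ≠ 0 := by
      rintro rfl
      simp at hi
    rw [Nm.shift_apply _ _ hx, Nm.shift_apply _ _ (b.ne_zero i)]
    have := hb x i hi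
    linarith
  rw [h1.vol_eq, hb.vol_eq]
  have h2 : ∑ i, (w.shift c) (b i) = ∑ i, (w (b i) + c) :=
    Finset.sum_congr rfl fun i _ => Nm.shift_apply _ _ (b.ne_zero i)
  rw [h2, Finset.sum_add_distrib, Finset.sum_const, Finset.card_univ, Fintype.card_fin,
    nsmul_eq_mul]
  ring

theorem Lt.len_stl {π : E} (hπ : v π = WithZero.exp (-1)) (k : ℤ) :
    (stl v n k).len hπ = -(n * k) := by
  rw [Lt.len_eq hπ (u := (nm0 v n).shift (-k)), vol_shift, vol_nm0]
  · ring
  · intro r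
    rw [Lt.pw_stl]
    ext x
    rw [Nm.mem_lat, mem_stl]
    constructor
    · intro h hx
      have h1 := h hx
      rw [Nm.shift_apply _ _ hx, nm0_apply] at h1
      obtain ⟨j, hj⟩ := w0_int (v := v) hx
      rw [hj] at h1 ⊢
      have h2 : r ≤ ((j - k : ℤ) : ℝ) := by push_cast; linarith
      have h3 := Int.ceil_le.2 h2
      have : k + ⌈r⌉ ≤ j := by omega
      exact_mod_cast this
    · intro h hx
      have h1 := h hx
      rw [Nm.shift_apply _ _ hx, nm0_apply]
      have := Int.le_ceil r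
      push_cast at h1
      linarith

theorem Lt.len_lt {π : E} (hπ : v π = WithZero.exp (-1)) {L L' : Lt v n} {c d : ℤ}
    (hc : stl v n c ≤ L) (hLL : L < L') (hd : L' ≤ stl v n d) : L.len hπ + 1 ≤ L'.len hπ := by
  obtain ⟨u, hu⟩ := exists_nm_of_lt hπ hc (hLL.le.trans hd)
  obtain ⟨u', hu'⟩ := exists_nm_of_lt hπ (hc.trans hLL.le) hd
  rw [Lt.len_eq hπ hu, Lt.len_eq hπ hu']
  have h1 : ∀ x, x ≠ 0 → u x ≤ u' x := by
    intro x hx
    have h2 : x ∈ u.lat (u x) := fun _ => le_rfl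
    rw [hu] at h2
    have h3 : x ∈ u'.lat (u x) := by
      rw [hu']
      rw [Lt.mem_pw] at h2 ⊢
      exact hLL.le h2
    exact h3 hx
  obtain ⟨x, hx', hx⟩ := SetLike.exists_of_lt hLL
  have hx0 : x ≠ 0 := by
    rintro rfl
    exact hx L.zero_mem
  have h2 : 0 ≤ u' x := by
    have h3 : x ∈ u'.lat 0 := by
      rw [hu', Int.ceil_zero, Lt.pw_zero]
      exact hx'
    exact h3 hx0
  have h3 : u x ≤ -1 := by
    by_contra hcon
    push Not at hcon
    have h4 : x ∈ u.lat (u x) := fun _ => le_rfl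
    rw [hu, Lt.mem_pw] at h4
    have h5 : u x < 0 := by
      by_contra h6
      push Not at h6
      have h7 : x ∈ u.lat 0 := fun _ => h6
      rw [hu, Int.ceil_zero, Lt.pw_zero] at h7
      exact hx h7
    have h6 : ⌈u x⌉ = 0 := by
      rw [Int.ceil_eq_iff]
      constructor <;> push_cast <;> linarith
    rw [h6, neg_zero, zpow_zero, Units.val_one, one_smul] at h4
    exact hx h4
  have := Nm.sub_le_vol h1 hx0
  linarith

theorem stl_anti {j k : ℤ} (h : j ≤ k) : stl v n k ≤ stl v n j :=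
  (nm0 v n).lat_anti (by exact_mod_cast h)

/-- The instance. -/
noncomputable def scaleLt {π : E} (hπ : v π = WithZero.exp (-1)) : Scale (Lt v n) n where
  B := stl v n
  anti := stl_anti
  sh k := Lt.scIso (unif hπ ^ k)
  sh_zero L := Lt.pw_zero hπ L
  sh_add j k L := Lt.pw_pw hπ j k L
  sh_B j k := Lt.pw_stl hπ j k
  len := Lt.len hπ
  len_lt := Lt.len_lt hπ
  len_B := Lt.len_stl hπ

theorem scaleLt_sumS {π : E} (hπ : v π = WithZero.exp (-1)) (A : Set (Lt v n)) :
    (scaleLt hπ).SumS A = SumS A := by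
  ext U
  constructor
  · rintro ⟨T, h1, h2, h3, h4⟩
    exact ⟨T, h1, h2, h3, h4⟩
  · rintro ⟨T, h1, h2, h3, h4⟩
    exact ⟨T, h1, h2, h3, h4⟩

theorem scaleLt_seq {π : E} (hπ : v π = WithZero.exp (-1)) (S : Set (GL (Fin n) E)) (m : ℕ) :
    (scaleLt hπ).seq (fun s : S => Lt.trIso (v := v) s.1) m = gauge v S m := by
  induction m with
  | zero =>
    ext L
    constructor
    · rintro ⟨k, rfl⟩
      exact ⟨k, rfl⟩
    · rintro ⟨k, rfl⟩
      exact ⟨k, rfl⟩
  | succ m ih =>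
    have h1 : Scale.actS (fun s : S => Lt.trIso (v := v) s.1)
        ((scaleLt hπ).seq (fun s : S => Lt.trIso (v := v) s.1) m) = trS S (gauge v S m) := by
      rw [ih]
      ext L
      constructor
      · rintro ⟨s, L', hL', rfl⟩
        exact ⟨s.1, s.2, L', hL', rfl⟩
      · rintro ⟨s, hs, L', hL', rfl⟩
        exact ⟨⟨s, hs⟩, L', hL', rfl⟩
    show Scale.IntS ((scaleLt hπ).SumS _) = gauge v S (m + 1)
    rw [h1, scaleLt_sumS]
    rfl

theorem stl_tr {g : GL (Fin n) E} {η : ℕ} (hη : dist (g • nm0 v n) (nm0 v n) ≤ η) (k : ℤ) :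
    stl v n (k + η) ≤ (stl v n k).tr g ∧ (stl v n k).tr g ≤ stl v n (k - η) := by
  constructor
  · intro x hx
    rw [mem_stl] at hx
    rw [Lt.mem_tr, mem_stl]
    intro h0
    have hx0 : x ≠ 0 := by
      rintro rfl
      exact h0 (Matrix.mulVec_zero _)
    have h1 := hx hx0
    have h2 := ((g • nm0 v n).abs_sub_le_dist (nm0 v n) x).trans hη
    rw [Nm.smul_apply, nm0_apply, nm0_apply] at h2
    have h3 := (abs_le.1 h2).1
    push_cast at h1
    linarith
  · intro x hx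
    rw [Lt.mem_tr, mem_stl] at hx
    rw [mem_stl]
    intro hx0
    have h1 := hx (inv_mulVec_ne_zero g hx0)
    have h2 := ((g • nm0 v n).abs_sub_le_dist (nm0 v n) x).trans hη
    rw [Nm.smul_apply, nm0_apply, nm0_apply] at h2
    have h3 := (abs_le.1 h2).2
    push_cast
    linarith

end Pool.Agent.GLN
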