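import Pool.Agent.Lib.MP_98022b_gln.SeqDefs

/-!
# First states and codes
-/

set_option autoImplicit false

open Set

namespace Pool.Agent.GLN

section First

variable {V : Type}

theorem IsFirst.unique {P : ℤ → Option V} {c : ℤ} {v w : V} (hv : IsFirst P c v)
    (hw : IsFirst P c w) : v = w := by
  obtain ⟨m, hm, hm'⟩ := hv
  obtain ⟨k, hk, hk'⟩ := hw
  rcases lt_trichotomy m k with h | h | h
  · rw [hk' m h] at hm
    exact absurd hm (by simp)
  · subst h
    rw [hm] at hk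
    exact Option.some.inj hk
  · rw [hm' k h] at hk
    exact absurd hk (by simp)

theorem exists_isFirst {P : ℤ → Option V} {c : ℤ} {B : ℕ}
    (h : ∃ m : ℕ, m ≤ B ∧ ∃ v, P (c + m) = some v) :
    ∃ m : ℕ, m ≤ B ∧ ∃ v, P (c + m) = some v ∧ ∀ k < m, P (c + k) = none := by
  classical
  obtain ⟨m, hm, v, hv⟩ := h
  have hex : ∃ m : ℕ, P (c + m) ≠ none := ⟨m, by rw [hv]; simp⟩
  have h1 : Nat.find hex ≤ m := Nat.find_min' hex (by rw [hv]; simp)
  obtain ⟨w, hw⟩ := Option.ne_none_iff_exists'.1 (Nat.find_spec hex)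
  refine ⟨Nat.find hex, h1.trans hm, w, hw, fun k hk => ?_⟩
  have := Nat.find_min hex hk
  push Not at this
  exact this

theorem IsFirst.congr {P P' : ℤ → Option V} {c c' : ℤ} {v : V} {m : ℕ}
    (hm : P (c + m) = some v) (hm' : ∀ k < m, P (c + k) = none)
    (h : ∀ k : ℕ, k ≤ m → P' (c' + k) = P (c + k)) : IsFirst P' c' v :=
  ⟨m, by rw [h m le_rfl, hm], fun k hk => by rw [h k hk.le, hm' k hk]⟩

theorem IsFirst.smul {G : Type} [Group G] [MulAction G V] {P P' : ℤ → Option V} {c : ℤ} {v : V}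
    (hv : IsFirst P c v) (g : G) (h : ∀ c, P' c = g • P c) : IsFirst P' c (g • v) := by
  obtain ⟨m, hm, hm'⟩ := hv
  refine ⟨m, ?_, fun k hk => ?_⟩
  · rw [h, hm, Option.smul_some]
  · rw [h, hm' k hk, Option.smul_none]

end First

section Code

variable {G V : Type} [Group G] [MulAction G V] {r : ℕ}

theorem code_le {e : (Fin (2 * r + 1) → V) → ℕ} {Q : ℕ} (he : ∀ w, e w ≤ Q) (P : ℤ → V) (n : ℤ) :
    code G e P n ≤ Q :=
  le_trans (Nat.sInf_le ⟨1, rfl⟩) (he _)

theorem code_smul (e : (Fin (2 * r + 1) → V) → ℕ) {P P' : ℤ → V} (g : G)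
    (h : ∀ c, P' c = g • P c) : code G e P' = code G e P := by
  funext n
  unfold code win
  congr 1
  ext k
  constructor
  · rintro ⟨a, rfl⟩
    exact ⟨a * g, by simp only [mul_smul, h]⟩
  · rintro ⟨a, rfl⟩
    exact ⟨a * g⁻¹, by simp only [mul_smul, h, inv_smul_smul]⟩

theorem code_congr (e : (Fin (2 * r + 1) → V) → ℕ) {P P' : ℤ → V} {n n' : ℤ}
    (h : ∀ j : ℤ, |j| ≤ (r : ℤ) → P (n + j) = P' (n' + j)) :
    code G e P n = code G e P' n' := by
  have hw : win P r n = win P' r n' := by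
    funext t
    have ht := t.2
    have h1 := h ((t : ℕ) - (r : ℤ)) (by rw [abs_le]; constructor <;> omega)
    have e1 : n + ((t : ℕ) - (r : ℤ)) = n - r + (t : ℕ) := by ring
    have e2 : n' + ((t : ℕ) - (r : ℤ)) = n' - r + (t : ℕ) := by ring
    rw [e1, e2] at h1
    exact h1
  unfold code
  rw [hw]

/-- Positions with the same code whose windows are close to `g` have windows in one orbit. -/
theorem exists_of_code_eq {e : (Fin (2 * r + 1) → V) → ℕ} {Q : ℕ} {A : Set V}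
    (h1 : ∀ w, (∀ t, w t ∈ A) → e w < Q)
    (h2 : ∀ w w', e w < Q → e w = e w' → w = w') {P : ℤ → V} {n n' : ℤ} {g : G}
    (hn : ∀ j : ℤ, |j| ≤ (r : ℤ) → g⁻¹ • P (n + j) ∈ A)
    (h : code G e P n = code G e P n') :
    ∃ γ : G, ∀ j : ℤ, |j| ≤ (r : ℤ) → γ • P (n + j) = P (n' + j) := by
  have key : ∀ m : ℤ, ∃ g : G, code G e P m = e (fun t => g • win P r m t) := by
    intro m
    have hne : {k | ∃ g : G, k = e (fun t => g • win P r m t)}.Nonempty := ⟨_, 1, rfl⟩
    exact Nat.sInf_mem hne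
  obtain ⟨g₁, hg₁⟩ := key n
  obtain ⟨g₂, hg₂⟩ := key n'
  have hlt : code G e P n < Q := by
    refine lt_of_le_of_lt (Nat.sInf_le ⟨g⁻¹, rfl⟩) (h1 _ fun t => ?_)
    have ht := t.2
    have h3 := hn ((t : ℕ) - (r : ℤ)) (by rw [abs_le]; constructor <;> omega)
    have e1 : n + ((t : ℕ) - (r : ℤ)) = n - r + (t : ℕ) := by ring
    rw [e1] at h3
    exact h3
  rw [hg₁] at hlt
  rw [hg₁, hg₂] at h
  have h4 := h2 _ _ hlt h
  refine ⟨g₂⁻¹ * g₁, fun j hj => ?_⟩
  have hb := abs_le.mp hj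
  have hlt' : (j + r).toNat < 2 * r + 1 := by omega
  have h5 := congrFun h4 ⟨(j + r).toNat, hlt'⟩
  simp only [win] at h5
  have e1 : n - r + ((j + r).toNat : ℤ) = n + j := by omega
  have e2 : n' - r + ((j + r).toNat : ℤ) = n' + j := by omega
  rw [e1, e2] at h5
  rw [mul_smul, h5, inv_smul_smul]

end Code

/-- Windows with entries in the finite set `A` have injective codes less than `Q`; the other windows
have the code `Q`. -/
theorem exists_enc {V : Type} {A : Set V} (hA : A.Finite) (r Q : ℕ)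
    (hQ : A.ncard ^ (2 * r + 1) ≤ Q) :
    ∃ e : (Fin (2 * r + 1) → V) → ℕ, (∀ w, e w ≤ Q) ∧ (∀ w, (∀ t, w t ∈ A) → e w < Q) ∧
      ∀ w w', e w < Q → e w = e w' → w = w' := by
  classical
  have hfin : Finite A := hA.to_subtype
  have : Fintype A := Fintype.ofFinite A
  let W : Type := Fin (2 * r + 1) → A
  have hW : Fintype.card W ≤ Q := by
    refine le_trans ?_ hQ
    have h1 : Fintype.card W = Fintype.card A ^ (2 * r + 1) := by
      simp only [W, Fintype.card_fun, Fintype.card_fin]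
    rw [h1, ← Nat.card_eq_fintype_card]
    rfl
  obtain ⟨f⟩ : Nonempty (W ↪ Fin Q) := by
    rw [Function.Embedding.nonempty_iff_card_le, Fintype.card_fin]
    exact hW
  let e : (Fin (2 * r + 1) → V) → ℕ := fun w =>
    if h : ∀ t, w t ∈ A then (f fun t => ⟨w t, h t⟩ : ℕ) else Q
  have he1 : ∀ w (h : ∀ t, w t ∈ A), e w = (f fun t => ⟨w t, h t⟩ : ℕ) :=
    fun w h => dif_pos h
  have he2 : ∀ w, ¬ (∀ t, w t ∈ A) → e w = Q := fun w h => dif_neg h
  refine ⟨e, fun w => ?_, fun w h => ?_, fun w w' hlt heq => ?_⟩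
  · by_cases h : ∀ t, w t ∈ A
    · rw [he1 w h]
      exact (f _).2.le
    · rw [he2 w h]
  · rw [he1 w h]
    exact (f _).2
  · have h : ∀ t, w t ∈ A := by
      by_contra h
      rw [he2 w h] at hlt
      exact lt_irrefl _ hlt
    have h' : ∀ t, w' t ∈ A := by
      by_contra h'
      rw [heq, he2 w' h'] at hlt
      exact lt_irrefl _ hlt
    rw [he1 w h, he1 w' h'] at heq
    have h3 := f.injective (Fin.ext heq)
    funext t
    exact congrArg Subtype.val (congrFun h3 t)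

end Pool.Agent.GLN
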