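import Pool.Agent.Lib.MP_98022b_gln.SeqCols

/-!
# The marker colours are colours
-/

set_option autoImplicit false

open Set

namespace Pool.Agent.GLN

variable {G X V : Type} [Group G] [MulAction G V] {dV : V → V → ℕ}
  {B W q : ℕ}

theorem isCol_colK (hd : IsDist G dV) (D : SeqData G X V dV B W q)
    {L R R' Q Z r : ℕ} {e : (Fin (2 * r + 1) → Option V) → ℕ} {F : (ℤ → ℕ) → ℤ → Prop} {C' : ℤ}
    {A : Set (Option V)} (he : ∀ w, e w ≤ Q) (he1 : ∀ w, (∀ t, w t ∈ A) → e w < Q)
    (he2 : ∀ w w', e w < Q → e w = e w' → w = w')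
    (hA : ∀ g x, D.Dom g x → ∀ c : ℤ, |c| ≤ W → g⁻¹ • D.P g x c ∈ A)
    (_hrule : IsRule F Z)
    (hF : ∀ c, (∀ n, c n ≤ Q) → ∀ n n' : ℤ, |n' - n| < R' → F c n → F c n' → c n = c n')
    (hR : R' ≤ R) (hC' : 0 ≤ C') (hr : C' + R' + L + B ≤ r) (hW : r + Z + C' + R' + B ≤ W) :
    IsCol (fun _ => True) (colK D L R e F C' R') := by
  have b1 : |(0 : ℤ)| ≤ W := by
    rw [abs_zero]
    positivity
  have b2 : |(0 : ℤ) + B| ≤ W := by
    rw [abs_le]
    constructor <;> omega
  have b3 : |(L : ℤ)| ≤ W := by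
    rw [abs_le]
    constructor <;> omega
  have b4 : |(L : ℤ) + B| ≤ W := by
    rw [abs_le]
    constructor <;> omega
  refine ⟨?_, ?_, fun _ _ _ _ => trivial⟩
  · rintro g x l l' ⟨hx, ⟨v, w, hv, hw, hnt⟩, n, hn, hFn, hl⟩ ⟨-, -, n', hn', hFn', hl'⟩
    by_cases hnn : n = n'
    · subst hnn
      exact hl.unique hl'
    · exfalso
      refine hnt ?_
      have hcode := hF (code G e (D.P g x)) (code_le he _) n n' (by
        rw [abs_lt]
        constructor <;> omega) hFn hFn'
      have hclose : ∀ j : ℤ, |j| ≤ (r : ℤ) → g⁻¹ • D.P g x (n + j) ∈ A := by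
        intro j hj
        have h4 := abs_le.1 hj
        exact hA g x hx _ (by rw [abs_le]; constructor <;> omega)
      obtain ⟨γ, hγ⟩ := exists_of_code_eq he1 he2 hclose hcode
      -- the states at the positions of the first states
      have key : ∀ (c : ℤ), 0 ≤ c → c ≤ L → ∀ u : V, IsFirst (D.P g x) c u →
          (dV (γ • u) u : ℤ) = |n' - n| ∧ γ • u ≠ u := by
        intro c hc0 hcL u hu
        obtain ⟨m, hm, u', hu1, hu2⟩ := D.exists_first hx (c := c)
          (by rw [abs_le]; constructor <;> omega) (by rw [abs_le]; constructor <;> omega)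
        have e1 : u = u' := hu.unique ⟨m, hu1, hu2⟩
        subst e1
        have h1 := hγ (c + m - n) (by rw [abs_le]; constructor <;> omega)
        rw [show n + (c + m - n) = c + m by ring, hu1, Option.smul_some] at h1
        have h2 := D.dist g x hx (n' + (c + m - n)) (c + m)
          (by rw [abs_le]; constructor <;> omega) (by rw [abs_le]; constructor <;> omega)
          (γ • u) u h1.symm hu1
        rw [show n' + (c + m - n) - (c + m) = n' - n by ring] at h2
        refine ⟨h2, fun h3 => ?_⟩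
        have h4 := D.dist g x hx (c + m) (c + m)
          (by rw [abs_le]; constructor <;> omega) (by rw [abs_le]; constructor <;> omega)
          u u hu1 hu1
        rw [h3, h4, sub_self, abs_zero] at h2
        have h5 := abs_eq_zero.1 h2.symm
        omega
      have hlt : |n' - n| ≤ (R : ℤ) := by
        rw [abs_le]
        constructor <;> omega
      obtain ⟨k1, k2⟩ := key 0 le_rfl (by positivity) v hv
      obtain ⟨k3, -⟩ := key L (by positivity) le_rfl w hw
      refine ⟨γ, ⟨?_, ?_⟩, v, k2⟩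
      · rw [← k1] at hlt
        exact_mod_cast hlt
      · rw [← k3] at hlt
        exact_mod_cast hlt
  · rintro h g x l ⟨hx, ⟨v, w, hv, hw, hnt⟩, n, hn, hFn, hl⟩
    refine ⟨D.dom_smul h g x hx, ⟨h • v, h • w, hv.smul h (D.smul h g x),
      hw.smul h (D.smul h g x), ?_⟩, n, hn, ?_, hl.smul h (D.smul h g x)⟩
    · rw [sq_nt_smul hd]
      exact hnt
    · rw [code_smul e h (D.smul h g x)]
      exact hFn

end Pool.Agent.GLN
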