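import Pool.Agent.Lib.MP_98022b_gln.SeqBasic

/-!
# The colours of a family of sequences are colours
-/

set_option autoImplicit false

open Set

namespace Pool.Agent.GLN

variable {G X V Ω : Type} [Group G] [MulAction G V] [MulAction G Ω]
  [PartialOrder Ω] {dV : V → V → ℕ} {B W q ρ : ℕ}

/-! ### `Sq` -/

theorem sq_smul (hd : IsDist G dV) (R : ℕ) (h : G) (v w : V) :
    Sq G dV R (h • v) (h • w) = {γ | h⁻¹ * γ * h ∈ Sq G dV R v w} := by
  have key : ∀ (γ : G) (v : V), dV ((h⁻¹ * γ * h) • v) v = dV (γ • h • v) (h • v) := by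
    intro γ v
    rw [← hd.smul h, ← mul_smul, ← mul_assoc, ← mul_assoc, mul_inv_cancel, one_mul, mul_smul]
  ext γ
  show _ ∧ _ ↔ _ ∧ _
  rw [key, key]

theorem nt_conj {h γ : G} : NT V (h⁻¹ * γ * h) ↔ NT V γ := by
  constructor
  · rintro ⟨v, hv⟩
    refine ⟨h • v, fun h1 => hv ?_⟩
    rw [mul_smul, mul_smul, h1, inv_smul_smul]
  · rintro ⟨v, hv⟩
    refine ⟨h⁻¹ • v, fun h1 => hv ?_⟩
    rw [mul_smul, mul_smul, smul_inv_smul] at h1
    have h2 := congrArg (fun w => h • w) h1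
    simpa only [smul_inv_smul] using h2

theorem sq_nt_smul (hd : IsDist G dV) (R : ℕ) (h : G) (v w : V) :
    (∃ γ ∈ Sq G dV R (h • v) (h • w), NT V γ) ↔ ∃ γ ∈ Sq G dV R v w, NT V γ := by
  rw [sq_smul hd]
  constructor
  · rintro ⟨γ, hγ, hN⟩
    exact ⟨_, hγ, nt_conj.2 hN⟩
  · rintro ⟨γ, hγ, hN⟩
    refine ⟨h * γ * h⁻¹, ?_, ?_⟩
    · show h⁻¹ * (h * γ * h⁻¹) * h ∈ Sq G dV R v w
      have e : h⁻¹ * (h * γ * h⁻¹) * h = γ := by group
      rw [e]
      exact hγ
    · refine (nt_conj (h := h)).1 ?_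
      have e : h⁻¹ * (h * γ * h⁻¹) * h = γ := by group
      rw [e]
      exact hN

/-- If the base points move by at most `e`. -/
theorem sq_subset (hd : IsDist G dV) {R e : ℕ} {v w v' w' : V} (hv : dV v v' ≤ e)
    (hw : dV w w' ≤ e) : Sq G dV R v w ⊆ Sq G dV (R + 2 * e) v' w' := by
  have key : ∀ (γ : G) {v v' : V}, dV v v' ≤ e → dV (γ • v) v ≤ R →
      dV (γ • v') v' ≤ R + 2 * e := by
    intro γ v v' hv h
    have h1 := hd.triangle (γ • v') (γ • v) v'
    have h2 := hd.triangle (γ • v) v v'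
    have h3 : dV (γ • v') (γ • v) ≤ e := by
      rw [hd.smul, hd.symm]
      exact hv
    omega
  rintro γ ⟨h1, h2⟩
  exact ⟨key γ hv h1, key γ hw h2⟩

/-! ### First states -/

namespace SeqData

variable (D : SeqData G X V dV B W q)

theorem exists_first {g : G} {x : X} (hx : D.Dom g x) {c : ℤ} (hc : |c| ≤ W) (hc' : |c + B| ≤ W) :
    ∃ m : ℕ, m ≤ B ∧ ∃ v, D.P g x (c + m) = some v ∧ ∀ k < m, D.P g x (c + k) = none :=
  exists_isFirst (D.dense g x hx c hc hc')

theorem first_congr {g : G} {x : X} (hx : D.Dom g x) {c : ℤ} (hc : |c| ≤ W) (hc' : |c + B| ≤ W)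
    {P' : ℤ → Option V} {c' : ℤ} (h : ∀ k : ℕ, k ≤ B → P' (c' + k) = D.P g x (c + k)) {v : V}
    (hv : IsFirst (D.P g x) c v) : IsFirst P' c' v := by
  obtain ⟨m, hm, w, hw, hw'⟩ := D.exists_first hx hc hc'
  have e : v = w := hv.unique ⟨m, hw, hw'⟩
  subst e
  exact IsFirst.congr hw hw' fun k hk => h k (hk.trans hm)

theorem abs_le_of {c : ℤ} (hc : |c| ≤ W) (hc' : |c + B| ≤ W) {k : ℕ} (hk : k ≤ B) :
    |c + k| ≤ (W : ℤ) := by
  have h1 := abs_le.1 hc
  have h2 := abs_le.1 hc'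
  rw [abs_le]
  constructor <;> omega

theorem dist_first {g : G} {x : X} (hx : D.Dom g x) {c c' : ℤ} (hc : |c| ≤ W) (hc' : |c + B| ≤ W)
    (hd : |c'| ≤ W) (hd' : |c' + B| ≤ W) {v v' : V} (hv : IsFirst (D.P g x) c v)
    (hv' : IsFirst (D.P g x) c' v') : (dV v v' : ℤ) ≤ |c - c'| + B ∧ |c - c'| ≤ dV v v' + B := by
  obtain ⟨m, hm, w, hw, hw'⟩ := D.exists_first hx hc hc'
  have e : v = w := hv.unique ⟨m, hw, hw'⟩
  subst e
  obtain ⟨k, hk, w, hw1, hw1'⟩ := D.exists_first hx hd hd'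
  have e : v' = w := hv'.unique ⟨k, hw1, hw1'⟩
  subst e
  rw [D.dist g x hx _ _ (abs_le_of hc hc' hm) (abs_le_of hd hd' hk) _ _ hw hw1]
  have h1 := abs_sub_abs_le_abs_sub (c + m - (c' + k)) (c - c')
  have h2 := abs_sub_abs_le_abs_sub (c - c') (c + m - (c' + k))
  have h3 : |c + (m : ℤ) - (c' + k) - (c - c')| ≤ B := by
    rw [abs_le]
    constructor <;> omega
  have h4 : |c - c' - (c + (m : ℤ) - (c' + k))| = |c + (m : ℤ) - (c' + k) - (c - c')| :=
    abs_sub_comm _ _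
  rw [h4] at h2
  constructor <;> linarith

/-- The first states of two frames. -/
theorem dist_first_sees {η : ℕ} {g h : G} {x y : X} (hx : D.Dom g x) {σ : ℤ} (hσ : |σ| ≤ η)
    (hs : ∀ c : ℤ, |c| ≤ W → D.P h y (c + σ) = D.P g x c) {c : ℤ}
    (hc : |c| + η + B ≤ W) {v v' : V} (hv : IsFirst (D.P g x) c v)
    (hv' : IsFirst (D.P h y) c v') : dV v v' ≤ η + B := by
  have h0 := abs_le.1 hσ
  have h1 := abs_le.1 (le_refl |c|)
  -- `v'` is the first state of `(g, x)` after `c - σ`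
  have h2 : IsFirst (D.P g x) (c - σ) v' := by
    obtain ⟨m, hm, v₁, hv₁, hv₁'⟩ := D.exists_first hx (c := c - σ)
      (by rw [abs_le]; constructor <;> omega) (by rw [abs_le]; constructor <;> omega)
    have h3 : ∀ k : ℕ, k ≤ B → D.P h y (c + k) = D.P g x (c - σ + k) := by
      intro k hk
      have := hs (c - σ + k) (by rw [abs_le]; constructor <;> omega)
      rw [← this]
      congr 1
      ring
    have h4 : IsFirst (D.P h y) c v₁ := IsFirst.congr hv₁ hv₁' fun k hk => h3 k (hk.trans hm)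
    rw [hv'.unique h4]
    exact ⟨m, hv₁, hv₁'⟩
  have h5 := D.dist_first hx (by rw [abs_le]; constructor <;> omega)
    (by rw [abs_le]; constructor <;> omega) (by rw [abs_le]; constructor <;> omega)
    (by rw [abs_le]; constructor <;> omega) hv h2
  have h6 : c - (c - σ) = σ := by ring
  rw [h6] at h5
  have h7 := h5.1
  omega

end SeqData

/-! ### The colours by algebras -/

theorem isCol_colF (hd : IsDist G dV) (D : SeqData G X V dV B W q) (A : AlgData G V Ω dV ρ)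
    {L R : ℕ} (hLW : L + B ≤ W)
    (hfar : ∀ v w : V, L ≤ dV v w + B → (∃ γ ∈ Sq G dV R v w, NT V γ) →
      A.good (A.alg (Sq G dV R v w))) :
    IsCol A.good (colF D A L R) := by
  have b1 : |(0 : ℤ)| ≤ W := by
    rw [abs_zero]
    positivity
  have b2 : |(0 : ℤ) + B| ≤ W := by
    rw [abs_le]
    constructor <;> omega
  have b3 : |(L : ℤ)| ≤ W := by
    rw [abs_le]
    constructor <;> omega
  have b4 : |(L : ℤ) + B| ≤ W := by
    rw [abs_le]
    constructor <;> omega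
  refine ⟨?_, ?_, ?_⟩
  · rintro g x l l' ⟨-, v, w, hv, hw, -, rfl⟩ ⟨-, v', w', hv', hw', -, rfl⟩
    rw [hv.unique hv', hw.unique hw']
  · rintro h g x l ⟨hx, v, w, hv, hw, hN, rfl⟩
    refine ⟨D.dom_smul h g x hx, h • v, h • w, hv.smul h (D.smul h g x), hw.smul h (D.smul h g x),
      (sq_nt_smul hd R h v w).2 hN, ?_⟩
    rw [sq_smul hd, A.smul]
  · rintro g x l ⟨hx, v, w, hv, hw, hN, rfl⟩
    refine hfar v w ?_ hN
    have h2 := (D.dist_first hx b1 b2 b3 b4 hv hw).2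
    have h3 : |(0 : ℤ) - L| = L := by
      rw [zero_sub, abs_neg]
      exact abs_of_nonneg (by positivity)
    rw [h3] at h2
    omega

end Pool.Agent.GLN
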