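import Pool.Agent.Lib.MP_98022b_gl.MarkRate
import Pool.Agent.Lib.MP_98022b_gln.SeqDefs

/-!
# Marks with small radius

Three reductions, then greedy marks.
-/

set_option autoImplicit false

open Set

namespace Pool.Agent.GLN

open Pool.Agent.GT (redB exists_red exists_greedy)

/-- The radius of the marks. -/
def kap3 (R Q : ℕ) : ℕ :=
  3 * R + R * redB (2 * R + 1) (redB (2 * R + 1) (redB (2 * R + 1) Q))

theorem exists_marks3 (R : ℕ) (hR : 0 < R) (Q : ℕ) :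
    ∃ F : (ℤ → ℕ) → ℤ → Prop, IsRule F (kap3 R Q) ∧
      ∀ c, (∀ n, c n ≤ Q) →
        (∀ n n' : ℤ, |n' - n| < R → F c n → F c n' → c n = c n') ∧
        ∀ n : ℤ, ∃ n', |n' - n| < R ∧ F c n' := by
  have hcard : ∀ M : ℕ, M ^ Nat.card Unit = M := by simp
  obtain ⟨r1, hr1, hr1b, hr1c⟩ := exists_red Unit R Q
  rw [hcard] at hr1b
  obtain ⟨r2, hr2, hr2b, hr2c⟩ := exists_red Unit R (redB (2 * R + 1) Q)
  rw [hcard] at hr2b
  obtain ⟨r3, hr3, hr3b, hr3c⟩ := exists_red Unit R (redB (2 * R + 1) (redB (2 * R + 1) Q))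
  rw [hcard] at hr3b
  obtain ⟨F, hF, hF2⟩ := exists_greedy Unit R hR (redB (2 * R + 1)
    (redB (2 * R + 1) (redB (2 * R + 1) Q)))
  have hrule : GT.IsRule (fun c => F (r3 (r2 (r1 c)))) (kap3 R Q) := by
    have h1 := GT.IsRule.comp hr1 (GT.IsRule.comp hr2 (GT.IsRule.comp hr3 hF))
    have h2 : R + (R + (R + R * redB (2 * R + 1)
        (redB (2 * R + 1) (redB (2 * R + 1) Q)))) = kap3 R Q := by
      unfold kap3
      ring
    rw [← h2]
    exact h1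
  refine ⟨fun c n => F (r3 (r2 (r1 (fun m => c (m ()))))) (fun _ => n), ?_, fun c hc => ?_⟩
  · intro c c' n n' h
    refine hrule (fun m => c (m ())) (fun m => c' (m ())) (fun _ => n) (fun _ => n') fun δ hδ => ?_
    exact h (δ ()) (hδ ())
  · have hc' : ∀ n : Unit → ℤ, (fun m : Unit → ℤ => c (m ())) n ≤ Q := fun n => hc _
    have hb1 := hr1b _ hc'
    have hb2 := hr2b _ hb1
    have hb3 := hr3b _ hb2
    obtain ⟨h1, h2⟩ := hF2 _ hb3
    refine ⟨fun n n' hn hFn hFn' => ?_, fun n => ?_⟩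
    · have h3 := h1 (fun _ => n) (fun _ => n') (fun _ => hn) hFn hFn'
      by_contra hne
      exact hr3c _ hb2 (fun _ => n) (fun _ => n') (fun _ => hn.le)
        (hr2c _ hb1 _ _ (fun _ => hn.le)
          (hr1c _ hc' (fun _ => n) (fun _ => n') (fun _ => hn.le) hne)) h3
    · obtain ⟨n', hn', hFn'⟩ := h2 (fun _ => n)
      exact ⟨n' (), hn' (), hFn'⟩

/-- `log₂ (redB M Q) ≤ M * (log₂ (log₂ Q + 1) + 2)`. -/
theorem log_redB (M Q : ℕ) : Nat.log 2 (redB M Q) ≤ M * (Nat.log 2 (Nat.log 2 Q + 1) + 2) := by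
  unfold redB
  have h1 : 2 * (Nat.log 2 Q + 1) ≤ 2 ^ (Nat.log 2 (Nat.log 2 Q + 1) + 2) := by
    have := Nat.lt_pow_succ_log_self (b := 2) (by norm_num) (Nat.log 2 Q + 1)
    rw [pow_succ]
    rw [pow_succ] at this ⊢
    omega
  calc Nat.log 2 ((2 * (Nat.log 2 Q + 1)) ^ M)
      ≤ Nat.log 2 ((2 ^ (Nat.log 2 (Nat.log 2 Q + 1) + 2)) ^ M) :=
        Nat.log_mono_right (Nat.pow_le_pow_left h1 _)
    _ = M * (Nat.log 2 (Nat.log 2 Q + 1) + 2) := by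
        rw [← pow_mul, Nat.log_pow (by norm_num), Nat.mul_comm]

theorem redB_mono {M Q Q' : ℕ} (h : Q ≤ Q') : redB M Q ≤ redB M Q' := by
  unfold redB
  exact Nat.pow_le_pow_left (by have := Nat.log_mono_right (b := 2) h; omega) _

/-- Polynomials in `t` are less than `2 ^ t`. -/
theorem exists_t' (M c t₀ : ℕ) : ∃ t : ℕ, t₀ ≤ t ∧ 1 ≤ t ∧ c * t ^ M ≤ 2 ^ t := by
  have h := tendsto_pow_const_div_const_pow_of_one_lt M (r := (2 : ℝ)) one_lt_two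
  have hc : (0 : ℝ) < 1 / (c + 1) := by positivity
  obtain ⟨t, h1, h2⟩ := ((h.eventually_lt_const hc).and
    (Filter.eventually_ge_atTop (max 1 t₀))).exists
  refine ⟨t, (le_max_right _ _).trans h2, (le_max_left _ _).trans h2, ?_⟩
  have h3 : (t : ℝ) ^ M < 1 / (c + 1) * 2 ^ t := (div_lt_iff₀ (by positivity)).1 h1
  have h4 : ((c : ℝ) + 1) * (t : ℝ) ^ M < 2 ^ t := by
    have h5 := mul_lt_mul_of_pos_left h3 (show (0 : ℝ) < c + 1 by positivity)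
    rwa [← mul_assoc, mul_one_div_cancel (by positivity), one_mul] at h5
  have h6 : (c : ℝ) * (t : ℝ) ^ M ≤ 2 ^ t := by
    have h7 : (0 : ℝ) ≤ (t : ℝ) ^ M := by positivity
    nlinarith
  exact_mod_cast h6

/-- The parameters: `H` is large, and `Q` is the number of the codes. -/
theorem exists_param (A R a H₀ b : ℕ) :
    ∃ H : ℕ, H₀ ≤ H ∧ kap3 R ((2 ^ 2 ^ (H ^ A) + 1) ^ a) + b ≤ H := by
  -- `H = 2 ^ t`, everything is a polynomial in `t`
  obtain ⟨M, hM⟩ : ∃ M, M = 2 * R + 1 := ⟨_, rfl⟩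
  obtain ⟨t, ht₀, ht1, ht⟩ := exists_t' M
    (3 * R + b + R * (2 * (M * (A + a + M + 5) + 1)) ^ M) H₀
  refine ⟨2 ^ t, ht₀.trans Nat.lt_two_pow_self.le, le_trans ?_ ht⟩
  have hpos : 1 ≤ t ^ M := Nat.one_le_pow _ _ ht1
  -- the first logarithm
  have h1 : Nat.log 2 ((2 ^ 2 ^ ((2 ^ t) ^ A) + 1) ^ a) + 1 ≤ 2 ^ ((2 ^ t) ^ A + a + 1) := by
    have h2 : (2 ^ 2 ^ ((2 ^ t) ^ A) + 1) ^ a ≤ 2 ^ ((2 ^ ((2 ^ t) ^ A) + 1) * a) := by
      rw [pow_mul]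
      refine Nat.pow_le_pow_left ?_ _
      rw [pow_succ]
      have : 1 ≤ 2 ^ 2 ^ ((2 ^ t) ^ A) := Nat.one_le_two_pow
      omega
    have h3 : Nat.log 2 ((2 ^ 2 ^ ((2 ^ t) ^ A) + 1) ^ a) ≤ (2 ^ ((2 ^ t) ^ A) + 1) * a := by
      refine (Nat.log_mono_right h2).trans ?_
      rw [Nat.log_pow (by norm_num)]
    have h4 : a + 1 ≤ 2 ^ a := Nat.lt_two_pow_self
    have h5 : 1 ≤ 2 ^ ((2 ^ t) ^ A) := Nat.one_le_two_pow
    calc Nat.log 2 ((2 ^ 2 ^ ((2 ^ t) ^ A) + 1) ^ a) + 1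
        ≤ (2 ^ ((2 ^ t) ^ A) + 1) * a + 1 := by omega
      _ ≤ (2 ^ ((2 ^ t) ^ A) * 2) * (a + 1) := by nlinarith
      _ ≤ (2 ^ ((2 ^ t) ^ A) * 2) * 2 ^ a := Nat.mul_le_mul_left _ h4
      _ = 2 ^ ((2 ^ t) ^ A + a + 1) := by
          rw [pow_add, pow_add]
          ring
  have h6 : Nat.log 2 (redB M ((2 ^ 2 ^ ((2 ^ t) ^ A) + 1) ^ a)) ≤
      M * ((2 ^ t) ^ A + a + 3) := by
    refine (log_redB _ _).trans (Nat.mul_le_mul_left _ ?_)
    have := Nat.log_mono_right (b := 2) h1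
    rw [Nat.log_pow (by norm_num)] at this
    omega
  have hA : (2 ^ t) ^ A = 2 ^ (t * A) := by rw [← pow_mul]
  -- the second logarithm
  have h7 : M * ((2 ^ t) ^ A + a + 3) + 1 ≤ 2 ^ (t * A + a + M + 3) := by
    rw [hA]
    have h4 : a + 1 ≤ 2 ^ a := Nat.lt_two_pow_self
    have h8 : M + 1 ≤ 2 ^ M := Nat.lt_two_pow_self
    have h9 : 1 ≤ 2 ^ (t * A) := Nat.one_le_two_pow
    have h10 : 2 ^ (t * A) + a + 3 ≤ 2 ^ (t * A) * (a + 1) * 4 := by nlinarith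
    calc M * (2 ^ (t * A) + a + 3) + 1 ≤ M * (2 ^ (t * A) * (a + 1) * 4) +
          2 ^ (t * A) * (a + 1) * 4 := by nlinarith
      _ = 2 ^ (t * A) * (a + 1) * (M + 1) * 4 := by ring
      _ ≤ 2 ^ (t * A) * 2 ^ a * 2 ^ M * 4 := by gcongr
      _ ≤ 2 ^ (t * A) * 2 ^ a * 2 ^ M * 8 := by nlinarith [Nat.zero_le (2 ^ (t * A) * 2 ^ a * 2 ^ M)]
      _ = 2 ^ (t * A + a + M + 3) := by
          rw [pow_add, pow_add, pow_add, show (2 : ℕ) ^ 3 = 8 from rfl]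
  have h11 : Nat.log 2 (redB M (redB M ((2 ^ 2 ^ ((2 ^ t) ^ A) + 1) ^ a))) ≤
      M * (t * A + a + M + 5) := by
    refine (log_redB _ _).trans (Nat.mul_le_mul_left _ ?_)
    have h12 : Nat.log 2 (redB M ((2 ^ 2 ^ ((2 ^ t) ^ A) + 1) ^ a)) + 1 ≤
        2 ^ (t * A + a + M + 3) := by omega
    have := Nat.log_mono_right (b := 2) h12
    rw [Nat.log_pow (by norm_num)] at this
    omega
  -- the third one
  have h13 : redB M (redB M (redB M ((2 ^ 2 ^ ((2 ^ t) ^ A) + 1) ^ a))) ≤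
      (2 * (M * (A + a + M + 5) + 1)) ^ M * t ^ M := by
    rw [← Nat.mul_pow]
    conv_lhs => unfold redB
    refine Nat.pow_le_pow_left ?_ _
    have h14 : M * (t * A + a + M + 5) + 1 ≤ (M * (A + a + M + 5) + 1) * t := by
      have h15 : t * A + a + M + 5 ≤ (A + a + M + 5) * t := by nlinarith
      calc M * (t * A + a + M + 5) + 1 ≤ M * ((A + a + M + 5) * t) + t :=
            Nat.add_le_add (Nat.mul_le_mul_left _ h15) ht1
        _ = (M * (A + a + M + 5) + 1) * t := by ring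
    calc 2 * (Nat.log 2 (redB M (redB M ((2 ^ 2 ^ ((2 ^ t) ^ A) + 1) ^ a))) + 1)
        ≤ 2 * (M * (t * A + a + M + 5) + 1) := by omega
      _ ≤ 2 * ((M * (A + a + M + 5) + 1) * t) := Nat.mul_le_mul_left _ h14
      _ = 2 * (M * (A + a + M + 5) + 1) * t := by ring
  unfold kap3
  rw [← hM]
  calc 3 * R + R * redB M (redB M (redB M ((2 ^ 2 ^ ((2 ^ t) ^ A) + 1) ^ a))) + b
      ≤ 3 * R + R * ((2 * (M * (A + a + M + 5) + 1)) ^ M * t ^ M) + b := by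
        have := Nat.mul_le_mul_left R h13
        omega
    _ = (3 * R + b) * 1 + R * (2 * (M * (A + a + M + 5) + 1)) ^ M * t ^ M := by ring
    _ ≤ (3 * R + b) * t ^ M + R * (2 * (M * (A + a + M + 5) + 1)) ^ M * t ^ M :=
        Nat.add_le_add_right (Nat.mul_le_mul_left _ hpos) _
    _ = (3 * R + b + R * (2 * (M * (A + a + M + 5) + 1)) ^ M) * t ^ M := by ring

end Pool.Agent.GLN
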