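import Pool.Agent.Lib.MP_98022b_gln.SeqColK
import Pool.Agent.Lib.MP_98022b_gln.SeqMarks

/-!
# A common colour
-/

set_option autoImplicit false

open Set

namespace Pool.Agent.GLN

variable {G X V Ω : Type} [Group G] [MulAction G V] [MulAction G Ω]
  [PartialOrder Ω] {dV : V → V → ℕ} {B W q ρ : ℕ}

/-- A monotone sequence in an ordered set of rank at most `ρ` is not strictly increasing. -/
theorem exists_eq_succ {Ω : Type} [PartialOrder Ω] {rank : Ω → ℕ}
    (hlt : ∀ a b, a < b → rank a < rank b) (hle : ∀ a, rank a ≤ ρ) (a : ℕ → Ω)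
    (hmono : ∀ j, a j ≤ a (j + 1)) : ∃ j < ρ + 1, a j = a (j + 1) := by
  by_contra h
  push Not at h
  have h1 : ∀ j ≤ ρ + 1, j ≤ rank (a j) := by
    intro j
    induction j with
    | zero => exact fun _ => Nat.zero_le _
    | succ j ih =>
      intro hj
      have h2 := ih (by omega)
      have h3 := hlt _ _ (lt_of_le_of_ne (hmono j) (h j (by omega)))
      omega
  have h2 := h1 (ρ + 1) le_rfl
  have h3 := hle (a (ρ + 1))
  omega

theorem common_colF (hd : IsDist G dV) (D : SeqData G X V dV B W q) (A : AlgData G V Ω dV ρ)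
    {η L R₀ : ℕ} (hW : L + η + B ≤ W) {g : G} {x : X} (hx : D.Dom g x) {v w : V}
    (hv : IsFirst (D.P g x) 0 v) (hw : IsFirst (D.P g x) L w)
    (hN : ∃ γ ∈ Sq G dV R₀ v w, NT V γ) :
    ∃ (j : Fin (ρ + 1)) (l : Ω), ∀ h y, D.Sees η g x h y →
      colF D A L (R₀ + 2 * (η + B) * (2 * (j : ℕ) + 1)) h y l := by
  obtain ⟨γ, hγ, hγN⟩ := hN
  -- the levels
  set R : ℕ → ℕ := fun k => R₀ + 2 * (η + B) * k with hR
  have hstep : ∀ k, R k + 2 * (η + B) = R (k + 1) := fun k => by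
    simp only [hR]
    ring
  have hself : ∀ k, Sq G dV (R k) v w ⊆ Sq G dV (R (k + 1)) v w := by
    intro k γ hγ
    have := hstep k
    exact ⟨hγ.1.trans (by omega), hγ.2.trans (by omega)⟩
  have hle : ∀ k, Sq G dV R₀ v w ⊆ Sq G dV (R k) v w := by
    intro k
    induction k with
    | zero => exact fun γ hγ => by simpa [hR] using hγ
    | succ k ih => exact ih.trans (hself k)
  obtain ⟨j, hj, hj'⟩ := exists_eq_succ A.rank_lt A.rank_le
    (fun j => A.alg (Sq G dV (R (2 * j)) v w)) (fun j => by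
      refine A.mono _ _ ?_
      have e : 2 * (j + 1) = 2 * j + 1 + 1 := by ring
      rw [e]
      exact (hself _).trans (hself _))
  have hj'' : A.alg (Sq G dV (R (2 * j)) v w) = A.alg (Sq G dV (R (2 * j + 2)) v w) := hj'
  refine ⟨⟨j, hj⟩, A.alg (Sq G dV (R (2 * j)) v w), fun h y hs => ?_⟩
  obtain ⟨hy, σ, hσ, hs⟩ := hs
  obtain ⟨m, -, v', hv1, hv2⟩ := D.exists_first hy (c := 0)
    (by rw [abs_le]; constructor <;> omega) (by rw [abs_le]; constructor <;> omega)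
  obtain ⟨m', -, w', hw1, hw2⟩ := D.exists_first hy (c := (L : ℤ))
    (by rw [abs_le]; constructor <;> omega) (by rw [abs_le]; constructor <;> omega)
  have hv' : IsFirst (D.P h y) 0 v' := ⟨m, hv1, hv2⟩
  have hw' : IsFirst (D.P h y) L w' := ⟨m', hw1, hw2⟩
  have dv : dV v v' ≤ η + B := by
    refine D.dist_first_sees hx hσ hs ?_ hv hv'
    rw [abs_zero]
    omega
  have dw : dV w w' ≤ η + B := by
    refine D.dist_first_sees hx hσ hs ?_ hw hw'
    rw [abs_of_nonneg (by positivity)]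
    omega
  have h1 : ∀ k, Sq G dV (R k) v w ⊆ Sq G dV (R (k + 1)) v' w' := by
    intro k
    rw [← hstep]
    exact sq_subset hd dv dw
  have h2 : ∀ k, Sq G dV (R k) v' w' ⊆ Sq G dV (R (k + 1)) v w := by
    intro k
    rw [← hstep]
    exact sq_subset hd (by rw [hd.symm]; exact dv) (by rw [hd.symm]; exact dw)
  refine ⟨hy, v', w', hv', hw', ⟨γ, h1 _ (hle _ hγ), hγN⟩, ?_⟩
  refine le_antisymm (A.mono _ _ (h1 _)) ?_
  rw [hj'']
  exact A.mono _ _ (h2 _)

theorem common_colK (hd : IsDist G dV) (D : SeqData G X V dV B W q)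
    {η L R Q Z r : ℕ} {e : (Fin (2 * r + 1) → Option V) → ℕ} {F : (ℤ → ℕ) → ℤ → Prop}
    (he : ∀ w, e w ≤ Q) (hrule : IsRule F Z)
    (hF : ∀ c, (∀ n, c n ≤ Q) → ∀ n : ℤ, ∃ n', |n' - n| < ((4 * η + 4 : ℕ) : ℤ) ∧ F c n')
    (hW : L + η + B ≤ W) (hW' : r + Z + 10 * η + 10 + B ≤ W) {g : G} {x : X} (hx : D.Dom g x)
    {v w : V} (hv : IsFirst (D.P g x) 0 v) (hw : IsFirst (D.P g x) L w)
    (hN : ¬ ∃ γ ∈ Sq G dV (R + 2 * (η + B)) v w, NT V γ) :
    ∃ (κ : Fin 4) (l : V), ∀ h y, D.Sees η g x h y →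
      colK D L R e F (((κ : ℕ) : ℤ) * (2 * η + 2)) (4 * η + 4) h y l := by
  obtain ⟨n', hn', hFn'⟩ := hF (code G e (D.P g x)) (code_le he _) (5 * η + 4 : ℤ)
  rw [abs_lt] at hn'
  push_cast at hn'
  have hκ : ∃ κ : Fin 4, ((κ : ℕ) : ℤ) * (2 * η + 2) ≤ n' - η ∧
      n' - η < ((κ : ℕ) : ℤ) * (2 * η + 2) + (2 * η + 2) := by
    by_cases h1 : n' - η < 2 * η + 2
    · exact ⟨0, by simp; omega, by simp; omega⟩
    by_cases h2 : n' - η < 2 * (2 * η + 2)
    · exact ⟨1, by simp; omega, by simp; omega⟩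
    by_cases h3 : n' - η < 3 * (2 * η + 2)
    · exact ⟨2, by simp; omega, by simp; omega⟩
    · exact ⟨3, by simp; omega, by simp; omega⟩
  obtain ⟨κ, hκ1, hκ2⟩ := hκ
  obtain ⟨m, hm, l, hl, hl'⟩ := D.exists_first hx (c := n')
    (by rw [abs_le]; constructor <;> omega) (by rw [abs_le]; constructor <;> omega)
  refine ⟨κ, l, fun h y hs => ?_⟩
  obtain ⟨hy, σ, hσ, hs⟩ := hs
  have hσ' := abs_le.1 hσ
  obtain ⟨m', -, v', hv1, hv2⟩ := D.exists_first hy (c := 0)
    (by rw [abs_le]; constructor <;> omega) (by rw [abs_le]; constructor <;> omega)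
  obtain ⟨m'', -, w', hw1, hw2⟩ := D.exists_first hy (c := (L : ℤ))
    (by rw [abs_le]; constructor <;> omega) (by rw [abs_le]; constructor <;> omega)
  have hv' : IsFirst (D.P h y) 0 v' := ⟨m', hv1, hv2⟩
  have hw' : IsFirst (D.P h y) L w' := ⟨m'', hw1, hw2⟩
  have dv : dV v v' ≤ η + B := by
    refine D.dist_first_sees hx hσ hs ?_ hv hv'
    rw [abs_zero]
    omega
  have dw : dV w w' ≤ η + B := by
    refine D.dist_first_sees hx hσ hs ?_ hw hw'
    rw [abs_of_nonneg (by positivity)]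
    omega
  refine ⟨hy, ⟨v', w', hv', hw', ?_⟩, n' + σ, ⟨by omega, by push_cast; omega⟩, ?_, ?_⟩
  · rintro ⟨γ, hγ, hγN⟩
    exact hN ⟨γ, sq_subset hd (by rw [hd.symm]; exact dv) (by rw [hd.symm]; exact dw) hγ, hγN⟩
  · have h5 : F (code G e (D.P h y)) (n' + σ) = F (code G e (D.P g x)) n' := by
      refine hrule _ _ _ _ fun δ hδ => ?_
      refine code_congr e fun j hj => ?_
      have h6 := abs_le.1 hj
      have h7 := abs_le.1 hδ
      have h8 := hs (n' + δ + j) (by rw [abs_le]; constructor <;> omega)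
      rw [← h8]
      congr 1
      ring
    rw [h5]
    exact hFn'
  · refine IsFirst.congr hl hl' fun k hk => ?_
    have h8 := hs (n' + k) (by rw [abs_le]; constructor <;> omega)
    rw [← h8]
    congr 1
    ring

/-- The colours of a family of sequences. -/
theorem exists_long_colours (hd : IsDist G dV) (A : AlgData G V Ω dV ρ) (η B : ℕ) :
    ∃ a b : ℕ, ∀ (X : Type) (W q : ℕ) (D : SeqData G X V dV B W q),
      kap3 (4 * η + 4) ((q + 1) ^ a) + b ≤ W →
      ∃ (cF : Fin (ρ + 1) → G → X → Ω → Prop) (cK : Fin 4 → G → X → V → Prop),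
        (∀ j, IsCol A.good (cF j)) ∧ (∀ κ, IsCol (fun _ => True) (cK κ)) ∧
        ∀ g x, D.Dom g x → (∃ j l, ∀ h y, D.Sees η g x h y → cF j h y l) ∨
          ∃ κ l, ∀ h y, D.Sees η g x h y → cK κ h y l := by
  classical
  choose f hf using A.far
  obtain ⟨R', hR'⟩ : ∃ R', R' = 4 * η + 4 := ⟨_, rfl⟩
  obtain ⟨R₀, hR₀⟩ : ∃ R₀, R₀ = R' + 2 * (η + B) := ⟨_, rfl⟩
  obtain ⟨L, hL⟩ : ∃ L, L = B + (Finset.range (ρ + 1)).sup
    (fun j => f (R₀ + 2 * (η + B) * (2 * j + 1))) := ⟨_, rfl⟩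
  obtain ⟨r, hr⟩ : ∃ r, r = 6 * η + 6 + R' + L + B := ⟨_, rfl⟩
  refine ⟨2 * r + 1, r + 10 * η + 10 + B + L + η, fun X W q D hW => ?_⟩
  obtain ⟨A₀, hA₀, hcard, hfin⟩ := D.fin
  obtain ⟨Q, hQ⟩ : ∃ Q, Q = (q + 1) ^ (2 * r + 1) := ⟨_, rfl⟩
  rw [← hQ, ← hR'] at hW
  have hA1 : (insert none (some '' A₀) : Set (Option V)).Finite := (hA₀.image _).insert _
  have hA1c : (insert none (some '' A₀) : Set (Option V)).ncard ≤ q + 1 := by
    refine (Set.ncard_insert_le _ _).trans ?_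
    have := Set.ncard_image_le (f := some) hA₀
    omega
  have hmem : ∀ g x, D.Dom g x → ∀ c : ℤ, |c| ≤ W →
      g⁻¹ • D.P g x c ∈ (insert none (some '' A₀) : Set (Option V)) := by
    intro g x hx c hc
    rcases hP : D.P g x c with _ | v
    · rw [Option.smul_none]
      exact Set.mem_insert _ _
    · rw [Option.smul_some]
      exact Set.mem_insert_of_mem _ ⟨_, hfin g x hx c hc v hP, rfl⟩
  obtain ⟨e, he, he1, he2⟩ := exists_enc hA1 r Q (by
    rw [hQ]
    exact Nat.pow_le_pow_left hA1c _)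
  obtain ⟨F, hrule, hF⟩ := exists_marks3 R' (by omega) Q
  refine ⟨fun j => colF D A L (R₀ + 2 * (η + B) * (2 * (j : ℕ) + 1)),
    fun κ => colK D L R' e F (((κ : ℕ) : ℤ) * (2 * η + 2)) R', ?_, ?_, ?_⟩
  · intro j
    refine isCol_colF hd D A (by omega) fun v w h1 h2 => hf _ v w ?_ h2
    have h3 : f (R₀ + 2 * (η + B) * (2 * (j : ℕ) + 1)) ≤ (Finset.range (ρ + 1)).sup
        (fun j => f (R₀ + 2 * (η + B) * (2 * j + 1))) :=
      Finset.le_sup (f := fun j => f (R₀ + 2 * (η + B) * (2 * j + 1)))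
        (Finset.mem_range.2 j.2)
    omega
  · intro κ
    have hκ : ((κ : ℕ) : ℤ) * (2 * η + 2) ≤ 6 * η + 6 := by
      have h3 : ((κ : ℕ) : ℤ) ≤ 3 := by
        have := κ.2
        omega
      nlinarith
    have hκ0 : 0 ≤ ((κ : ℕ) : ℤ) * (2 * η + 2) := by positivity
    refine isCol_colK hd D (Z := kap3 R' Q) he he1 he2 hmem hrule (fun c hc => (hF c hc).1) le_rfl
      hκ0 ?_ ?_
    · rw [hr]
      push_cast
      omega
    · omega
  · intro g x hx
    obtain ⟨m, -, v, hv1, hv2⟩ := D.exists_first hx (c := 0)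
      (by rw [abs_le]; constructor <;> omega) (by rw [abs_le]; constructor <;> omega)
    obtain ⟨m', -, w, hw1, hw2⟩ := D.exists_first hx (c := (L : ℤ))
      (by rw [abs_le]; constructor <;> omega) (by rw [abs_le]; constructor <;> omega)
    have hv : IsFirst (D.P g x) 0 v := ⟨m, hv1, hv2⟩
    have hw : IsFirst (D.P g x) L w := ⟨m', hw1, hw2⟩
    by_cases hN : ∃ γ ∈ Sq G dV R₀ v w, NT V γ
    · left
      obtain ⟨j, l, hl⟩ := common_colF hd D A (η := η) (by omega) hx hv hw hN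
      exact ⟨j, l, hl⟩
    · right
      rw [hR₀] at hN
      obtain ⟨κ, l, hl⟩ := common_colK hd D (Z := kap3 R' Q) he hrule
        (fun c hc => by rw [← hR']; exact (hF c hc).2) (by omega) (by omega) hx hv hw hN
      refine ⟨κ, l, fun h y hs => ?_⟩
      have := hl _ _ hs
      rw [← hR'] at this
      exact this

end Pool.Agent.GLN
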