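import Pool.Agent.Lib.MP_98022b_gln.GeoMainN
import Pool.Agent.Lib.MP_98022b_gln.PGLOfSL
import Pool.Agent.Lib.MP_98022b_gl.Param
import Pool.Agent.Lib.MP_98022b_gl.Frob

/-!
# The step of the induction on the transcendence degree

Row GB17. Strong induction on `n`. By `mem_PGL_of_SL` and `mem_GL_of_PGL` it suffices to consider the
group generated by a finite set of matrices of determinant `1`. Proceed as in
`MP_98022b_gl/StepF.lean` (`exists_ratFunc`, `exists_sep`, the map `a ↦ a ^ q ^ n`), with `G'` the
subgroup of `GL_n (E)` generated by the preimages of the images of the generators (finitely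
generated, determinant `1`, entries in the ring `B` of integral elements, as it is contained in the
image of `GL_n (B)`), and `mem_geo`.
-/

set_option autoImplicit false

namespace Pool.Agent.GLN

open Pool.Agent.FJ Pool.Agent.GT

variable {P : ∀ (G : Type) [Group G], Prop}

/-- Finitely generated groups of matrices of determinant `1`. -/
theorem mem_closure (hP : IsFJClass P) (hgeo : GeoMem P)
    (hsol : ∀ (G : Type) [Group G], Group.IsSolvable G → P G)
    {K F : Type} [Field K] [Field F] [IsAlgClosed F] [Countable F] [Algebra K F] {t : F}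
    (ht : Transcendental K t) (halg : ∀ a : F, IsAlgebraic (Algebra.adjoin K {t}) a)
    (hK : ∀ m : ℕ, P (GL (Fin m) K)) {m : ℕ} (hF : ∀ k < m, P (GL (Fin k) F))
    (hF' : ∀ k < m, P (Matrix.ProjGenLinGroup (Fin k) F)) (S : Finset (GL (Fin m) F))
    (hS : ∀ M ∈ S, M.1.det = 1) : P (Subgroup.closure (S : Set (GL (Fin m) F))) := by
  classical
  -- the entries
  let s : Finset F := S.biUnion fun M =>
    Finset.univ.image (fun p : Fin m × Fin m => M.1 p.1 p.2) ∪
      Finset.univ.image (fun p : Fin m × Fin m => (M⁻¹).1 p.1 p.2)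
  have hs1 : ∀ M ∈ S, ∀ i j, M.1 i j ∈ s := fun M hM i j =>
    Finset.mem_biUnion.2 ⟨M, hM, Finset.mem_union_left _
      (Finset.mem_image.2 ⟨(i, j), Finset.mem_univ _, rfl⟩)⟩
  have hs2 : ∀ M ∈ S, ∀ i j, (M⁻¹).1 i j ∈ s := fun M hM i j =>
    Finset.mem_biUnion.2 ⟨M, hM, Finset.mem_union_right _
      (Finset.mem_image.2 ⟨(i, j), Finset.mem_univ _, rfl⟩)⟩
  obtain ⟨ι, hι, hint⟩ := exists_ratFunc ht s (fun a _ => halg a)
  letI algF : Algebra (RatFunc K) F := ι.toAlgebra
  have hq : ExpChar F (ringExpChar F) := inferInstance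
  have halg' : ∀ a ∈ s, IsIntegral (RatFunc K) a := by
    intro a ha
    obtain ⟨p, hp, hp0⟩ := hint a ha
    refine ⟨p.map (algebraMap (Polynomial K) (RatFunc K)), hp.map _, ?_⟩
    rw [Polynomial.eval₂_map]
    exact hp0
  obtain ⟨n, hn⟩ := exists_sep (k := RatFunc K) (ringExpChar F) s
    (fun a ha => (halg' a ha).isAlgebraic)
  -- the field generated by the powers of the entries
  let X : Set F := (fun a => a ^ ringExpChar F ^ n) '' (s : Set F)
  let E : IntermediateField (RatFunc K) F := IntermediateField.adjoin (RatFunc K) X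
  have hfin : FiniteDimensional (RatFunc K) E := by
    have hXfin : X.Finite := (s.finite_toSet).image _
    have : Finite X := hXfin
    refine IntermediateField.finiteDimensional_adjoin fun x hx => ?_
    obtain ⟨a, ha, rfl⟩ := hx
    exact (halg' a ha).pow _
  have hsep : Algebra.IsSeparable (RatFunc K) E := by
    rw [IntermediateField.isSeparable_adjoin_iff_isSeparable]
    rintro x ⟨a, ha, rfl⟩
    exact hn a ha
  have hcount : Countable E := Subtype.countable
  letI algX : Algebra (Polynomial K) E := (pE K E).toAlgebra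
  let B : Subring E := (integralClosure (Polynomial K) E).toSubring
  let f : B →+* F := (algebraMap E F).comp B.subtype
  have hf : Function.Injective f := (algebraMap E F).injective.comp Subtype.val_injective
  have hpow : ∀ a ∈ s, ∃ b : B, f b = a ^ ringExpChar F ^ n := by
    intro a ha
    have hmem : a ^ ringExpChar F ^ n ∈ E :=
      IntermediateField.subset_adjoin _ _ ⟨a, ha, rfl⟩
    have hint' : (pE K E).IsIntegralElem ⟨a ^ ringExpChar F ^ n, hmem⟩ := by
      have h1 : (ι.comp (algebraMap (Polynomial K) (RatFunc K))).IsIntegralElem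
          (a ^ ringExpChar F ^ n) := by
        letI alg2 : Algebra (Polynomial K) F :=
          (ι.comp (algebraMap (Polynomial K) (RatFunc K))).toAlgebra
        have h2 : IsIntegral (Polynomial K) a := hint a ha
        exact h2.pow _
      obtain ⟨p, hp, hp0⟩ := h1
      refine ⟨p, hp, ?_⟩
      apply (algebraMap E F).injective
      rw [Polynomial.hom_eval₂, map_zero]
      exact hp0
    exact ⟨⟨⟨a ^ ringExpChar F ^ n, hmem⟩, hint'⟩, rfl⟩
  -- the Frobenius map
  let Φ : GL (Fin m) F →* GL (Fin m) F :=
    Matrix.GeneralLinearGroup.map (n := Fin m) (iterateFrobenius F (ringExpChar F) n)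
  have hΦ : Function.Injective Φ := map_injective _ (RingHom.injective _)
  have hent : ∀ (M : GL (Fin m) F) (i j : Fin m), (Φ M).1 i j = M.1 i j ^ ringExpChar F ^ n :=
    fun M i j => rfl
  let toF : GL (Fin m) E →* GL (Fin m) F := Matrix.GeneralLinearGroup.map (algebraMap E F)
  have htoF : Function.Injective toF := map_injective _ (algebraMap E F).injective
  let toE : GL (Fin m) B →* GL (Fin m) E := Matrix.GeneralLinearGroup.map B.subtype
  have hlift : ∀ M ∈ S, ∃ U : GL (Fin m) B, toF (toE U) = Φ M := by
    intro M hM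
    obtain ⟨U, hU⟩ := mem_range_map f hf (Φ M)
      (fun i j => by rw [hent]; exact hpow _ (hs1 M hM i j))
      (fun i j => by
        rw [← map_inv, hent]
        exact hpow _ (hs2 M hM i j))
    exact ⟨U, by rw [← hU]; rfl⟩
  choose! U hU using hlift
  -- the group over `E`
  let G' : Subgroup (GL (Fin m) E) :=
    Subgroup.closure ((S.image fun M => toE (U M) : Finset (GL (Fin m) E)) : Set (GL (Fin m) E))
  have hle : G' ≤ toE.range := by
    rw [Subgroup.closure_le]
    intro x hx
    rw [Finset.coe_image] at hx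
    obtain ⟨M, -, rfl⟩ := hx
    exact ⟨U M, rfl⟩
  have hdet' : ∀ g ∈ G', g.1.det = 1 := by
    have h1 : G' ≤ (Matrix.GeneralLinearGroup.det (n := Fin m) (R := E)).ker := by
      rw [Subgroup.closure_le]
      intro x hx
      rw [Finset.coe_image] at hx
      obtain ⟨M, hM, rfl⟩ := hx
      rw [SetLike.mem_coe, MonoidHom.mem_ker]
      apply Units.ext
      apply (algebraMap E F).injective
      show algebraMap E F ((toE (U M)).1.det) = algebraMap E F 1
      have h2 : algebraMap E F ((toE (U M)).1.det) = ((toF (toE (U M))).1).det := by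
        rw [RingHom.map_det]
        rfl
      have h3 : (Φ M).1.det = (M.1.det) ^ ringExpChar F ^ n := by
        have h4 : (Φ M).1 = (iterateFrobenius F (ringExpChar F) n).mapMatrix M.1 := rfl
        rw [h4, ← RingHom.map_det]
        rfl
      rw [h2, hU M hM, h3, hS M hM, one_pow, map_one]
    intro g hg
    exact congrArg Units.val (h1 hg)
  have hG' : P G' := by
    refine mem_geo (K := K) (F := F) hP hgeo hsol hK hF hF' G'
      ⟨_, rfl⟩ hdet' ?_
    intro g hg i j
    obtain ⟨V, rfl⟩ := hle hg
    exact (V.1 i j).2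
  have hmap : (Subgroup.closure (S : Set (GL (Fin m) F))).map Φ ≤ G'.map toF := by
    rw [MonoidHom.map_closure, Subgroup.closure_le]
    rintro _ ⟨M, hM, rfl⟩
    refine ⟨toE (U M), Subgroup.subset_closure ?_, hU M hM⟩
    rw [Finset.coe_image]
    exact ⟨M, hM, rfl⟩
  have hG'F : P (G'.map toF) :=
    hP.of_equiv (G'.equivMapOfInjective toF htoF).symm hG'
  have e := (Subgroup.closure (S : Set (GL (Fin m) F))).equivMapOfInjective Φ hΦ
  exact hP.of_equiv e (hP.of_le hmap hG'F)

theorem mem_step (hP : IsFJClass P) (hgeo : GeoMem P)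
    (hsol : ∀ (G : Type) [Group G], Group.IsSolvable G → P G)
    {K F : Type} [Field K] [Field F] [IsAlgClosed F] [Countable F] [Algebra K F] {t : F}
    (ht : Transcendental K t) (halg : ∀ a : F, IsAlgebraic (Algebra.adjoin K {t}) a)
    (hK : ∀ m : ℕ, P (GL (Fin m) K)) (n : ℕ) :
    P (GL (Fin n) F) ∧ P (Matrix.ProjGenLinGroup (Fin n) F) := by
  induction n using Nat.strong_induction_on with
  | _ n ih =>
    have h1 : P (Matrix.ProjGenLinGroup (Fin n) F) :=
      mem_PGL_of_SL hP fun S hS => mem_closure hP hgeo hsol ht halg hK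
        (fun k hk => (ih k hk).1) (fun k hk => (ih k hk).2) S hS
    exact ⟨mem_GL_of_PGL hP hsol h1, h1⟩

end Pool.Agent.GLN
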