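import Pool.Agent.Lib.MP_98022b_gln.Track

/-!
# Row E2: the sequence of the persistent states of a track

`clk s = κ s - κ (2 * H)` on `[0, 5 * H]`. `pers_unique`: the times have the same clock, use
`IsTrack.eq`. `pers_inj`: `dl p p = 0`.
-/

set_option autoImplicit false

open Set Filter Topology

namespace Pool.Agent.TR

variable {G V : Type} [Group G] [MulAction G V]

section

variable {V : Type}

theorem clk_eq {dl : V → V → ℤ} {M : ℕ} {H : ℝ} {u : ℝ → V} {κ : ℝ → ℤ} (hH : 0 ≤ H)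
    (hu : IsTrack dl M (5 * H) u κ) {s : ℝ} (hs : s ∈ Icc 0 (5 * H)) :
    clk dl u H s = κ s - κ (2 * H) := by
  have h2 : 2 * H ∈ Icc 0 (5 * H) := ⟨by linarith, by linarith⟩
  unfold clk
  split_ifs with h
  · rw [hu.dl_eq _ h2 _ hs, abs_sub_comm, abs_of_nonneg (sub_nonneg.2 (hu.mono _ h2 _ hs h))]
  · rw [hu.dl_eq _ h2 _ hs, abs_of_nonneg
      (sub_nonneg.2 (hu.mono _ hs _ h2 (le_of_lt (not_le.1 h))))]
    ring

/-- Times with the same state have the same clock. -/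
theorem kap_eq_of_eq {dl : V → V → ℤ} {M : ℕ} {b : ℝ} {u : ℝ → V} {κ : ℝ → ℤ}
    (hu : IsTrack dl M b u κ) {s t : ℝ} (hs : s ∈ Icc 0 b) (ht : t ∈ Icc 0 b) (h : u s = u t) :
    κ s = κ t := by
  have h1 := hu.dl_eq s hs t ht
  have h2 := hu.dl_eq s hs s hs
  rw [← h, h2, sub_self, abs_zero] at h1
  have h3 := abs_eq_zero.1 h1.symm
  linarith

theorem pers_unique {dl : V → V → ℤ} {M : ℕ} {H δ : ℝ} {u : ℝ → V} {κ : ℝ → ℤ} (hH : 0 ≤ H)
    (hδ : 0 ≤ δ) (hu : IsTrack dl M (5 * H) u κ) {c : ℤ} {p p' : V} (h : Pers dl u H δ c p)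
    (h' : Pers dl u H δ c p') : p = p' := by
  obtain ⟨s₁, s₂, h1, h2, h3, h4⟩ := h
  obtain ⟨t₁, t₂, k1, k2, k3, k4⟩ := h'
  have hs : s₁ ∈ Icc 0 (5 * H) := ⟨by linarith, by linarith⟩
  have ht : t₁ ∈ Icc 0 (5 * H) := ⟨by linarith, by linarith⟩
  obtain ⟨a1, a2⟩ := h4 s₁ ⟨le_rfl, by linarith⟩
  obtain ⟨b1, b2⟩ := k4 t₁ ⟨le_rfl, by linarith⟩
  rw [clk_eq hH hu hs] at a2
  rw [clk_eq hH hu ht] at b2
  rw [← a1, ← b1]
  exact hu.eq _ hs _ ht (by linarith)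

theorem pers_inj {dl : V → V → ℤ} {M : ℕ} {H δ : ℝ} {u : ℝ → V} {κ : ℝ → ℤ} (hH : 0 ≤ H)
    (hδ : 0 ≤ δ) (hu : IsTrack dl M (5 * H) u κ) {c c' : ℤ} {p : V} (h : Pers dl u H δ c p)
    (h' : Pers dl u H δ c' p) : c = c' := by
  obtain ⟨s₁, s₂, h1, h2, h3, h4⟩ := h
  obtain ⟨t₁, t₂, k1, k2, k3, k4⟩ := h'
  have hs : s₁ ∈ Icc 0 (5 * H) := ⟨by linarith, by linarith⟩
  have ht : t₁ ∈ Icc 0 (5 * H) := ⟨by linarith, by linarith⟩
  obtain ⟨a1, a2⟩ := h4 s₁ ⟨le_rfl, by linarith⟩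
  obtain ⟨b1, b2⟩ := k4 t₁ ⟨le_rfl, by linarith⟩
  rw [clk_eq hH hu hs] at a2
  rw [clk_eq hH hu ht] at b2
  have h5 := kap_eq_of_eq hu hs ht (a1.trans b1.symm)
  linarith

theorem seqP_eq_some {dl : V → V → ℤ} {M : ℕ} {H δ : ℝ} {u : ℝ → V} {κ : ℝ → ℤ} (hH : 0 ≤ H)
    (hδ : 0 ≤ δ) (hu : IsTrack dl M (5 * H) u κ) {c : ℤ} {p : V} :
    seqP dl u H δ c = some p ↔ Pers dl u H δ c p := by
  unfold seqP
  constructor
  · intro h
    split_ifs at h with h1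
    rw [← Option.some_injective _ h]
    exact h1.choose_spec.1
  · intro h
    have h1 : ∃! p, Pers dl u H δ c p := ⟨p, h, fun q hq => pers_unique hH hδ hu hq h⟩
    rw [dif_pos h1, pers_unique hH hδ hu h1.choose_spec.1 h]

/-- A time of a persistent state is determined by its clock up to `1`. -/
theorem pers_time {dl : V → V → ℤ} {M : ℕ} {H δ : ℝ} {u : ℝ → V} {κ : ℝ → ℤ} (hH : 0 ≤ H)
    (hδ : 0 ≤ δ) (hu : IsTrack dl M (5 * H) u κ) {c : ℤ} {p : V} (h : Pers dl u H δ c p) {t : ℝ}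
    (ht : t ∈ Icc 0 (5 * H)) :
    ∃ s ∈ Icc H (3 * H), u s = p ∧ |s - t| ≤ |(c : ℝ) - (κ t - κ (2 * H))| + 1 := by
  obtain ⟨s₁, s₂, h1, h2, h3, h4⟩ := h
  have hs : s₁ ∈ Icc 0 (5 * H) := ⟨by linarith, by linarith⟩
  obtain ⟨a1, a2⟩ := h4 s₁ ⟨le_rfl, by linarith⟩
  rw [clk_eq hH hu hs] at a2
  refine ⟨s₁, ⟨h1, by linarith⟩, a1, ?_⟩
  rw [← a2]
  have e : (((κ s₁ - κ (2 * H) : ℤ) : ℝ) - (κ t - κ (2 * H))) = κ s₁ - κ t := by
    push_cast
    ring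
  rw [e]
  rcases le_total s₁ t with h5 | h5
  · have := hu.lower _ hs _ ht h5
    rw [abs_sub_comm, abs_of_nonneg (by linarith), abs_sub_comm]
    linarith [le_abs_self ((κ t : ℝ) - κ s₁)]
  · have := hu.lower _ ht _ hs h5
    rw [abs_of_nonneg (by linarith)]
    linarith [le_abs_self ((κ s₁ : ℝ) - κ t)]

end

theorem seqP_smul {dl : V → V → ℤ} (hdl : ∀ (g : G) p q, dl (g • p) (g • q) = dl p q) (g : G)
    (u : ℝ → V) (H δ : ℝ) (c : ℤ) :
    seqP dl (fun s => g • u s) H δ c = g • seqP dl u H δ c := by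
  have hclk : ∀ s, clk dl (fun s => g • u s) H s = clk dl u H s := by
    intro s
    unfold clk
    rw [hdl]
  have hp : ∀ p, Pers dl (fun s => g • u s) H δ c p ↔ Pers dl u H δ c (g⁻¹ • p) := by
    intro p
    unfold Pers
    simp only [hclk, eq_inv_smul_iff]
  unfold seqP
  by_cases h : ∃! p, Pers dl u H δ c p
  · have h' : ∃! p, Pers dl (fun s => g • u s) H δ c p := by
      obtain ⟨p, hp1, hp2⟩ := h
      refine ⟨g • p, (hp _).2 (by rwa [inv_smul_smul]), fun q hq => ?_⟩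
      rw [← hp2 _ ((hp _).1 hq), smul_inv_smul]
    rw [dif_pos h, dif_pos h', Option.smul_some]
    congr 1
    refine (h'.unique h'.choose_spec.1 ((hp _).2 ?_))
    rw [inv_smul_smul]
    exact h.choose_spec.1
  · have h' : ¬ ∃! p, Pers dl (fun s => g • u s) H δ c p := by
      rintro ⟨p, hp1, hp2⟩
      apply h
      refine ⟨g⁻¹ • p, (hp _).1 hp1, fun q hq => ?_⟩
      rw [← hp2 (g • q) ((hp _).2 (by rwa [inv_smul_smul])), inv_smul_smul]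
    rw [dif_neg h, dif_neg h', Option.smul_none]

end Pool.Agent.TR
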